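import Pool.Agent.Lib.MP_6d56f7_co_LT.Cher

/-!
# Cuts in the colour classes
-/

set_option autoImplicit false

namespace Pool.Agent.Lib.LT

open Finset Filter Pool.Agent.Lib.FR

/-- the pairs of the colour `i.1` whose edge goes from `i.2.1` to `i.2.2` -/
private def cc (n : ℕ) (i : Fin (2 * n - 1) × Finset (Fin (2 * n)) × Finset (Fin (2 * n))) :
    Finset (J n) :=
  univ.filter (fun T : J n => T.1 = i.1 ∧
    T.2.1 ∈ (i.2.1 ×ˢ i.2.2).image (fun p => s(p.1, p.2)))

private theorem cc_card (n : ℕ)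
    (i : Fin (2 * n - 1) × Finset (Fin (2 * n)) × Finset (Fin (2 * n)))
    (hi : Disjoint i.2.1 i.2.2) : i.2.1.card * i.2.2.card ≤ (cc n i).card := by
  have hne : ∀ a ∈ i.2.1, ∀ b ∈ i.2.2, a ≠ b := fun a ha b hb h =>
    (disjoint_left.mp hi ha) (h ▸ hb)
  have h1 : ((i.2.1 ×ˢ i.2.2).image
      (fun p : Fin (2 * n) × Fin (2 * n) => s(p.1, p.2))).card =
      i.2.1.card * i.2.2.card := by
    rw [card_image_of_injOn, card_product]
    intro p hp q hq hpq
    rw [mem_coe, mem_product] at hp hq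
    simp only at hpq
    rw [Sym2.eq_iff] at hpq
    rcases hpq with ⟨h2, h3⟩ | ⟨h2, h3⟩
    · exact Prod.ext h2 h3
    · exact absurd h2 (hne _ hp.1 _ hq.2)
  rw [← h1]
  have h2 : (i.2.1 ×ˢ i.2.2).image (fun p : Fin (2 * n) × Fin (2 * n) => s(p.1, p.2)) ⊆
      (cc n i).image (fun T : J n => T.2.1) := by
    intro e he
    have he' := he
    rw [mem_image] at he
    obtain ⟨p, hp, rfl⟩ := he
    rw [mem_product] at hp
    have hd : ¬ (s(p.1, p.2) : Sym2 (Fin (2 * n))).IsDiag := by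
      rw [Sym2.mk_isDiag_iff]
      exact hne _ hp.1 _ hp.2
    rw [mem_image]
    refine ⟨(i.1, ⟨s(p.1, p.2), hd⟩), ?_, rfl⟩
    unfold cc
    rw [mem_filter]
    exact ⟨mem_univ _, rfl, he'⟩
  exact (card_le_card h2).trans card_image_le

private theorem cc_le (n : ℕ) (L : Finset (J n)) (c : Fin (2 * n - 1))
    (U V : Finset (Fin (2 * n))) : (L ∩ cc n (c, U, V)).card ≤
      cnt (fun p : Fin (2 * n) × Fin (2 * n) => tr L p.1 p.2 c ∧ p.1 ∈ U ∧ p.2 ∈ V) := by
  classical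
  rw [cnt_eq]
  have h1 : ((L ∩ cc n (c, U, V)).image (fun T : J n => T.2.1)).card =
      (L ∩ cc n (c, U, V)).card := by
    refine card_image_of_injOn fun T hT T' hT' h => ?_
    rw [mem_coe, mem_inter] at hT hT'
    have h2 := hT.2
    have h3 := hT'.2
    unfold cc at h2 h3
    rw [mem_filter] at h2 h3
    exact Prod.ext (h2.2.1.trans h3.2.1.symm) (Subtype.ext h)
  rw [← h1]
  refine (card_le_card ?_).trans (card_image_le (f := fun p : Fin (2 * n) × Fin (2 * n) =>
    (s(p.1, p.2) : Sym2 (Fin (2 * n)))))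
  intro e he
  rw [mem_image] at he
  obtain ⟨T, hT, rfl⟩ := he
  rw [mem_inter] at hT
  obtain ⟨hL, hD⟩ := hT
  unfold cc at hD
  rw [mem_filter] at hD
  obtain ⟨-, hc, hD⟩ := hD
  rw [mem_image] at hD
  obtain ⟨r, hr, hrp⟩ := hD
  rw [mem_product] at hr
  rw [mem_image]
  refine ⟨r, ?_, hrp⟩
  rw [mem_filter]
  refine ⟨mem_univ _, ?_, hr⟩
  obtain ⟨c', ⟨e, he⟩⟩ := T
  simp only at hc hrp
  subst hc
  subst hrp
  exact ⟨he, hL⟩

theorem whp_cutC : Whp CutC := by
  have h := chernoff 6 (1 / 62500) (by norm_num)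
    (fun n => Fin (2 * n - 1) × Finset (Fin (2 * n)) × Finset (Fin (2 * n)))
    (fun n i => Disjoint i.2.1 i.2.2 ∧ 2 * n - 1 ≤ 250 * i.2.1.card ∧
      2 * n - 1 ≤ 250 * i.2.2.card) (fun n i => cc n i) ?_ ?_
  · intro δ hδ
    filter_upwards [h δ hδ, eventually_ge_atTop 1] with n h1 h2 pp h4 h5
    have h6 : (1 : ℝ) ≤ n := by exact_mod_cast h2
    have h7 := Real.log_nonneg h6
    have h3 : 0 ≤ pm n := by
      unfold pm
      exact div_nonneg (by positivity) (by linarith)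
    refine (Pr_mono (qq_nonneg h3 h4 h5) fun s hs hp => hs ?_).trans (h1 pp h4 h5)
    intro c U V hd hU hV _
    exact (hp (c, U, V) ⟨hd, hU, hV⟩).trans_le (cc_le n _ c U V)
  · filter_upwards [eventually_ge_atTop 1] with n hn
    have h1 : (1 : ℝ) ≤ n := by exact_mod_cast hn
    rw [Fintype.card_prod, Fintype.card_prod, Fintype.card_fin, Fintype.card_finset,
      Fintype.card_fin]
    have h2 : ((2 * n - 1 : ℕ) : ℝ) ≤ Real.exp (2 * n) := by
      have h3 := Real.add_one_le_exp (2 * (n : ℝ))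
      rw [Nat.cast_sub (by omega)]
      push_cast
      linarith
    have h4 : ((2 ^ (2 * n) : ℕ) : ℝ) ≤ Real.exp (2 * n) := by
      have h5 : (2 : ℝ) ≤ Real.exp 1 := by
        have := Real.add_one_le_exp (1 : ℝ)
        linarith
      push_cast
      calc (2 : ℝ) ^ (2 * n) ≤ Real.exp 1 ^ (2 * n) := pow_le_pow_left₀ (by norm_num) h5 _
        _ = Real.exp (2 * n) := by
          rw [← Real.exp_nat_mul]
          push_cast
          ring_nf
    rw [Nat.cast_mul, Nat.cast_mul]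
    calc ((2 * n - 1 : ℕ) : ℝ) * (((2 ^ (2 * n) : ℕ) : ℝ) * ((2 ^ (2 * n) : ℕ) : ℝ))
        ≤ Real.exp (2 * n) * (Real.exp (2 * n) * Real.exp (2 * n)) := by
          refine mul_le_mul h2 (mul_le_mul h4 h4 (by positivity) (Real.exp_pos _).le)
            (by positivity) (Real.exp_pos _).le
      _ = Real.exp (6 * n) := by
          rw [← Real.exp_add, ← Real.exp_add]
          ring_nf
  · filter_upwards [eventually_ge_atTop 1] with n hn i hi
    obtain ⟨hd, hU, hV⟩ := hi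
    have h1 : (1 : ℝ) ≤ n := by exact_mod_cast hn
    have h3 : ((i.2.1.card : ℕ) : ℝ) * ((i.2.2.card : ℕ) : ℝ) ≤ ((cc n i).card : ℝ) := by
      exact_mod_cast cc_card n i hd
    have h4 : (n : ℝ) ≤ 250 * (i.2.1.card : ℝ) := by
      have h5 : n ≤ 250 * i.2.1.card := by omega
      exact_mod_cast h5
    have h5 : (n : ℝ) ≤ 250 * (i.2.2.card : ℝ) := by
      have h5 : n ≤ 250 * i.2.2.card := by omega
      exact_mod_cast h5
    have h6 : (n : ℝ) * n ≤ (250 * (i.2.1.card : ℝ)) * (250 * (i.2.2.card : ℝ)) :=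
      mul_le_mul h4 h5 (by positivity) (by positivity)
    nlinarith [h3, h6]

end Pool.Agent.Lib.LT
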