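import Pool.Agent.Lib.MP_6d56f7_co_LT.Cher

/-!
# Edges of the colour classes inside large sets
-/

set_option autoImplicit false

namespace Pool.Agent.Lib.LT

open Finset Filter Pool.Agent.Lib.FR

/-- the pairs of the colour `i.1` whose edge lies inside `i.2` -/
private def dd (n : ℕ) (i : Fin (2 * n - 1) × Finset (Fin (2 * n))) : Finset (J n) :=
  univ.filter (fun T : J n => T.1 = i.1 ∧ T.2.1 ∈ i.2.offDiag.image (fun p => s(p.1, p.2)))

private theorem dd_card (n : ℕ) (i : Fin (2 * n - 1) × Finset (Fin (2 * n))) :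
    i.2.card.choose 2 ≤ (dd n i).card := by
  have h1 : (i.2.offDiag.image (fun p : Fin (2 * n) × Fin (2 * n) => s(p.1, p.2))).card =
      i.2.card.choose 2 := Sym2.card_image_offDiag i.2
  rw [← h1]
  have h2 : i.2.offDiag.image (fun p : Fin (2 * n) × Fin (2 * n) => s(p.1, p.2)) ⊆
      (dd n i).image (fun T : J n => T.2.1) := by
    intro e he
    have he' := he
    rw [mem_image] at he
    obtain ⟨p, hp, rfl⟩ := he
    rw [mem_offDiag] at hp
    have hd : ¬ (s(p.1, p.2) : Sym2 (Fin (2 * n))).IsDiag := by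
      rw [Sym2.mk_isDiag_iff]
      exact hp.2.2
    rw [mem_image]
    refine ⟨(i.1, ⟨s(p.1, p.2), hd⟩), ?_, rfl⟩
    unfold dd
    rw [mem_filter]
    exact ⟨mem_univ _, rfl, he'⟩
  exact (card_le_card h2).trans card_image_le

private theorem dd_le (n : ℕ) (L : Finset (J n)) (c : Fin (2 * n - 1))
    (U : Finset (Fin (2 * n))) : (L ∩ dd n (c, U)).card ≤
      cnt (fun p : Fin (2 * n) × Fin (2 * n) => tr L p.1 p.2 c ∧ p.1 ∈ U ∧ p.2 ∈ U) := by
  classical
  rw [cnt_eq]
  refine card_le_card_of_injOn (fun T => Quot.out T.2.1) ?_ ?_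
  · intro T hT
    rw [mem_coe, mem_inter] at hT
    obtain ⟨hL, hD⟩ := hT
    unfold dd at hD
    rw [mem_filter] at hD
    obtain ⟨-, hc, hD⟩ := hD
    obtain ⟨c', ⟨e, he⟩⟩ := T
    simp only at hc hD ⊢
    subst hc
    have hq : (s((Quot.out e).1, (Quot.out e).2) : Sym2 (Fin (2 * n))) = e := Quot.out_eq e
    generalize hp : Quot.out e = p at hq ⊢
    subst hq
    rw [mem_image] at hD
    obtain ⟨r, hr, hrp⟩ := hD
    rw [mem_offDiag] at hr
    rw [mem_coe, mem_filter]
    refine ⟨mem_univ _, ⟨he, hL⟩, ?_⟩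
    rw [Sym2.eq_iff] at hrp
    rcases hrp with ⟨h1, h2⟩ | ⟨h1, h2⟩
    · rw [← h1, ← h2]
      exact ⟨hr.1, hr.2.1⟩
    · rw [← h1, ← h2]
      exact ⟨hr.2.1, hr.1⟩
  · intro T hT T' hT' h
    rw [mem_coe, mem_inter] at hT hT'
    have h1 := hT.2
    have h2 := hT'.2
    unfold dd at h1 h2
    rw [mem_filter] at h1 h2
    have h3 : T.2.1 = T'.2.1 := by
      rw [← Quot.out_eq T.2.1, ← Quot.out_eq T'.2.1]
      exact congrArg _ h
    exact Prod.ext (h1.2.1.trans h2.2.1.symm) (Subtype.ext h3)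

theorem whp_inC : Whp InC := by
  have h := chernoff 4 (1 / 10) (by norm_num)
    (fun n => Fin (2 * n - 1) × Finset (Fin (2 * n)))
    (fun n i => 2 * n - 1 ≤ 3 * i.2.card) (fun n i => dd n i) ?_ ?_
  · intro δ hδ
    filter_upwards [h δ hδ, eventually_ge_atTop 1] with n h1 h2 pp h4 h5
    have h6 : (1 : ℝ) ≤ n := by exact_mod_cast h2
    have h7 := Real.log_nonneg h6
    have h3 : 0 ≤ pm n := by
      unfold pm
      exact div_nonneg (by positivity) (by linarith)
    refine (Pr_mono (qq_nonneg h3 h4 h5) fun s hs hp => hs ?_).trans (h1 pp h4 h5)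
    intro c U hU
    exact (hp (c, U) hU).trans_le (dd_le n _ c U)
  · filter_upwards [eventually_ge_atTop 1] with n hn
    have h1 : (1 : ℝ) ≤ n := by exact_mod_cast hn
    rw [Fintype.card_prod, Fintype.card_fin, Fintype.card_finset, Fintype.card_fin]
    have h2 : ((2 * n - 1 : ℕ) : ℝ) ≤ Real.exp (2 * n) := by
      have h3 := Real.add_one_le_exp (2 * (n : ℝ))
      rw [Nat.cast_sub (by omega)]
      push_cast
      linarith
    have h4 : ((2 ^ (2 * n) : ℕ) : ℝ) ≤ Real.exp (2 * n) := by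
      have h5 : (2 : ℝ) ≤ Real.exp 1 := by
        have := Real.add_one_le_exp (1 : ℝ)
        linarith
      push_cast
      calc (2 : ℝ) ^ (2 * n) ≤ Real.exp 1 ^ (2 * n) := pow_le_pow_left₀ (by norm_num) h5 _
        _ = Real.exp (2 * n) := by
          rw [← Real.exp_nat_mul]
          push_cast
          ring_nf
    rw [Nat.cast_mul]
    calc ((2 * n - 1 : ℕ) : ℝ) * ((2 ^ (2 * n) : ℕ) : ℝ)
        ≤ Real.exp (2 * n) * Real.exp (2 * n) :=
          mul_le_mul h2 h4 (by positivity) (Real.exp_pos _).le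
      _ = Real.exp (4 * n) := by
          rw [← Real.exp_add]
          ring_nf
  · filter_upwards [eventually_ge_atTop 5] with n hn i hi
    have h1 : (5 : ℝ) ≤ n := by exact_mod_cast hn
    have h2 := dd_card n i
    have h3 : ((i.2.card.choose 2 : ℕ) : ℝ) ≤ ((dd n i).card : ℝ) := by exact_mod_cast h2
    rw [Nat.cast_choose_two] at h3
    have h4 : 2 * (n : ℝ) - 1 ≤ 3 * (i.2.card : ℝ) := by
      have h5 : 2 * n ≤ 3 * i.2.card + 1 := by omega
      have h6 : (2 : ℝ) * n ≤ 3 * (i.2.card : ℝ) + 1 := by exact_mod_cast h5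
      linarith
    have h5 : (2 * (n : ℝ) - 1) / 3 * ((2 * (n : ℝ) - 1) / 3 - 1) ≤
        (i.2.card : ℝ) * ((i.2.card : ℝ) - 1) :=
      mul_le_mul (by linarith) (by linarith) (by linarith) (by positivity)
    nlinarith [h3, h5, h1]

end Pool.Agent.Lib.LT
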