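import Pool.Agent.Lib.MP_6d56f7_co_LT.Cyl
import Pool.Agent.Lib.MP_6d56f7_co_FR.Asy

/-!
# Isolated elements
-/

set_option autoImplicit false

namespace Pool.Agent.Lib.LT

open Finset Filter Pool.Agent.Lib.FR

private theorem iso_card (n : ℕ) [DecidableEq (El n)]
    [DecidablePred (fun p : J n × (El n × El n) =>
      p.2.1 ≠ p.2.2 ∧ p.1 ∈ st n p.2.1 ∧ p.1 ∈ st n p.2.2)] :
    (univ.filter (fun p : J n × (El n × El n) =>
      p.2.1 ≠ p.2.2 ∧ p.1 ∈ st n p.2.1 ∧ p.1 ∈ st n p.2.2)).card ≤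
      9 * Fintype.card (J n) := by
  classical
  have hsub : (univ.filter (fun p : J n × (El n × El n) =>
      p.2.1 ≠ p.2.2 ∧ p.1 ∈ st n p.2.1 ∧ p.1 ∈ st n p.2.2)) ⊆
      (univ : Finset (J n)).biUnion (fun g =>
        ((univ.filter (fun a => g ∈ st n a)) ×ˢ (univ.filter (fun a => g ∈ st n a))).image
          (fun q => (g, q))) := by
    rintro ⟨g, a, b⟩ h
    rw [mem_filter] at h
    rw [mem_biUnion]
    refine ⟨g, mem_univ _, mem_image.mpr ⟨(a, b), ?_, rfl⟩⟩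
    exact mem_product.mpr ⟨mem_filter.mpr ⟨mem_univ _, h.2.2.1⟩,
      mem_filter.mpr ⟨mem_univ _, h.2.2.2⟩⟩
  refine (card_le_card hsub).trans ?_
  refine (card_biUnion_le_card_mul _ _ 9 fun g _ => ?_).trans ?_
  · refine card_image_le.trans ?_
    rw [card_product]
    have h := els_card n g
    calc (univ.filter (fun a => g ∈ st n a)).card * (univ.filter (fun a => g ∈ st n a)).card
        ≤ 3 * 3 := Nat.mul_le_mul (by convert h) (by convert h)
      _ = 9 := rfl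
  · rw [card_univ, mul_comm]

theorem whp_iso : Whp Iso := by
  intro δ hδ
  have hb := (Asy.base 36 0 (by norm_num : (0 : ℝ) < 1 / 2)).eventually (gt_mem_nhds hδ)
  filter_upwards [hb, Asy.ev_nat 3] with n hb hn pp h1 h2
  classical
  have hn1 : (1 : ℝ) ≤ n := by linarith
  have hl : 0 ≤ Real.log n := Real.log_nonneg hn1
  have hpos : (0 : ℝ) < 2 * n - 1 := by linarith
  have hp0 : 0 ≤ pm n := div_nonneg (by positivity) hpos.le
  have hq := qq_nonneg hp0 h1 h2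
  have hs : ∀ p : J n × (El n × El n), p.2.1 ≠ p.2.2 →
      Pr (qq (pm n) pp) (fun s : J n → Fin 3 => ∀ i ∈ st n p.2.1 ∪ st n p.2.2, s i ≠ 2) ≤
        Real.exp (-(7 / 2 * Real.log n)) := by
    intro p hp
    have hc := cyl hp0 h1 h2 (∅ : Finset (J n)) (st n p.2.1 ∪ st n p.2.2)
      (disjoint_empty_left _)
    rw [card_empty, pow_zero, one_mul] at hc
    refine (Pr_mono hq fun s hs => ?_).trans (hc.trans ?_)
    · exact ⟨fun i hi => absurd hi (notMem_empty i), hs⟩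
    rw [Real.exp_le_exp, neg_le_neg_iff]
    have hu := st_union_card hp
    have hu' : (4 * n : ℝ) ≤ ((st n p.2.1 ∪ st n p.2.2).card : ℝ) + 3 := by
      exact_mod_cast hu
    have h3 : 7 / 2 * Real.log n ≤ pm n * (4 * n - 3) := by
      have h5 : pm n * (4 * n - 3) =
          99 / 50 * Real.log n * (4 * n - 3) / (2 * n - 1) := by
        unfold pm
        ring
      rw [h5, le_div_iff₀ hpos]
      have h4 : 0 ≤ Real.log n * (n - 3) := mul_nonneg hl (by linarith)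
      nlinarith
    refine h3.trans (mul_le_mul_of_nonneg_left ?_ hp0)
    linarith
  have h3 : Pr (qq (pm n) pp) (fun s : J n → Fin 3 => ¬ Iso n (sm s)) ≤
      Pr (qq (pm n) pp) (fun s : J n → Fin 3 =>
        ∃ p ∈ univ.filter (fun p : J n × (El n × El n) =>
          p.2.1 ≠ p.2.2 ∧ p.1 ∈ st n p.2.1 ∧ p.1 ∈ st n p.2.2),
          ∀ i ∈ st n p.2.1 ∪ st n p.2.2, s i ≠ 2) := by
    refine Pr_mono hq fun s hs => ?_
    unfold Iso at hs
    push Not at hs
    obtain ⟨a, b, hab, ⟨T, hTa, hTb⟩, ha, hb⟩ := hs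
    refine ⟨(T, (a, b)), mem_filter.mpr ⟨mem_univ _, hab, hTa, hTb⟩, ?_⟩
    intro i hi h
    have hm : i ∈ sm s := mem_filter.mpr ⟨mem_univ _, h⟩
    rcases mem_union.mp hi with h' | h'
    · exact ha i hm h'
    · exact hb i hm h'
  refine h3.trans ((Pr_exists hq _ _).trans ?_)
  refine (sum_le_card_nsmul _ _ (Real.exp (-(7 / 2 * Real.log n))) fun p hp =>
    hs p (mem_filter.mp hp).2.1).trans ?_
  rw [nsmul_eq_mul]
  have hcard := iso_card n
  rw [J_card] at hcard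
  have h4 : ((univ.filter (fun p : J n × (El n × El n) =>
      p.2.1 ≠ p.2.2 ∧ p.1 ∈ st n p.2.1 ∧ p.1 ∈ st n p.2.2)).card : ℝ) ≤ 36 * (n : ℝ) ^ 3 := by
    have h5 : 9 * ((2 * n - 1) * (n * (2 * n - 1))) ≤ 36 * n ^ 3 := by
      have h6 : 2 * n - 1 ≤ 2 * n := Nat.sub_le _ _
      calc 9 * ((2 * n - 1) * (n * (2 * n - 1))) ≤ 9 * ((2 * n) * (n * (2 * n))) := by gcongr
        _ = 36 * n ^ 3 := by ring
    exact_mod_cast hcard.trans h5
  have hn3 : (n : ℝ) ^ 3 = Real.exp (3 * Real.log n) := by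
    conv_lhs => rw [Asy.nat_eq hn1]
    rw [← Real.exp_nat_mul]
    norm_num
  calc ((univ.filter (fun p : J n × (El n × El n) =>
      p.2.1 ≠ p.2.2 ∧ p.1 ∈ st n p.2.1 ∧ p.1 ∈ st n p.2.2)).card : ℝ) *
        Real.exp (-(7 / 2 * Real.log n))
      ≤ 36 * (n : ℝ) ^ 3 * Real.exp (-(7 / 2 * Real.log n)) :=
        mul_le_mul_of_nonneg_right h4 (Real.exp_pos _).le
    _ = 36 * Real.log n ^ 0 * Real.exp (-(1 / 2 * Real.log n)) := by
        rw [hn3, mul_assoc, ← Real.exp_add, pow_zero, mul_one]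
        ring_nf
    _ ≤ δ := hb.le

end Pool.Agent.Lib.LT
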