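import Mathlib

/-!
# Sums over subsets
-/

set_option autoImplicit false

namespace Pool.Agent.Lib.LT

open Finset

/-- the sum over all subsets -/
private theorem sum_all {E : Type} [Fintype E] [DecidableEq E] {t : ℝ} (ht : 0 ≤ t) :
    ∑ S : Finset E, t ^ S.card ≤ Real.exp (t * Fintype.card E) := by
  have h1 : ∑ S : Finset E, t ^ S.card = (t + 1) ^ Fintype.card E := by
    have := Fintype.sum_pow_mul_eq_add_pow E t (1 : ℝ)
    simpa using this
  rw [h1]
  calc (t + 1) ^ Fintype.card E ≤ (Real.exp t) ^ Fintype.card E :=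
        pow_le_pow_left₀ (by linarith) (Real.add_one_le_exp t) _
    _ = Real.exp (t * Fintype.card E) := by
        rw [← Real.exp_nat_mul, mul_comm]

/-- the sum of `q ^ |S|` over the sets with at least `m` elements -/
theorem sum_big {E : Type} [Fintype E] [DecidableEq E] {q y : ℝ} (hq : 0 ≤ q) (hy : 1 ≤ y)
    (m : ℕ) : ∑ S ∈ (univ : Finset (Finset E)).filter (fun S => m ≤ S.card), q ^ S.card ≤
      (1 / y) ^ m * Real.exp (q * y * Fintype.card E) := by
  have hy0 : (0 : ℝ) < y := by linarith
  have hqy : 0 ≤ q * y := mul_nonneg hq hy0.le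
  calc ∑ S ∈ (univ : Finset (Finset E)).filter (fun S => m ≤ S.card), q ^ S.card
      ≤ ∑ S ∈ (univ : Finset (Finset E)).filter (fun S => m ≤ S.card),
          (1 / y) ^ m * (q * y) ^ S.card := by
        refine Finset.sum_le_sum fun S hS => ?_
        have hm : m ≤ S.card := (Finset.mem_filter.1 hS).2
        obtain ⟨k, hk⟩ := Nat.exists_eq_add_of_le hm
        rw [hk]
        have e1 : (1 / y) ^ m * (q * y) ^ (m + k) = q ^ (m + k) * y ^ k := by
          have : (1 / y) ^ m * y ^ m = 1 := by
            rw [← mul_pow, one_div, inv_mul_cancel₀ hy0.ne', one_pow]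
          calc (1 / y) ^ m * (q * y) ^ (m + k)
              = ((1 / y) ^ m * y ^ m) * (q ^ (m + k) * y ^ k) := by
                rw [mul_pow, pow_add y]; ring
            _ = _ := by rw [this, one_mul]
        rw [e1]
        exact le_mul_of_one_le_right (pow_nonneg hq _) (one_le_pow₀ hy)
    _ ≤ ∑ S : Finset E, (1 / y) ^ m * (q * y) ^ S.card := by
        refine Finset.sum_le_sum_of_subset_of_nonneg (Finset.filter_subset _ _) ?_
        intro S _ _
        positivity
    _ = (1 / y) ^ m * ∑ S : Finset E, (q * y) ^ S.card := by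
        rw [Finset.mul_sum]
    _ ≤ (1 / y) ^ m * Real.exp (q * y * Fintype.card E) :=
        mul_le_mul_of_nonneg_left (sum_all hqy) (by positivity)

/-- the sum of `q ^ |S|` over the sets with at most `m` elements -/
theorem sum_small {E : Type} [Fintype E] [DecidableEq E] {q y : ℝ} (hq : 0 ≤ q) (hy : 0 < y)
    (hy1 : y ≤ 1) (m : ℕ) :
    ∑ S ∈ (univ : Finset (Finset E)).filter (fun S => S.card ≤ m), q ^ S.card ≤
      (1 / y) ^ m * Real.exp (q * y * Fintype.card E) := by
  have hqy : 0 ≤ q * y := mul_nonneg hq hy.le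
  calc ∑ S ∈ (univ : Finset (Finset E)).filter (fun S => S.card ≤ m), q ^ S.card
      ≤ ∑ S ∈ (univ : Finset (Finset E)).filter (fun S => S.card ≤ m),
          (1 / y) ^ m * (q * y) ^ S.card := by
        refine Finset.sum_le_sum fun S hS => ?_
        have hm : S.card ≤ m := (Finset.mem_filter.1 hS).2
        obtain ⟨k, hk⟩ := Nat.exists_eq_add_of_le hm
        have e1 : (1 / y) ^ m * (q * y) ^ S.card = q ^ S.card * (1 / y) ^ k := by
          have : (1 / y) ^ S.card * y ^ S.card = 1 := by
            rw [← mul_pow, one_div, inv_mul_cancel₀ hy.ne', one_pow]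
          calc (1 / y) ^ m * (q * y) ^ S.card
              = ((1 / y) ^ S.card * y ^ S.card) * (q ^ S.card * (1 / y) ^ k) := by
                rw [hk, mul_pow, pow_add (1 / y)]; ring
            _ = _ := by rw [this, one_mul]
        rw [e1]
        exact le_mul_of_one_le_right (pow_nonneg hq _)
          (one_le_pow₀ (by rw [one_div]; exact (one_le_inv₀ hy).2 hy1))
    _ ≤ ∑ S : Finset E, (1 / y) ^ m * (q * y) ^ S.card := by
        refine Finset.sum_le_sum_of_subset_of_nonneg (Finset.filter_subset _ _) ?_
        intro S _ _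
        positivity
    _ = (1 / y) ^ m * ∑ S : Finset E, (q * y) ^ S.card := by
        rw [Finset.mul_sum]
    _ ≤ (1 / y) ^ m * Real.exp (q * y * Fintype.card E) :=
        mul_le_mul_of_nonneg_left (sum_all hqy) (by positivity)

/-- the sum of `q ^ |S|` over the nonempty sets -/
theorem sum_nonempty {E : Type} [Fintype E] [DecidableEq E] {q : ℝ} (hq : 0 ≤ q) :
    ∑ S ∈ (univ : Finset (Finset E)).filter (fun S => S.Nonempty), q ^ S.card ≤
      Real.exp (q * Fintype.card E) - 1 := by
  have h0 := sum_all (E := E) hq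
  have h1 : ∑ S : Finset E, q ^ S.card =
      ∑ S ∈ (univ : Finset (Finset E)).filter (fun S => S.Nonempty), q ^ S.card + 1 := by
    rw [← Finset.sum_filter_add_sum_filter_not (univ : Finset (Finset E))
      (fun S => S.Nonempty)]
    congr 1
    have : (univ : Finset (Finset E)).filter (fun S => ¬ S.Nonempty) = {∅} := by
      ext S
      simp [Finset.not_nonempty_iff_eq_empty]
    rw [this]
    simp
  linarith

end Pool.Agent.Lib.LT
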