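import Pool.Agent.Lib.MP_6d56f7_co_LT.Hit
import Pool.Agent.Lib.MP_6d56f7_co_LT.Sums
import Pool.Agent.Lib.MP_6d56f7_co_FR.Asy

/-!
# Light sets which are not small
-/

set_option autoImplicit false

namespace Pool.Agent.Lib.LT

open Finset Filter Pool.Agent.Lib.FR

private lemma l0_pm_nonneg : ∀ᶠ n : ℕ in atTop, 0 ≤ pm n := by
  filter_upwards [eventually_ge_atTop 1] with n hn
  have h1 : (1 : ℝ) ≤ n := by exact_mod_cast hn
  have h2 := Real.log_nonneg h1
  unfold pm
  exact div_nonneg (by positivity) (by linarith)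

/-- the integer square root tends to infinity -/
private lemma l0_sqrt : Tendsto (fun n : ℕ => Nat.sqrt n) atTop atTop := by
  refine tendsto_atTop_atTop.2 fun b => ⟨b ^ 2, fun n hn => ?_⟩
  rw [Nat.le_sqrt']
  exact hn

/-- the numerical bound -/
private lemma l0_num {δ : ℝ} (hδ : 0 < δ) : ∀ᶠ n : ℕ in atTop,
    ((1 : ℝ) / 2) ^ Nat.sqrt n *
      Real.exp (Real.exp (-(189 / 100 * Real.log n)) * 2 * Fintype.card (El n)) ≤ δ := by
  have he : Real.exp 1 / 4 < 1 := by
    have := Real.exp_one_lt_d9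
    linarith
  have he2 : Real.exp (1 / 2) < 2 := by
    have h1 : Real.exp (1 / 2) * Real.exp (1 / 2) = Real.exp 1 := by
      rw [← Real.exp_add]
      norm_num
    have h2 := Real.exp_pos (1 / 2)
    nlinarith
  have h1 := (tendsto_pow_atTop_nhds_zero_of_lt_one
    (by positivity : (0 : ℝ) ≤ Real.exp (1 / 2) / 2) (by linarith)).comp l0_sqrt
  have h2 := Asy.base 12 0 (by norm_num : (0 : ℝ) < 39 / 100)
  filter_upwards [h1.eventually (ge_mem_nhds (by positivity : (0 : ℝ) < δ / 2)),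
    h2.eventually (ge_mem_nhds (by norm_num : (0 : ℝ) < 1 / 2)), Asy.ev_nat 1] with n h3 h4 h5
  rw [pow_zero, mul_one] at h4
  simp only [Function.comp_apply] at h3
  have hn2 : (n : ℝ) ^ 2 = Real.exp (2 * Real.log n) := by
    conv_lhs => rw [Asy.nat_eq h5]
    rw [← Real.exp_nat_mul]
    norm_num
  have hcard : (Fintype.card (El n) : ℝ) ≤ 6 * (n : ℝ) ^ 2 := by
    rw [El_card]
    have : 3 * (n * (2 * n - 1)) ≤ 6 * n ^ 2 := by
      have h6 : n * (2 * n - 1) ≤ n * (2 * n) := Nat.mul_le_mul_left n (Nat.sub_le _ _)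
      nlinarith
    exact_mod_cast this
  have hsq : Real.exp (1 / 2 * Real.log n) ≤ (Nat.sqrt n : ℝ) + 1 := by
    have e1 : Real.exp (1 / 2 * Real.log n) = √(n : ℝ) := by
      have e3 : Real.exp (1 / 2 * Real.log n) * Real.exp (1 / 2 * Real.log n) = n := by
        rw [← Real.exp_add, show 1 / 2 * Real.log n + 1 / 2 * Real.log n = Real.log n by ring]
        exact (Asy.nat_eq h5).symm
      rw [← Real.sqrt_mul_self (Real.exp_pos (1 / 2 * Real.log n)).le, e3]
    rw [e1]
    exact Real.real_sqrt_le_nat_sqrt_succ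
  have h6 : Real.exp (-(189 / 100 * Real.log n)) * 2 * Fintype.card (El n) ≤
      1 / 2 * ((Nat.sqrt n : ℝ) + 1) := by
    calc Real.exp (-(189 / 100 * Real.log n)) * 2 * Fintype.card (El n)
        ≤ Real.exp (-(189 / 100 * Real.log n)) * 2 * (6 * Real.exp (2 * Real.log n)) := by
          rw [← hn2]
          exact mul_le_mul_of_nonneg_left hcard (by positivity)
      _ = 12 * Real.exp (-(39 / 100 * Real.log n)) * Real.exp (1 / 2 * Real.log n) := by
          have e1 : Real.exp (-(189 / 100 * Real.log n)) * Real.exp (2 * Real.log n) =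
              Real.exp (-(39 / 100 * Real.log n)) * Real.exp (1 / 2 * Real.log n) := by
            rw [← Real.exp_add, ← Real.exp_add]
            congr 1
            ring
          calc Real.exp (-(189 / 100 * Real.log n)) * 2 * (6 * Real.exp (2 * Real.log n))
              = 12 * (Real.exp (-(189 / 100 * Real.log n)) * Real.exp (2 * Real.log n)) := by
                ring
            _ = _ := by rw [e1]; ring
      _ ≤ 1 / 2 * ((Nat.sqrt n : ℝ) + 1) :=
          mul_le_mul h4 hsq (Real.exp_pos _).le (by norm_num)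
  calc ((1 : ℝ) / 2) ^ Nat.sqrt n *
      Real.exp (Real.exp (-(189 / 100 * Real.log n)) * 2 * Fintype.card (El n))
      ≤ ((1 : ℝ) / 2) ^ Nat.sqrt n * Real.exp (1 / 2 * ((Nat.sqrt n : ℝ) + 1)) :=
        mul_le_mul_of_nonneg_left (Real.exp_le_exp.mpr h6) (by positivity)
    _ = Real.exp (1 / 2) * (Real.exp (1 / 2) / 2) ^ Nat.sqrt n := by
        have e2 : Real.exp (1 / 2 * ((Nat.sqrt n : ℝ) + 1)) =
            Real.exp (1 / 2) ^ Nat.sqrt n * Real.exp (1 / 2) := by
          rw [← Real.exp_nat_mul, ← Real.exp_add]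
          congr 1
          ring
        rw [e2, div_pow, div_pow, one_pow]
        ring
    _ ≤ 2 * (δ / 2) := mul_le_mul he2.le h3 (by positivity) (by norm_num)
    _ = δ := by ring

theorem whp_light0 : Whp Light0 := by
  classical
  intro δ hδ
  filter_upwards [hit_light, l0_pm_nonneg, l0_num hδ] with n hhit hpm hnum pp hpp1 hpp2
  have hq := qq_nonneg hpm hpp1 hpp2
  set q : ℝ := Real.exp (-(189 / 100 * Real.log n)) with hqdef
  have hq0 : 0 ≤ q := (Real.exp_pos _).le
  let Ok : Finset (El n) → Prop := fun S => LightS S ∧ n ≤ S.card ^ 2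
  let A : Finset (El n) → (J n → Fin 3) → Prop := fun S s =>
    ¬ ∃ T ∈ sm s, offT (∅ : Finset (Fin (2 * n))) (∅ : Finset (Fin (2 * n - 1))) T ∧ One S T
  have h1 : Pr (qq (pm n) pp) (fun s : J n → Fin 3 => ¬ Light0 n (sm s)) ≤
      Pr (qq (pm n) pp) (fun s : J n → Fin 3 =>
        ∃ S ∈ (univ : Finset (Finset (El n))).filter Ok, A S s) := by
    refine Pr_mono hq fun s hs => ?_
    unfold Light0 at hs
    push Not at hs
    obtain ⟨S, a1, a2, a3⟩ := hs
    refine ⟨S, mem_filter.mpr ⟨mem_univ _, a1, a2⟩, ?_⟩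
    rintro ⟨T, hT, -, hT2⟩
    exact a3 T hT hT2
  have h2 := Pr_exists hq ((univ : Finset (Finset (El n))).filter Ok) A
  have h3 : ∑ S ∈ (univ : Finset (Finset (El n))).filter Ok, Pr (qq (pm n) pp) (A S) ≤
      ∑ S ∈ (univ : Finset (Finset (El n))).filter Ok, q ^ S.card := by
    refine sum_le_sum fun S hS => ?_
    obtain ⟨a1, -⟩ := (mem_filter.mp hS).2
    exact hhit pp hpp1 hpp2 ∅ ∅ S (by simp) (by simp) a1
      fun a _ => ⟨fun v hv => absurd hv (notMem_empty v), fun c hc => absurd hc (notMem_empty c)⟩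
  have h4 : ∑ S ∈ (univ : Finset (Finset (El n))).filter Ok, q ^ S.card ≤
      ∑ S ∈ (univ : Finset (Finset (El n))).filter (fun S => Nat.sqrt n ≤ S.card),
        q ^ S.card := by
    refine sum_le_sum_of_subset_of_nonneg ?_ fun S _ _ => pow_nonneg hq0 _
    intro S hS
    obtain ⟨-, a2⟩ := (mem_filter.mp hS).2
    refine mem_filter.mpr ⟨mem_univ _, ?_⟩
    calc Nat.sqrt n ≤ Nat.sqrt (S.card ^ 2) := Nat.sqrt_le_sqrt a2
      _ = S.card := Nat.sqrt_eq' _
  have h6 := sum_big (E := El n) hq0 (by norm_num : (1 : ℝ) ≤ 2) (Nat.sqrt n)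
  exact h1.trans (h2.trans (h3.trans (h4.trans (h6.trans hnum))))

end Pool.Agent.Lib.LT
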