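import Pool.Agent.Lib.MP_6d56f7_co_LT.Hit
import Pool.Agent.Lib.MP_6d56f7_co_LT.Sums
import Pool.Agent.Lib.MP_6d56f7_co_FR.Asy

/-!
# Large light sets
-/

set_option autoImplicit false

namespace Pool.Agent.Lib.LT

open Finset Filter Pool.Agent.Lib.FR

private lemma lh_pm_nonneg : ∀ᶠ n : ℕ in atTop, 0 ≤ pm n := by
  filter_upwards [eventually_ge_atTop 1] with n hn
  have h1 : (1 : ℝ) ≤ n := by exact_mod_cast hn
  have h2 := Real.log_nonneg h1
  unfold pm
  exact div_nonneg (by positivity) (by linarith)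

/-- the numerical bound -/
private lemma lh_num {δ : ℝ} (hδ : 0 < δ) : ∀ᶠ n : ℕ in atTop,
    (2 : ℝ) ^ (2 * n) * 2 ^ (2 * n - 1) * ((1 / 64) ^ n *
      Real.exp (Real.exp (-(189 / 100 * Real.log n)) * 64 * Fintype.card (El n))) ≤ δ := by
  have he : Real.exp 1 / 4 < 1 := by
    have := Real.exp_one_lt_d9
    linarith
  have h1 := tendsto_pow_atTop_nhds_zero_of_lt_one
    (by positivity : (0 : ℝ) ≤ Real.exp 1 / 4) he
  have h2 := Asy.base 384 0 (by norm_num : (0 : ℝ) < 89 / 100)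
  filter_upwards [h1.eventually (ge_mem_nhds hδ), h2.eventually (ge_mem_nhds zero_lt_one),
    Asy.ev_nat 1] with n h3 h4 h5
  rw [pow_zero, mul_one] at h4
  have hn2 : (n : ℝ) ^ 2 = Real.exp (2 * Real.log n) := by
    conv_lhs => rw [Asy.nat_eq h5]
    rw [← Real.exp_nat_mul]
    norm_num
  have hcard : (Fintype.card (El n) : ℝ) ≤ 6 * (n : ℝ) ^ 2 := by
    rw [El_card]
    have : 3 * (n * (2 * n - 1)) ≤ 6 * n ^ 2 := by
      have h6 : n * (2 * n - 1) ≤ n * (2 * n) := Nat.mul_le_mul_left n (Nat.sub_le _ _)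
      nlinarith
    exact_mod_cast this
  have h6 : Real.exp (-(189 / 100 * Real.log n)) * 64 * Fintype.card (El n) ≤ n := by
    calc Real.exp (-(189 / 100 * Real.log n)) * 64 * Fintype.card (El n)
        ≤ Real.exp (-(189 / 100 * Real.log n)) * 64 * (6 * Real.exp (2 * Real.log n)) := by
          rw [← hn2]
          exact mul_le_mul_of_nonneg_left hcard (by positivity)
      _ = 384 * Real.exp (-(89 / 100 * Real.log n)) * Real.exp (Real.log n) := by
          have e1 : Real.exp (-(189 / 100 * Real.log n)) * Real.exp (2 * Real.log n) =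
              Real.exp (-(89 / 100 * Real.log n)) * Real.exp (Real.log n) := by
            rw [← Real.exp_add, ← Real.exp_add]
            congr 1
            ring
          calc Real.exp (-(189 / 100 * Real.log n)) * 64 * (6 * Real.exp (2 * Real.log n))
              = 384 * (Real.exp (-(189 / 100 * Real.log n)) * Real.exp (2 * Real.log n)) := by
                ring
            _ = _ := by rw [e1]; ring
      _ ≤ 1 * n := by
          rw [← Asy.nat_eq h5]
          exact mul_le_mul_of_nonneg_right h4 (by positivity)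
      _ = n := one_mul _
  have h7 : (2 : ℝ) ^ (2 * n) * 2 ^ (2 * n - 1) ≤ 16 ^ n := by
    calc (2 : ℝ) ^ (2 * n) * 2 ^ (2 * n - 1) ≤ 2 ^ (2 * n) * 2 ^ (2 * n) := by
          refine mul_le_mul_of_nonneg_left ?_ (by positivity)
          exact pow_le_pow_right₀ (by norm_num) (Nat.sub_le _ _)
      _ = 16 ^ n := by
          rw [← pow_add, show 2 * n + 2 * n = 4 * n by ring, pow_mul]
          norm_num
  calc (2 : ℝ) ^ (2 * n) * 2 ^ (2 * n - 1) * ((1 / 64) ^ n *
      Real.exp (Real.exp (-(189 / 100 * Real.log n)) * 64 * Fintype.card (El n)))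
      ≤ 16 ^ n * ((1 / 64) ^ n * Real.exp n) := by
        refine mul_le_mul h7 ?_ (by positivity) (by positivity)
        exact mul_le_mul_of_nonneg_left (Real.exp_le_exp.mpr h6) (by positivity)
    _ = (Real.exp 1 / 4) ^ n := by
        have e2 : Real.exp n = Real.exp 1 ^ n := by
          rw [← Real.exp_nat_mul, mul_one]
        rw [e2, ← mul_assoc, ← mul_pow, ← mul_pow]
        congr 1
        ring
    _ ≤ δ := h3

theorem whp_lightH : Whp LightH := by
  classical
  intro δ hδ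
  filter_upwards [hit_light, lh_pm_nonneg, lh_num hδ, eventually_ge_atTop 1]
    with n hhit hpm hnum hn pp hpp1 hpp2
  have hq := qq_nonneg hpm hpp1 hpp2
  set q : ℝ := Real.exp (-(189 / 100 * Real.log n)) with hqdef
  have hq0 : 0 ≤ q := (Real.exp_pos _).le
  let I := Finset (Fin (2 * n)) × Finset (Fin (2 * n - 1)) × Finset (El n)
  let Ok : I → Prop := fun k => 250 * k.1.card ≤ 2 * n - 1 ∧ 250 * k.2.1.card ≤ 2 * n - 1 ∧
    LightS k.2.2 ∧ (∀ a ∈ k.2.2, offE k.1 k.2.1 a) ∧ 2 * n - 1 ≤ 2 * k.2.2.card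
  let A : I → (J n → Fin 3) → Prop := fun k s => ¬ ∃ T ∈ sm s, offT k.1 k.2.1 T ∧ One k.2.2 T
  have h1 : Pr (qq (pm n) pp) (fun s : J n → Fin 3 => ¬ LightH n (sm s)) ≤
      Pr (qq (pm n) pp) (fun s : J n → Fin 3 => ∃ k ∈ (univ : Finset I).filter Ok, A k s) := by
    refine Pr_mono hq fun s hs => ?_
    unfold LightH at hs
    push Not at hs
    obtain ⟨HV, HC, S, a1, a2, a3, a4, a5, a6⟩ := hs
    refine ⟨(HV, HC, S), mem_filter.mpr ⟨mem_univ _, a1, a2, a3, a4, a5⟩, ?_⟩
    rintro ⟨T, hT, hT1, hT2⟩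
    exact a6 T hT hT1 hT2
  have h2 := Pr_exists hq ((univ : Finset I).filter Ok) A
  have h3 : ∑ k ∈ (univ : Finset I).filter Ok, Pr (qq (pm n) pp) (A k) ≤
      ∑ k ∈ (univ : Finset I).filter Ok, q ^ k.2.2.card := by
    refine sum_le_sum fun k hk => ?_
    obtain ⟨a1, a2, a3, a4, -⟩ := (mem_filter.mp hk).2
    exact hhit pp hpp1 hpp2 k.1 k.2.1 k.2.2 a1 a2 a3 a4
  have h4 : ∑ k ∈ (univ : Finset I).filter Ok, q ^ k.2.2.card ≤
      ∑ k ∈ (univ : Finset (Finset (Fin (2 * n)))) ×ˢ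
        ((univ : Finset (Finset (Fin (2 * n - 1)))) ×ˢ
          (univ : Finset (Finset (El n))).filter (fun S => n ≤ S.card)), q ^ k.2.2.card := by
    refine sum_le_sum_of_subset_of_nonneg ?_ fun k _ _ => pow_nonneg hq0 _
    intro k hk
    obtain ⟨-, -, -, -, a5⟩ := (mem_filter.mp hk).2
    rw [mem_product, mem_product, mem_filter]
    exact ⟨mem_univ _, mem_univ _, mem_univ _, by omega⟩
  have h5 : ∑ k ∈ (univ : Finset (Finset (Fin (2 * n)))) ×ˢ
        ((univ : Finset (Finset (Fin (2 * n - 1)))) ×ˢ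
          (univ : Finset (Finset (El n))).filter (fun S => n ≤ S.card)), q ^ k.2.2.card =
      (2 : ℝ) ^ (2 * n) * 2 ^ (2 * n - 1) *
        ∑ S ∈ (univ : Finset (Finset (El n))).filter (fun S => n ≤ S.card), q ^ S.card := by
    rw [sum_product]
    simp only [sum_product]
    rw [sum_const, sum_const, card_univ, card_univ, Fintype.card_finset, Fintype.card_finset,
      Fintype.card_fin, Fintype.card_fin, nsmul_eq_mul, nsmul_eq_mul, mul_assoc]
    push_cast
    ring
  have h6 := sum_big (E := El n) hq0 (by norm_num : (1 : ℝ) ≤ 64) n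
  calc Pr (qq (pm n) pp) (fun s : J n → Fin 3 => ¬ LightH n (sm s))
      ≤ ∑ k ∈ (univ : Finset I).filter Ok, q ^ k.2.2.card := h1.trans (h2.trans h3)
    _ ≤ (2 : ℝ) ^ (2 * n) * 2 ^ (2 * n - 1) *
        ∑ S ∈ (univ : Finset (Finset (El n))).filter (fun S => n ≤ S.card), q ^ S.card :=
        h4.trans h5.le
    _ ≤ (2 : ℝ) ^ (2 * n) * 2 ^ (2 * n - 1) *
        ((1 / 64) ^ n * Real.exp (q * 64 * Fintype.card (El n))) :=
        mul_le_mul_of_nonneg_left h6 (by positivity)
    _ ≤ δ := hnum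

end Pool.Agent.Lib.LT
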