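import Pool.Agent.Lib.MP_6d56f7_co_LT.HitS
import Pool.Agent.Lib.MP_6d56f7_co_LT.Sums
import Pool.Agent.Lib.MP_6d56f7_co_FR.Asy

/-!
# Small sets
-/

set_option autoImplicit false

namespace Pool.Agent.Lib.LT

open Finset Filter Pool.Agent.Lib.FR

private theorem SmallPAux.card_le (n : ℕ) : (Fintype.card (El n) : ℝ) ≤ 6 * (n : ℝ) ^ 2 := by
  rw [El_card]
  have h1 : 3 * (n * (2 * n - 1)) ≤ 6 * n ^ 2 := by
    calc 3 * (n * (2 * n - 1)) ≤ 3 * (n * (2 * n)) := by gcongr; omega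
      _ = 6 * n ^ 2 := by ring
  exact_mod_cast h1

private theorem SmallPAux.mul_le {n : ℕ} (hn : (1 : ℝ) ≤ n) :
    Real.exp (-(21 / 10 * Real.log n)) * (Fintype.card (El n) : ℝ) ≤
      6 * Real.log n ^ 0 * Real.exp (-(1 / 10 * Real.log n)) := by
  have hn2 : (n : ℝ) ^ 2 = Real.exp (2 * Real.log n) := by
    conv_lhs => rw [Asy.nat_eq hn]
    rw [← Real.exp_nat_mul]
    norm_num
  calc Real.exp (-(21 / 10 * Real.log n)) * (Fintype.card (El n) : ℝ)
      ≤ Real.exp (-(21 / 10 * Real.log n)) * (6 * (n : ℝ) ^ 2) :=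
        mul_le_mul_of_nonneg_left (SmallPAux.card_le n) (Real.exp_pos _).le
    _ = 6 * (Real.exp (-(21 / 10 * Real.log n)) * Real.exp (2 * Real.log n)) := by
        rw [hn2]
        ring
    _ = 6 * Real.log n ^ 0 * Real.exp (-(1 / 10 * Real.log n)) := by
        rw [← Real.exp_add, pow_zero, mul_one]
        ring_nf

theorem whp_small : Whp Small := by
  intro δ hδ
  have hlog : 0 < Real.log (1 + δ) := Real.log_pos (by linarith)
  have hb := (Asy.base 6 0 (by norm_num : (0 : ℝ) < 1 / 10)).eventually (gt_mem_nhds hlog)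
  filter_upwards [hb, hit_small, Asy.ev_nat 1] with n hb hh hn1 pp h1 h2
  classical
  have hl : 0 ≤ Real.log n := Real.log_nonneg hn1
  have hpos : (0 : ℝ) < 2 * n - 1 := by linarith
  have hp0 : 0 ≤ pm n := div_nonneg (by positivity) hpos.le
  have hq := qq_nonneg hp0 h1 h2
  have hq0 : 0 ≤ Real.exp (-(21 / 10 * Real.log n)) := (Real.exp_pos _).le
  have h3 : Pr (qq (pm n) pp) (fun s : J n → Fin 3 => ¬ Small n (sm s)) ≤
      Pr (qq (pm n) pp) (fun s : J n → Fin 3 =>
        ∃ S ∈ (univ : Finset (Finset (El n))).filter (fun S => S.Nonempty ∧ S.card ^ 2 ≤ n),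
          (∀ a ∈ S, ∃ T ∈ sm s, T ∈ st n a) ∧ ¬ ∃ T ∈ sm s, One S T) := by
    refine Pr_mono hq fun s hs => ?_
    by_contra hc
    refine hs fun S hS hS2 hcov => ?_
    by_contra hno
    exact hc ⟨S, mem_filter.mpr ⟨mem_univ _, hS, hS2⟩, hcov, hno⟩
  refine h3.trans ((Pr_exists hq _ _).trans ?_)
  refine (sum_le_sum fun S hS => hh pp h1 h2 S (mem_filter.mp hS).2.1
    (mem_filter.mp hS).2.2).trans ?_
  have h4 : ∑ S ∈ (univ : Finset (Finset (El n))).filter
      (fun S => S.Nonempty ∧ S.card ^ 2 ≤ n), Real.exp (-(21 / 10 * Real.log n)) ^ S.card ≤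
      ∑ S ∈ (univ : Finset (Finset (El n))).filter (fun S => S.Nonempty),
        Real.exp (-(21 / 10 * Real.log n)) ^ S.card := by
    refine sum_le_sum_of_subset_of_nonneg ?_ fun S _ _ => pow_nonneg hq0 _
    intro S hS
    exact mem_filter.mpr ⟨mem_univ _, (mem_filter.mp hS).2.1⟩
  refine h4.trans ((sum_nonempty (E := El n) hq0).trans ?_)
  have h5 : Real.exp (Real.exp (-(21 / 10 * Real.log n)) * (Fintype.card (El n) : ℝ)) ≤
      1 + δ := by
    rw [← Real.le_log_iff_exp_le (by linarith)]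
    exact (SmallPAux.mul_le hn1).trans hb.le
  linarith

end Pool.Agent.Lib.LT
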