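import Pool.Agent.Lib.MP_6d56f7_co_LT.FarP
import Pool.Agent.Lib.MP_6d56f7_co_LT.CutVP
import Pool.Agent.Lib.MP_6d56f7_co_LT.CutCP
import Pool.Agent.Lib.MP_6d56f7_co_LT.InCP
import Pool.Agent.Lib.MP_6d56f7_co_LT.LightHP
import Pool.Agent.Lib.MP_6d56f7_co_LT.Light0P
import Pool.Agent.Lib.MP_6d56f7_co_LT.SmallP
import Pool.Agent.Lib.MP_6d56f7_co_LT.IsoP

/-!
# The good event has high probability
-/

set_option autoImplicit false

namespace Pool.Agent.Lib.LT

open Finset Filter Pool.Agent.Lib.FR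

/-- the density of the small system is a nonnegative number -/
theorem pm_nonneg : ∀ᶠ n : ℕ in atTop, 0 ≤ pm n := by
  filter_upwards [eventually_ge_atTop 1] with n hn
  have h1 : (1 : ℝ) ≤ n := by exact_mod_cast hn
  have h2 := Real.log_nonneg h1
  unfold pm
  exact div_nonneg (by positivity) (by linarith)

theorem Whp.and {P Q : (n : ℕ) → Finset (J n) → Prop} (hP : Whp P) (hQ : Whp Q) :
    Whp (fun n L => P n L ∧ Q n L) := by
  intro δ hδ
  filter_upwards [hP (δ / 2) (by positivity), hQ (δ / 2) (by positivity), pm_nonneg] with n h1 h2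
    h3 pp h4 h5
  have hq := qq_nonneg h3 h4 h5
  have h6 : Pr (qq (pm n) pp) (fun s : J n → Fin 3 => ¬ (P n (sm s) ∧ Q n (sm s))) ≤
      Pr (qq (pm n) pp) (fun s : J n → Fin 3 => ¬ P n (sm s) ∨ ¬ Q n (sm s)) :=
    Pr_mono hq fun s hs => not_and_or.mp hs
  have h7 := Pr_or hq (fun s : J n → Fin 3 => ¬ P n (sm s)) (fun s => ¬ Q n (sm s))
  have h8 := h1 pp h4 h5
  have h9 := h2 pp h4 h5
  linarith

theorem Whp.mono {P Q : (n : ℕ) → Finset (J n) → Prop} (hP : Whp P)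
    (h : ∀ n L, P n L → Q n L) : Whp Q := by
  intro δ hδ
  filter_upwards [hP δ hδ, pm_nonneg] with n h1 h3 pp h4 h5
  exact (Pr_mono (qq_nonneg h3 h4 h5) fun s hs hp => hs (h n _ hp)).trans (h1 pp h4 h5)

theorem whp_good : Whp Good := by
  refine (((((((whp_far.and whp_cutV).and whp_cutC).and whp_inC).and whp_lightH).and
    whp_light0).and whp_small).and whp_iso).mono ?_
  rintro n L ⟨⟨⟨⟨⟨⟨⟨h1, h2⟩, h3⟩, h4⟩, h5⟩, h6⟩, h7⟩, h8⟩
  exact ⟨h1, h2, h3, h4, h5, h6, h7, h8⟩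

end Pool.Agent.Lib.LT
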