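import Mathlib

/-!
# Greedy choice of generators
-/

set_option autoImplicit false

namespace Pool.Agent.Lib.LT

open Finset

/-- a subgroup of index at most `2 ^ k` generated by a part of the generators becomes the whole
group after adding at most `k` generators -/
theorem greedy {ι G : Type} [AddCommGroup G] [DecidableEq ι] (x : ι → G) (L : Finset ι) (k : ℕ) :
    ∀ B : Finset ι, B ⊆ L →
      (AddSubgroup.closure (x '' (B : Set ι))).relIndex
        (AddSubgroup.closure (x '' (L : Set ι))) ≠ 0 →
      (AddSubgroup.closure (x '' (B : Set ι))).relIndex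
        (AddSubgroup.closure (x '' (L : Set ι))) ≤ 2 ^ k →
      ∃ B' ⊆ L, B'.card ≤ B.card + k ∧
        AddSubgroup.closure (x '' (B' : Set ι)) = AddSubgroup.closure (x '' (L : Set ι)) := by
  have mono : ∀ B C : Finset ι, B ⊆ C →
      AddSubgroup.closure (x '' (B : Set ι)) ≤ AddSubgroup.closure (x '' (C : Set ι)) := by
    intro B C h
    exact AddSubgroup.closure_mono (Set.image_mono (by exact_mod_cast h))
  induction k with
  | zero =>
    intro B hB h0 h1
    refine ⟨B, hB, by simp, le_antisymm (mono B L hB) ?_⟩
    rw [← AddSubgroup.relIndex_eq_one]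
    have h2 : (AddSubgroup.closure (x '' (B : Set ι))).relIndex
        (AddSubgroup.closure (x '' (L : Set ι))) ≤ 1 := by simpa using h1
    omega
  | succ k ih =>
    intro B hB h0 h1
    by_cases hall : ∀ i ∈ L, x i ∈ AddSubgroup.closure (x '' (B : Set ι))
    · refine ⟨B, hB, by omega, le_antisymm (mono B L hB) ?_⟩
      rw [AddSubgroup.closure_le]
      rintro y ⟨i, hi, rfl⟩
      exact hall i (by exact_mod_cast hi)
    · push Not at hall
      obtain ⟨i, hiL, hi⟩ := hall
      have hsub : insert i B ⊆ L := by
        intro j hj
        rcases Finset.mem_insert.mp hj with rfl | hj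
        · exact hiL
        · exact hB hj
      have hmul := AddSubgroup.relIndex_mul_relIndex _ _ _
        (mono B (insert i B) (Finset.subset_insert i B)) (mono (insert i B) L hsub)
      set r := (AddSubgroup.closure (x '' (B : Set ι))).relIndex
        (AddSubgroup.closure (x '' ((insert i B : Finset ι) : Set ι))) with hr
      set s := (AddSubgroup.closure (x '' ((insert i B : Finset ι) : Set ι))).relIndex
        (AddSubgroup.closure (x '' (L : Set ι))) with hs
      have hr0 : r ≠ 0 := by
        intro h
        apply h0
        rw [← hmul, h, zero_mul]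
      have hs0 : s ≠ 0 := by
        intro h
        apply h0
        rw [← hmul, h, mul_zero]
      have hr1 : r ≠ 1 := by
        intro h
        rw [hr, AddSubgroup.relIndex_eq_one] at h
        apply hi
        apply h
        apply AddSubgroup.subset_closure
        exact ⟨i, by simp, rfl⟩
      have hr2 : 2 ≤ r := by omega
      have hs2 : s ≤ 2 ^ k := by
        have h3 : r * s ≤ 2 ^ (k + 1) := by rw [hmul]; exact h1
        have h4 : 2 * s ≤ r * s := Nat.mul_le_mul_right s hr2
        have h5 : 2 ^ (k + 1) = 2 * 2 ^ k := by rw [pow_succ, mul_comm]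
        omega
      obtain ⟨B', hB', hc, he⟩ := ih (insert i B) hsub hs0 hs2
      refine ⟨B', hB', ?_, he⟩
      have := Finset.card_insert_le i B
      omega

end Pool.Agent.Lib.LT
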