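import Pool.Agent.Lib.MP_6d56f7_co_LT.RelIdx
import Pool.Agent.Lib.MP_6d56f7_co_LT.Greedy

/-!
# Few generators
-/

set_option autoImplicit false

namespace Pool.Agent.Lib.LT

open Finset

/-- a lattice generated by integer vectors with absolute sums at most three is generated by
`3 * card E` of them -/
theorem few_gen {ι E : Type} [Fintype E] [DecidableEq E] [DecidableEq ι] (x : ι → E → ℤ)
    (hx : ∀ i, ∑ e, |x i e| ≤ 3) (L : Finset ι) :
    ∃ B ⊆ L, B.card ≤ 3 * Fintype.card E ∧
      AddSubgroup.closure (x '' (B : Set ι)) = AddSubgroup.closure (x '' (L : Set ι)) := by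
  obtain ⟨B, hB, hc, h0, h3⟩ := rel_index x hx L
  have h4 : (3 : ℕ) ^ Fintype.card E ≤ 2 ^ (2 * Fintype.card E) := by
    rw [pow_mul]
    exact Nat.pow_le_pow_left (by norm_num) _
  obtain ⟨B', hB', hc', he⟩ := greedy x L (2 * Fintype.card E) B hB h0 (h3.trans h4)
  exact ⟨B', hB', by omega, he⟩

end Pool.Agent.Lib.LT
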