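import Pool.Agent.Lib.MP_6d56f7_co_LT.Fact

/-!
# Integer weights
-/

set_option autoImplicit false

namespace Pool.Agent.Lib.LT

open Finset Pool.Agent.Lib.FR

/-- every integer function on the pairs can be moved to the pairs in `R` without changing its sums
at the edges and at the (vertex, colour) pairs, and there are integer weights on `R` all of whose
sums are one -/
def IntW (n : ℕ) (R : Fin (2 * n - 1) → Edge (Fin (2 * n)) → Prop) : Prop :=
  (∀ x : Fin (2 * n - 1) → Edge (Fin (2 * n)) → ℤ,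
    ∃ w : Fin (2 * n - 1) → Edge (Fin (2 * n)) → ℤ, (∀ c e, w c e ≠ 0 → R c e) ∧
      (∀ e, ∑ c, w c e = ∑ c, x c e) ∧
      ∀ v c, ∑ e : Edge (Fin (2 * n)), (if v ∈ e.1 then w c e else 0) =
        ∑ e : Edge (Fin (2 * n)), (if v ∈ e.1 then x c e else 0)) ∧
  ∃ w : Fin (2 * n - 1) → Edge (Fin (2 * n)) → ℤ, (∀ c e, w c e ≠ 0 → R c e) ∧
    (∀ e, ∑ c, w c e = 1) ∧
    ∀ v c, ∑ e : Edge (Fin (2 * n)), (if v ∈ e.1 then w c e else 0) = 1

private theorem exists_w {n : ℕ} {L : Finset (J n)} {y : El n → ℤ} (hy : y ∈ Lat n L) :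
    ∃ w : J n → ℤ, (∀ j, w j ≠ 0 → j ∈ L) ∧ y = ∑ j, w j • inc n j := by
  classical
  refine AddSubgroup.closure_induction (p := fun y _ => ∃ w : J n → ℤ,
    (∀ j, w j ≠ 0 → j ∈ L) ∧ y = ∑ j, w j • inc n j) ?_ ?_ ?_ ?_ hy
  · rintro _ ⟨j, hj, rfl⟩
    refine ⟨fun i => if i = j then 1 else 0, ?_, ?_⟩
    · intro i hi
      by_cases h : i = j
      · rw [h]
        exact hj
      · exact absurd (if_neg h) hi
    · rw [Finset.sum_eq_single j]
      · simp
      · intro i _ hi
        simp [hi]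
      · intro h
        exact absurd (mem_univ j) h
  · exact ⟨fun _ => 0, fun j h => absurd rfl h, by simp⟩
  · rintro y z - - ⟨w, hw, rfl⟩ ⟨w', hw', rfl⟩
    refine ⟨fun j => w j + w' j, ?_, ?_⟩
    · intro j hj
      by_cases h : w j = 0
      · refine hw' j ?_
        intro h'
        exact hj (by simp [h, h'])
      · exact hw j h
    · rw [← Finset.sum_add_distrib]
      refine Finset.sum_congr rfl fun j _ => ?_
      rw [add_smul]
  · rintro y - ⟨w, hw, rfl⟩
    refine ⟨fun j => - w j, ?_, ?_⟩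
    · intro j hj
      exact hw j (fun h => hj (by simp [h]))
    · rw [← Finset.sum_neg_distrib]
      refine Finset.sum_congr rfl fun j _ => ?_
      rw [neg_smul]

private theorem eval_inl {n : ℕ} (w : J n → ℤ) (e : Edge (Fin (2 * n))) :
    (∑ j, w j • inc n j) (.inl e) = ∑ c, w (c, e) := by
  classical
  rw [Finset.sum_apply, Fintype.sum_prod_type]
  refine Finset.sum_congr rfl fun c _ => ?_
  rw [Finset.sum_eq_single e]
  · have : ((c, e) : J n) ∈ st n (.inl e) := mem_st_inl.mpr rfl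
    simp [inc, this]
  · intro e' _ he'
    have : ((c, e') : J n) ∉ st n (.inl e) := fun h => he' (mem_st_inl.mp h)
    simp [inc, this]
  · intro h
    exact absurd (mem_univ e) h

private theorem eval_inr {n : ℕ} (w : J n → ℤ) (v : Fin (2 * n)) (c : Fin (2 * n - 1)) :
    (∑ j, w j • inc n j) (.inr (v, c)) =
      ∑ e : Edge (Fin (2 * n)), (if v ∈ e.1 then w (c, e) else 0) := by
  classical
  rw [Finset.sum_apply, Fintype.sum_prod_type, Finset.sum_eq_single c]
  · refine Finset.sum_congr rfl fun e _ => ?_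
    by_cases h : v ∈ e.1
    · have : ((c, e) : J n) ∈ st n (.inr (v, c)) := mem_st_inr.mpr ⟨rfl, h⟩
      simp [inc, this, h]
    · have : ((c, e) : J n) ∉ st n (.inr (v, c)) := fun h' => h (mem_st_inr.mp h').2
      simp [inc, this, h]
  · intro c' _ hc'
    refine Finset.sum_eq_zero fun e _ => ?_
    have : ((c', e) : J n) ∉ st n (.inr (v, c)) := fun h => hc' (mem_st_inr.mp h).1
    simp [inc, this]
  · intro h
    exact absurd (mem_univ c) h

/-- from the lattice to integer weights -/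
theorem intW_of_lat {n : ℕ} (hn : 1 ≤ n) {L : Finset (J n)} (hL : ∀ h : J n, inc n h ∈ Lat n L) :
    IntW n (fun c e => (c, e) ∈ L) := by
  classical
  have key : ∀ x : Fin (2 * n - 1) → Edge (Fin (2 * n)) → ℤ,
      ∃ w : Fin (2 * n - 1) → Edge (Fin (2 * n)) → ℤ, (∀ c e, w c e ≠ 0 → (c, e) ∈ L) ∧
        (∀ e, ∑ c, w c e = ∑ c, x c e) ∧
        ∀ v c, ∑ e : Edge (Fin (2 * n)), (if v ∈ e.1 then w c e else 0) =
          ∑ e : Edge (Fin (2 * n)), (if v ∈ e.1 then x c e else 0) := by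
    intro x
    have hx : (∑ j : J n, x j.1 j.2 • inc n j) ∈ Lat n L :=
      AddSubgroup.sum_mem _ fun j _ => AddSubgroup.zsmul_mem _ (hL j) _
    obtain ⟨w, hw, hwx⟩ := exists_w hx
    refine ⟨fun c e => w (c, e), fun c e h => hw _ h, fun e => ?_, fun v c => ?_⟩
    · rw [← eval_inl w e, ← hwx, eval_inl (fun j => x j.1 j.2) e]
    · rw [← eval_inr w v c, ← hwx, eval_inr (fun j => x j.1 j.2) v c]
  refine ⟨key, ?_⟩
  obtain ⟨φ, hφ⟩ := one_factorization n hn
  obtain ⟨w, hw, h1, h2⟩ := key (fun c e => if φ e = c then 1 else 0)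
  refine ⟨w, hw, fun e => ?_, fun v c => ?_⟩
  · rw [h1 e, Finset.sum_ite_eq]
    simp
  · rw [h2 v c]
    obtain ⟨e, he, hu⟩ := hφ v c
    rw [Finset.sum_eq_single e]
    · simp [he.1, he.2]
    · intro e' _ he'
      by_cases h : v ∈ e'.1
      · have : φ e' ≠ c := fun h' => he' (hu e' ⟨h, h'⟩)
        simp [this]
      · simp [h]
    · intro h
      exact absurd (mem_univ e) h

end Pool.Agent.Lib.LT
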