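import Pool.Agent.Lib.MP_6d56f7_co_FR.Match
import Pool.Agent.Lib.MP_6d56f7_co_LT.Wts

/-!
# Multiple colourings: definitions

The second part of project LT: colourings with multiplicities at the hitting time.
-/

set_option autoImplicit false

namespace Pool.Agent.Lib.LT

open Finset Filter Pool.Agent.Lib.FR

/-- for all large `K` there are nonnegative integer weights on the pairs in `R` all of whose sums,
over the colours at an edge and over the edges at a vertex in one colour, are equal to `K` -/
def KF (n : ℕ) (R : Fin (2 * n - 1) → Edge (Fin (2 * n)) → Prop) : Prop :=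
  ∃ K₀ : ℕ, ∀ K : ℕ, K₀ ≤ K → ∃ w : Fin (2 * n - 1) → Edge (Fin (2 * n)) → ℕ,
    (∀ c e, w c e ≠ 0 → R c e) ∧ (∀ e, ∑ c, w c e = K) ∧
    ∀ v c, ∑ e : Edge (Fin (2 * n)), (if v ∈ e.1 then w c e else 0) = K

/-- the pairs of `L` which avoid the elements of `R` -/
def res {n : ℕ} (R : Finset (El n)) (L : Finset (J n)) : Finset (J n) :=
  L.filter (fun T => ∀ a ∈ R, T ∉ st n a)

/-- `R` is a small set of elements -/
def SmR {n : ℕ} (R : Finset (El n)) : Prop := R.card ^ 8 ≤ n

def FarR (n : ℕ) (L : Finset (J n)) : Prop := ∀ R : Finset (El n), SmR R → Far n (res R L)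

def CutVR (n : ℕ) (L : Finset (J n)) : Prop := ∀ R : Finset (El n), SmR R → CutV n (res R L)

def CutCR (n : ℕ) (L : Finset (J n)) : Prop := ∀ R : Finset (El n), SmR R → CutC n (res R L)

def InCR (n : ℕ) (L : Finset (J n)) : Prop := ∀ R : Finset (El n), SmR R → InC n (res R L)

/-- large light sets off few vertices and colours are hit exactly once -/
def LightHR (n : ℕ) (L : Finset (J n)) : Prop :=
  ∀ R : Finset (El n), SmR R →
  ∀ (HV : Finset (Fin (2 * n))) (HC : Finset (Fin (2 * n - 1))) (S : Finset (El n)),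
    250 * HV.card ≤ 2 * n - 1 → 250 * HC.card ≤ 2 * n - 1 → LightS S →
    (∀ a ∈ S, offE HV HC a) → (∀ a ∈ S, a ∉ R) → 2 * n - 1 ≤ 4 * S.card →
    ∃ T ∈ res R L, offT HV HC T ∧ One S T

/-- light sets which are not small are hit exactly once -/
def Light0R (n : ℕ) (L : Finset (J n)) : Prop :=
  ∀ R : Finset (El n), SmR R → ∀ S : Finset (El n), LightS S → (∀ a ∈ S, a ∉ R) →
    n ≤ S.card ^ 2 → ∃ T ∈ res R L, One S T

/-- the good event, for the systems which avoid a small set of elements -/
structure GoodR (n : ℕ) (L : Finset (J n)) : Prop where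
  far : FarR n L
  cutV : CutVR n L
  cutC : CutCR n L
  inC : InCR n L
  lightH : LightHR n L
  light0 : Light0R n L

/-- small sets which avoid `R` are hit exactly once -/
def HitOne {n : ℕ} (R : Finset (El n)) (L : Finset (J n)) : Prop :=
  ∀ S : Finset (El n), S.Nonempty → (∀ a ∈ S, a ∉ R) → S.card ^ 2 ≤ n → ∃ T ∈ L, One S T

/-- the elements of the pairs of `M` -/
noncomputable def hitS {n : ℕ} (M : Finset (J n)) : Finset (El n) := by
  classical exact univ.filter (fun a => Hit M a)

/-- `H` contains a matching `M`, and the pairs of `H` off `M` have positive weights whose sums are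
one at all elements which do not belong to `M` -/
structure FRW (n : ℕ) (H M : Finset (J n))
    (w : Fin (2 * n) → Fin (2 * n) → Fin (2 * n - 1) → ℝ) : Prop where
  sub : M ⊆ H
  free : CFree M
  few : (3 * M.card) ^ 8 ≤ n
  symm : ∀ u v c, w u v c = w v u c
  zero : ∀ u v c, c ∉ LK n (HR H M) u v → w u v c = 0
  pos : ∀ u v c, c ∈ LK n (HR H M) u v → 0 < w u v c
  edge : ∀ u v, u ≠ v → ¬ REm M u v → ∑ c, w u v c = 1
  pair : ∀ v c, ¬ RPm M v c → ∑ u, w u v c = 1
  one : HitOne (hitS M) (HR H M)

section Segments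

variable {n m : ℕ}

/-- the first `t` pairs of an ordering -/
def seg (σ : J n ≃ Fin m) (t : ℕ) : Finset (J n) := univ.filter (fun j => (σ j : ℕ) < t)

/-- every element is contained in a pair of `H` -/
def Cover (H : Finset (J n)) : Prop := ∀ a : El n, ∃ T ∈ H, T ∈ st n a

/-- every covering initial segment contains a covering initial segment with weights -/
def EvF (σ : J n ≃ Fin m) : Prop := ∀ t, Cover (seg σ t) →
  ∃ t' ≤ t, Cover (seg σ t') ∧ ∃ M w, FRW n (seg σ t') M w

/-- some initial segment which is not covering is good -/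
def EvL (σ : J n ≃ Fin m) : Prop := ∃ t, ¬ Cover (seg σ t) ∧ GoodR n (seg σ t)

end Segments

end Pool.Agent.Lib.LT
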