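import Pool.Agent.Lib.MP_6d56f7_co_FR.Edmonds
import Pool.Agent.Lib.MP_6d56f7_co_FR.Low
import Pool.Agent.Lib.MP_6d56f7_co_LT.KDefs

/-!
# List edge-colourings of multiple complete graphs: definitions

The third part of project LT: decompositions of the `K`-fold complete graph into perfect matchings.
-/

set_option autoImplicit false

namespace Pool.Agent.Lib.LT

open Finset Filter Pool.Agent.Lib.FR

/-- for all large `K` there are `K` perfect matchings of every colour, with edges allowed by `R`,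
such that every edge is in exactly `K` of all these matchings -/
def KM (n : ℕ) (R : Fin (2 * n - 1) → Edge (Fin (2 * n)) → Prop) : Prop :=
  ∃ K₀ : ℕ, ∀ K : ℕ, K₀ ≤ K →
    ∃ M : Fin (2 * n - 1) → Fin K → Finset (Edge (Fin (2 * n))),
      (∀ c i, PerfM (M c i)) ∧ (∀ c i, ∀ e ∈ M c i, R c e) ∧
      ∀ e : Edge (Fin (2 * n)),
        (univ.filter (fun p : Fin (2 * n - 1) × Fin K => e ∈ M p.1 p.2)).card = K

section Graph

variable {V : Type} [Fintype V] [DecidableEq V]

/-- `u` and `v` are joined by an edge of `E` -/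
def ad (E : Finset (Edge V)) (u v : V) : Prop :=
  ∃ h : ¬ (s(u, v) : Sym2 V).IsDiag, (⟨s(u, v), h⟩ : Edge V) ∈ E

/-- the number of pairs in `A × Y` which are edges of `E` -/
noncomputable def eN (E : Finset (Edge V)) (A Y : Finset V) : ℕ := by
  classical exact ((A ×ˢ Y).filter (fun p => ad E p.1 p.2)).card

/-- `M` is a perfect matching of `X` with edges in `E` -/
structure PMon (E : Finset (Edge V)) (X : Finset V) (M : Finset (Edge V)) : Prop where
  sub : M ⊆ E
  cov : ∀ v ∈ X, ∃! e, e ∈ M ∧ v ∈ e.1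
  ins : ∀ e ∈ M, ∀ v ∈ e.1, v ∈ X

/-- `X` has the perfect matching `Me`, and `X` without `u` and `v` the perfect matching `Mo` -/
structure Link (E : Finset (Edge V)) (u v : V) (X : Finset V) (Me Mo : Finset (Edge V)) :
    Prop where
  ne : u ≠ v
  memu : u ∈ X
  memv : v ∈ X
  even : PMon E X Me
  odd : PMon E ((X.erase u).erase v) Mo

/-- there are short links between all pairs of vertices, off any small set -/
def Linked (E : Finset (Edge V)) (U : Finset V) (l b : ℕ) : Prop :=
  ∀ Y : Finset V, Y.card ≤ b → ∀ u ∈ U, ∀ v ∈ U, u ≠ v → u ∉ Y → v ∉ Y →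
    ∃ X Me Mo, X ⊆ U ∧ Disjoint X Y ∧ X.card ≤ l ∧ Link E u v X Me Mo

/-- every small even set can be deleted without destroying the perfect matchings -/
def Robust (E : Finset (Edge V)) (U : Finset V) (b : ℕ) : Prop :=
  ∀ X : Finset V, X ⊆ U → Even X.card → X.card ≤ b → ∃ N, PMon E (U \ X) N

/-- a function on the edges which is constant on the perfect matchings is a sum of two values of a
function on the vertices -/
def Rigid (E : Finset (Edge V)) (U : Finset V) : Prop :=
  ∀ (A : Type) [AddCommGroup A], (∀ a : A, ∃ b, b + b = a) → ∀ f : Edge V → A,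
    (∀ M M', PMon E U M → PMon E U M' → ∑ e ∈ M, f e = ∑ e ∈ M', f e) →
    ∃ g : V → A, ∀ (u v : V) (h : ¬ (s(u, v) : Sym2 V).IsDiag),
      (⟨s(u, v), h⟩ : Edge V) ∈ E → u ∈ U → v ∈ U → f ⟨s(u, v), h⟩ = g u + g v

/-- the levels of two disjoint trees with roots `u` and `v` -/
structure Levels (E : Finset (Edge V)) (u v : V) (h : ℕ) (A B : ℕ → Finset V) : Prop where
  rootA : A 0 = {u}
  rootB : B 0 = {v}
  disAB : ∀ i ≤ h, ∀ j ≤ h, Disjoint (A i) (B j)
  disA : ∀ i ≤ h, ∀ j ≤ h, i ≠ j → Disjoint (A i) (A j)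
  disB : ∀ i ≤ h, ∀ j ≤ h, i ≠ j → Disjoint (B i) (B j)
  stepA : ∀ i < h, ∀ y ∈ A (i + 1), ∃ x ∈ A i, ad E x y
  stepB : ∀ i < h, ∀ y ∈ B (i + 1), ∃ x ∈ B i, ad E x y

end Graph

section System

variable {n : ℕ}

/-- the edges with colour `c` in their lists -/
def EC (H : Finset (J n)) (c : Fin (2 * n - 1)) : Finset (Edge (Fin (2 * n))) :=
  univ.filter (fun e => ((c, e) : J n) ∈ H)

/-- the vertices which are not in a pair of `M` of colour `c` -/
noncomputable def UC (M : Finset (J n)) (c : Fin (2 * n - 1)) : Finset (Fin (2 * n)) := by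
  classical exact univ.filter (fun v => ¬ RPm M v c)

/-- `p` is a perfect matching with a colour, allowed by the pairs off `M` and in `M` -/
def Cfg (H M : Finset (J n)) (p : Fin (2 * n - 1) × Finset (Edge (Fin (2 * n)))) : Prop :=
  PerfM p.2 ∧ ∀ e ∈ p.2, ((p.1, e) : J n) ∈ HR H M ∪ M

open Classical in
/-- the weights off `M` together with `M` -/
noncomputable def wM (M : Finset (J n)) (w : Fin (2 * n) → Fin (2 * n) → Fin (2 * n - 1) → ℝ)
    (c : Fin (2 * n - 1)) : Fin (2 * n) → Fin (2 * n) → ℝ :=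
  fun u v => w u v c + if (∃ g ∈ M, g.1 = c ∧ g.2.1 = s(u, v)) then 1 else 0

/-- real weights as in `FRW`, and the colour classes off `M` are rigid and have no tight odd
cuts -/
structure FRQ (n : ℕ) (H M : Finset (J n))
    (w : Fin (2 * n) → Fin (2 * n) → Fin (2 * n - 1) → ℝ) : Prop where
  base : FRW n H M w
  edm : ∀ c, Edm (wM M w c)
  rigid : ∀ c, Rigid (EC (HR H M) c) (UC M c)
  pm : ∀ c, ∃ N, PMon (EC (HR H M) c) (UC M c) N
  cut2 : ∀ c, ∀ W : Finset (Fin (2 * n)), W ⊆ UC M c → Odd W.card → 3 ≤ W.card →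
    W.card + 3 ≤ (UC M c).card → 2 ≤ ∑ u ∈ W, ∑ v ∈ UC M c \ W, w u v c

/-- the deterministic step of the fractional theorem, with all the data -/
structure GD (n : ℕ) (c₁ d D : ℝ) (s : J n → Fin 3) (H M : Finset (J n))
    (w : Fin (2 * n) → Fin (2 * n) → Fin (2 * n - 1) → ℝ) : Prop where
  frw : FRW n H M w
  two : ∀ j, s j = 2 → j ∈ H
  nez : ∀ j ∈ H, s j ≠ 0
  low : ∀ a : El n, ¬ Hit M a → D ≤ (dg n s a : ℝ)
  lo : ∀ u v c, c ∈ LK n (HR H M) u v → 1 / (8 * d) ≤ w u v c
  hi : ∀ u v c, w u v c ≤ 3 / (2 * c₁ * d)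
  edm : ∀ c, Edm (wM M w c)

/-- every covering initial segment contains a covering initial segment with such weights -/
def EvQ {m : ℕ} (σ : J n ≃ Fin m) : Prop := ∀ t, Cover (seg σ t) →
  ∃ t' ≤ t, Cover (seg σ t') ∧ ∃ M w, FRQ n (seg σ t') M w

/-- in every colour there are many edges between any two large disjoint sets -/
def BipB {V C : Type} [Fintype V] [DecidableEq V] [Fintype C] [DecidableEq C] (K θ : ℝ)
    (L : V → V → Finset C) : Prop :=
  ∀ (c : C) (W₁ W₂ : Finset V), Disjoint W₁ W₂ → θ * Fintype.card C ≤ W₁.card →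
    θ * Fintype.card C ≤ W₂.card →
    K ≤ (((W₁ ×ˢ W₂).filter (fun p => c ∈ L p.1 p.2)).card : ℝ)

end System

end Pool.Agent.Lib.LT
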