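import Pool.Agent.Lib.MP_6d56f7_co_LT.QDefs

/-!
# Colourings of the blow-ups of complete graphs
-/

set_option autoImplicit false

namespace Pool.Agent.Lib.LT

open Finset Pool.Agent.Lib.FR

/-- a proper edge-colouring of the blow-up of `K_{2n}`, in which every vertex is replaced by `K`
vertices, with the colours `(c, i)`, `i < K`, such that every edge over `e` has a colour `(c, i)`
with `R c e` -/
def BlowCol (n K : ℕ) (R : Fin (2 * n - 1) → Edge (Fin (2 * n)) → Prop) : Prop :=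
  ∃ φ : Fin (2 * n) × Fin K → Fin (2 * n) × Fin K → Fin (2 * n - 1) × Fin K,
    (∀ x y, φ x y = φ y x) ∧
    (∀ x y (h : ¬ (s(x.1, y.1) : Sym2 (Fin (2 * n))).IsDiag), R (φ x y).1 ⟨s(x.1, y.1), h⟩) ∧
    ∀ x y z, y ≠ z → x.1 ≠ y.1 → x.1 ≠ z.1 → φ x y ≠ φ x z

/-- perfect matchings with multiplicities give colourings of the blow-up -/
theorem blow_of_km {n K : ℕ} {R : Fin (2 * n - 1) → Edge (Fin (2 * n)) → Prop}
    (M : Fin (2 * n - 1) → Fin K → Finset (Edge (Fin (2 * n))))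
    (h1 : ∀ c i, PerfM (M c i)) (h2 : ∀ c i, ∀ e ∈ M c i, R c e)
    (h3 : ∀ e : Edge (Fin (2 * n)),
      (univ.filter (fun p : Fin (2 * n - 1) × Fin K => e ∈ M p.1 p.2)).card = K) :
    BlowCol n K R := by
  classical
  have hβ : ∀ e : Edge (Fin (2 * n)), ∃ β : Fin K → Fin (2 * n - 1) × Fin K,
      Function.Injective β ∧ ∀ j, e ∈ M (β j).1 (β j).2 := by
    intro e
    have b := (Finset.equivFinOfCardEq (h3 e)).symm
    refine ⟨fun j => (b j).1, fun i j hij => b.injective (Subtype.ext hij), fun j => ?_⟩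
    exact (mem_filter.mp (b j).2).2
  choose β hβ1 hβ2 using hβ
  let φ : Fin (2 * n) × Fin K → Fin (2 * n) × Fin K → Fin (2 * n - 1) × Fin K := fun x y =>
    if h : ¬ (s(x.1, y.1) : Sym2 (Fin (2 * n))).IsDiag then
      β ⟨s(x.1, y.1), h⟩ ⟨(x.2.1 + y.2.1) % K, Nat.mod_lt _ (lt_of_le_of_lt (Nat.zero_le _) x.2.2)⟩
    else (⟨0, by have := x.1.2; omega⟩, ⟨0, lt_of_le_of_lt (Nat.zero_le _) x.2.2⟩)
  have hφ : ∀ x y (h : ¬ (s(x.1, y.1) : Sym2 (Fin (2 * n))).IsDiag), φ x y =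
      β ⟨s(x.1, y.1), h⟩ ⟨(x.2.1 + y.2.1) % K, Nat.mod_lt _ (lt_of_le_of_lt (Nat.zero_le _) x.2.2)⟩ :=
    fun x y h => dif_pos h
  refine ⟨φ, ?_, ?_, ?_⟩
  · intro x y
    by_cases h : ¬ (s(x.1, y.1) : Sym2 (Fin (2 * n))).IsDiag
    · have h' : ¬ (s(y.1, x.1) : Sym2 (Fin (2 * n))).IsDiag := by rwa [Sym2.eq_swap]
      have e0 : (⟨s(x.1, y.1), h⟩ : Edge (Fin (2 * n))) = ⟨s(y.1, x.1), h'⟩ :=
        Subtype.ext Sym2.eq_swap
      have e1 : (x.2.1 + y.2.1) % K = (y.2.1 + x.2.1) % K := by rw [add_comm]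
      rw [hφ x y h, hφ y x h', e0]
      exact congrArg _ (Fin.ext e1)
    · have h' : ¬ ¬ (s(y.1, x.1) : Sym2 (Fin (2 * n))).IsDiag := by rwa [Sym2.eq_swap]
      show dite _ _ _ = dite _ _ _
      rw [dif_neg h, dif_neg h']
  · intro x y h
    rw [hφ x y h]
    exact h2 _ _ _ (hβ2 _ _)
  · intro x y z hyz hxy hxz hxx
    have hy : ¬ (s(x.1, y.1) : Sym2 (Fin (2 * n))).IsDiag := by
      rw [Sym2.mk_isDiag_iff]
      exact hxy
    have hz : ¬ (s(x.1, z.1) : Sym2 (Fin (2 * n))).IsDiag := by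
      rw [Sym2.mk_isDiag_iff]
      exact hxz
    rw [hφ x y hy, hφ x z hz] at hxx
    have e1 := hβ2 ⟨s(x.1, y.1), hy⟩
      ⟨(x.2.1 + y.2.1) % K, Nat.mod_lt _ (lt_of_le_of_lt (Nat.zero_le _) x.2.2)⟩
    have e2 := hβ2 ⟨s(x.1, z.1), hz⟩
      ⟨(x.2.1 + z.2.1) % K, Nat.mod_lt _ (lt_of_le_of_lt (Nat.zero_le _) x.2.2)⟩
    rw [hxx] at e1
    obtain ⟨e, -, hu⟩ := h1 (β ⟨s(x.1, z.1), hz⟩
      ⟨(x.2.1 + z.2.1) % K, Nat.mod_lt _ (lt_of_le_of_lt (Nat.zero_le _) x.2.2)⟩).1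
      (β ⟨s(x.1, z.1), hz⟩
      ⟨(x.2.1 + z.2.1) % K, Nat.mod_lt _ (lt_of_le_of_lt (Nat.zero_le _) x.2.2)⟩).2 x.1
    have e3 := hu _ ⟨e1, Sym2.mem_mk_left _ _⟩
    have e4 := hu _ ⟨e2, Sym2.mem_mk_left _ _⟩
    have e5 : (⟨s(x.1, y.1), hy⟩ : Edge (Fin (2 * n))) = ⟨s(x.1, z.1), hz⟩ := e3.trans e4.symm
    have e6 : y.1 = z.1 := Sym2.congr_right.mp (congrArg Subtype.val e5)
    have e7 : y.2 = z.2 := by
      have e8 : β ⟨s(x.1, z.1), hz⟩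
          ⟨(x.2.1 + y.2.1) % K, Nat.mod_lt _ (lt_of_le_of_lt (Nat.zero_le _) x.2.2)⟩ =
          β ⟨s(x.1, z.1), hz⟩
          ⟨(x.2.1 + z.2.1) % K, Nat.mod_lt _ (lt_of_le_of_lt (Nat.zero_le _) x.2.2)⟩ := by
        rw [← hxx]
        congr 1
        rw [e5]
      have e9 := congrArg Fin.val (hβ1 _ e8)
      have e10 : (x.2.1 + y.2.1) % K = (x.2.1 + z.2.1) % K := e9
      have e11 : y.2.1 % K = z.2.1 % K := (Nat.ModEq.add_left_cancel' _ e10)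
      rw [Nat.mod_eq_of_lt y.2.2, Nat.mod_eq_of_lt z.2.2] at e11
      exact Fin.ext e11
    exact hyz (Prod.ext e6 e7)

end Pool.Agent.Lib.LT
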