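import Pool.Agent.Lib.MP_6d56f7_co_LT.Defs
import Pool.Agent.Lib.MP_6d56f7_co_FR.Tails
import Pool.Agent.Lib.MP_6d56f7_co_FR.Asy

/-!
# Exponentially many lower tails
-/

set_option autoImplicit false

namespace Pool.Agent.Lib.LT

open Finset Filter Pool.Agent.Lib.FR

theorem Cher.pm_nonneg {n : ℕ} (hn : (1 : ℝ) ≤ n) : 0 ≤ pm n := by
  have h2 := Real.log_nonneg hn
  unfold pm
  exact div_nonneg (by positivity) (by linarith)

/-- the tail bound for one set -/
theorem Cher.one {n : ℕ} (hn : (1 : ℝ) ≤ n) {κ : ℝ} (hκ : 0 < κ) {pp : ℝ} (h1 : pm n ≤ pp)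
    (h2 : pp ≤ 1) (D : Finset (J n)) (hD : κ * n ^ 2 ≤ (D.card : ℝ)) :
    Pr (qq (pm n) pp) (fun s : J n → Fin 3 => (sm s ∩ D).card ≤ 2 * n - 1) ≤
      Real.exp (2 * n - κ / 2 * (n * Real.log n)) := by
  classical
  have h0 : 0 ≤ pm n := Cher.pm_nonneg hn
  have hn1 : 1 ≤ n := by exact_mod_cast hn
  have hcast : ((2 * n - 1 : ℕ) : ℝ) = 2 * n - 1 := by
    rw [Nat.cast_sub (by omega)]
    push_cast
    ring
  have hnpos : (0 : ℝ) < 2 * n - 1 := by linarith
  have hlog : 0 ≤ Real.log n := Real.log_nonneg hn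
  have hmono : Pr (qq (pm n) pp) (fun s : J n → Fin 3 => (sm s ∩ D).card ≤ 2 * n - 1) ≤
      Pr (qq (pm n) pp) (fun s : J n → Fin 3 => (∀ i ∈ (∅ : Finset (J n)), s i ≠ 0) ∧
        ((D.filter fun i => s i = 2).card : ℝ) ≤ 2 * n - 1) := by
    refine Pr_mono (qq_nonneg h0 h1 h2) fun s hs => ⟨fun i hi => absurd hi (by simp), ?_⟩
    have he : sm s ∩ D = D.filter fun i => s i = 2 := by
      ext j
      simp only [sm, mem_inter, mem_filter, mem_univ, true_and]
      exact and_comm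
    rw [he] at hs
    rw [← hcast]
    exact_mod_cast hs
  refine hmono.trans ((low_tail h0 h1 h2 ∅ D (disjoint_empty_left _) (zero_le_one' ℝ)
    (2 * n - 1)).trans ?_)
  rw [card_empty, pow_zero, one_mul, Real.exp_le_exp]
  have he : Real.exp (-1) ≤ 2 / 5 := by
    rw [Real.exp_neg]
    have h := Real.exp_one_gt_d9
    rw [inv_le_comm₀ (Real.exp_pos _) (by norm_num)]
    linarith
  have hpd : 99 / 100 * (κ * (n * Real.log n)) ≤ pm n * D.card := by
    have h3 : pm n * (κ * n ^ 2) ≤ pm n * D.card := mul_le_mul_of_nonneg_left hD h0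
    refine le_trans ?_ h3
    have h4 : 0 ≤ κ * (n * Real.log n) := by positivity
    have h5 : pm n * (κ * n ^ 2) =
        99 / 50 * (κ * (n * Real.log n)) * n / (2 * n - 1) := by
      unfold pm
      ring
    rw [h5, le_div_iff₀ hnpos]
    nlinarith
  have hm : 3 / 5 * (pm n * D.card) ≤ (1 - Real.exp (-1)) * (pm n * D.card) := by
    refine mul_le_mul_of_nonneg_right (by linarith) ?_
    positivity
  have h5 : 0 ≤ κ * (n * Real.log n) := by positivity
  have h6 : (1 - Real.exp (-1)) * pm n * D.card = (1 - Real.exp (-1)) * (pm n * D.card) := by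
    ring
  rw [h6]
  linarith

/-- the small system has more than `2 n - 1` pairs in each of exponentially many large sets -/
theorem chernoff (K κ : ℝ) (hκ : 0 < κ) (I : ℕ → Type) [∀ n, Fintype (I n)]
    (Ok : ∀ n, I n → Prop) (D : ∀ n, I n → Finset (J n))
    (hI : ∀ᶠ n : ℕ in atTop, (Fintype.card (I n) : ℝ) ≤ Real.exp (K * n))
    (hD : ∀ᶠ n : ℕ in atTop, ∀ i, Ok n i → κ * n ^ 2 ≤ ((D n i).card : ℝ)) :
    Whp (fun n L => ∀ i, Ok n i → 2 * n - 1 < (L ∩ D n i).card) := by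
  classical
  intro δ hδ
  filter_upwards [hI, hD, Asy.ev_nat 1, Asy.ev_nat (1 / δ), Asy.ev_log ((K + 3) / (κ / 2))] with
    n h1 h2 h3 h4 h5 pp h6 h7
  have h0 : 0 ≤ pm n := Cher.pm_nonneg h3
  have hq := qq_nonneg h0 h6 h7
  set M := Real.exp (2 * n - κ / 2 * (n * Real.log n)) with hM
  have hA : Pr (qq (pm n) pp) (fun s : J n → Fin 3 =>
      ¬ ∀ i, Ok n i → 2 * n - 1 < (sm s ∩ D n i).card) ≤
      Pr (qq (pm n) pp) (fun s : J n → Fin 3 =>
        ∃ i ∈ (univ : Finset (I n)), Ok n i ∧ (sm s ∩ D n i).card ≤ 2 * n - 1) := by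
    refine Pr_mono hq fun s hs => ?_
    by_contra hc
    refine hs fun i hi => ?_
    by_contra hc2
    exact hc ⟨i, mem_univ i, hi, not_lt.mp hc2⟩
  have hB : ∀ i ∈ (univ : Finset (I n)), Pr (qq (pm n) pp) (fun s : J n → Fin 3 =>
      Ok n i ∧ (sm s ∩ D n i).card ≤ 2 * n - 1) ≤ M := by
    intro i _
    by_cases hi : Ok n i
    · exact (Pr_mono hq fun s hs => hs.2).trans (Cher.one h3 hκ h6 h7 (D n i) (h2 i hi))
    · refine (Pr_le_Ex hq (F := fun _ => 0) (fun _ => le_rfl) fun s hs =>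
        absurd hs.1 hi).trans ?_
      rw [Ex_const (qq_sum _ _)]
      exact (Real.exp_pos _).le
  have hC := Pr_exists hq (univ : Finset (I n)) (fun i (s : J n → Fin 3) =>
    Ok n i ∧ (sm s ∩ D n i).card ≤ 2 * n - 1)
  have hS := sum_le_card_nsmul univ _ M hB
  rw [nsmul_eq_mul, card_univ] at hS
  have hE : (Fintype.card (I n) : ℝ) * M ≤ Real.exp (-n) := by
    calc (Fintype.card (I n) : ℝ) * M ≤ Real.exp (K * n) * M :=
          mul_le_mul_of_nonneg_right h1 (Real.exp_pos _).le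
      _ = Real.exp (K * n + (2 * n - κ / 2 * (n * Real.log n))) := by
          rw [hM, ← Real.exp_add]
      _ ≤ Real.exp (-n) := by
          rw [Real.exp_le_exp]
          rw [div_le_iff₀ (by positivity)] at h5
          have h8 : (K + 3) * n ≤ Real.log n * (κ / 2) * n :=
            mul_le_mul_of_nonneg_right h5 (by linarith)
          linarith
  have hF : Real.exp (-n) ≤ δ := by
    rw [Real.exp_neg, inv_le_comm₀ (Real.exp_pos _) hδ]
    rw [one_div] at h4
    have := Real.add_one_le_exp (n : ℝ)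
    linarith
  exact hA.trans (hC.trans (hS.trans (hE.trans hF)))

end Pool.Agent.Lib.LT
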