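import Mathlib

/-!
# Splitting a set along the values of a function
-/

set_option autoImplicit false

namespace Pool.Agent.Lib.LT

open Finset

open Classical in
/-- either one value is taken almost everywhere, or a set of values is taken neither almost never
nor almost everywhere -/
theorem classes {ι A : Type} (X : Finset ι) (val : ι → A) (b : ℕ) (hb : 3 * b ≤ X.card) :
    (∃ α, X.card ≤ (X.filter (fun x => val x = α)).card + 2 * b) ∨
      ∃ P : A → Prop, b ≤ (X.filter (fun x => P (val x))).card ∧
        b ≤ (X.filter (fun x => ¬ P (val x))).card := by
  by_cases hex : ∃ α, b ≤ (X.filter (fun x => val x = α)).card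
  · obtain ⟨α, hα⟩ := hex
    have hsum := Finset.card_filter_add_card_filter_not (s := X) (fun x => val x = α)
    by_cases hc : b ≤ (X.filter (fun x => ¬ val x = α)).card
    · exact Or.inr ⟨fun a => a = α, hα, hc⟩
    · refine Or.inl ⟨α, ?_⟩
      omega
  · have hlt : ∀ α, (X.filter (fun x => val x = α)).card < b := by
      intro α
      by_contra hcon
      exact hex ⟨α, not_lt.mp hcon⟩
    right
    have hne : (((X.image val).powerset).filter
        (fun T => b ≤ (X.filter (fun x => val x ∈ T)).card)).Nonempty := by
      refine ⟨X.image val, ?_⟩
      rw [Finset.mem_filter]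
      refine ⟨Finset.mem_powerset.mpr (Finset.Subset.refl _), ?_⟩
      have : X.filter (fun x => val x ∈ X.image val) = X := by
        apply Finset.filter_true_of_mem
        intro x hx
        exact Finset.mem_image_of_mem _ hx
      rw [this]
      omega
    obtain ⟨T, hT, hmin⟩ := Finset.exists_min_image _ (fun T => T.card) hne
    rw [Finset.mem_filter, Finset.mem_powerset] at hT
    have hsum := Finset.card_filter_add_card_filter_not (s := X) (fun x => val x ∈ T)
    suffices hgoal : b ≤ (X.filter (fun x => ¬ val x ∈ T)).card by
      refine ⟨fun a => a ∈ T, ?_, ?_⟩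
      · convert hT.2
      · convert hgoal
    rcases T.eq_empty_or_nonempty with h0 | ⟨α, hα⟩
    · have hb0 : b = 0 := by
        have h1 := hT.2
        rw [h0] at h1
        simpa using h1
      rw [hb0]
      exact Nat.zero_le _
    · have h1 : (X.filter (fun x => val x ∈ T.erase α)).card < b := by
        by_contra hcon
        have hmem : T.erase α ∈ ((X.image val).powerset).filter
            (fun T => b ≤ (X.filter (fun x => val x ∈ T)).card) := by
          rw [Finset.mem_filter, Finset.mem_powerset]
          exact ⟨(Finset.erase_subset _ _).trans hT.1, not_lt.mp hcon⟩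
        have h2 := hmin _ hmem
        have h3 := Finset.card_erase_lt_of_mem hα
        omega
      have h2 : X.filter (fun x => val x ∈ T) ⊆
          X.filter (fun x => val x ∈ T.erase α) ∪ X.filter (fun x => val x = α) := by
        intro x hx
        rw [Finset.mem_filter] at hx
        rw [Finset.mem_union, Finset.mem_filter, Finset.mem_filter]
        by_cases hxa : val x = α
        · exact Or.inr ⟨hx.1, hxa⟩
        · exact Or.inl ⟨hx.1, Finset.mem_erase.mpr ⟨hxa, hx.2⟩⟩
      have h3 := (Finset.card_le_card h2).trans (Finset.card_union_le _ _)
      have h4 := hlt α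
      omega

end Pool.Agent.Lib.LT
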