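import Pool.Agent.Lib.MP_6d56f7_co_LT.Defs

/-!
# Pairs which meet a light set exactly once
-/

set_option autoImplicit false

namespace Pool.Agent.Lib.LT

open Finset Pool.Agent.Lib.FR

private theorem few_common {n : ℕ} (a : El n) (D : Finset (El n)) (B : Finset (J n))
    (hB : ∀ T ∈ B, T ∈ st n a ∧ ∃ b ∈ D, b ≠ a ∧ T ∈ st n b) : B.card ≤ D.card := by
  classical
  have hsub : B ⊆ (D.erase a).biUnion (fun b => st n a ∩ st n b) := by
    intro T hT
    obtain ⟨h1, b, hb, hba, h2⟩ := hB T hT
    rw [mem_biUnion]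
    exact ⟨b, mem_erase.mpr ⟨hba, hb⟩, mem_inter.mpr ⟨h1, h2⟩⟩
  refine (card_le_card hsub).trans ?_
  refine (card_biUnion_le_card_mul _ _ 1 ?_).trans ?_
  · intro b hb
    rw [card_le_one]
    intro g hg g' hg'
    rw [mem_inter] at hg hg'
    exact st_inter (mem_erase.mp hb).1.symm hg.1 hg.2 hg'.1 hg'.2
  · rw [mul_one]
    exact card_le_card (erase_subset _ _)

private theorem not_one {n : ℕ} {S : Finset (El n)} {a : El n} {T : J n} (ha : a ∈ S)
    (hT : T ∈ st n a) (h : ¬ One S T) : ∃ b ∈ S, b ≠ a ∧ T ∈ st n b := by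
  by_contra hc
  push Not at hc
  apply h
  refine ⟨a, ⟨ha, hT⟩, ?_⟩
  rintro b ⟨hb, hTb⟩
  by_contra hba
  exact hc b hb hba hTb

private theorem exists_D {n : ℕ} (H : Finset (Fin (2 * n))) (K : Finset (Fin (2 * n - 1)))
    (S : Finset (El n)) (hH : 250 * H.card ≤ 2 * n - 1) (hK : 250 * K.card ≤ 2 * n - 1)
    (hS : LightS S) (a : El n) (ha : a ∈ S) (hoff : offE H K a) :
    ∃ D : Finset (El n), 250 * D.card ≤ 11 * (2 * n - 1) ∧
      ∀ T ∈ st n a, ¬ (offT H K T ∧ One S T) → ∃ b ∈ D, b ≠ a ∧ T ∈ st n b := by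
  classical
  rcases a with ⟨e, he⟩ | ⟨v, c⟩
  · induction e using Sym2.ind with
    | _ u w =>
      have h1 := hS.1 u
      have h2 := hS.1 w
      rw [cnt_eq] at h1 h2
      refine ⟨(K.image (fun c => (Sum.inr (u, c) : El n))) ∪
        (univ.filter (fun a : El n => a ∈ S ∧ hasV u a) ∪
          univ.filter (fun a : El n => a ∈ S ∧ hasV w a)), ?_, ?_⟩
      · have h3 := card_union_le (K.image (fun c => (Sum.inr (u, c) : El n)))
          (univ.filter (fun a : El n => a ∈ S ∧ hasV u a) ∪
            univ.filter (fun a : El n => a ∈ S ∧ hasV w a))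
        have h4 := card_union_le (univ.filter (fun a : El n => a ∈ S ∧ hasV u a))
          (univ.filter (fun a : El n => a ∈ S ∧ hasV w a))
        have h5 : (K.image (fun c => (Sum.inr (u, c) : El n))).card ≤ K.card := card_image_le
        omega
      · intro T hT hn
        have hT2 := mem_st_inl.mp hT
        have hT3 : T.2.1 = s(u, w) := by rw [hT2]
        by_cases ho : offT H K T
        · obtain ⟨b, hbS, hba, hbT⟩ := not_one ha hT (fun h => hn ⟨ho, h⟩)
          refine ⟨b, ?_, hba, hbT⟩
          rcases b with e' | ⟨x, c'⟩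
          · exact absurd (by rw [← mem_st_inl.mp hbT, hT2]) hba
          · have hb := mem_st_inr.mp hbT
            rw [hT3] at hb
            rw [mem_union, mem_union, mem_filter, mem_filter]
            rcases Sym2.mem_iff.mp hb.2 with h | h
            · exact Or.inr (Or.inl ⟨mem_univ _, hbS, h⟩)
            · exact Or.inr (Or.inr ⟨mem_univ _, hbS, h⟩)
        · by_cases hTK : T.1 ∈ K
          · refine ⟨Sum.inr (u, T.1), ?_, ?_, ?_⟩
            · rw [mem_union]
              exact Or.inl (mem_image_of_mem _ hTK)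
            · exact fun h => by cases h
            · rw [mem_st_inr, hT3]
              exact ⟨rfl, Sym2.mem_mk_left _ _⟩
          · exfalso
            apply ho
            refine ⟨hTK, ?_⟩
            intro x hx hxH
            rw [hT3] at hx
            exact hoff.1 x hxH hx
  · have h1 := hS.1 v
    have h2 := hS.2 c
    rw [cnt_eq] at h1 h2
    refine ⟨(H.image (fun w => (Sum.inr (w, c) : El n))) ∪
      (univ.filter (fun a : El n => a ∈ S ∧ hasV v a) ∪
        univ.filter (fun a : El n => a ∈ S ∧ hasC c a)), ?_, ?_⟩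
    · have h3 := card_union_le (H.image (fun w => (Sum.inr (w, c) : El n)))
        (univ.filter (fun a : El n => a ∈ S ∧ hasV v a) ∪
          univ.filter (fun a : El n => a ∈ S ∧ hasC c a))
      have h4 := card_union_le (univ.filter (fun a : El n => a ∈ S ∧ hasV v a))
        (univ.filter (fun a : El n => a ∈ S ∧ hasC c a))
      have h5 : (H.image (fun w => (Sum.inr (w, c) : El n))).card ≤ H.card := card_image_le
      omega
    · intro T hT hn
      have hT2 := mem_st_inr.mp hT
      by_cases ho : offT H K T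
      · obtain ⟨b, hbS, hba, hbT⟩ := not_one ha hT (fun h => hn ⟨ho, h⟩)
        refine ⟨b, ?_, hba, hbT⟩
        rw [mem_union, mem_union, mem_filter, mem_filter]
        rcases b with e' | ⟨x, c'⟩
        · have hb := mem_st_inl.mp hbT
          refine Or.inr (Or.inl ⟨mem_univ _, hbS, ?_⟩)
          have h := hT2.2
          rw [hb] at h
          exact h
        · have hb := mem_st_inr.mp hbT
          refine Or.inr (Or.inr ⟨mem_univ _, hbS, ?_⟩)
          exact hb.1.symm.trans hT2.1
      · by_cases hTH : ∃ x ∈ T.2.1, x ∈ H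
        · obtain ⟨x, hx, hxH⟩ := hTH
          refine ⟨Sum.inr (x, c), ?_, ?_, ?_⟩
          · rw [mem_union]
            exact Or.inl (mem_image_of_mem _ hxH)
          · intro h
            have h' := Sum.inr.inj h
            have hxv : x = v := congrArg Prod.fst h'
            exact hoff.1 x hxH hxv.symm
          · rw [mem_st_inr]
            exact ⟨hT2.1, hx⟩
        · exfalso
          apply ho
          refine ⟨?_, ?_⟩
          · intro hK'
            rw [hT2.1] at hK'
            exact hoff.2 c hK' rfl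
          · intro x hx hxH
            exact hTH ⟨x, hx, hxH⟩

/-- many pairs off few vertices and colours meet a light set exactly once -/
theorem count_light {n : ℕ} (H : Finset (Fin (2 * n))) (K : Finset (Fin (2 * n - 1)))
    (S : Finset (El n)) (hH : 250 * H.card ≤ 2 * n - 1) (hK : 250 * K.card ≤ 2 * n - 1)
    (hS : LightS S) (hoff : ∀ a ∈ S, offE H K a) :
    239 * (2 * n - 1) * S.card ≤ 250 * cnt (fun T : J n => offT H K T ∧ One S T) := by
  classical
  rw [cnt_eq]
  obtain ⟨G, hG⟩ : ∃ G : Finset (J n), G = univ.filter (fun T : J n => offT H K T ∧ One S T) :=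
    ⟨_, rfl⟩
  rw [← hG]
  have hD : ∀ a ∈ S, 239 * (2 * n - 1) ≤ 250 * (G ∩ st n a).card := by
    intro a ha
    obtain ⟨D, hD1, hD2⟩ := exists_D H K S hH hK hS a ha (hoff a ha)
    have h1 : (st n a \ G).card ≤ D.card := by
      apply few_common a D
      intro T hT
      rw [mem_sdiff] at hT
      refine ⟨hT.1, hD2 T hT.1 ?_⟩
      intro h
      apply hT.2
      rw [hG, mem_filter]
      exact ⟨mem_univ _, h⟩
    have h2 := card_sdiff_add_card_inter (st n a) G
    rw [st_card, inter_comm] at h2
    omega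
  have hsum : ∑ a ∈ S, (G ∩ st n a).card ≤ G.card := by
    rw [← card_biUnion]
    · exact card_le_card (biUnion_subset.mpr fun a _ => inter_subset_left)
    · intro a ha b hb hab
      rw [Function.onFun, disjoint_left]
      intro T hTa hTb
      rw [mem_inter] at hTa hTb
      have h := hTa.1
      rw [hG, mem_filter] at h
      obtain ⟨x, -, hx⟩ := h.2.2
      exact hab ((hx a ⟨ha, hTa.2⟩).trans (hx b ⟨hb, hTb.2⟩).symm)
  calc 239 * (2 * n - 1) * S.card = ∑ a ∈ S, 239 * (2 * n - 1) := by
        rw [sum_const, smul_eq_mul, mul_comm]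
    _ ≤ ∑ a ∈ S, 250 * (G ∩ st n a).card := sum_le_sum hD
    _ = 250 * ∑ a ∈ S, (G ∩ st n a).card := by rw [mul_sum]
    _ ≤ 250 * G.card := Nat.mul_le_mul_left _ hsum

end Pool.Agent.Lib.LT
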