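import Pool.Agent.Lib.MP_6d56f7_co_LT.Defs

/-!
# Pairs which meet a small set
-/

set_option autoImplicit false

namespace Pool.Agent.Lib.LT

open Finset Pool.Agent.Lib.FR

/-- `T` contains at least two elements of `S` -/
def Two {n : ℕ} (S : Finset (El n)) (T : J n) : Prop :=
  ∃ a ∈ S, ∃ b ∈ S, a ≠ b ∧ T ∈ st n a ∧ T ∈ st n b

private theorem CntSAux.sum_pairs {n : ℕ} (S : Finset (El n)) :
    ∑ T : J n, (S.offDiag.filter (fun p => T ∈ st n p.1 ∧ T ∈ st n p.2)).card + S.card ≤
      S.card ^ 2 := by
  classical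
  have h1 : ∑ T : J n, (S.offDiag.filter (fun p => T ∈ st n p.1 ∧ T ∈ st n p.2)).card =
      ∑ p ∈ S.offDiag, (univ.filter (fun T : J n => T ∈ st n p.1 ∧ T ∈ st n p.2)).card := by
    simp only [card_filter]
    exact sum_comm
  have h2 : ∑ p ∈ S.offDiag, (univ.filter (fun T : J n => T ∈ st n p.1 ∧ T ∈ st n p.2)).card ≤
      ∑ p ∈ S.offDiag, 1 := by
    refine sum_le_sum fun p hp => ?_
    rw [card_le_one]
    intro g hg g' hg'
    rw [mem_filter] at hg hg'
    exact st_inter (mem_offDiag.mp hp).2.2 hg.2.1 hg.2.2 hg'.2.1 hg'.2.2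
  rw [sum_const, smul_eq_mul, mul_one, offDiag_card] at h2
  have h3 : S.card ≤ S.card * S.card := Nat.le_mul_self _
  rw [h1, pow_two]
  omega

private theorem CntSAux.sum_k {n : ℕ} (S : Finset (El n)) :
    ∑ T : J n, (S.filter (fun a => T ∈ st n a)).card = (2 * n - 1) * S.card := by
  classical
  have h1 : ∑ T : J n, (S.filter (fun a => T ∈ st n a)).card =
      ∑ a ∈ S, (univ.filter (fun T : J n => T ∈ st n a)).card := by
    simp only [card_filter]
    exact sum_comm
  rw [h1, sum_congr rfl fun a _ => (show (univ.filter (fun T : J n => T ∈ st n a)).card =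
    2 * n - 1 by rw [filter_mem_eq_inter, univ_inter, st_card]), sum_const, smul_eq_mul, mul_comm]

private theorem CntSAux.pairs_eq {n : ℕ} (S : Finset (El n)) (T : J n) :
    (S.offDiag.filter (fun p => T ∈ st n p.1 ∧ T ∈ st n p.2)).card =
      (S.filter (fun a => T ∈ st n a)).card * (S.filter (fun a => T ∈ st n a)).card -
        (S.filter (fun a => T ∈ st n a)).card := by
  classical
  rw [← offDiag_card]
  congr 1
  ext ⟨a, b⟩
  simp only [mem_filter, mem_offDiag]
  tauto

/-- few pairs contain two elements of a small set -/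
theorem count_two {n : ℕ} (S : Finset (El n)) :
    2 * cnt (fun T : J n => Two S T) ≤ S.card ^ 2 := by
  classical
  have h := CntSAux.sum_pairs S
  have h2 : 2 * cnt (fun T : J n => Two S T) ≤
      ∑ T : J n, (S.offDiag.filter (fun p => T ∈ st n p.1 ∧ T ∈ st n p.2)).card := by
    rw [cnt_eq, card_filter, mul_sum]
    refine sum_le_sum fun T _ => ?_
    by_cases hT : Two S T
    · rw [if_pos hT, mul_one, CntSAux.pairs_eq]
      obtain ⟨a, ha, b, hb, hab, h3, h4⟩ := hT
      have h5 : 1 < (S.filter (fun a => T ∈ st n a)).card := by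
        rw [one_lt_card]
        exact ⟨a, mem_filter.mpr ⟨ha, h3⟩, b, mem_filter.mpr ⟨hb, h4⟩, hab⟩
      generalize (S.filter (fun a => T ∈ st n a)).card = k at h5 ⊢
      have h8 : (1 + 1) * k ≤ k * k := Nat.mul_le_mul_right k h5
      omega
    · rw [if_neg hT, mul_zero]
      exact Nat.zero_le _
  omega

/-- many pairs contain exactly one element of a small set -/
theorem count_one {n : ℕ} (S : Finset (El n)) :
    (2 * n - 1) * S.card ≤ cnt (fun T : J n => One S T) + S.card ^ 2 := by
  classical
  have h := CntSAux.sum_pairs S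
  have h2 : ∑ T : J n, (S.filter (fun a => T ∈ st n a)).card ≤
      cnt (fun T : J n => One S T) +
      ∑ T : J n, (S.offDiag.filter (fun p => T ∈ st n p.1 ∧ T ∈ st n p.2)).card := by
    rw [cnt_eq, card_filter, ← sum_add_distrib]
    refine sum_le_sum fun T _ => ?_
    rw [CntSAux.pairs_eq]
    rcases Nat.lt_or_ge 1 (S.filter (fun a => T ∈ st n a)).card with h5 | h5
    · generalize (S.filter (fun a => T ∈ st n a)).card = k at h5 ⊢
      have h8 : (1 + 1) * k ≤ k * k := Nat.mul_le_mul_right k h5
      omega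
    · rcases Nat.eq_zero_or_pos (S.filter (fun a => T ∈ st n a)).card with h6 | h6
      · rw [h6]
        exact Nat.zero_le _
      · have h7 : (S.filter (fun a => T ∈ st n a)).card = 1 := le_antisymm h5 h6
        have h8 : One S T := by
          obtain ⟨a, ha⟩ := card_eq_one.mp h7
          have h9 : ∀ b, b ∈ S ∧ T ∈ st n b ↔ b = a := by
            intro b
            have h10 : b ∈ S.filter (fun a => T ∈ st n a) ↔ b = a := by
              rw [ha, mem_singleton]
            rw [mem_filter] at h10
            exact h10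
          exact ⟨a, (h9 a).mpr rfl, fun b hb => (h9 b).mp hb⟩
        rw [if_pos h8, h7]
  rw [CntSAux.sum_k] at h2
  omega

/-- if every element of `S` is contained in a pair of `L`, and no pair of `L` contains exactly one
element of `S`, then `L` has many pairs containing two elements of `S` -/
theorem two_of_cover {n : ℕ} (S : Finset (El n)) (L : Finset (J n))
    (h : ∀ a ∈ S, ∃ T ∈ L, T ∈ st n a) (h1 : ∀ T ∈ L, ¬ One S T) :
    S.card ≤ 3 * cnt (fun T : J n => T ∈ L ∧ Two S T) := by
  classical
  have hsub : S ⊆ (univ.filter (fun T : J n => T ∈ L ∧ Two S T)).biUnion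
      (fun T => univ.filter (fun a => T ∈ st n a)) := by
    intro a ha
    obtain ⟨T, hT, hTa⟩ := h a ha
    rw [mem_biUnion]
    refine ⟨T, mem_filter.mpr ⟨mem_univ _, hT, ?_⟩, mem_filter.mpr ⟨mem_univ _, hTa⟩⟩
    by_contra hne
    refine h1 T hT ⟨a, ⟨ha, hTa⟩, fun b hb => ?_⟩
    by_contra hba
    exact hne ⟨a, ha, b, hb.1, fun e => hba e.symm, hTa, hb.2⟩
  have h2 := (card_le_card hsub).trans (card_biUnion_le_card_mul _ _ 3 fun T _ => els_card n T)
  rw [cnt_eq, mul_comm]
  exact h2

end Pool.Agent.Lib.LT
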