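import Pool.Agent.Lib.MP_6d56f7_co_FR.DefsT
import Pool.Agent.Lib.MP_6d56f7_co_FR.ListP
import Pool.Agent.Lib.MP_6d56f7_co_FR.Cov
import Pool.Agent.Lib.MP_6d56f7_co_LT.QDefs

/-!
# The probability that every element is covered
-/

set_option autoImplicit false

namespace Pool.Agent.Lib.LT

open Finset Filter Topology Pool.Agent.Lib.FR

/-- every edge has a colour in its list, and every vertex has in every colour an edge with this
colour in its list -/
def Cov (n : ℕ) (L : Edge (Fin (2 * n)) → Finset (Fin (2 * n - 1))) : Prop :=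
  (∀ e, (L e).Nonempty) ∧ ∀ v c, ∃ e : Edge (Fin (2 * n)), v ∈ e.1 ∧ c ∈ L e

namespace CovLim

/-- the union of the stars of a set of elements has nearly the largest possible size -/
private theorem un_lower (n : ℕ) (B : Finset (El n)) :
    B.card * (2 * n - 1) ≤ (B.biUnion (st n)).card + B.card * B.card := by
  classical
  induction B using Finset.induction_on with
  | empty => simp
  | insert a B ha ih =>
    rw [card_insert_of_notMem ha, biUnion_insert]
    have h1 := card_union_add_card_inter (st n a) (B.biUnion (st n))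
    have h2 : (st n a ∩ B.biUnion (st n)).card ≤ B.card := by
      have h3 : st n a ∩ B.biUnion (st n) ⊆ B.biUnion (fun b => st n a ∩ st n b) := by
        intro j hj
        rw [mem_inter, mem_biUnion] at hj
        obtain ⟨hj1, b, hb, hj2⟩ := hj
        exact mem_biUnion.mpr ⟨b, hb, mem_inter.mpr ⟨hj1, hj2⟩⟩
      refine (card_le_card h3).trans ((card_biUnion_le_card_mul _ _ 1 fun b hb => ?_).trans
        (le_of_eq (mul_one _)))
      rw [card_le_one]
      intro g hg g' hg'
      rw [mem_inter] at hg hg'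
      have hab : a ≠ b := fun h => ha (h ▸ hb)
      exact st_inter hab hg.1 hg.2 hg'.1 hg'.2
    rw [st_card] at h1
    have h4 : (B.card + 1) * (2 * n - 1) = B.card * (2 * n - 1) + (2 * n - 1) := by ring
    have h5 : (B.card + 1) * (B.card + 1) = B.card * B.card + B.card + B.card + 1 := by ring
    rw [h4, h5]
    omega

private theorem un_upper (n : ℕ) (B : Finset (El n)) :
    (B.biUnion (st n)).card ≤ B.card * (2 * n - 1) :=
  card_biUnion_le_card_mul _ _ _ fun a _ => (st_card n a).le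

open Classical in
private theorem Ex_zero (n : ℕ) (p : ℝ) (Y : Finset (J n)) :
    Ex (qq p p) (fun s : J n → Fin 3 => if ∀ j ∈ Y, s j = 0 then (1 : ℝ) else 0) =
      (1 - p) ^ Y.card := by
  have h := Ex_gen p p 0 0 (∅ : Finset (J n)) Y (disjoint_empty_left _)
  rw [card_empty, pow_zero, one_mul, mul_zero, mul_zero, add_zero, add_zero] at h
  rw [← h]
  congr 1
  funext s
  by_cases hs : ∀ j ∈ Y, s j = 0
  · rw [if_pos hs]
    refine Eq.symm (prod_eq_one fun i _ => ?_)
    by_cases hi : i ∈ Y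
    · simp [hi, hs i hi]
    · simp [hi]
  · rw [if_neg hs]
    push Not at hs
    obtain ⟨j, hj, hj0⟩ := hs
    refine Eq.symm (prod_eq_zero (mem_univ j) ?_)
    rw [if_neg (notMem_empty _), if_pos hj]
    by_cases h2 : s j = 2
    · rw [if_pos h2]
    · rw [if_neg h2, if_pos]
      have h3 : ∀ a : Fin 3, a ≠ 0 → a ≠ 2 → a = 1 := by decide
      exact h3 _ hj0 h2

open Classical in
/-- the number of uncovered elements -/
private noncomputable def Z (n : ℕ) (s : J n → Fin 3) : Finset (El n) :=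
  univ.filter (fun a => ∀ j ∈ st n a, s j = 0)

/-- the binomial moments -/
private noncomputable def S (n : ℕ) (p : ℝ) (k : ℕ) : ℝ :=
  ∑ B ∈ powersetCard k (univ : Finset (El n)), (1 - p) ^ (B.biUnion (st n)).card

private theorem Ex_choose (n : ℕ) (p : ℝ) (k : ℕ) :
    Ex (qq p p) (fun s : J n → Fin 3 => ((Z n s).card.choose k : ℝ)) = S n p k := by
  classical
  unfold S
  rw [← sum_congr rfl fun B _ => Ex_zero n p (B.biUnion (st n)), ← Ex_sum]
  congr 1
  funext s
  rw [← card_powersetCard, ← sum_filter, sum_const, nsmul_eq_mul, mul_one]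
  congr 2
  ext B
  rw [mem_powersetCard, mem_filter, mem_powersetCard]
  constructor
  · rintro ⟨h1, h2⟩
    refine ⟨⟨subset_univ _, h2⟩, fun j hj => ?_⟩
    obtain ⟨a, ha, hja⟩ := mem_biUnion.mp hj
    exact (mem_filter.mp (h1 ha)).2 j hja
  · rintro ⟨⟨-, h2⟩, h3⟩
    refine ⟨fun a ha => ?_, h2⟩
    exact mem_filter.mpr ⟨mem_univ _, fun j hj => h3 j (mem_biUnion.mpr ⟨a, ha, hj⟩)⟩

private theorem alt (z m : ℕ) :
    (∑ k ∈ range (m + 1), ((-1) ^ k * ((z + 1).choose k : ℝ))) = (-1) ^ m * z.choose m := by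
  have h := Int.alternating_sum_range_choose_eq_choose (n := z) (m := m)
  exact_mod_cast h

private theorem alt_zero (m : ℕ) :
    (∑ k ∈ range (m + 1), ((-1) ^ k * ((0 : ℕ).choose k : ℝ))) = 1 := by
  rw [sum_range_succ', sum_eq_zero]
  · simp
  · intro k _
    simp

private theorem cov_iff (n : ℕ) (s : J n → Fin 3) :
    Cov n (fun e => univ.filter (fun c => s (c, e) ≠ 0)) ↔ Z n s = ∅ := by
  classical
  unfold Z
  rw [filter_eq_empty_iff]
  constructor
  · rintro ⟨h1, h2⟩ a -
    intro hc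
    rcases a with e | ⟨v, c⟩
    · obtain ⟨c, hc1⟩ := h1 e
      exact (mem_filter.mp hc1).2 (hc (c, e) (mem_st_inl.mpr rfl))
    · obtain ⟨e, he, hc1⟩ := h2 v c
      exact (mem_filter.mp hc1).2 (hc (c, e) (mem_st_inr.mpr ⟨rfl, he⟩))
  · intro h
    constructor
    · intro e
      have h1 := h (mem_univ (Sum.inl e : El n))
      push Not at h1
      obtain ⟨j, hj, hj0⟩ := h1
      have h2 := mem_st_inl.mp hj
      refine ⟨j.1, mem_filter.mpr ⟨mem_univ _, ?_⟩⟩
      rw [← h2]
      exact hj0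
    · intro v c
      have h1 := h (mem_univ (Sum.inr (v, c) : El n))
      push Not at h1
      obtain ⟨j, hj, hj0⟩ := h1
      obtain ⟨h2, h3⟩ := mem_st_inr.mp hj
      refine ⟨j.2, h3, mem_filter.mpr ⟨mem_univ _, ?_⟩⟩
      rw [← h2]
      exact hj0

private theorem Ex_alt (n : ℕ) (p : ℝ) (m : ℕ) :
    Ex (qq p p) (fun s : J n → Fin 3 =>
      ∑ k ∈ range (m + 1), ((-1) ^ k * ((Z n s).card.choose k : ℝ))) =
      ∑ k ∈ range (m + 1), ((-1) ^ k * S n p k) := by
  rw [Ex_sum]
  refine sum_congr rfl fun k _ => ?_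
  rw [Ex_mul_left, Ex_choose]

private theorem bonf_even (n : ℕ) (p : ℝ) (h0 : 0 ≤ p) (h1 : p ≤ 1) (m : ℕ) (hm : Even m) :
    listProb n p (Cov n) ≤ ∑ k ∈ range (m + 1), ((-1) ^ k * S n p k) := by
  classical
  rw [listProb_eq, Pr_eq, ← Ex_alt]
  refine Ex_mono (qq_nonneg h0 le_rfl h1) fun s => ?_
  rcases Nat.eq_zero_or_pos (Z n s).card with hz | hz
  · rw [hz, alt_zero]
    split_ifs <;> norm_num
  · obtain ⟨z, hz1⟩ := Nat.exists_eq_succ_of_ne_zero hz.ne'
    rw [if_neg, hz1, Nat.succ_eq_add_one, alt, hm.neg_one_pow, one_mul]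
    · exact Nat.cast_nonneg _
    · rw [cov_iff]
      intro h
      rw [h, card_empty] at hz
      exact absurd hz (lt_irrefl _)

private theorem bonf_odd (n : ℕ) (p : ℝ) (h0 : 0 ≤ p) (h1 : p ≤ 1) (m : ℕ) (hm : Odd m) :
    ∑ k ∈ range (m + 1), ((-1) ^ k * S n p k) ≤ listProb n p (Cov n) := by
  classical
  rw [listProb_eq, Pr_eq, ← Ex_alt]
  refine Ex_mono (qq_nonneg h0 le_rfl h1) fun s => ?_
  rcases Nat.eq_zero_or_pos (Z n s).card with hz | hz
  · rw [hz, alt_zero, if_pos]
    rw [cov_iff]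
    exact card_eq_zero.mp hz
  · obtain ⟨z, hz1⟩ := Nat.exists_eq_succ_of_ne_zero hz.ne'
    rw [hz1, Nat.succ_eq_add_one, alt, hm.neg_one_pow]
    refine le_trans ?_ (by split_ifs <;> norm_num : (0 : ℝ) ≤ _)
    have : (0 : ℝ) ≤ z.choose m := Nat.cast_nonneg _
    linarith

/-- partial sums of the exponential series -/
private theorem partial_exp (t : ℝ) :
    Tendsto (fun m : ℕ => ∑ k ∈ range (m + 1), ((-1) ^ k * (t ^ k / (k.factorial : ℝ)))) atTop
      (𝓝 (Real.exp (-t))) := by
  have h := (NormedSpace.expSeries_div_hasSum_exp (-t : ℝ)).tendsto_sum_nat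
  rw [← Real.exp_eq_exp_ℝ] at h
  have h2 := h.comp (tendsto_add_atTop_nat 1)
  refine h2.congr fun m => ?_
  simp only [Function.comp]
  refine sum_congr rfl fun k _ => ?_
  rw [neg_pow, mul_div_assoc]

private theorem p_zero {x : ℝ} {p : ℕ → ℝ}
    (h : Tendsto (fun n : ℕ => n * p n - Real.log n) atTop (𝓝 x)) :
    Tendsto p atTop (𝓝 0) ∧ Tendsto (fun n : ℕ => (n : ℝ) * p n ^ 2) atTop (𝓝 0) := by
  have t1 : Tendsto (fun n : ℕ => Real.log (n : ℝ) / n) atTop (𝓝 0) := by
    have h := (Real.isLittleO_log_id_atTop).tendsto_div_nhds_zero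
    exact h.comp tendsto_natCast_atTop_atTop
  have t2 : Tendsto (fun n : ℕ => Real.log (n : ℝ) ^ 2 / n) atTop (𝓝 0) := by
    have h := (Real.isLittleO_pow_log_id_atTop (n := 2)).tendsto_div_nhds_zero
    exact h.comp tendsto_natCast_atTop_atTop
  have t3 : Tendsto (fun n : ℕ => ((n : ℝ))⁻¹) atTop (𝓝 0) :=
    tendsto_inv_atTop_nhds_zero_nat
  constructor
  · have h1 : Tendsto (fun n : ℕ => (n * p n - Real.log n) * ((n : ℝ))⁻¹ + Real.log n / n) atTop
        (𝓝 (x * 0 + 0)) := (h.mul t3).add t1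
    rw [mul_zero, add_zero] at h1
    refine h1.congr' ?_
    filter_upwards [eventually_ge_atTop 1] with n hn
    have hn0 : (n : ℝ) ≠ 0 := by positivity
    field_simp
    ring
  · have h1 : Tendsto (fun n : ℕ => (n * p n - Real.log n) ^ 2 * ((n : ℝ))⁻¹ +
        2 * ((n * p n - Real.log n) * (Real.log n / n)) + Real.log n ^ 2 / n) atTop
        (𝓝 (x ^ 2 * 0 + 2 * (x * 0) + 0)) :=
      (((h.pow 2).mul t3).add ((h.mul t1).const_mul 2)).add t2
    rw [mul_zero, mul_zero, mul_zero, add_zero, add_zero] at h1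
    refine h1.congr' ?_
    filter_upwards [eventually_ge_atTop 1] with n hn
    have hn0 : (n : ℝ) ≠ 0 := by positivity
    field_simp
    ring

/-- the expected number of uncovered elements -/
private theorem mean_lim {x : ℝ} {p : ℕ → ℝ}
    (h : Tendsto (fun n : ℕ => n * p n - Real.log n) atTop (𝓝 x)) :
    Tendsto (fun n : ℕ => ((3 * (n * (2 * n - 1)) : ℕ) : ℝ) * (1 - p n) ^ (2 * n - 1)) atTop
      (𝓝 (6 * Real.exp (-(2 * x)))) := by
  obtain ⟨hp0, hp2⟩ := p_zero h
  have hsm : ∀ᶠ n in atTop, |p n| ≤ 1 / 2 := by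
    have h1 := hp0.abs
    rw [abs_zero] at h1
    exact (h1.eventually (gt_mem_nhds (by norm_num : (0 : ℝ) < 1 / 2))).mono fun n hn => hn.le
  have e1 : Tendsto (fun n : ℕ => (2 * n - 1 : ℝ) * (Real.log (1 - p n) + p n)) atTop (𝓝 0) := by
    have h4 : Tendsto (fun n : ℕ => 4 * ((n : ℝ) * p n ^ 2)) atTop (𝓝 0) := by
      have := hp2.const_mul 4
      rwa [mul_zero] at this
    refine squeeze_zero_norm' ?_ h4
    filter_upwards [hsm, eventually_ge_atTop 1] with n hn hn1
    have hn1' : (1 : ℝ) ≤ n := by exact_mod_cast hn1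
    have h5 := Real.abs_log_sub_add_sum_range_le (x := p n) (by linarith) 1
    have h6 : |Real.log (1 - p n) + p n| ≤ 2 * p n ^ 2 := by
      have h7 : (∑ i ∈ range 1, p n ^ (i + 1) / ((i : ℝ) + 1)) + Real.log (1 - p n) =
          Real.log (1 - p n) + p n := by
        simp [add_comm]
      rw [h7] at h5
      refine h5.trans ?_
      rw [div_le_iff₀ (by linarith)]
      have h8 : |p n| ^ (1 + 1) = p n ^ 2 := sq_abs _
      rw [h8]
      nlinarith [sq_nonneg (p n)]
    rw [Real.norm_eq_abs, abs_mul, abs_of_nonneg (by linarith : (0 : ℝ) ≤ 2 * n - 1)]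
    calc (2 * n - 1 : ℝ) * |Real.log (1 - p n) + p n| ≤ (2 * n) * (2 * p n ^ 2) :=
          mul_le_mul (by linarith) h6 (abs_nonneg _) (by positivity)
      _ = 4 * ((n : ℝ) * p n ^ 2) := by ring
  have e2 : Tendsto (fun n : ℕ => (2 * n - 1 : ℝ) * (Real.log (1 - p n) + p n) -
      (2 * (n * p n - Real.log n) - p n)) atTop (𝓝 (-(2 * x))) := by
    have := e1.sub ((h.const_mul 2).sub hp0)
    rwa [sub_zero, zero_sub] at this
  have e3 := (Real.continuous_exp.tendsto _).comp e2
  have e4 : Tendsto (fun n : ℕ => 3 * (2 - ((n : ℝ))⁻¹)) atTop (𝓝 6) := by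
    have := ((tendsto_const_nhds (x := (2 : ℝ))).sub
      (tendsto_inv_atTop_nhds_zero_nat (𝕜 := ℝ))).const_mul 3
    rw [sub_zero] at this
    norm_num at this
    exact this
  refine (e4.mul e3).congr' ?_
  filter_upwards [hsm, eventually_ge_atTop 1] with n hn hn1
  have hn0 : (0 : ℝ) < n := by positivity
  have hp1 : 0 < 1 - p n := by
    have := (abs_le.mp hn).2
    linarith
  simp only [Function.comp]
  have hcast : ((2 * n - 1 : ℕ) : ℝ) = 2 * n - 1 := by
    rw [Nat.cast_sub (by omega)]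
    push_cast
    ring
  have h9 : (2 * n - 1 : ℝ) * (Real.log (1 - p n) + p n) - (2 * (n * p n - Real.log n) - p n) =
      ((2 * n - 1 : ℕ) : ℝ) * Real.log (1 - p n) + (2 : ℕ) * Real.log n := by
    rw [hcast]
    push_cast
    ring
  rw [h9, Real.exp_add, Real.exp_nat_mul, Real.exp_nat_mul, Real.exp_log hp1, Real.exp_log hn0]
  push_cast
  rw [hcast]
  field_simp

private theorem choose_lim {t : ℝ} {N : ℕ → ℕ} {q : ℕ → ℝ} (hN : Tendsto N atTop atTop)
    (h : Tendsto (fun n => (N n : ℝ) * q n) atTop (𝓝 t)) (k : ℕ) :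
    Tendsto (fun n => ((N n).choose k : ℝ) * q n ^ k) atTop (𝓝 (t ^ k / k.factorial)) := by
  have h1 : Asymptotics.IsEquivalent atTop (fun n => ((N n).choose k : ℝ) * q n ^ k)
      (fun n => ((N n : ℝ) * q n) ^ k / k.factorial) := by
    have h2 := ((isEquivalent_choose k).comp_tendsto hN).mul
      (Asymptotics.IsEquivalent.refl (u := fun n => q n ^ k) (l := atTop))
    refine h2.trans (EventuallyEq.isEquivalent (.of_eq ?_))
    funext n
    simp only [Function.comp, Pi.mul_apply]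
    rw [mul_pow]
    ring
  exact (Asymptotics.IsEquivalent.tendsto_nhds_iff h1).mpr ((h.pow k).div_const _)

private theorem S_lim {x : ℝ} {p : ℕ → ℝ} (hp : ∀ᶠ n : ℕ in atTop, 0 ≤ p n ∧ p n ≤ 1)
    (h : Tendsto (fun n : ℕ => n * p n - Real.log n) atTop (𝓝 x)) (k : ℕ) :
    Tendsto (fun n => S n (p n) k) atTop
      (𝓝 ((6 * Real.exp (-(2 * x))) ^ k / k.factorial)) := by
  classical
  obtain ⟨hp0, -⟩ := p_zero h
  have hN : Tendsto (fun n : ℕ => 3 * (n * (2 * n - 1))) atTop atTop := by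
    refine tendsto_atTop_mono' _ ?_ tendsto_id
    filter_upwards [eventually_ge_atTop 1] with n hn
    have h1 : n * 1 ≤ n * (2 * n - 1) := Nat.mul_le_mul_left _ (by omega)
    simp only [id]
    omega
  have h1 := choose_lim hN (mean_lim h) k
  have h2 : Tendsto (fun n => ((3 * (n * (2 * n - 1))).choose k : ℝ) *
      ((1 - p n) ^ (2 * n - 1)) ^ k / (1 - p n) ^ (k * k)) atTop
      (𝓝 ((6 * Real.exp (-(2 * x))) ^ k / k.factorial)) := by
    have h3 : Tendsto (fun n => (1 - p n) ^ (k * k)) atTop (𝓝 1) := by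
      have := ((tendsto_const_nhds (x := (1 : ℝ))).sub hp0).pow (k * k)
      rwa [sub_zero, one_pow] at this
    have := h1.div h3 one_ne_zero
    rwa [div_one] at this
  have hlt : ∀ᶠ n in atTop, p n < 1 := hp0.eventually (gt_mem_nhds zero_lt_one)
  refine tendsto_of_tendsto_of_tendsto_of_le_of_le' h1 h2 ?_ ?_
  · filter_upwards [hp] with n hn
    unfold S
    have h4 : ((3 * (n * (2 * n - 1))).choose k : ℝ) * ((1 - p n) ^ (2 * n - 1)) ^ k =
        ∑ B ∈ powersetCard k (univ : Finset (El n)), ((1 - p n) ^ (2 * n - 1)) ^ k := by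
      rw [sum_const, card_powersetCard, card_univ, El_card, nsmul_eq_mul]
    rw [h4]
    refine sum_le_sum fun B hB => ?_
    rw [← pow_mul]
    refine pow_le_pow_of_le_one (by linarith [hn.2]) (by linarith [hn.1]) ?_
    have h5 := un_upper n B
    rw [(mem_powersetCard.mp hB).2, mul_comm k (2 * n - 1)] at h5
    exact h5
  · filter_upwards [hp, hlt] with n hn hn1
    unfold S
    have h4 : ((3 * (n * (2 * n - 1))).choose k : ℝ) * ((1 - p n) ^ (2 * n - 1)) ^ k /
        (1 - p n) ^ (k * k) = ∑ B ∈ powersetCard k (univ : Finset (El n)),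
          (((1 - p n) ^ (2 * n - 1)) ^ k / (1 - p n) ^ (k * k)) := by
      rw [sum_const, card_powersetCard, card_univ, El_card, nsmul_eq_mul, mul_div_assoc]
    rw [h4]
    refine sum_le_sum fun B hB => ?_
    have h1p : 0 < 1 - p n := by linarith
    rw [le_div_iff₀ (pow_pos h1p _), ← pow_add, ← pow_mul]
    refine pow_le_pow_of_le_one h1p.le (by linarith [hn.1]) ?_
    have h5 := un_lower n B
    rw [(mem_powersetCard.mp hB).2, mul_comm k (2 * n - 1)] at h5
    exact h5

end CovLim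

open CovLim

/-- the probability that all elements are covered, in the critical window -/
theorem cover_limit (x : ℝ) (p : ℕ → ℝ) (hp : ∀ᶠ n : ℕ in atTop, 0 ≤ p n ∧ p n ≤ 1)
    (h : Tendsto (fun n : ℕ => n * p n - Real.log n) atTop (𝓝 x)) :
    Tendsto (fun n : ℕ => listProb n (p n) (Cov n)) atTop
      (𝓝 (Real.exp (-(6 * Real.exp (-(2 * x)))))) := by
  set t := 6 * Real.exp (-(2 * x)) with ht
  have hT : ∀ m : ℕ, Tendsto (fun n => ∑ k ∈ range (m + 1), ((-1) ^ k * S n (p n) k)) atTop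
      (𝓝 (∑ k ∈ range (m + 1), ((-1) ^ k * (t ^ k / (k.factorial : ℝ))))) := by
    intro m
    exact tendsto_finsetSum _ fun k _ => (S_lim hp h k).const_mul _
  have hE := partial_exp t
  have hodd : Tendsto (fun i : ℕ => 2 * i + 1) atTop atTop :=
    tendsto_atTop_mono (fun i => by simp only [id]; omega) tendsto_id
  have heven : Tendsto (fun i : ℕ => 2 * i) atTop atTop :=
    tendsto_atTop_mono (fun i => by simp only [id]; omega) tendsto_id
  refine tendsto_order.2 ⟨fun y hy => ?_, fun y hy => ?_⟩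
  · obtain ⟨i, hi⟩ := ((hE.comp hodd).eventually (lt_mem_nhds hy)).exists
    simp only [Function.comp] at hi
    filter_upwards [(hT (2 * i + 1)).eventually (lt_mem_nhds hi), hp] with n hn hn1
    exact lt_of_lt_of_le hn (bonf_odd n (p n) hn1.1 hn1.2 (2 * i + 1) ⟨i, rfl⟩)
  · obtain ⟨i, hi⟩ := ((hE.comp heven).eventually (gt_mem_nhds hy)).exists
    simp only [Function.comp] at hi
    filter_upwards [(hT (2 * i)).eventually (gt_mem_nhds hi), hp] with n hn hn1
    exact lt_of_le_of_lt (bonf_even n (p n) hn1.1 hn1.2 (2 * i) (even_two_mul i)) hn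

/-- above the threshold all elements are covered -/
theorem cover_one {ε : ℝ} (hε : 0 < ε) (p : ℕ → ℝ)
    (hp : ∀ᶠ n : ℕ in atTop, (1 + ε) * Real.log n / n ≤ p n ∧ p n ≤ 1) :
    Tendsto (fun n : ℕ => listProb n (p n) (Cov n)) atTop (𝓝 1) := by
  classical
  have hsmall : Tendsto (fun n : ℕ => 6 * (n : ℝ) ^ (-ε)) atTop (𝓝 0) := by
    have h1 := (tendsto_rpow_neg_atTop hε).comp tendsto_natCast_atTop_atTop
    have h2 := h1.const_mul 6
    rwa [mul_zero] at h2
  have hlow : Tendsto (fun n : ℕ => 1 - 6 * (n : ℝ) ^ (-ε)) atTop (𝓝 1) := by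
    have := (tendsto_const_nhds (x := (1 : ℝ))).sub hsmall
    rwa [sub_zero] at this
  refine tendsto_of_tendsto_of_tendsto_of_le_of_le' hlow tendsto_const_nhds ?_ ?_
  · obtain ⟨n₀, hn₀⟩ := exists_nat_gt ((1 + ε) / ε)
    filter_upwards [hp, eventually_ge_atTop 1, eventually_ge_atTop n₀] with n hn hn1 hn2
    have hn1' : (1 : ℝ) ≤ n := by exact_mod_cast hn1
    have hn0 : (0 : ℝ) < n := by linarith
    have hlog : 0 ≤ Real.log n := Real.log_nonneg hn1'
    have hp0 : 0 ≤ p n := le_trans (by positivity) hn.1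
    have hc := cov_high (n := n) hn1 hp0 le_rfl hn.2
    have h1 : listProb n (p n) (Cov n) = 1 - Pr (qq (p n) (p n)) (fun s : J n → Fin 3 =>
        ∃ a : El n, ∀ j ∈ st n a, s j = 0) := by
      rw [listProb_eq, ← Pr_not (qq_sum _ _)]
      congr 1
      funext s
      rw [cov_iff]
      unfold Z
      rw [filter_eq_empty_iff]
      simp only [mem_univ, true_implies, not_exists]
    rw [h1]
    have h2 : 6 * (n : ℝ) ^ 2 * Real.exp (-((2 * n - 1) * p n)) ≤ 6 * (n : ℝ) ^ (-ε) := by
      have h3 : (2 + ε) * Real.log n ≤ (2 * n - 1) * p n := by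
        have h4 : (2 * n - 1 : ℝ) * ((1 + ε) * Real.log n / n) ≤ (2 * n - 1) * p n :=
          mul_le_mul_of_nonneg_left hn.1 (by linarith)
        refine le_trans ?_ h4
        rw [← mul_div_assoc, le_div_iff₀ hn0]
        have h5 : (1 + ε) ≤ ε * n := by
          have h6 : (1 + ε) / ε < n := lt_of_lt_of_le hn₀ (by exact_mod_cast hn2)
          rw [div_lt_iff₀ hε] at h6
          linarith
        nlinarith [mul_le_mul_of_nonneg_right h5 hlog]
      have h7 : Real.exp (-((2 * n - 1) * p n)) ≤ (n : ℝ) ^ (-(2 + ε)) := by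
        rw [Real.rpow_def_of_pos hn0]
        apply Real.exp_le_exp.mpr
        linarith
      calc 6 * (n : ℝ) ^ 2 * Real.exp (-((2 * n - 1) * p n)) ≤
            6 * (n : ℝ) ^ 2 * (n : ℝ) ^ (-(2 + ε)) :=
            mul_le_mul_of_nonneg_left h7 (by positivity)
        _ = 6 * (n : ℝ) ^ (-ε) := by
            rw [mul_assoc, ← Real.rpow_natCast, ← Real.rpow_add hn0]
            congr 2
            push_cast
            ring
    linarith
  · filter_upwards [hp, eventually_ge_atTop 1] with n hn hn1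
    have hn1' : (1 : ℝ) ≤ n := by exact_mod_cast hn1
    have hlog : 0 ≤ Real.log n := Real.log_nonneg hn1'
    have hp0 : 0 ≤ p n := le_trans (by positivity) hn.1
    rw [listProb_eq]
    exact Pr_le_one (qq_nonneg hp0 le_rfl hn.2) (qq_sum _ _) _

end Pool.Agent.Lib.LT
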