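import Pool.Agent.Lib.MP_6d56f7_co_LT.KDefs
import Pool.Agent.Lib.MP_6d56f7_co_LT.Sums
import Pool.Agent.Lib.MP_6d56f7_co_FR.Asy

/-!
# Small sets of elements
-/

set_option autoImplicit false

namespace Pool.Agent.Lib.LT

open Finset Filter Pool.Agent.Lib.FR

/-- there are few small sets of elements -/
theorem card_smR {ε : ℝ} (hε : 0 < ε) : ∀ᶠ n : ℕ in atTop,
    (Nat.card {R : Finset (El n) // SmR R} : ℝ) ≤ Real.exp (ε * √n) := by
  filter_upwards [(Asy.base 5 1 (by norm_num : (0 : ℝ) < 3 / 8)).eventually (ge_mem_nhds hε),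
    Asy.ev_nat 3] with n h1 h2
  have hn1 : (1 : ℝ) ≤ n := by linarith
  have hn0 : (0 : ℝ) < n := by linarith
  set L : ℝ := Real.log n with hL
  have hL1 : 1 ≤ L := by
    rw [hL, Real.le_log_iff_exp_le hn0]
    have := Real.exp_one_lt_d9
    linarith
  have hnL : (n : ℝ) = Real.exp L := Asy.nat_eq hn1
  set m : ℕ := ⌊Real.exp (L / 8)⌋₊ with hm
  have hmle : (m : ℝ) ≤ Real.exp (L / 8) := Nat.floor_le (Real.exp_pos _).le
  -- the number of elements
  have hcard : (Fintype.card (El n) : ℝ) ≤ 6 * (n : ℝ) ^ 2 := by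
    rw [El_card]
    have : 3 * (n * (2 * n - 1)) ≤ 6 * n ^ 2 := by
      have h6 : n * (2 * n - 1) ≤ n * (2 * n) := Nat.mul_le_mul_left n (Nat.sub_le _ _)
      nlinarith
    exact_mod_cast this
  have h6n : (1 : ℝ) ≤ 6 * (n : ℝ) ^ 2 := by nlinarith
  have h6 : 6 * (n : ℝ) ^ 2 ≤ Real.exp (2 + 2 * L) := by
    rw [Real.exp_add, show Real.exp (2 * L) = (n : ℝ) ^ 2 by
      rw [hnL, ← Real.exp_nat_mul]; norm_num]
    have e1 : (6 : ℝ) ≤ Real.exp 2 := by
      have h := Real.exp_one_gt_d9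
      have h' : Real.exp 2 = Real.exp 1 * Real.exp 1 := by
        rw [← Real.exp_add]; norm_num
      rw [h']
      nlinarith
    exact mul_le_mul_of_nonneg_right e1 (by positivity)
  -- counting
  have hc : (Nat.card {R : Finset (El n) // SmR R} : ℝ) ≤
      ∑ S ∈ (univ : Finset (Finset (El n))).filter (fun S => S.card ≤ m), (1 : ℝ) ^ S.card := by
    classical
    have e1 : Nat.card {R : Finset (El n) // SmR R} ≤
        ((univ : Finset (Finset (El n))).filter (fun S => S.card ≤ m)).card := by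
      rw [Nat.card_eq_fintype_card, Fintype.card_subtype]
      refine card_le_card fun R hR => ?_
      rw [mem_filter] at hR ⊢
      refine ⟨mem_univ _, Nat.le_floor ?_⟩
      have hR' : R.card ^ 8 ≤ n := hR.2
      have e2 : (R.card : ℝ) ^ 8 ≤ Real.exp (L / 8) ^ 8 := by
        rw [← Real.exp_nat_mul, show ((8 : ℕ) : ℝ) * (L / 8) = L by push_cast; ring, ← hnL]
        exact_mod_cast hR'
      exact le_of_pow_le_pow_left₀ (by norm_num) (Real.exp_pos _).le e2
    simp only [one_pow, sum_const, nsmul_eq_mul, mul_one]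
    exact_mod_cast e1
  have hy0 : (0 : ℝ) < 1 / (6 * (n : ℝ) ^ 2) := by positivity
  have hs := sum_small (E := El n) (q := 1) (y := 1 / (6 * (n : ℝ) ^ 2)) zero_le_one hy0
    (by rw [div_le_one (by linarith)]; exact h6n) m
  refine (hc.trans hs).trans ?_
  rw [one_div_one_div]
  have e3 : Real.exp (1 * (1 / (6 * (n : ℝ) ^ 2)) * Fintype.card (El n)) ≤ Real.exp 1 := by
    refine Real.exp_le_exp.2 ?_
    rw [one_mul, one_div, inv_mul_le_iff₀ (by linarith), mul_one]
    exact hcard
  have e4 : (6 * (n : ℝ) ^ 2) ^ m ≤ Real.exp (m * (2 + 2 * L)) := by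
    rw [Real.exp_nat_mul]
    exact pow_le_pow_left₀ (by linarith) h6 m
  have hsq : √(n : ℝ) = Real.exp (L / 2) := by
    rw [hnL, show Real.exp L = Real.exp (L / 2) * Real.exp (L / 2) by
      rw [← Real.exp_add]; ring_nf, Real.sqrt_mul_self (Real.exp_pos _).le]
  calc (6 * (n : ℝ) ^ 2) ^ m * Real.exp (1 * (1 / (6 * (n : ℝ) ^ 2)) * Fintype.card (El n))
      ≤ Real.exp (m * (2 + 2 * L)) * Real.exp 1 :=
        mul_le_mul e4 e3 (Real.exp_pos _).le (Real.exp_pos _).le
    _ = Real.exp (m * (2 + 2 * L) + 1) := by rw [← Real.exp_add]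
    _ ≤ Real.exp (ε * √n) := by
        refine Real.exp_le_exp.2 ?_
        rw [hsq]
        have hE : 1 ≤ Real.exp (L / 8) := Real.one_le_exp (by linarith)
        have e5 : (m : ℝ) * (2 + 2 * L) + 1 ≤ 5 * L * Real.exp (L / 8) := by
          have e6 : (m : ℝ) * (2 + 2 * L) ≤ Real.exp (L / 8) * (4 * L) :=
            mul_le_mul hmle (by linarith) (by linarith) (Real.exp_pos _).le
          nlinarith
        have e7 : 5 * L ^ 1 * Real.exp (-(3 / 8 * L)) ≤ ε := h1
        have e8 : 5 * L * Real.exp (L / 8) =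
            5 * L ^ 1 * Real.exp (-(3 / 8 * L)) * Real.exp (L / 2) := by
          rw [mul_assoc _ (Real.exp _) (Real.exp _), ← Real.exp_add, pow_one]
          congr 2
          ring
        rw [e8] at e5
        exact e5.trans (mul_le_mul_of_nonneg_right e7 (Real.exp_pos _).le)

/-- few pairs touch a small set of elements -/
theorem card_touch {n : ℕ} (R : Finset (El n)) :
    cnt (fun T : J n => ∃ a ∈ R, T ∈ st n a) ≤ R.card * (2 * n - 1) := by
  classical
  rw [cnt_eq]
  have h : univ.filter (fun T : J n => ∃ a ∈ R, T ∈ st n a) ⊆ R.biUnion (st n) := by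
    intro T hT
    rw [mem_filter] at hT
    rw [mem_biUnion]
    exact hT.2
  refine (card_le_card h).trans (card_biUnion_le.trans ?_)
  rw [sum_congr rfl fun a _ => st_card n a, sum_const, smul_eq_mul]

end Pool.Agent.Lib.LT
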