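import Pool.Agent.Lib.MP_6d56f7_co_LT.CutCP
import Pool.Agent.Lib.MP_6d56f7_co_LT.SmRC

/-!
# Cuts in the colour classes, off a small set
-/

set_option autoImplicit false

namespace Pool.Agent.Lib.LT

open Finset Filter Pool.Agent.Lib.FR

/-- the indices -/
private abbrev CI (n : ℕ) : Type :=
  (Fin (2 * n - 1) × Finset (Fin (2 * n)) × Finset (Fin (2 * n))) × {R : Finset (El n) // SmR R}

/-- the pairs of the colour `i.1.1` across the cut -/
private noncomputable def cd0 (n : ℕ) (i : CI n) : Finset (J n) := by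
  classical
  exact univ.filter (fun T : J n => T.1 = i.1.1 ∧
    ∃ p : Fin (2 * n) × Fin (2 * n), T.2.1 = s(p.1, p.2) ∧ p.1 ∈ i.1.2.1 ∧ p.2 ∈ i.1.2.2)

private theorem mem_cd0 {n : ℕ} {i : CI n} {T : J n} : T ∈ cd0 n i ↔ T.1 = i.1.1 ∧
    ∃ p : Fin (2 * n) × Fin (2 * n), T.2.1 = s(p.1, p.2) ∧ p.1 ∈ i.1.2.1 ∧ p.2 ∈ i.1.2.2 := by
  classical
  simp [cd0]

/-- those which avoid the small set -/
private noncomputable def cd (n : ℕ) (i : CI n) : Finset (J n) := by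
  classical
  exact (cd0 n i).filter (fun T : J n => ∀ a ∈ i.2.1, T ∉ st n a)

private theorem mem_cd {n : ℕ} {i : CI n} {T : J n} : T ∈ cd n i ↔ T ∈ cd0 n i ∧
    ∀ a ∈ i.2.1, T ∉ st n a := by
  classical
  simp [cd]

/-- the ends of an edge across the cut -/
private noncomputable def cf (n : ℕ) (U₁ U₂ : Finset (Fin (2 * n))) (T : J n) :
    Fin (2 * n) × Fin (2 * n) := by
  classical
  exact if h : ∃ p : Fin (2 * n) × Fin (2 * n), T.2.1 = s(p.1, p.2) ∧ p.1 ∈ U₁ ∧ p.2 ∈ U₂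
    then h.choose else Quot.out T.2.1

private theorem cf_spec {n : ℕ} {U₁ U₂ : Finset (Fin (2 * n))} {T : J n}
    (h : ∃ p : Fin (2 * n) × Fin (2 * n), T.2.1 = s(p.1, p.2) ∧ p.1 ∈ U₁ ∧ p.2 ∈ U₂) :
    T.2.1 = s((cf n U₁ U₂ T).1, (cf n U₁ U₂ T).2) ∧ (cf n U₁ U₂ T).1 ∈ U₁ ∧
      (cf n U₁ U₂ T).2 ∈ U₂ := by
  classical
  have h1 : cf n U₁ U₂ T = h.choose := by
    unfold cf
    rw [dif_pos h]
  rw [h1]
  exact h.choose_spec

private theorem cd_le {n : ℕ} (L : Finset (J n)) (c : Fin (2 * n - 1))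
    (U₁ U₂ : Finset (Fin (2 * n))) (R : Finset (El n)) (hR : SmR R) :
    (L ∩ cd n ((c, U₁, U₂), ⟨R, hR⟩)).card ≤
      cnt (fun p : Fin (2 * n) × Fin (2 * n) => tr (res R L) p.1 p.2 c ∧ p.1 ∈ U₁ ∧
        p.2 ∈ U₂) := by
  classical
  rw [cnt_eq]
  refine card_le_card_of_injOn (cf n U₁ U₂) ?_ ?_
  · intro T hT
    rw [mem_coe, mem_inter, mem_cd, mem_cd0] at hT
    obtain ⟨hL, ⟨hc, hp⟩, ha⟩ := hT
    obtain ⟨h1, h2, h3⟩ := cf_spec hp
    rw [mem_coe, mem_filter]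
    refine ⟨mem_univ _, ?_, h2, h3⟩
    have h4 : ¬ (s((cf n U₁ U₂ T).1, (cf n U₁ U₂ T).2) : Sym2 (Fin (2 * n))).IsDiag := by
      rw [← h1]
      exact T.2.2
    refine ⟨h4, ?_⟩
    have h5 : ((c, ⟨s((cf n U₁ U₂ T).1, (cf n U₁ U₂ T).2), h4⟩) : J n) = T := by
      ext1
      · exact hc.symm
      · exact Subtype.ext h1.symm
    rw [h5]
    unfold res
    rw [mem_filter]
    exact ⟨hL, ha⟩
  · intro T hT T' hT' h
    rw [mem_coe, mem_inter, mem_cd, mem_cd0] at hT hT'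
    have h1 := (cf_spec hT.2.1.2).1
    have h2 := (cf_spec hT'.2.1.2).1
    ext1
    · exact hT.2.1.1.trans hT'.2.1.1.symm
    · apply Subtype.ext
      rw [h1, h2, h]

private theorem cd_ge {n : ℕ} (c : Fin (2 * n - 1))
    (U₁ U₂ : Finset (Fin (2 * n))) (R : Finset (El n)) (hR : SmR R) (hU : Disjoint U₁ U₂) :
    U₁.card * U₂.card ≤ (cd n ((c, U₁, U₂), ⟨R, hR⟩)).card + R.card * (2 * n - 1) := by
  classical
  have h1 : (U₁ ×ˢ U₂).card ≤ (cd0 n ((c, U₁, U₂), ⟨R, hR⟩)).card := by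
    refine card_le_card_of_surjOn (cf n U₁ U₂) ?_
    rintro ⟨u, v⟩ hp
    rw [mem_coe, mem_product] at hp
    have hne : ¬ (s(u, v) : Sym2 (Fin (2 * n))).IsDiag := by
      rw [Sym2.mk_isDiag_iff]
      rintro rfl
      exact disjoint_left.mp hU hp.1 hp.2
    have hex : ∃ p : Fin (2 * n) × Fin (2 * n),
        ((c, ⟨s(u, v), hne⟩) : J n).2.1 = s(p.1, p.2) ∧ p.1 ∈ U₁ ∧ p.2 ∈ U₂ :=
      ⟨(u, v), rfl, hp.1, hp.2⟩
    refine ⟨(c, ⟨s(u, v), hne⟩), ?_, ?_⟩
    · rw [mem_coe, mem_cd0]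
      exact ⟨rfl, hex⟩
    · obtain ⟨h2, h3, h4⟩ := cf_spec hex
      dsimp only at h2
      rcases Sym2.eq_iff.mp h2 with ⟨h5, h6⟩ | ⟨h5, h6⟩
      · exact Prod.ext h5.symm h6.symm
      · exfalso
        rw [← h5] at h4
        exact disjoint_left.mp hU hp.1 h4
  have h2 : cd0 n ((c, U₁, U₂), ⟨R, hR⟩) ⊆ cd n ((c, U₁, U₂), ⟨R, hR⟩) ∪
      univ.filter (fun T : J n => ∃ a ∈ R, T ∈ st n a) := by
    intro T hT
    rw [mem_union]
    by_cases h : ∃ a ∈ R, T ∈ st n a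
    · right
      rw [mem_filter]
      exact ⟨mem_univ _, h⟩
    · left
      rw [mem_cd]
      refine ⟨hT, fun a ha hs => h ⟨a, ha, hs⟩⟩
  have h3 := card_touch R
  rw [cnt_eq] at h3
  have h4 := (card_le_card h2).trans (card_union_le _ _)
  rw [card_product] at h1
  omega

private theorem cd_num {x y N : ℝ} (h1 : N ≤ 250 * x) (h2 : N ≤ 250 * y)
    (h3 : 249 * N ≤ 250 * (x + y)) (h4 : 0 ≤ N) : N ^ 2 / 500 ≤ x * y := by
  have key : ∀ a b : ℝ, N ≤ 250 * a → a ≤ b → 249 * N ≤ 250 * (a + b) → N ^ 2 / 500 ≤ a * b := by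
    intro a b g1 g2 g3
    have g4 : 249 / 500 * N ≤ b := by linarith
    have g5 : N / 250 ≤ a := by linarith
    have g6 : N / 250 * (249 / 500 * N) ≤ a * b :=
      mul_le_mul g5 g4 (by positivity) (by linarith)
    nlinarith
  rcases le_total x y with h | h
  · exact key x y h1 h h3
  · rw [mul_comm]
    exact key y x h2 h (by linarith)

theorem whp_cutCR : Whp CutCR := by
  classical
  have key := chernoff 7 (1 / 1000) (by norm_num) CI
    (fun n i => Disjoint i.1.2.1 i.1.2.2 ∧ 2 * n - 1 ≤ 250 * i.1.2.1.card ∧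
      2 * n - 1 ≤ 250 * i.1.2.2.card ∧
      249 * (2 * n - 1) ≤ 250 * (i.1.2.1.card + i.1.2.2.card))
    (fun n i => cd n i) ?_ ?_
  · intro δ hδ
    filter_upwards [key δ hδ, eventually_ge_atTop 1] with n h1 hn pp h4 h5
    have h3 : 0 ≤ pm n := Cher.pm_nonneg (by exact_mod_cast hn)
    refine (Pr_mono (qq_nonneg h3 h4 h5) fun s hs hp => hs ?_).trans (h1 pp h4 h5)
    intro R hR c U₁ U₂ g1 g2 g3 g4
    exact (hp ((c, U₁, U₂), ⟨R, hR⟩) ⟨g1, g2, g3, g4⟩).trans_le (cd_le _ c U₁ U₂ R hR)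
  · filter_upwards [eventually_ge_atTop 1, card_smR (zero_lt_one' ℝ)] with n hn hs
    have h1 : (1 : ℝ) ≤ n := by exact_mod_cast hn
    rw [Fintype.card_prod, Fintype.card_prod, Fintype.card_prod, Fintype.card_fin,
      Fintype.card_finset, Fintype.card_fin, ← Nat.card_eq_fintype_card
        (α := {R : Finset (El n) // SmR R})]
    have h2 : ((2 * n - 1 : ℕ) : ℝ) ≤ Real.exp (2 * n) := by
      have h3 := Real.add_one_le_exp (2 * (n : ℝ))
      rw [Nat.cast_sub (by omega)]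
      push_cast
      linarith
    have h4 : ((2 ^ (2 * n) : ℕ) : ℝ) ≤ Real.exp (2 * n) := by
      have h5 : (2 : ℝ) ≤ Real.exp 1 := by
        have := Real.add_one_le_exp (1 : ℝ)
        linarith
      push_cast
      calc (2 : ℝ) ^ (2 * n) ≤ Real.exp 1 ^ (2 * n) := pow_le_pow_left₀ (by norm_num) h5 _
        _ = Real.exp (2 * n) := by
          rw [← Real.exp_nat_mul]
          push_cast
          ring_nf
    have h6 : (Nat.card {R : Finset (El n) // SmR R} : ℝ) ≤ Real.exp n := by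
      refine hs.trans (Real.exp_le_exp.mpr ?_)
      rw [one_mul]
      exact Real.sqrt_le_self_iff.mpr (Or.inr h1)
    rw [Nat.cast_mul, Nat.cast_mul, Nat.cast_mul]
    calc ((2 * n - 1 : ℕ) : ℝ) * (((2 ^ (2 * n) : ℕ) : ℝ) * ((2 ^ (2 * n) : ℕ) : ℝ)) *
          (Nat.card {R : Finset (El n) // SmR R} : ℝ)
        ≤ Real.exp (2 * n) * (Real.exp (2 * n) * Real.exp (2 * n)) * Real.exp n :=
          mul_le_mul (mul_le_mul h2 (mul_le_mul h4 h4 (by positivity) (Real.exp_pos _).le)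
            (by positivity) (Real.exp_pos _).le) h6 (by positivity) (by positivity)
      _ = Real.exp (7 * n) := by
          rw [← Real.exp_add, ← Real.exp_add, ← Real.exp_add]
          ring_nf
  · filter_upwards [eventually_ge_atTop 4000000] with n hn i hi
    obtain ⟨⟨c, U₁, U₂⟩, ⟨R, hR⟩⟩ := i
    obtain ⟨g1, g2, g3, g4⟩ := hi
    dsimp only at g1 g2 g3 g4
    have h1 := cd_ge c U₁ U₂ R hR g1
    have h2 : 2000 * R.card ≤ n := by
      unfold SmR at hR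
      rcases le_total R.card 2000 with h | h
      · omega
      · calc 2000 * R.card ≤ R.card * R.card := Nat.mul_le_mul_right _ h
          _ = R.card ^ 2 := (sq _).symm
          _ ≤ R.card ^ 8 := Nat.pow_le_pow_right (by omega) (by norm_num)
          _ ≤ n := hR
    have hN : ((2 * n - 1 : ℕ) : ℝ) = 2 * n - 1 := by
      rw [Nat.cast_sub (by omega)]
      push_cast
      ring
    have k0 : (4000000 : ℝ) ≤ n := by exact_mod_cast hn
    have k1 : (2 * n - 1 : ℝ) ≤ 250 * (U₁.card : ℝ) := by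
      rw [← hN]; exact_mod_cast g2
    have k2 : (2 * n - 1 : ℝ) ≤ 250 * (U₂.card : ℝ) := by
      rw [← hN]; exact_mod_cast g3
    have k3 : 249 * (2 * n - 1 : ℝ) ≤ 250 * ((U₁.card : ℝ) + U₂.card) := by
      rw [← hN]; exact_mod_cast g4
    have k4 := cd_num k1 k2 k3 (by linarith)
    have k5 : (U₁.card : ℝ) * U₂.card ≤
        ((cd n ((c, U₁, U₂), ⟨R, hR⟩)).card : ℝ) + R.card * (2 * n - 1) := by
      rw [← hN]; exact_mod_cast h1
    have k6 : 2000 * (R.card : ℝ) ≤ n := by exact_mod_cast h2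
    have k7 : (R.card : ℝ) * (2 * n - 1) ≤ n / 2000 * (2 * n - 1) :=
      mul_le_mul_of_nonneg_right (by linarith) (by linarith)
    nlinarith

end Pool.Agent.Lib.LT
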