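import Pool.Agent.Lib.MP_6d56f7_co_LT.CutVP
import Pool.Agent.Lib.MP_6d56f7_co_LT.SmRC

/-!
# Cuts in the links of the vertices, off a small set
-/

set_option autoImplicit false

namespace Pool.Agent.Lib.LT

open Finset Filter Pool.Agent.Lib.FR

private theorem cutvrp_num {a b c d N : ℝ} (ha : 0 ≤ a) (hb : 0 ≤ b) (hc : 0 ≤ c) (hd : 0 ≤ d)
    (h1 : 249 * N ≤ 250 * (a + b)) (h2 : 249 * N ≤ 250 * (c + d)) (h3 : a + b ≤ N)
    (h4 : c + d ≤ N) (h5 : N ≤ 250 * (a + c)) (h6 : N ≤ 250 * (b + d)) :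
    N ^ 2 / 1000 ≤ a * d + b * c := by
  have hN : 0 ≤ N := by linarith
  have key : ∀ x y z w : ℝ, 0 ≤ x → 0 ≤ y → 0 ≤ z → 0 ≤ w → 249 * N ≤ 250 * (x + y) →
      249 * N ≤ 250 * (z + w) → x + y ≤ N → z + w ≤ N → N ≤ 250 * (x + z) →
      x + z ≤ y + w → N ^ 2 / 1000 ≤ x * w + y * z := by
    intro x y z w hx hy hz hw g1 g2 g3 g4 g5 g6
    have e1 : x * w + y * z = x * (z + w) + z * (x + y) - 2 * (x * z) := by ring
    have e2 : x * (249 / 250 * N) ≤ x * (z + w) := mul_le_mul_of_nonneg_left (by linarith) hx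
    have e3 : z * (249 / 250 * N) ≤ z * (x + y) := mul_le_mul_of_nonneg_left (by linarith) hz
    have e4 : 2 * (x * z) ≤ (x + z) ^ 2 / 2 := by nlinarith [sq_nonneg (x - z)]
    have e5 : x + z ≤ N := by linarith
    have e6 : (N / 250) * (249 / 250 * N - N / 2) ≤
        (x + z) * (249 / 250 * N - (x + z) / 2) := by
      apply mul_le_mul
      · linarith
      · linarith
      · linarith
      · linarith
    nlinarith
  rcases le_total (a + c) (b + d) with h | h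
  · exact key a b c d ha hb hc hd h1 h2 h3 h4 h5 h
  · have := key b a d c hb ha hd hc (by linarith) (by linarith) (by linarith) (by linarith)
      (by linarith) h
    linarith

/-- the set of pairs -/
private noncomputable def cutvrp_D (n : ℕ) (i : Fin (2 * n) × Finset (Fin (2 * n)) ×
    Finset (Fin (2 * n)) × Finset (Fin (2 * n - 1)) × Finset (Fin (2 * n - 1))) :
    Finset (J n) := by
  classical
  exact univ.filter (fun T : J n => ∃ w, T.2.1 = s(i.1, w) ∧
    ((w ∈ i.2.1 ∧ T.1 ∈ i.2.2.2.2) ∨ (w ∈ i.2.2.1 ∧ T.1 ∈ i.2.2.2.1)))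

private theorem mem_cutvrp_D {n : ℕ} {i : Fin (2 * n) × Finset (Fin (2 * n)) ×
    Finset (Fin (2 * n)) × Finset (Fin (2 * n - 1)) × Finset (Fin (2 * n - 1))} {T : J n} :
    T ∈ cutvrp_D n i ↔ ∃ w, T.2.1 = s(i.1, w) ∧
      ((w ∈ i.2.1 ∧ T.1 ∈ i.2.2.2.2) ∨ (w ∈ i.2.2.1 ∧ T.1 ∈ i.2.2.2.1)) := by
  classical
  simp [cutvrp_D]

/-- the other end of an edge, and the colour -/
private noncomputable def cutvrp_f (n : ℕ) (v : Fin (2 * n)) (T : J n) :
    Fin (2 * n) × Fin (2 * n - 1) := by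
  classical
  exact (if h : ∃ w, T.2.1 = s(v, w) then h.choose else v, T.1)

private theorem cutvrp_f_eq {n : ℕ} {v w : Fin (2 * n)} {T : J n} (h : T.2.1 = s(v, w)) :
    cutvrp_f n v T = (w, T.1) := by
  classical
  have h1 : ∃ w, T.2.1 = s(v, w) := ⟨w, h⟩
  have h2 : s(v, w) = s(v, h1.choose) := h.symm.trans h1.choose_spec
  have h3 : w = h1.choose := by
    rcases Sym2.eq_iff.mp h2 with ⟨_, h4⟩ | ⟨h4, h5⟩
    · exact h4
    · rw [h5, ← h4]
  unfold cutvrp_f
  rw [dif_pos h1, ← h3]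

private theorem cutvrp_le {n : ℕ} (i : Fin (2 * n) × Finset (Fin (2 * n)) ×
    Finset (Fin (2 * n)) × Finset (Fin (2 * n - 1)) × Finset (Fin (2 * n - 1)))
    (L : Finset (J n)) :
    (L ∩ cutvrp_D n i).card ≤ cnt (fun p : Fin (2 * n) × Fin (2 * n - 1) => tr L i.1 p.1 p.2 ∧
      ((p.1 ∈ i.2.1 ∧ p.2 ∈ i.2.2.2.2) ∨ (p.1 ∈ i.2.2.1 ∧ p.2 ∈ i.2.2.2.1))) := by
  classical
  rw [cnt_eq]
  refine Finset.card_le_card_of_injOn (cutvrp_f n i.1) ?_ ?_
  · intro T hT
    rw [Finset.mem_coe, Finset.mem_inter] at hT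
    obtain ⟨w, h1, h2⟩ := mem_cutvrp_D.mp hT.2
    rw [cutvrp_f_eq h1]
    rw [Finset.mem_coe, Finset.mem_filter]
    refine ⟨Finset.mem_univ _, ?_, h2⟩
    have h3 : ¬ (s(i.1, w) : Sym2 (Fin (2 * n))).IsDiag := by
      rw [← h1]
      exact T.2.2
    refine ⟨h3, ?_⟩
    have h4 : ((T.1, ⟨s(i.1, w), h3⟩) : J n) = T := by
      ext1
      · rfl
      · exact Subtype.ext h1.symm
    rw [h4]
    exact hT.1
  · intro T hT T' hT' h
    rw [Finset.mem_coe, Finset.mem_inter] at hT hT'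
    obtain ⟨w, h1, -⟩ := mem_cutvrp_D.mp hT.2
    obtain ⟨w', h1', -⟩ := mem_cutvrp_D.mp hT'.2
    rw [cutvrp_f_eq h1, cutvrp_f_eq h1', Prod.mk.injEq] at h
    ext1
    · exact h.2
    · apply Subtype.ext
      rw [h1, h1', h.1]

private theorem cutvrp_ge {n : ℕ} (v : Fin (2 * n)) (W₁ W₂ : Finset (Fin (2 * n)))
    (C₁ C₂ : Finset (Fin (2 * n - 1))) (hW : Disjoint W₁ W₂) (h1 : v ∉ W₁) (h2 : v ∉ W₂) :
    W₁.card * C₂.card + W₂.card * C₁.card ≤ (cutvrp_D n (v, W₁, W₂, C₁, C₂)).card := by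
  classical
  have hd : Disjoint (W₁ ×ˢ C₂) (W₂ ×ˢ C₁) := Finset.disjoint_product.mpr (Or.inl hW)
  rw [← Finset.card_product, ← Finset.card_product, ← Finset.card_union_of_disjoint hd]
  refine Finset.card_le_card_of_surjOn (cutvrp_f n v) ?_
  rintro ⟨w, c⟩ hp
  rw [Finset.mem_coe, Finset.mem_union, Finset.mem_product, Finset.mem_product] at hp
  have hne : ¬ (s(v, w) : Sym2 (Fin (2 * n))).IsDiag := by
    rw [Sym2.mk_isDiag_iff]
    rintro rfl
    rcases hp with hp | hp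
    · exact h1 hp.1
    · exact h2 hp.1
  refine ⟨(c, ⟨s(v, w), hne⟩), ?_, ?_⟩
  · rw [Finset.mem_coe, mem_cutvrp_D]
    exact ⟨w, rfl, hp⟩
  · exact cutvrp_f_eq rfl

/-- removing the pairs which touch `R` -/
private theorem cutvrp_res {n : ℕ} (R : Finset (El n)) (D : Finset (J n)) :
    D.card ≤ (res R D).card + R.card * (2 * n - 1) := by
  classical
  have h1 := card_touch R
  rw [cnt_eq] at h1
  have h2 : D ⊆ res R D ∪ univ.filter (fun T : J n => ∃ a ∈ R, T ∈ st n a) := by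
    intro T hT
    by_cases h : ∃ a ∈ R, T ∈ st n a
    · exact Finset.mem_union_right _ (Finset.mem_filter.mpr ⟨Finset.mem_univ _, h⟩)
    · refine Finset.mem_union_left _ (Finset.mem_filter.mpr ⟨hT, ?_⟩)
      intro a ha hTa
      exact h ⟨a, ha, hTa⟩
  exact (Finset.card_le_card h2).trans ((Finset.card_union_le _ _).trans (by omega))

private theorem cutvrp_inter {n : ℕ} (R : Finset (El n)) (L D : Finset (J n)) :
    L ∩ res R D = res R L ∩ D := by
  ext T
  simp only [res, Finset.mem_inter, Finset.mem_filter]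
  tauto

private theorem cutvrp_smR {n : ℕ} (hn : 2001 ≤ n) {R : Finset (El n)} (hR : SmR R) :
    2000 * R.card ≤ 2 * n - 1 := by
  unfold SmR at hR
  rcases Nat.lt_or_ge R.card 3 with h | h
  · omega
  · have h1 : 3 ^ 7 * R.card ≤ R.card ^ 8 := by
      have h2 : 3 ^ 7 ≤ R.card ^ 7 := Nat.pow_le_pow_left h 7
      calc 3 ^ 7 * R.card ≤ R.card ^ 7 * R.card := Nat.mul_le_mul_right _ h2
        _ = R.card ^ 8 := by ring
    have h3 : (3 : ℕ) ^ 7 = 2187 := by norm_num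
    omega

theorem whp_cutVR : Whp CutVR := by
  classical
  have key := chernoff 11 (1 / 2000) (by norm_num)
    (fun n => (Fin (2 * n) × Finset (Fin (2 * n)) ×
      Finset (Fin (2 * n)) × Finset (Fin (2 * n - 1)) × Finset (Fin (2 * n - 1))) ×
      {R : Finset (El n) // SmR R})
    (fun n i => Disjoint i.1.2.1 i.1.2.2.1 ∧ Disjoint i.1.2.2.2.1 i.1.2.2.2.2 ∧
      i.1.1 ∉ i.1.2.1 ∧ i.1.1 ∉ i.1.2.2.1 ∧
      249 * (2 * n - 1) ≤ 250 * (i.1.2.1.card + i.1.2.2.1.card) ∧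
      249 * (2 * n - 1) ≤ 250 * (i.1.2.2.2.1.card + i.1.2.2.2.2.card) ∧
      2 * n - 1 ≤ 250 * (i.1.2.1.card + i.1.2.2.2.1.card) ∧
      2 * n - 1 ≤ 250 * (i.1.2.2.1.card + i.1.2.2.2.2.card))
    (fun n i => res i.2.1 (cutvrp_D n i.1)) ?_ ?_
  · intro δ hδ
    filter_upwards [key δ hδ, eventually_ge_atTop 1] with n h1 hn pp h4 h5
    have h6 : (0 : ℝ) ≤ pm n := by
      have h1 : (1 : ℝ) ≤ n := by exact_mod_cast hn
      have h2 := Real.log_nonneg h1
      unfold pm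
      exact div_nonneg (by positivity) (by linarith)
    refine (Pr_mono (qq_nonneg h6 h4 h5) fun s hs hp => hs ?_).trans (h1 pp h4 h5)
    intro R hR v W₁ W₂ C₁ C₂ g1 g2 g3 g4 g5 g6 g7 g8
    have h2 := hp ((v, W₁, W₂, C₁, C₂), ⟨R, hR⟩) ⟨g1, g2, g3, g4, g5, g6, g7, g8⟩
    rw [cutvrp_inter] at h2
    exact h2.trans_le (cutvrp_le (v, W₁, W₂, C₁, C₂) _)
  · filter_upwards [eventually_ge_atTop 1, card_smR one_pos] with n hn hsm
    have h1 : Fintype.card (Fin (2 * n) × Finset (Fin (2 * n)) ×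
        Finset (Fin (2 * n)) × Finset (Fin (2 * n - 1)) × Finset (Fin (2 * n - 1))) ≤
        2 * n * 2 ^ (8 * n) := by
      simp only [Fintype.card_prod, Fintype.card_finset, Fintype.card_fin]
      rw [← pow_add, ← pow_add, ← pow_add]
      exact Nat.mul_le_mul_left _ (Nat.pow_le_pow_right (by norm_num) (by omega))
    have h2 : (2 : ℝ) ≤ Real.exp 1 := by
      have := Real.add_one_le_exp (1 : ℝ)
      linarith
    have h3 : (2 : ℝ) ^ (8 * n) ≤ Real.exp (8 * n) := by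
      calc (2 : ℝ) ^ (8 * n) ≤ (Real.exp 1) ^ (8 * n) := pow_le_pow_left₀ (by norm_num) h2 _
        _ = Real.exp (8 * n) := by
          rw [← Real.exp_nat_mul]
          push_cast
          ring_nf
    have h4 : (2 * n : ℝ) ≤ Real.exp (2 * n) := by
      have := Real.add_one_le_exp (2 * n : ℝ)
      linarith
    have h5 : (Fintype.card (Fin (2 * n) × Finset (Fin (2 * n)) ×
        Finset (Fin (2 * n)) × Finset (Fin (2 * n - 1)) × Finset (Fin (2 * n - 1))) : ℝ) ≤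
        Real.exp (10 * n) := by
      calc (Fintype.card (Fin (2 * n) × Finset (Fin (2 * n)) ×
          Finset (Fin (2 * n)) × Finset (Fin (2 * n - 1)) × Finset (Fin (2 * n - 1))) : ℝ)
          ≤ ((2 * n * 2 ^ (8 * n) : ℕ) : ℝ) := by exact_mod_cast h1
        _ = (2 * n : ℝ) * 2 ^ (8 * n) := by push_cast; ring
        _ ≤ Real.exp (2 * n) * Real.exp (8 * n) := by
          apply mul_le_mul h4 h3 (by positivity) (by positivity)
        _ = Real.exp (10 * n) := by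
          rw [← Real.exp_add]
          congr 1
          ring
    have h6 : (Fintype.card {R : Finset (El n) // SmR R} : ℝ) ≤ Real.exp n := by
      rw [← Nat.card_eq_fintype_card]
      refine hsm.trans (Real.exp_le_exp.mpr ?_)
      rw [one_mul]
      have h7 : (1 : ℝ) ≤ n := by exact_mod_cast hn
      rw [Real.sqrt_le_left (by linarith)]
      nlinarith
    rw [Fintype.card_prod, Nat.cast_mul]
    calc _ ≤ Real.exp (10 * n) * Real.exp n :=
          mul_le_mul h5 h6 (Nat.cast_nonneg _) (Real.exp_pos _).le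
      _ = Real.exp (11 * n) := by
          rw [← Real.exp_add]
          congr 1
          ring
  · filter_upwards [eventually_ge_atTop 2001] with n hn
    rintro ⟨⟨v, W₁, W₂, C₁, C₂⟩, ⟨R, hR⟩⟩ ⟨g1, g2, g3, g4, g5, g6, g7, g8⟩
    have h1 := cutvrp_ge v W₁ W₂ C₁ C₂ g1 g3 g4
    dsimp only at g1 g2 g3 g4 g5 g6 g7 g8 ⊢
    have h2 : W₁.card + W₂.card ≤ 2 * n - 1 := by
      rw [← Finset.card_union_of_disjoint g1]
      have h3 : W₁ ∪ W₂ ⊆ univ.erase v := by
        intro w hw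
        rw [Finset.mem_erase]
        refine ⟨?_, Finset.mem_univ _⟩
        rintro rfl
        rcases Finset.mem_union.mp hw with h | h
        · exact g3 h
        · exact g4 h
      have h4 := Finset.card_le_card h3
      rw [Finset.card_erase_of_mem (Finset.mem_univ _), Finset.card_univ,
        Fintype.card_fin] at h4
      exact h4
    have h3 : C₁.card + C₂.card ≤ 2 * n - 1 := by
      rw [← Finset.card_union_of_disjoint g2]
      have h4 := Finset.card_le_univ (C₁ ∪ C₂)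
      rw [Fintype.card_fin] at h4
      exact h4
    have hN : ((2 * n - 1 : ℕ) : ℝ) = 2 * n - 1 := by
      rw [Nat.cast_sub (by omega)]
      push_cast
      ring
    have k1 : 249 * (2 * n - 1 : ℝ) ≤ 250 * ((W₁.card : ℝ) + W₂.card) := by
      rw [← hN]; exact_mod_cast g5
    have k2 : 249 * (2 * n - 1 : ℝ) ≤ 250 * ((C₁.card : ℝ) + C₂.card) := by
      rw [← hN]; exact_mod_cast g6
    have k3 : (W₁.card : ℝ) + W₂.card ≤ 2 * n - 1 := by
      rw [← hN]; exact_mod_cast h2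
    have k4 : (C₁.card : ℝ) + C₂.card ≤ 2 * n - 1 := by
      rw [← hN]; exact_mod_cast h3
    have k5 : (2 * n - 1 : ℝ) ≤ 250 * ((W₁.card : ℝ) + C₁.card) := by
      rw [← hN]; exact_mod_cast g7
    have k6 : (2 * n - 1 : ℝ) ≤ 250 * ((W₂.card : ℝ) + C₂.card) := by
      rw [← hN]; exact_mod_cast g8
    have k7 := cutvrp_num (Nat.cast_nonneg W₁.card) (Nat.cast_nonneg W₂.card)
      (Nat.cast_nonneg C₁.card) (Nat.cast_nonneg C₂.card) k1 k2 k3 k4 k5 k6
    have k8 : (W₁.card : ℝ) * C₂.card + W₂.card * C₁.card ≤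
        ((cutvrp_D n (v, W₁, W₂, C₁, C₂)).card : ℝ) := by exact_mod_cast h1
    have k9 : (1 : ℝ) ≤ n := by
      have : 1 ≤ n := by omega
      exact_mod_cast this
    have k10 : ((cutvrp_D n (v, W₁, W₂, C₁, C₂)).card : ℝ) ≤
        ((res R (cutvrp_D n (v, W₁, W₂, C₁, C₂))).card : ℝ) + R.card * (2 * n - 1) := by
      rw [← hN]
      exact_mod_cast cutvrp_res R (cutvrp_D n (v, W₁, W₂, C₁, C₂))
    have k11 : 2000 * (R.card : ℝ) ≤ 2 * n - 1 := by
      rw [← hN]
      exact_mod_cast cutvrp_smR hn hR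
    have k12 : (R.card : ℝ) * (2 * n - 1) ≤ (2 * n - 1) ^ 2 / 2000 := by nlinarith
    have k13 : (n : ℝ) ^ 2 ≤ (2 * n - 1) ^ 2 := by nlinarith
    nlinarith

end Pool.Agent.Lib.LT
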