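import Pool.Agent.Lib.MP_6d56f7_co_LT.Defs
import Pool.Agent.Lib.MP_6d56f7_co_FR.Tails

/-!
# Cylinders
-/

set_option autoImplicit false

namespace Pool.Agent.Lib.LT

open Finset Pool.Agent.Lib.FR

/-- the generating function -/
private theorem Ex_two {I : Type} [Fintype I] [DecidableEq I] (p pp x0 x1 : ℝ)
    (X Y : Finset I) (hXY : Disjoint X Y) :
    Ex (qq p pp) (fun s => ∏ i, (if i ∈ X then (if s i = 2 then x1 else x0) else
      if i ∈ Y then (if s i = 2 then 0 else 1) else 1)) =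
      ((1 - p) * x0 + p * x1) ^ X.card * (1 - p) ^ Y.card := by
  classical
  rw [Ex_prod (qq p pp) (fun i (a : Fin 3) => (if i ∈ X then (if a = 2 then x1 else x0) else
      if i ∈ Y then (if a = 2 then 0 else 1) else (1 : ℝ)))]
  have h1 : ∀ i, ∑ a, qq p pp a * (if i ∈ X then (if a = 2 then x1 else x0) else
      if i ∈ Y then (if a = 2 then 0 else 1) else (1 : ℝ)) =
      (if i ∈ X then ((1 - p) * x0 + p * x1) else 1) * (if i ∈ Y then (1 - p) else 1) := by
    intro i
    by_cases hX : i ∈ X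
    · have hY : i ∉ Y := fun h => (disjoint_left.mp hXY) hX h
      simp [hX, hY, qq, Fin.sum_univ_three]
      ring
    · by_cases hY : i ∈ Y
      · simp [hX, hY, qq, Fin.sum_univ_three]
      · simp [hX, hY, qq, Fin.sum_univ_three]
  rw [prod_congr rfl fun i _ => h1 i, prod_mul_distrib]
  congr 1
  · rw [prod_ite_mem, univ_inter, prod_const]
  · rw [prod_ite_mem, univ_inter, prod_const]

private theorem pow_one_sub_le {p : ℝ} (h2 : p ≤ 1) (m : ℕ) :
    (1 - p) ^ m ≤ Real.exp (-(p * m)) := by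
  have h3 : 1 - p ≤ Real.exp (-p) := by
    have := Real.add_one_le_exp (-p)
    linarith
  have h4 : 0 ≤ 1 - p := by linarith
  calc (1 - p) ^ m ≤ (Real.exp (-p)) ^ m := pow_le_pow_left₀ h4 h3 _
    _ = Real.exp (-(p * m)) := by
        rw [← Real.exp_nat_mul]
        ring_nf

/-- the probability that the small system contains `X` and misses `Y` -/
theorem cyl {I : Type} [Fintype I] [DecidableEq I] {p pp : ℝ} (h0 : 0 ≤ p) (h1 : p ≤ pp)
    (h2 : pp ≤ 1) (X Y : Finset I) (hXY : Disjoint X Y) :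
    Pr (qq p pp) (fun s : I → Fin 3 => (∀ i ∈ X, s i = 2) ∧ ∀ i ∈ Y, s i ≠ 2) ≤
      p ^ X.card * Real.exp (-(p * Y.card)) := by
  classical
  have hkey := Ex_two p pp 0 1 X Y hXY
  have hle : Pr (qq p pp) (fun s : I → Fin 3 => (∀ i ∈ X, s i = 2) ∧ ∀ i ∈ Y, s i ≠ 2) ≤
      Ex (qq p pp) (fun s => ∏ i, (if i ∈ X then (if s i = 2 then (1 : ℝ) else 0) else
        if i ∈ Y then (if s i = 2 then 0 else 1) else 1)) := by
    refine Pr_le_Ex (qq_nonneg h0 h1 h2) (fun s => ?_) ?_
    · refine prod_nonneg fun i _ => ?_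
      split_ifs <;> first | exact zero_le_one | exact le_rfl
    · rintro s ⟨hX, hY⟩
      refine le_of_eq (Eq.symm (prod_eq_one fun i _ => ?_))
      by_cases hiX : i ∈ X
      · simp [hiX, hX i hiX]
      · by_cases hiY : i ∈ Y
        · simp [hiX, hiY, hY i hiY]
        · simp [hiX, hiY]
  refine hle.trans ?_
  rw [hkey]
  have e2 : ((1 - p) * 0 + p * 1) = p := by ring
  rw [e2]
  exact mul_le_mul_of_nonneg_left (pow_one_sub_le (h1.trans h2) _) (pow_nonneg h0 _)

/-- the probability that the small system contains many elements of `X` and misses `Y` -/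
theorem cyl_many {I : Type} [Fintype I] [DecidableEq I] {p pp : ℝ} (h0 : 0 ≤ p) (h1 : p ≤ pp)
    (h2 : pp ≤ 1) (X Y : Finset I) (hXY : Disjoint X Y) {w : ℝ} (hw : 1 ≤ w) (k : ℕ) :
    Pr (qq p pp) (fun s : I → Fin 3 => k ≤ 3 * (X.filter (fun i => s i = 2)).card ∧
      ∀ i ∈ Y, s i ≠ 2) ≤
      (1 / w) ^ k * Real.exp (p * w ^ 3 * X.card) * Real.exp (-(p * Y.card)) := by
  classical
  have hw0 : 0 < w := lt_of_lt_of_le one_pos hw
  have hkey := Ex_two p pp 1 (w ^ 3) X Y hXY
  have hF : ∀ s : I → Fin 3, 0 ≤ ∏ i, (if i ∈ X then (if s i = 2 then w ^ 3 else 1) else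
      if i ∈ Y then (if s i = 2 then (0 : ℝ) else 1) else 1) := by
    intro s
    refine prod_nonneg fun i _ => ?_
    split_ifs <;> first | exact zero_le_one | exact le_rfl | exact (pow_pos hw0 3).le
  have hle : Pr (qq p pp) (fun s : I → Fin 3 => k ≤ 3 * (X.filter (fun i => s i = 2)).card ∧
      ∀ i ∈ Y, s i ≠ 2) ≤
      Ex (qq p pp) (fun s => (1 / w) ^ k *
        ∏ i, (if i ∈ X then (if s i = 2 then w ^ 3 else 1) else
        if i ∈ Y then (if s i = 2 then (0 : ℝ) else 1) else 1)) := by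
    refine Pr_le_Ex (qq_nonneg h0 h1 h2)
      (fun s => mul_nonneg (pow_nonneg (by positivity) k) (hF s)) ?_
    rintro s ⟨hX, hY⟩
    have hprod : ∏ i, (if i ∈ X then (if s i = 2 then w ^ 3 else 1) else
        if i ∈ Y then (if s i = 2 then (0 : ℝ) else 1) else 1) =
        (w ^ 3) ^ (X.filter fun i => s i = 2).card := by
      have e1 : ∀ i, (if i ∈ X then (if s i = 2 then w ^ 3 else 1) else
        if i ∈ Y then (if s i = 2 then (0 : ℝ) else 1) else 1) =
        if i ∈ X.filter (fun i => s i = 2) then w ^ 3 else 1 := by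
        intro i
        by_cases hiX : i ∈ X
        · by_cases hs2 : s i = 2 <;> simp [hiX, hs2]
        · by_cases hiY : i ∈ Y
          · simp [hiX, hiY, hY i hiY]
          · simp [hiX, hiY]
      rw [prod_congr rfl fun i _ => e1 i, prod_ite_mem, univ_inter, prod_const]
    rw [hprod, ← pow_mul, one_div, inv_pow, ← div_eq_inv_mul, le_div_iff₀ (pow_pos hw0 k),
      one_mul]
    exact pow_le_pow_right₀ hw hX
  refine hle.trans ?_
  rw [Ex_mul_left, hkey, mul_assoc]
  have e3 : ((1 - p) * 1 + p * w ^ 3) ^ X.card ≤ Real.exp (p * w ^ 3 * X.card) := by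
    have h3 : (1 - p) * 1 + p * w ^ 3 ≤ Real.exp (p * w ^ 3) := by
      have := Real.add_one_le_exp (p * w ^ 3)
      linarith
    have h5 : 0 ≤ p * w ^ 3 := mul_nonneg h0 (pow_pos hw0 3).le
    have h4 : 0 ≤ (1 - p) * 1 + p * w ^ 3 := by
      have := h1.trans h2
      linarith
    calc ((1 - p) * 1 + p * w ^ 3) ^ X.card ≤ (Real.exp (p * w ^ 3)) ^ X.card :=
          pow_le_pow_left₀ h4 h3 _
      _ = Real.exp (p * w ^ 3 * X.card) := by
          rw [← Real.exp_nat_mul]
          ring_nf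
  have hp1 : 0 ≤ 1 - p := by
    have := h1.trans h2
    linarith
  refine mul_le_mul_of_nonneg_left ?_ (pow_nonneg (by positivity) k)
  exact mul_le_mul e3 (pow_one_sub_le (h1.trans h2) _) (pow_nonneg hp1 _) (Real.exp_pos _).le

end Pool.Agent.Lib.LT
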