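import Pool.Agent.Lib.MP_6d56f7_co_FR.Stars
import Pool.Agent.Lib.MP_6d56f7_co_FR.Mix

/-!
# Integer weights on random lists: definitions

Project LT (MP_6d56f7_co, MP_dcb6ed_co).  The elements are the edges of `K_{2n}` and the pairs
(vertex, colour); a (colour, edge) pair `T` contains three elements, `T ∈ st n a` says that it
contains the element `a`.
-/

set_option autoImplicit false

namespace Pool.Agent.Lib.LT

open Finset Filter Pool.Agent.Lib.FR

/-- the number of elements with the property `P` -/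
noncomputable def cnt {α : Type} [Fintype α] (P : α → Prop) : ℕ := by
  classical exact (univ.filter P).card

theorem cnt_eq {α : Type} [Fintype α] (P : α → Prop) [DecidablePred P] :
    cnt P = (univ.filter P).card := by
  unfold cnt
  congr

/-- the incidence vector of a (colour, edge) pair -/
def inc (n : ℕ) (j : J n) : El n → ℤ := fun a => if j ∈ st n a then 1 else 0

/-- the lattice generated by the incidence vectors of the pairs in `L` -/
def Lat (n : ℕ) (L : Finset (J n)) : AddSubgroup (El n → ℤ) :=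
  AddSubgroup.closure (inc n '' (L : Set (J n)))

section Random

/-- the small system -/
def sm {n : ℕ} (s : J n → Fin 3) : Finset (J n) := univ.filter (fun j => s j = 2)

/-- the density of the small system -/
noncomputable def pm (n : ℕ) : ℝ := 99 / 50 * Real.log n / (2 * n - 1)

/-- `Q` holds with high probability for the small system -/
def Whp (Q : (n : ℕ) → Finset (J n) → Prop) : Prop :=
  ∀ δ : ℝ, 0 < δ → ∀ᶠ n : ℕ in atTop, ∀ pp : ℝ, pm n ≤ pp → pp ≤ 1 →
    Pr (qq (pm n) pp) (fun s : J n → Fin 3 => ¬ Q n (sm s)) ≤ δ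

end Random

section Elements

variable {n : ℕ}

/-- the triple `(u, v, c)` belongs to `L` -/
def tr (L : Finset (J n)) (u v : Fin (2 * n)) (c : Fin (2 * n - 1)) : Prop :=
  ∃ h : ¬ (s(u, v) : Sym2 (Fin (2 * n))).IsDiag, ((c, ⟨s(u, v), h⟩) : J n) ∈ L

/-- the element `a` contains the vertex `v` -/
def hasV (v : Fin (2 * n)) : El n → Prop
  | .inl e => v ∈ e.1
  | .inr p => p.1 = v

/-- the element `a` has the colour `c` -/
def hasC (c : Fin (2 * n - 1)) : El n → Prop
  | .inl _ => False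
  | .inr p => p.2 = c

/-- `T` avoids the vertices in `HV` and the colours in `HC` -/
def offT (HV : Finset (Fin (2 * n))) (HC : Finset (Fin (2 * n - 1))) (T : J n) : Prop :=
  T.1 ∉ HC ∧ ∀ v ∈ T.2.1, v ∉ HV

/-- `a` avoids the vertices in `HV` and the colours in `HC` -/
def offE (HV : Finset (Fin (2 * n))) (HC : Finset (Fin (2 * n - 1))) (a : El n) : Prop :=
  (∀ v ∈ HV, ¬ hasV v a) ∧ ∀ c ∈ HC, ¬ hasC c a

/-- `S` has few elements at every vertex and in every colour -/
def LightS (S : Finset (El n)) : Prop :=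
  (∀ v, 50 * cnt (fun a : El n => a ∈ S ∧ hasV v a) ≤ 2 * n - 1) ∧
  ∀ c, 50 * cnt (fun a : El n => a ∈ S ∧ hasC c a) ≤ 2 * n - 1

/-- exactly one of the three elements of `T` is in `S` -/
def One (S : Finset (El n)) (T : J n) : Prop := ∃! a, a ∈ S ∧ T ∈ st n a

end Elements

section Good

/-- all but few of the incidence vectors are in the lattice of `L` -/
def Far (n : ℕ) (L : Finset (J n)) : Prop :=
  10 ^ 7 * cnt (fun h : J n => inc n h ∉ Lat n L) ≤ Fintype.card (J n)

/-- the links of the vertices have many pairs across every cut -/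
def CutV (n : ℕ) (L : Finset (J n)) : Prop :=
  ∀ (v : Fin (2 * n)) (W₁ W₂ : Finset (Fin (2 * n))) (C₁ C₂ : Finset (Fin (2 * n - 1))),
    Disjoint W₁ W₂ → Disjoint C₁ C₂ → v ∉ W₁ → v ∉ W₂ →
    249 * (2 * n - 1) ≤ 250 * (W₁.card + W₂.card) →
    249 * (2 * n - 1) ≤ 250 * (C₁.card + C₂.card) →
    2 * n - 1 ≤ 250 * (W₁.card + C₁.card) → 2 * n - 1 ≤ 250 * (W₂.card + C₂.card) →
    2 * n - 1 < cnt (fun p : Fin (2 * n) × Fin (2 * n - 1) => tr L v p.1 p.2 ∧
      ((p.1 ∈ W₁ ∧ p.2 ∈ C₂) ∨ (p.1 ∈ W₂ ∧ p.2 ∈ C₁)))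

/-- the colour classes have many edges across every cut -/
def CutC (n : ℕ) (L : Finset (J n)) : Prop :=
  ∀ (c : Fin (2 * n - 1)) (U₁ U₂ : Finset (Fin (2 * n))), Disjoint U₁ U₂ →
    2 * n - 1 ≤ 250 * U₁.card → 2 * n - 1 ≤ 250 * U₂.card →
    249 * (2 * n - 1) ≤ 250 * (U₁.card + U₂.card) →
    2 * n - 1 < cnt (fun p : Fin (2 * n) × Fin (2 * n) => tr L p.1 p.2 c ∧ p.1 ∈ U₁ ∧ p.2 ∈ U₂)

/-- the colour classes have many edges inside every large set -/
def InC (n : ℕ) (L : Finset (J n)) : Prop :=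
  ∀ (c : Fin (2 * n - 1)) (U : Finset (Fin (2 * n))), 2 * n - 1 ≤ 3 * U.card →
    2 * n - 1 < cnt (fun p : Fin (2 * n) × Fin (2 * n) => tr L p.1 p.2 c ∧ p.1 ∈ U ∧ p.2 ∈ U)

/-- large light sets off few vertices and colours are hit exactly once -/
def LightH (n : ℕ) (L : Finset (J n)) : Prop :=
  ∀ (HV : Finset (Fin (2 * n))) (HC : Finset (Fin (2 * n - 1))) (S : Finset (El n)),
    250 * HV.card ≤ 2 * n - 1 → 250 * HC.card ≤ 2 * n - 1 → LightS S →
    (∀ a ∈ S, offE HV HC a) → 2 * n - 1 ≤ 2 * S.card → ∃ T ∈ L, offT HV HC T ∧ One S T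

/-- light sets which are not small are hit exactly once -/
def Light0 (n : ℕ) (L : Finset (J n)) : Prop :=
  ∀ S : Finset (El n), LightS S → n ≤ S.card ^ 2 → ∃ T ∈ L, One S T

/-- small sets without isolated elements are hit exactly once -/
def Small (n : ℕ) (L : Finset (J n)) : Prop :=
  ∀ S : Finset (El n), S.Nonempty → S.card ^ 2 ≤ n → (∀ a ∈ S, ∃ T ∈ L, T ∈ st n a) →
    ∃ T ∈ L, One S T

/-- no pair contains two isolated elements -/
def Iso (n : ℕ) (L : Finset (J n)) : Prop :=
  ∀ a b : El n, a ≠ b → (∃ T, T ∈ st n a ∧ T ∈ st n b) →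
    (∃ T ∈ L, T ∈ st n a) ∨ ∃ T ∈ L, T ∈ st n b

/-- the good event -/
structure Good (n : ℕ) (L : Finset (J n)) : Prop where
  far : Far n L
  cutV : CutV n L
  cutC : CutC n L
  inC : InC n L
  lightH : LightH n L
  light0 : Light0 n L
  small : Small n L
  iso : Iso n L

end Good

section Gauge

variable {n : ℕ} {A : Type} [AddCommGroup A]

/-- the function `(F, G)` on the elements sums to zero over every triple of `L` -/
def Van (L : Finset (J n)) (F : Fin (2 * n) → Fin (2 * n) → A)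
    (G : Fin (2 * n) → Fin (2 * n - 1) → A) : Prop :=
  ∀ u v c, tr L u v c → F u v + G u c + G v c = 0

/-- size of the support of `(F, G)`, every element counted twice -/
noncomputable def supp (F : Fin (2 * n) → Fin (2 * n) → A)
    (G : Fin (2 * n) → Fin (2 * n - 1) → A) : ℕ :=
  2 * cnt (fun p : Fin (2 * n) × Fin (2 * n - 1) => G p.1 p.2 ≠ 0) +
    cnt (fun p : Fin (2 * n) × Fin (2 * n) => p.1 ≠ p.2 ∧ F p.1 p.2 ≠ 0)

/-- gauge transformation of the edge part -/
def gf (f : Fin (2 * n) → Fin (2 * n) → A) (a : Fin (2 * n) → A) :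
    Fin (2 * n) → Fin (2 * n) → A := fun u v => f u v + a u + a v

/-- gauge transformation of the pair part -/
def gg (g : Fin (2 * n) → Fin (2 * n - 1) → A) (a : Fin (2 * n) → A)
    (t : Fin (2 * n - 1) → A) : Fin (2 * n) → Fin (2 * n - 1) → A := fun v c => g v c - a v - t c

/-- `(F, G)` has small support, and cannot be improved at one vertex or one colour -/
structure MinK (n : ℕ) (F : Fin (2 * n) → Fin (2 * n) → A)
    (G : Fin (2 * n) → Fin (2 * n - 1) → A) : Prop where
  symm : ∀ u v, F u v = F v u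
  small : 12500 * supp F G ≤ (2 * n - 1) ^ 2
  vert : ∀ v α, cnt (fun c => G v c = α) + cnt (fun u => u ≠ v ∧ F v u = -α) ≤
    cnt (fun c => G v c = 0) + cnt (fun u => u ≠ v ∧ F v u = 0)
  col : ∀ c τ, τ + τ = 0 → cnt (fun v => G v c = τ) ≤ cnt (fun v => G v c = 0)

/-- the heavy vertices -/
noncomputable def HV (F : Fin (2 * n) → Fin (2 * n) → A)
    (G : Fin (2 * n) → Fin (2 * n - 1) → A) : Finset (Fin (2 * n)) :=
  univ.filter (fun v => 2 * n - 1 ≤
    50 * (cnt (fun c => G v c ≠ 0) + cnt (fun u => u ≠ v ∧ F v u ≠ 0)))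

/-- the heavy colours -/
noncomputable def HC (G : Fin (2 * n) → Fin (2 * n - 1) → A) : Finset (Fin (2 * n - 1)) :=
  univ.filter (fun c => 2 * n - 1 ≤ 50 * cnt (fun v => G v c ≠ 0))

/-- `(F, G)` does not vanish at the element `a` -/
def nz (F : Fin (2 * n) → Fin (2 * n) → A) (G : Fin (2 * n) → Fin (2 * n - 1) → A) :
    El n → Prop
  | .inl e => ∃ u v, e.1 = s(u, v) ∧ F u v ≠ 0
  | .inr p => G p.1 p.2 ≠ 0

/-- the elements off `H` and `K` at which `(F, G)` does not vanish -/
noncomputable def NZ (F : Fin (2 * n) → Fin (2 * n) → A)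
    (G : Fin (2 * n) → Fin (2 * n - 1) → A) (H : Finset (Fin (2 * n)))
    (K : Finset (Fin (2 * n - 1))) : Finset (El n) := by
  classical exact univ.filter (fun a => offE H K a ∧ nz F G a)

end Gauge

end Pool.Agent.Lib.LT
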