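import Mathlib

/-!
# Determinants of sparse integer matrices
-/

set_option autoImplicit false

namespace Pool.Agent.Lib.LT

open Finset

/-- an integer matrix whose rows have absolute sum at most three has a small determinant -/
theorem det_bound {k : ℕ} (M : Matrix (Fin k) (Fin k) ℤ) (hM : ∀ i, ∑ j, |M i j| ≤ 3) :
    |M.det| ≤ 3 ^ k := by
  classical
  have h1 : |M.det| ≤ ∑ σ : Equiv.Perm (Fin k), ∏ i, |M i (σ i)| := by
    rw [← Matrix.det_transpose, Matrix.det_apply']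
    refine (abs_sum_le_sum_abs _ _).trans (sum_le_sum fun σ _ => ?_)
    rw [abs_mul, abs_prod]
    have h2 : |((Equiv.Perm.sign σ : ℤˣ) : ℤ)| = 1 := by
      rcases Int.units_eq_one_or (Equiv.Perm.sign σ) with h | h <;> simp [h]
    rw [show ((Equiv.Perm.sign σ : ℤ)) = ((Equiv.Perm.sign σ : ℤˣ) : ℤ) from rfl]
    simp [h2]
  have h4 : ∑ σ : Equiv.Perm (Fin k), ∏ i, |M i (σ i)| ≤ ∑ f : Fin k → Fin k, ∏ i, |M i (f i)| := by
    have h5 : ∑ σ : Equiv.Perm (Fin k), ∏ i, |M i (σ i)| =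
        ∑ f ∈ (univ : Finset (Equiv.Perm (Fin k))).map (⟨fun σ i => σ i,
          fun a b h => Equiv.ext (fun i => congrFun h i)⟩ :
            Equiv.Perm (Fin k) ↪ (Fin k → Fin k)), ∏ i, |M i (f i)| := by
      rw [sum_map]
      rfl
    rw [h5]
    exact sum_le_sum_of_subset_of_nonneg (subset_univ _)
      (fun f _ _ => prod_nonneg fun i _ => abs_nonneg _)
  have h6 : ∑ f : Fin k → Fin k, ∏ i, |M i (f i)| = ∏ i, ∑ j, |M i j| := by
    rw [prod_univ_sum]
    simp [Fintype.piFinset_univ]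
  have h7 : ∏ i, ∑ j, |M i j| ≤ ∏ _i : Fin k, (3 : ℤ) :=
    prod_le_prod (fun i _ => sum_nonneg fun j _ => abs_nonneg _) (fun i _ => hM i)
  rw [prod_const, card_univ, Fintype.card_fin] at h7
  exact h1.trans (h4.trans (h6.le.trans h7))

end Pool.Agent.Lib.LT
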