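import Pool.Agent.Lib.MP_6d56f7_co_LT.KDefs
import Pool.Agent.Lib.MP_6d56f7_co_LT.CntS

/-!
# Small sets are hit exactly once in a sparse system
-/

set_option autoImplicit false

namespace Pool.Agent.Lib.LT

open Finset Pool.Agent.Lib.FR

private noncomputable def nbE {n : ℕ} (S : Finset (El n)) (v : Fin (2 * n)) :
    Finset (Fin (2 * n)) := by
  classical exact univ.filter (fun w => ∃ h : ¬ (s(w, v) : Sym2 (Fin (2 * n))).IsDiag,
    (Sum.inl ⟨s(w, v), h⟩ : El n) ∈ S)

/-- the colours `c` with `(v, c)` in `S` -/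
private noncomputable def nbC {n : ℕ} (S : Finset (El n)) (v : Fin (2 * n)) :
    Finset (Fin (2 * n - 1)) := by
  classical exact univ.filter (fun c => (Sum.inr (v, c) : El n) ∈ S)

/-- the vertices `v` with `(v, c)` in `S` -/
private noncomputable def nbV {n : ℕ} (S : Finset (El n)) (c : Fin (2 * n - 1)) :
    Finset (Fin (2 * n)) := by
  classical exact univ.filter (fun v => (Sum.inr (v, c) : El n) ∈ S)

private theorem mem_nbE {n : ℕ} {S : Finset (El n)} {v w : Fin (2 * n)} :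
    w ∈ nbE S v ↔ ∃ h : ¬ (s(w, v) : Sym2 (Fin (2 * n))).IsDiag,
      (Sum.inl ⟨s(w, v), h⟩ : El n) ∈ S := by
  simp [nbE]

private theorem mem_nbC {n : ℕ} {S : Finset (El n)} {v : Fin (2 * n)} {c : Fin (2 * n - 1)} :
    c ∈ nbC S v ↔ (Sum.inr (v, c) : El n) ∈ S := by
  simp [nbC]

private theorem mem_nbV {n : ℕ} {S : Finset (El n)} {v : Fin (2 * n)} {c : Fin (2 * n - 1)} :
    v ∈ nbV S c ↔ (Sum.inr (v, c) : El n) ∈ S := by
  simp [nbV]

/-- the edges in `S` -/
private def SE {n : ℕ} (S : Finset (El n)) : Finset (El n) := S.filter (fun a => a.isLeft = true)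

/-- the pairs in `S` -/
private def SP {n : ℕ} (S : Finset (El n)) : Finset (El n) := S.filter (fun a => ¬ a.isLeft = true)

private theorem card_SE_SP {n : ℕ} (S : Finset (El n)) : (SE S).card + (SP S).card = S.card :=
  card_filter_add_card_filter_not _

private theorem sum_nbC {n : ℕ} (S : Finset (El n)) : ∑ v, (nbC S v).card ≤ (SP S).card := by
  classical
  rw [← card_sigma]
  refine card_le_card_of_injOn (fun x => (Sum.inr (x.1, x.2) : El n)) ?_ ?_
  · rintro ⟨v, c⟩ hx
    rw [mem_coe, mem_sigma] at hx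
    rw [mem_coe, SP, mem_filter]
    exact ⟨mem_nbC.mp hx.2, by simp⟩
  · rintro ⟨v, c⟩ _ ⟨v', c'⟩ _ h
    have h1 := Sum.inr_injective h
    have h2 := congrArg Prod.fst h1
    have h3 := congrArg Prod.snd h1
    simp only at h2 h3
    subst h2 h3
    rfl

private theorem sum_nbV {n : ℕ} (S : Finset (El n)) : ∑ c, (nbV S c).card ≤ (SP S).card := by
  classical
  rw [← card_sigma]
  refine card_le_card_of_injOn (fun x => (Sum.inr (x.2, x.1) : El n)) ?_ ?_
  · rintro ⟨c, v⟩ hx
    rw [mem_coe, mem_sigma] at hx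
    rw [mem_coe, SP, mem_filter]
    exact ⟨mem_nbV.mp hx.2, by simp⟩
  · rintro ⟨c, v⟩ _ ⟨c', v'⟩ _ h
    have h1 := Sum.inr_injective h
    have h2 := congrArg Prod.fst h1
    have h3 := congrArg Prod.snd h1
    simp only at h2 h3
    subst h2 h3
    rfl

private theorem vert_two {n : ℕ} (e : Edge (Fin (2 * n))) :
    (univ.filter (fun v => v ∈ e.1)).card ≤ 2 := by
  classical
  obtain ⟨e, he⟩ := e
  induction e using Sym2.ind with
  | _ u w =>
    refine (card_le_card (t := {u, w}) ?_).trans card_le_two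
    intro v hv
    rw [mem_filter, Sym2.mem_iff] at hv
    rw [mem_insert, mem_singleton]
    exact hv.2

private theorem sum_nbE {n : ℕ} (S : Finset (El n)) :
    ∑ v, (nbE S v).card ≤ 2 * (SE S).card := by
  classical
  have h1 : ∀ v, (nbE S v).card ≤ ((SE S).filter (fun a => hasV v a)).card := by
    intro v
    refine card_le_card_of_injOn (fun w => if h : ¬ (s(w, v) : Sym2 (Fin (2 * n))).IsDiag then
      (Sum.inl ⟨s(w, v), h⟩ : El n) else Sum.inr (v, ⟨0, by have := v.2; omega⟩)) ?_ ?_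
    · intro w hw
      obtain ⟨h, hS⟩ := mem_nbE.mp hw
      simp only
      rw [dif_pos h, mem_coe, mem_filter, SE, mem_filter]
      exact ⟨⟨hS, rfl⟩, Sym2.mem_mk_right _ _⟩
    · intro w hw w' hw' hww
      obtain ⟨h, -⟩ := mem_nbE.mp hw
      obtain ⟨h', -⟩ := mem_nbE.mp hw'
      simp only at hww
      rw [dif_pos h, dif_pos h'] at hww
      have h2 := congrArg Subtype.val (Sum.inl_injective hww)
      exact Sym2.congr_left.mp h2
  have h2 : ∑ v, ((SE S).filter (fun a => hasV v a)).card =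
      ∑ a ∈ SE S, (univ.filter (fun v => hasV v a)).card := by
    simp only [card_filter]
    exact sum_comm
  calc ∑ v, (nbE S v).card ≤ ∑ v, ((SE S).filter (fun a => hasV v a)).card :=
        sum_le_sum fun v _ => h1 v
    _ = ∑ a ∈ SE S, (univ.filter (fun v => hasV v a)).card := h2
    _ ≤ ∑ a ∈ SE S, 2 := by
        refine sum_le_sum fun a ha => ?_
        rw [SE, mem_filter] at ha
        rcases a with e | p
        · have h3 := vert_two e
          have h4 : univ.filter (fun v => hasV v (Sum.inl e : El n)) =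
              univ.filter (fun v => v ∈ e.1) := by
            ext v
            rw [mem_filter, mem_filter]
            rfl
          rw [h4]
          exact h3
        · simp at ha
    _ = 2 * (SE S).card := by rw [sum_const, smul_eq_mul, mul_comm]

/-- pairs `(w, c)` at the vertex `v` -/
private noncomputable def P1 {n : ℕ} (S : Finset (El n)) (H : Finset (J n)) (v : Fin (2 * n)) :
    Finset (Fin (2 * n) × Fin (2 * n - 1)) :=
  (nbE S v ×ˢ nbC S v).filter (fun p => p.2 ∈ LK n H p.1 v)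

/-- pairs of vertices for the colour `c` -/
private noncomputable def P2 {n : ℕ} (S : Finset (El n)) (H : Finset (J n))
    (c : Fin (2 * n - 1)) : Finset (Fin (2 * n) × Fin (2 * n)) :=
  (nbV S c ×ˢ nbV S c).filter (fun p => c ∈ LK n H p.1 p.2)

/-- a pair which contains two elements of `S` is found at a vertex or a colour -/
private theorem two_cases {n : ℕ} {S : Finset (El n)} {H : Finset (J n)} {T : J n} (hTH : T ∈ H)
    (h : Two S T) : (∃ v, ∃ p ∈ P1 S H v, p.2 = T.1 ∧ s(p.1, v) = T.2.1) ∨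
      ∃ c, ∃ p ∈ P2 S H c, c = T.1 ∧ s(p.1, p.2) = T.2.1 := by
  obtain ⟨c, ⟨e, he⟩⟩ := T
  obtain ⟨a, ha, b, hb, hab, hTa, hTb⟩ := h
  have key : ∀ (e' : Edge (Fin (2 * n))) (p : Fin (2 * n) × Fin (2 * n - 1)),
      (Sum.inl e' : El n) ∈ S → (Sum.inr p : El n) ∈ S →
      ((c, ⟨e, he⟩) : J n) ∈ st n (.inl e') → ((c, ⟨e, he⟩) : J n) ∈ st n (.inr p) →
      ∃ v, ∃ p ∈ P1 S H v, p.2 = c ∧ s(p.1, v) = e := by
    intro e' p he' hp h1 h2
    obtain ⟨v, c'⟩ := p
    rw [mem_st_inl] at h1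
    rw [mem_st_inr] at h2
    simp only at h1 h2
    obtain ⟨h3, w, hw⟩ := h2
    subst h3
    have hw' : e = s(w, v) := hw.trans Sym2.eq_swap
    subst hw'
    refine ⟨v, (w, c), ?_, rfl, rfl⟩
    rw [P1, mem_filter, mem_product]
    refine ⟨⟨mem_nbE.mpr ⟨he, ?_⟩, mem_nbC.mpr hp⟩, mem_LK.mpr ⟨he, hTH⟩⟩
    rw [h1]
    exact he'
  rcases a with e₁ | ⟨u, c₁⟩ <;> rcases b with e₂ | ⟨v, c₂⟩
  · rw [mem_st_inl] at hTa hTb
    exact absurd (by rw [← hTa, ← hTb]) hab
  · exact Or.inl (key e₁ (v, c₂) ha hb hTa hTb)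
  · exact Or.inl (key e₂ (u, c₁) hb ha hTb hTa)
  · right
    rw [mem_st_inr] at hTa hTb
    simp only at hTa hTb
    obtain ⟨h1, h2⟩ := hTa
    obtain ⟨h3, h4⟩ := hTb
    subst h1
    subst h3
    have huv : u ≠ v := by
      rintro rfl
      exact hab rfl
    have he' : e = s(u, v) := (Sym2.mem_and_mem_iff huv).mp ⟨h2, h4⟩
    subst he'
    refine ⟨c, (u, v), ?_, rfl, rfl⟩
    rw [P2, mem_filter, mem_product]
    exact ⟨⟨mem_nbV.mpr ha, mem_nbV.mpr hb⟩, mem_LK.mpr ⟨he, hTH⟩⟩

/-- the pairs which contain two elements of `S` -/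
private theorem two_le {n : ℕ} (S : Finset (El n)) (H : Finset (J n)) :
    cnt (fun T : J n => T ∈ H ∧ Two S T) ≤
      ∑ v, (P1 S H v).card + ∑ c, (P2 S H c).card := by
  classical
  rw [cnt_eq]
  have hinj : Function.Injective (fun T : J n => (T.1, T.2.1)) := by
    intro T T' h
    have h1 := congrArg Prod.fst h
    have h2 := congrArg Prod.snd h
    exact Prod.ext h1 (Subtype.ext h2)
  rw [← card_image_of_injective _ hinj]
  have hsub : (univ.filter (fun T : J n => T ∈ H ∧ Two S T)).image (fun T => (T.1, T.2.1)) ⊆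
      (univ.biUnion fun v => (P1 S H v).image (fun p => (p.2, s(p.1, v)))) ∪
      (univ.biUnion fun c => (P2 S H c).image (fun p => (c, s(p.1, p.2)))) := by
    intro y hy
    obtain ⟨T, hT, rfl⟩ := mem_image.mp hy
    obtain ⟨-, hTH, hT2⟩ := mem_filter.mp hT
    rw [mem_union, mem_biUnion, mem_biUnion]
    rcases two_cases hTH hT2 with ⟨v, p, hp, h1, h2⟩ | ⟨c, p, hp, h1, h2⟩
    · exact Or.inl ⟨v, mem_univ _, mem_image.mpr ⟨p, hp, Prod.ext h1 h2⟩⟩
    · exact Or.inr ⟨c, mem_univ _, mem_image.mpr ⟨p, hp, Prod.ext h1 h2⟩⟩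
  refine (card_le_card hsub).trans ((card_union_le _ _).trans (add_le_add ?_ ?_))
  · exact card_biUnion_le.trans (sum_le_sum fun v _ => card_image_le)
  · exact card_biUnion_le.trans (sum_le_sum fun c _ => card_image_le)

/-- if no pair contains exactly one element of `S` then the sum of the degrees is small -/
private theorem sum_deg {n : ℕ} (S : Finset (El n)) (H : Finset (J n))
    (h1 : ∀ T ∈ H, ¬ One S T) :
    ∑ a ∈ S, ((st n a).filter (fun j => j ∈ H)).card ≤
      3 * cnt (fun T : J n => T ∈ H ∧ Two S T) := by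
  classical
  have e1 : ∑ a ∈ S, ((st n a).filter (fun j => j ∈ H)).card =
      ∑ T ∈ H, (S.filter (fun a => T ∈ st n a)).card := by
    have e2 : ∀ a, ((st n a).filter (fun j => j ∈ H)).card =
        (H.filter (fun j => j ∈ st n a)).card := by
      intro a
      congr 1
      ext j
      rw [mem_filter, mem_filter]
      exact and_comm
    rw [sum_congr rfl fun a _ => e2 a]
    simp only [card_filter]
    exact sum_comm
  have e3 : univ.filter (fun T : J n => T ∈ H ∧ Two S T) = H.filter (fun T => Two S T) := by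
    ext T
    simp
  have e4 : 3 * cnt (fun T : J n => T ∈ H ∧ Two S T) = ∑ T ∈ H, if Two S T then 3 else 0 := by
    rw [cnt_eq, e3, ← sum_filter, sum_const, smul_eq_mul, Nat.mul_comm]
  rw [e1, e4]
  refine sum_le_sum fun T hT => ?_
  by_cases h2 : Two S T
  · rw [if_pos h2]
    refine le_trans (card_le_card ?_) (els_card n T)
    intro a ha
    rw [mem_filter] at ha ⊢
    exact ⟨mem_univ _, ha.2⟩
  · rw [if_neg h2, Nat.le_zero, card_eq_zero, filter_eq_empty_iff]
    intro a ha haT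
    refine h1 T hT ⟨a, ⟨ha, haT⟩, fun b hb => ?_⟩
    by_contra hba
    exact h2 ⟨a, ha, b, hb.1, fun e => hba e.symm, haT, hb.2⟩

/-- the final computation -/
private theorem arith {a b c e p s N : ℕ} {c₁ ε d : ℝ} (hd : 0 < d) (hε : 9 * ε < c₁)
    (h0 : 0 ≤ ε) (hs : 0 < s) (h1 : a ≤ 2 * e) (h2 : b ≤ p) (h3 : c ≤ p) (h4 : e + p = s)
    (h5 : (s : ℝ) * (c₁ * d) ≤ 3 * N) (h6 : (N : ℝ) ≤ ε * d * (a + b + 2 * c)) : False := by
  have hs' : (0 : ℝ) < s := by exact_mod_cast hs
  have q1 : ((a : ℝ) + b + 2 * c) ≤ 3 * s := by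
    have : a + b + 2 * c ≤ 3 * s := by omega
    exact_mod_cast this
  have h7 : ε * d * (a + b + 2 * c) ≤ ε * d * (3 * (s : ℝ)) :=
    mul_le_mul_of_nonneg_left q1 (mul_nonneg h0 hd.le)
  have h8 : 9 * ε * (d * s) < c₁ * (d * s) := mul_lt_mul_of_pos_right hε (mul_pos hd hs')
  nlinarith

private theorem eps_nonneg {n : ℕ} {ε θ d : ℝ} (hd : 0 < d)
    {L : Fin (2 * n) → Fin (2 * n) → Finset (Fin (2 * n - 1))} (hS : Sparse ε θ d L)
    (S : Finset (El n)) (hne : S.Nonempty) (hcard : (S.card : ℝ) ≤ θ * ((2 * n - 1 : ℕ) : ℝ)) :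
    0 ≤ ε := by
  have hv : ∃ v : Fin (2 * n), True := by
    obtain ⟨a, -⟩ := hne
    rcases a with ⟨e, he⟩ | ⟨v, c⟩
    · induction e using Sym2.ind with
      | _ u w => exact ⟨u, trivial⟩
    · exact ⟨v, trivial⟩
  obtain ⟨v, -⟩ := hv
  have hc : 0 < 2 * n - 1 := by
    have := v.2
    omega
  have h1 := hS.col ⟨0, hc⟩ ∅ {v} (by
    rw [card_empty, Nat.cast_zero, Fintype.card_fin]
    exact le_trans (Nat.cast_nonneg _) hcard)
  have e1 : (((∅ : Finset (Fin (2 * n))).card : ℕ) : ℝ) = 0 := by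
    rw [card_empty, Nat.cast_zero]
  rw [empty_product, filter_empty, card_singleton, e1, card_empty, Nat.cast_zero, Nat.cast_one,
    zero_add, mul_one] at h1
  exact nonneg_of_mul_nonneg_left h1 hd

private theorem rows_le {n : ℕ} {ε θ d : ℝ} {H : Finset (J n)} (hS : Sparse ε θ d (LK n H))
    (S : Finset (El n)) (hcard : (S.card : ℝ) ≤ θ * ((2 * n - 1 : ℕ) : ℝ)) :
    ((∑ v, (P1 S H v).card : ℕ) : ℝ) ≤
      ε * d * ((∑ v, (nbE S v).card : ℕ) + (∑ v, (nbC S v).card : ℕ)) := by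
  have hrow : ∀ v, ((P1 S H v).card : ℝ) ≤ ε * d * ((nbE S v).card + (nbC S v).card) := by
    intro v
    apply hS.row v (nbE S v) (nbC S v)
    right
    rw [Fintype.card_fin]
    refine le_trans ?_ hcard
    have h4 := sum_nbC S
    have h5 := card_SE_SP S
    have h6 : (nbC S v).card ≤ ∑ v, (nbC S v).card :=
      single_le_sum (f := fun v => (nbC S v).card) (fun _ _ => Nat.zero_le _) (mem_univ v)
    have h7 : (nbC S v).card ≤ S.card := by omega
    exact Nat.cast_le.mpr h7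
  rw [Nat.cast_sum, Nat.cast_sum, Nat.cast_sum, ← sum_add_distrib, mul_sum]
  exact sum_le_sum fun v _ => hrow v

private theorem cols_le {n : ℕ} {ε θ d : ℝ} {H : Finset (J n)} (hS : Sparse ε θ d (LK n H))
    (S : Finset (El n)) (hcard : (S.card : ℝ) ≤ θ * ((2 * n - 1 : ℕ) : ℝ)) :
    ((∑ c, (P2 S H c).card : ℕ) : ℝ) ≤ ε * d * (2 * (∑ c, (nbV S c).card : ℕ)) := by
  have hcol : ∀ c, ((P2 S H c).card : ℝ) ≤ ε * d * ((nbV S c).card + (nbV S c).card) := by
    intro c
    apply hS.col c (nbV S c) (nbV S c)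
    rw [Fintype.card_fin]
    refine le_trans ?_ hcard
    have h4 := sum_nbV S
    have h5 := card_SE_SP S
    have h6 : (nbV S c).card ≤ ∑ c, (nbV S c).card :=
      single_le_sum (f := fun c => (nbV S c).card) (fun _ _ => Nat.zero_le _) (mem_univ c)
    have h7 : (nbV S c).card ≤ S.card := by omega
    exact Nat.cast_le.mpr h7
  rw [Nat.cast_sum, Nat.cast_sum]
  refine (sum_le_sum fun c _ => hcol c).trans (le_of_eq ?_)
  rw [← mul_sum, sum_add_distrib]
  ring

private theorem degs_ge {n : ℕ} {D : ℝ} (H M : Finset (J n))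
    (hmin : MinDeg D (LK n (HR H M)) (RPm M) (REm M)) (S : Finset (El n))
    (hnot : ∀ a ∈ S, ¬ Hit M a) :
    (S.card : ℝ) * D ≤
      ((∑ a ∈ S, ((st n a).filter (fun j => j ∈ HR H M)).card : ℕ) : ℝ) := by
  have hdeg : ∀ a ∈ S, D ≤ (((st n a).filter (fun j => j ∈ HR H M)).card : ℝ) := by
    intro a ha
    have h1 := hnot a ha
    rcases a with ⟨e, he⟩ | ⟨v, c⟩
    · induction e using Sym2.ind with
      | _ u w =>
        rw [hit_inl] at h1
        rw [← LK_card (HR H M) he]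
        refine hmin.edge u w ?_ h1
        rintro rfl
        exact he (Sym2.mk_isDiag_iff.mpr rfl)
    · rw [hit_inr] at h1
      rw [← dP_LK]
      exact hmin.pair v c h1
  rw [Nat.cast_sum, ← nsmul_eq_mul]
  exact card_nsmul_le_sum _ _ _ hdeg

/-- in a sparse system of large minimum degree small sets are hit exactly once -/
theorem one_of_sparse {n : ℕ} {c₁ ε θ d : ℝ} (hd : 0 < d) (hε : 9 * ε < c₁)
    (H M : Finset (J n)) (hmin : MinDeg (c₁ * d) (LK n (HR H M)) (RPm M) (REm M))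
    (hS : Sparse ε θ d (LK n (HR H M))) (S : Finset (El n)) (hne : S.Nonempty)
    (hnot : ∀ a ∈ S, ¬ Hit M a) (hcard : (S.card : ℝ) ≤ θ * ((2 * n - 1 : ℕ) : ℝ)) :
    ∃ T ∈ HR H M, One S T := by
  by_contra hcon
  push Not at hcon
  have h1 := degs_ge H M hmin S hnot
  have h2 := sum_deg S (HR H M) hcon
  have h3 := two_le S (HR H M)
  have h4 := rows_le hS S hcard
  have h5 := cols_le hS S hcard
  have h6 : (S.card : ℝ) * (c₁ * d) ≤
      3 * (cnt (fun T : J n => T ∈ HR H M ∧ Two S T) : ℝ) := by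
    refine h1.trans ?_
    have h7 := (Nat.cast_le (α := ℝ)).mpr h2
    rwa [Nat.cast_mul, Nat.cast_ofNat] at h7
  have h8 : (cnt (fun T : J n => T ∈ HR H M ∧ Two S T) : ℝ) ≤
      ε * d * ((∑ v, (nbE S v).card : ℕ) + (∑ v, (nbC S v).card : ℕ) +
        2 * (∑ c, (nbV S c).card : ℕ)) := by
    have h7 := (Nat.cast_le (α := ℝ)).mpr h3
    rw [Nat.cast_add] at h7
    refine h7.trans ((add_le_add h4 h5).trans (le_of_eq ?_))
    ring
  exact arith hd hε (eps_nonneg hd hS S hne hcard) (card_pos.mpr hne) (sum_nbE S) (sum_nbC S)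
    (sum_nbV S) (card_SE_SP S) h6 h8

end Pool.Agent.Lib.LT
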