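import Pool.Agent.Lib.MP_6d56f7_co_FR.Glue
import Pool.Agent.Lib.MP_6d56f7_co_LT.OneSp

/-!
# Weights off a matching
-/

set_option autoImplicit false

namespace Pool.Agent.Lib.LT

open Finset Pool.Agent.Lib.FR

variable {n : ℕ}

/-- the main deterministic step of the fractional theorem, with the weights themselves -/
theorem glue_w (hn : 6 ≤ n) {c₁ θ η δ δ' d D : ℝ} (hc₁ : 0 < c₁) (hc₁' : c₁ ≤ 1) (hθ : 0 < θ)
    (hη0 : 0 ≤ η) (hη : η / θ + 6 / d ≤ 1 / 66) (hd : 0 < d) (hδ : 0 ≤ δ) (hδ' : 0 ≤ δ')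
    (hδδ' : δ + 3 / d + δ' / c₁ ≤ c₁ / (4 * 4 * (1 + 264 * 4))) (hD : c₁ * d + 3 ≤ D)
    (hθn : ∀ k : ℕ, k ^ 2 ≤ n → (k : ℝ) ≤ θ * ((2 * n - 1 : ℕ) : ℝ))
    (s : J n → Fin 3) (hB : Bulk η 0 d (Lm n s) (fun _ _ => True))
    (hS : Sparse (c₁ / (16 * (1 + 264 * 4))) θ d (Lp n s)) (hM : MaxDeg (4 * d) (Lp n s))
    (hF : FewBad δ δ' d n s) (hlow : LowOK D n s)
    (hcnt : (3 * cnt (fun a : El n => (dg n s a : ℝ) < D)) ^ 8 ≤ n)
    (H : Finset (J n)) (h2 : ∀ j, s j = 2 → j ∈ H) (h0 : ∀ j ∈ H, s j ≠ 0)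
    (hcov : ∀ a : El n, ∃ j ∈ st n a, j ∈ H) :
    ∃ M w, FRW n H M w := by
  classical
  have hVC : Fintype.card (Fin (2 * n)) = Fintype.card (Fin (2 * n - 1)) + 1 := by
    rw [Fintype.card_fin, Fintype.card_fin]
    omega
  have hV12 : 12 ≤ Fintype.card (Fin (2 * n)) := by
    rw [Fintype.card_fin]
    omega
  -- the matching
  choose g hgst hgH using hcov
  let M : Finset (J n) := (univ.filter (fun a : El n => (dg n s a : ℝ) < D)).image g
  have hMH : ∀ j ∈ M, j ∈ H := by
    intro j hj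
    obtain ⟨a, -, rfl⟩ := mem_image.mp hj
    exact hgH a
  have hMc : CFree M := by
    intro j hj j' hj' hcf
    obtain ⟨a, ha, rfl⟩ := mem_image.mp hj
    obtain ⟨a', ha', rfl⟩ := mem_image.mp hj'
    rw [mem_filter] at ha ha'
    by_cases haa : a = a'
    · rw [haa]
    · exact absurd hcf (hlow a a' haa ha.2 ha'.2 _ (hgst a) _ (hgst a') (h0 _ (hgH a))
        (h0 _ (hgH a')))
  have hMlow : ∀ a : El n, ¬ Hit M a → D ≤ dg n s a := by
    intro a ha
    by_contra hlt
    push Not at hlt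
    exact ha ⟨g a, mem_image_of_mem _ (mem_filter.mpr ⟨mem_univ _, hlt⟩), hgst a⟩
  set H' := HR H M with hH'
  have hsubH : H' ⊆ H := fun j hj => (mem_HR.mp hj).1
  have hLm : ∀ u v, Lm n s u v ⊆ LK n H u v := by
    intro u v
    have : Lm n s = LK n (univ.filter fun j => s j = 2) := by
      rw [LK_eq_LL n (fun a => a = 2) s]
    rw [this]
    exact LK_mono (fun j hj => h2 j (mem_filter.mp hj).2) u v
  have hLp : ∀ u v, LK n H u v ⊆ Lp n s u v := by
    intro u v
    have : Lp n s = LK n (univ.filter fun j => s j ≠ 0) := by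
      rw [LK_eq_LL n (fun a => a ≠ 0) s]
    rw [this]
    exact LK_mono (fun j hj => mem_filter.mpr ⟨mem_univ _, h0 j hj⟩) u v
  have hsub : ∀ u v, LK n H' u v ⊆ LK n H u v := LK_mono hsubH
  have hsub' : ∀ u v, LK n H' u v ⊆ Lp n s u v := fun u v => (hsub u v).trans (hLp u v)
  -- losses
  have hE : ∀ u v, ¬ REm M u v → ((LK n H u v \ LK n H' u v).card : ℝ) ≤ 3 := by
    intro u v hR
    rw [LK_sdiff]
    by_cases hd : (s(u, v) : Sym2 (Fin (2 * n))).IsDiag
    · have h3 : LK n (H \ H') u v = ∅ := by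
        rw [eq_empty_iff_forall_notMem]
        intro c hc
        obtain ⟨h4, -⟩ := mem_LK.mp hc
        exact h4 hd
      rw [h3]
      simp
    · rw [LK_card _ hd]
      have h3 := loss hMc H (.inl ⟨s(u, v), hd⟩) (fun h4 => hR ((hit_inl hd).mp h4))
      exact_mod_cast h3
  have hP : ∀ v c, ¬ RPm M v c →
      ((univ.filter (fun u => c ∈ LK n H u v ∧ c ∉ LK n H' u v)).card : ℝ) ≤ 3 := by
    intro v c hR
    have h3 : univ.filter (fun u => c ∈ LK n H u v ∧ c ∉ LK n H' u v) =
        univ.filter (fun u => c ∈ LK n (H \ H') u v) := by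
      ext u
      rw [mem_filter, mem_filter, ← LK_sdiff, mem_sdiff]
    rw [h3]
    have h4 : (univ.filter (fun u => c ∈ LK n (H \ H') u v)).card = dP (LK n (H \ H')) v c := rfl
    rw [h4, dP_LK]
    have h5 := loss hMc H (.inr (v, c)) (fun h6 => hR (hit_inr.mp h6))
    exact_mod_cast h5
  have hdegE : ∀ u v, ¬ REm M u v →
      ((Lm n s u v).card : ℝ) ≤ ((LK n H' u v).card : ℝ) + 3 := by
    intro u v hR
    have h3 := hE u v hR
    have h4 : (Lm n s u v).card ≤ (LK n H' u v).card + (LK n H u v \ LK n H' u v).card := by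
      refine (card_le_card (hLm u v)).trans ?_
      have := card_le_card_sdiff_add_card (s := LK n H u v) (t := LK n H' u v)
      omega
    have h5 : ((Lm n s u v).card : ℝ) ≤
      (LK n H' u v).card + (LK n H u v \ LK n H' u v).card := by exact_mod_cast h4
    linarith
  have hdegP : ∀ v c, ¬ RPm M v c →
      (dP (Lm n s) v c : ℝ) ≤ (dP (LK n H') v c : ℝ) + 3 := by
    intro v c hR
    have h3 := hP v c hR
    have h4 : dP (Lm n s) v c ≤ dP (LK n H') v c +
        (univ.filter (fun u => c ∈ LK n H u v ∧ c ∉ LK n H' u v)).card := by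
      unfold dP
      refine le_trans (card_le_card ?_) (card_union_le _ _)
      intro u hu
      rw [mem_filter] at hu
      rw [mem_union, mem_filter, mem_filter]
      by_cases h5 : c ∈ LK n H' u v
      · exact Or.inl ⟨mem_univ _, h5⟩
      · exact Or.inr ⟨mem_univ _, hLm u v hu.2, h5⟩
    have h5 : (dP (Lm n s) v c : ℝ) ≤ dP (LK n H') v c +
        (univ.filter (fun u => c ∈ LK n H u v ∧ c ∉ LK n H' u v)).card := by exact_mod_cast h4
    linarith
  have hminE : ∀ u v, u ≠ v → ¬ REm M u v → D ≤ ((Lm n s u v).card : ℝ) := by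
    intro u v huv hR
    have hdg : ¬ (s(u, v) : Sym2 (Fin (2 * n))).IsDiag := by
      rw [Sym2.mk_isDiag_iff]
      exact huv
    have h3 := hMlow (.inl ⟨s(u, v), hdg⟩) (fun h4 => hR ((hit_inl hdg).mp h4))
    rwa [dg_inl] at h3
  have hminP : ∀ v c, ¬ RPm M v c → D ≤ (dP (Lm n s) v c : ℝ) := by
    intro v c hR
    have h3 := hMlow (.inr (v, c)) (fun h4 => hR (hit_inr.mp h4))
    rwa [dg_inr] at h3
  have hcardE : ∀ u v, ((LK n H' u v).card : ℝ) ≤ ((Lp n s u v).card : ℝ) := by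
    intro u v
    exact_mod_cast card_le_card (hsub' u v)
  have hcardP : ∀ v c, (dP (LK n H') v c : ℝ) ≤ (dP (Lp n s) v c : ℝ) := by
    intro v c
    exact_mod_cast dP_mono hsub' v c
  have hred := red_HR hMc H
  have hmin : MinDeg (c₁ * d) (LK n H') (RPm M) (REm M) := by
    constructor
    · intro u v huv hR
      have h3 := hdegE u v hR
      have h4 := hminE u v huv hR
      linarith
    · intro v c hR
      have h3 := hdegP v c hR
      have h4 := hminP v c hR
      linarith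
  have hd3 : (δ + 3 / d) * d = δ * d + 3 := by
    field_simp
  have hnear : Near (δ + 3 / d) δ' d (LK n H') (RPm M) (REm M) (BadP δ d n s)
      (BadE δ d n s) := by
    constructor
    · rintro u v ⟨h3, h4⟩
      refine ⟨h3.symm, ?_⟩
      have e1 : Lm n s v u = Lm n s u v := (ker_LL n (fun a => a = 2) s).symm v u
      have e2 : Lp n s v u = Lp n s u v := (ker_LL n (fun a => a ≠ 0) s).symm v u
      rw [e1, e2]
      exact h4
    · intro u v huv hR hb
      have h3 : ¬ (((Lm n s u v).card : ℝ) < (1 - δ) * d ∨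
          (1 + δ) * d < ((Lp n s u v).card : ℝ)) := fun h4 => hb ⟨huv, h4⟩
      push Not at h3
      have h4 := hdegE u v hR
      have h5 := hcardE u v
      rw [hd3, abs_le]
      constructor <;> nlinarith [h3.1, h3.2]
    · intro v c hR hb
      have h3 : ¬ ((dP (Lm n s) v c : ℝ) < (1 - δ) * d ∨
          (1 + δ) * d < (dP (Lp n s) v c : ℝ)) := fun h4 => hb h4
      push Not at h3
      have h4 := hdegP v c hR
      have h5 := hcardP v c
      rw [hd3, abs_le]
      constructor <;> nlinarith [h3.1, h3.2]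
    · intro u v
      refine le_trans ?_ (hF.fewE u v)
      have h3 : Nat.card {c : Fin (2 * n - 1) //
          c ∈ LK n H' u v ∧ (BadP δ d n s u c ∨ BadP δ d n s v c)} ≤
          Nat.card {c : Fin (2 * n - 1) //
          c ∈ Lp n s u v ∧ (BadP δ d n s u c ∨ BadP δ d n s v c)} :=
        Nat.card_mono (Set.toFinite _) (fun c hc => ⟨hsub' u v hc.1, hc.2⟩)
      exact_mod_cast h3
    · intro v c
      refine le_trans ?_ (hF.fewP v c)
      have h3 : Nat.card {u : Fin (2 * n) //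
          c ∈ LK n H' u v ∧ (BadE δ d n s u v ∨ BadP δ d n s u c)} ≤
          Nat.card {u : Fin (2 * n) //
          c ∈ Lp n s u v ∧ (BadE δ d n s u v ∨ BadP δ d n s u c)} :=
        Nat.card_mono (Set.toFinite _) (fun u hu => ⟨hsub' u v hu.1, hu.2⟩)
      exact_mod_cast h3
  have hbulk : Bulk η (2 * 3 / d) d (LK n H') (Zero (RPm M) (REm M)) :=
    bulk_red (Lm n s) (LK n H) (LK n H') (ker_LK n H) (ker_LK n H') hd (by norm_num) hLm hsub
      (RPm M) (REm M) hE hP hB
  obtain ⟨w, hws, hw0, hwb, hwE, hwP⟩ := det hVC hV12 (LK n H') (ker_LK n H') hc₁ hc₁'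
    (by norm_num : (1 : ℝ) ≤ 4) hθ hη0 (by positivity : (0 : ℝ) ≤ 2 * 3 / d)
    (by
      have h3 : (2 * 3 / d : ℝ) = 6 / d := by norm_num
      rw [h3]
      exact hη) hd (by positivity : (0 : ℝ) ≤ δ + 3 / d) hδ' hδδ' (RPm M) (REm M)
    (BadP δ d n s) (BadE δ d n s) hred hbulk (hS.mono hsub') (hM.mono hsub') hmin hnear
  refine ⟨M, w, ?_⟩
  constructor
  · exact hMH
  · exact hMc
  · refine le_trans (Nat.pow_le_pow_left (Nat.mul_le_mul_left 3 ?_) 8) hcnt
    rw [cnt_eq]
    exact card_image_le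
  · exact hws
  · exact hw0
  · intro u v c hc
    exact lt_of_lt_of_le (by positivity) (hwb u v c hc).1
  · exact hwE
  · exact hwP
  · intro S hne hnot hcard
    refine one_of_sparse hd ?_ H M hmin (hS.mono hsub') S hne ?_ (hθn _ hcard)
    · have h3 : 9 * (c₁ / (16 * (1 + 264 * 4))) = c₁ * (9 / 16912) := by ring
      rw [h3]
      nlinarith
    · intro a ha hh
      refine hnot a ha ?_
      unfold hitS
      rw [mem_filter]
      exact ⟨mem_univ _, hh⟩

end Pool.Agent.Lib.LT
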