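import Pool.Agent.Lib.MP_6d56f7_co_FR.Asy
import Pool.Agent.Lib.MP_6d56f7_co_FR.Low
import Pool.Agent.Lib.MP_6d56f7_co_LT.KDefs

/-!
# The number of elements of small degree
-/

set_option autoImplicit false

namespace Pool.Agent.Lib.LT

open Finset Filter Pool.Agent.Lib.FR

private theorem exp4 : Real.exp (-4) ≤ 1 / 50 := by
  rw [Real.exp_neg, one_div]
  refine inv_anti₀ (by norm_num) ?_
  have h6 : Real.exp 4 = Real.exp 1 ^ 4 := by
    rw [← Real.exp_nat_mul]
    norm_num
  rw [h6]
  have h7 := Real.exp_one_gt_d9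
  have h8 : (2.7 : ℝ) ^ 4 ≤ Real.exp 1 ^ 4 := pow_le_pow_left₀ (by norm_num) (by linarith) 4
  norm_num at h8 ⊢
  linarith

private theorem one_low {n : ℕ} (hn : (1 : ℝ) ≤ n) {p pp : ℝ} (h0 : pm n ≤ p) (h1 : p ≤ pp)
    (h2 : pp ≤ 1) (a : El n) :
    Pr (qq p pp) (fun s : J n → Fin 3 => (dg n s a : ℝ) < Real.log n / 100) ≤
      Real.exp (-(19 / 10 * Real.log n)) := by
  classical
  have hl : 0 ≤ Real.log n := Real.log_nonneg hn
  have hN : (0 : ℝ) < 2 * n - 1 := by linarith
  have hpm : 0 ≤ pm n := by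
    unfold pm
    exact div_nonneg (by positivity) hN.le
  have hp : 0 ≤ p := hpm.trans h0
  have h3 := low_tail hp h1 h2 (∅ : Finset (J n)) (st n a) (disjoint_empty_left _)
    (lam := 4) (by norm_num) (Real.log n / 100)
  rw [card_empty, pow_zero, one_mul] at h3
  refine (Pr_mono (qq_nonneg hp h1 h2) ?_).trans (h3.trans ?_)
  · intro s hs
    refine ⟨fun i hi => absurd hi (notMem_empty i), ?_⟩
    unfold dg at hs
    exact hs.le
  · rw [Real.exp_le_exp]
    have hc : ((st n a).card : ℝ) = 2 * n - 1 := by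
      rw [st_card]
      have h4 : 1 ≤ 2 * n := by
        have h5 : 1 ≤ n := by exact_mod_cast hn
        omega
      rw [Nat.cast_sub h4]
      push_cast
      ring
    rw [hc]
    have h4 : 99 / 50 * Real.log n ≤ p * (2 * n - 1) := by
      have h5 : pm n * (2 * n - 1) = 99 / 50 * Real.log n := by
        unfold pm
        field_simp
      rw [← h5]
      exact mul_le_mul_of_nonneg_right h0 hN.le
    have h6 : 49 / 50 ≤ 1 - Real.exp (-4) := by
      have := exp4
      linarith
    have h7 : 49 / 50 * (99 / 50 * Real.log n) ≤ (1 - Real.exp (-4)) * (p * (2 * n - 1)) :=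
      mul_le_mul h6 h4 (by positivity) (by linarith)
    nlinarith

/-- few elements have small degree -/
theorem low_count {δ : ℝ} (hδ : 0 < δ) : ∀ᶠ n : ℕ in atTop, ∀ p pp : ℝ, pm n ≤ p → p ≤ pp →
    pp ≤ 1 → Pr (qq p pp) (fun s : J n → Fin 3 =>
      ¬ (3 * cnt (fun a : El n => (dg n s a : ℝ) < Real.log n / 100)) ^ 8 ≤ n) ≤ δ := by
  classical
  have hlim := Asy.base 18 0 (by norm_num : (0 : ℝ) < 1 / 40)
  filter_upwards [hlim.eventually (gt_mem_nhds hδ), Asy.ev_nat 1] with n h1 hn p pp h0 hp h2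
  have hl : 0 ≤ Real.log n := Real.log_nonneg hn
  have hN : (0 : ℝ) < 2 * n - 1 := by linarith
  have hpm : 0 ≤ pm n := by
    unfold pm
    exact div_nonneg (by positivity) hN.le
  have hp0 : 0 ≤ p := hpm.trans h0
  have hq := qq_nonneg hp0 hp h2
  obtain ⟨F, hF⟩ : ∃ F : (J n → Fin 3) → ℝ, F = fun s =>
      ∑ a : El n, (if (dg n s a : ℝ) < Real.log n / 100 then (1 : ℝ) else 0) := ⟨_, rfl⟩
  have hFc : ∀ s, F s = (cnt (fun a : El n => (dg n s a : ℝ) < Real.log n / 100) : ℝ) := by
    intro s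
    rw [hF, cnt_eq]
    exact sum_boole _ _
  have hExF : Ex (qq p pp) F ≤ 6 * Real.exp (1 / 10 * Real.log n) := by
    have e1 : Ex (qq p pp) F = ∑ a : El n,
        Pr (qq p pp) (fun s : J n → Fin 3 => (dg n s a : ℝ) < Real.log n / 100) := by
      rw [hF, Ex_sum]
      exact sum_congr rfl fun a _ => (Pr_eq _ _).symm
    rw [e1]
    calc ∑ a : El n, Pr (qq p pp) (fun s : J n → Fin 3 => (dg n s a : ℝ) < Real.log n / 100)
        ≤ ∑ _a : El n, Real.exp (-(19 / 10 * Real.log n)) :=
          sum_le_sum fun a _ => one_low hn h0 hp h2 a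
      _ = (Fintype.card (El n) : ℝ) * Real.exp (-(19 / 10 * Real.log n)) := by
          rw [sum_const, card_univ, nsmul_eq_mul]
      _ ≤ (6 * n ^ 2) * Real.exp (-(19 / 10 * Real.log n)) := by
          refine mul_le_mul_of_nonneg_right ?_ (Real.exp_pos _).le
          have h6 : Fintype.card (El n) ≤ 6 * n ^ 2 := by
            rw [El_card]
            have h4 : 2 * n - 1 ≤ 2 * n := Nat.sub_le _ _
            calc 3 * (n * (2 * n - 1)) ≤ 3 * (n * (2 * n)) :=
                  Nat.mul_le_mul_left _ (Nat.mul_le_mul_left _ h4)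
              _ = 6 * n ^ 2 := by ring
          exact_mod_cast h6
      _ = 6 * Real.exp (1 / 10 * Real.log n) := by
          have h7 : (n : ℝ) ^ 2 = Real.exp (2 * Real.log n) := by
            conv_lhs => rw [Asy.nat_eq hn]
            rw [← Real.exp_nat_mul]
            norm_num
          rw [h7, mul_assoc, ← Real.exp_add]
          ring_nf
  have hg : (0 : ℝ) < Real.exp (1 / 8 * Real.log n) / 3 := by positivity
  have hM := Pr_markov (I := J n) hq (A := fun s : J n → Fin 3 =>
    ¬ (3 * cnt (fun a : El n => (dg n s a : ℝ) < Real.log n / 100)) ^ 8 ≤ n) (F := F) hg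
    (fun s => by rw [hFc]; exact Nat.cast_nonneg _) ?_
  · refine hM.trans ?_
    rw [div_le_iff₀ hg]
    have h3 : 18 * Real.exp (-(1 / 40 * Real.log n)) ≤ δ := by
      have h4 := le_of_lt h1
      rw [pow_zero, mul_one] at h4
      exact h4
    calc Ex (qq p pp) F ≤ 6 * Real.exp (1 / 10 * Real.log n) := hExF
      _ = 18 * Real.exp (-(1 / 40 * Real.log n)) * (Real.exp (1 / 8 * Real.log n) / 3) := by
          have h5 : Real.exp (1 / 10 * Real.log n) =
              Real.exp (-(1 / 40 * Real.log n)) * Real.exp (1 / 8 * Real.log n) := by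
            rw [← Real.exp_add]
            ring_nf
          rw [h5]
          ring
      _ ≤ δ * (Real.exp (1 / 8 * Real.log n) / 3) := mul_le_mul_of_nonneg_right h3 hg.le
  · intro s hs
    rw [hFc]
    obtain ⟨c, hc⟩ : ∃ c : ℕ, c = cnt (fun a : El n => (dg n s a : ℝ) < Real.log n / 100) :=
      ⟨_, rfl⟩
    rw [← hc] at hs ⊢
    rw [not_le] at hs
    have h3 : (n : ℝ) < (3 * (c : ℝ)) ^ 8 := by exact_mod_cast hs
    have h4 : Real.exp (1 / 8 * Real.log n) ^ 8 < (3 * (c : ℝ)) ^ 8 := by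
      have h5 : Real.exp (1 / 8 * Real.log n) ^ 8 = n := by
        rw [← Real.exp_nat_mul]
        conv_rhs => rw [Asy.nat_eq hn]
        congr 1
        push_cast
        ring
      rw [h5]
      exact h3
    have h6 := lt_of_pow_lt_pow_left₀ 8 (by positivity) h4
    rw [div_le_iff₀ (by norm_num)]
    linarith

end Pool.Agent.Lib.LT
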