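import Pool.Agent.Lib.MP_6d56f7_co_FR.Asm
import Pool.Agent.Lib.MP_6d56f7_co_LT.GlueW
import Pool.Agent.Lib.MP_6d56f7_co_LT.LowC

/-!
# Real weights in random orderings
-/

set_option autoImplicit false

namespace Pool.Agent.Lib.LT

open Finset Filter Topology Pool.Agent.Lib.FR

open Classical in
private theorem seg_eq {n m : ℕ} (σ : J n ≃ Fin m) (s : J n → Fin 3) (hc : Compat σ s) (t : ℕ) :
    ∃ t' ≤ t, ∀ j, j ∈ seg σ t' ↔ (σ j : ℕ) < t ∧ s j ≠ 0 := by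
  by_cases h : ∃ k : ℕ, ∃ j, s j = 0 ∧ (σ j : ℕ) = k
  · refine ⟨min t (Nat.find h), min_le_left _ _, fun j => ?_⟩
    obtain ⟨j0, h0, h1⟩ := Nat.find_spec h
    simp only [seg, mem_filter, mem_univ, true_and, lt_min_iff]
    refine and_congr_right fun _ => ⟨fun h2 h3 => Nat.find_min h h2 ⟨j, h3, rfl⟩, fun h2 => ?_⟩
    rw [← h1]
    have h3 : s j0 < s j := by
      rw [h0]
      exact Fin.pos_of_ne_zero h2
    exact hc j j0 h3
  · push Not at h
    refine ⟨t, le_refl _, fun j => ?_⟩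
    simp only [seg, mem_filter, mem_univ, true_and]
    exact ⟨fun h2 => ⟨h2, fun h3 => h _ j h3 rfl⟩, fun h2 => h2.1⟩

/-- deterministic part: a good state implies that all orderings compatible with it are good -/
private theorem evF_of {n : ℕ} (hn : 6 ≤ n) {c₁ θ η δ δ' d D : ℝ} (hc₁ : 0 < c₁) (hc₁' : c₁ ≤ 1)
    (hθ : 0 < θ) (hη0 : 0 ≤ η) (hη : η / θ + 6 / d ≤ 1 / 66) (hd : 0 < d) (hδ : 0 ≤ δ)
    (hδ' : 0 ≤ δ') (hδδ' : δ + 3 / d + δ' / c₁ ≤ c₁ / (4 * 4 * (1 + 264 * 4)))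
    (hD : c₁ * d + 3 ≤ D)
    (hθn : ∀ k : ℕ, k ^ 2 ≤ n → (k : ℝ) ≤ θ * ((2 * n - 1 : ℕ) : ℝ))
    {m : ℕ} (σ : J n ≃ Fin m) (s : J n → Fin 3) (hc : Compat σ s)
    (hg : GoodS n c₁ θ η δ δ' d D s)
    (hcnt : (3 * cnt (fun a : El n => (dg n s a : ℝ) < D)) ^ 8 ≤ n) : EvF σ := by
  intro t hcov0
  have hcov : ∀ a : El n, ∃ j ∈ st n a, (σ j : ℕ) < t := by
    intro a
    obtain ⟨T, hT, hTa⟩ := hcov0 a
    exact ⟨T, hTa, (mem_filter.mp hT).2⟩
  obtain ⟨t', ht', hseg⟩ := seg_eq σ s hc t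
  have hA : ∀ j, s j = 2 → j ∈ seg σ t' := by
    intro j hj
    have h3 := hg.notc
    push Not at h3
    obtain ⟨e, he⟩ := h3
    obtain ⟨⟨c, e'⟩, hc', hlt⟩ := hcov (.inl e)
    have he' : e' = e := mem_st_inl.mp hc'
    subst he'
    have h4 : s (c, e') < s j := by
      have h5 := he c
      rw [hj]
      revert h5
      generalize s (c, e') = a
      fin_cases a <;> simp
    have h5 : σ j < σ (c, e') := hc j (c, e') h4
    have h6 : (σ j : ℕ) < (σ (c, e') : ℕ) := h5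
    rw [hseg]
    refine ⟨by omega, ?_⟩
    rw [hj]
    decide
  have hB : ∀ j ∈ seg σ t', s j ≠ 0 := fun j hj => ((hseg j).mp hj).2
  have hC : ∀ a : El n, ∃ j ∈ st n a, j ∈ seg σ t' := by
    intro a
    obtain ⟨j1, hj1, ht1⟩ := hcov a
    by_cases h3 : s j1 = 0
    · have h4 := hg.high
      push Not at h4
      obtain ⟨j2, hj2, hs2⟩ := h4 a
      have h5 : s j1 < s j2 := by
        rw [h3]
        exact Fin.pos_of_ne_zero hs2
      have h6 : (σ j2 : ℕ) < (σ j1 : ℕ) := hc j2 j1 h5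
      exact ⟨j2, hj2, (hseg j2).mpr ⟨by omega, hs2⟩⟩
    · exact ⟨j1, hj1, (hseg j1).mpr ⟨ht1, h3⟩⟩
  refine ⟨t', ht', fun a => ?_, ?_⟩
  · obtain ⟨j, hj, hj'⟩ := hC a
    exact ⟨j, hj', hj⟩
  · exact glue_w hn hc₁ hc₁' hθ hη0 hη hd hδ hδ' hδδ' hD hθn s hg.bulk hg.sparse
      hg.maxd hg.few hg.low hcnt (seg σ t') hA hB hC

/-- the share of the orderings without weights tends to zero -/
theorem evF_share : Tendsto (fun n : ℕ =>
    (Set.ncard {σ : J n ≃ Fin (Nat.card (J n)) | ¬ EvF σ} : ℝ) /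
      (Nat.card (J n ≃ Fin (Nat.card (J n))) : ℝ)) atTop (𝓝 0) := by
  -- constants
  obtain ⟨c₁, hc₁⟩ : ∃ c : ℝ, c = 1 / 400 := ⟨_, rfl⟩
  obtain ⟨κ, hκ⟩ : ∃ κ : ℝ, κ = c₁ / (4 * 4 * (1 + 264 * 4)) := ⟨_, rfl⟩
  have hκ0 : 0 < κ := by
    rw [hκ, hc₁]
    norm_num
  obtain ⟨δ, hδ⟩ : ∃ δ : ℝ, δ = κ / 3 := ⟨_, rfl⟩
  obtain ⟨δ', hδ'⟩ : ∃ δ' : ℝ, δ' = c₁ * κ / 3 := ⟨_, rfl⟩
  obtain ⟨θ, hθ⟩ : ∃ θ : ℝ, θ = Real.exp (-8 / (c₁ / (16 * (1 + 264 * 4)))) := ⟨_, rfl⟩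
  have hθ0 : 0 < θ := by
    rw [hθ]
    exact Real.exp_pos _
  obtain ⟨η, hη⟩ : ∃ η : ℝ, η = θ / 132 := ⟨_, rfl⟩
  obtain ⟨γ, hγ⟩ : ∃ γ : ℝ, γ = δ / 8 := ⟨_, rfl⟩
  obtain ⟨k, hk⟩ : ∃ k : ℕ, 16 / δ ^ 2 ≤ k := exists_nat_ge _
  have hc0 : 0 < c₁ := by rw [hc₁]; norm_num
  have hc1 : c₁ ≤ 1 := by rw [hc₁]; norm_num
  have hδ0 : 0 < δ := by rw [hδ]; positivity
  have hδ'0 : 0 < δ' := by rw [hδ']; positivity
  have hκ1 : κ ≤ 1 / 1000 := by
    rw [hκ, hc₁]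
    norm_num
  have hδ1 : δ ≤ 1 / 2 := by
    rw [hδ]
    linarith
  have hη0 : 0 < η := by rw [hη]; positivity
  have hγ0 : 0 < γ := by rw [hγ]; positivity
  have hγ1 : γ ≤ 1 / 100 := by
    rw [hγ, hδ]
    linarith
  let d : ℕ → ℝ := fun n => 2 * Real.log n
  let pm' : ℕ → ℝ := fun n => (1 - γ) * (2 * Real.log n) / (2 * n - 1)
  let pp' : ℕ → ℝ := fun n => (1 + γ) * (2 * Real.log n) / (2 * n - 1)
  let B : ℕ → ℝ := fun n =>
      100 / (η * √(2 * Real.log n)) + 200 * (n : ℝ) ^ 3 * Real.exp (-5 * (2 * Real.log n)) +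
      8 * (n : ℝ) ^ 2 * Real.exp (-(2 * (2 * Real.log n))) +
      20 * (n : ℝ) ^ 2 *
        (20 * (2 * Real.log n) * Real.exp (-(δ ^ 2 * (2 * Real.log n) / 8))) ^ k +
      36 * (n : ℝ) ^ 3 * (12 * (n : ℝ) ^ 2 * pp' n ^ 2 + pp' n) *
        Real.exp (2 * 4 * (Real.log n / 100) - (1 - Real.exp (-4)) * (pm' n * (4 * n - 5))) +
      2 * (n : ℝ) * 4 ^ n * Real.exp (-(2 / 5 * θ * (2 * Real.log n) * n)) +
      6 * (n : ℝ) ^ 2 * Real.exp (-((1 + γ) * (2 * Real.log n))) +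
      Real.exp (-((n * (2 * n - 1) : ℕ) * (1 - pm' n) ^ (2 * n - 1)))
  have hB : Tendsto B atTop (𝓝 0) := by
    have h := ((((((Asy.t1 hη0).add Asy.t2).add Asy.t3).add (Asy.t4 hδ0 hk)).add
      (Asy.t5 hγ0 hγ1 (pm := pm') (pp := pp') (Eventually.of_forall fun n => rfl)
        (Eventually.of_forall fun n => rfl))).add (Asy.t6 hθ0)).add (Asy.t7 hγ0) |>.add
      (Asy.t8 hγ0 (by linarith) (p := pm') (Eventually.of_forall fun n => rfl))
    simp only [add_zero] at h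
    exact h
  have hbad : ∀ ε : ℝ, 0 < ε → ∀ᶠ n : ℕ in atTop,
      (Set.ncard {σ : J n ≃ Fin (Nat.card (J n)) | ¬ EvF σ} : ℝ) /
        (Nat.card (J n ≃ Fin (Nat.card (J n))) : ℝ) ≤ B n + ε := by
    intro ε hε
    filter_upwards [Asy.ev_nat 6, Asy.ev_nat (128 / θ), Asy.ev_nat (1 / θ ^ 2),
      Asy.ev_log 1, Asy.ev_log (792 / 2),
      Asy.ev_log (9 / κ), Asy.ev_log 1200, Asy.ev_log (24 / θ), Asy.ev_log (8 * k / δ),
      Asy.ev_log (4 * k / δ'), Asy.ev_ratio (by norm_num : (0 : ℝ) < 1 / 2), low_count hε] with n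
      hn6 hnθ hnθ2 hl1 hl2 hl3 hl4 hl5 hl6 hl7 hr hlc
    have hn6' : 6 ≤ n := by exact_mod_cast hn6
    have hnpos : (0 : ℝ) < 2 * n - 1 := by linarith
    have hlog : 0 < Real.log n := by linarith
    have hpar : Par (δ / 8) n (pm' n) (pp' n) (d n) := by
      refine ⟨hn6', ?_, ?_, ?_, ?_, ?_, ?_⟩
      · exact div_nonneg (mul_nonneg (by linarith) (by positivity)) hnpos.le
      · refine div_le_div_of_nonneg_right ?_ hnpos.le
        nlinarith
      · show (1 + γ) * (2 * Real.log n) / (2 * n - 1) ≤ 1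
        rw [div_le_one hnpos]
        nlinarith
      · show 1 ≤ 2 * Real.log n
        linarith
      · rw [← hγ]
        show (1 - γ) * (2 * Real.log n) ≤ (2 * n - 1) * ((1 - γ) * (2 * Real.log n) / (2 * n - 1))
        rw [mul_div_cancel₀ _ hnpos.ne']
      · rw [← hγ]
        show (2 * n - 1) * ((1 + γ) * (2 * Real.log n) / (2 * n - 1)) ≤ (1 + γ) * (2 * Real.log n)
        rw [mul_div_cancel₀ _ hnpos.ne']
    have hd0 : 0 < d n := by
      show 0 < 2 * Real.log n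
      linarith
    have e1 : η / θ + 6 / d n ≤ 1 / 66 := by
      have h3 : η / θ = 1 / 132 := by
        rw [hη]
        field_simp
      have h4 : 6 / d n ≤ 1 / 132 := by
        rw [div_le_div_iff₀ hd0 (by norm_num)]
        show 6 * 132 ≤ 1 * (2 * Real.log n)
        linarith
      rw [h3]
      linarith
    have e2 : δ + 3 / d n + δ' / c₁ ≤ c₁ / (4 * 4 * (1 + 264 * 4)) := by
      rw [← hκ]
      have h3 : δ' / c₁ = κ / 3 := by
        rw [hδ']
        field_simp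
      have h4 : 3 / d n ≤ κ / 3 := by
        rw [div_le_div_iff₀ hd0 (by norm_num)]
        show 3 * 3 ≤ κ * (2 * Real.log n)
        rw [div_le_iff₀ hκ0] at hl3
        nlinarith
      rw [h3, hδ]
      linarith
    have e3 : c₁ * d n + 3 ≤ Real.log n / 100 := by
      show c₁ * (2 * Real.log n) + 3 ≤ Real.log n / 100
      rw [hc₁]
      linarith
    have e4 : 8 * d n + 3 * n ≤ θ * d n * n / 8 := by
      show 8 * (2 * Real.log n) + 3 * n ≤ θ * (2 * Real.log n) * n / 8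
      have h3 : 3 * (n : ℝ) ≤ θ * (2 * Real.log n) * n / 16 := by
        have h4 : 48 ≤ θ * (2 * Real.log n) := by
          rw [div_le_iff₀ hθ0] at hl5
          nlinarith
        have h5 : (0 : ℝ) ≤ n := by linarith
        nlinarith
      have h4 : 8 * (2 * Real.log n) ≤ θ * (2 * Real.log n) * n / 16 := by
        have h5 : 128 ≤ n * θ := by
          rw [div_le_iff₀ hθ0] at hnθ
          exact hnθ
        nlinarith
      linarith
    have e5 : 8 * (k : ℝ) ≤ δ * d n := by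
      show 8 * (k : ℝ) ≤ δ * (2 * Real.log n)
      rw [div_le_iff₀ hδ0] at hl6
      nlinarith
    have e6 : 4 * (k : ℝ) ≤ δ' * d n := by
      show 4 * (k : ℝ) ≤ δ' * (2 * Real.log n)
      rw [div_le_iff₀ hδ'0] at hl7
      nlinarith
    have e7 : 4 * n * Real.exp (-(5 / 2 * d n)) ≤ 1 := by
      show 4 * n * Real.exp (-(5 / 2 * (2 * Real.log n))) ≤ 1
      have h3 : Real.exp (-(5 / 2 * (2 * Real.log n))) ≤ Real.exp (-(2 * Real.log n)) := by
        rw [Real.exp_le_exp]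
        linarith
      have h4 : Real.exp (-(2 * Real.log n)) = 1 / (n : ℝ) ^ 2 := by
        rw [Real.exp_neg, one_div]
        congr 1
        have h5 : (n : ℝ) ^ 2 = Real.exp (2 * Real.log n) := by
          conv_lhs => rw [Asy.nat_eq (by linarith : (1 : ℝ) ≤ n)]
          rw [← Real.exp_nat_mul]
          norm_num
        exact h5.symm
      rw [h4] at h3
      have hn : (0 : ℝ) < n := by linarith
      calc 4 * n * Real.exp (-(5 / 2 * (2 * Real.log n))) ≤ 4 * n * (1 / (n : ℝ) ^ 2) :=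
            mul_le_mul_of_nonneg_left h3 (by positivity)
        _ = 4 / n := by
            field_simp
        _ ≤ 1 := by
            rw [div_le_one hn]
            linarith
    have e8 : ∀ k : ℕ, k ^ 2 ≤ n → (k : ℝ) ≤ θ * ((2 * n - 1 : ℕ) : ℝ) := by
      intro k hkn
      have h0 : (n : ℝ) ≤ ((2 * n - 1 : ℕ) : ℝ) := by
        exact_mod_cast (by omega : n ≤ 2 * n - 1)
      have h1 : (k : ℝ) ^ 2 ≤ n := by exact_mod_cast hkn
      have h2 : 1 ≤ (n : ℝ) * θ ^ 2 := by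
        rw [div_le_iff₀ (by positivity)] at hnθ2
        exact hnθ2
      have h3 : (k : ℝ) ≤ θ * n := by
        by_contra h4
        push Not at h4
        have h5 : (θ * n) ^ 2 < (k : ℝ) ^ 2 := by
          have h6 : (0 : ℝ) ≤ θ * n := by positivity
          exact pow_lt_pow_left₀ h4 h6 two_ne_zero
        have h7 : (n : ℝ) ≤ (θ * n) ^ 2 := by
          have h8 : (0 : ℝ) ≤ n := by linarith
          nlinarith
        linarith
      calc (k : ℝ) ≤ θ * n := h3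
        _ ≤ θ * ((2 * n - 1 : ℕ) : ℝ) := mul_le_mul_of_nonneg_left h0 hθ0.le
    have hq := qq_nonneg hpar.pm0 hpar.pmpp hpar.pp1
    have hmix := mix (J := J n) (m := Nat.card (J n)) Nat.card_eq_fintype_card.symm
      (qq (pm' n) (pp' n)) hq (qq_sum _ _) (fun σ => ¬ EvF σ)
      (fun s => ¬ GoodS n c₁ θ η δ δ' (d n) (Real.log n / 100) s ∨
        ¬ (3 * cnt (fun a : El n => (dg n s a : ℝ) < Real.log n / 100)) ^ 8 ≤ n) (by
        intro σ s hc hbad
        by_contra hcon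
        rw [not_or, not_not, not_not] at hcon
        exact hbad (evF_of hn6' hc0 hc1 hθ0 hη0.le e1 hd0 hδ0.le hδ'0.le e2 e3 e8
          σ s hc hcon.1 hcon.2))
    have hbp := bad_prob (D := Real.log n / 100) hc0 hc1 hθ hη0 hδ0 hδ1 hpar e5 e6 e7
    have hlow : Pr (qq (pm' n) (pp' n)) (fun s : J n → Fin 3 =>
        ¬ (3 * cnt (fun a : El n => (dg n s a : ℝ) < Real.log n / 100)) ^ 8 ≤ n) ≤ ε := by
      refine hlc (pm' n) (pp' n) ?_ hpar.pmpp hpar.pp1
      show 99 / 50 * Real.log n / (2 * n - 1) ≤ (1 - γ) * (2 * Real.log n) / (2 * n - 1)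
      refine div_le_div_of_nonneg_right ?_ hnpos.le
      nlinarith
    refine hmix.trans ((Pr_or hq _ _).trans (add_le_add (hbp.trans (le_of_eq ?_)) hlow))
    have e9 : (2 * (n : ℝ) - 1) * pp' n = (1 + γ) * (2 * Real.log n) := by
      show (2 * (n : ℝ) - 1) * ((1 + γ) * (2 * Real.log n) / (2 * n - 1)) = _
      rw [mul_div_cancel₀ _ hnpos.ne']
    rw [e9]
  refine tendsto_order.mpr ⟨fun a ha => Eventually.of_forall fun n =>
    lt_of_lt_of_le ha (by positivity), fun a ha => ?_⟩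
  filter_upwards [hbad (a / 2) (by positivity),
    hB.eventually_lt_const (by positivity : (0 : ℝ) < a / 2)] with n h1 h2
  linarith

end Pool.Agent.Lib.LT
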