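import Pool.Agent.Lib.MP_6d56f7_co_LT.FarP
import Pool.Agent.Lib.MP_6d56f7_co_LT.SmRC

/-!
# The lattice of the small system off a small set contains almost all incidence vectors
-/

set_option autoImplicit false

namespace Pool.Agent.Lib.LT

open Finset Filter Pool.Agent.Lib.FR

private lemma fr_pm_nonneg : ∀ᶠ n : ℕ in atTop, 0 ≤ pm n := by
  filter_upwards [eventually_ge_atTop 1] with n hn
  have h1 : (1 : ℝ) ≤ n := by exact_mod_cast hn
  have h2 := Real.log_nonneg h1
  unfold pm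
  exact div_nonneg (by positivity) (by linarith)

private lemma fr_inc (n : ℕ) (i : J n) : ∑ e, |inc n i e| ≤ 3 := by
  classical
  have h1 : ∀ e, |inc n i e| = if i ∈ st n e then (1 : ℤ) else 0 := by
    intro e
    unfold inc
    split_ifs <;> simp
  rw [sum_congr rfl fun e _ => h1 e, sum_boole]
  exact_mod_cast els_card n i

/-- the numerical bound -/
private lemma fr_num {δ : ℝ} (hδ : 0 < δ) : ∀ᶠ n : ℕ in atTop,
    Real.exp (1 * √n) * ((1 / (1 / (4 * 10 ^ 7)) : ℝ) ^ (3 * Fintype.card (El n)) *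
      Real.exp (pm n * (1 / (4 * 10 ^ 7)) * Fintype.card (J n)) *
      Real.exp (-(pm n * (Fintype.card (J n) / (2 * 10 ^ 7))))) ≤ δ := by
  set K : ℝ := (9 * Real.log (4 * 10 ^ 7) + 2) * (4 * 10 ^ 7) / (99 / 50) with hK
  have h1 : Tendsto (fun n : ℕ => Real.exp (-(n : ℝ))) atTop (nhds 0) :=
    Real.tendsto_exp_neg_atTop_nhds_zero.comp tendsto_natCast_atTop_atTop
  filter_upwards [h1.eventually (ge_mem_nhds hδ), Asy.ev_log K, Asy.ev_nat 1] with n h3 h4 h5
  have hn1 : 1 ≤ n := by exact_mod_cast h5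
  have hN : (((2 * n - 1 : ℕ) : ℕ) : ℝ) = 2 * n - 1 := by
    rw [Nat.cast_sub (by omega)]
    push_cast
    ring
  have hN0 : (0 : ℝ) < 2 * n - 1 := by linarith
  have hE : ((3 * Fintype.card (El n) : ℕ) : ℝ) = 9 * (n * (2 * n - 1)) := by
    rw [El_card]
    push_cast
    rw [hN]
    ring
  have hJ : (Fintype.card (J n) : ℝ) = (2 * n - 1) * (n * (2 * n - 1)) := by
    rw [J_card]
    push_cast
    rw [hN]
  have hp : pm n * (Fintype.card (J n) : ℝ) = 99 / 50 * Real.log n * (n * (2 * n - 1)) := by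
    rw [hJ]
    unfold pm
    field_simp
  have h6 : (1 / (1 / (4 * 10 ^ 7)) : ℝ) ^ (3 * Fintype.card (El n)) =
      Real.exp (Real.log (4 * 10 ^ 7) * (9 * (n * (2 * n - 1)))) := by
    rw [one_div_one_div, ← hE, ← Real.rpow_natCast, Real.rpow_def_of_pos (by norm_num)]
  rw [h6, ← Real.exp_add, ← Real.exp_add, ← Real.exp_add]
  refine le_trans (Real.exp_le_exp.mpr ?_) h3
  have h7 : Real.log (4 * 10 ^ 7) * (9 * (n * (2 * n - 1))) +
      pm n * (1 / (4 * 10 ^ 7)) * Fintype.card (J n) +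
      -(pm n * (Fintype.card (J n) / (2 * 10 ^ 7))) =
      (n * (2 * n - 1)) * (9 * Real.log (4 * 10 ^ 7) -
        1 / (4 * 10 ^ 7) * (99 / 50 * Real.log n)) := by
    have e1 : pm n * (1 / (4 * 10 ^ 7)) * Fintype.card (J n) =
        1 / (4 * 10 ^ 7) * (pm n * Fintype.card (J n)) := by ring
    have e2 : pm n * ((Fintype.card (J n) : ℝ) / (2 * 10 ^ 7)) =
        1 / (2 * 10 ^ 7) * (pm n * Fintype.card (J n)) := by ring
    rw [e1, e2, hp]
    ring
  rw [h7]
  have h8 : 9 * Real.log (4 * 10 ^ 7) - 1 / (4 * 10 ^ 7) * (99 / 50 * Real.log n) ≤ -2 := by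
    have h9 : 9 * Real.log (4 * 10 ^ 7) + 2 = 1 / (4 * 10 ^ 7) * (99 / 50 * K) := by
      rw [hK]
      field_simp
    have h10 : 1 / (4 * 10 ^ 7) * (99 / 50 * K) ≤
        (1 / (4 * 10 ^ 7) * (99 / 50 * Real.log n) : ℝ) := by
      have : (99 / 50 * K : ℝ) ≤ 99 / 50 * Real.log n := by linarith
      exact mul_le_mul_of_nonneg_left this (by positivity)
    linarith
  have h11 : (n : ℝ) ≤ n * (2 * n - 1) := by nlinarith
  have h12 : √(n : ℝ) ≤ n := by
    rw [Real.sqrt_le_left (by linarith)]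
    nlinarith
  nlinarith

theorem whp_farR : Whp FarR := by
  classical
  intro δ hδ
  filter_upwards [fr_pm_nonneg, fr_num hδ, card_smR one_pos, Asy.ev_nat (2 * 10 ^ 7)]
    with n hpm hnum hRn hbig pp hpp1 hpp2
  have hq := qq_nonneg hpm hpp1 hpp2
  have hn0 : 2 * 10 ^ 7 ≤ n := by exact_mod_cast hbig
  let D : Finset (El n) → Finset (J n) → Finset (J n) := fun R B =>
    univ.filter (fun h => (∀ a ∈ R, h ∉ st n a) ∧ inc n h ∉ Lat n B)
  let Ok : Finset (El n) × Finset (J n) → Prop := fun p => SmR p.1 ∧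
    p.2.card ≤ 3 * Fintype.card (El n) ∧ Fintype.card (J n) < 2 * 10 ^ 7 * (D p.1 p.2).card
  let A : Finset (El n) × Finset (J n) → (J n → Fin 3) → Prop := fun p s =>
    (∀ i ∈ p.2, s i = 2) ∧ ∀ i ∈ D p.1 p.2, s i ≠ 2
  have hmem : ∀ (L : Finset (J n)) (i : J n), i ∈ L → inc n i ∈ Lat n L := fun L i hi =>
    AddSubgroup.subset_closure ⟨i, by exact_mod_cast hi, rfl⟩
  have hdis : ∀ R B, Disjoint B (D R B) := by
    intro R B
    rw [disjoint_left]
    intro i hi hi2
    exact (mem_filter.mp hi2).2.2 (hmem B i hi)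
  have h1 : Pr (qq (pm n) pp) (fun s : J n → Fin 3 => ¬ FarR n (sm s)) ≤
      Pr (qq (pm n) pp) (fun s : J n → Fin 3 =>
        ∃ p ∈ (univ : Finset (Finset (El n) × Finset (J n))).filter Ok, A p s) := by
    refine Pr_mono hq fun s hs => ?_
    unfold FarR at hs
    push Not at hs
    obtain ⟨R, hR, hs⟩ := hs
    obtain ⟨B, hBL, hBc, hBe⟩ := few_gen (inc n) (fr_inc n) (res R (sm s))
    have hLat : Lat n B = Lat n (res R (sm s)) := hBe
    unfold Far at hs
    rw [not_le, cnt_eq] at hs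
    refine ⟨(R, B), mem_filter.mpr ⟨mem_univ _, hR, hBc, ?_⟩, ?_, ?_⟩
    · change Fintype.card (J n) < 2 * 10 ^ 7 * (D R B).card
      have ht := card_touch R
      rw [cnt_eq] at ht
      have hsub : univ.filter (fun h => inc n h ∉ Lat n (res R (sm s))) ⊆
          D R B ∪ univ.filter (fun T : J n => ∃ a ∈ R, T ∈ st n a) := by
        intro h hh
        rw [mem_filter] at hh
        rw [mem_union, mem_filter, mem_filter]
        by_cases h3 : ∃ a ∈ R, h ∈ st n a
        · exact Or.inr ⟨mem_univ _, h3⟩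
        · push Not at h3
          exact Or.inl ⟨mem_univ _, h3, by rw [hLat]; exact hh.2⟩
      have hc1 := (card_le_card hsub).trans (card_union_le _ _)
      have hR1 : R.card ≤ n := by
        have : R.card ^ 8 ≤ n := hR
        exact (Nat.le_self_pow (by norm_num) _).trans this
      have hJc := J_card n
      have h5 : 2 * (10 ^ 7 * (R.card * (2 * n - 1))) ≤ Fintype.card (J n) := by
        rw [hJc]
        calc 2 * (10 ^ 7 * (R.card * (2 * n - 1))) = 2 * 10 ^ 7 * R.card * (2 * n - 1) := by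
              ring
          _ ≤ (2 * n - 1) * n * (2 * n - 1) := by
              refine Nat.mul_le_mul_right _ (Nat.mul_le_mul (by omega) hR1)
          _ = (2 * n - 1) * (n * (2 * n - 1)) := by ring
      omega
    · intro i hi
      exact (mem_filter.mp (mem_filter.mp (hBL hi)).1).2
    · intro i hi h2
      obtain ⟨h3, h4⟩ := (mem_filter.mp hi).2
      rw [hLat] at h4
      exact h4 (hmem _ i (mem_filter.mpr ⟨mem_filter.mpr ⟨mem_univ _, h2⟩, h3⟩))
  have h2 := Pr_exists hq ((univ : Finset (Finset (El n) × Finset (J n))).filter Ok) A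
  set E0 : ℝ := Real.exp (-(pm n * (Fintype.card (J n) / (2 * 10 ^ 7)))) with hE0
  have h3 : ∑ p ∈ (univ : Finset (Finset (El n) × Finset (J n))).filter Ok,
      Pr (qq (pm n) pp) (A p) ≤
      ∑ p ∈ (univ : Finset (Finset (El n) × Finset (J n))).filter Ok,
        pm n ^ p.2.card * E0 := by
    refine sum_le_sum fun p hp => ?_
    obtain ⟨-, -, hc⟩ := (mem_filter.mp hp).2
    refine (cyl hpm hpp1 hpp2 p.2 (D p.1 p.2) (hdis p.1 p.2)).trans ?_
    refine mul_le_mul_of_nonneg_left (Real.exp_le_exp.mpr ?_) (pow_nonneg hpm _)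
    have hc2 : (Fintype.card (J n) : ℝ) / (2 * 10 ^ 7) ≤ (D p.1 p.2).card := by
      rw [div_le_iff₀ (by positivity)]
      have : (Fintype.card (J n) : ℝ) < ((2 * 10 ^ 7 * (D p.1 p.2).card : ℕ) : ℝ) := by
        exact_mod_cast hc
      push_cast at this
      linarith
    have := mul_le_mul_of_nonneg_left hc2 hpm
    linarith
  set Rs : Finset (Finset (El n)) := univ.filter (fun R => SmR R) with hRs
  set Bs : Finset (Finset (J n)) := univ.filter (fun B => B.card ≤ 3 * Fintype.card (El n))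
    with hBs
  have h4 : ∑ p ∈ (univ : Finset (Finset (El n) × Finset (J n))).filter Ok,
      pm n ^ p.2.card * E0 ≤ ∑ p ∈ Rs ×ˢ Bs, pm n ^ p.2.card * E0 := by
    refine sum_le_sum_of_subset_of_nonneg ?_ fun p _ _ =>
      mul_nonneg (pow_nonneg hpm _) (Real.exp_pos _).le
    intro p hp
    obtain ⟨a1, a2, -⟩ := (mem_filter.mp hp).2
    exact mem_product.mpr ⟨mem_filter.mpr ⟨mem_univ _, a1⟩, mem_filter.mpr ⟨mem_univ _, a2⟩⟩
  have h5 : ∑ p ∈ Rs ×ˢ Bs, pm n ^ p.2.card * E0 =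
      (Rs.card : ℝ) * ((∑ B ∈ Bs, pm n ^ B.card) * E0) := by
    rw [sum_product]
    change ∑ R ∈ Rs, ∑ B ∈ Bs, pm n ^ B.card * E0 = _
    rw [← sum_mul]
    rw [sum_const, nsmul_eq_mul]
  have h6 := sum_small (E := J n) (y := 1 / (4 * 10 ^ 7)) hpm (by norm_num) (by norm_num)
    (3 * Fintype.card (El n))
  have h7 : (Rs.card : ℝ) ≤ Real.exp (1 * √n) := by
    refine le_trans (le_of_eq ?_) hRn
    rw [Nat.card_eq_fintype_card, Fintype.card_subtype]
  calc Pr (qq (pm n) pp) (fun s : J n → Fin 3 => ¬ FarR n (sm s))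
      ≤ (Rs.card : ℝ) * ((∑ B ∈ Bs, pm n ^ B.card) * E0) := by
        rw [← h5]
        exact h1.trans (h2.trans (h3.trans h4))
    _ ≤ Real.exp (1 * √n) * ((1 / (1 / (4 * 10 ^ 7)) : ℝ) ^ (3 * Fintype.card (El n)) *
      Real.exp (pm n * (1 / (4 * 10 ^ 7)) * Fintype.card (J n)) * E0) := by
        refine mul_le_mul h7 (mul_le_mul_of_nonneg_right h6 (Real.exp_pos _).le) ?_
          (Real.exp_pos _).le
        exact mul_nonneg (sum_nonneg fun B _ => pow_nonneg hpm _) (Real.exp_pos _).le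
    _ ≤ δ := hnum

end Pool.Agent.Lib.LT
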