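import Pool.Agent.Lib.MP_6d56f7_co_LT.InCP
import Pool.Agent.Lib.MP_6d56f7_co_LT.SmRC

/-!
# Edges of the colour classes inside large sets, off a small set
-/

set_option autoImplicit false

namespace Pool.Agent.Lib.LT

open Finset Filter Pool.Agent.Lib.FR

/-- the pairs of the colour `i.1` whose edge lies inside `i.2` -/
private def dd (n : ℕ) (i : Fin (2 * n - 1) × Finset (Fin (2 * n))) : Finset (J n) :=
  univ.filter (fun T : J n => T.1 = i.1 ∧ T.2.1 ∈ i.2.offDiag.image (fun p => s(p.1, p.2)))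

private theorem dd_card (n : ℕ) (i : Fin (2 * n - 1) × Finset (Fin (2 * n))) :
    i.2.card.choose 2 ≤ (dd n i).card := by
  have h1 : (i.2.offDiag.image (fun p : Fin (2 * n) × Fin (2 * n) => s(p.1, p.2))).card =
      i.2.card.choose 2 := Sym2.card_image_offDiag i.2
  rw [← h1]
  have h2 : i.2.offDiag.image (fun p : Fin (2 * n) × Fin (2 * n) => s(p.1, p.2)) ⊆
      (dd n i).image (fun T : J n => T.2.1) := by
    intro e he
    have he' := he
    rw [mem_image] at he
    obtain ⟨p, hp, rfl⟩ := he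
    rw [mem_offDiag] at hp
    have hd : ¬ (s(p.1, p.2) : Sym2 (Fin (2 * n))).IsDiag := by
      rw [Sym2.mk_isDiag_iff]
      exact hp.2.2
    rw [mem_image]
    refine ⟨(i.1, ⟨s(p.1, p.2), hd⟩), ?_, rfl⟩
    unfold dd
    rw [mem_filter]
    exact ⟨mem_univ _, rfl, he'⟩
  exact (card_le_card h2).trans card_image_le

private theorem dd_le (n : ℕ) (L : Finset (J n)) (c : Fin (2 * n - 1))
    (U : Finset (Fin (2 * n))) : (L ∩ dd n (c, U)).card ≤
      cnt (fun p : Fin (2 * n) × Fin (2 * n) => tr L p.1 p.2 c ∧ p.1 ∈ U ∧ p.2 ∈ U) := by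
  classical
  rw [cnt_eq]
  refine card_le_card_of_injOn (fun T => Quot.out T.2.1) ?_ ?_
  · intro T hT
    rw [mem_coe, mem_inter] at hT
    obtain ⟨hL, hD⟩ := hT
    unfold dd at hD
    rw [mem_filter] at hD
    obtain ⟨-, hc, hD⟩ := hD
    obtain ⟨c', ⟨e, he⟩⟩ := T
    simp only at hc hD ⊢
    subst hc
    have hq : (s((Quot.out e).1, (Quot.out e).2) : Sym2 (Fin (2 * n))) = e := Quot.out_eq e
    generalize hp : Quot.out e = p at hq ⊢
    subst hq
    rw [mem_image] at hD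
    obtain ⟨r, hr, hrp⟩ := hD
    rw [mem_offDiag] at hr
    rw [mem_coe, mem_filter]
    refine ⟨mem_univ _, ⟨he, hL⟩, ?_⟩
    rw [Sym2.eq_iff] at hrp
    rcases hrp with ⟨h1, h2⟩ | ⟨h1, h2⟩
    · rw [← h1, ← h2]
      exact ⟨hr.1, hr.2.1⟩
    · rw [← h1, ← h2]
      exact ⟨hr.2.1, hr.1⟩
  · intro T hT T' hT' h
    rw [mem_coe, mem_inter] at hT hT'
    have h1 := hT.2
    have h2 := hT'.2
    unfold dd at h1 h2
    rw [mem_filter] at h1 h2
    have h3 : T.2.1 = T'.2.1 := by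
      rw [← Quot.out_eq T.2.1, ← Quot.out_eq T'.2.1]
      exact congrArg _ h
    exact Prod.ext (h1.2.1.trans h2.2.1.symm) (Subtype.ext h3)

private theorem dd_card_real {n : ℕ} (hn : 5 ≤ n)
    (i : Fin (2 * n - 1) × Finset (Fin (2 * n))) (hi : 2 * n - 1 ≤ 3 * i.2.card) :
    1 / 10 * (n : ℝ) ^ 2 ≤ ((dd n i).card : ℝ) := by
  have h1 : (5 : ℝ) ≤ n := by exact_mod_cast hn
  have h2 := dd_card n i
  have h3 : ((i.2.card.choose 2 : ℕ) : ℝ) ≤ ((dd n i).card : ℝ) := by exact_mod_cast h2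
  rw [Nat.cast_choose_two] at h3
  have h4 : 2 * (n : ℝ) - 1 ≤ 3 * (i.2.card : ℝ) := by
    have h5 : 2 * n ≤ 3 * i.2.card + 1 := by omega
    have h6 : (2 : ℝ) * n ≤ 3 * (i.2.card : ℝ) + 1 := by exact_mod_cast h5
    linarith
  have h5 : (2 * (n : ℝ) - 1) / 3 * ((2 * (n : ℝ) - 1) / 3 - 1) ≤
      (i.2.card : ℝ) * ((i.2.card : ℝ) - 1) :=
    mul_le_mul (by linarith) (by linarith) (by linarith) (by positivity)
  nlinarith [h3, h5, h1]

private theorem smR_small {n : ℕ} (hn : 100 ≤ n) (R : Finset (El n)) (hR : SmR R) :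
    40 * R.card ≤ n := by
  by_contra hc
  rw [not_le] at hc
  have h1 : n ^ 8 < (40 * R.card) ^ 8 := Nat.pow_lt_pow_left hc (by norm_num)
  have h2 : (40 * R.card) ^ 8 ≤ 40 ^ 8 * n := by
    rw [mul_pow]
    exact Nat.mul_le_mul_left _ hR
  have h3 : n ^ 8 < 40 ^ 8 * n := h1.trans_le h2
  have h4 : 40 ^ 8 * n ≤ n ^ 7 * n :=
    Nat.mul_le_mul_right _ (le_trans (by norm_num) (Nat.pow_le_pow_left hn 7))
  have h5 : n ^ 7 * n = n ^ 8 := by ring
  omega

theorem whp_inCR : Whp InCR := by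
  classical
  have h := chernoff 5 (1 / 20) (by norm_num)
    (fun n => (Fin (2 * n - 1) × Finset (Fin (2 * n))) × {R : Finset (El n) // SmR R})
    (fun n i => 2 * n - 1 ≤ 3 * i.1.2.card)
    (fun n i => (dd n i.1).filter (fun T => ∀ a ∈ i.2.1, T ∉ st n a)) ?_ ?_
  · intro δ hδ
    filter_upwards [h δ hδ, eventually_ge_atTop 1] with n h1 h2 pp h4 h5
    have h6 : (1 : ℝ) ≤ n := by exact_mod_cast h2
    have h7 := Real.log_nonneg h6
    have h3 : 0 ≤ pm n := by
      unfold pm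
      exact div_nonneg (by positivity) (by linarith)
    refine (Pr_mono (qq_nonneg h3 h4 h5) fun s hs hp => hs ?_).trans (h1 pp h4 h5)
    intro R hR c U hU
    refine (hp ((c, U), ⟨R, hR⟩) hU).trans_le ((card_le_card ?_).trans
      (dd_le n (res R (sm s)) c U))
    intro T hT
    rw [mem_inter, mem_filter] at hT
    rw [mem_inter]
    refine ⟨?_, hT.2.1⟩
    unfold res
    rw [mem_filter]
    exact ⟨hT.1, hT.2.2⟩
  · filter_upwards [eventually_ge_atTop 1, card_smR (ε := 1) one_pos] with n hn hR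
    have h1 : (1 : ℝ) ≤ n := by exact_mod_cast hn
    rw [Fintype.card_prod, Fintype.card_prod, Fintype.card_fin, Fintype.card_finset,
      Fintype.card_fin]
    have h2 : ((2 * n - 1 : ℕ) : ℝ) ≤ Real.exp (2 * n) := by
      have h3 := Real.add_one_le_exp (2 * (n : ℝ))
      rw [Nat.cast_sub (by omega)]
      push_cast
      linarith
    have h4 : ((2 ^ (2 * n) : ℕ) : ℝ) ≤ Real.exp (2 * n) := by
      have h5 : (2 : ℝ) ≤ Real.exp 1 := by
        have := Real.add_one_le_exp (1 : ℝ)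
        linarith
      push_cast
      calc (2 : ℝ) ^ (2 * n) ≤ Real.exp 1 ^ (2 * n) := pow_le_pow_left₀ (by norm_num) h5 _
        _ = Real.exp (2 * n) := by
          rw [← Real.exp_nat_mul]
          push_cast
          ring_nf
    have h6 : (Fintype.card {R : Finset (El n) // SmR R} : ℝ) ≤ Real.exp n := by
      rw [← Nat.card_eq_fintype_card]
      refine hR.trans (Real.exp_le_exp.mpr ?_)
      rw [one_mul]
      calc √(n : ℝ) ≤ √((n : ℝ) ^ 2) := Real.sqrt_le_sqrt (by nlinarith)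
        _ = n := Real.sqrt_sq (by linarith)
    rw [Nat.cast_mul, Nat.cast_mul]
    calc ((2 * n - 1 : ℕ) : ℝ) * ((2 ^ (2 * n) : ℕ) : ℝ) *
          (Fintype.card {R : Finset (El n) // SmR R} : ℝ)
        ≤ Real.exp (2 * n) * Real.exp (2 * n) * Real.exp n :=
          mul_le_mul (mul_le_mul h2 h4 (by positivity) (Real.exp_pos _).le) h6 (by positivity)
            (by positivity)
      _ = Real.exp (5 * n) := by
          rw [← Real.exp_add, ← Real.exp_add]
          ring_nf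
  · filter_upwards [eventually_ge_atTop 100] with n hn i hi
    have h1 : (100 : ℝ) ≤ n := by exact_mod_cast hn
    have h2 := dd_card_real (by omega) i.1 hi
    have h3 := smR_small hn i.2.1 i.2.2
    have h4 := card_touch i.2.1
    rw [cnt_eq] at h4
    have h5 : (dd n i.1).card ≤ ((dd n i.1).filter (fun T => ∀ a ∈ i.2.1, T ∉ st n a)).card +
        (univ.filter (fun T : J n => ∃ a ∈ i.2.1, T ∈ st n a)).card := by
      refine (card_le_card ?_).trans (card_union_le _ _)
      intro T hT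
      rw [mem_union, mem_filter, mem_filter]
      by_cases hc : ∃ a ∈ i.2.1, T ∈ st n a
      · exact Or.inr ⟨mem_univ _, hc⟩
      · refine Or.inl ⟨hT, fun a ha hTa => hc ⟨a, ha, hTa⟩⟩
    have h6 : (dd n i.1).card ≤ ((dd n i.1).filter (fun T => ∀ a ∈ i.2.1, T ∉ st n a)).card +
        i.2.1.card * (2 * n - 1) := h5.trans (Nat.add_le_add_left h4 _)
    have h7 : i.2.1.card * (2 * n - 1) ≤ i.2.1.card * (2 * n) :=
      Nat.mul_le_mul_left _ (Nat.sub_le _ _)
    have h8 : ((dd n i.1).card : ℝ) ≤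
        (((dd n i.1).filter (fun T => ∀ a ∈ i.2.1, T ∉ st n a)).card : ℝ) +
        (i.2.1.card : ℝ) * (2 * n) := by
      exact_mod_cast h6.trans (Nat.add_le_add_left h7 _)
    have h9 : 40 * (i.2.1.card : ℝ) ≤ n := by exact_mod_cast h3
    have h10 : (i.2.1.card : ℝ) * (2 * n) ≤ 1 / 20 * (n : ℝ) ^ 2 := by nlinarith
    linarith

end Pool.Agent.Lib.LT
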