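import Pool.Agent.Lib.MP_6d56f7_co_LT.HitR
import Pool.Agent.Lib.MP_6d56f7_co_LT.Sums
import Pool.Agent.Lib.MP_6d56f7_co_FR.Asy

/-!
# Light sets which are not small, off a small set
-/

set_option autoImplicit false

namespace Pool.Agent.Lib.LT

open Finset Filter Pool.Agent.Lib.FR

private lemma l0r_pm_nonneg : ∀ᶠ n : ℕ in atTop, 0 ≤ pm n := by
  filter_upwards [eventually_ge_atTop 1] with n hn
  have h1 : (1 : ℝ) ≤ n := by exact_mod_cast hn
  have h2 := Real.log_nonneg h1
  unfold pm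
  exact div_nonneg (by positivity) (by linarith)

/-- the numerical bound -/
private lemma l0r_num {δ : ℝ} (hδ : 0 < δ) : ∀ᶠ n : ℕ in atTop,
    Real.exp (1 / 10 * √n) * ((1 / 2) ^ (Nat.sqrt n) *
      Real.exp (Real.exp (-(188 / 100 * Real.log n)) * 2 * Fintype.card (El n))) ≤ δ := by
  have h2 := Asy.base 120 0 (by norm_num : (0 : ℝ) < 38 / 100)
  have h3 : ∀ᶠ n : ℕ in atTop, 10 / 3 * (1 / 2 - Real.log δ) ≤ √(n : ℝ) :=
    (Real.tendsto_sqrt_atTop.comp tendsto_natCast_atTop_atTop).eventually_ge_atTop _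
  filter_upwards [h3, h2.eventually (ge_mem_nhds zero_lt_one), Asy.ev_nat 1] with n h3 h4 h5
  rw [pow_zero, mul_one] at h4
  have hn2 : (n : ℝ) ^ 2 = Real.exp (2 * Real.log n) := by
    conv_lhs => rw [Asy.nat_eq h5]
    rw [← Real.exp_nat_mul]
    norm_num
  have hsq : √(n : ℝ) = Real.exp (Real.log n / 2) := by
    rw [Real.exp_half, Real.exp_log (by linarith)]
  have hcard : (Fintype.card (El n) : ℝ) ≤ 6 * (n : ℝ) ^ 2 := by
    rw [El_card]
    have : 3 * (n * (2 * n - 1)) ≤ 6 * n ^ 2 := by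
      have h6 : n * (2 * n - 1) ≤ n * (2 * n) := Nat.mul_le_mul_left n (Nat.sub_le _ _)
      nlinarith
    exact_mod_cast this
  have h6 : Real.exp (-(188 / 100 * Real.log n)) * 2 * Fintype.card (El n) ≤ 1 / 10 * √n := by
    calc Real.exp (-(188 / 100 * Real.log n)) * 2 * Fintype.card (El n)
        ≤ Real.exp (-(188 / 100 * Real.log n)) * 2 * (6 * Real.exp (2 * Real.log n)) := by
          rw [← hn2]
          exact mul_le_mul_of_nonneg_left hcard (by positivity)
      _ = 1 / 10 * (120 * Real.exp (-(38 / 100 * Real.log n))) * Real.exp (Real.log n / 2) := by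
          have e1 : Real.exp (-(188 / 100 * Real.log n)) * Real.exp (2 * Real.log n) =
              Real.exp (-(38 / 100 * Real.log n)) * Real.exp (Real.log n / 2) := by
            rw [← Real.exp_add, ← Real.exp_add]
            congr 1
            ring
          calc Real.exp (-(188 / 100 * Real.log n)) * 2 * (6 * Real.exp (2 * Real.log n))
              = 12 * (Real.exp (-(188 / 100 * Real.log n)) * Real.exp (2 * Real.log n)) := by
                ring
            _ = _ := by rw [e1]; ring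
      _ ≤ 1 / 10 * 1 * √n := by
          rw [← hsq]
          refine mul_le_mul_of_nonneg_right ?_ (Real.sqrt_nonneg _)
          linarith
      _ = 1 / 10 * √n := by ring
  have h7 : ((1 : ℝ) / 2) ^ (Nat.sqrt n) ≤ Real.exp (1 / 2 - 1 / 2 * √n) := by
    have e1 : (1 : ℝ) / 2 ≤ Real.exp (-(1 / 2)) := by
      have := Real.add_one_le_exp (-(1 / 2 : ℝ))
      linarith
    have e2 : √(n : ℝ) ≤ Nat.sqrt n + 1 := Real.real_sqrt_le_nat_sqrt_succ
    calc ((1 : ℝ) / 2) ^ (Nat.sqrt n) ≤ Real.exp (-(1 / 2)) ^ (Nat.sqrt n) :=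
          pow_le_pow_left₀ (by norm_num) e1 _
      _ = Real.exp (Nat.sqrt n * -(1 / 2)) := (Real.exp_nat_mul _ _).symm
      _ ≤ Real.exp (1 / 2 - 1 / 2 * √n) := by
          refine Real.exp_le_exp.mpr ?_
          linarith
  calc Real.exp (1 / 10 * √n) * ((1 / 2) ^ (Nat.sqrt n) *
      Real.exp (Real.exp (-(188 / 100 * Real.log n)) * 2 * Fintype.card (El n)))
      ≤ Real.exp (1 / 10 * √n) * (Real.exp (1 / 2 - 1 / 2 * √n) *
          Real.exp (1 / 10 * √n)) := by
        refine mul_le_mul_of_nonneg_left ?_ (Real.exp_pos _).le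
        exact mul_le_mul h7 (Real.exp_le_exp.mpr h6) (Real.exp_pos _).le (Real.exp_pos _).le
    _ = Real.exp (1 / 2 - 3 / 10 * √n) := by
        rw [← Real.exp_add, ← Real.exp_add]
        congr 1
        ring
    _ ≤ Real.exp (Real.log δ) := by
        refine Real.exp_le_exp.mpr ?_
        linarith
    _ = δ := Real.exp_log hδ

theorem whp_light0R : Whp Light0R := by
  classical
  intro δ hδ
  filter_upwards [hit_lightR, l0r_pm_nonneg, l0r_num hδ,
    card_smR (by norm_num : (0 : ℝ) < 1 / 10), eventually_ge_atTop 1]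
    with n hhit hpm hnum hcard hn pp hpp1 hpp2
  have hq := qq_nonneg hpm hpp1 hpp2
  set q : ℝ := Real.exp (-(188 / 100 * Real.log n)) with hqdef
  have hq0 : 0 ≤ q := (Real.exp_pos _).le
  rw [Nat.card_eq_fintype_card] at hcard
  let I := {R : Finset (El n) // SmR R} × Finset (El n)
  let Ok : I → Prop := fun k => LightS k.2 ∧ n ≤ k.2.card ^ 2
  let A : I → (J n → Fin 3) → Prop := fun k s =>
    ¬ ∃ T ∈ res k.1.1 (sm s), offT ∅ ∅ T ∧ One k.2 T
  have h1 : Pr (qq (pm n) pp) (fun s : J n → Fin 3 => ¬ Light0R n (sm s)) ≤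
      Pr (qq (pm n) pp) (fun s : J n → Fin 3 => ∃ k ∈ (univ : Finset I).filter Ok, A k s) := by
    refine Pr_mono hq fun s hs => ?_
    unfold Light0R at hs
    push Not at hs
    obtain ⟨R, hR, S, a1, a2, a3, a4⟩ := hs
    refine ⟨(⟨R, hR⟩, S), mem_filter.mpr ⟨mem_univ _, a1, a3⟩, ?_⟩
    rintro ⟨T, hT, -, hT2⟩
    exact a4 T hT hT2
  have h2 := Pr_exists hq ((univ : Finset I).filter Ok) A
  have h3 : ∑ k ∈ (univ : Finset I).filter Ok, Pr (qq (pm n) pp) (A k) ≤
      ∑ k ∈ (univ : Finset I).filter Ok, q ^ k.2.card := by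
    refine sum_le_sum fun k hk => ?_
    obtain ⟨a1, a2⟩ := (mem_filter.mp hk).2
    refine hhit pp hpp1 hpp2 k.1.1 ∅ ∅ k.2 k.1.2 (by simp) (by simp) a1 ?_ a2
    intro a _
    exact ⟨fun v hv => absurd hv (notMem_empty v), fun c hc => absurd hc (notMem_empty c)⟩
  have h4 : ∑ k ∈ (univ : Finset I).filter Ok, q ^ k.2.card ≤
      ∑ k ∈ (univ : Finset {R : Finset (El n) // SmR R}) ×ˢ
        ((univ : Finset (Finset (El n))).filter (fun S => Nat.sqrt n ≤ S.card)),
        q ^ k.2.card := by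
    refine sum_le_sum_of_subset_of_nonneg ?_ fun k _ _ => pow_nonneg hq0 _
    intro k hk
    obtain ⟨-, a5⟩ := (mem_filter.mp hk).2
    rw [mem_product, mem_filter]
    refine ⟨mem_univ _, mem_univ _, ?_⟩
    by_contra hlt
    push Not at hlt
    have e1 : k.2.card ^ 2 < Nat.sqrt n ^ 2 := Nat.pow_lt_pow_left hlt (by norm_num)
    have e2 := Nat.sqrt_le' n
    omega
  have h5 : ∑ k ∈ (univ : Finset {R : Finset (El n) // SmR R}) ×ˢ
        ((univ : Finset (Finset (El n))).filter (fun S => Nat.sqrt n ≤ S.card)),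
        q ^ k.2.card = (Fintype.card {R : Finset (El n) // SmR R} : ℝ) *
        ∑ S ∈ (univ : Finset (Finset (El n))).filter (fun S => Nat.sqrt n ≤ S.card),
          q ^ S.card := by
    rw [sum_product]
    dsimp only
    rw [sum_const, card_univ, nsmul_eq_mul]
  have h6 := sum_big (E := El n) hq0 (by norm_num : (1 : ℝ) ≤ 2) (Nat.sqrt n)
  calc Pr (qq (pm n) pp) (fun s : J n → Fin 3 => ¬ Light0R n (sm s))
      ≤ ∑ k ∈ (univ : Finset I).filter Ok, q ^ k.2.card := h1.trans (h2.trans h3)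
    _ ≤ (Fintype.card {R : Finset (El n) // SmR R} : ℝ) *
        ∑ S ∈ (univ : Finset (Finset (El n))).filter (fun S => Nat.sqrt n ≤ S.card),
          q ^ S.card := h4.trans h5.le
    _ ≤ Real.exp (1 / 10 * √n) * ((1 / 2) ^ (Nat.sqrt n) *
        Real.exp (q * 2 * Fintype.card (El n))) :=
        mul_le_mul hcard h6 (sum_nonneg fun S _ => pow_nonneg hq0 _) (Real.exp_pos _).le
    _ ≤ δ := hnum

end Pool.Agent.Lib.LT
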