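import Pool.Agent.Lib.MP_6d56f7_co_LT.HitR
import Pool.Agent.Lib.MP_6d56f7_co_LT.Sums
import Pool.Agent.Lib.MP_6d56f7_co_FR.Asy

/-!
# Large light sets, off a small set
-/

set_option autoImplicit false

namespace Pool.Agent.Lib.LT

open Finset Filter Pool.Agent.Lib.FR

private lemma lhr_pm_nonneg : ∀ᶠ n : ℕ in atTop, 0 ≤ pm n := by
  filter_upwards [eventually_ge_atTop 1] with n hn
  have h1 : (1 : ℝ) ≤ n := by exact_mod_cast hn
  have h2 := Real.log_nonneg h1
  unfold pm
  exact div_nonneg (by positivity) (by linarith)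

/-- the numerical bound -/
private lemma lhr_num {δ : ℝ} (hδ : 0 < δ) : ∀ᶠ n : ℕ in atTop,
    Real.exp (1 * √n) * ((2 : ℝ) ^ (2 * n) * 2 ^ (2 * n - 1) * ((1 / Real.exp 20) ^ (n / 2) *
      Real.exp (Real.exp (-(188 / 100 * Real.log n)) * Real.exp 20 * Fintype.card (El n))))
      ≤ δ := by
  have h1 : Tendsto (fun n : ℕ => Real.exp (10 - (n : ℝ))) atTop (nhds 0) := by
    refine Real.tendsto_exp_atBot.comp ?_
    have h := tendsto_natCast_atTop_atTop (R := ℝ)
    exact tendsto_atBot_add_const_left _ _ (tendsto_neg_atTop_atBot.comp h)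
  have h2 := Asy.base (6 * Real.exp 20) 0 (by norm_num : (0 : ℝ) < 88 / 100)
  filter_upwards [h1.eventually (ge_mem_nhds hδ), h2.eventually (ge_mem_nhds zero_lt_one),
    Asy.ev_nat 1] with n h3 h4 h5
  rw [pow_zero, mul_one] at h4
  have hn2 : (n : ℝ) ^ 2 = Real.exp (2 * Real.log n) := by
    conv_lhs => rw [Asy.nat_eq h5]
    rw [← Real.exp_nat_mul]
    norm_num
  have hcard : (Fintype.card (El n) : ℝ) ≤ 6 * (n : ℝ) ^ 2 := by
    rw [El_card]
    have : 3 * (n * (2 * n - 1)) ≤ 6 * n ^ 2 := by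
      have h6 : n * (2 * n - 1) ≤ n * (2 * n) := Nat.mul_le_mul_left n (Nat.sub_le _ _)
      nlinarith
    exact_mod_cast this
  have h6 : Real.exp (-(188 / 100 * Real.log n)) * Real.exp 20 * Fintype.card (El n) ≤ n := by
    calc Real.exp (-(188 / 100 * Real.log n)) * Real.exp 20 * Fintype.card (El n)
        ≤ Real.exp (-(188 / 100 * Real.log n)) * Real.exp 20 *
            (6 * Real.exp (2 * Real.log n)) := by
          rw [← hn2]
          exact mul_le_mul_of_nonneg_left hcard (by positivity)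
      _ = 6 * Real.exp 20 * Real.exp (-(88 / 100 * Real.log n)) * Real.exp (Real.log n) := by
          have e1 : Real.exp (-(188 / 100 * Real.log n)) * Real.exp (2 * Real.log n) =
              Real.exp (-(88 / 100 * Real.log n)) * Real.exp (Real.log n) := by
            rw [← Real.exp_add, ← Real.exp_add]
            congr 1
            ring
          calc Real.exp (-(188 / 100 * Real.log n)) * Real.exp 20 *
                (6 * Real.exp (2 * Real.log n))
              = 6 * Real.exp 20 *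
                (Real.exp (-(188 / 100 * Real.log n)) * Real.exp (2 * Real.log n)) := by
                ring
            _ = _ := by rw [e1]; ring
      _ ≤ 1 * n := by
          rw [← Asy.nat_eq h5]
          exact mul_le_mul_of_nonneg_right h4 (by positivity)
      _ = n := one_mul _
  have h7 : (2 : ℝ) ^ (2 * n) * 2 ^ (2 * n - 1) ≤ Real.exp (3 * n) := by
    calc (2 : ℝ) ^ (2 * n) * 2 ^ (2 * n - 1) ≤ 2 ^ (2 * n) * 2 ^ (2 * n) := by
          refine mul_le_mul_of_nonneg_left ?_ (by positivity)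
          exact pow_le_pow_right₀ (by norm_num) (Nat.sub_le _ _)
      _ = 16 ^ n := by
          rw [← pow_add, show 2 * n + 2 * n = 4 * n by ring, pow_mul]
          norm_num
      _ ≤ (Real.exp 3) ^ n := by
          refine pow_le_pow_left₀ (by norm_num) ?_ n
          have e3 : Real.exp 3 = Real.exp 1 ^ 3 := by
            rw [← Real.exp_nat_mul]
            norm_num
          rw [e3]
          have h8 : (2.7 : ℝ) ^ 3 ≤ Real.exp 1 ^ 3 :=
            pow_le_pow_left₀ (by norm_num) (by linarith [Real.exp_one_gt_d9]) 3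
          norm_num at h8 ⊢
          linarith
      _ = Real.exp (3 * n) := by
          rw [← Real.exp_nat_mul]
          ring_nf
  have h8 : √(n : ℝ) ≤ n := by
    rw [Real.sqrt_le_left (by linarith)]
    nlinarith
  have h9 : (1 / Real.exp 20) ^ (n / 2) ≤ Real.exp (10 - 10 * n) := by
    rw [one_div, ← Real.exp_neg, ← Real.exp_nat_mul]
    refine Real.exp_le_exp.mpr ?_
    have h10 : n ≤ 2 * (n / 2) + 1 := by omega
    have h11 : (n : ℝ) ≤ 2 * ((n / 2 : ℕ) : ℝ) + 1 := by exact_mod_cast h10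
    linarith
  calc Real.exp (1 * √n) * ((2 : ℝ) ^ (2 * n) * 2 ^ (2 * n - 1) *
      ((1 / Real.exp 20) ^ (n / 2) *
      Real.exp (Real.exp (-(188 / 100 * Real.log n)) * Real.exp 20 * Fintype.card (El n))))
      ≤ Real.exp n * (Real.exp (3 * n) * (Real.exp (10 - 10 * n) * Real.exp n)) := by
        refine mul_le_mul (Real.exp_le_exp.mpr (by linarith)) ?_ (by positivity) (by positivity)
        refine mul_le_mul h7 ?_ (by positivity) (by positivity)
        exact mul_le_mul h9 (Real.exp_le_exp.mpr h6) (by positivity) (by positivity)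
    _ = Real.exp (10 - 5 * n) := by
        rw [← Real.exp_add, ← Real.exp_add, ← Real.exp_add]
        congr 1
        ring
    _ ≤ Real.exp (10 - (n : ℝ)) := Real.exp_le_exp.mpr (by linarith)
    _ ≤ δ := h3

theorem whp_lightHR : Whp LightHR := by
  classical
  intro δ hδ
  filter_upwards [hit_lightR, lhr_pm_nonneg, lhr_num hδ, eventually_ge_atTop 8,
    card_smR one_pos] with n hhit hpm hnum hn hcR pp hpp1 hpp2
  have hq := qq_nonneg hpm hpp1 hpp2
  set q : ℝ := Real.exp (-(188 / 100 * Real.log n)) with hqdef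
  have hq0 : 0 ≤ q := (Real.exp_pos _).le
  let I := {R : Finset (El n) // SmR R} × Finset (Fin (2 * n)) × Finset (Fin (2 * n - 1)) ×
    Finset (El n)
  let Ok : I → Prop := fun k => 250 * k.2.1.card ≤ 2 * n - 1 ∧
    250 * k.2.2.1.card ≤ 2 * n - 1 ∧ LightS k.2.2.2 ∧ (∀ a ∈ k.2.2.2, offE k.2.1 k.2.2.1 a) ∧
    2 * n - 1 ≤ 4 * k.2.2.2.card
  let A : I → (J n → Fin 3) → Prop := fun k s =>
    ¬ ∃ T ∈ res k.1.1 (sm s), offT k.2.1 k.2.2.1 T ∧ One k.2.2.2 T
  have h1 : Pr (qq (pm n) pp) (fun s : J n → Fin 3 => ¬ LightHR n (sm s)) ≤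
      Pr (qq (pm n) pp) (fun s : J n → Fin 3 => ∃ k ∈ (univ : Finset I).filter Ok, A k s) := by
    refine Pr_mono hq fun s hs => ?_
    unfold LightHR at hs
    push Not at hs
    obtain ⟨R, hR, HV, HC, S, a1, a2, a3, a4, -, a5, a6⟩ := hs
    refine ⟨(⟨R, hR⟩, HV, HC, S), mem_filter.mpr ⟨mem_univ _, a1, a2, a3, a4, a5⟩, ?_⟩
    rintro ⟨T, hT, hT1, hT2⟩
    exact a6 T hT hT1 hT2
  have h2 := Pr_exists hq ((univ : Finset I).filter Ok) A
  have h3 : ∑ k ∈ (univ : Finset I).filter Ok, Pr (qq (pm n) pp) (A k) ≤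
      ∑ k ∈ (univ : Finset I).filter Ok, q ^ k.2.2.2.card := by
    refine sum_le_sum fun k hk => ?_
    obtain ⟨a1, a2, a3, a4, a5⟩ := (mem_filter.mp hk).2
    refine hhit pp hpp1 hpp2 k.1.1 k.2.1 k.2.2.1 k.2.2.2 k.1.2 a1 a2 a3 a4 ?_
    have b1 : n ≤ 2 * k.2.2.2.card := by omega
    have b2 : 4 ≤ k.2.2.2.card := by omega
    nlinarith
  have h4 : ∑ k ∈ (univ : Finset I).filter Ok, q ^ k.2.2.2.card ≤
      ∑ k ∈ (univ : Finset {R : Finset (El n) // SmR R}) ×ˢ
        ((univ : Finset (Finset (Fin (2 * n)))) ×ˢ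
        ((univ : Finset (Finset (Fin (2 * n - 1)))) ×ˢ
          (univ : Finset (Finset (El n))).filter (fun S => n / 2 ≤ S.card))),
        q ^ k.2.2.2.card := by
    refine sum_le_sum_of_subset_of_nonneg ?_ fun k _ _ => pow_nonneg hq0 _
    intro k hk
    obtain ⟨-, -, -, -, a5⟩ := (mem_filter.mp hk).2
    rw [mem_product, mem_product, mem_product, mem_filter]
    exact ⟨mem_univ _, mem_univ _, mem_univ _, mem_univ _, by omega⟩
  have h5 : ∑ k ∈ (univ : Finset {R : Finset (El n) // SmR R}) ×ˢ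
        ((univ : Finset (Finset (Fin (2 * n)))) ×ˢ
        ((univ : Finset (Finset (Fin (2 * n - 1)))) ×ˢ
          (univ : Finset (Finset (El n))).filter (fun S => n / 2 ≤ S.card))),
        q ^ k.2.2.2.card =
      (Nat.card {R : Finset (El n) // SmR R} : ℝ) * ((2 : ℝ) ^ (2 * n) * 2 ^ (2 * n - 1) *
        ∑ S ∈ (univ : Finset (Finset (El n))).filter (fun S => n / 2 ≤ S.card),
          q ^ S.card) := by
    rw [sum_product]
    simp only [sum_product]
    rw [sum_const, sum_const, sum_const, card_univ, card_univ, card_univ, Fintype.card_finset,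
      Fintype.card_finset, Fintype.card_fin, Fintype.card_fin, nsmul_eq_mul, nsmul_eq_mul,
      nsmul_eq_mul, Nat.card_eq_fintype_card]
    push_cast
    ring
  have h6 := sum_big (E := El n) hq0 (Real.one_le_exp (by norm_num : (0 : ℝ) ≤ 20)) (n / 2)
  calc Pr (qq (pm n) pp) (fun s : J n → Fin 3 => ¬ LightHR n (sm s))
      ≤ ∑ k ∈ (univ : Finset I).filter Ok, q ^ k.2.2.2.card := h1.trans (h2.trans h3)
    _ ≤ (Nat.card {R : Finset (El n) // SmR R} : ℝ) * ((2 : ℝ) ^ (2 * n) * 2 ^ (2 * n - 1) *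
        ∑ S ∈ (univ : Finset (Finset (El n))).filter (fun S => n / 2 ≤ S.card),
          q ^ S.card) := h4.trans h5.le
    _ ≤ Real.exp (1 * √n) * ((2 : ℝ) ^ (2 * n) * 2 ^ (2 * n - 1) *
        ((1 / Real.exp 20) ^ (n / 2) *
          Real.exp (q * Real.exp 20 * Fintype.card (El n)))) := by
        refine mul_le_mul hcR ?_ ?_ (Real.exp_pos _).le
        · exact mul_le_mul_of_nonneg_left h6 (by positivity)
        · exact mul_nonneg (by positivity) (sum_nonneg fun S _ => pow_nonneg hq0 _)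
    _ ≤ δ := hnum

end Pool.Agent.Lib.LT
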