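import Pool.Agent.Lib.MP_6d56f7_co_LT.HitT
import Pool.Agent.Lib.MP_6d56f7_co_LT.FarRP
import Pool.Agent.Lib.MP_6d56f7_co_LT.CutVRP
import Pool.Agent.Lib.MP_6d56f7_co_LT.CutCRP
import Pool.Agent.Lib.MP_6d56f7_co_LT.InCRP
import Pool.Agent.Lib.MP_6d56f7_co_LT.LightHRP
import Pool.Agent.Lib.MP_6d56f7_co_LT.Light0RP

/-!
# The good event in random orderings
-/

set_option autoImplicit false

namespace Pool.Agent.Lib.LT

open Finset Filter Topology Pool.Agent.Lib.FR

theorem whp_goodR : Whp GoodR := by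
  refine (((((whp_farR.and whp_cutVR).and whp_cutCR).and whp_inCR).and whp_lightHR).and
    whp_light0R).mono ?_
  rintro n L ⟨⟨⟨⟨⟨h1, h2⟩, h3⟩, h4⟩, h5⟩, h6⟩
  exact ⟨h1, h2, h3, h4, h5, h6⟩

/-- number of elements of an initial segment of an ordering -/
private theorem card_lt {n m : ℕ} (σ : J n ≃ Fin m) (t : ℕ) (ht : t ≤ m) :
    (univ.filter (fun j => (σ j : ℕ) < t)).card = t := by
  have h1 : (univ.filter (fun j => (σ j : ℕ) < t)).image (fun j => (σ j : ℕ)) = range t := by
    ext k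
    rw [mem_image, mem_range]
    constructor
    · rintro ⟨j, hj, rfl⟩
      exact (mem_filter.mp hj).2
    · intro hk
      refine ⟨σ.symm ⟨k, by omega⟩, mem_filter.mpr ⟨mem_univ _, ?_⟩, ?_⟩
      · rw [Equiv.apply_symm_apply]
        exact hk
      · simp
  have h2 : Function.Injective (fun j => (σ j : ℕ)) := fun i j h => σ.injective (Fin.ext h)
  have h3 := congrArg Finset.card h1
  rwa [card_image_of_injective _ h2, card_range] at h3

/-- the small system is an initial segment of every compatible ordering -/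
theorem sm_eq_seg {n m : ℕ} (σ : J n ≃ Fin m) (s : J n → Fin 3) (hc : Compat σ s) :
    sm s = seg σ (sm s).card := by
  have hlt : ∀ i j, s i = 2 → s j ≠ 2 → (σ i : ℕ) < (σ j : ℕ) := by
    intro i j hi hj
    have h1 : s j < s i := by
      rw [hi]
      revert hj
      generalize s j = a
      fin_cases a <;> simp
    exact hc i j h1
  ext j
  unfold seg
  rw [mem_filter]
  constructor
  · intro hj
    refine ⟨mem_univ _, ?_⟩
    have hj2 : s j = 2 := (mem_filter.mp hj).2
    have h1 : univ.filter (fun i => (σ i : ℕ) < (σ j : ℕ) + 1) ⊆ sm s := by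
      intro i hi
      have h2 := (mem_filter.mp hi).2
      refine mem_filter.mpr ⟨mem_univ _, ?_⟩
      by_contra h3
      have h4 := hlt j i hj2 h3
      omega
    have h2 := card_le_card h1
    rw [card_lt σ _ (σ j).2] at h2
    exact h2
  · rintro ⟨-, hj⟩
    by_contra h3
    have hj2 : s j ≠ 2 := fun h => h3 (mem_filter.mpr ⟨mem_univ _, h⟩)
    have h1 : sm s ⊆ univ.filter (fun i => (σ i : ℕ) < (σ j : ℕ)) := by
      intro i hi
      exact mem_filter.mpr ⟨mem_univ _, hlt i j (mem_filter.mp hi).2 hj2⟩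
    have h2 := card_le_card h1
    rw [card_lt σ _ (σ j).2.le] at h2
    omega

/-- the share of the orderings without a good initial segment tends to zero -/
theorem evL_share : Tendsto (fun n : ℕ =>
    (Set.ncard {σ : J n ≃ Fin (Nat.card (J n)) | ¬ EvL σ} : ℝ) /
      (Nat.card (J n ≃ Fin (Nat.card (J n))) : ℝ)) atTop (𝓝 0) := by
  have hpm1 : ∀ᶠ n : ℕ in atTop, pm n ≤ 1 := by
    filter_upwards [Asy.ev_ratio (by norm_num : (0 : ℝ) < 1 / 2), Asy.ev_nat 1] with n h1 h2
    have h3 : (0 : ℝ) < 2 * n - 1 := by linarith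
    unfold pm
    rw [div_le_one h3]
    linarith
  have hbad : ∀ δ : ℝ, 0 < δ → ∀ᶠ n : ℕ in atTop,
      (Set.ncard {σ : J n ≃ Fin (Nat.card (J n)) | ¬ EvL σ} : ℝ) /
        (Nat.card (J n ≃ Fin (Nat.card (J n))) : ℝ) ≤ δ := by
    intro δ hδ
    filter_upwards [(whp_goodR.and whp_notcov) δ hδ, pm_nonneg, hpm1] with n h1 h2 h3
    have hq := qq_nonneg h2 le_rfl h3
    refine (mix (J := J n) (m := Nat.card (J n)) Nat.card_eq_fintype_card.symm
      (qq (pm n) (pm n)) hq (qq_sum _ _) (fun σ => ¬ EvL σ)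
      (fun s => ¬ (GoodR n (sm s) ∧ ¬ ∀ e : Edge (Fin (2 * n)), ∃ c : Fin (2 * n - 1),
        (c, e) ∈ sm s)) ?_).trans (h1 (pm n) le_rfl h3)
    intro σ s hc hb hg
    apply hb
    refine ⟨(sm s).card, ?_, ?_⟩
    · intro hcov
      rw [← sm_eq_seg σ s hc] at hcov
      apply hg.2
      intro e
      obtain ⟨T, hT, hTe⟩ := hcov (Sum.inl e)
      have h4 : T.2 = e := mem_st_inl.mp hTe
      refine ⟨T.1, ?_⟩
      rw [← h4]
      exact hT
    · rw [← sm_eq_seg σ s hc]
      exact hg.1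
  rw [Metric.tendsto_nhds]
  intro κ hκ
  filter_upwards [hbad (κ / 2) (by positivity)] with n h1
  have h0 : (0 : ℝ) ≤ (Set.ncard {σ : J n ≃ Fin (Nat.card (J n)) | ¬ EvL σ} : ℝ) /
      (Nat.card (J n ≃ Fin (Nat.card (J n))) : ℝ) := by positivity
  rw [Real.dist_eq, sub_zero, abs_of_nonneg h0]
  linarith

end Pool.Agent.Lib.LT
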