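import Pool.Agent.Lib.MP_6d56f7_co_LT.QDefs

/-!
# A link from two trees
-/

set_option autoImplicit false

namespace Pool.Agent.Lib.LT

open Finset Pool.Agent.Lib.FR

variable {V : Type} [Fintype V] [DecidableEq V]

omit [Fintype V] [DecidableEq V] in
private theorem qlink_symm {E : Finset (Edge V)} {u v : V} (h : ad E u v) : ad E v u := by
  obtain ⟨hd, hm⟩ := h
  have e : (s(v, u) : Sym2 V) = s(u, v) := Sym2.eq_swap
  refine ⟨by rw [e]; exact hd, ?_⟩
  have e2 : (⟨s(v, u), by rw [e]; exact hd⟩ : Edge V) = ⟨s(u, v), hd⟩ := Subtype.ext e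
  rw [e2]
  exact hm

/-- the alternate edges of a path, starting with the edge number `o` -/
private theorem qlink_pm {E : Finset (Edge V)} (N o k : ℕ) (x : ℕ → V) (X : Finset V)
    (hinj : ∀ i < N, ∀ j < N, x i = x j → i = j)
    (hadj : ∀ i < k, ad E (x (2 * i + o)) (x (2 * i + o + 1)))
    (hN : 2 * k + o ≤ N)
    (hX : ∀ w, w ∈ X ↔ ∃ j, o ≤ j ∧ j < 2 * k + o ∧ w = x j) :
    ∃ M, PMon E X M := by
  classical
  refine ⟨E.filter (fun e => ∃ i < k, e.1 = s(x (2 * i + o), x (2 * i + o + 1))), ?_, ?_, ?_⟩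
  · exact filter_subset _ _
  · intro w hw
    obtain ⟨j, hj1, hj2, rfl⟩ := (hX w).1 hw
    obtain ⟨i, hi⟩ : ∃ i, i = (j - o) / 2 := ⟨_, rfl⟩
    have hik : i < k := by omega
    have hji : j = 2 * i + o ∨ j = 2 * i + o + 1 := by omega
    obtain ⟨hd, hm⟩ := hadj i hik
    refine ⟨⟨s(x (2 * i + o), x (2 * i + o + 1)), hd⟩, ⟨?_, ?_⟩, ?_⟩
    · rw [mem_filter]
      exact ⟨hm, i, hik, rfl⟩
    · simp only [Sym2.mem_iff]
      rcases hji with h | h
      · left
        rw [h]
      · right
        rw [h]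
    · rintro e ⟨he, hwe⟩
      rw [mem_filter] at he
      obtain ⟨_, i', hi', he'⟩ := he
      apply Subtype.ext
      simp only
      rw [he'] at hwe ⊢
      rw [Sym2.mem_iff] at hwe
      have : i' = i := by
        rcases hwe with h | h
        · have := hinj j (by omega) (2 * i' + o) (by omega) h
          omega
        · have := hinj j (by omega) (2 * i' + o + 1) (by omega) h
          omega
      rw [this]
  · intro e he w hw
    rw [mem_filter] at he
    obtain ⟨_, i, hi, he'⟩ := he
    rw [he', Sym2.mem_iff] at hw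
    rw [hX]
    rcases hw with h | h
    · exact ⟨2 * i + o, by omega, by omega, h⟩
    · exact ⟨2 * i + o + 1, by omega, by omega, h⟩

private theorem qlink_path {E : Finset (Edge V)} (k : ℕ) (x : ℕ → V)
    (hinj : ∀ i < 2 * k + 2, ∀ j < 2 * k + 2, x i = x j → i = j)
    (hadj : ∀ i < 2 * k + 1, ad E (x i) (x (i + 1))) :
    ∃ Me Mo, Link E (x 0) (x (2 * k + 1)) ((range (2 * k + 2)).image x) Me Mo := by
  obtain ⟨Me, hMe⟩ := qlink_pm (E := E) (2 * k + 2) 0 (k + 1) x ((range (2 * k + 2)).image x)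
    hinj (fun i hi => hadj (2 * i + 0) (by omega)) (by omega) (by
      intro w
      rw [mem_image]
      constructor
      · rintro ⟨j, hj, rfl⟩
        rw [mem_range] at hj
        exact ⟨j, by omega, by omega, rfl⟩
      · rintro ⟨j, _, hj, rfl⟩
        exact ⟨j, mem_range.2 (by omega), rfl⟩)
  obtain ⟨Mo, hMo⟩ := qlink_pm (E := E) (2 * k + 2) 1 k x
    ((((range (2 * k + 2)).image x).erase (x 0)).erase (x (2 * k + 1)))
    hinj (fun i hi => hadj (2 * i + 1) (by omega)) (by omega) (by
      intro w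
      rw [mem_erase, mem_erase, mem_image]
      constructor
      · rintro ⟨h1, h2, j, hj, rfl⟩
        rw [mem_range] at hj
        refine ⟨j, ?_, ?_, rfl⟩
        · by_contra hcon
          exact h2 (by rw [show j = 0 by omega])
        · by_contra hcon
          exact h1 (by rw [show j = 2 * k + 1 by omega])
      · rintro ⟨j, hj1, hj, rfl⟩
        refine ⟨?_, ?_, j, mem_range.2 (by omega), rfl⟩
        · intro h
          have := hinj _ (by omega) _ (by omega) h
          omega
        · intro h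
          have := hinj _ (by omega) _ (by omega) h
          omega)
  refine ⟨Me, Mo, ?_, ?_, ?_, hMe, hMo⟩
  · intro h
    have := hinj _ (by omega) _ (by omega) h
    omega
  · exact mem_image_of_mem x (mem_range.2 (by omega))
  · exact mem_image_of_mem x (mem_range.2 (by omega))

omit [Fintype V] [DecidableEq V] in
private theorem qlink_chain {E : Finset (Edge V)} {h : ℕ} {A : ℕ → Finset V}
    (hst : ∀ i < h, ∀ y ∈ A (i + 1), ∃ x ∈ A i, ad E x y) (i : ℕ) (hi : i ≤ h) :
    ∀ y ∈ A i, ∃ p : ℕ → V, p i = y ∧ (∀ j ≤ i, p j ∈ A j) ∧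
      ∀ j < i, ad E (p j) (p (j + 1)) := by
  induction i with
  | zero =>
    intro y hy
    refine ⟨fun _ => y, rfl, ?_, ?_⟩
    · intro j hj
      rw [Nat.le_zero.1 hj]
      exact hy
    · intro j hj
      exact absurd hj (Nat.not_lt_zero _)
  | succ i ih =>
    intro y hy
    obtain ⟨x, hx, hxy⟩ := hst i (by omega) y hy
    obtain ⟨p, hp1, hp2, hp3⟩ := ih (by omega) x hx
    refine ⟨fun j => if j ≤ i then p j else y, ?_, ?_, ?_⟩
    · simp
    · intro j hj
      by_cases hji : j ≤ i
      · simp only [hji, if_true]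
        exact hp2 j hji
      · have : j = i + 1 := by omega
        subst this
        simpa using hy
    · intro j hj
      by_cases hji : j + 1 ≤ i
      · have h1 : j ≤ i := by omega
        simp only [hji, h1, if_true]
        exact hp3 j (by omega)
      · have h1 : j = i := by omega
        subst h1
        simpa [hp1] using hxy

/-- an edge between the last levels gives a path of odd length, hence a link -/
theorem link_of_levels {E : Finset (Edge V)} {u v : V} {h : ℕ} {A B : ℕ → Finset V}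
    (hl : Levels E u v h A B) (he : ∃ a ∈ A h, ∃ b ∈ B h, ad E a b) :
    ∃ X Me Mo, (∀ x ∈ X, ∃ i ≤ h, x ∈ A i ∨ x ∈ B i) ∧ X.card ≤ 2 * h + 2 ∧
      Link E u v X Me Mo := by
  obtain ⟨a, ha, b, hb, hab⟩ := he
  obtain ⟨p, hp1, hp2, hp3⟩ := qlink_chain hl.stepA h le_rfl a ha
  obtain ⟨q, hq1, hq2, hq3⟩ := qlink_chain hl.stepB h le_rfl b hb
  obtain ⟨x, hx⟩ : ∃ x : ℕ → V, x = fun i => if i ≤ h then p i else q (2 * h + 1 - i) :=
    ⟨_, rfl⟩
  have hxa : ∀ i ≤ h, x i = p i := by
    intro i hi
    rw [hx]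
    simp only [hi, if_true]
  have hxb : ∀ i, h < i → x i = q (2 * h + 1 - i) := by
    intro i hi
    rw [hx]
    simp only [not_le.2 hi, if_false]
  have hinj : ∀ i < 2 * h + 2, ∀ j < 2 * h + 2, x i = x j → i = j := by
    intro i hi j hj hij
    by_cases h1 : i ≤ h
    · by_cases h2 : j ≤ h
      · rw [hxa i h1, hxa j h2] at hij
        by_contra hne
        exact (disjoint_left.1 (hl.disA i h1 j h2 hne)) (hp2 i h1) (hij ▸ hp2 j h2)
      · exfalso
        rw [hxa i h1, hxb j (by omega)] at hij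
        exact (disjoint_left.1 (hl.disAB i h1 (2 * h + 1 - j) (by omega))) (hp2 i h1)
          (hij ▸ hq2 (2 * h + 1 - j) (by omega))
    · by_cases h2 : j ≤ h
      · exfalso
        rw [hxb i (by omega), hxa j h2] at hij
        exact (disjoint_left.1 (hl.disAB j h2 (2 * h + 1 - i) (by omega))) (hp2 j h2)
          (hij ▸ hq2 (2 * h + 1 - i) (by omega))
      · rw [hxb i (by omega), hxb j (by omega)] at hij
        by_contra hne
        exact (disjoint_left.1 (hl.disB (2 * h + 1 - i) (by omega) (2 * h + 1 - j) (by omega)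
          (by omega))) (hq2 (2 * h + 1 - i) (by omega))
          (hij ▸ hq2 (2 * h + 1 - j) (by omega))
  have hadj : ∀ i < 2 * h + 1, ad E (x i) (x (i + 1)) := by
    intro i hi
    rcases lt_trichotomy i h with h1 | h1 | h1
    · rw [hxa i h1.le, hxa (i + 1) h1]
      exact hp3 i h1
    · rw [hxa i h1.le, hxb (i + 1) (by omega), h1, hp1,
        show 2 * h + 1 - (h + 1) = h by omega, hq1]
      exact hab
    · rw [hxb i h1, hxb (i + 1) (by omega)]
      have h2 := hq3 (2 * h + 1 - (i + 1)) (by omega)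
      rw [show 2 * h + 1 - (i + 1) + 1 = 2 * h + 1 - i by omega] at h2
      exact qlink_symm h2
  obtain ⟨Me, Mo, hlink⟩ := qlink_path h x hinj hadj
  have hu : x 0 = u := by
    rw [hxa 0 (Nat.zero_le _)]
    have := hp2 0 (Nat.zero_le _)
    rw [hl.rootA, mem_singleton] at this
    exact this
  have hv : x (2 * h + 1) = v := by
    rw [hxb (2 * h + 1) (by omega), Nat.sub_self]
    have := hq2 0 (Nat.zero_le _)
    rw [hl.rootB, mem_singleton] at this
    exact this
  rw [hu, hv] at hlink
  refine ⟨(range (2 * h + 2)).image x, Me, Mo, ?_, ?_, hlink⟩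
  · intro y hy
    rw [mem_image] at hy
    obtain ⟨i, hi, rfl⟩ := hy
    rw [mem_range] at hi
    by_cases h1 : i ≤ h
    · exact ⟨i, h1, Or.inl (by rw [hxa i h1]; exact hp2 i h1)⟩
    · refine ⟨2 * h + 1 - i, by omega, Or.inr ?_⟩
      rw [hxb i (by omega)]
      exact hq2 _ (by omega)
  · refine card_image_le.trans ?_
    rw [card_range]

end Pool.Agent.Lib.LT
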