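import Pool.Agent.Lib.MP_6d56f7_co_LT.QGrow
import Pool.Agent.Lib.MP_6d56f7_co_LT.QLink

/-!
# Short links in sparse graphs of large minimum degree
-/

set_option autoImplicit false

namespace Pool.Agent.Lib.LT

open Finset Pool.Agent.Lib.FR

variable {V : Type} [Fintype V] [DecidableEq V]

theorem linked_of {E : Finset (Edge V)} {U : Finset V} {D s τ : ℝ} {m h b : ℕ} (hm : 2 ≤ m)
    (hD : 0 < D) (hs0 : 0 < s) (hmin : ∀ v ∈ U, D ≤ (eN E {v} U : ℝ))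
    (hsp : ∀ A Y : Finset V, A ⊆ U → Y ⊆ U → (A.card : ℝ) ≤ τ →
      (eN E A Y : ℝ) ≤ s * (A.card + Y.card))
    (hs : 8 * m * s ≤ D) (hb : 4 * (b : ℝ) ≤ D) (hτ1 : 1 ≤ τ) (hτ : (m : ℝ) ^ h ≤ m * τ)
    (hτ' : τ ≤ (m : ℝ) ^ h)
    (hcon : ∀ A B : Finset V, A ⊆ U → B ⊆ U → Disjoint A B → τ ≤ A.card → τ ≤ B.card →
      ∃ a ∈ A, ∃ b ∈ B, ad E a b) :
    Linked E U (2 * h + 2) b := by
  intro Y hY u hu v hv huv huY hvY
  obtain ⟨A, B, hl, hA⟩ := grow hm hD hs0 hmin hsp hs hb hτ1 hτ Y hY hu hv huv huY hvY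
  have h1 := hA h le_rfl
  have h2 : τ ≤ ((A h).card : ℝ) := by
    rw [h1.1]
    exact_mod_cast hτ'
  have h3 : τ ≤ ((B h).card : ℝ) := by
    rw [h1.2.1]
    exact_mod_cast hτ'
  obtain ⟨X, Me, Mo, hX, hc, hL⟩ := link_of_levels hl
    (hcon _ _ h1.2.2.1 h1.2.2.2.1 (hl.disAB h le_rfl h le_rfl) h2 h3)
  refine ⟨X, Me, Mo, ?_, ?_, hc, hL⟩
  · intro x hx
    obtain ⟨i, hi, hx | hx⟩ := hX x hx
    · exact (hA i hi).2.2.1 hx
    · exact (hA i hi).2.2.2.1 hx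
  · rw [Finset.disjoint_left]
    intro x hx
    obtain ⟨i, hi, hx | hx⟩ := hX x hx
    · exact (Finset.disjoint_left.mp (hA i hi).2.2.2.2.1) hx
    · exact (Finset.disjoint_left.mp (hA i hi).2.2.2.2.2) hx

end Pool.Agent.Lib.LT
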