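import Pool.Agent.Lib.MP_6d56f7_co_LT.QRig

/-!
# Rigidity of the perfect matchings, second part
-/

set_option autoImplicit false

namespace Pool.Agent.Lib.LT

open Finset Pool.Agent.Lib.FR

variable {V : Type} [Fintype V] [DecidableEq V]

/-- the two ends of a link can be exchanged -/
private theorem link_symm {E : Finset (Edge V)} {u v : V} {X : Finset V}
    {Me Mo : Finset (Edge V)} (h : Link E u v X Me Mo) : Link E v u X Me Mo := by
  refine ⟨h.ne.symm, h.memv, h.memu, h.even, ?_⟩
  rw [Finset.erase_right_comm]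
  exact h.odd

/-- an edge is a link -/
private theorem link_edge {E : Finset (Edge V)} {u v : V} (h : ¬ (s(u, v) : Sym2 V).IsDiag)
    (he : (⟨s(u, v), h⟩ : Edge V) ∈ E) :
    Link E u v {u, v} {(⟨s(u, v), h⟩ : Edge V)} ∅ := by
  have huv : u ≠ v := fun h' => h (Sym2.mk_isDiag_iff.mpr h')
  refine ⟨huv, by simp, by simp, ⟨?_, ?_, ?_⟩, ⟨?_, ?_, ?_⟩⟩
  · intro e h1
    rw [mem_singleton] at h1
    rw [h1]
    exact he
  · intro x hx
    refine ⟨⟨s(u, v), h⟩, ⟨mem_singleton_self _, ?_⟩, ?_⟩
    · rw [mem_insert, mem_singleton] at hx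
      exact Sym2.mem_iff.mpr hx
    · rintro e ⟨h1, -⟩
      exact mem_singleton.mp h1
  · intro e h1 x hx
    rw [mem_singleton] at h1
    rw [h1] at hx
    rw [mem_insert, mem_singleton]
    exact Sym2.mem_iff.mp hx
  · exact empty_subset _
  · intro x hx
    rw [mem_erase, mem_erase, mem_insert, mem_singleton] at hx
    rcases hx.2.2 with h1 | h1
    · exact absurd h1 hx.2.1
    · exact absurd h1 hx.1
  · intro e h1
    exact absurd h1 (notMem_empty e)

/-- short links and robust perfect matchings imply rigidity -/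
theorem rigid_of {E : Finset (Edge V)} {U : Finset V} {l : ℕ} (hU : 4 ≤ U.card)
    (hL : Linked E U l (4 * l)) (hR : Robust E U (4 * l)) : Rigid E U := by
  classical
  intro A _ hdiv f hf
  -- the function `S`
  have hex : ∀ u v : V, ∃ a : A, ∀ X Me Mo, X ⊆ U → X.card ≤ l → Link E u v X Me Mo →
      a = alt f Me Mo := by
    intro u v
    by_cases h : ∃ X Me Mo, X ⊆ U ∧ X.card ≤ l ∧ Link E u v X Me Mo
    · obtain ⟨X, Me, Mo, hX, hc, hl⟩ := h
      exact ⟨alt f Me Mo, fun X' Me' Mo' hX' hc' hl' => alt_eq hL hR hf hX hX' hc hc' hl hl'⟩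
    · exact ⟨0, fun X Me Mo hX hc hl => absurd ⟨X, Me, Mo, hX, hc, hl⟩ h⟩
  choose S hS using hex
  -- links exist
  have hlink : ∀ u ∈ U, ∀ v ∈ U, u ≠ v →
      ∃ X Me Mo, X ⊆ U ∧ X.card ≤ l ∧ Link E u v X Me Mo := by
    intro u hu v hv huv
    obtain ⟨X, Me, Mo, hX, -, hc, hl⟩ := hL ∅ (by simp) u hu v hv huv (notMem_empty _)
      (notMem_empty _)
    exact ⟨X, Me, Mo, hX, hc, hl⟩
  have hsymm : ∀ u ∈ U, ∀ v ∈ U, u ≠ v → S u v = S v u := by
    intro u hu v hv huv
    obtain ⟨X, Me, Mo, hX, hc, hl⟩ := hlink u hu v hv huv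
    rw [hS u v X Me Mo hX hc hl, hS v u X Me Mo hX hc (link_symm hl)]
  have hedge : ∀ (u v : V) (h : ¬ (s(u, v) : Sym2 V).IsDiag), (⟨s(u, v), h⟩ : Edge V) ∈ E →
      u ∈ U → v ∈ U → f ⟨s(u, v), h⟩ = S u v := by
    intro u v h he hu hv
    have huv : u ≠ v := fun h' => h (Sym2.mk_isDiag_iff.mpr h')
    obtain ⟨X, Me, Mo, hX, hc, hl⟩ := hlink u hu v hv huv
    have h1 : ({u, v} : Finset V) ⊆ X := by
      intro x hx
      rw [mem_insert, mem_singleton] at hx
      rcases hx with rfl | rfl
      · exact hl.memu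
      · exact hl.memv
    have h2 := (card_le_card h1).trans hc
    rw [hS u v {u, v} _ _ (h1.trans hX) h2 (link_edge h he)]
    unfold alt
    rw [sum_singleton, sum_empty, sub_zero]
  -- the root
  have hne : U.Nonempty := by
    rw [← card_pos]
    omega
  obtain ⟨r, hr⟩ := hne
  have hk : ∀ a ∈ U, ∀ b ∈ U, ∀ c ∈ U, r ≠ a → r ≠ b → r ≠ c → a ≠ b → a ≠ c → b ≠ c →
      S r a + S r b - S a b = S r b + S r c - S b c := by
    intro a ha b hb c hc hra hrb hrc hab hac hbc
    have h1 := alt_four hL hR hf S (fun u v X Me Mo hX hcX hl => hS u v X Me Mo hX hcX hl)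
      hr ha hb hc hra hrb hrc hab hac hbc
    rw [hsymm c hc r hr hrc.symm] at h1
    have h2 : S r a + S r b - S a b - (S r b + S r c - S b c) =
        S r a - S a b + S b c - S r c := by abel
    rw [← sub_eq_zero, h2]
    exact h1
  -- two other vertices
  obtain ⟨p, hp⟩ : ∃ p, p ∈ U.erase r := by
    have h1 : 0 < (U.erase r).card := by
      rw [card_erase_of_mem hr]
      omega
    exact card_pos.mp h1
  have hpU := mem_of_mem_erase hp
  have hpr : r ≠ p := (ne_of_mem_erase hp).symm
  obtain ⟨q, hq⟩ : ∃ q, q ∈ (U.erase r).erase p := by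
    have h1 : 0 < ((U.erase r).erase p).card := by
      rw [card_erase_of_mem hp, card_erase_of_mem hr]
      omega
    exact card_pos.mp h1
  have hqU := mem_of_mem_erase (mem_of_mem_erase hq)
  have hqr : r ≠ q := (ne_of_mem_erase (mem_of_mem_erase hq)).symm
  have hqp : p ≠ q := (ne_of_mem_erase hq).symm
  have hks : ∀ a ∈ U, ∀ b ∈ U, a ≠ b → S r a + S r b - S a b = S r b + S r a - S b a := by
    intro a ha b hb hab
    rw [hsymm a ha b hb hab, add_comm]
  have hconst : ∀ a ∈ U, ∀ b ∈ U, r ≠ a → r ≠ b → a ≠ b →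
      S r a + S r b - S a b = S r p + S r q - S p q := by
    intro a ha b hb hra hrb hab
    by_cases hap : a = p
    · subst hap
      by_cases hbq : b = q
      · rw [hbq]
      · rw [hks a ha b hb hab, hk b hb a ha q hqU hrb hra hqr hab.symm hbq hqp]
    · by_cases hbp : b = p
      · subst hbp
        by_cases haq : a = q
        · subst haq
          exact hks a ha b hb hab
        · exact hk a ha b hb q hqU hra hrb hqr hab haq hqp
      · by_cases hbq : b = q
        · subst hbq
          rw [hk a ha b hb p hpU hra hrb hpr hab hap hbp, hks b hb p hpU hbp]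
        · rw [hk a ha b hb p hpU hra hrb hpr hab hap hbp,
            hk b hb p hpU q hqU hrb hpr hqr hbp hbq hqp]
  obtain ⟨t, ht⟩ := hdiv (S r p + S r q - S p q)
  refine ⟨fun v => if v = r then t else S r v - t, fun u v h he hu hv => ?_⟩
  have huv : u ≠ v := fun h' => h (Sym2.mk_isDiag_iff.mpr h')
  rw [hedge u v h he hu hv]
  show S u v = (if u = r then t else S r u - t) + (if v = r then t else S r v - t)
  by_cases hur : u = r
  · subst hur
    rw [if_pos rfl, if_neg (fun h' => huv h'.symm)]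
    abel
  · by_cases hvr : v = r
    · subst hvr
      rw [if_neg hur, if_pos rfl, hsymm u hu v hv huv]
      abel
    · rw [if_neg hur, if_neg hvr]
      have h1 := hconst u hu v hv (fun h' => hur h'.symm) (fun h' => hvr h'.symm) huv
      rw [← ht] at h1
      have h2 : S u v = S r u + S r v - (S r u + S r v - S u v) := by abel
      rw [h2, h1]
      abel

end Pool.Agent.Lib.LT
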