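import Pool.Agent.Lib.MP_6d56f7_co_LT.QBar

/-!
# Perfect matchings after deleting a small set
-/

set_option autoImplicit false

namespace Pool.Agent.Lib.LT

open Finset Pool.Agent.Lib.FR

variable {V : Type} [Fintype V] [DecidableEq V]

omit [Fintype V] [DecidableEq V] in
private theorem ad_symm' {E : Finset (Edge V)} {u v : V} (h : ad E u v) : ad E v u := by
  obtain ⟨h1, h2⟩ := h
  have e : (s(v, u) : Sym2 V) = s(u, v) := Sym2.eq_swap
  refine ⟨by rw [e]; exact h1, ?_⟩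
  have e2 : (⟨s(v, u), by rw [e]; exact h1⟩ : Edge V) = ⟨s(u, v), h1⟩ := Subtype.ext e
  rw [e2]
  exact h2

omit [Fintype V] [DecidableEq V] in
open Classical in
private theorem eN_real (E : Finset (Edge V)) (A Y : Finset V) :
    (eN E A Y : ℝ) = ∑ a ∈ A, ∑ y ∈ Y, if ad E a y then (1 : ℝ) else 0 := by
  unfold eN
  rw [card_filter, sum_product]
  push_cast
  rfl

omit [Fintype V] [DecidableEq V] in
open Classical in
private theorem ite_nn (E : Finset (Edge V)) (a y : V) :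
    (0 : ℝ) ≤ if ad E a y then (1 : ℝ) else 0 := by
  split_ifs
  · exact zero_le_one
  · exact le_refl _

private theorem eN_sum (E : Finset (Edge V)) (A Y : Finset V) :
    (eN E A Y : ℝ) = ∑ a ∈ A, (eN E {a} Y : ℝ) := by
  classical
  rw [eN_real]
  refine sum_congr rfl (fun a _ => ?_)
  rw [eN_real, sum_singleton]

private theorem eN_comm (E : Finset (Edge V)) (A Y : Finset V) :
    (eN E A Y : ℝ) = eN E Y A := by
  classical
  rw [eN_real, eN_real, sum_comm]
  refine sum_congr rfl (fun a _ => sum_congr rfl (fun b _ => ?_))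
  have h : ad E b a ↔ ad E a b := ⟨ad_symm', ad_symm'⟩
  simp only [h]

private theorem eN_mono (E : Finset (Edge V)) (A : Finset V) {Y Z : Finset V} (h : Y ⊆ Z) :
    (eN E A Y : ℝ) ≤ eN E A Z := by
  classical
  rw [eN_real, eN_real]
  exact sum_le_sum (fun a _ => sum_le_sum_of_subset_of_nonneg h (fun y _ _ => ite_nn E a y))

private theorem eN_mul (E : Finset (Edge V)) (A Y : Finset V) :
    (eN E A Y : ℝ) ≤ A.card * Y.card := by
  classical
  rw [eN_real]
  refine le_trans (sum_le_sum (fun a _ => ?_) : _ ≤ ∑ a ∈ A, (Y.card : ℝ)) ?_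
  · refine le_trans (sum_le_sum (fun y _ => ?_) : _ ≤ ∑ y ∈ Y, (1 : ℝ)) ?_
    · split_ifs
      · exact le_refl _
      · exact zero_le_one
    · rw [sum_const, nsmul_eq_mul, mul_one]
  · rw [sum_const, nsmul_eq_mul]

/-- the number of pairs between `A` and `Z` when all edges from `A` to `Z` go to `Y₁`, `Y₂` or
`Y₃` -/
private theorem eN_split (E : Finset (Edge V)) {A Z Y₁ Y₂ Y₃ : Finset V}
    (h : ∀ a ∈ A, ∀ z ∈ Z, ad E a z → z ∈ Y₁ ∨ z ∈ Y₂ ∨ z ∈ Y₃) :
    (eN E A Z : ℝ) ≤ eN E A Y₁ + eN E A Y₂ + eN E A Y₃ := by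
  classical
  rw [eN_real, eN_real, eN_real, eN_real, ← sum_add_distrib, ← sum_add_distrib]
  refine sum_le_sum (fun a ha => ?_)
  have h1 : ∑ z ∈ Z, (if ad E a z then (1 : ℝ) else 0) =
      ((Z.filter (fun z => ad E a z)).card : ℝ) := by
    rw [card_filter]
    push_cast
    rfl
  have h2 : ∀ Y : Finset V, ∑ z ∈ Y, (if ad E a z then (1 : ℝ) else 0) =
      ((Y.filter (fun z => ad E a z)).card : ℝ) := by
    intro Y
    rw [card_filter]
    push_cast
    rfl
  rw [h1, h2, h2, h2]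
  have h3 : (Z.filter (fun z => ad E a z)) ⊆ (Y₁.filter (fun z => ad E a z)) ∪
      (Y₂.filter (fun z => ad E a z)) ∪ (Y₃.filter (fun z => ad E a z)) := by
    intro z hz
    rw [mem_filter] at hz
    rw [mem_union, mem_union, mem_filter, mem_filter, mem_filter]
    rcases h a ha z hz.1 hz.2 with h | h | h
    · exact Or.inl (Or.inl ⟨h, hz.2⟩)
    · exact Or.inl (Or.inr ⟨h, hz.2⟩)
    · exact Or.inr ⟨h, hz.2⟩
  have h4 := card_le_card h3
  have h5 := card_union_le ((Y₁.filter (fun z => ad E a z)) ∪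
      (Y₂.filter (fun z => ad E a z))) (Y₃.filter (fun z => ad E a z))
  have h6 := card_union_le (Y₁.filter (fun z => ad E a z)) (Y₂.filter (fun z => ad E a z))
  exact_mod_cast h4.trans (h5.trans (by omega))

/-- the weights across a component and the barrier -/
private theorem key_le {E : Finset (Edge V)} {U : Finset V} (x : V → V → ℝ)
    (h0 : ∀ u v, 0 ≤ x u v) (hs : ∀ u v, x u v = x v u)
    (hE : ∀ u v, x u v ≠ 0 → u ∈ U ∧ v ∈ U ∧ ad E u v) (h1 : ∀ v ∈ U, ∑ u, x v u = 1)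
    (hcut : ∀ W : Finset V, W ⊆ U → Odd W.card → 3 ≤ W.card → W.card + 3 ≤ U.card →
      2 ≤ ∑ u ∈ W, ∑ v ∈ U \ W, x u v) (hU : Even U.card) {T' : Finset V} (hT : T' ⊆ U)
    {F : Finset (Finset V)} (hF2 : 2 ≤ F.card)
    (hF : ∀ C ∈ F, Odd C.card ∧ C ⊆ U \ T')
    (hcl : ∀ C ∈ F, ∀ x ∈ C, ∀ y ∈ U \ T', ad E x y → y ∈ C)
    (hdis : ∀ C ∈ F, ∀ C' ∈ F, C ≠ C' → Disjoint C C') :
    (F.card : ℝ) + ∑ u ∈ T', ∑ v ∈ T', x u v ≤ T'.card := by
  have hrow : ∀ u ∈ U, ∑ v ∈ U, x u v = 1 := by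
    intro u hu
    rw [← h1 u hu]
    refine sum_subset (subset_univ U) (fun v _ hv => ?_)
    by_contra h
    exact hv (hE u v h).2.1
  have hxx : ∀ v, x v v = 0 := by
    intro v
    by_contra h
    obtain ⟨h2, -⟩ := (hE v v h).2.2
    exact h2 (Sym2.mk_isDiag_iff.2 rfl)
  have hTC : ∀ C ∈ F, T' ⊆ U \ C := by
    intro C hC t ht
    rw [mem_sdiff]
    refine ⟨hT ht, fun h => ?_⟩
    exact (mem_sdiff.1 ((hF C hC).2 h)).2 ht
  have hxC : ∀ C ∈ F, ∑ u ∈ C, ∑ v ∈ U \ C, x u v = ∑ u ∈ C, ∑ v ∈ T', x u v := by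
    intro C hC
    refine sum_congr rfl (fun u hu => ?_)
    refine (sum_subset (hTC C hC) (fun v hv hv' => ?_)).symm
    by_contra h
    rw [mem_sdiff] at hv
    exact hv.2 (hcl C hC u hu v (mem_sdiff.2 ⟨hv.1, hv'⟩) (hE u v h).2.2)
  have hone : ∀ C ∈ F, C.card = 1 → ∑ u ∈ C, ∑ v ∈ U \ C, x u v = 1 := by
    intro C hC hc
    obtain ⟨v, rfl⟩ := card_eq_one.1 hc
    have hv : v ∈ U := (mem_sdiff.1 ((hF _ hC).2 (mem_singleton_self v))).1
    rw [sum_singleton]
    have h2 := hrow v hv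
    rw [← sum_sdiff (singleton_subset_iff.2 hv), sum_singleton, hxx, add_zero] at h2
    exact h2
  have hC1 : ∀ C ∈ F, 1 ≤ ∑ u ∈ C, ∑ v ∈ T', x u v := by
    intro C hC
    rw [← hxC C hC]
    by_cases hc : C.card = 1
    · rw [hone C hC hc]
    · have hodd := (hF C hC).1
      have hCU : C ⊆ U := (hF C hC).2.trans sdiff_subset
      have h3 : 3 ≤ C.card := by
        obtain ⟨k, hk⟩ := hodd
        omega
      by_cases h4 : C.card + 3 ≤ U.card
      · have := hcut C hCU hodd h3 h4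
        linarith
      · exfalso
        obtain ⟨C', hC', hne⟩ := exists_mem_ne (by omega : 1 < F.card) C
        have hd := hdis C' hC' C hC hne
        have hodd' := (hF C' hC').1
        have hsub' : C' ⊆ U \ C := by
          intro t ht
          rw [mem_sdiff]
          exact ⟨((hF C' hC').2.trans sdiff_subset) ht, fun h => disjoint_left.1 hd ht h⟩
        have hcard : (U \ C).card = U.card - C.card := card_sdiff_of_subset hCU
        have hle := card_le_card hsub'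
        have hCU' := card_le_card hCU
        have hc' : C'.card = 1 ∧ (U \ C).card = 1 := by
          obtain ⟨a, ha⟩ := hodd
          obtain ⟨b, hb⟩ := hU
          obtain ⟨c, hc⟩ := hodd'
          omega
        have heq : C' = U \ C := eq_of_subset_of_card_le hsub' (by omega)
        have hT0 : T' = ∅ := by
          rw [eq_empty_iff_forall_notMem]
          intro t ht
          have h5 := hTC C hC ht
          rw [← heq] at h5
          exact (mem_sdiff.1 ((hF C' hC').2 h5)).2 ht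
        have h6 := hone C' hC' hc'.1
        rw [hxC C' hC', hT0] at h6
        simp at h6
  have hpd : (F : Set (Finset V)).PairwiseDisjoint id := by
    intro C hC C' hC' hne
    exact hdis C hC C' hC' hne
  have hsum1 : (F.card : ℝ) ≤ ∑ C ∈ F, ∑ u ∈ C, ∑ v ∈ T', x u v := by
    have := sum_le_sum hC1
    rw [sum_const, nsmul_eq_mul, mul_one] at this
    exact this
  have hsum2 : ∑ C ∈ F, ∑ u ∈ C, ∑ v ∈ T', x u v ≤ ∑ u ∈ U \ T', ∑ v ∈ T', x u v := by
    have h2 : ∑ C ∈ F, ∑ u ∈ C, ∑ v ∈ T', x u v = ∑ u ∈ F.biUnion id, ∑ v ∈ T', x u v := by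
      rw [sum_biUnion hpd]
      rfl
    rw [h2]
    refine sum_le_sum_of_subset_of_nonneg ?_ (fun u _ _ => sum_nonneg (fun v _ => h0 u v))
    intro u hu
    rw [mem_biUnion] at hu
    obtain ⟨C, hC, hu⟩ := hu
    exact (hF C hC).2 hu
  have hsum3 : ∑ u ∈ U \ T', ∑ v ∈ T', x u v = T'.card - ∑ u ∈ T', ∑ v ∈ T', x u v := by
    rw [sum_comm]
    have h2 : ∀ v ∈ T', ∑ u ∈ U \ T', x u v = 1 - ∑ u ∈ T', x v u := by
      intro v hv
      have h3 := hrow v (hT hv)
      rw [← sum_sdiff hT] at h3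
      have h4 : ∑ u ∈ U \ T', x u v = ∑ u ∈ U \ T', x v u := sum_congr rfl (fun u _ => hs u v)
      rw [h4]
      linarith
    rw [sum_congr rfl h2, sum_sub_distrib, sum_const, nsmul_eq_mul, mul_one]
  linarith

/-- unions of small components are tiny -/
private theorem small_union {E : Finset (Edge V)} {U X T : Finset V} {D s τ : ℝ} {b : ℕ}
    (hTU : T ⊆ U) (hXb : X.card ≤ b) (hD : 0 < D)
    (hmin : ∀ v ∈ U, D ≤ (eN E {v} U : ℝ))
    (hsp : ∀ A Y : Finset V, A ⊆ U → Y ⊆ U → (A.card : ℝ) ≤ τ →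
      (eN E A Y : ℝ) ≤ s * (A.card + Y.card))
    (hsD : 100 * s ≤ D) (hbD : 2 * (b : ℝ) ≤ D) {Q : Finset V} (hQ : Q ⊆ U)
    (hcl : ∀ q ∈ Q, ∀ y ∈ U, ad E q y → y ∈ Q ∨ y ∈ X ∨ y ∈ T) (hQτ : (Q.card : ℝ) ≤ τ) :
    47 * (Q.card : ℝ) ≤ T.card := by
  have h1 : D * Q.card ≤ eN E Q U := by
    rw [eN_sum]
    have := sum_le_sum (fun v (hv : v ∈ Q) => hmin v (hQ hv))
    rw [sum_const, nsmul_eq_mul, mul_comm] at this
    exact this
  have h2 := eN_split E hcl
  have h3 := hsp Q Q hQ hQ hQτ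
  have h4 := hsp Q T hQ hTU hQτ
  have h5 := eN_mul E Q X
  have h6 : (Q.card : ℝ) * X.card ≤ Q.card * b :=
    mul_le_mul_of_nonneg_left (by exact_mod_cast hXb) (Nat.cast_nonneg _)
  have hq : (0 : ℝ) ≤ Q.card := Nat.cast_nonneg _
  have ht : (0 : ℝ) ≤ T.card := Nat.cast_nonneg _
  have h7 : D * Q.card ≤ 2 * s * Q.card + Q.card * b + s * (Q.card + T.card) := by
    nlinarith
  have h8 : (47 / 100 * D) * Q.card ≤ (D / 100) * T.card := by
    have e1 : 3 * s * Q.card ≤ 3 / 100 * D * Q.card := by nlinarith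
    have e2 : (Q.card : ℝ) * b ≤ D / 2 * Q.card := by nlinarith
    have e3 : s * T.card ≤ D / 100 * T.card := by nlinarith
    nlinarith
  have h9 : D * (47 * Q.card) ≤ D * T.card := by nlinarith
  exact le_of_mul_le_mul_left h9 hD

theorem robust_of {E : Finset (Edge V)} {U : Finset V} (hU : Even U.card) {D Dm s τ : ℝ} {b : ℕ}
    (x : V → V → ℝ) (h0 : ∀ u v, 0 ≤ x u v) (hs : ∀ u v, x u v = x v u)
    (hE : ∀ u v, x u v ≠ 0 → u ∈ U ∧ v ∈ U ∧ ad E u v) (h1 : ∀ v ∈ U, ∑ u, x v u = 1)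
    (hcut : ∀ W : Finset V, W ⊆ U → Odd W.card → 3 ≤ W.card → W.card + 3 ≤ U.card →
      2 ≤ ∑ u ∈ W, ∑ v ∈ U \ W, x u v)
    (hin : ∀ W : Finset V, W ⊆ U → τ < W.card → (b : ℝ) < ∑ u ∈ W, ∑ v ∈ W, x u v)
    (hD : 0 < D) (hs0 : 0 < s) (hτ : 0 < τ) (hDm : 0 ≤ Dm)
    (hmin : ∀ v ∈ U, D ≤ (eN E {v} U : ℝ)) (hmax : ∀ v ∈ U, (eN E {v} U : ℝ) ≤ Dm)
    (hsp : ∀ A Y : Finset V, A ⊆ U → Y ⊆ U → (A.card : ℝ) ≤ τ →
      (eN E A Y : ℝ) ≤ s * (A.card + Y.card))
    (hsD : 100 * s ≤ D) (hbD : 2 * (b : ℝ) ≤ D)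
    (hlarge : ∀ W : Finset V, W ⊆ U → τ < W.card → 2 * W.card ≤ U.card →
      Dm * (b + 2 * U.card / τ) < (eN E W (U \ W) : ℝ)) : Robust E U b := by
  intro X hXU hXe hXb
  by_contra hno
  have hUX : Even (U \ X).card := by
    have h2 := card_sdiff_of_subset hXU
    have h3 := card_le_card hXU
    obtain ⟨a, ha⟩ := hU
    obtain ⟨c, hc⟩ := hXe
    exact ⟨a - c, by omega⟩
  obtain ⟨T, F, hTX, hFc, hF, hcl, hdis⟩ := exists_barrier hUX hno
  have hTU : T ⊆ U := hTX.trans sdiff_subset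
  have hdXT : Disjoint X T := by
    rw [disjoint_left]
    intro a ha ha'
    exact (mem_sdiff.1 (hTX ha')).2 ha
  have hTc : (X ∪ T).card = X.card + T.card := card_union_of_disjoint hdXT
  have hsd : (U \ X) \ T = U \ (X ∪ T) := sdiff_sdiff_left
  have hTU' : X ∪ T ⊆ U := union_subset hXU hTU
  have hF' : ∀ C ∈ F, Odd C.card ∧ C ⊆ U \ (X ∪ T) := by
    intro C hC
    rw [← hsd]
    exact hF C hC
  have hcl' : ∀ C ∈ F, ∀ x ∈ C, ∀ y ∈ U \ (X ∪ T), ad E x y → y ∈ C := by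
    intro C hC a ha y hy
    rw [← hsd] at hy
    exact hcl C hC a ha y hy
  have hkey := key_le x h0 hs hE h1 hcut hU hTU' (by omega : 2 ≤ F.card) hF' hcl' hdis
  have hFc' : (T.card : ℝ) + 2 ≤ F.card := by exact_mod_cast hFc
  have hXb' : (X.card : ℝ) ≤ b := by exact_mod_cast hXb
  have hTc' : ((X ∪ T).card : ℝ) = X.card + T.card := by exact_mod_cast hTc
  rcases lt_or_ge τ ((X ∪ T).card : ℝ) with hbig | hsmall
  · have := hin _ hTU' hbig
    linarith
  have hFU : ∀ C ∈ F, C ⊆ U := fun C hC => (hF' C hC).2.trans sdiff_subset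
  have hTτ : (T.card : ℝ) ≤ τ := by
    have : (0 : ℝ) ≤ X.card := Nat.cast_nonneg _
    linarith
  have hclQ : ∀ G : Finset (Finset V), G ⊆ F → ∀ q ∈ G.biUnion id, ∀ y ∈ U, ad E q y →
      y ∈ G.biUnion id ∨ y ∈ X ∨ y ∈ T := by
    intro G hG q hq y hy hqy
    by_cases hyX : y ∈ X
    · exact Or.inr (Or.inl hyX)
    by_cases hyT : y ∈ T
    · exact Or.inr (Or.inr hyT)
    rw [mem_biUnion] at hq
    obtain ⟨C, hC, hqC⟩ := hq
    refine Or.inl (mem_biUnion.2 ⟨C, hC, ?_⟩)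
    refine hcl' C (hG hC) q hqC y (mem_sdiff.2 ⟨hy, fun h => ?_⟩) hqy
    rcases mem_union.1 h with h | h
    · exact hyX h
    · exact hyT h
  have hGU : ∀ G : Finset (Finset V), G ⊆ F → G.biUnion id ⊆ U := by
    intro G hG q hq
    rw [mem_biUnion] at hq
    obtain ⟨C, hC, hqC⟩ := hq
    exact hFU C (hG hC) hqC
  have hsmallQ : ∀ G : Finset (Finset V), G ⊆ F → (∀ C ∈ G, (C.card : ℝ) ≤ τ) →
      47 * ((G.biUnion id).card : ℝ) ≤ T.card := by
    intro G
    induction G using Finset.induction_on with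
    | empty =>
      intro _ _
      simp
    | insert C G hCG ih =>
      intro hG hτG
      have hG' : G ⊆ F := (subset_insert C G).trans hG
      have hCF : C ∈ F := hG (mem_insert_self C G)
      have ih' := ih hG' (fun C' hC' => hτG C' (mem_insert_of_mem hC'))
      have hC1 : 47 * (((({C} : Finset (Finset V)).biUnion id).card : ℕ) : ℝ) ≤ T.card := by
        have hsC : ({C} : Finset (Finset V)) ⊆ F := singleton_subset_iff.2 hCF
        refine small_union hTU hXb hD hmin hsp hsD hbD (hGU _ hsC) (hclQ _ hsC) ?_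
        rw [singleton_biUnion]
        exact hτG C (mem_insert_self C G)
      rw [singleton_biUnion] at hC1
      refine small_union hTU hXb hD hmin hsp hsD hbD (hGU _ hG) (hclQ _ hG) ?_
      rw [biUnion_insert]
      have h2 := card_union_le (id C) (G.biUnion id)
      have h3 : ((id C ∪ G.biUnion id).card : ℝ) ≤ ((id C : Finset V).card : ℝ) +
          ((G.biUnion id).card : ℝ) := by exact_mod_cast h2
      linarith
  classical
  set Fs := F.filter (fun C => (C.card : ℝ) ≤ τ) with hFs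
  set Fl := F.filter (fun C => ¬ (C.card : ℝ) ≤ τ) with hFl
  have hsplit : Fs.card + Fl.card = F.card := card_filter_add_card_filter_not _
  have hFsF : Fs ⊆ F := filter_subset _ _
  have hFlF : Fl ⊆ F := filter_subset _ _
  have hbi : ∀ G : Finset (Finset V), G ⊆ F → (G.biUnion id).card = ∑ C ∈ G, C.card := by
    intro G hG
    rw [card_biUnion]
    · rfl
    · intro C hC C' hC' hne
      exact hdis C (hG hC) C' (hG hC') hne
  have hFs1 : 47 * (Fs.card : ℝ) ≤ T.card := by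
    have h2 := hsmallQ Fs hFsF (fun C hC => (mem_filter.1 hC).2)
    have h3 : Fs.card ≤ (Fs.biUnion id).card := by
      rw [hbi Fs hFsF, card_eq_sum_ones]
      refine sum_le_sum (fun C hC => ?_)
      exact (hF' C (hFsF hC)).1.pos
    have h4 : (Fs.card : ℝ) ≤ (Fs.biUnion id).card := by exact_mod_cast h3
    linarith
  have hFl1 : (Fl.card : ℝ) * τ ≤ U.card := by
    have h2 : (Fl.biUnion id).card ≤ U.card := card_le_card (hGU Fl hFlF)
    rw [hbi Fl hFlF] at h2
    have h3 : (Fl.card : ℝ) * τ ≤ ∑ C ∈ Fl, (C.card : ℝ) := by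
      rw [← nsmul_eq_mul, ← sum_const]
      exact sum_le_sum (fun C hC => (not_le.1 (mem_filter.1 hC).2).le)
    refine h3.trans ?_
    exact_mod_cast h2
  have hsplit' : (Fs.card : ℝ) + Fl.card = F.card := by exact_mod_cast hsplit
  have hT0 : (0 : ℝ) ≤ T.card := Nat.cast_nonneg _
  have hFl2 : 2 ≤ Fl.card := by
    have h2 : (2 : ℝ) ≤ Fl.card := by linarith
    exact_mod_cast h2
  have hTle : (T.card : ℝ) ≤ 2 * U.card / τ := by
    rw [le_div_iff₀ hτ]
    have h2 : (T.card : ℝ) ≤ 2 * Fl.card := by linarith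
    nlinarith
  obtain ⟨K1, hK1, K2, hK2, hne⟩ := one_lt_card.1 (by omega : 1 < Fl.card)
  have hKc : K1.card + K2.card ≤ U.card := by
    rw [← card_union_of_disjoint (hdis K1 (hFlF hK1) K2 (hFlF hK2) hne)]
    exact card_le_card (union_subset (hFU K1 (hFlF hK1)) (hFU K2 (hFlF hK2)))
  obtain ⟨K, hK, hK'⟩ : ∃ K ∈ Fl, 2 * K.card ≤ U.card := by
    rcases le_total K1.card K2.card with h | h
    · exact ⟨K1, hK1, by omega⟩
    · exact ⟨K2, hK2, by omega⟩
  have hl := hlarge K (hFU K (hFlF hK)) (not_le.1 (mem_filter.1 hK).2) hK'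
  have h2 : (eN E K (U \ K) : ℝ) ≤ eN E K (X ∪ T) := by
    have h3 := eN_split E (A := K) (Z := U \ K) (Y₁ := X ∪ T) (Y₂ := ∅) (Y₃ := ∅) (by
      intro a ha z hz haz
      left
      by_contra hzT
      rw [mem_sdiff] at hz
      exact hz.2 (hcl' K (hFlF hK) a ha z (mem_sdiff.2 ⟨hz.1, hzT⟩) haz))
    have h4 := eN_mul E K ∅
    rw [card_empty, Nat.cast_zero, mul_zero] at h4
    linarith
  have h3 : (eN E K (X ∪ T) : ℝ) ≤ Dm * (X ∪ T).card := by
    rw [eN_comm, eN_sum]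
    refine le_trans (sum_le_sum (fun v hv => ?_) : _ ≤ ∑ v ∈ X ∪ T, Dm) ?_
    · exact le_trans (eN_mono E {v} (hFU K (hFlF hK))) (hmax v (hTU' hv))
    · rw [sum_const, nsmul_eq_mul, mul_comm]
  have h4 : Dm * ((X ∪ T).card : ℝ) ≤ Dm * (b + 2 * U.card / τ) := by
    refine mul_le_mul_of_nonneg_left ?_ hDm
    rw [hTc']
    linarith
  linarith

end Pool.Agent.Lib.LT
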