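import Pool.Agent.Lib.MP_6d56f7_co_LT.QDefs

/-!
# Odd cuts are not tight
-/

set_option autoImplicit false

namespace Pool.Agent.Lib.LT

open Finset Pool.Agent.Lib.FR

private theorem cut_eq {V : Type} [Fintype V] [DecidableEq V] (w : V → V → ℝ) (R : Finset V)
    (hs : ∀ u v, w u v = w v u) (hR : ∀ u ∈ R, ∀ v, w u v = 0) (W : Finset V) (u : V) :
    ∑ v ∈ Rᶜ \ W, w u v = ∑ v ∈ Wᶜ, w u v := by
  apply Finset.sum_subset
  · intro v hv
    rw [mem_compl]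
    exact (mem_sdiff.1 hv).2
  · intro v hv hv'
    rw [mem_compl] at hv
    have h : v ∈ R := by
      by_contra h
      exact hv' (mem_sdiff.2 ⟨mem_compl.2 h, hv⟩)
    rw [hs]
    exact hR v h u

private theorem cut_aux {V : Type} [Fintype V] [DecidableEq V] (w : V → V → ℝ) (R : Finset V)
    (T : ℝ) (hs : ∀ u v, w u v = w v u) (hR : ∀ u ∈ R, ∀ v, w u v = 0)
    (h1 : ∀ u, u ∉ R → ∑ v, w u v = 1)
    (small : ∀ W : Finset V, (W.card : ℝ) ≤ T → ∑ u ∈ W, ∑ v ∈ W, w u v ≤ W.card / 3)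
    (large : ∀ W : Finset V, T < W.card → 2 * W.card ≤ Fintype.card V → Disjoint W R →
      2 ≤ ∑ u ∈ W, ∑ v ∈ Wᶜ, w u v) (W : Finset V) (hW : W ⊆ Rᶜ)
    (h3 : 3 ≤ W.card) (h : (W.card : ℝ) ≤ T ∨ 2 * W.card ≤ Fintype.card V) :
    2 ≤ ∑ u ∈ W, ∑ v ∈ Rᶜ \ W, w u v := by
  have e : ∑ u ∈ W, ∑ v ∈ Rᶜ \ W, w u v = ∑ u ∈ W, ∑ v ∈ Wᶜ, w u v :=
    Finset.sum_congr rfl fun u _ => cut_eq w R hs hR W u
  rw [e]
  have hc : (3 : ℝ) ≤ W.card := by exact_mod_cast h3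
  by_cases hT : (W.card : ℝ) ≤ T
  · have h2 := small W hT
    have e2 : ∑ u ∈ W, ∑ v ∈ Wᶜ, w u v = W.card - ∑ u ∈ W, ∑ v ∈ W, w u v := by
      rw [eq_sub_iff_add_eq, ← Finset.sum_add_distrib]
      have : ∀ u ∈ W, ∑ v ∈ Wᶜ, w u v + ∑ v ∈ W, w u v = 1 := fun u hu => by
        rw [Finset.sum_compl_add_sum]
        exact h1 u (mem_compl.1 (hW hu))
      rw [Finset.sum_congr rfl this]
      simp
    rw [e2]
    linarith
  · have h4 : 2 * W.card ≤ Fintype.card V := h.resolve_left hT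
    exact large W (not_le.1 hT) h4 (disjoint_left.2 fun u hu => mem_compl.1 (hW hu))

theorem cut_strict {V : Type} [Fintype V] [DecidableEq V] (w : V → V → ℝ) (R : Finset V) (T : ℝ)
    (hs : ∀ u v, w u v = w v u) (h0 : ∀ u v, 0 ≤ w u v) (hR : ∀ u ∈ R, ∀ v, w u v = 0)
    (h1 : ∀ u, u ∉ R → ∑ v, w u v = 1) (hRe : Even (Rᶜ : Finset V).card)
    (small : ∀ W : Finset V, (W.card : ℝ) ≤ T → ∑ u ∈ W, ∑ v ∈ W, w u v ≤ W.card / 3)
    (large : ∀ W : Finset V, T < W.card → 2 * W.card ≤ Fintype.card V → Disjoint W R →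
      2 ≤ ∑ u ∈ W, ∑ v ∈ Wᶜ, w u v) (W : Finset V) (hW : W ⊆ Rᶜ) (hodd : Odd W.card)
    (h3 : 3 ≤ W.card) (h3' : W.card + 3 ≤ (Rᶜ : Finset V).card) :
    2 ≤ ∑ u ∈ W, ∑ v ∈ Rᶜ \ W, w u v := by
  by_cases h : (W.card : ℝ) ≤ T ∨ 2 * W.card ≤ Fintype.card V
  · exact cut_aux w R T hs hR h1 small large W hW h3 h
  · have h4 : ¬ 2 * W.card ≤ Fintype.card V := fun h' => h (Or.inr h')
    have h5 : (Rᶜ \ W).card = (Rᶜ : Finset V).card - W.card := Finset.card_sdiff_of_subset hW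
    have h6 : (Rᶜ : Finset V).card ≤ Fintype.card V := Finset.card_le_univ _
    have h7 := cut_aux w R T hs hR h1 small large (Rᶜ \ W) sdiff_subset (by omega)
      (Or.inr (by omega))
    have h8 : Rᶜ \ (Rᶜ \ W) = W := by
      rw [sdiff_sdiff_right_self]
      exact inf_eq_right.2 hW
    rw [h8, Finset.sum_comm] at h7
    calc (2 : ℝ) ≤ _ := h7
      _ = _ := Finset.sum_congr rfl fun u _ => Finset.sum_congr rfl fun v _ => hs v u

end Pool.Agent.Lib.LT
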