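import Pool.Agent.Lib.MP_6d56f7_co_LT.QCol
import Pool.Agent.Lib.MP_6d56f7_co_LT.QCut

/-!
# The weights of one colour
-/

set_option autoImplicit false

namespace Pool.Agent.Lib.LT

open Finset Pool.Agent.Lib.FR

variable {n : ℕ}

private theorem qw_ad {H : Finset (J n)} {c : Fin (2 * n - 1)} {u v : Fin (2 * n)} :
    ad (EC H c) u v ↔ c ∈ LK n H u v := by
  rw [mem_LK]
  unfold ad EC
  constructor
  · rintro ⟨h, h1⟩
    exact ⟨h, (mem_filter.mp h1).2⟩
  · rintro ⟨h, h1⟩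
    exact ⟨h, mem_filter.mpr ⟨mem_univ _, h1⟩⟩

private theorem qw_uc {M : Finset (J n)} {c : Fin (2 * n - 1)} {v : Fin (2 * n)} :
    v ∈ UC M c ↔ ¬ RPm M v c := by
  simp [UC]

private theorem qw_Lp {s : J n → Fin 3} {H M : Finset (J n)} (h0 : ∀ j ∈ H, s j ≠ 0)
    (u v : Fin (2 * n)) : LK n (HR H M) u v ⊆ Lp n s u v := by
  have h1 : LK n (HR H M) u v ⊆ LK n (univ.filter fun j => s j ≠ 0) u v :=
    LK_mono (fun j hj => mem_filter.mpr ⟨mem_univ _, h0 j (mem_HR.mp hj).1⟩) u v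
  rwa [LK_eq_LL n (fun a => a ≠ 0) s] at h1

/-- the weights of one colour live on the colour class off the matching -/
theorem wt_supp {H M : Finset (J n)} {w : Fin (2 * n) → Fin (2 * n) → Fin (2 * n - 1) → ℝ}
    (hw : FRW n H M w) (c : Fin (2 * n - 1)) (u v : Fin (2 * n)) (h : w u v c ≠ 0) :
    u ∈ UC M c ∧ v ∈ UC M c ∧ ad (EC (HR H M) c) u v := by
  have h1 : c ∈ LK n (HR H M) u v := by
    by_contra h2
    exact h (hw.zero u v c h2)
  have hred := red_HR hw.free H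
  refine ⟨qw_uc.mpr fun h2 => ?_, qw_uc.mpr fun h2 => ?_, qw_ad.mpr h1⟩
  · refine hred.pair u c h2 v ?_
    rw [(ker_LK n _).symm v u]
    exact h1
  · exact hred.pair v c h2 u h1

private theorem qw_nonneg {c₁ d D : ℝ} (hd : 0 < d) {s : J n → Fin 3} {H M : Finset (J n)}
    {w : Fin (2 * n) → Fin (2 * n) → Fin (2 * n - 1) → ℝ} (hg : GD n c₁ d D s H M w)
    (u v : Fin (2 * n)) (c : Fin (2 * n - 1)) : 0 ≤ w u v c := by
  by_cases hc : c ∈ LK n (HR H M) u v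
  · exact le_trans (by positivity) (hg.lo u v c hc)
  · rw [hg.frw.zero u v c hc]

/-- the weights of one colour are small inside small sets -/
theorem wt_small {c₁ d D θ : ℝ} (hc₁ : 0 < c₁) (hd : 0 < d) {s : J n → Fin 3}
    (hS : Sparse (c₁ / (16 * (1 + 264 * 4))) θ d (Lp n s)) {H M : Finset (J n)}
    {w : Fin (2 * n) → Fin (2 * n) → Fin (2 * n - 1) → ℝ} (hg : GD n c₁ d D s H M w)
    (c : Fin (2 * n - 1)) (W : Finset (Fin (2 * n)))
    (hW : (W.card : ℝ) ≤ θ * ((2 * n - 1 : ℕ) : ℝ)) :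
    ∑ u ∈ W, ∑ v ∈ W, w u v c ≤ W.card / 3 := by
  classical
  have hwub : ∀ u v c, w u v c ≤ if c ∈ LK n (HR H M) u v then 3 / (2 * c₁ * d) else 0 := by
    intro u v c
    split_ifs with hc
    · exact hg.hi u v c
    · rw [hg.frw.zero u v c hc]
  have h3 : ∑ u ∈ W, ∑ v ∈ W, w u v c ≤
      (((W ×ˢ W).filter (fun p => c ∈ LK n (HR H M) p.1 p.2)).card : ℝ) *
        (3 / (2 * c₁ * d)) := by
    rw [← sum_product']
    calc ∑ p ∈ W ×ˢ W, w p.1 p.2 c
        ≤ ∑ p ∈ W ×ˢ W, if c ∈ LK n (HR H M) p.1 p.2 then 3 / (2 * c₁ * d) else 0 :=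
          sum_le_sum fun p _ => hwub p.1 p.2 c
      _ = _ := by rw [← sum_filter, sum_const, nsmul_eq_mul]
  have h4 : (((W ×ˢ W).filter (fun p => c ∈ LK n (HR H M) p.1 p.2)).card : ℝ) ≤
      c₁ / (16 * (1 + 264 * 4)) * d * (W.card + W.card) := by
    refine le_trans ?_ (hS.col c W W (by rwa [Fintype.card_fin]))
    have h : (W ×ˢ W).filter (fun p => c ∈ LK n (HR H M) p.1 p.2) ⊆
        (W ×ˢ W).filter (fun p => c ∈ Lp n s p.1 p.2) := by
      intro p hp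
      rw [mem_filter] at hp
      exact mem_filter.mpr ⟨hp.1, qw_Lp hg.nez p.1 p.2 hp.2⟩
    exact_mod_cast card_le_card h
  have h5 : (((W ×ˢ W).filter (fun p => c ∈ LK n (HR H M) p.1 p.2)).card : ℝ) *
      (3 / (2 * c₁ * d)) ≤ (c₁ / (16 * (1 + 264 * 4)) * d * (W.card + W.card)) *
      (3 / (2 * c₁ * d)) := mul_le_mul_of_nonneg_right h4 (by positivity)
  have h6 : (c₁ / (16 * (1 + 264 * 4)) * d * (W.card + W.card)) *
      (3 / (2 * c₁ * d)) = W.card * (3 / (16 * 1057)) := by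
    field_simp
    ring
  rw [h6] at h5
  have h7 : (0 : ℝ) ≤ W.card := Nat.cast_nonneg _
  refine (h3.trans h5).trans ?_
  linarith

/-- the weights of one colour across the cuts of large sets -/
theorem wt_large {c₁ d D θ : ℝ} (hd : 0 < d) (hcut : 16 * d + 3 * n ≤ θ * d * n / 8)
    {s : J n → Fin 3} (hC : CutB (θ * d * n / 8) θ (Lm n s)) {H M : Finset (J n)}
    {w : Fin (2 * n) → Fin (2 * n) → Fin (2 * n - 1) → ℝ} (hg : GD n c₁ d D s H M w)
    (c : Fin (2 * n - 1)) (W : Finset (Fin (2 * n)))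
    (h1 : θ * ((2 * n - 1 : ℕ) : ℝ) < W.card) (h2 : 2 * W.card ≤ Fintype.card (Fin (2 * n)))
    (h3 : W ⊆ UC M c) : 2 ≤ ∑ u ∈ W, ∑ v ∈ Wᶜ, w u v c := by
  classical
  have hLm : ∀ u v, Lm n s u v ⊆ LK n H u v := by
    intro u v
    have h : LK n (univ.filter fun j => s j = 2) u v ⊆ LK n H u v :=
      LK_mono (fun j hj => hg.two j (mem_filter.mp hj).2) u v
    rwa [LK_eq_LL n (fun a => a = 2) s] at h
  have hP : ∀ v, ¬ RPm M v c →
      (univ.filter (fun u => c ∈ LK n H u v ∧ c ∉ LK n (HR H M) u v)).card ≤ 3 := by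
    intro v hR
    have h3 : univ.filter (fun u => c ∈ LK n H u v ∧ c ∉ LK n (HR H M) u v) =
        univ.filter (fun u => c ∈ LK n (H \ HR H M) u v) := by
      ext u
      rw [mem_filter, mem_filter, ← LK_sdiff, mem_sdiff]
    rw [h3]
    have h4 : (univ.filter (fun u => c ∈ LK n (H \ HR H M) u v)).card =
        dP (LK n (H \ HR H M)) v c := rfl
    rw [h4, dP_LK]
    exact loss hg.frw.free H (.inr (v, c)) (fun h6 => hR (hit_inr.mp h6))
  have hwlb : ∀ u v, (if c ∈ LK n (HR H M) u v then 1 / (8 * d) else 0) ≤ w u v c := by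
    intro u v
    split_ifs with hc
    · exact hg.lo u v c hc
    · rw [hg.frw.zero u v c hc]
  have g3 := hC c W (by rwa [Fintype.card_fin]) h2
  have g4 : (((W ×ˢ Wᶜ).filter (fun p => c ∈ LK n (HR H M) p.1 p.2)).card : ℝ) *
      (1 / (8 * d)) ≤ ∑ u ∈ W, ∑ v ∈ Wᶜ, w u v c := by
    rw [← sum_product']
    calc (((W ×ˢ Wᶜ).filter (fun p => c ∈ LK n (HR H M) p.1 p.2)).card : ℝ) *
          (1 / (8 * d))
        = ∑ p ∈ W ×ˢ Wᶜ, if c ∈ LK n (HR H M) p.1 p.2 then 1 / (8 * d) else 0 := by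
          rw [← sum_filter, sum_const, nsmul_eq_mul]
      _ ≤ ∑ p ∈ W ×ˢ Wᶜ, w p.1 p.2 c := sum_le_sum fun p _ => hwlb p.1 p.2
  have g5 : ((W ×ˢ Wᶜ).filter (fun p => c ∈ Lm n s p.1 p.2)).card ≤
      ((W ×ˢ Wᶜ).filter (fun p => c ∈ LK n (HR H M) p.1 p.2)).card + W.card * 3 := by
    have h6 : ((W ×ˢ Wᶜ).filter (fun p => c ∈ Lm n s p.1 p.2)) ⊆
        ((W ×ˢ Wᶜ).filter (fun p => c ∈ LK n (HR H M) p.1 p.2)) ∪
        W.biUnion (fun u => (univ.filter
          (fun v => c ∈ LK n H v u ∧ c ∉ LK n (HR H M) v u)).image (fun v => (u, v))) := by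
      rintro ⟨u, v⟩ hp
      rw [mem_filter, mem_product] at hp
      rw [mem_union, mem_filter, mem_product]
      by_cases h7 : c ∈ LK n (HR H M) u v
      · exact Or.inl ⟨hp.1, h7⟩
      · right
        rw [mem_biUnion]
        refine ⟨u, hp.1.1, mem_image.mpr ⟨v, ?_, rfl⟩⟩
        rw [mem_filter]
        refine ⟨mem_univ _, ?_, ?_⟩
        · rw [(ker_LK n H).symm v u]
          exact hLm u v hp.2
        · rw [(ker_LK n (HR H M)).symm v u]
          exact h7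
    refine (card_le_card h6).trans ((card_union_le _ _).trans ?_)
    refine Nat.add_le_add_left (card_biUnion_le_card_mul _ _ 3 fun u hu => ?_) _
    exact card_image_le.trans (hP u (qw_uc.mp (h3 hu)))
  have g6 : (((W ×ˢ Wᶜ).filter (fun p => c ∈ Lm n s p.1 p.2)).card : ℝ) ≤
      ((W ×ˢ Wᶜ).filter (fun p => c ∈ LK n (HR H M) p.1 p.2)).card + W.card * 3 := by
    exact_mod_cast g5
  have g7 : (W.card : ℝ) ≤ n := by
    rw [Fintype.card_fin] at h2
    have : W.card ≤ n := by omega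
    exact_mod_cast this
  have g8 : 16 * d ≤ (((W ×ˢ Wᶜ).filter (fun p => c ∈ LK n (HR H M) p.1 p.2)).card : ℝ) := by
    linarith
  refine le_trans ?_ g4
  have g9 : 16 * d * (1 / (8 * d)) = 2 := by
    field_simp
    norm_num
  exact g9.symm.le.trans (mul_le_mul_of_nonneg_right g8 (by positivity))

/-- the odd cuts are not tight -/
theorem wt_cut2 {c₁ d D θ : ℝ} (hc₁ : 0 < c₁) (hd : 0 < d)
    (hcut : 16 * d + 3 * n ≤ θ * d * n / 8) {s : J n → Fin 3}
    (hS : Sparse (c₁ / (16 * (1 + 264 * 4))) θ d (Lp n s))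
    (hC : CutB (θ * d * n / 8) θ (Lm n s)) {H M : Finset (J n)}
    {w : Fin (2 * n) → Fin (2 * n) → Fin (2 * n - 1) → ℝ} (hg : GD n c₁ d D s H M w)
    (c : Fin (2 * n - 1)) (W : Finset (Fin (2 * n))) (hW : W ⊆ UC M c) (hodd : Odd W.card)
    (h3 : 3 ≤ W.card) (h3' : W.card + 3 ≤ (UC M c).card) :
    2 ≤ ∑ u ∈ W, ∑ v ∈ UC M c \ W, w u v c := by
  classical
  have h := cut_strict (fun u v => w u v c) (UC M c)ᶜ (θ * ((2 * n - 1 : ℕ) : ℝ))
    (fun u v => hg.frw.symm u v c) (fun u v => qw_nonneg hd hg u v c) ?_ ?_ ?_ ?_ ?_ W ?_ hodd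
    h3 ?_
  · rwa [compl_compl] at h
  · intro u hu v
    by_contra h0
    exact (mem_compl.mp hu) (wt_supp hg.frw c u v h0).1
  · intro u hu
    have h4 : u ∈ UC M c := by
      by_contra h5
      exact hu (mem_compl.mpr h5)
    rw [← hg.frw.pair u c (qw_uc.mp h4)]
    exact sum_congr rfl fun v _ => hg.frw.symm u v c
  · rw [compl_compl]
    exact uc_even hg.frw.free c
  · intro W hW
    exact wt_small hc₁ hd hS hg c W hW
  · intro W h1 h2 hdis
    refine wt_large hd hcut hC hg c W h1 h2 fun u hu => ?_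
    by_contra h5
    exact disjoint_left.mp hdis hu (mem_compl.mpr h5)
  · rwa [compl_compl]
  · rwa [compl_compl]

/-- the weights of one colour are large inside large sets -/
theorem wt_in {c₁ d D κ : ℝ} (hd : 0 < d) {s : J n → Fin 3}
    (hB : BipB (κ ^ 2 * d * n / 2) κ (Lm n s)) (h24 : 24 ≤ κ ^ 2 * d)
    {H M : Finset (J n)} {w : Fin (2 * n) → Fin (2 * n) → Fin (2 * n - 1) → ℝ}
    (hg : GD n c₁ d D s H M w) (hκ : 2 ≤ κ * ((2 * n - 1 : ℕ) : ℝ)) (c : Fin (2 * n - 1))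
    (W : Finset (Fin (2 * n))) (hW : W ⊆ UC M c)
    (h3 : 3 * κ * ((2 * n - 1 : ℕ) : ℝ) < W.card) :
    κ ^ 2 * n / 16 ≤ ∑ u ∈ W, ∑ v ∈ W, w u v c := by
  classical
  obtain ⟨A, hA, hAc⟩ := exists_subset_card_eq (show W.card / 2 ≤ W.card by omega)
  have hYc : (W \ A).card = W.card - W.card / 2 := by
    rw [card_sdiff_of_subset hA, hAc]
  have e1 : (W.card : ℝ) ≤ 2 * (A.card : ℝ) + 1 := by
    have h : W.card ≤ 2 * A.card + 1 := by omega
    exact_mod_cast h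
  have e2 : (A.card : ℝ) ≤ ((W \ A).card : ℝ) := by
    have h : A.card ≤ (W \ A).card := by omega
    exact_mod_cast h
  have hA1 : κ * ((2 * n - 1 : ℕ) : ℝ) ≤ A.card := by linarith
  have hb := ec_bip hB h24 hg c A (W \ A) (hA.trans hW) disjoint_sdiff hA1 (hA1.trans e2)
  have hk : (eN (EC (HR H M) c) A (W \ A) : ℝ) * (1 / (8 * d)) ≤
      ∑ u ∈ A, ∑ v ∈ W \ A, w u v c := by
    unfold eN
    rw [← sum_product', ← nsmul_eq_mul, ← sum_const]
    refine le_trans (sum_le_sum (g := fun p => w p.1 p.2 c) fun p hp => ?_)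
      (sum_le_sum_of_subset_of_nonneg (filter_subset _ _) fun p _ _ =>
        qw_nonneg hd hg p.1 p.2 c)
    exact hg.lo p.1 p.2 c (qw_ad.mp (mem_filter.mp hp).2)
  have hn0 : (0 : ℝ) ≤ n := Nat.cast_nonneg n
  have hk2 : κ ^ 2 * n / 32 ≤ ∑ u ∈ A, ∑ v ∈ W \ A, w u v c := by
    refine le_trans ?_ hk
    have h := mul_le_mul_of_nonneg_right hb (show (0 : ℝ) ≤ 1 / (8 * d) by positivity)
    refine le_trans (le_of_eq ?_) h
    field_simp
    ring
  have hsym : ∑ u ∈ W \ A, ∑ v ∈ A, w u v c = ∑ u ∈ A, ∑ v ∈ W \ A, w u v c := by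
    rw [sum_comm]
    exact sum_congr rfl fun u _ => sum_congr rfl fun v _ => hg.frw.symm v u c
  have hsplit : ∑ u ∈ W, ∑ v ∈ W, w u v c =
      ∑ u ∈ W \ A, ∑ v ∈ W, w u v c + ∑ u ∈ A, ∑ v ∈ W, w u v c :=
    (sum_sdiff hA).symm
  have hs1 : ∑ u ∈ A, ∑ v ∈ W \ A, w u v c ≤ ∑ u ∈ A, ∑ v ∈ W, w u v c :=
    sum_le_sum fun u _ => sum_le_sum_of_subset_of_nonneg sdiff_subset fun v _ _ =>
      qw_nonneg hd hg u v c
  have hs2 : ∑ u ∈ W \ A, ∑ v ∈ A, w u v c ≤ ∑ u ∈ W \ A, ∑ v ∈ W, w u v c :=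
    sum_le_sum fun u _ => sum_le_sum_of_subset_of_nonneg hA fun v _ _ =>
      qw_nonneg hd hg u v c
  rw [hsplit]
  rw [hsym] at hs2
  linarith

end Pool.Agent.Lib.LT
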