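import Pool.Agent.Lib.MP_6d56f7_co_LT.QGD
import Pool.Agent.Lib.MP_6d56f7_co_LT.QWt
import Pool.Agent.Lib.MP_6d56f7_co_LT.QLinked
import Pool.Agent.Lib.MP_6d56f7_co_LT.QRob
import Pool.Agent.Lib.MP_6d56f7_co_LT.QRig2

/-!
# Rigid colour classes
-/

set_option autoImplicit false

namespace Pool.Agent.Lib.LT

open Finset Pool.Agent.Lib.FR

variable {n : ℕ}

/-- the main deterministic step: real weights and rigid colour classes -/
theorem glue_q (hn : 6 ≤ n) {c₁ θ η δ δ' d D : ℝ} (hc₁ : 0 < c₁) (hc₁' : c₁ ≤ 1) (hθ : 0 < θ)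
    (hη0 : 0 ≤ η) (hη : η / θ + 6 / d ≤ 1 / 66) (hd : 0 < d) (hδ : 0 ≤ δ) (hδ' : 0 ≤ δ')
    (hδδ' : δ + 3 / d + δ' / c₁ ≤ c₁ / (4 * 4 * (1 + 264 * 4))) (hD : c₁ * d + 3 ≤ D)
    (hcut : 16 * d + 3 * n ≤ θ * d * n / 8)
    (hθn : ∀ k : ℕ, k ^ 2 ≤ n → (k : ℝ) ≤ θ * ((2 * n - 1 : ℕ) : ℝ))
    (s : J n → Fin 3) (hB : Bulk η 0 d (Lm n s) (fun _ _ => True))
    (hS : Sparse (c₁ / (16 * (1 + 264 * 4))) θ d (Lp n s)) (hM : MaxDeg (4 * d) (Lp n s))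
    (hF : FewBad δ δ' d n s) (hlow : LowOK D n s) (hC : CutB (θ * d * n / 8) θ (Lm n s))
    (hcnt : (3 * cnt (fun a : El n => (dg n s a : ℝ) < D)) ^ 8 ≤ n)
    -- the additional data for rigidity
    {ε₂ θ₂ : ℝ} {m h : ℕ} (hε₂ : 0 < ε₂) (hθ₂ : 0 < θ₂) (hθ₂' : θ₂ ≤ θ) (hm : 13 ≤ m)
    (hmε : 8 * m * ε₂ ≤ c₁) (hS₂ : Sparse ε₂ θ₂ d (Lp n s))
    (hBip : BipB ((θ₂ / 3) ^ 2 * d * n / 2) (θ₂ / 3) (Lm n s))
    (hnθ : 6 ≤ θ₂ * ((2 * n - 1 : ℕ) : ℝ)) (h24 : 24 ≤ (θ₂ / 3) ^ 2 * d)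
    (hh : (m : ℝ) ^ h ≤ m * (θ₂ * ((2 * n - 1 : ℕ) : ℝ)))
    (hh' : θ₂ * ((2 * n - 1 : ℕ) : ℝ) ≤ (m : ℝ) ^ h)
    (hhd : 16 * (2 * (h : ℝ) + 2) ≤ c₁ * d)
    (hN2 : 4 * (2 * (h : ℝ) + 2) < (θ₂ / 3) ^ 2 * n / 16)
    (hN3 : 4 * (4 * (2 * (h : ℝ) + 2) + 4 * n / (θ₂ * ((2 * n - 1 : ℕ) : ℝ))) <
      (θ₂ / 3) ^ 2 * n / 4)
    (H : Finset (J n)) (h2 : ∀ j, s j = 2 → j ∈ H) (h0 : ∀ j ∈ H, s j ≠ 0)
    (hcov : ∀ a : El n, ∃ j ∈ st n a, j ∈ H) :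
    ∃ M w, FRQ n H M w := by
  classical
  obtain ⟨M, w, hg⟩ := glue_gd hn hc₁ hc₁' hθ hη0 hη hd hδ hδ' hδδ' hD (by linarith) hθn s hB hS
    hM hF hlow hC hcnt H h2 h0 hcov
  have hn0 : (0 : ℝ) < n := by
    have : 0 < n := by omega
    exact_mod_cast this
  have hκ : (0 : ℝ) < θ₂ / 3 := by positivity
  have hτ : 0 < θ₂ * ((2 * n - 1 : ℕ) : ℝ) := by linarith
  have hκτ : θ₂ / 3 * ((2 * n - 1 : ℕ) : ℝ) ≤ θ₂ * ((2 * n - 1 : ℕ) : ℝ) := by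
    have h3 : θ₂ / 3 * ((2 * n - 1 : ℕ) : ℝ) = θ₂ * ((2 * n - 1 : ℕ) : ℝ) / 3 := by ring
    rw [h3]
    linarith
  have hm' : (13 : ℝ) ≤ m := by exact_mod_cast hm
  have hcd : 0 < c₁ * d := mul_pos hc₁ hd
  have hεd : 0 < ε₂ * d := mul_pos hε₂ hd
  have hh0 : (0 : ℝ) ≤ h := Nat.cast_nonneg h
  have hb : (((4 * (2 * h + 2) : ℕ)) : ℝ) = 4 * (2 * (h : ℝ) + 2) := by
    push_cast
    ring
  have hpos : 0 < (θ₂ / 3) ^ 2 * d * n / 4 := by positivity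
  have hcut2 : ∀ c, ∀ W : Finset (Fin (2 * n)), W ⊆ UC M c → Odd W.card → 3 ≤ W.card →
      W.card + 3 ≤ (UC M c).card → 2 ≤ ∑ u ∈ W, ∑ v ∈ UC M c \ W, w u v c :=
    fun c W hW ho h3 h3' => wt_cut2 hc₁ hd hcut hS hC hg c W hW ho h3 h3'
  have hmin : ∀ c, ∀ v ∈ UC M c, c₁ * d ≤ (eN (EC (HR H M) c) {v} (UC M c) : ℝ) :=
    fun c v hv => ec_min hD hg c v hv
  have hsp : ∀ c, ∀ A Y : Finset (Fin (2 * n)), A ⊆ UC M c → Y ⊆ UC M c →
      (A.card : ℝ) ≤ θ₂ * ((2 * n - 1 : ℕ) : ℝ) →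
      (eN (EC (HR H M) c) A Y : ℝ) ≤ ε₂ * d * (A.card + Y.card) :=
    fun c A Y _ _ hA => ec_sparse hS₂ hg c A Y hA
  have hL : ∀ c, Linked (EC (HR H M) c) (UC M c) (2 * h + 2) (4 * (2 * h + 2)) := by
    intro c
    refine linked_of (m := m) (by omega) hcd hεd (hmin c) (hsp c) ?_ ?_ (by linarith) hh hh' ?_
    · have h3 : 8 * (m : ℝ) * (ε₂ * d) = 8 * m * ε₂ * d := by ring
      rw [h3]
      exact mul_le_mul_of_nonneg_right hmε hd.le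
    · rw [hb]
      linarith
    · intro A B hA hB' hAB h3 h4
      have h5 := ec_bip hBip h24 hg c A B hA hAB (hκτ.trans h3) (hκτ.trans h4)
      have h6 : 0 < (eN (EC (HR H M) c) A B : ℝ) := lt_of_lt_of_le hpos h5
      have h7 : 0 < eN (EC (HR H M) c) A B := by exact_mod_cast h6
      unfold eN at h7
      obtain ⟨p, hp⟩ := card_pos.mp h7
      rw [mem_filter, mem_product] at hp
      exact ⟨p.1, hp.1.1, p.2, hp.1.2, hp.2⟩
  have hR : ∀ c, Robust (EC (HR H M) c) (UC M c) (4 * (2 * h + 2)) := by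
    intro c
    refine robust_of (uc_even hg.frw.free c) (fun u v => w u v c) ?_ ?_ ?_ ?_ (hcut2 c) ?_ hcd
      hεd hτ (by positivity : (0 : ℝ) ≤ 4 * d) (hmin c) (fun v _ => ec_max hM hg c v) (hsp c)
      ?_ ?_ ?_
    · intro u v
      by_cases h3 : c ∈ LK n (HR H M) u v
      · exact (hg.frw.pos u v c h3).le
      · exact (hg.frw.zero u v c h3).ge
    · intro u v
      exact hg.frw.symm u v c
    · intro u v h3
      exact wt_supp hg.frw c u v h3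
    · intro v hv
      have h3 : ¬ RPm M v c := by
        unfold UC at hv
        exact (mem_filter.mp hv).2
      rw [← hg.frw.pair v c h3]
      exact sum_congr rfl fun u _ => hg.frw.symm v u c
    · intro W hW h3
      rw [hb]
      refine lt_of_lt_of_le hN2 (wt_in hd hBip h24 hg ?_ c W hW ?_)
      · have h4 : θ₂ / 3 * ((2 * n - 1 : ℕ) : ℝ) = θ₂ * ((2 * n - 1 : ℕ) : ℝ) / 3 := by ring
        rw [h4]
        linarith
      · have h4 : 3 * (θ₂ / 3) * ((2 * n - 1 : ℕ) : ℝ) = θ₂ * ((2 * n - 1 : ℕ) : ℝ) := by ring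
        rw [h4]
        exact h3
    · have h3 : 100 * ε₂ ≤ c₁ := by
        refine le_trans ?_ hmε
        refine mul_le_mul_of_nonneg_right ?_ hε₂.le
        linarith
      have h4 : 100 * (ε₂ * d) = 100 * ε₂ * d := by ring
      rw [h4]
      exact mul_le_mul_of_nonneg_right h3 hd.le
    · rw [hb]
      linarith
    · intro W hW h3 h4
      have h5 : W.card ≤ (UC M c \ W).card := by
        rw [card_sdiff_of_subset hW]
        omega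
      have h5' : (W.card : ℝ) ≤ (UC M c \ W).card := by exact_mod_cast h5
      refine lt_of_lt_of_le ?_ (ec_bip hBip h24 hg c W (UC M c \ W) hW disjoint_sdiff
        (hκτ.trans h3.le) (hκτ.trans (h3.le.trans h5')))
      have h6 : ((UC M c).card : ℝ) ≤ 2 * n := by
        have h7 := card_le_univ (UC M c)
        rw [Fintype.card_fin] at h7
        exact_mod_cast h7
      have h7 : 2 * ((UC M c).card : ℝ) / (θ₂ * ((2 * n - 1 : ℕ) : ℝ)) ≤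
          4 * n / (θ₂ * ((2 * n - 1 : ℕ) : ℝ)) := by
        refine div_le_div_of_nonneg_right ?_ hτ.le
        linarith
      have h8 : 4 * (((4 * (2 * h + 2) : ℕ) : ℝ) +
          2 * ((UC M c).card : ℝ) / (θ₂ * ((2 * n - 1 : ℕ) : ℝ))) < (θ₂ / 3) ^ 2 * n / 4 := by
        rw [hb]
        linarith
      have h9 := mul_lt_mul_of_pos_right h8 hd
      have h10 : (θ₂ / 3) ^ 2 * n / 4 * d = (θ₂ / 3) ^ 2 * d * n / 4 := by ring
      rw [h10] at h9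
      refine lt_of_eq_of_lt ?_ h9
      ring
  refine ⟨M, w, ?_⟩
  constructor
  · exact hg.frw
  · exact hg.edm
  · intro c
    have h3 := uc_card hg.frw.free c
    exact rigid_of (by omega) (hL c) (hR c)
  · intro c
    obtain ⟨N, hN⟩ := hR c ∅ (empty_subset _) (by rw [card_empty]; exact Even.zero)
      (by rw [card_empty]; exact Nat.zero_le _)
    rw [sdiff_empty] at hN
    exact ⟨N, hN⟩
  · exact hcut2

end Pool.Agent.Lib.LT
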