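import Pool.Agent.Lib.MP_6d56f7_co_LT.EvFT
import Pool.Agent.Lib.MP_6d56f7_co_LT.GlueQ
import Pool.Agent.Lib.MP_6d56f7_co_LT.BipP

/-!
# Real weights and rigid colour classes in random orderings
-/

set_option autoImplicit false

namespace Pool.Agent.Lib.LT

open Finset Filter Topology Pool.Agent.Lib.FR

open Classical in
private theorem seg_eq {n m : ℕ} (σ : J n ≃ Fin m) (s : J n → Fin 3) (hc : Compat σ s) (t : ℕ) :
    ∃ t' ≤ t, ∀ j, j ∈ seg σ t' ↔ (σ j : ℕ) < t ∧ s j ≠ 0 := by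
  by_cases h : ∃ k : ℕ, ∃ j, s j = 0 ∧ (σ j : ℕ) = k
  · refine ⟨min t (Nat.find h), min_le_left _ _, fun j => ?_⟩
    obtain ⟨j0, h0, h1⟩ := Nat.find_spec h
    simp only [seg, mem_filter, mem_univ, true_and, lt_min_iff]
    refine and_congr_right fun _ => ⟨fun h2 h3 => Nat.find_min h h2 ⟨j, h3, rfl⟩, fun h2 => ?_⟩
    rw [← h1]
    have h3 : s j0 < s j := by
      rw [h0]
      exact Fin.pos_of_ne_zero h2
    exact hc j j0 h3
  · push Not at h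
    refine ⟨t, le_refl _, fun j => ?_⟩
    simp only [seg, mem_filter, mem_univ, true_and]
    exact ⟨fun h2 => ⟨h2, fun h3 => h _ j h3 rfl⟩, fun h2 => h2.1⟩

/-- the additional numerical data for the rigid colour classes -/
private structure NumQ (n : ℕ) (c₁ θ ε₂ θ₂ d : ℝ) (m h : ℕ) : Prop where
  hε₂ : 0 < ε₂
  hθ₂ : 0 < θ₂
  hθ₂' : θ₂ ≤ θ
  hm : 13 ≤ m
  hmε : 8 * m * ε₂ ≤ c₁
  hnθ : 6 ≤ θ₂ * ((2 * n - 1 : ℕ) : ℝ)
  h24 : 24 ≤ (θ₂ / 3) ^ 2 * d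
  hh : (m : ℝ) ^ h ≤ m * (θ₂ * ((2 * n - 1 : ℕ) : ℝ))
  hh' : θ₂ * ((2 * n - 1 : ℕ) : ℝ) ≤ (m : ℝ) ^ h
  hhd : 16 * (2 * (h : ℝ) + 2) ≤ c₁ * d
  hN2 : 4 * (2 * (h : ℝ) + 2) < (θ₂ / 3) ^ 2 * n / 16
  hN3 : 4 * (4 * (2 * (h : ℝ) + 2) + 4 * n / (θ₂ * ((2 * n - 1 : ℕ) : ℝ))) <
      (θ₂ / 3) ^ 2 * n / 4

/-- deterministic part: a good state implies that all orderings compatible with it are good -/
private theorem evQ_of {n : ℕ} (hn : 6 ≤ n) {c₁ θ η δ δ' d D : ℝ} (hc₁ : 0 < c₁) (hc₁' : c₁ ≤ 1)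
    (hθ : 0 < θ) (hη0 : 0 ≤ η) (hη : η / θ + 6 / d ≤ 1 / 66) (hd : 0 < d) (hδ : 0 ≤ δ)
    (hδ' : 0 ≤ δ') (hδδ' : δ + 3 / d + δ' / c₁ ≤ c₁ / (4 * 4 * (1 + 264 * 4)))
    (hD : c₁ * d + 3 ≤ D) (hcut : 16 * d + 3 * n ≤ θ * d * n / 8)
    (hθn : ∀ k : ℕ, k ^ 2 ≤ n → (k : ℝ) ≤ θ * ((2 * n - 1 : ℕ) : ℝ))
    {ε₂ θ₂ : ℝ} {m₂ h₂ : ℕ} (hq : NumQ n c₁ θ ε₂ θ₂ d m₂ h₂)
    {m : ℕ} (σ : J n ≃ Fin m) (s : J n → Fin 3) (hc : Compat σ s)
    (hg : GoodS n c₁ θ η δ δ' d D s)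
    (hcnt : (3 * cnt (fun a : El n => (dg n s a : ℝ) < D)) ^ 8 ≤ n)
    (hS₂ : Sparse ε₂ θ₂ d (Lp n s))
    (hBip : BipB ((θ₂ / 3) ^ 2 * d * n / 2) (θ₂ / 3) (Lm n s)) : EvQ σ := by
  intro t hcov0
  have hcov : ∀ a : El n, ∃ j ∈ st n a, (σ j : ℕ) < t := by
    intro a
    obtain ⟨T, hT, hTa⟩ := hcov0 a
    exact ⟨T, hTa, (mem_filter.mp hT).2⟩
  obtain ⟨t', ht', hseg⟩ := seg_eq σ s hc t
  have hA : ∀ j, s j = 2 → j ∈ seg σ t' := by
    intro j hj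
    have h3 := hg.notc
    push Not at h3
    obtain ⟨e, he⟩ := h3
    obtain ⟨⟨c, e'⟩, hc', hlt⟩ := hcov (.inl e)
    have he' : e' = e := mem_st_inl.mp hc'
    subst he'
    have h4 : s (c, e') < s j := by
      have h5 := he c
      rw [hj]
      revert h5
      generalize s (c, e') = a
      fin_cases a <;> simp
    have h5 : σ j < σ (c, e') := hc j (c, e') h4
    have h6 : (σ j : ℕ) < (σ (c, e') : ℕ) := h5
    rw [hseg]
    refine ⟨by omega, ?_⟩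
    rw [hj]
    decide
  have hB : ∀ j ∈ seg σ t', s j ≠ 0 := fun j hj => ((hseg j).mp hj).2
  have hC : ∀ a : El n, ∃ j ∈ st n a, j ∈ seg σ t' := by
    intro a
    obtain ⟨j1, hj1, ht1⟩ := hcov a
    by_cases h3 : s j1 = 0
    · have h4 := hg.high
      push Not at h4
      obtain ⟨j2, hj2, hs2⟩ := h4 a
      have h5 : s j1 < s j2 := by
        rw [h3]
        exact Fin.pos_of_ne_zero hs2
      have h6 : (σ j2 : ℕ) < (σ j1 : ℕ) := hc j2 j1 h5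
      exact ⟨j2, hj2, (hseg j2).mpr ⟨by omega, hs2⟩⟩
    · exact ⟨j1, hj1, (hseg j1).mpr ⟨ht1, h3⟩⟩
  refine ⟨t', ht', fun a => ?_, ?_⟩
  · obtain ⟨j, hj, hj'⟩ := hC a
    exact ⟨j, hj', hj⟩
  · exact glue_q hn hc₁ hc₁' hθ hη0 hη hd hδ hδ' hδδ' hD hcut hθn s hg.bulk hg.sparse
      hg.maxd hg.few hg.low hg.cut hcnt hq.hε₂ hq.hθ₂ hq.hθ₂' hq.hm hq.hmε hS₂ hBip hq.hnθ
      hq.h24 hq.hh hq.hh' hq.hhd hq.hN2 hq.hN3 (seg σ t') hA hB hC

/-- the numerical data exist for large `n` -/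
private theorem numQ_ev {c₁ θ ε₂ θ₂ : ℝ} {m : ℕ} (hc₁ : c₁ = 1 / 400) (hε₂ : 0 < ε₂)
    (hθ₂ : 0 < θ₂) (hθ₂' : θ₂ ≤ θ) (hθ₂1 : θ₂ ≤ 1) (hm : 13 ≤ m) (hmε : 8 * m * ε₂ ≤ c₁)
    (hlm : 7000 ≤ Real.log m) :
    ∀ᶠ n : ℕ in atTop, ∃ h : ℕ, NumQ n c₁ θ ε₂ θ₂ (2 * Real.log n) m h := by
  have he0 : 0 < (θ₂ / 3) ^ 2 := by positivity
  filter_upwards [Asy.ev_nat 6, Asy.ev_nat (6 / θ₂), Asy.ev_log (12 / (θ₂ / 3) ^ 2),
    Asy.ev_log 150000, Asy.ev_ratio he0, Asy.ev_nat (128 / (θ₂ * (θ₂ / 3) ^ 2))] with n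
    hn6 hn1 hl1 hl2 hr hn2
  have hn6' : 6 ≤ n := by exact_mod_cast hn6
  have hcast : ((2 * n - 1 : ℕ) : ℝ) = 2 * n - 1 := by
    rw [Nat.cast_sub (by omega)]
    push_cast
    ring
  have hτn : (n : ℝ) ≤ ((2 * n - 1 : ℕ) : ℝ) := by
    rw [hcast]
    linarith
  obtain ⟨τ, hτ⟩ : ∃ τ : ℝ, τ = θ₂ * ((2 * n - 1 : ℕ) : ℝ) := ⟨_, rfl⟩
  have hτ6 : 6 ≤ τ := by
    rw [hτ]
    rw [div_le_iff₀ hθ₂] at hn1
    calc (6 : ℝ) ≤ n * θ₂ := hn1
      _ = θ₂ * n := mul_comm _ _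
      _ ≤ _ := mul_le_mul_of_nonneg_left hτn hθ₂.le
  have hτ0 : 0 < τ := by linarith
  have hlτ0 : 0 ≤ Real.log τ := Real.log_nonneg (by linarith)
  have hlm0 : 0 < Real.log m := by linarith
  have hm0 : (0 : ℝ) < m := by
    have : (13 : ℝ) ≤ m := by exact_mod_cast hm
    linarith
  have hlτ : Real.log τ ≤ Real.log n + 1 := by
    have h1 : τ ≤ 2 * n := by
      rw [hτ]
      have h3 : (0 : ℝ) ≤ ((2 * n - 1 : ℕ) : ℝ) := Nat.cast_nonneg _
      have h2 : θ₂ * ((2 * n - 1 : ℕ) : ℝ) ≤ 1 * ((2 * n - 1 : ℕ) : ℝ) :=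
        mul_le_mul_of_nonneg_right hθ₂1 h3
      rw [hcast] at h2 ⊢
      linarith
    have h2 : Real.log τ ≤ Real.log (2 * n) := Real.log_le_log hτ0 h1
    have h3 : Real.log (2 * n) = Real.log 2 + Real.log n :=
      Real.log_mul (by norm_num) (by positivity)
    have h4 := Real.log_two_lt_d9
    linarith
  obtain ⟨h, hh⟩ : ∃ h : ℕ, h = ⌈Real.log τ / Real.log m⌉₊ := ⟨_, rfl⟩
  have h1 : Real.log τ ≤ h * Real.log m := by
    have h2 : Real.log τ / Real.log m ≤ h := by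
      rw [hh]
      exact Nat.le_ceil _
    rwa [div_le_iff₀ hlm0] at h2
  have h2 : (h : ℝ) * Real.log m ≤ Real.log τ + Real.log m := by
    have h3 : (h : ℝ) < Real.log τ / Real.log m + 1 := by
      rw [hh]
      exact Nat.ceil_lt_add_one (div_nonneg hlτ0 hlm0.le)
    have h4 : (h : ℝ) * Real.log m ≤ (Real.log τ / Real.log m + 1) * Real.log m :=
      mul_le_mul_of_nonneg_right h3.le hlm0.le
    have h5 : (Real.log τ / Real.log m + 1) * Real.log m = Real.log τ + Real.log m := by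
      field_simp
    linarith
  have hpow : (m : ℝ) ^ h = Real.exp (h * Real.log m) := by
    rw [Real.exp_nat_mul, Real.exp_log hm0]
  have hhb : 7000 * (h : ℝ) ≤ Real.log n + 1 + 7000 := by
    have h3 : (h : ℝ) ≤ Real.log τ / Real.log m + 1 := by
      rw [hh]
      exact (Nat.ceil_lt_add_one (div_nonneg hlτ0 hlm0.le)).le
    have h4 : Real.log τ / Real.log m ≤ (Real.log n + 1) / 7000 :=
      div_le_div₀ (by linarith) hlτ (by norm_num) hlm
    have h5 : (h : ℝ) ≤ (Real.log n + 1) / 7000 + 1 := by linarith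
    calc 7000 * (h : ℝ) ≤ 7000 * ((Real.log n + 1) / 7000 + 1) :=
          mul_le_mul_of_nonneg_left h5 (by norm_num)
      _ = _ := by ring
  have hh200 : 16 * (2 * (h : ℝ) + 2) ≤ Real.log n / 200 := by linarith
  have hn0 : (0 : ℝ) < n := by linarith
  have hen : 0 < (θ₂ / 3) ^ 2 * n := by positivity
  refine ⟨h, hε₂, hθ₂, hθ₂', hm, hmε, ?_, ?_, ?_, ?_, ?_, ?_, ?_⟩
  · rw [← hτ]
    exact hτ6
  · rw [div_le_iff₀ he0] at hl1
    linarith
  · rw [← hτ, hpow]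
    calc Real.exp (h * Real.log m) ≤ Real.exp (Real.log τ + Real.log m) :=
          Real.exp_le_exp.mpr h2
      _ = m * τ := by
          rw [Real.exp_add, Real.exp_log hτ0, Real.exp_log hm0, mul_comm]
  · rw [← hτ, hpow]
    calc τ = Real.exp (Real.log τ) := (Real.exp_log hτ0).symm
      _ ≤ _ := Real.exp_le_exp.mpr h1
  · rw [hc₁]
    linarith
  · linarith
  · rw [← hτ]
    have h3 : 4 * n / τ ≤ 4 / θ₂ := by
      rw [div_le_div_iff₀ hτ0 hθ₂, hτ]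
      have := mul_le_mul_of_nonneg_left hτn hθ₂.le
      linarith
    have h4 : 4 * (4 / θ₂) ≤ (θ₂ / 3) ^ 2 * n / 8 := by
      rw [div_le_iff₀ (by positivity)] at hn2
      rw [← mul_div_assoc, div_le_div_iff₀ hθ₂ (by norm_num)]
      linarith
    linarith

/-- the bound for the edges between large disjoint sets tends to zero -/
private theorem bip_ev {e : ℝ} (he : 0 < e) :
    Tendsto (fun n : ℕ => 2 * (n : ℝ) * 16 ^ n *
      Real.exp (-(e * (2 * Real.log n) * n / 2))) atTop (𝓝 0) := by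
  refine Asy.squeeze 2 0 (by norm_num : (0 : ℝ) < 1)
    (Eventually.of_forall fun n => by positivity) ?_
  filter_upwards [Asy.ev_nat 1, Asy.ev_log (6 / e)] with n h1 h2
  have h3 : 6 ≤ e * Real.log n := by
    rw [div_le_iff₀ he] at h2
    linarith
  have h4 : (16 : ℝ) ^ n ≤ Real.exp (4 * n) := by
    have h5 : (16 : ℝ) ≤ Real.exp 4 := by
      have h6 : Real.exp 4 = Real.exp 1 ^ 4 := by
        rw [← Real.exp_nat_mul]
        norm_num
      rw [h6]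
      have h7 := Real.exp_one_gt_d9
      have h8 : (2 : ℝ) ^ 4 ≤ Real.exp 1 ^ 4 :=
        pow_le_pow_left₀ (by norm_num) (by linarith) 4
      norm_num at h8 ⊢
      linarith
    calc (16 : ℝ) ^ n ≤ (Real.exp 4) ^ n := pow_le_pow_left₀ (by norm_num) h5 n
      _ = Real.exp (4 * n) := by
          rw [← Real.exp_nat_mul]
          ring_nf
  have h5 : Real.exp (-(e * (2 * Real.log n) * n / 2)) ≤ Real.exp (-(6 * n)) := by
    rw [Real.exp_le_exp]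
    nlinarith
  have h6 : (n : ℝ) ≤ Real.exp (Real.log n) := (Asy.nat_eq h1).le
  calc 2 * (n : ℝ) * 16 ^ n * Real.exp (-(e * (2 * Real.log n) * n / 2))
      ≤ 2 * Real.exp (Real.log n) * Real.exp (4 * n) * Real.exp (-(6 * n)) := by
        gcongr
    _ = 2 * Real.exp (Real.log n + 4 * n + -(6 * n)) := by
        rw [Real.exp_add, Real.exp_add]
        ring
    _ ≤ 2 * (Real.log n) ^ 0 * Real.exp (-(1 * Real.log n)) := by
        rw [pow_zero, mul_one]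
        refine mul_le_mul_of_nonneg_left ?_ (by norm_num)
        rw [Real.exp_le_exp]
        have := Asy.log_le n
        linarith

/-- the share of the orderings without weights and rigid colour classes tends to zero -/
theorem evQ_share : Tendsto (fun n : ℕ =>
    (Set.ncard {σ : J n ≃ Fin (Nat.card (J n)) | ¬ EvQ σ} : ℝ) /
      (Nat.card (J n ≃ Fin (Nat.card (J n))) : ℝ)) atTop (𝓝 0) := by
  -- constants
  obtain ⟨c₁, hc₁⟩ : ∃ c : ℝ, c = 1 / 400 := ⟨_, rfl⟩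
  obtain ⟨κ, hκ⟩ : ∃ κ : ℝ, κ = c₁ / (4 * 4 * (1 + 264 * 4)) := ⟨_, rfl⟩
  have hκ0 : 0 < κ := by
    rw [hκ, hc₁]
    norm_num
  obtain ⟨δ, hδ⟩ : ∃ δ : ℝ, δ = κ / 3 := ⟨_, rfl⟩
  obtain ⟨δ', hδ'⟩ : ∃ δ' : ℝ, δ' = c₁ * κ / 3 := ⟨_, rfl⟩
  obtain ⟨θ, hθ⟩ : ∃ θ : ℝ, θ = Real.exp (-8 / (c₁ / (16 * (1 + 264 * 4)))) := ⟨_, rfl⟩
  have hθ0 : 0 < θ := by
    rw [hθ]
    exact Real.exp_pos _
  obtain ⟨η, hη⟩ : ∃ η : ℝ, η = θ / 132 := ⟨_, rfl⟩
  obtain ⟨γ, hγ⟩ : ∃ γ : ℝ, γ = δ / 8 := ⟨_, rfl⟩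
  obtain ⟨k, hk⟩ : ∃ k : ℕ, 16 / δ ^ 2 ≤ k := exists_nat_ge _
  obtain ⟨m, hm7⟩ : ∃ m : ℕ, 7000 ≤ Real.log m := (Asy.ev_log 7000).exists
  obtain ⟨ε₂, hε₂⟩ : ∃ ε : ℝ, ε = c₁ / (8 * m) := ⟨_, rfl⟩
  obtain ⟨θ₂, hθ₂⟩ : ∃ θ : ℝ, θ = Real.exp (-8 / ε₂) := ⟨_, rfl⟩
  have hc0 : 0 < c₁ := by rw [hc₁]; norm_num
  have hc1 : c₁ ≤ 1 := by rw [hc₁]; norm_num
  have hmR : (7000 : ℝ) ≤ m := hm7.trans (Asy.log_le m)
  have hm13 : 13 ≤ m := by
    have h1 : 7000 ≤ m := by exact_mod_cast hmR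
    omega
  have hm0 : (0 : ℝ) < m := by linarith
  have hε₂0 : 0 < ε₂ := by
    rw [hε₂]
    positivity
  have hε₂1 : ε₂ ≤ 1 := by
    rw [hε₂, div_le_one (by positivity)]
    linarith
  have hmε : 8 * m * ε₂ ≤ c₁ := by
    rw [hε₂]
    refine le_of_eq ?_
    field_simp
  have hθ₂0 : 0 < θ₂ := by
    rw [hθ₂]
    exact Real.exp_pos _
  have hθ₂1 : θ₂ ≤ 1 := by
    rw [hθ₂, Real.exp_le_one_iff]
    exact div_nonpos_of_nonpos_of_nonneg (by norm_num) hε₂0.le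
  have hθ₂' : θ₂ ≤ θ := by
    rw [hθ₂, hθ, Real.exp_le_exp, neg_div, neg_div, neg_le_neg_iff]
    refine div_le_div_of_nonneg_left (by norm_num) hε₂0 ?_
    rw [hε₂]
    exact div_le_div_of_nonneg_left hc0.le (by norm_num) (by linarith)
  have he0 : 0 < (θ₂ / 3) ^ 2 := by positivity
  have hδ0 : 0 < δ := by rw [hδ]; positivity
  have hδ'0 : 0 < δ' := by rw [hδ']; positivity
  have hκ1 : κ ≤ 1 / 1000 := by
    rw [hκ, hc₁]
    norm_num
  have hδ1 : δ ≤ 1 / 2 := by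
    rw [hδ]
    linarith
  have hη0 : 0 < η := by rw [hη]; positivity
  have hγ0 : 0 < γ := by rw [hγ]; positivity
  have hγ1 : γ ≤ 1 / 100 := by
    rw [hγ, hδ]
    linarith
  let d : ℕ → ℝ := fun n => 2 * Real.log n
  let pm' : ℕ → ℝ := fun n => (1 - γ) * (2 * Real.log n) / (2 * n - 1)
  let pp' : ℕ → ℝ := fun n => (1 + γ) * (2 * Real.log n) / (2 * n - 1)
  let B : ℕ → ℝ := fun n =>
      100 / (η * √(2 * Real.log n)) + 200 * (n : ℝ) ^ 3 * Real.exp (-5 * (2 * Real.log n)) +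
      8 * (n : ℝ) ^ 2 * Real.exp (-(2 * (2 * Real.log n))) +
      20 * (n : ℝ) ^ 2 *
        (20 * (2 * Real.log n) * Real.exp (-(δ ^ 2 * (2 * Real.log n) / 8))) ^ k +
      36 * (n : ℝ) ^ 3 * (12 * (n : ℝ) ^ 2 * pp' n ^ 2 + pp' n) *
        Real.exp (2 * 4 * (Real.log n / 100) - (1 - Real.exp (-4)) * (pm' n * (4 * n - 5))) +
      2 * (n : ℝ) * 4 ^ n * Real.exp (-(2 / 5 * θ * (2 * Real.log n) * n)) +
      6 * (n : ℝ) ^ 2 * Real.exp (-((1 + γ) * (2 * Real.log n))) +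
      Real.exp (-((n * (2 * n - 1) : ℕ) * (1 - pm' n) ^ (2 * n - 1))) +
      200 * (n : ℝ) ^ 3 * Real.exp (-5 * (2 * Real.log n)) +
      2 * (n : ℝ) * 16 ^ n * Real.exp (-((θ₂ / 3) ^ 2 * (2 * Real.log n) * n / 2))
  have hB : Tendsto B atTop (𝓝 0) := by
    have h := ((((((Asy.t1 hη0).add Asy.t2).add Asy.t3).add (Asy.t4 hδ0 hk)).add
      (Asy.t5 hγ0 hγ1 (pm := pm') (pp := pp') (Eventually.of_forall fun n => rfl)
        (Eventually.of_forall fun n => rfl))).add (Asy.t6 hθ0)).add (Asy.t7 hγ0) |>.add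
      (Asy.t8 hγ0 (by linarith) (p := pm') (Eventually.of_forall fun n => rfl)) |>.add
      Asy.t2 |>.add (bip_ev he0)
    simp only [add_zero] at h
    exact h
  have hbad : ∀ ε : ℝ, 0 < ε → ∀ᶠ n : ℕ in atTop,
      (Set.ncard {σ : J n ≃ Fin (Nat.card (J n)) | ¬ EvQ σ} : ℝ) /
        (Nat.card (J n ≃ Fin (Nat.card (J n))) : ℝ) ≤ B n + ε := by
    intro ε hε
    filter_upwards [Asy.ev_nat 6, Asy.ev_nat (256 / θ), Asy.ev_nat (1 / θ ^ 2),
      Asy.ev_log 1, Asy.ev_log (792 / 2),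
      Asy.ev_log (9 / κ), Asy.ev_log 1200, Asy.ev_log (24 / θ), Asy.ev_log (8 * k / δ),
      Asy.ev_log (4 * k / δ'), Asy.ev_ratio (by norm_num : (0 : ℝ) < 1 / 2), low_count hε,
      numQ_ev hc₁ hε₂0 hθ₂0 hθ₂' hθ₂1 hm13 hmε hm7] with n
      hn6 hnθ hnθ2 hl1 hl2 hl3 hl4 hl5 hl6 hl7 hr hlc ⟨h₂, hnum⟩
    have hn6' : 6 ≤ n := by exact_mod_cast hn6
    have hnpos : (0 : ℝ) < 2 * n - 1 := by linarith
    have hlog : 0 < Real.log n := by linarith
    have hpar : Par (δ / 8) n (pm' n) (pp' n) (d n) := by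
      refine ⟨hn6', ?_, ?_, ?_, ?_, ?_, ?_⟩
      · exact div_nonneg (mul_nonneg (by linarith) (by positivity)) hnpos.le
      · refine div_le_div_of_nonneg_right ?_ hnpos.le
        nlinarith
      · show (1 + γ) * (2 * Real.log n) / (2 * n - 1) ≤ 1
        rw [div_le_one hnpos]
        nlinarith
      · show 1 ≤ 2 * Real.log n
        linarith
      · rw [← hγ]
        show (1 - γ) * (2 * Real.log n) ≤ (2 * n - 1) * ((1 - γ) * (2 * Real.log n) / (2 * n - 1))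
        rw [mul_div_cancel₀ _ hnpos.ne']
      · rw [← hγ]
        show (2 * n - 1) * ((1 + γ) * (2 * Real.log n) / (2 * n - 1)) ≤ (1 + γ) * (2 * Real.log n)
        rw [mul_div_cancel₀ _ hnpos.ne']
    have hd0 : 0 < d n := by
      show 0 < 2 * Real.log n
      linarith
    have e1 : η / θ + 6 / d n ≤ 1 / 66 := by
      have h3 : η / θ = 1 / 132 := by
        rw [hη]
        field_simp
      have h4 : 6 / d n ≤ 1 / 132 := by
        rw [div_le_div_iff₀ hd0 (by norm_num)]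
        show 6 * 132 ≤ 1 * (2 * Real.log n)
        linarith
      rw [h3]
      linarith
    have e2 : δ + 3 / d n + δ' / c₁ ≤ c₁ / (4 * 4 * (1 + 264 * 4)) := by
      rw [← hκ]
      have h3 : δ' / c₁ = κ / 3 := by
        rw [hδ']
        field_simp
      have h4 : 3 / d n ≤ κ / 3 := by
        rw [div_le_div_iff₀ hd0 (by norm_num)]
        show 3 * 3 ≤ κ * (2 * Real.log n)
        rw [div_le_iff₀ hκ0] at hl3
        nlinarith
      rw [h3, hδ]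
      linarith
    have e3 : c₁ * d n + 3 ≤ Real.log n / 100 := by
      show c₁ * (2 * Real.log n) + 3 ≤ Real.log n / 100
      rw [hc₁]
      linarith
    have e4 : 16 * d n + 3 * n ≤ θ * d n * n / 8 := by
      show 16 * (2 * Real.log n) + 3 * n ≤ θ * (2 * Real.log n) * n / 8
      have h3 : 3 * (n : ℝ) ≤ θ * (2 * Real.log n) * n / 16 := by
        have h4 : 48 ≤ θ * (2 * Real.log n) := by
          rw [div_le_iff₀ hθ0] at hl5
          nlinarith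
        have h5 : (0 : ℝ) ≤ n := by linarith
        nlinarith
      have h4 : 16 * (2 * Real.log n) ≤ θ * (2 * Real.log n) * n / 16 := by
        have h5 : 256 ≤ n * θ := by
          rw [div_le_iff₀ hθ0] at hnθ
          exact hnθ
        nlinarith
      linarith
    have e5 : 8 * (k : ℝ) ≤ δ * d n := by
      show 8 * (k : ℝ) ≤ δ * (2 * Real.log n)
      rw [div_le_iff₀ hδ0] at hl6
      nlinarith
    have e6 : 4 * (k : ℝ) ≤ δ' * d n := by
      show 4 * (k : ℝ) ≤ δ' * (2 * Real.log n)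
      rw [div_le_iff₀ hδ'0] at hl7
      nlinarith
    have e7 : 4 * n * Real.exp (-(5 / 2 * d n)) ≤ 1 := by
      show 4 * n * Real.exp (-(5 / 2 * (2 * Real.log n))) ≤ 1
      have h3 : Real.exp (-(5 / 2 * (2 * Real.log n))) ≤ Real.exp (-(2 * Real.log n)) := by
        rw [Real.exp_le_exp]
        linarith
      have h4 : Real.exp (-(2 * Real.log n)) = 1 / (n : ℝ) ^ 2 := by
        rw [Real.exp_neg, one_div]
        congr 1
        have h5 : (n : ℝ) ^ 2 = Real.exp (2 * Real.log n) := by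
          conv_lhs => rw [Asy.nat_eq (by linarith : (1 : ℝ) ≤ n)]
          rw [← Real.exp_nat_mul]
          norm_num
        exact h5.symm
      rw [h4] at h3
      have hn : (0 : ℝ) < n := by linarith
      calc 4 * n * Real.exp (-(5 / 2 * (2 * Real.log n))) ≤ 4 * n * (1 / (n : ℝ) ^ 2) :=
            mul_le_mul_of_nonneg_left h3 (by positivity)
        _ = 4 / n := by
            field_simp
        _ ≤ 1 := by
            rw [div_le_one hn]
            linarith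
    have e8 : ∀ k : ℕ, k ^ 2 ≤ n → (k : ℝ) ≤ θ * ((2 * n - 1 : ℕ) : ℝ) := by
      intro k hkn
      have h0 : (n : ℝ) ≤ ((2 * n - 1 : ℕ) : ℝ) := by
        exact_mod_cast (by omega : n ≤ 2 * n - 1)
      have h1 : (k : ℝ) ^ 2 ≤ n := by exact_mod_cast hkn
      have h2 : 1 ≤ (n : ℝ) * θ ^ 2 := by
        rw [div_le_iff₀ (by positivity)] at hnθ2
        exact hnθ2
      have h3 : (k : ℝ) ≤ θ * n := by
        by_contra h4
        push Not at h4
        have h5 : (θ * n) ^ 2 < (k : ℝ) ^ 2 := by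
          have h6 : (0 : ℝ) ≤ θ * n := by positivity
          exact pow_lt_pow_left₀ h4 h6 two_ne_zero
        have h7 : (n : ℝ) ≤ (θ * n) ^ 2 := by
          have h8 : (0 : ℝ) ≤ n := by linarith
          nlinarith
        linarith
      calc (k : ℝ) ≤ θ * n := h3
        _ ≤ θ * ((2 * n - 1 : ℕ) : ℝ) := mul_le_mul_of_nonneg_left h0 hθ0.le
    have hq := qq_nonneg hpar.pm0 hpar.pmpp hpar.pp1
    have hmix := mix (J := J n) (m := Nat.card (J n)) Nat.card_eq_fintype_card.symm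
      (qq (pm' n) (pp' n)) hq (qq_sum _ _) (fun σ => ¬ EvQ σ)
      (fun s => ((¬ GoodS n c₁ θ η δ δ' (d n) (Real.log n / 100) s ∨
        ¬ Sparse ε₂ θ₂ (d n) (Lp n s)) ∨
        ¬ BipB ((θ₂ / 3) ^ 2 * d n * n / 2) (θ₂ / 3) (Lm n s)) ∨
        ¬ (3 * cnt (fun a : El n => (dg n s a : ℝ) < Real.log n / 100)) ^ 8 ≤ n) (by
        intro σ s hc hbad
        by_contra hcon
        simp only [not_or, not_not] at hcon
        exact hbad (evQ_of hn6' hc0 hc1 hθ0 hη0.le e1 hd0 hδ0.le hδ'0.le e2 e3 e4 e8 hnum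
          σ s hc hcon.1.1.1 hcon.2 hcon.1.1.2 hcon.1.2))
    have hp8 : Par (1 / 8) n (pm' n) (pp' n) (d n) := by
      have hd1 := hpar.d1
      refine ⟨hpar.n6, hpar.pm0, hpar.pmpp, hpar.pp1, hpar.d1, ?_, ?_⟩
      · refine le_trans ?_ hpar.lo
        nlinarith
      · refine hpar.hi.trans ?_
        nlinarith
    have hsp2 := sparse_prob (ε := ε₂) hp8 hε₂0 hε₂1 e7
    rw [← hθ₂] at hsp2
    have hbip := bip_prob hp8 (θ := θ₂ / 3) (by positivity)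
    have hbp := bad_prob (D := Real.log n / 100) hc0 hc1 hθ hη0 hδ0 hδ1 hpar e5 e6 e7
    have hlow : Pr (qq (pm' n) (pp' n)) (fun s : J n → Fin 3 =>
        ¬ (3 * cnt (fun a : El n => (dg n s a : ℝ) < Real.log n / 100)) ^ 8 ≤ n) ≤ ε := by
      refine hlc (pm' n) (pp' n) ?_ hpar.pmpp hpar.pp1
      show 99 / 50 * Real.log n / (2 * n - 1) ≤ (1 - γ) * (2 * Real.log n) / (2 * n - 1)
      refine div_le_div_of_nonneg_right ?_ hnpos.le
      nlinarith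
    refine hmix.trans ((Pr_or hq _ _).trans (add_le_add ?_ hlow))
    refine (Pr_or hq _ _).trans (add_le_add ?_ hbip)
    refine (Pr_or hq _ _).trans (add_le_add (hbp.trans (le_of_eq ?_)) hsp2)
    have e9 : (2 * (n : ℝ) - 1) * pp' n = (1 + γ) * (2 * Real.log n) := by
      show (2 * (n : ℝ) - 1) * ((1 + γ) * (2 * Real.log n) / (2 * n - 1)) = _
      rw [mul_div_cancel₀ _ hnpos.ne']
    rw [e9]
  refine tendsto_order.mpr ⟨fun a ha => Eventually.of_forall fun n =>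
    lt_of_lt_of_le ha (by positivity), fun a ha => ?_⟩
  filter_upwards [hbad (a / 2) (by positivity),
    hB.eventually_lt_const (by positivity : (0 : ℝ) < a / 2)] with n h1 h2
  linarith

end Pool.Agent.Lib.LT
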