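import Pool.Agent.Lib.MP_6d56f7_co_LT.Defs

/-!
# One-factorizations of complete graphs
-/

set_option autoImplicit false

namespace Pool.Agent.Lib.LT

open Finset Pool.Agent.Lib.FR

/-- from a symmetric function on pairs of vertices to a function on edges -/
private theorem of_fun {V C : Type} (f : V → V → C) (hs : ∀ u v, f u v = f v u)
    (hf : ∀ v c, ∃! w, w ≠ v ∧ f v w = c) :
    ∃ φ : Edge V → C, ∀ (v : V) (c : C), ∃! e : Edge V, v ∈ e.1 ∧ φ e = c := by
  refine ⟨fun e => Sym2.lift ⟨f, hs⟩ e.1, fun v c => ?_⟩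
  obtain ⟨w, ⟨hwv, hw⟩, hu⟩ := hf v c
  refine ⟨⟨s(v, w), ?_⟩, ⟨?_, ?_⟩, ?_⟩
  · rw [Sym2.mk_isDiag_iff]
    exact fun h => hwv h.symm
  · exact Sym2.mem_mk_left v w
  · simpa using hw
  · rintro ⟨e, he⟩ ⟨h1, h2⟩
    obtain ⟨x, hx⟩ := h1
    simp only at hx
    subst hx
    rw [Sym2.mk_isDiag_iff] at he
    have h3 : f v x = c := by simpa using h2
    have h4 : x = w := hu x ⟨fun h => he h.symm, h3⟩
    exact Subtype.ext (congrArg (fun z => s(v, z)) h4)

/-- the colour of a pair -/
private def col (k : ℕ) : Option (ZMod (2 * k + 1)) → Option (ZMod (2 * k + 1)) →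
    ZMod (2 * k + 1)
  | some i, some j => i + j
  | some i, none => 2 * i
  | none, some i => 2 * i
  | none, none => 0

private theorem col_symm (k : ℕ) (u v : Option (ZMod (2 * k + 1))) :
    col k u v = col k v u := by
  cases u <;> cases v <;> simp [col, add_comm]

private theorem half (k : ℕ) (c : ZMod (2 * k + 1)) :
    2 * (((k : ZMod (2 * k + 1)) + 1) * c) = c := by
  have h : ((2 * k + 1 : ℕ) : ZMod (2 * k + 1)) = 0 := ZMod.natCast_self _
  push_cast at h
  calc 2 * (((k : ZMod (2 * k + 1)) + 1) * c)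
      = (2 * (k : ZMod (2 * k + 1)) + 1) * c + c := by ring
    _ = c := by rw [h]; ring

private theorem half_inj (k : ℕ) {i j : ZMod (2 * k + 1)} (h : 2 * i = 2 * j) : i = j := by
  have h1 := half k i
  have h2 := half k j
  have h3 : 2 * (((k : ZMod (2 * k + 1)) + 1) * i) = ((k : ZMod (2 * k + 1)) + 1) * (2 * i) := by
    ring
  have h4 : 2 * (((k : ZMod (2 * k + 1)) + 1) * j) = ((k : ZMod (2 * k + 1)) + 1) * (2 * j) := by
    ring
  rw [← h1, ← h2, h3, h4, h]

private theorem col_unique (k : ℕ) (v : Option (ZMod (2 * k + 1))) (c : ZMod (2 * k + 1)) :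
    ∃! w, w ≠ v ∧ col k v w = c := by
  cases v with
  | none =>
    refine ⟨some (((k : ZMod (2 * k + 1)) + 1) * c), ⟨by simp, ?_⟩, ?_⟩
    · exact half k c
    · rintro (_ | w) ⟨h1, h2⟩
      · exact absurd rfl h1
      · congr 1
        apply half_inj k
        rw [half k c]
        exact h2
  | some i =>
    by_cases hc : c = 2 * i
    · refine ⟨none, ⟨by simp, ?_⟩, ?_⟩
      · exact hc.symm
      · rintro (_ | w) ⟨h1, h2⟩
        · rfl
        · exfalso
          apply h1
          congr 1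
          have h3 : i + w = c := h2
          rw [hc] at h3
          linear_combination h3
    · refine ⟨some (c - i), ⟨?_, ?_⟩, ?_⟩
      · intro h
        apply hc
        have h3 : c - i = i := Option.some.inj h
        linear_combination h3
      · change i + (c - i) = c
        ring
      · rintro (_ | w) ⟨h1, h2⟩
        · exact absurd h2.symm hc
        · congr 1
          have h3 : i + w = c := h2
          linear_combination h3

/-- a one-factorization of the complete graph -/
theorem one_factorization (n : ℕ) (hn : 1 ≤ n) :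
    ∃ φ : Edge (Fin (2 * n)) → Fin (2 * n - 1),
      ∀ (v : Fin (2 * n)) (c : Fin (2 * n - 1)), ∃! e : Edge (Fin (2 * n)), v ∈ e.1 ∧ φ e = c := by
  obtain ⟨k, rfl⟩ : ∃ k, n = k + 1 := ⟨n - 1, by omega⟩
  have e1 : Fin (2 * (k + 1)) ≃ Option (ZMod (2 * k + 1)) :=
    Fintype.equivOfCardEq (by simp [ZMod.card]; ring)
  have e2 : ZMod (2 * k + 1) ≃ Fin (2 * (k + 1) - 1) :=
    Fintype.equivOfCardEq (by rw [ZMod.card, Fintype.card_fin]; omega)
  refine of_fun (fun u v => e2 (col k (e1 u) (e1 v))) (fun u v => by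
    rw [col_symm]) (fun v c => ?_)
  obtain ⟨w, ⟨hw1, hw2⟩, hu⟩ := col_unique k (e1 v) (e2.symm c)
  refine ⟨e1.symm w, ⟨?_, ?_⟩, ?_⟩
  · intro h
    apply hw1
    rw [← h, Equiv.apply_symm_apply]
  · simp only [Equiv.apply_symm_apply, hw2]
  · rintro x ⟨hx1, hx2⟩
    have h5 : e1 x = w := by
      apply hu
      refine ⟨fun h => hx1 (e1.injective h), ?_⟩
      rw [← hx2, Equiv.symm_apply_apply]
    rw [← h5, Equiv.symm_apply_apply]

end Pool.Agent.Lib.LT
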