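import Pool.Agent.Lib.MP_6d56f7_co_LT.Basis
import Pool.Agent.Lib.MP_6d56f7_co_LT.Cyl
import Pool.Agent.Lib.MP_6d56f7_co_LT.Sums
import Pool.Agent.Lib.MP_6d56f7_co_FR.Asy

/-!
# The lattice of the small system contains almost all incidence vectors
-/

set_option autoImplicit false

namespace Pool.Agent.Lib.LT

open Finset Filter Pool.Agent.Lib.FR

private lemma fp_pm_nonneg : ∀ᶠ n : ℕ in atTop, 0 ≤ pm n := by
  filter_upwards [eventually_ge_atTop 1] with n hn
  have h1 : (1 : ℝ) ≤ n := by exact_mod_cast hn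
  have h2 := Real.log_nonneg h1
  unfold pm
  exact div_nonneg (by positivity) (by linarith)

private lemma fp_inc (n : ℕ) (i : J n) : ∑ e, |inc n i e| ≤ 3 := by
  classical
  have h1 : ∀ e, |inc n i e| = if i ∈ st n e then (1 : ℤ) else 0 := by
    intro e
    unfold inc
    split_ifs <;> simp
  rw [sum_congr rfl fun e _ => h1 e, sum_boole]
  exact_mod_cast els_card n i

/-- the numerical bound -/
private lemma fp_num {δ : ℝ} (hδ : 0 < δ) : ∀ᶠ n : ℕ in atTop,
    (1 / (1 / (2 * 10 ^ 7)) : ℝ) ^ (3 * Fintype.card (El n)) *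
      Real.exp (pm n * (1 / (2 * 10 ^ 7)) * Fintype.card (J n)) *
      Real.exp (-(pm n * (Fintype.card (J n) / 10 ^ 7))) ≤ δ := by
  set K : ℝ := (9 * Real.log (2 * 10 ^ 7) + 1) * (2 * 10 ^ 7) / (99 / 50) with hK
  have h1 : Tendsto (fun n : ℕ => Real.exp (-(n : ℝ))) atTop (nhds 0) :=
    Real.tendsto_exp_neg_atTop_nhds_zero.comp tendsto_natCast_atTop_atTop
  filter_upwards [h1.eventually (ge_mem_nhds hδ), Asy.ev_log K, Asy.ev_nat 1] with n h3 h4 h5
  have hn1 : 1 ≤ n := by exact_mod_cast h5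
  have hN : (((2 * n - 1 : ℕ) : ℕ) : ℝ) = 2 * n - 1 := by
    rw [Nat.cast_sub (by omega)]
    push_cast
    ring
  have hN0 : (0 : ℝ) < 2 * n - 1 := by linarith
  have hE : ((3 * Fintype.card (El n) : ℕ) : ℝ) = 9 * (n * (2 * n - 1)) := by
    rw [El_card]
    push_cast
    rw [hN]
    ring
  have hJ : (Fintype.card (J n) : ℝ) = (2 * n - 1) * (n * (2 * n - 1)) := by
    rw [J_card]
    push_cast
    rw [hN]
  have hp : pm n * (Fintype.card (J n) : ℝ) = 99 / 50 * Real.log n * (n * (2 * n - 1)) := by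
    rw [hJ]
    unfold pm
    field_simp
  have h6 : (1 / (1 / (2 * 10 ^ 7)) : ℝ) ^ (3 * Fintype.card (El n)) =
      Real.exp (Real.log (2 * 10 ^ 7) * (9 * (n * (2 * n - 1)))) := by
    rw [one_div_one_div, ← hE, ← Real.rpow_natCast, Real.rpow_def_of_pos (by norm_num)]
  rw [h6, ← Real.exp_add, ← Real.exp_add]
  refine le_trans (Real.exp_le_exp.mpr ?_) h3
  have h7 : Real.log (2 * 10 ^ 7) * (9 * (n * (2 * n - 1))) +
      pm n * (1 / (2 * 10 ^ 7)) * Fintype.card (J n) +
      -(pm n * (Fintype.card (J n) / 10 ^ 7)) =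
      (n * (2 * n - 1)) * (9 * Real.log (2 * 10 ^ 7) -
        1 / (2 * 10 ^ 7) * (99 / 50 * Real.log n)) := by
    have e1 : pm n * (1 / (2 * 10 ^ 7)) * Fintype.card (J n) =
        1 / (2 * 10 ^ 7) * (pm n * Fintype.card (J n)) := by ring
    have e2 : pm n * ((Fintype.card (J n) : ℝ) / 10 ^ 7) =
        1 / 10 ^ 7 * (pm n * Fintype.card (J n)) := by ring
    rw [e1, e2, hp]
    ring
  rw [h7]
  have h8 : 9 * Real.log (2 * 10 ^ 7) - 1 / (2 * 10 ^ 7) * (99 / 50 * Real.log n) ≤ -1 := by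
    have h9 : 9 * Real.log (2 * 10 ^ 7) + 1 = 1 / (2 * 10 ^ 7) * (99 / 50 * K) := by
      rw [hK]
      field_simp
    have h10 : 1 / (2 * 10 ^ 7) * (99 / 50 * K) ≤
        (1 / (2 * 10 ^ 7) * (99 / 50 * Real.log n) : ℝ) := by
      have : (99 / 50 * K : ℝ) ≤ 99 / 50 * Real.log n := by linarith
      exact mul_le_mul_of_nonneg_left this (by positivity)
    linarith
  have h11 : (n : ℝ) ≤ n * (2 * n - 1) := by nlinarith
  nlinarith

theorem whp_far : Whp Far := by
  classical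
  intro δ hδ
  filter_upwards [fp_pm_nonneg, fp_num hδ] with n hpm hnum pp hpp1 hpp2
  have hq := qq_nonneg hpm hpp1 hpp2
  let D : Finset (J n) → Finset (J n) := fun B => univ.filter (fun h => inc n h ∉ Lat n B)
  let Ok : Finset (J n) → Prop := fun B => B.card ≤ 3 * Fintype.card (El n) ∧
    Fintype.card (J n) < 10 ^ 7 * (D B).card
  let A : Finset (J n) → (J n → Fin 3) → Prop := fun B s =>
    (∀ i ∈ B, s i = 2) ∧ ∀ i ∈ D B, s i ≠ 2
  have hmem : ∀ (L : Finset (J n)) (i : J n), i ∈ L → inc n i ∈ Lat n L := fun L i hi =>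
    AddSubgroup.subset_closure ⟨i, by exact_mod_cast hi, rfl⟩
  have hdis : ∀ B, Disjoint B (D B) := by
    intro B
    rw [disjoint_left]
    intro i hi hi2
    exact (mem_filter.mp hi2).2 (hmem B i hi)
  have h1 : Pr (qq (pm n) pp) (fun s : J n → Fin 3 => ¬ Far n (sm s)) ≤
      Pr (qq (pm n) pp) (fun s : J n → Fin 3 =>
        ∃ B ∈ (univ : Finset (Finset (J n))).filter Ok, A B s) := by
    refine Pr_mono hq fun s hs => ?_
    obtain ⟨B, hBL, hBc, hBe⟩ := few_gen (inc n) (fp_inc n) (sm s)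
    have hLat : Lat n B = Lat n (sm s) := hBe
    unfold Far at hs
    rw [not_le, cnt_eq] at hs
    refine ⟨B, mem_filter.mpr ⟨mem_univ _, hBc, ?_⟩, ?_, ?_⟩
    · change Fintype.card (J n) < 10 ^ 7 * (univ.filter (fun h => inc n h ∉ Lat n B)).card
      rw [hLat]
      exact hs
    · intro i hi
      exact (mem_filter.mp (hBL hi)).2
    · intro i hi h2
      have h3 := (mem_filter.mp hi).2
      rw [hLat] at h3
      exact h3 (hmem (sm s) i (mem_filter.mpr ⟨mem_univ _, h2⟩))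
  have h2 := Pr_exists hq ((univ : Finset (Finset (J n))).filter Ok) A
  set E0 : ℝ := Real.exp (-(pm n * (Fintype.card (J n) / 10 ^ 7))) with hE0
  have h3 : ∑ B ∈ (univ : Finset (Finset (J n))).filter Ok, Pr (qq (pm n) pp) (A B) ≤
      ∑ B ∈ (univ : Finset (Finset (J n))).filter Ok, pm n ^ B.card * E0 := by
    refine sum_le_sum fun B hB => ?_
    obtain ⟨-, hc⟩ := (mem_filter.mp hB).2
    refine (cyl hpm hpp1 hpp2 B (D B) (hdis B)).trans ?_
    refine mul_le_mul_of_nonneg_left (Real.exp_le_exp.mpr ?_) (pow_nonneg hpm _)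
    have hc2 : (Fintype.card (J n) : ℝ) / 10 ^ 7 ≤ (D B).card := by
      rw [div_le_iff₀ (by positivity)]
      have : (Fintype.card (J n) : ℝ) < ((10 ^ 7 * (D B).card : ℕ) : ℝ) := by exact_mod_cast hc
      push_cast at this
      linarith
    have := mul_le_mul_of_nonneg_left hc2 hpm
    linarith
  have h4 : ∑ B ∈ (univ : Finset (Finset (J n))).filter Ok, pm n ^ B.card * E0 ≤
      ∑ B ∈ (univ : Finset (Finset (J n))).filter
        (fun B => B.card ≤ 3 * Fintype.card (El n)), pm n ^ B.card * E0 := by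
    refine sum_le_sum_of_subset_of_nonneg ?_ fun B _ _ =>
      mul_nonneg (pow_nonneg hpm _) (Real.exp_pos _).le
    intro B hB
    exact mem_filter.mpr ⟨mem_univ _, (mem_filter.mp hB).2.1⟩
  have h6 := sum_small (E := J n) (y := 1 / (2 * 10 ^ 7)) hpm (by norm_num) (by norm_num)
    (3 * Fintype.card (El n))
  calc Pr (qq (pm n) pp) (fun s : J n → Fin 3 => ¬ Far n (sm s))
      ≤ ∑ B ∈ (univ : Finset (Finset (J n))).filter
        (fun B => B.card ≤ 3 * Fintype.card (El n)), pm n ^ B.card * E0 :=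
        h1.trans (h2.trans (h3.trans h4))
    _ = (∑ B ∈ (univ : Finset (Finset (J n))).filter
        (fun B => B.card ≤ 3 * Fintype.card (El n)), pm n ^ B.card) * E0 := by
        rw [sum_mul]
    _ ≤ (1 / (1 / (2 * 10 ^ 7)) : ℝ) ^ (3 * Fintype.card (El n)) *
      Real.exp (pm n * (1 / (2 * 10 ^ 7)) * Fintype.card (J n)) * E0 :=
        mul_le_mul_of_nonneg_right h6 (Real.exp_pos _).le
    _ ≤ δ := hnum

end Pool.Agent.Lib.LT
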