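import Pool.Agent.Lib.MP_6d56f7_co_LT.KDefs
import Pool.Agent.Lib.MP_6d56f7_co_LT.Fact

/-!
# The sum of a gauge function
-/

set_option autoImplicit false

namespace Pool.Agent.Lib.LT

open Finset Pool.Agent.Lib.FR

variable {n : ℕ} {A : Type} [AddCommGroup A]

open Classical in
/-- the sum over a set of elements which is partitioned by pairs -/
private theorem sum_part (P : Finset (J n)) (B : Finset (El n)) (y : El n → A)
    (h1 : ∀ a ∈ B, ∃! T, T ∈ P ∧ T ∈ st n a) (h2 : ∀ T ∈ P, ∀ a, T ∈ st n a → a ∈ B)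
    (hy : ∀ T : J n, ∑ a ∈ univ.filter (fun a => T ∈ st n a), y a = 0) :
    ∑ a ∈ B, y a = 0 := by
  have e1 : ∀ T ∈ P, ∑ a ∈ B, (if T ∈ st n a then y a else 0) = 0 := by
    intro T hT
    rw [← Finset.sum_filter]
    refine Eq.trans ?_ (hy T)
    apply Finset.sum_congr _ (fun _ _ => rfl)
    ext a
    simp only [mem_filter, mem_univ, true_and]
    exact ⟨fun h => h.2, fun h => ⟨h2 T hT a h, h⟩⟩
  have e2 : ∑ T ∈ P, ∑ a ∈ B, (if T ∈ st n a then y a else 0) = 0 :=
    Finset.sum_eq_zero e1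
  rw [Finset.sum_comm] at e2
  rw [← e2]
  apply Finset.sum_congr rfl
  intro a ha
  obtain ⟨T, ⟨hT1, hT2⟩, hu⟩ := h1 a ha
  rw [Finset.sum_eq_single T]
  · rw [if_pos hT2]
  · intro T' hT' hne
    rw [if_neg]
    intro h
    exact hne (hu T' ⟨hT', h⟩)
  · intro h
    exact absurd hT1 h

open Classical in
/-- if the function `y` sums to zero over the three elements of every pair, then its sum over the
elements off a matching is zero -/
theorem sum_off (hn : 1 ≤ n) (M : Finset (J n)) (hM : CFree M) (y : El n → A)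
    (hy : ∀ T : J n, ∑ a ∈ univ.filter (fun a => T ∈ st n a), y a = 0) :
    ∑ a ∈ univ.filter (fun a => ¬ Hit M a), y a = 0 := by
  have t1 : ∑ a : El n, y a = 0 := by
    obtain ⟨φ, hφ⟩ := one_factorization n hn
    refine sum_part (univ.image (fun e => ((φ e, e) : J n))) univ y ?_
      (fun _ _ _ _ => mem_univ _) hy
    rintro (e | ⟨v, c⟩) -
    · refine ⟨(φ e, e), ⟨mem_image_of_mem _ (mem_univ _), ?_⟩, ?_⟩
      · rw [mem_st_inl]
      · rintro T ⟨hT1, hT2⟩
        rw [mem_st_inl] at hT2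
        obtain ⟨e', -, rfl⟩ := mem_image.mp hT1
        simp only at hT2
        rw [hT2]
    · obtain ⟨e, ⟨he1, he2⟩, hu⟩ := hφ v c
      refine ⟨(φ e, e), ⟨mem_image_of_mem _ (mem_univ _), ?_⟩, ?_⟩
      · rw [mem_st_inr]
        exact ⟨he2, he1⟩
      · rintro T ⟨hT1, hT2⟩
        rw [mem_st_inr] at hT2
        obtain ⟨e', -, rfl⟩ := mem_image.mp hT1
        have h3 : e' = e := hu e' ⟨hT2.2, hT2.1⟩
        rw [h3]
  have t2 : ∑ a ∈ univ.filter (fun a => Hit M a), y a = 0 := by
    refine sum_part M _ y ?_ ?_ hy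
    · intro a ha
      obtain ⟨g, hg, hga⟩ := (mem_filter.mp ha).2
      refine ⟨g, ⟨hg, hga⟩, ?_⟩
      rintro g' ⟨hg', hga'⟩
      apply hM g' hg' g hg
      rcases a with e | ⟨v, c⟩
      · rw [mem_st_inl] at hga hga'
        right
        obtain ⟨v, hv⟩ : ∃ v, v ∈ e.1 := by
          obtain ⟨e, he⟩ := e
          induction e using Sym2.ind with
          | _ a b => exact ⟨a, Sym2.mem_mk_left a b⟩
        exact ⟨v, by rw [hga']; exact hv, by rw [hga]; exact hv⟩
      · rw [mem_st_inr] at hga hga'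
        left
        rw [hga.1, hga'.1]
    · intro T hT a ha
      exact mem_filter.mpr ⟨mem_univ _, T, hT, ha⟩
  have t3 := Finset.sum_filter_add_sum_filter_not (univ : Finset (El n)) (fun a => Hit M a) y
  rw [t1, t2, zero_add] at t3
  exact t3

end Pool.Agent.Lib.LT
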