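import Pool.Agent.Lib.MP_6d56f7_co_LT.Defs
import Pool.Agent.Lib.MP_6d56f7_co_LT.Classes

/-!
# There are no heavy colours
-/

set_option autoImplicit false

namespace Pool.Agent.Lib.LT

open Finset Pool.Agent.Lib.FR

variable {n : ℕ} {A : Type} [AddCommGroup A]
  {F : Fin (2 * n) → Fin (2 * n) → A} {G : Fin (2 * n) → Fin (2 * n - 1) → A}

private theorem cnt_mono_hc {α : Type} [Fintype α] {P Q : α → Prop} (h : ∀ x, P x → Q x) :
    cnt P ≤ cnt Q := by
  classical
  rw [cnt_eq, cnt_eq]
  apply card_le_card
  intro x hx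
  rw [mem_filter] at hx ⊢
  exact ⟨hx.1, h x hx.2⟩

private theorem cnt_add_le_hc {α : Type} [Fintype α] {P Q R : α → Prop} (h1 : ∀ x, P x → R x)
    (h2 : ∀ x, Q x → R x) (h3 : ∀ x, P x → Q x → False) : cnt P + cnt Q ≤ cnt R := by
  classical
  rw [cnt_eq, cnt_eq, cnt_eq, ← card_union_of_disjoint]
  · apply card_le_card
    intro x hx
    rw [mem_union, mem_filter, mem_filter] at hx
    rw [mem_filter]
    rcases hx with hx | hx
    · exact ⟨hx.1, h1 x hx.2⟩
    · exact ⟨hx.1, h2 x hx.2⟩
  · rw [disjoint_left]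
    intro x hx hy
    rw [mem_filter] at hx hy
    exact h3 x hx.2 hy.2

private theorem cnt_le_add_hc {α : Type} [Fintype α] {P Q R : α → Prop}
    (h : ∀ x, R x → P x ∨ Q x) : cnt R ≤ cnt P + cnt Q := by
  classical
  rw [cnt_eq, cnt_eq, cnt_eq]
  refine (card_le_card ?_).trans (card_union_le _ _)
  intro x hx
  rw [mem_filter] at hx
  rw [mem_union, mem_filter, mem_filter]
  rcases h x hx.2 with h' | h'
  · exact Or.inl ⟨hx.1, h'⟩
  · exact Or.inr ⟨hx.1, h'⟩

private theorem cnt_true_hc (m : ℕ) : cnt (fun _ : Fin m => True) = m := by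
  classical
  rw [cnt_eq]
  simp

private theorem tr_ne_hc {L : Finset (J n)} {u v : Fin (2 * n)} {c : Fin (2 * n - 1)}
    (h : tr L u v c) : u ≠ v := by
  obtain ⟨hd, _⟩ := h
  intro he
  exact hd (Sym2.mk_isDiag_iff.mpr he)

/-- a large set on which the colour is constant with nonzero double gives many nonzero edges -/
private theorem inside_hc {L : Finset (J n)} (hin : InC n L) (hz : Van L F G)
    (hS : cnt (fun p : Fin (2 * n) × Fin (2 * n) => p.1 ≠ p.2 ∧ F p.1 p.2 ≠ 0) ≤ 2 * n - 1)
    (c : Fin (2 * n - 1)) (ζ : A) (h2 : ζ + ζ ≠ 0) :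
    3 * cnt (fun v => G v c = ζ) < 2 * n - 1 := by
  classical
  by_contra hcon
  rw [cnt_eq] at hcon
  have h := hin c (univ.filter (fun v => G v c = ζ)) (not_lt.mp hcon)
  refine absurd (h.trans_le ((cnt_mono_hc ?_).trans hS)) (lt_irrefl _)
  rintro ⟨u, v⟩ ⟨htr, hu, hv⟩
  simp only [mem_filter] at hu hv
  have hzz := hz u v c htr
  refine ⟨tr_ne_hc htr, ?_⟩
  intro hF
  have hF' : F u v = 0 := hF
  rw [hF', zero_add, hu.2, hv.2] at hzz
  exact h2 hzz

/-- if few edges are nonzero, then no colour is heavy -/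
theorem no_heavyC (hn : 1000 ≤ n) {L : Finset (J n)} (hcut : CutC n L) (hin : InC n L)
    (hz : Van L F G) (hM : MinK n F G)
    (hS : cnt (fun p : Fin (2 * n) × Fin (2 * n) => p.1 ≠ p.2 ∧ F p.1 p.2 ≠ 0) ≤ 2 * n - 1) :
    HC G = ∅ := by
  classical
  by_contra hne
  obtain ⟨c, hc⟩ := Finset.nonempty_iff_ne_empty.mpr hne
  have hheavy : 2 * n - 1 ≤ 50 * cnt (fun v => G v c ≠ 0) := by
    have := hc
    unfold HC at this
    rw [mem_filter] at this
    exact this.2
  set val : Fin (2 * n) → Sym2 A := fun v => s(G v c, - G v c) with hval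
  have hcard : (univ : Finset (Fin (2 * n))).card = 2 * n := by
    rw [card_univ, Fintype.card_fin]
  have hb : 3 * ((2 * n - 1) / 250 + 1) ≤ (univ : Finset (Fin (2 * n))).card := by
    rw [hcard]
    omega
  rcases classes univ val ((2 * n - 1) / 250 + 1) hb with ⟨α, hα⟩ | ⟨P, hP1, hP2⟩
  · have hα' : 2 * n ≤ cnt (fun v => val v = α) + 2 * ((2 * n - 1) / 250 + 1) := by
      rw [hcard] at hα
      rw [cnt_eq]
      convert hα
    have hpos : 0 < cnt (fun v => val v = α) := by omega
    rw [cnt_eq, card_pos] at hpos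
    obtain ⟨w, hw⟩ := hpos
    rw [mem_filter] at hw
    have hsplit : cnt (fun v => val v = α) ≤
        cnt (fun v => G v c = G w c) + cnt (fun v => G v c = - G w c) := by
      apply cnt_le_add_hc
      intro v hv
      have h1 : (s(G v c, - G v c) : Sym2 A) = s(G w c, - G w c) := hv.trans hw.2.symm
      rw [Sym2.eq_iff] at h1
      rcases h1 with h1 | h1
      · exact Or.inl h1.1
      · exact Or.inr h1.1
    by_cases hd : G w c + G w c = 0
    · have hneg : - G w c = G w c := neg_eq_of_add_eq_zero_left hd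
      have hone : cnt (fun v => val v = α) ≤ cnt (fun v => G v c = G w c) := by
        apply cnt_mono_hc
        intro v hv
        have h1 : (s(G v c, - G v c) : Sym2 A) = s(G w c, - G w c) := hv.trans hw.2.symm
        rw [Sym2.eq_iff] at h1
        rcases h1 with h1 | h1
        · exact h1.1
        · exact h1.1.trans hneg
      by_cases h0 : G w c = 0
      · have e1 : cnt (fun v => G v c ≠ 0) + cnt (fun v => G v c = G w c) ≤ 2 * n := by
          have := cnt_add_le_hc (P := fun v => G v c ≠ 0) (Q := fun v => G v c = G w c)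
            (R := fun _ : Fin (2 * n) => True) (fun _ _ => trivial) (fun _ _ => trivial)
            (fun x hx hy => hx (hy.trans h0))
          rwa [cnt_true_hc] at this
        omega
      · have e1 : cnt (fun v => G v c = G w c) + cnt (fun v => G v c = 0) ≤ 2 * n := by
          have := cnt_add_le_hc (P := fun v => G v c = G w c) (Q := fun v => G v c = 0)
            (R := fun _ : Fin (2 * n) => True) (fun _ _ => trivial) (fun _ _ => trivial)
            (fun x hx hy => h0 (hx.symm.trans hy))
          rwa [cnt_true_hc] at this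
        have e2 := hM.col c (G w c) hd
        omega
    · have e1 := inside_hc hin hz hS c (G w c) hd
      have e2 := inside_hc hin hz hS c (- G w c) (by
        intro hh
        apply hd
        rw [← neg_add, neg_eq_zero] at hh
        exact hh)
      omega
  · have hP1' : (2 * n - 1) / 250 + 1 ≤ (univ.filter (fun x => P (val x))).card := by
      convert hP1
    have hP2' : (2 * n - 1) / 250 + 1 ≤ (univ.filter (fun x => ¬ P (val x))).card := by
      convert hP2
    have hW := Finset.card_filter_add_card_filter_not (s := (univ : Finset (Fin (2 * n))))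
      (fun w => P (val w))
    rw [hcard] at hW
    have hcc := hcut c (univ.filter (fun x => P (val x))) (univ.filter (fun x => ¬ P (val x)))
      (disjoint_filter_filter_not _ _ _) (by omega) (by omega) (by omega)
    refine absurd (hcc.trans_le ((cnt_mono_hc ?_).trans hS)) (lt_irrefl _)
    rintro ⟨u, v⟩ ⟨htr, hu, hv⟩
    simp only [mem_filter] at hu hv
    have hzz := hz u v c htr
    refine ⟨tr_ne_hc htr, ?_⟩
    intro hF
    have hF' : F u v = 0 := hF
    rw [hF', zero_add] at hzz
    have h1 : G u c = - G v c := eq_neg_of_add_eq_zero_left hzz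
    have h2 : val u = val v := by
      rw [hval]
      simp only
      rw [h1, neg_neg, Sym2.eq_swap]
    apply hv.2
    rw [← h2]
    exact hu.2

end Pool.Agent.Lib.LT
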