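import Pool.Agent.Lib.MP_6d56f7_co_LT.Defs

/-!
# The number of heavy vertices and colours
-/

set_option autoImplicit false

namespace Pool.Agent.Lib.LT

open Finset Pool.Agent.Lib.FR

variable {n : ℕ} {A : Type} [AddCommGroup A]
  {F : Fin (2 * n) → Fin (2 * n) → A} {G : Fin (2 * n) → Fin (2 * n - 1) → A}

private theorem cnt_prod {α β : Type} [Fintype α] [Fintype β] (P : α → β → Prop) :
    cnt (fun p : α × β => P p.1 p.2) = ∑ a, cnt (fun b => P a b) := by
  classical
  simp only [cnt_eq, Finset.card_filter, Fintype.sum_prod_type]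

private theorem cnt_prod' {α β : Type} [Fintype α] [Fintype β] (P : α → β → Prop) :
    cnt (fun p : α × β => P p.1 p.2) = ∑ b, cnt (fun a => P a b) := by
  classical
  simp only [cnt_eq, Finset.card_filter, Fintype.sum_prod_type]
  rw [Finset.sum_comm]

private theorem heavy_aux {ι : Type} (s t : Finset ι) (hst : s ⊆ t) (f : ι → ℕ) (N c : ℕ)
    (hN : 1 ≤ N) (hf : ∀ i ∈ s, N ≤ 50 * f i) (hc : ∑ i ∈ t, f i ≤ c)
    (h : 12500 * c ≤ N ^ 2) : 250 * s.card ≤ N := by
  have h1 : s.card * N ≤ ∑ i ∈ s, 50 * f i := by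
    rw [← smul_eq_mul]
    exact Finset.card_nsmul_le_sum s _ N hf
  have h2 : ∑ i ∈ s, 50 * f i ≤ 50 * c := by
    rw [← Finset.mul_sum]
    exact Nat.mul_le_mul_left 50 ((Finset.sum_le_sum_of_subset hst).trans hc)
  have h3 : 250 * s.card * N ≤ N * N := by nlinarith
  exact Nat.le_of_mul_le_mul_right h3 hN

/-- there are few heavy vertices -/
theorem hv_card (hn : 1 ≤ n) (h : 12500 * supp F G ≤ (2 * n - 1) ^ 2) :
    250 * (HV F G).card ≤ 2 * n - 1 := by
  refine heavy_aux (HV F G) univ (Finset.subset_univ _)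
    (fun v => cnt (fun c => G v c ≠ 0) + cnt (fun u => u ≠ v ∧ F v u ≠ 0)) (2 * n - 1)
    (supp F G) (by omega) ?_ ?_ h
  · intro v hv
    exact (Finset.mem_filter.mp hv).2
  · rw [Finset.sum_add_distrib]
    have e1 : ∑ v, cnt (fun c => G v c ≠ 0) =
        cnt (fun p : Fin (2 * n) × Fin (2 * n - 1) => G p.1 p.2 ≠ 0) :=
      (cnt_prod (fun v c => G v c ≠ 0)).symm
    have e2 : ∑ v, cnt (fun u => u ≠ v ∧ F v u ≠ 0) =
        cnt (fun p : Fin (2 * n) × Fin (2 * n) => p.1 ≠ p.2 ∧ F p.1 p.2 ≠ 0) := by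
      rw [cnt_prod (fun v u => v ≠ u ∧ F v u ≠ 0)]
      refine Finset.sum_congr rfl fun v _ => ?_
      congr 1
      funext u
      rw [ne_comm]
    rw [e1, e2]
    unfold supp
    omega

/-- there are few heavy colours -/
theorem hc_card (hn : 1 ≤ n) (h : 12500 * supp F G ≤ (2 * n - 1) ^ 2) :
    250 * (HC G).card ≤ 2 * n - 1 := by
  refine heavy_aux (HC G) univ (Finset.subset_univ _)
    (fun c => cnt (fun v => G v c ≠ 0)) (2 * n - 1) (supp F G) (by omega) ?_ ?_ h
  · intro c hc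
    exact (Finset.mem_filter.mp hc).2
  · have e1 : ∑ c, cnt (fun v => G v c ≠ 0) =
        cnt (fun p : Fin (2 * n) × Fin (2 * n - 1) => G p.1 p.2 ≠ 0) :=
      (cnt_prod' (fun v c => G v c ≠ 0)).symm
    rw [e1]
    unfold supp
    omega

end Pool.Agent.Lib.LT
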