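import Pool.Agent.Lib.MP_6d56f7_co_LT.Defs
import Pool.Agent.Lib.MP_6d56f7_co_LT.Classes

/-!
# There are no heavy vertices
-/

set_option autoImplicit false

namespace Pool.Agent.Lib.LT

open Finset Pool.Agent.Lib.FR

variable {n : ℕ} {A : Type} [AddCommGroup A]
  {F : Fin (2 * n) → Fin (2 * n) → A} {G : Fin (2 * n) → Fin (2 * n - 1) → A}

private theorem cnt_mono_hv {α : Type} [Fintype α] {P Q : α → Prop} (h : ∀ x, P x → Q x) :
    cnt P ≤ cnt Q := by
  classical
  rw [cnt_eq, cnt_eq]
  apply card_le_card
  intro x hx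
  rw [mem_filter] at hx ⊢
  exact ⟨hx.1, h x hx.2⟩

private theorem cnt_add_le_hv {α : Type} [Fintype α] {P Q R : α → Prop} (h1 : ∀ x, P x → R x)
    (h2 : ∀ x, Q x → R x) (h3 : ∀ x, P x → Q x → False) : cnt P + cnt Q ≤ cnt R := by
  classical
  rw [cnt_eq, cnt_eq, cnt_eq, ← card_union_of_disjoint]
  · apply card_le_card
    intro x hx
    rw [mem_union, mem_filter, mem_filter] at hx
    rw [mem_filter]
    rcases hx with hx | hx
    · exact ⟨hx.1, h1 x hx.2⟩
    · exact ⟨hx.1, h2 x hx.2⟩
  · rw [disjoint_left]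
    intro x hx hy
    rw [mem_filter] at hx hy
    exact h3 x hx.2 hy.2

private theorem cnt_le_add_hv {α : Type} [Fintype α] {P Q R : α → Prop}
    (h : ∀ x, R x → P x ∨ Q x) : cnt R ≤ cnt P + cnt Q := by
  classical
  rw [cnt_eq, cnt_eq, cnt_eq]
  refine (card_le_card ?_).trans (card_union_le _ _)
  intro x hx
  rw [mem_filter] at hx
  rw [mem_union, mem_filter, mem_filter]
  rcases h x hx.2 with h' | h'
  · exact Or.inl ⟨hx.1, h'⟩
  · exact Or.inr ⟨hx.1, h'⟩

private theorem cnt_true_hv (m : ℕ) : cnt (fun _ : Fin m => True) = m := by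
  classical
  rw [cnt_eq]
  simp

private theorem cnt_ne_hv (m : ℕ) (v : Fin m) : cnt (fun u : Fin m => u ≠ v) = m - 1 := by
  classical
  rw [cnt_eq, filter_ne', card_erase_of_mem (mem_univ _), card_univ, Fintype.card_fin]

/-- if few pairs off the heavy vertices and colours are nonzero, then no vertex is heavy -/
theorem no_heavyV (hn : 1000 ≤ n) {L : Finset (J n)} (hcut : CutV n L) (hz : Van L F G)
    (hM : MinK n F G) (h1 : 250 * (HV F G).card ≤ 2 * n - 1)
    (h2 : 250 * (HC G).card ≤ 2 * n - 1)
    (hS : cnt (fun p : Fin (2 * n) × Fin (2 * n - 1) =>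
      p.1 ∉ HV F G ∧ p.2 ∉ HC G ∧ G p.1 p.2 ≠ 0) ≤ 2 * n - 1) : HV F G = ∅ := by
  classical
  by_contra hne
  obtain ⟨v, hv⟩ := Finset.nonempty_iff_ne_empty.mpr hne
  have hheavy : 2 * n - 1 ≤ 50 * (cnt (fun c => G v c ≠ 0) +
      cnt (fun u => u ≠ v ∧ F v u ≠ 0)) := by
    have := hv
    unfold HV at this
    rw [mem_filter] at this
    exact this.2
  have hXW : ((HV F G)ᶜ).card + (HV F G).card = 2 * n := by
    rw [card_compl_add_card, Fintype.card_fin]
  have hXC : ((HC G)ᶜ).card + (HC G).card = 2 * n - 1 := by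
    rw [card_compl_add_card, Fintype.card_fin]
  set X : Finset (Fin (2 * n) ⊕ Fin (2 * n - 1)) := ((HV F G)ᶜ).disjSum ((HC G)ᶜ) with hX
  set val : Fin (2 * n) ⊕ Fin (2 * n - 1) → A :=
    Sum.elim (fun w => - F v w) (fun c => G v c) with hval
  have hXcard : X.card = ((HV F G)ᶜ).card + ((HC G)ᶜ).card := by
    rw [hX, card_disjSum]
  -- the size of a filtered part
  have hfil : ∀ P : A → Prop, (X.filter (fun x => P (val x))).card =
      (((HV F G)ᶜ).filter (fun w => P (- F v w))).card +
        (((HC G)ᶜ).filter (fun c => P (G v c))).card := by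
    intro P
    have : X.filter (fun x => P (val x)) =
        (((HV F G)ᶜ).filter (fun w => P (- F v w))).disjSum
          (((HC G)ᶜ).filter (fun c => P (G v c))) := by
      ext x
      rcases x with w | c
      · simp [hX, hval]
      · simp [hX, hval]
    rw [this, card_disjSum]
  have hb : 3 * ((2 * n - 1) / 250 + 1) ≤ X.card := by
    rw [hXcard]
    omega
  rcases classes X val ((2 * n - 1) / 250 + 1) hb with ⟨α, hα⟩ | ⟨P, hP1, hP2⟩
  · have hf := hfil (fun a => a = α)
    have hle1 : (((HV F G)ᶜ).filter (fun w => - F v w = α)).card ≤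
        cnt (fun u => u ≠ v ∧ F v u = - α) := by
      rw [cnt_eq]
      apply card_le_card
      intro w hw
      rw [mem_filter, mem_compl] at hw
      rw [mem_filter]
      refine ⟨mem_univ _, ?_, ?_⟩
      · rintro rfl
        exact hw.1 hv
      · rw [← hw.2, neg_neg]
    have hle2 : (((HC G)ᶜ).filter (fun c => G v c = α)).card ≤
        cnt (fun c => G v c = α) := by
      rw [cnt_eq]
      apply card_le_card
      intro c hc
      rw [mem_filter] at hc ⊢
      exact ⟨mem_univ _, hc.2⟩
    have hα' : X.card ≤ cnt (fun u => u ≠ v ∧ F v u = - α) + cnt (fun c => G v c = α) +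
        2 * ((2 * n - 1) / 250 + 1) := by
      have hf' : (X.filter (fun x => val x = α)).card =
          (((HV F G)ᶜ).filter (fun w => - F v w = α)).card +
            (((HC G)ᶜ).filter (fun c => G v c = α)).card := by
        convert hf
      have hα2 : X.card ≤ (X.filter (fun x => val x = α)).card +
          2 * ((2 * n - 1) / 250 + 1) := by
        convert hα
      omega
    by_cases h0 : α = 0
    · subst h0
      have e1 : cnt (fun c => G v c ≠ 0) + cnt (fun c => G v c = 0) ≤ 2 * n - 1 := by
        have := cnt_add_le_hv (P := fun c => G v c ≠ 0) (Q := fun c => G v c = 0)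
          (R := fun _ : Fin (2 * n - 1) => True) (fun _ _ => trivial) (fun _ _ => trivial)
          (fun x hx hy => hx hy)
        rwa [cnt_true_hv] at this
      have e2 : cnt (fun u => u ≠ v ∧ F v u ≠ 0) + cnt (fun u => u ≠ v ∧ F v u = -0) ≤
          2 * n - 1 := by
        have := cnt_add_le_hv (P := fun u => u ≠ v ∧ F v u ≠ 0)
          (Q := fun u => u ≠ v ∧ F v u = -0)
          (R := fun u : Fin (2 * n) => u ≠ v) (fun _ h => h.1) (fun _ h => h.1)
          (fun x hx hy => hx.2 (by rw [hy.2, neg_zero]))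
        rwa [cnt_ne_hv] at this
      omega
    · have e1 : cnt (fun c => G v c = α) + cnt (fun c => G v c = 0) ≤ 2 * n - 1 := by
        have := cnt_add_le_hv (P := fun c => G v c = α) (Q := fun c => G v c = 0)
          (R := fun _ : Fin (2 * n - 1) => True) (fun _ _ => trivial) (fun _ _ => trivial)
          (fun x hx hy => h0 (hx.symm.trans hy))
        rwa [cnt_true_hv] at this
      have e2 : cnt (fun u => u ≠ v ∧ F v u = - α) + cnt (fun u => u ≠ v ∧ F v u = 0) ≤
          2 * n - 1 := by
        have := cnt_add_le_hv (P := fun u => u ≠ v ∧ F v u = - α)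
          (Q := fun u => u ≠ v ∧ F v u = 0)
          (R := fun u : Fin (2 * n) => u ≠ v) (fun _ h => h.1) (fun _ h => h.1)
          (fun x hx hy => h0 (neg_eq_zero.mp (hx.2.symm.trans hy.2)))
        rwa [cnt_ne_hv] at this
      have e3 := hM.vert v α
      omega
  · have hf1 := hfil P
    have hf2 := hfil (fun a => ¬ P a)
    have hP1' : (2 * n - 1) / 250 + 1 ≤ (X.filter (fun x => P (val x))).card := by
      convert hP1
    have hP2' : (2 * n - 1) / 250 + 1 ≤ (X.filter (fun x => ¬ P (val x))).card := by
      convert hP2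
    have hf2' : (X.filter (fun x => ¬ P (val x))).card =
      (((HV F G)ᶜ).filter (fun w => ¬ P (- F v w))).card +
        (((HC G)ᶜ).filter (fun c => ¬ P (G v c))).card := by
      convert hf2
    have hW := Finset.card_filter_add_card_filter_not (s := (HV F G)ᶜ)
      (fun w => P (- F v w))
    have hC := Finset.card_filter_add_card_filter_not (s := (HC G)ᶜ) (fun c => P (G v c))
    have hcc := hcut v (((HV F G)ᶜ).filter (fun w => P (- F v w)))
      (((HV F G)ᶜ).filter (fun w => ¬ P (- F v w)))
      (((HC G)ᶜ).filter (fun c => P (G v c))) (((HC G)ᶜ).filter (fun c => ¬ P (G v c)))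
      (disjoint_filter_filter_not _ _ _) (disjoint_filter_filter_not _ _ _)
      (by
        intro hh
        rw [mem_filter, mem_compl] at hh
        exact hh.1 hv)
      (by
        intro hh
        rw [mem_filter, mem_compl] at hh
        exact hh.1 hv)
      (by omega) (by omega) (by omega) (by omega)
    refine absurd (hcc.trans_le ((cnt_mono_hv ?_).trans hS)) (lt_irrefl _)
    rintro ⟨w, c⟩ ⟨htr, hor⟩
    simp only [mem_filter, mem_compl] at hor
    have hzz := hz v w c htr
    refine ⟨?_, ?_, ?_⟩
    · rcases hor with hor | hor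
      · exact hor.1.1
      · exact hor.1.1
    · rcases hor with hor | hor
      · exact hor.2.1
      · exact hor.2.1
    · intro hG
      have hG' : G w c = 0 := hG
      have hFG : G v c = - F v w := by
        rw [hG', add_zero] at hzz
        exact eq_neg_of_add_eq_zero_right hzz
      rcases hor with hor | hor
      · exact hor.2.2 (hFG ▸ hor.1.2)
      · exact hor.1.2 (hFG ▸ hor.2.2)

end Pool.Agent.Lib.LT
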