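import Pool.Agent.Lib.MP_6d56f7_co_LT.Cyl
import Pool.Agent.Lib.MP_6d56f7_co_LT.CntL
import Pool.Agent.Lib.MP_6d56f7_co_FR.Api

/-!
# A light set is missed with small probability
-/

set_option autoImplicit false

namespace Pool.Agent.Lib.LT

open Finset Filter Pool.Agent.Lib.FR

/-- the probability that no pair of the small system off `H` and `K` meets the light set `S`
exactly once -/
theorem hit_light : ∀ᶠ n : ℕ in atTop, ∀ pp : ℝ, pm n ≤ pp → pp ≤ 1 →
    ∀ (H : Finset (Fin (2 * n))) (K : Finset (Fin (2 * n - 1))) (S : Finset (El n)),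
      250 * H.card ≤ 2 * n - 1 → 250 * K.card ≤ 2 * n - 1 → LightS S → (∀ a ∈ S, offE H K a) →
      Pr (qq (pm n) pp) (fun s : J n → Fin 3 => ¬ ∃ T ∈ sm s, offT H K T ∧ One S T) ≤
        Real.exp (-(189 / 100 * Real.log n)) ^ S.card := by
  filter_upwards [eventually_ge_atTop 1] with n hn pp h1 h2 H K S hH hK hS hoff
  classical
  have hn1 : (1 : ℝ) ≤ n := by exact_mod_cast hn
  have hlog := Real.log_nonneg hn1
  have hpos : (0 : ℝ) < 2 * n - 1 := by linarith
  have hpm : 0 ≤ pm n := by
    unfold pm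
    exact div_nonneg (by positivity) hpos.le
  have hY := count_light H K S hH hK hS hoff
  rw [cnt_eq] at hY
  refine (Pr_mono (qq_nonneg hpm h1 h2) (B := fun s : J n → Fin 3 => (∀ i ∈ (∅ : Finset (J n)),
    s i = 2) ∧ ∀ i ∈ univ.filter (fun T : J n => offT H K T ∧ One S T), s i ≠ 2) ?_).trans
    ((cyl hpm h1 h2 ∅ _ (disjoint_empty_left _)).trans ?_)
  · intro s hs
    refine ⟨fun i hi => absurd hi (notMem_empty i), fun i hi h3 => hs ⟨i, ?_, ?_⟩⟩
    · exact mem_filter.2 ⟨mem_univ _, h3⟩
    · exact (mem_filter.1 hi).2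
  · rw [card_empty, pow_zero, one_mul, ← Real.exp_nat_mul]
    refine Real.exp_le_exp.2 ?_
    have h3 : (239 : ℝ) * (2 * n - 1) * S.card ≤
        250 * ((univ.filter (fun T : J n => offT H K T ∧ One S T)).card : ℝ) := by
      have h4 : (((2 * n - 1 : ℕ) : ℝ)) = 2 * n - 1 := by
        rw [Nat.cast_sub (by omega)]
        push_cast
        ring
      have h5 : ((239 * (2 * n - 1) * S.card : ℕ) : ℝ) ≤
        ((250 * (univ.filter (fun T : J n => offT H K T ∧ One S T)).card : ℕ) : ℝ) := by
        exact_mod_cast hY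
      rw [Nat.cast_mul, Nat.cast_mul, h4, Nat.cast_mul] at h5
      exact_mod_cast h5
    have h6 : 99 / 50 * Real.log n / (2 * n - 1) * (239 / 250 * (2 * n - 1) * S.card) ≤
        pm n * ((univ.filter (fun T : J n => offT H K T ∧ One S T)).card : ℝ) := by
      unfold pm
      refine mul_le_mul_of_nonneg_left ?_ (div_nonneg (by positivity) hpos.le)
      linarith
    have h7 : 99 / 50 * Real.log n / (2 * n - 1) * (239 / 250 * (2 * n - 1) * S.card) =
        99 / 50 * (239 / 250) * (Real.log n * S.card) := by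
      field_simp
    have h8 : 0 ≤ Real.log n * S.card := by positivity
    rw [h7] at h6
    have h9 : (S.card : ℝ) * -(189 / 100 * Real.log n) =
        -(189 / 100 * (Real.log n * S.card)) := by ring
    rw [h9]
    nlinarith

end Pool.Agent.Lib.LT
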