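import Pool.Agent.Lib.MP_6d56f7_co_LT.KernR
import Pool.Agent.Lib.MP_6d56f7_co_LT.GauS

/-!
# Integer weights through a matching
-/

set_option autoImplicit false

namespace Pool.Agent.Lib.LT

open Finset Pool.Agent.Lib.FR

variable {n : ℕ}

/-- the incidence vector is the sum of three unit vectors -/
private theorem inc_eq (u v : Fin (2 * n)) (c : Fin (2 * n - 1))
    (hd : ¬ (s(u, v) : Sym2 (Fin (2 * n))).IsDiag) :
    inc n ((c, ⟨s(u, v), hd⟩) : J n) =
      Pi.single (Sum.inl ⟨s(u, v), hd⟩) 1 + Pi.single (Sum.inr (u, c)) 1 +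
        Pi.single (Sum.inr (v, c)) 1 := by
  have huv : u ≠ v := by
    intro h
    exact hd (Sym2.mk_isDiag_iff.mpr h)
  funext a
  rcases a with e | ⟨w, c'⟩
  · have h1 : ((Pi.single (Sum.inr (u, c)) 1 : El n → ℤ)) (Sum.inl e) = 0 := by
      rw [Pi.single_apply]
      simp
    have h2 : ((Pi.single (Sum.inr (v, c)) 1 : El n → ℤ)) (Sum.inl e) = 0 := by
      rw [Pi.single_apply]
      simp
    rw [Pi.add_apply, Pi.add_apply, h1, h2, add_zero, add_zero, Pi.single_apply]
    unfold inc
    by_cases h : (⟨s(u, v), hd⟩ : Edge (Fin (2 * n))) = e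
    · rw [if_pos (mem_st_inl.mpr h), if_pos (by rw [h])]
    · rw [if_neg (fun h' => h (mem_st_inl.mp h')), if_neg]
      intro h'
      exact h (Sum.inl.inj h').symm
  · have h1 : ((Pi.single (Sum.inl ⟨s(u, v), hd⟩) 1 : El n → ℤ)) (Sum.inr (w, c')) = 0 := by
      rw [Pi.single_apply]
      simp
    rw [Pi.add_apply, Pi.add_apply, h1, zero_add, Pi.single_apply, Pi.single_apply]
    unfold inc
    by_cases hc : c' = c
    · subst hc
      by_cases hu : w = u
      · subst hu
        have hm : ((c', ⟨s(w, v), hd⟩) : J n) ∈ st n (Sum.inr (w, c')) :=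
          mem_st_inr.mpr ⟨rfl, Sym2.mem_mk_left _ _⟩
        rw [if_pos hm, if_pos rfl, if_neg]
        · simp
        · intro h'
          exact huv (congrArg Prod.fst (Sum.inr.inj h'))
      · by_cases hv : w = v
        · subst hv
          have hm : ((c', ⟨s(u, w), hd⟩) : J n) ∈ st n (Sum.inr (w, c')) :=
            mem_st_inr.mpr ⟨rfl, Sym2.mem_mk_right _ _⟩
          rw [if_pos hm, if_neg, if_pos rfl]
          · simp
          · intro h'
            exact hu (congrArg Prod.fst (Sum.inr.inj h'))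
        · rw [if_neg, if_neg, if_neg]
          · simp
          · intro h'
            exact hv (congrArg Prod.fst (Sum.inr.inj h'))
          · intro h'
            exact hu (congrArg Prod.fst (Sum.inr.inj h'))
          · intro h'
            rcases Sym2.mem_iff.mp (mem_st_inr.mp h').2 with h2 | h2
            · exact hu h2
            · exact hv h2
    · rw [if_neg, if_neg, if_neg]
      · simp
      · intro h'
        exact hc (congrArg Prod.snd (Sum.inr.inj h'))
      · intro h'
        exact hc (congrArg Prod.snd (Sum.inr.inj h'))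
      · intro h'
        exact hc (mem_st_inr.mp h').1.symm

private theorem mem_hitS {M : Finset (J n)} {a : El n} : a ∈ hitS M ↔ Hit M a := by
  unfold hitS
  simp

private theorem card_hitS (M : Finset (J n)) : (hitS M).card ≤ 3 * M.card := by
  classical
  have hsub : hitS M ⊆ M.biUnion (fun g => univ.filter (fun a => g ∈ st n a)) := by
    intro a ha
    obtain ⟨g, hg, hga⟩ := mem_hitS.mp ha
    exact mem_biUnion.mpr ⟨g, hg, mem_filter.mpr ⟨mem_univ _, hga⟩⟩
  refine (card_le_card hsub).trans ?_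
  refine (card_biUnion_le_card_mul M _ 3 fun g _ => els_card n g).trans ?_
  rw [mul_comm]

/-- the class of a unit vector -/
private noncomputable def y0 (L : Finset (J n)) (a : El n) : (El n → ℤ) ⧸ Lat n L :=
  QuotientAddGroup.mk' (Lat n L) (Pi.single a 1)

/-- the class of a unit vector, zero on `R` -/
private noncomputable def y1 (R : Finset (El n)) (L : Finset (J n)) (a : El n) :
    (El n → ℤ) ⧸ Lat n L := by
  classical
  exact if a ∈ R then 0 else y0 L a

private theorem y1_of {R : Finset (El n)} (L : Finset (J n)) {a : El n} (h : a ∉ R) :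
    y1 R L a = y0 L a := by
  unfold y1
  rw [if_neg h]

/-- the edge part of the universal function -/
private noncomputable def yf (R : Finset (El n)) (L : Finset (J n)) (u v : Fin (2 * n)) :
    (El n → ℤ) ⧸ Lat n L := by
  classical
  exact if hd : (s(u, v) : Sym2 (Fin (2 * n))).IsDiag then 0 else y1 R L (Sum.inl ⟨s(u, v), hd⟩)

private theorem yf_of (R : Finset (El n)) (L : Finset (J n)) (u v : Fin (2 * n))
    (hd : ¬ (s(u, v) : Sym2 (Fin (2 * n))).IsDiag) :
    yf R L u v = y1 R L (Sum.inl ⟨s(u, v), hd⟩) := by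
  unfold yf
  rw [dif_neg hd]

private theorem yf_diag (R : Finset (El n)) (L : Finset (J n)) (u v : Fin (2 * n))
    (hd : (s(u, v) : Sym2 (Fin (2 * n))).IsDiag) : yf R L u v = 0 := by
  unfold yf
  rw [dif_pos hd]

private theorem yf_symm (R : Finset (El n)) (L : Finset (J n)) (u v : Fin (2 * n)) :
    yf R L u v = yf R L v u := by
  have hs : (s(u, v) : Sym2 (Fin (2 * n))) = s(v, u) := Sym2.eq_swap
  by_cases hd : (s(u, v) : Sym2 (Fin (2 * n))).IsDiag
  · rw [yf_diag R L u v hd, yf_diag R L v u (hs ▸ hd)]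
  · rw [yf_of R L u v hd, yf_of R L v u (hs ▸ hd)]
    have h1 : (⟨s(u, v), hd⟩ : Edge (Fin (2 * n))) = ⟨s(v, u), hs ▸ hd⟩ := Subtype.ext hs
    rw [h1]

/-- the sum of the universal function over a pair which avoids `R` -/
private theorem y_sum {R : Finset (El n)} (L : Finset (J n)) (u v : Fin (2 * n))
    (c : Fin (2 * n - 1)) (hd : ¬ (s(u, v) : Sym2 (Fin (2 * n))).IsDiag)
    (hR : ∀ a ∈ R, ((c, ⟨s(u, v), hd⟩) : J n) ∉ st n a) :
    yf R L u v + y1 R L (Sum.inr (u, c)) + y1 R L (Sum.inr (v, c)) =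
      QuotientAddGroup.mk' (Lat n L) (inc n ((c, ⟨s(u, v), hd⟩) : J n)) := by
  have h1 : (Sum.inl ⟨s(u, v), hd⟩ : El n) ∉ R := fun h => hR _ h (mem_st_inl.mpr rfl)
  have h2 : (Sum.inr (u, c) : El n) ∉ R :=
    fun h => hR _ h (mem_st_inr.mpr ⟨rfl, Sym2.mem_mk_left _ _⟩)
  have h3 : (Sum.inr (v, c) : El n) ∉ R :=
    fun h => hR _ h (mem_st_inr.mpr ⟨rfl, Sym2.mem_mk_right _ _⟩)
  rw [inc_eq, map_add, map_add, yf_of R L u v hd, y1_of L h1, y1_of L h2, y1_of L h3]
  rfl

private theorem lat_mono {L₀ L : Finset (J n)} (h : L₀ ⊆ L) : Lat n L₀ ≤ Lat n L :=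
  AddSubgroup.closure_mono (Set.image_mono (by exact_mod_cast h))

/-- the vectors in the lattice of a system which avoids `R` vanish on `R` -/
private theorem lat_vanish {R : Finset (El n)} {L : Finset (J n)}
    (hL : ∀ T ∈ L, ∀ a ∈ R, T ∉ st n a) {y : El n → ℤ} (hy : y ∈ Lat n L) {a : El n}
    (ha : a ∈ R) : y a = 0 := by
  refine AddSubgroup.closure_induction (p := fun y _ => y a = 0) ?_ ?_ ?_ ?_ hy
  · rintro _ ⟨j, hj, rfl⟩
    unfold inc
    rw [if_neg (hL j (by exact_mod_cast hj) a ha)]
  · rfl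
  · intro y z _ _ h1 h2
    rw [Pi.add_apply, h1, h2, add_zero]
  · intro y _ h1
    rw [Pi.neg_apply, h1, neg_zero]

/-- every bad triple gives a vector outside the lattice of the restricted small system -/
private theorem bad_le {R : Finset (El n)} {L₀ L : Finset (J n)} (hsub : res R L₀ ⊆ L)
    (j₀ : J n) :
    cnt (fun p : Fin (2 * n) × Fin (2 * n) × Fin (2 * n - 1) =>
      p.1 ≠ p.2.1 ∧ yf R L p.1 p.2.1 + y1 R L (Sum.inr (p.1, p.2.2)) +
        y1 R L (Sum.inr (p.2.1, p.2.2)) ≠ 0) ≤
      2 * cnt (fun h : J n => inc n h ∉ Lat n (res R L₀)) := by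
  classical
  rw [cnt_eq, cnt_eq]
  set B := univ.filter (fun p : Fin (2 * n) × Fin (2 * n) × Fin (2 * n - 1) =>
      p.1 ≠ p.2.1 ∧ yf R L p.1 p.2.1 + y1 R L (Sum.inr (p.1, p.2.2)) +
        y1 R L (Sum.inr (p.2.1, p.2.2)) ≠ 0) with hB
  let φ : Fin (2 * n) × Fin (2 * n) × Fin (2 * n - 1) → J n := fun p =>
    if hd : (s(p.1, p.2.1) : Sym2 (Fin (2 * n))).IsDiag then j₀ else
      (p.2.2, ⟨s(p.1, p.2.1), hd⟩)
  have hφ : ∀ p : Fin (2 * n) × Fin (2 * n) × Fin (2 * n - 1),
      ∀ hd : ¬ (s(p.1, p.2.1) : Sym2 (Fin (2 * n))).IsDiag,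
        φ p = (p.2.2, ⟨s(p.1, p.2.1), hd⟩) := by
    intro p hd
    exact dif_neg hd
  have hnd : ∀ p ∈ B, ¬ (s(p.1, p.2.1) : Sym2 (Fin (2 * n))).IsDiag := by
    intro p hp h
    rw [hB, mem_filter] at hp
    exact hp.2.1 (Sym2.mk_isDiag_iff.mp h)
  have h1 : B.card ≤ 2 * (B.image φ).card := by
    refine card_le_mul_card_image B 2 ?_
    rintro ⟨c, ⟨e, he⟩⟩ -
    induction e using Sym2.ind with
    | _ x y =>
      have hsub : (B.filter (fun p => φ p = ((c, ⟨s(x, y), he⟩) : J n))) ⊆
          {(x, y, c), (y, x, c)} := by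
        rintro ⟨u, v, c'⟩ hp
        rw [mem_filter] at hp
        have h2 := hp.2
        rw [hφ _ (hnd _ hp.1)] at h2
        have h3 : c' = c := congrArg Prod.fst h2
        have h4 : (s(u, v) : Sym2 (Fin (2 * n))) = s(x, y) :=
          congrArg (fun j : J n => j.2.1) h2
        rw [mem_insert, mem_singleton]
        rcases Sym2.eq_iff.mp h4 with ⟨h5, h6⟩ | ⟨h5, h6⟩
        · left
          rw [h3, h5, h6]
        · right
          rw [h3, h5, h6]
      exact (card_le_card hsub).trans card_le_two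
  refine h1.trans (Nat.mul_le_mul_left 2 (card_le_card ?_))
  intro j hj
  obtain ⟨p, hp, rfl⟩ := mem_image.mp hj
  have hd := hnd p hp
  rw [hφ p hd, mem_filter]
  refine ⟨mem_univ _, ?_⟩
  intro h
  rw [hB, mem_filter] at hp
  by_cases hR : ∀ a ∈ R, ((p.2.2, ⟨s(p.1, p.2.1), hd⟩) : J n) ∉ st n a
  · apply hp.2.2
    rw [y_sum L p.1 p.2.1 p.2.2 hd hR]
    exact (QuotientAddGroup.eq_zero_iff _).mpr (lat_mono hsub h)
  · push Not at hR
    obtain ⟨a, ha, hTa⟩ := hR
    have h2 := lat_vanish (R := R) (L := res R L₀) (fun T hT => (mem_filter.mp hT).2) h ha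
    unfold inc at h2
    rw [if_pos hTa] at h2
    exact one_ne_zero h2

private theorem exists_w {L : Finset (J n)} {y : El n → ℤ} (hy : y ∈ Lat n L) :
    ∃ w : J n → ℤ, (∀ j, w j ≠ 0 → j ∈ L) ∧ ∀ a, ∑ j, w j * inc n j a = y a := by
  classical
  refine AddSubgroup.closure_induction (p := fun y _ => ∃ w : J n → ℤ,
    (∀ j, w j ≠ 0 → j ∈ L) ∧ ∀ a, ∑ j, w j * inc n j a = y a) ?_ ?_ ?_ ?_ hy
  · rintro _ ⟨j, hj, rfl⟩
    refine ⟨fun i => if i = j then 1 else 0, ?_, ?_⟩
    · intro i hi
      by_cases h : i = j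
      · rw [h]
        exact hj
      · exact absurd (if_neg h) hi
    · intro a
      rw [Finset.sum_eq_single j]
      · simp
      · intro i _ hi
        simp [hi]
      · intro h
        exact absurd (mem_univ j) h
  · exact ⟨fun _ => 0, fun j h => absurd rfl h, by simp⟩
  · rintro y z - - ⟨w, hw, h1⟩ ⟨w', hw', h2⟩
    refine ⟨fun j => w j + w' j, ?_, ?_⟩
    · intro j hj
      by_cases h : w j = 0
      · refine hw' j ?_
        intro h'
        exact hj (by simp [h, h'])
      · exact hw j h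
    · intro a
      rw [Pi.add_apply, ← h1 a, ← h2 a, ← Finset.sum_add_distrib]
      refine Finset.sum_congr rfl fun j _ => ?_
      ring
  · rintro y - ⟨w, hw, h1⟩
    refine ⟨fun j => - w j, ?_, ?_⟩
    · intro j hj
      exact hw j (fun h => hj (by simp [h]))
    · intro a
      rw [Pi.neg_apply, ← h1 a, ← Finset.sum_neg_distrib]
      refine Finset.sum_congr rfl fun j _ => ?_
      ring

/-- two pairs with a common element are in conflict -/
private theorem cf_of {a : El n} {g g' : J n} (h : g ∈ st n a) (h' : g' ∈ st n a) :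
    Cf n g g' := by
  rcases a with ⟨e, he⟩ | ⟨v, c⟩
  · induction e using Sym2.ind with
    | _ u w =>
      rw [mem_st_inl] at h h'
      refine Or.inr ⟨u, ?_, ?_⟩
      · rw [h]
        exact Sym2.mem_mk_left _ _
      · rw [h']
        exact Sym2.mem_mk_left _ _
  · rw [mem_st_inr] at h h'
    exact Or.inl (h.1.trans h'.1.symm)

/-- the gauge function on the elements -/
private noncomputable def kk {A : Type} [AddCommGroup A] (a : Fin (2 * n) → A)
    (t : Fin (2 * n - 1) → A) : El n → A
  | .inl e => Sym2.lift ⟨fun u v => - a u - a v, fun u v => by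
      show - a u - a v = - a v - a u
      rw [sub_eq_add_neg, sub_eq_add_neg, add_comm]⟩ e.1
  | .inr p => a p.1 + t p.2

private theorem els_eq (u v : Fin (2 * n)) (c : Fin (2 * n - 1))
    (hd : ¬ (s(u, v) : Sym2 (Fin (2 * n))).IsDiag) (a : El n) :
    ((c, ⟨s(u, v), hd⟩) : J n) ∈ st n a ↔
      a = Sum.inl ⟨s(u, v), hd⟩ ∨ a = Sum.inr (u, c) ∨ a = Sum.inr (v, c) := by
  rcases a with e | ⟨w, c'⟩
  · rw [mem_st_inl]
    constructor
    · intro h
      left
      rw [← h]
    · rintro (h | h | h)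
      · exact (Sum.inl.inj h).symm
      · exact absurd h (by simp)
      · exact absurd h (by simp)
  · rw [mem_st_inr]
    constructor
    · rintro ⟨h1, h2⟩
      have h3 : c = c' := h1
      right
      rcases Sym2.mem_iff.mp h2 with h | h
      · left
        rw [h, h3]
      · right
        rw [h, h3]
    · rintro (h | h | h)
      · exact absurd h (by simp)
      · have h1 := Sum.inr.inj h
        rw [Prod.mk.injEq] at h1
        rw [h1.1, h1.2]
        exact ⟨rfl, Sym2.mem_mk_left _ _⟩
      · have h1 := Sum.inr.inj h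
        rw [Prod.mk.injEq] at h1
        rw [h1.1, h1.2]
        exact ⟨rfl, Sym2.mem_mk_right _ _⟩

open Classical in
private theorem kk_sum {A : Type} [AddCommGroup A] (a : Fin (2 * n) → A)
    (t : Fin (2 * n - 1) → A) (ht : ∀ c, t c + t c = 0) (T : J n) :
    ∑ b ∈ univ.filter (fun b => T ∈ st n b), kk a t b = 0 := by
  obtain ⟨c, ⟨e, he⟩⟩ := T
  induction e using Sym2.ind with
  | _ u v =>
    have huv : u ≠ v := fun h' => he (Sym2.mk_isDiag_iff.mpr h')
    have h1 : (univ.filter (fun b => ((c, ⟨s(u, v), he⟩) : J n) ∈ st n b)) =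
        {Sum.inl ⟨s(u, v), he⟩, Sum.inr (u, c), Sum.inr (v, c)} := by
      ext b
      rw [mem_filter, mem_insert, mem_insert, mem_singleton]
      constructor
      · intro h
        exact (els_eq u v c he b).mp h.2
      · intro h
        exact ⟨mem_univ _, (els_eq u v c he b).mpr h⟩
    rw [h1, sum_insert, sum_insert, sum_singleton]
    · have h2 : kk a t (Sum.inl ⟨s(u, v), he⟩) = - a u - a v := rfl
      have h3 : kk a t (Sum.inr (u, c)) = a u + t c := rfl
      have h4 : kk a t (Sum.inr (v, c)) = a v + t c := rfl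
      rw [h2, h3, h4, ← ht c]
      abel
    · rw [mem_singleton]
      intro h
      exact huv (congrArg Prod.fst (Sum.inr.inj h))
    · rw [mem_insert, mem_singleton]
      rintro (h | h)
      · exact absurd h (by simp)
      · exact absurd h (by simp)

/-- integer weights on `M` and the pairs off `M` -/
theorem int_res (hn : 10 ^ 6 ≤ n) {L₀ : Finset (J n)} (hg : GoodR n L₀) {M : Finset (J n)}
    (hM : CFree M) (hfew : (3 * M.card) ^ 8 ≤ n) {H : Finset (J n)} (hsub : L₀ ⊆ H)
    (hone : HitOne (hitS M) (HR H M)) :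
    ∃ w : J n → ℤ, (∀ j, w j ≠ 0 → j ∈ HR H M ∪ M) ∧ ∀ a : El n, ∑ j, w j * inc n j a = 1 := by
  classical
  have hn1 : 1 ≤ n := le_trans (by norm_num) hn
  set L := HR H M with hL
  set R := hitS M with hR
  have hSm : SmR R := by
    unfold SmR
    exact (Nat.pow_le_pow_left (card_hitS M) 8).trans hfew
  have hres : res R L₀ ⊆ L := by
    intro T hT
    have h1 := mem_filter.mp hT
    refine mem_HR.mpr ⟨hsub h1.1, ?_⟩
    intro a ha hHit
    exact h1.2 a (mem_hitS.mpr hHit) ha
  have hav : ∀ T ∈ L, ∀ a ∈ R, T ∉ st n a := by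
    intro T hT a ha hTa
    exact (mem_HR.mp hT).2 a hTa (mem_hitS.mp ha)
  have j₀ : J n := by
    have h0 : 0 < Fintype.card (J n) := by
      rw [J_card]
      have : 0 < 2 * n - 1 := by omega
      positivity
    exact Classical.choice (Fintype.card_pos_iff.mp h0)
  have hcount : 5000000 * cnt (fun p : Fin (2 * n) × Fin (2 * n) × Fin (2 * n - 1) =>
      p.1 ≠ p.2.1 ∧ yf R L p.1 p.2.1 + y1 R L (Sum.inr (p.1, p.2.2)) +
        y1 R L (Sum.inr (p.2.1, p.2.2)) ≠ 0) ≤ (2 * n - 1) ^ 3 := by
    have h1 := bad_le hres j₀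
    have h3 := hg.far R hSm
    unfold Far at h3
    rw [J_card] at h3
    have h4 : (2 * n - 1) * (n * (2 * n - 1)) ≤ (2 * n - 1) ^ 3 := by
      have h5 : n ≤ 2 * n - 1 := by omega
      calc (2 * n - 1) * (n * (2 * n - 1)) ≤ (2 * n - 1) * ((2 * n - 1) * (2 * n - 1)) :=
            Nat.mul_le_mul_left _ (Nat.mul_le_mul_right _ h5)
        _ = (2 * n - 1) ^ 3 := by ring
    omega
  have hz : Van L (yf R L) (fun v c => y1 R L (Sum.inr (v, c))) := by
    rintro u v c ⟨hd, hm⟩
    rw [y_sum L u v c hd (hav _ hm)]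
    refine (QuotientAddGroup.eq_zero_iff _).mpr ?_
    exact AddSubgroup.subset_closure ⟨_, by exact_mod_cast hm, rfl⟩
  obtain ⟨a, t, ht, hf, hgg⟩ := kernR hn hg hSm hres hav hone (yf R L)
    (fun v c => y1 R L (Sum.inr (v, c))) (yf_symm R L) hz hcount
  have hk : ∀ b : El n, ¬ Hit M b → kk a t b = y0 L b := by
    rintro (⟨e, he⟩ | ⟨v, c⟩) hb
    · induction e using Sym2.ind with
      | _ u v =>
        have h1 : (Sum.inl ⟨s(u, v), he⟩ : El n) ∉ R := fun h => hb (mem_hitS.mp h)
        have h2 := hf u v he h1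
        rw [yf_of R L u v he, y1_of L h1] at h2
        rw [h2]
        rfl
    · have h1 : (Sum.inr (v, c) : El n) ∉ R := fun h => hb (mem_hitS.mp h)
      have h2 := hgg v c h1
      simp only [y1_of L h1] at h2
      rw [h2]
      rfl
  have hsum := sum_off hn1 M hM (kk a t) (kk_sum a t ht)
  have hx : (∑ b ∈ univ.filter (fun b : El n => ¬ Hit M b), (Pi.single b 1 : El n → ℤ)) ∈
      Lat n L := by
    refine (QuotientAddGroup.eq_zero_iff _).mp ?_
    have h1 : (QuotientAddGroup.mk' (Lat n L))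
        (∑ b ∈ univ.filter (fun b : El n => ¬ Hit M b), (Pi.single b 1 : El n → ℤ)) = 0 := by
      rw [map_sum, ← hsum]
      refine Finset.sum_congr rfl fun b hb => ?_
      exact (hk b (mem_filter.mp hb).2).symm
    exact h1
  obtain ⟨w, hw, hwx⟩ := exists_w hx
  refine ⟨fun j => w j + if j ∈ M then 1 else 0, ?_, ?_⟩
  · intro j hj
    rw [mem_union]
    by_cases h : j ∈ M
    · exact Or.inr h
    · left
      refine hw j ?_
      intro h0
      apply hj
      show w j + (if j ∈ M then 1 else 0) = 0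
      rw [if_neg h, h0, add_zero]
  · intro b
    have h1 : ∑ j, (w j + if j ∈ M then 1 else 0) * inc n j b =
        ∑ j, w j * inc n j b + ∑ j ∈ M, inc n j b := by
      rw [← Finset.sum_filter_add_sum_filter_not univ (fun j => j ∈ M) (fun j => w j * inc n j b),
        ← Finset.sum_filter_add_sum_filter_not univ (fun j => j ∈ M)
          (fun j => (w j + if j ∈ M then 1 else 0) * inc n j b)]
      have h2 : univ.filter (fun j => j ∈ M) = M := by
        ext j
        simp
      have h3 : ∑ j ∈ univ.filter (fun j => j ∈ M), (w j + if j ∈ M then 1 else 0) * inc n j b =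
          ∑ j ∈ univ.filter (fun j => j ∈ M), w j * inc n j b + ∑ j ∈ M, inc n j b := by
        rw [h2, ← Finset.sum_add_distrib]
        refine Finset.sum_congr rfl fun j hj => ?_
        rw [if_pos hj]
        ring
      have h4 : ∑ j ∈ univ.filter (fun j => j ∉ M), (w j + if j ∈ M then 1 else 0) * inc n j b =
          ∑ j ∈ univ.filter (fun j => j ∉ M), w j * inc n j b := by
        refine Finset.sum_congr rfl fun j hj => ?_
        rw [if_neg (mem_filter.mp hj).2, add_zero]
      rw [h3, h4]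
      ring
    have h5 : (∑ b' ∈ univ.filter (fun b' : El n => ¬ Hit M b'), (Pi.single b' 1 : El n → ℤ)) b =
        if Hit M b then 0 else 1 := by
      rw [Finset.sum_apply]
      by_cases h : Hit M b
      · rw [if_pos h]
        refine Finset.sum_eq_zero fun b' hb' => ?_
        rw [Pi.single_apply, if_neg]
        rintro rfl
        exact (mem_filter.mp hb').2 h
      · rw [if_neg h, Finset.sum_eq_single b]
        · rw [Pi.single_apply, if_pos rfl]
        · intro b' _ hb'
          rw [Pi.single_apply, if_neg (fun h => hb' h.symm)]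
        · intro h'
          have hm : b ∈ univ.filter (fun b' : El n => ¬ Hit M b') :=
            mem_filter.mpr ⟨mem_univ _, h⟩
          exact absurd hm h'
    have h6 : ∑ j ∈ M, inc n j b = if Hit M b then 1 else 0 := by
      by_cases h : Hit M b
      · rw [if_pos h]
        obtain ⟨g, hgM, hgb⟩ := h
        rw [Finset.sum_eq_single_of_mem g hgM]
        · unfold inc
          rw [if_pos hgb]
        · intro g' hg' hne
          unfold inc
          rw [if_neg]
          intro hgb'
          exact hne (hM g' hg' g hgM (cf_of hgb' hgb))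
      · rw [if_neg h]
        refine Finset.sum_eq_zero fun g hg' => ?_
        unfold inc
        rw [if_neg]
        intro hgb
        exact h ⟨g, hg', hgb⟩
    rw [h1, hwx b, h5, h6]
    by_cases h : Hit M b
    · rw [if_pos h, if_pos h]
      norm_num
    · rw [if_neg h, if_neg h]
      norm_num

end Pool.Agent.Lib.LT
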