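import Pool.Agent.Lib.MP_6d56f7_co_LT.RatA

/-!
# From real and integer solutions to multiple solutions
-/

set_option autoImplicit false

namespace Pool.Agent.Lib.LT

open Finset

private theorem KGenAux.denom {P : Type} [Fintype P] (y : P → ℚ) :
    ∃ (D : ℕ) (Y : P → ℤ), 0 < D ∧ ∀ p, (Y p : ℚ) = D * y p := by
  classical
  have hdvd : ∀ p, (y p).den ∣ ∏ i, (y i).den := fun p => dvd_prod_of_mem _ (mem_univ p)
  choose e he using hdvd
  refine ⟨∏ i, (y i).den, fun p => (e p : ℤ) * (y p).num, prod_pos fun i _ => (y i).pos, ?_⟩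
  intro p
  rw [he p]
  push_cast
  have h1 : ((y p).den : ℚ) * y p = (y p).num := Rat.den_mul_eq_num (y p)
  rw [mul_right_comm, h1]
  ring

/-- a real solution which is positive on `S` and an integer solution supported on `S` give
nonnegative integer solutions with right hand side `K` for all large `K` -/
theorem kfold_gen {P Q : Type} [Fintype P] [Fintype Q] (m : P → Q → ℤ) (S : P → Prop)
    (x : P → ℝ) (hx : ∀ p, S p → 0 < x p) (hx0 : ∀ p, ¬ S p → x p = 0)
    (hx1 : ∀ q, ∑ p, x p * m p q = 1) (w : P → ℤ) (hw : ∀ p, w p ≠ 0 → S p)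
    (hw1 : ∀ q, ∑ p, w p * m p q = 1) :
    ∃ K₀ : ℕ, ∀ K : ℕ, K₀ ≤ K → ∃ y : P → ℕ, (∀ p, y p ≠ 0 → S p) ∧
      ∀ q, ∑ p, (y p : ℤ) * m p q = K := by
  classical
  obtain ⟨φ, hφ1, hφ⟩ := rat_functional x
  obtain ⟨D, Y, hD, hY⟩ := KGenAux.denom (fun p => φ (x p))
  have hDq : (0 : ℚ) < D := by exact_mod_cast hD
  have hYpos : ∀ p, S p → 1 ≤ Y p := by
    intro p hp
    have h1 : (0 : ℚ) < (Y p : ℚ) := by
      rw [hY p]
      exact mul_pos hDq (hφ p (hx p hp))
    have h2 : (0 : ℤ) < Y p := by exact_mod_cast h1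
    omega
  have hYzero : ∀ p, ¬ S p → Y p = 0 := by
    intro p hp
    have h1 : (Y p : ℚ) = 0 := by
      rw [hY p]
      simp only [hx0 p hp, map_zero, mul_zero]
    exact_mod_cast h1
  have hYsum : ∀ q, ∑ p, Y p * m p q = D := by
    intro q
    have h1 : φ (∑ p, x p * m p q) = 1 := by rw [hx1 q, hφ1]
    rw [map_sum] at h1
    have h2 : ∀ p, φ (x p * m p q) = (m p q : ℚ) * φ (x p) := by
      intro p
      have h3 : x p * (m p q : ℝ) = (m p q : ℚ) • x p := by
        rw [Rat.smul_def, mul_comm]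
        push_cast
        rfl
      rw [h3, map_smul, smul_eq_mul]
    have h4 : ((∑ p, Y p * m p q : ℤ) : ℚ) = (D : ℚ) := by
      push_cast
      calc ∑ p, (Y p : ℚ) * (m p q : ℚ) = ∑ p, (D : ℚ) * φ (x p * m p q) := by
            refine sum_congr rfl fun p _ => ?_
            rw [hY p, h2 p]
            ring
        _ = D := by rw [← mul_sum, h1, mul_one]
    exact_mod_cast h4
  set B : ℕ := ∑ p, (w p).natAbs with hB
  have hwB : ∀ p, (w p).natAbs ≤ B := fun p =>
    single_le_sum (f := fun p => (w p).natAbs) (fun i _ => Nat.zero_le _) (mem_univ p)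
  refine ⟨D * B * D, fun K hK => ?_⟩
  have hq : D * B ≤ K / D := (Nat.le_div_iff_mul_le hD).2 hK
  have hr : K % D < D := Nat.mod_lt K hD
  have hnn : ∀ p, 0 ≤ ((K / D : ℕ) : ℤ) * Y p + ((K % D : ℕ) : ℤ) * w p := by
    intro p
    by_cases hp : S p
    · have h1 : ((K / D : ℕ) : ℤ) * 1 ≤ ((K / D : ℕ) : ℤ) * Y p :=
        mul_le_mul_of_nonneg_left (hYpos p hp) (by positivity)
      have h2 : -((D * B : ℕ) : ℤ) ≤ ((K % D : ℕ) : ℤ) * w p := by
        have h3 : (((K % D) * (w p).natAbs : ℕ) : ℤ) ≤ ((D * B : ℕ) : ℤ) := by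
          exact_mod_cast Nat.mul_le_mul hr.le (hwB p)
        have h4 : |((K % D : ℕ) : ℤ) * w p| = (((K % D) * (w p).natAbs : ℕ) : ℤ) := by
          rw [abs_mul, Nat.cast_mul, Int.natCast_natAbs, Nat.abs_cast]
        have h5 := neg_abs_le (((K % D : ℕ) : ℤ) * w p)
        rw [h4] at h5
        linarith
      have h6 : ((D * B : ℕ) : ℤ) ≤ ((K / D : ℕ) : ℤ) := by exact_mod_cast hq
      linarith
    · have h1 : w p = 0 := by
        by_contra h
        exact hp (hw p h)
      rw [hYzero p hp, h1, mul_zero, mul_zero, add_zero]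
  refine ⟨fun p => (((K / D : ℕ) : ℤ) * Y p + ((K % D : ℕ) : ℤ) * w p).toNat, ?_, ?_⟩
  · intro p hp
    by_contra h
    have h1 : w p = 0 := by
      by_contra h2
      exact h (hw p h2)
    apply hp
    simp only [hYzero p h, h1, mul_zero, add_zero, Int.toNat_zero]
  · intro q
    have h1 : ∀ p, (((((K / D : ℕ) : ℤ) * Y p + ((K % D : ℕ) : ℤ) * w p).toNat : ℕ) : ℤ) *
        m p q = ((K / D : ℕ) : ℤ) * (Y p * m p q) + ((K % D : ℕ) : ℤ) * (w p * m p q) := by
      intro p
      rw [Int.toNat_of_nonneg (hnn p)]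
      ring
    rw [sum_congr rfl fun p _ => h1 p, sum_add_distrib, ← mul_sum, ← mul_sum, hYsum q, hw1 q,
      mul_one]
    have h2 : D * (K / D) + K % D = K := Nat.div_add_mod K D
    have h3 : ((D * (K / D) + K % D : ℕ) : ℤ) = (K : ℤ) := by rw [h2]
    rw [Nat.cast_add, Nat.cast_mul] at h3
    rw [← h3]
    ring

end Pool.Agent.Lib.LT
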