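import Pool.Agent.Lib.MP_6d56f7_co_LT.KDefs
import Pool.Agent.Lib.MP_6d56f7_co_LT.KGen

/-!
# Multiple colourings from real and integer weights
-/

set_option autoImplicit false

namespace Pool.Agent.Lib.LT

open Finset Pool.Agent.Lib.FR

variable {n : ℕ}

private theorem KWAux.sum_inl (w : J n → ℤ) (e : Edge (Fin (2 * n))) :
    ∑ j, w j * inc n j (.inl e) = ∑ c, w (c, e) := by
  classical
  rw [Fintype.sum_prod_type]
  refine Finset.sum_congr rfl fun c _ => ?_
  rw [Finset.sum_eq_single e]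
  · have : ((c, e) : J n) ∈ st n (.inl e) := mem_st_inl.mpr rfl
    simp [inc, this]
  · intro e' _ he'
    have : ((c, e') : J n) ∉ st n (.inl e) := fun h => he' (mem_st_inl.mp h)
    simp [inc, this]
  · intro h
    exact absurd (mem_univ e) h

private theorem KWAux.sum_inr (w : J n → ℤ) (v : Fin (2 * n)) (c : Fin (2 * n - 1)) :
    ∑ j, w j * inc n j (.inr (v, c)) =
      ∑ e : Edge (Fin (2 * n)), (if v ∈ e.1 then w (c, e) else 0) := by
  classical
  rw [Fintype.sum_prod_type, Finset.sum_eq_single c]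
  · refine Finset.sum_congr rfl fun e _ => ?_
    by_cases h : v ∈ e.1
    · have : ((c, e) : J n) ∈ st n (.inr (v, c)) := mem_st_inr.mpr ⟨rfl, h⟩
      simp [inc, this, h]
    · have : ((c, e) : J n) ∉ st n (.inr (v, c)) := fun h' => h (mem_st_inr.mp h').2
      simp [inc, this, h]
  · intro c' _ hc'
    refine Finset.sum_eq_zero fun e _ => ?_
    have : ((c', e) : J n) ∉ st n (.inr (v, c)) := fun h => hc' (mem_st_inr.mp h).1
    simp [inc, this]
  · intro h
    exact absurd (mem_univ c) h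

/-- real weights which are positive exactly on `L` and integer weights supported on `L` -/
theorem kf_of (L : Finset (J n)) (x : J n → ℝ) (hx : ∀ j ∈ L, 0 < x j)
    (hx0 : ∀ j, j ∉ L → x j = 0) (hx1 : ∀ a : El n, ∑ j, x j * inc n j a = 1) (w : J n → ℤ)
    (hw : ∀ j, w j ≠ 0 → j ∈ L) (hw1 : ∀ a : El n, ∑ j, w j * inc n j a = 1) :
    KF n (fun c e => (c, e) ∈ L) := by
  obtain ⟨K₀, hK₀⟩ := kfold_gen (fun (j : J n) (a : El n) => inc n j a) (fun j => j ∈ L) x hx
    hx0 hx1 w hw hw1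
  refine ⟨K₀, fun K hK => ?_⟩
  obtain ⟨y, hy, hy1⟩ := hK₀ K hK
  refine ⟨fun c e => y (c, e), fun c e h => hy _ h, fun e => ?_, fun v c => ?_⟩
  · have h := hy1 (.inl e)
    rw [KWAux.sum_inl (fun j => (y j : ℤ)) e] at h
    exact_mod_cast h
  · have h := hy1 (.inr (v, c))
    rw [KWAux.sum_inr (fun j => (y j : ℤ)) v c] at h
    exact_mod_cast h

/-- integer weights with all sums one, as a function on the pairs -/
theorem intW_pairs {L : Finset (J n)} (h : IntW n (fun c e => (c, e) ∈ L)) :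
    ∃ w : J n → ℤ, (∀ j, w j ≠ 0 → j ∈ L) ∧ ∀ a : El n, ∑ j, w j * inc n j a = 1 := by
  obtain ⟨-, w, hw, h1, h2⟩ := h
  refine ⟨fun j => w j.1 j.2, fun j hj => hw j.1 j.2 hj, fun a => ?_⟩
  rcases a with e | ⟨v, c⟩
  · rw [KWAux.sum_inl (fun j : J n => w j.1 j.2) e]
    exact h1 e
  · rw [KWAux.sum_inr (fun j : J n => w j.1 j.2) v c]
    exact h2 v c

end Pool.Agent.Lib.LT
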