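import Pool.Agent.Lib.MP_6d56f7_co_LT.KDefs

/-!
# Real weights through a matching
-/

set_option autoImplicit false

namespace Pool.Agent.Lib.LT

open Finset Pool.Agent.Lib.FR

variable {n : ℕ}

/-- the weight of a pair -/
private noncomputable def wt (w : Fin (2 * n) → Fin (2 * n) → Fin (2 * n - 1) → ℝ) (j : J n) : ℝ :=
  w (Quot.out j.2.1).1 (Quot.out j.2.1).2 j.1

private theorem wt_eq {w : Fin (2 * n) → Fin (2 * n) → Fin (2 * n - 1) → ℝ}
    (hs : ∀ u v c, w u v c = w v u c) {j : J n} {u v : Fin (2 * n)} (h : j.2.1 = s(u, v)) :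
    wt w j = w u v j.1 := by
  have h1 : (s((Quot.out j.2.1).1, (Quot.out j.2.1).2) : Sym2 (Fin (2 * n))) = s(u, v) := by
    rw [← h]
    exact Quot.out_eq j.2.1
  unfold wt
  rcases Sym2.eq_iff.mp h1 with ⟨h2, h3⟩ | ⟨h2, h3⟩
  · rw [h2, h3]
  · rw [h2, h3, hs]

private theorem exists_uv (j : J n) : ∃ u v, j.2.1 = s(u, v) :=
  ⟨(Quot.out j.2.1).1, (Quot.out j.2.1).2, (Quot.out_eq j.2.1).symm⟩

private theorem wt_zero {H M : Finset (J n)}
    {w : Fin (2 * n) → Fin (2 * n) → Fin (2 * n - 1) → ℝ} (h : FRW n H M w) {j : J n}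
    (hj : j ∉ HR H M) : wt w j = 0 := by
  obtain ⟨u, v, huv⟩ := exists_uv j
  rw [wt_eq h.symm huv]
  refine h.zero u v j.1 fun hc => hj ?_
  obtain ⟨h1, h2⟩ := mem_LK.mp hc
  have h3 : j = (j.1, ⟨s(u, v), h1⟩) := Prod.ext rfl (Subtype.ext huv)
  rw [h3]
  exact h2

private theorem wt_pos {H M : Finset (J n)}
    {w : Fin (2 * n) → Fin (2 * n) → Fin (2 * n - 1) → ℝ} (h : FRW n H M w) {j : J n}
    (hj : j ∈ HR H M) : 0 < wt w j := by
  obtain ⟨u, v, huv⟩ := exists_uv j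
  rw [wt_eq h.symm huv]
  refine h.pos u v j.1 (mem_LK.mpr ?_)
  have h1 : ¬ (s(u, v) : Sym2 (Fin (2 * n))).IsDiag := by
    rw [← huv]
    exact j.2.2
  have h3 : j = (j.1, ⟨s(u, v), h1⟩) := Prod.ext rfl (Subtype.ext huv)
  exact ⟨h1, h3 ▸ hj⟩

private theorem sum_st_inl {w : Fin (2 * n) → Fin (2 * n) → Fin (2 * n - 1) → ℝ}
    (hs : ∀ u v c, w u v c = w v u c) {u v : Fin (2 * n)}
    (h : ¬ (s(u, v) : Sym2 (Fin (2 * n))).IsDiag) :
    ∑ j ∈ st n (.inl ⟨s(u, v), h⟩), wt w j = ∑ c, w u v c := by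
  symm
  refine Finset.sum_bij (fun c _ => ((c, ⟨s(u, v), h⟩) : J n)) ?_ ?_ ?_ ?_
  · intro c _
    exact mem_st_inl.mpr rfl
  · intro c _ c' _ hcc
    exact congrArg Prod.fst hcc
  · rintro ⟨c, e⟩ hj
    rw [mem_st_inl] at hj
    simp only at hj
    exact ⟨c, mem_univ _, by rw [hj]⟩
  · intro c _
    rw [wt_eq hs rfl]

private theorem sum_st_inr {w : Fin (2 * n) → Fin (2 * n) → Fin (2 * n - 1) → ℝ}
    (hs : ∀ u v c, w u v c = w v u c) (v : Fin (2 * n)) (c : Fin (2 * n - 1))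
    (h0 : w v v c = 0) :
    ∑ j ∈ st n (.inr (v, c)), wt w j = ∑ u, w u v c := by
  classical
  rw [← Finset.sum_erase univ (f := fun u => w u v c) (a := v) h0]
  symm
  have hd : ∀ u ∈ univ.erase v, ¬ (s(u, v) : Sym2 (Fin (2 * n))).IsDiag := by
    intro u hu
    rw [Sym2.mk_isDiag_iff]
    exact ne_of_mem_erase hu
  refine Finset.sum_bij (fun u hu => ((c, ⟨s(u, v), hd u hu⟩) : J n)) ?_ ?_ ?_ ?_
  · intro u hu
    exact mem_st_inr.mpr ⟨rfl, Sym2.mem_mk_right _ _⟩
  · intro u hu u' hu' huu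
    have h2 := congrArg (fun j : J n => j.2.1) huu
    simp only at h2
    exact Sym2.congr_left.mp h2
  · rintro ⟨c', ⟨e, he⟩⟩ hj
    rw [mem_st_inr] at hj
    obtain ⟨h1, h2⟩ := hj
    simp only at h1 h2
    subst h1
    obtain ⟨u, rfl⟩ := h2
    have hne : u ≠ v := by
      rintro rfl
      exact he (Sym2.mk_isDiag_iff.mpr rfl)
    refine ⟨u, mem_erase.mpr ⟨hne, mem_univ _⟩, ?_⟩
    exact Prod.ext rfl (Subtype.ext Sym2.eq_swap)
  · intro u hu
    rw [wt_eq hs rfl]

private theorem card_M {M : Finset (J n)} (hM : CFree M) {a : El n} (ha : Hit M a)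
    [DecidableEq (J n)] : (st n a ∩ M).card = 1 := by
  obtain ⟨g, hg, hga⟩ := ha
  rw [card_eq_one]
  refine ⟨g, ?_⟩
  rw [eq_singleton_iff_unique_mem]
  refine ⟨mem_inter.mpr ⟨hga, hg⟩, fun g' hg' => ?_⟩
  rw [mem_inter] at hg'
  refine hM g' hg'.2 g hg ?_
  rcases a with e | ⟨v, c⟩
  · rw [mem_st_inl] at hga hg'
    obtain ⟨u, v, huv⟩ := exists_uv g
    refine Or.inr ⟨u, ?_, ?_⟩
    · rw [hg'.1, ← hga, huv]
      exact Sym2.mem_mk_left _ _
    · rw [huv]
      exact Sym2.mem_mk_left _ _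
  · rw [mem_st_inr] at hga hg'
    exact Or.inl (hg'.1.1.trans hga.1.symm)

/-- real weights which are positive exactly on `M` and the pairs off `M` -/
theorem real_sol {H M : Finset (J n)}
    {w : Fin (2 * n) → Fin (2 * n) → Fin (2 * n - 1) → ℝ} (h : FRW n H M w) :
    ∃ x : J n → ℝ, (∀ j ∈ HR H M ∪ M, 0 < x j) ∧ (∀ j, j ∉ HR H M ∪ M → x j = 0) ∧
      ∀ a : El n, ∑ j, x j * inc n j a = 1 := by
  classical
  have hnn : ∀ j, 0 ≤ wt w j := by
    intro j
    by_cases hj : j ∈ HR H M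
    · exact (wt_pos h hj).le
    · exact (wt_zero h hj).ge
  refine ⟨fun j => wt w j + if j ∈ M then 1 else 0, ?_, ?_, ?_⟩
  · intro j hj
    rw [mem_union] at hj
    simp only
    by_cases hjM : j ∈ M
    · rw [if_pos hjM]
      have := hnn j
      linarith
    · rw [if_neg hjM, add_zero]
      exact wt_pos h (hj.resolve_right hjM)
  · intro j hj
    rw [mem_union, not_or] at hj
    simp only
    rw [if_neg hj.2, add_zero]
    exact wt_zero h hj.1
  · intro a
    have h1 : ∀ j : J n, (wt w j + if j ∈ M then 1 else 0) * ((inc n j a : ℤ) : ℝ) =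
        if j ∈ st n a then wt w j + if j ∈ M then 1 else 0 else 0 := by
      intro j
      unfold inc
      by_cases hj : j ∈ st n a <;> simp [hj]
    rw [sum_congr rfl fun j _ => h1 j, sum_ite_mem, univ_inter, sum_add_distrib, sum_ite_mem,
      sum_const, nsmul_eq_mul, mul_one]
    by_cases ha : Hit M a
    · rw [card_M h.free ha, Nat.cast_one]
      rw [sum_eq_zero, zero_add]
      intro j hj
      refine wt_zero h fun hj2 => ?_
      exact (mem_HR.mp hj2).2 a hj ha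
    · have h2 : st n a ∩ M = ∅ := by
        rw [eq_empty_iff_forall_notMem]
        intro j hj
        rw [mem_inter] at hj
        exact ha ⟨j, hj.2, hj.1⟩
      rw [h2, card_empty, Nat.cast_zero, add_zero]
      rcases a with ⟨e, he⟩ | ⟨v, c⟩
      · induction e using Sym2.ind with
        | _ u v =>
          rw [sum_st_inl h.symm he]
          have huv : u ≠ v := fun hc => he (Sym2.mk_isDiag_iff.mpr hc)
          exact h.edge u v huv fun hc => ha ((hit_inl he).mpr hc)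
      · have h0 : w v v c = 0 := by
          refine h.zero v v c fun hc => ?_
          obtain ⟨h3, -⟩ := mem_LK.mp hc
          exact h3 (Sym2.mk_isDiag_iff.mpr rfl)
        rw [sum_st_inr h.symm v c h0]
        exact h.pair v c fun hc => ha (hit_inr.mpr hc)

end Pool.Agent.Lib.LT
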