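import Pool.Agent.Lib.MP_6d56f7_co_LT.EvFT
import Pool.Agent.Lib.MP_6d56f7_co_LT.EvLT
import Pool.Agent.Lib.MP_6d56f7_co_LT.IntR
import Pool.Agent.Lib.MP_6d56f7_co_LT.RealS
import Pool.Agent.Lib.MP_6d56f7_co_LT.KW

/-!
# Multiple colourings at the hitting time
-/

set_option autoImplicit false

namespace Pool.Agent.Lib.LT

open Finset Filter Topology Pool.Agent.Lib.FR

theorem seg_mono {n m : ℕ} (σ : J n ≃ Fin m) {t t' : ℕ} (h : t ≤ t') : seg σ t ⊆ seg σ t' := by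
  intro j hj
  have h1 : (σ j : ℕ) < t := (mem_filter.mp hj).2
  exact mem_filter.mpr ⟨mem_univ _, lt_of_lt_of_le h1 h⟩

theorem KF.mono {n : ℕ} {R R' : Fin (2 * n - 1) → Edge (Fin (2 * n)) → Prop} (h : KF n R)
    (hR : ∀ c e, R c e → R' c e) : KF n R' := by
  obtain ⟨K₀, hK⟩ := h
  refine ⟨K₀, fun K hK' => ?_⟩
  obtain ⟨w, h1, h2, h3⟩ := hK K hK'
  exact ⟨w, fun c e hc => hR c e (h1 c e hc), h2, h3⟩

/-- deterministic part -/
theorem kf_seg {n m : ℕ} (hn : 10 ^ 6 ≤ n) (σ : J n ≃ Fin m) (hF : EvF σ) (hL : EvL σ) (t : ℕ)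
    (ht : Cover (seg σ t)) : KF n (fun c e => (σ (c, e) : ℕ) < t) := by
  obtain ⟨t₀, h0, hg⟩ := hL
  obtain ⟨t', htt, hc, M, w, hw⟩ := hF t ht
  have ht0 : t₀ ≤ t' := by
    by_contra hlt
    push Not at hlt
    apply h0
    intro a
    obtain ⟨T, hT, hTa⟩ := hc a
    exact ⟨T, seg_mono σ hlt.le hT, hTa⟩
  obtain ⟨x, hx, hx0, hx1⟩ := real_sol hw
  obtain ⟨v, hv, hv1⟩ := int_res hn hg hw.free hw.few (seg_mono σ ht0) hw.one
  refine (kf_of (HR (seg σ t') M ∪ M) x hx hx0 hx1 v hv hv1).mono ?_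
  intro c e hce
  have h1 : ((c, e) : J n) ∈ seg σ t' := by
    rcases mem_union.mp hce with h | h
    · exact (mem_HR.mp h).1
    · exact hw.sub h
  have h2 := seg_mono σ htt h1
  exact (mem_filter.mp h2).2

/-- **multiple colourings at the hitting time** -/
theorem hittingK : Tendsto (fun n : ℕ =>
    ((Set.ncard {σ : J n ≃ Fin (Nat.card (J n)) | ∀ t : ℕ,
      (∀ e : Edge (Fin (2 * n)), ∃ c : Fin (2 * n - 1), (σ (c, e) : ℕ) < t) →
      (∀ v : Fin (2 * n), ∀ c : Fin (2 * n - 1),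
        ∃ e : Edge (Fin (2 * n)), v ∈ e.1 ∧ (σ (c, e) : ℕ) < t) →
      KF n (fun c e => (σ (c, e) : ℕ) < t)} : ℝ) /
      (Nat.card (J n ≃ Fin (Nat.card (J n))) : ℝ))) atTop (𝓝 1) := by
  let Good' : (n : ℕ) → (J n ≃ Fin (Nat.card (J n))) → Prop := fun n σ => ∀ t : ℕ,
      (∀ e : Edge (Fin (2 * n)), ∃ c : Fin (2 * n - 1), (σ (c, e) : ℕ) < t) →
      (∀ v : Fin (2 * n), ∀ c : Fin (2 * n - 1),
        ∃ e : Edge (Fin (2 * n)), v ∈ e.1 ∧ (σ (c, e) : ℕ) < t) →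
      KF n (fun c e => (σ (c, e) : ℕ) < t)
  have hle : ∀ᶠ n : ℕ in atTop,
      (Set.ncard {σ : J n ≃ Fin (Nat.card (J n)) | ¬ Good' n σ} : ℝ) /
        (Nat.card (J n ≃ Fin (Nat.card (J n))) : ℝ) ≤
      (Set.ncard {σ : J n ≃ Fin (Nat.card (J n)) | ¬ EvF σ} : ℝ) /
        (Nat.card (J n ≃ Fin (Nat.card (J n))) : ℝ) +
      (Set.ncard {σ : J n ≃ Fin (Nat.card (J n)) | ¬ EvL σ} : ℝ) /
        (Nat.card (J n ≃ Fin (Nat.card (J n))) : ℝ) := by
    filter_upwards [eventually_ge_atTop (10 ^ 6)] with n hn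
    rw [← add_div]
    refine div_le_div_of_nonneg_right ?_ (by positivity)
    have hsub : {σ : J n ≃ Fin (Nat.card (J n)) | ¬ Good' n σ} ⊆
        {σ : J n ≃ Fin (Nat.card (J n)) | ¬ EvF σ} ∪
        {σ : J n ≃ Fin (Nat.card (J n)) | ¬ EvL σ} := by
      intro σ hσ
      by_contra hcon
      simp only [Set.mem_union, Set.mem_setOf_eq, not_or, not_not] at hcon
      apply hσ
      intro t h1 h2
      refine kf_seg hn σ hcon.1 hcon.2 t ?_
      rintro (e | ⟨v, c⟩)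
      · obtain ⟨c, hc⟩ := h1 e
        exact ⟨(c, e), mem_filter.mpr ⟨mem_univ _, hc⟩, mem_st_inl.mpr rfl⟩
      · obtain ⟨e, hv, he⟩ := h2 v c
        exact ⟨(c, e), mem_filter.mpr ⟨mem_univ _, he⟩, mem_st_inr.mpr ⟨rfl, hv⟩⟩
    have h1 := Set.ncard_le_ncard hsub (Set.toFinite _)
    have h2 := Set.ncard_union_le {σ : J n ≃ Fin (Nat.card (J n)) | ¬ EvF σ}
      {σ : J n ≃ Fin (Nat.card (J n)) | ¬ EvL σ}
    exact_mod_cast h1.trans h2
  have hcompl : ∀ n : ℕ, (Set.ncard {σ : J n ≃ Fin (Nat.card (J n)) | Good' n σ} : ℝ) /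
        (Nat.card (J n ≃ Fin (Nat.card (J n))) : ℝ) =
      1 - (Set.ncard {σ : J n ≃ Fin (Nat.card (J n)) | ¬ Good' n σ} : ℝ) /
        (Nat.card (J n ≃ Fin (Nat.card (J n))) : ℝ) := by
    intro n
    have h1 : {σ : J n ≃ Fin (Nat.card (J n)) | ¬ Good' n σ} =
        {σ : J n ≃ Fin (Nat.card (J n)) | Good' n σ}ᶜ := rfl
    rw [h1]
    have h2 := Set.ncard_add_ncard_compl {σ : J n ≃ Fin (Nat.card (J n)) | Good' n σ}
      (Set.toFinite _) (Set.toFinite _)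
    have h3 : (Nat.card (J n ≃ Fin (Nat.card (J n))) : ℝ) ≠ 0 := by
      have : Nonempty (J n ≃ Fin (Nat.card (J n))) := ⟨Finite.equivFin _⟩
      exact_mod_cast Nat.card_pos.ne'
    rw [eq_sub_iff_add_eq, ← add_div, div_eq_one_iff_eq h3]
    exact_mod_cast h2
  have hsum := evF_share.add evL_share
  rw [add_zero] at hsum
  have hlim : Tendsto (fun n : ℕ =>
      (Set.ncard {σ : J n ≃ Fin (Nat.card (J n)) | ¬ Good' n σ} : ℝ) /
        (Nat.card (J n ≃ Fin (Nat.card (J n))) : ℝ)) atTop (𝓝 0) :=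
    squeeze_zero' (Eventually.of_forall fun n => by positivity) hle hsum
  have hfin := hlim.const_sub 1
  rw [sub_zero] at hfin
  exact hfin.congr fun n => (hcompl n).symm

end Pool.Agent.Lib.LT
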