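import Pool.Agent.Lib.MP_6d56f7_co_LT.QInt

/-!
# Integer configurations, second part
-/

set_option autoImplicit false

namespace Pool.Agent.Lib.LT

open Finset Pool.Agent.Lib.FR

variable {n : ℕ}

/-- the vector of a matching with a colour -/
private def qvec (p : Fin (2 * n - 1) × Finset (Edge (Fin (2 * n)))) :
    Edge (Fin (2 * n)) ⊕ Fin (2 * n - 1) → ℤ :=
  Sum.elim (fun e => if e ∈ p.2 then 1 else 0) (fun c => if p.1 = c then 1 else 0)

/-- elements of the subgroup generated by the allowed vectors are integer combinations -/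
private theorem qvec_closure {S : Set (Fin (2 * n - 1) × Finset (Edge (Fin (2 * n))))}
    {v : Edge (Fin (2 * n)) ⊕ Fin (2 * n - 1) → ℤ}
    (hv : v ∈ AddSubgroup.closure (qvec '' S)) :
    ∃ z : Fin (2 * n - 1) × Finset (Edge (Fin (2 * n))) → ℤ, (∀ p, z p ≠ 0 → p ∈ S) ∧
      v = ∑ p, z p • qvec p := by
  classical
  induction hv using AddSubgroup.closure_induction with
  | mem x hx =>
    obtain ⟨p, hp, rfl⟩ := hx
    refine ⟨Pi.single p 1, fun q hq => ?_, ?_⟩
    · by_cases h : q = p
      · rw [h]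
        exact hp
      · rw [Pi.single_eq_of_ne h] at hq
        exact absurd rfl hq
    · rw [Finset.sum_eq_single p]
      · rw [Pi.single_eq_same, one_smul]
      · intro q _ hq
        rw [Pi.single_eq_of_ne hq, zero_smul]
      · intro h
        exact absurd (Finset.mem_univ p) h
  | zero =>
    refine ⟨0, fun q hq => absurd rfl hq, ?_⟩
    simp
  | add x y _ _ hx hy =>
    obtain ⟨z₁, h₁, rfl⟩ := hx
    obtain ⟨z₂, h₂, rfl⟩ := hy
    refine ⟨z₁ + z₂, fun q hq => ?_, ?_⟩
    · by_cases h : z₁ q = 0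
      · refine h₂ q fun h' => hq ?_
        rw [Pi.add_apply, h, h', add_zero]
      · exact h₁ q h
    · rw [← Finset.sum_add_distrib]
      refine Finset.sum_congr rfl fun p _ => ?_
      rw [Pi.add_apply, add_smul]
  | neg x _ hx =>
    obtain ⟨z₁, h₁, rfl⟩ := hx
    refine ⟨-z₁, fun q hq => h₁ q fun h' => hq ?_, ?_⟩
    · rw [Pi.neg_apply, h', neg_zero]
    · rw [← Finset.sum_neg_distrib]
      refine Finset.sum_congr rfl fun p _ => ?_
      rw [Pi.neg_apply, neg_smul]

/-- the rational circle is divisible by two -/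
private theorem circle_half (a : AddCircle (1 : ℚ)) : ∃ b, b + b = a := by
  obtain ⟨x, rfl⟩ := QuotientAddGroup.mk_surjective a
  refine ⟨QuotientAddGroup.mk (x / 2), ?_⟩
  rw [← QuotientAddGroup.mk_add, add_halves]

/-- integer weights on the allowed perfect matchings -/
theorem int_cfg (hn : 10 ^ 6 ≤ n) {L₀ H M : Finset (J n)} (hg : GoodR n L₀) (hsub : L₀ ⊆ H)
    {w : Fin (2 * n) → Fin (2 * n) → Fin (2 * n - 1) → ℝ} (hw : FRQ n H M w) :
    ∃ z : Fin (2 * n - 1) × Finset (Edge (Fin (2 * n))) → ℤ, (∀ p, z p ≠ 0 → Cfg H M p) ∧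
      (∀ c, ∑ N, z (c, N) = 1) ∧
      ∀ e : Edge (Fin (2 * n)), ∑ p, (if e ∈ p.2 then z p else 0) = 1 := by
  classical
  set Λ : AddSubgroup (Edge (Fin (2 * n)) ⊕ Fin (2 * n - 1) → ℤ) :=
    AddSubgroup.closure (qvec '' {p | Cfg H M p}) with hΛ
  have hone : (fun _ => 1 : Edge (Fin (2 * n)) ⊕ Fin (2 * n - 1) → ℤ) ∈ Λ := by
    by_contra hcon
    have hne : (QuotientAddGroup.mk (fun _ => 1 : Edge (Fin (2 * n)) ⊕ Fin (2 * n - 1) → ℤ) :
        (Edge (Fin (2 * n)) ⊕ Fin (2 * n - 1) → ℤ) ⧸ Λ) ≠ 0 := by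
      intro h
      exact hcon ((QuotientAddGroup.eq_zero_iff _).1 h)
    obtain ⟨χ, hχ⟩ := CharacterModule.exists_character_apply_ne_zero_of_ne_zero hne
    let φ : (Edge (Fin (2 * n)) ⊕ Fin (2 * n - 1) → ℤ) →+ AddCircle (1 : ℚ) :=
      AddMonoidHom.comp (show ((Edge (Fin (2 * n)) ⊕ Fin (2 * n - 1) → ℤ) ⧸ Λ) →+
        AddCircle (1 : ℚ) from χ) (QuotientAddGroup.mk' Λ)
    have hφ1 : φ (fun _ => 1) ≠ 0 := hχ
    have hφΛ : ∀ v ∈ Λ, φ v = 0 := by
      intro v hv
      have h1 : (QuotientAddGroup.mk' Λ) v = 0 := (QuotientAddGroup.eq_zero_iff v).2 hv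
      change (show ((Edge (Fin (2 * n)) ⊕ Fin (2 * n - 1) → ℤ) ⧸ Λ) →+
        AddCircle (1 : ℚ) from χ) ((QuotientAddGroup.mk' Λ) v) = 0
      rw [h1, map_zero]
    -- the values of `φ`
    have hval : ∀ v : Edge (Fin (2 * n)) ⊕ Fin (2 * n - 1) → ℤ,
        φ v = ∑ e, v (Sum.inl e) • φ (Pi.single (Sum.inl e) 1) +
          ∑ c, v (Sum.inr c) • φ (Pi.single (Sum.inr c) 1) := by
      intro v
      have h1 : v = ∑ q, v q • (Pi.single q 1 : Edge (Fin (2 * n)) ⊕ Fin (2 * n - 1) → ℤ) := by
        funext q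
        rw [Finset.sum_apply, Finset.sum_eq_single q]
        · rw [Pi.smul_apply, Pi.single_eq_same, smul_eq_mul, mul_one]
        · intro r _ hr
          rw [Pi.smul_apply, Pi.single_eq_of_ne (Ne.symm hr), smul_zero]
        · intro h
          exact absurd (Finset.mem_univ q) h
      conv_lhs => rw [h1]
      rw [map_sum, Fintype.sum_sum_type]
      congr 1
      · exact Finset.sum_congr rfl fun e _ => map_zsmul φ _ _
      · exact Finset.sum_congr rfl fun c _ => map_zsmul φ _ _
    have h2 := sum_zero hn hg hsub hw circle_half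
      (fun e => φ (Pi.single (Sum.inl e) 1)) (fun c => φ (Pi.single (Sum.inr c) 1)) (by
        intro p hp
        have h3 := hφΛ _ (AddSubgroup.subset_closure (Set.mem_image_of_mem qvec hp))
        rw [hval] at h3
        rw [← h3]
        congr 1
        · change _ = ∑ e, (if e ∈ p.2 then (1 : ℤ) else 0) • φ (Pi.single (Sum.inl e) 1)
          simp only [ite_smul, one_smul, zero_smul]
          rw [← Finset.sum_filter, Finset.filter_mem_eq_inter, Finset.univ_inter]
        · change _ = ∑ c, (if p.1 = c then (1 : ℤ) else 0) • φ (Pi.single (Sum.inr c) 1)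
          simp only [ite_smul, one_smul, zero_smul]
          rw [Finset.sum_ite_eq, if_pos (Finset.mem_univ _)])
    apply hφ1
    rw [hval]
    simp only [one_smul]
    exact h2
  obtain ⟨z, hz, hz1⟩ := qvec_closure hone
  refine ⟨z, fun p hp => hz p hp, fun c => ?_, fun e => ?_⟩
  · have h1 := congrFun hz1 (Sum.inr c)
    rw [Finset.sum_apply] at h1
    have h2 : ∑ p : Fin (2 * n - 1) × Finset (Edge (Fin (2 * n))),
        (z p • qvec p) (Sum.inr c) = ∑ N, z (c, N) := by
      rw [Fintype.sum_prod_type, Finset.sum_eq_single c]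
      · refine Finset.sum_congr rfl fun N _ => ?_
        change z (c, N) • (if c = c then (1 : ℤ) else 0) = _
        rw [if_pos rfl, smul_eq_mul, mul_one]
      · intro c' _ hc'
        refine Finset.sum_eq_zero fun N _ => ?_
        change z (c', N) • (if c' = c then (1 : ℤ) else 0) = _
        rw [if_neg hc', smul_zero]
      · intro h
        exact absurd (Finset.mem_univ c) h
    rw [h2] at h1
    exact h1.symm
  · have h1 := congrFun hz1 (Sum.inl e)
    rw [Finset.sum_apply] at h1
    rw [h1]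
    refine Finset.sum_congr rfl fun p _ => ?_
    change _ = z p • (if e ∈ p.2 then (1 : ℤ) else 0)
    split_ifs
    · rw [smul_eq_mul, mul_one]
    · rw [smul_zero]

end Pool.Agent.Lib.LT
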