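import Pool.Agent.Lib.MP_6d56f7_co_LT.QDefs
import Pool.Agent.Lib.MP_6d56f7_co_LT.KGen

/-!
# Decompositions from real and integer configurations
-/

set_option autoImplicit false

namespace Pool.Agent.Lib.LT

open Finset Pool.Agent.Lib.FR

variable {n : ℕ}

/-- a list of objects with given multiplicities -/
private theorem qkm_list {A : Type} [Fintype A] (y : A → ℕ) {K : ℕ} (h : ∑ a, y a = K) :
    ∃ f : Fin K → A, (∀ i, y (f i) ≠ 0) ∧
      ∀ g : A → ℕ, ∑ i, g (f i) = ∑ a, y a * g a := by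
  have h1 : Fintype.card (Fin K) = Fintype.card (Σ a : A, Fin (y a)) := by
    rw [Fintype.card_fin, Fintype.card_sigma]
    simp only [Fintype.card_fin]
    exact h.symm
  let e := Fintype.equivOfCardEq h1
  refine ⟨fun i => (e i).1, fun i h2 => ?_, fun g => ?_⟩
  · have h3 := (e i).2
    have h4 := h3.2
    simp only at h2
    omega
  · rw [Equiv.sum_comp e (fun s : (Σ a : A, Fin (y a)) => g s.1), Fintype.sum_sigma]
    refine sum_congr rfl fun a _ => ?_
    simp only [sum_const, card_univ, Fintype.card_fin, smul_eq_mul]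

theorem km_of {H M : Finset (J n)}
    (y : Fin (2 * n - 1) × Finset (Edge (Fin (2 * n))) → ℝ) (hy : ∀ p, Cfg H M p → 0 < y p)
    (hy0 : ∀ p, ¬ Cfg H M p → y p = 0) (hy1 : ∀ c, ∑ N, y (c, N) = 1)
    (hy2 : ∀ e : Edge (Fin (2 * n)), ∑ p, (if e ∈ p.2 then y p else 0) = 1)
    (z : Fin (2 * n - 1) × Finset (Edge (Fin (2 * n))) → ℤ) (hz : ∀ p, z p ≠ 0 → Cfg H M p)
    (hz1 : ∀ c, ∑ N, z (c, N) = 1)
    (hz2 : ∀ e : Edge (Fin (2 * n)), ∑ p, (if e ∈ p.2 then z p else 0) = 1) :
    KM n (fun c e => (c, e) ∈ HR H M ∪ M) := by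
  classical
  let m : Fin (2 * n - 1) × Finset (Edge (Fin (2 * n))) →
      Edge (Fin (2 * n)) ⊕ Fin (2 * n - 1) → ℤ := fun p q =>
    Sum.elim (fun e => if e ∈ p.2 then 1 else 0) (fun c => if p.1 = c then 1 else 0) q
  have hcol : ∀ {R : Type} [CommSemiring R]
      (u : Fin (2 * n - 1) × Finset (Edge (Fin (2 * n))) → R) (c : Fin (2 * n - 1)),
      ∑ p, (if p.1 = c then u p else 0) = ∑ N, u (c, N) := by
    intro R _ u c
    rw [Fintype.sum_prod_type, Fintype.sum_eq_single c]
    · simp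
    · intro c' hc'
      simp [hc']
  obtain ⟨K₀, hK₀⟩ := kfold_gen m (Cfg H M) y hy hy0 (fun q => by
      rcases q with e | c
      · rw [← hy2 e]
        refine sum_congr rfl fun p _ => ?_
        simp only [m, Sum.elim_inl]
        split_ifs <;> simp
      · rw [← hy1 c, ← hcol y c]
        refine sum_congr rfl fun p _ => ?_
        simp only [m, Sum.elim_inr]
        split_ifs <;> simp) z hz (fun q => by
      rcases q with e | c
      · rw [← hz2 e]
        refine sum_congr rfl fun p _ => ?_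
        simp only [m, Sum.elim_inl]
        split_ifs <;> simp
      · rw [← hz1 c, ← hcol z c]
        refine sum_congr rfl fun p _ => ?_
        simp only [m, Sum.elim_inr]
        split_ifs <;> simp)
  refine ⟨K₀, fun K hK => ?_⟩
  obtain ⟨k, hkS, hk⟩ := hK₀ K hK
  have hk1 : ∀ c, ∑ N, k (c, N) = K := by
    intro c
    have h1 := hk (Sum.inr c)
    have h2 : ∑ p, (k p : ℤ) * m p (Sum.inr c) = ∑ N, (k (c, N) : ℤ) := by
      rw [← hcol (fun p => (k p : ℤ)) c]
      refine sum_congr rfl fun p _ => ?_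
      simp only [m, Sum.elim_inr]
      split_ifs <;> simp
    rw [h2] at h1
    exact_mod_cast h1
  have hk2 : ∀ e : Edge (Fin (2 * n)), ∑ p, k p * (if e ∈ p.2 then 1 else 0) = K := by
    intro e
    have h1 := hk (Sum.inl e)
    have h2 : ((∑ p, k p * (if e ∈ p.2 then 1 else 0) : ℕ) : ℤ) =
        ∑ p, (k p : ℤ) * m p (Sum.inl e) := by
      rw [Nat.cast_sum]
      refine sum_congr rfl fun p _ => ?_
      simp only [m, Sum.elim_inl]
      split_ifs <;> simp
    rw [← h2] at h1
    exact_mod_cast h1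
  choose f hf1 hf2 using fun c => qkm_list (fun N => k (c, N)) (hk1 c)
  refine ⟨f, fun c i => (hkS _ (hf1 c i)).1, fun c i e he => (hkS _ (hf1 c i)).2 e he,
    fun e => ?_⟩
  rw [card_filter, Fintype.sum_prod_type]
  refine Eq.trans ?_ (hk2 e)
  rw [Fintype.sum_prod_type]
  exact sum_congr rfl fun c _ => hf2 c (fun N => if e ∈ N then 1 else 0)

end Pool.Agent.Lib.LT
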