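import Pool.Agent.Lib.MP_6d56f7_co_LT.QPos

/-!
# Real configurations
-/

set_option autoImplicit false

namespace Pool.Agent.Lib.LT

open Finset Pool.Agent.Lib.FR

variable {n : ℕ}

private theorem qr_zero {H M : Finset (J n)}
    {w : Fin (2 * n) → Fin (2 * n) → Fin (2 * n - 1) → ℝ} (h : FRW n H M w)
    {u v : Fin (2 * n)} {c : Fin (2 * n - 1)} (hR : REm M u v) : w u v c = 0 := by
  apply h.zero
  intro hc
  obtain ⟨hd, hm⟩ := mem_LK.mp hc
  exact (mem_HR.mp hm).2 (.inl ⟨s(u, v), hd⟩) (mem_st_inl.mpr rfl) ((hit_inl hd).mpr hR)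

private theorem qr_nonneg {H M : Finset (J n)}
    {w : Fin (2 * n) → Fin (2 * n) → Fin (2 * n - 1) → ℝ} (h : FRW n H M w)
    (u v : Fin (2 * n)) (c : Fin (2 * n - 1)) : 0 ≤ w u v c := by
  by_cases hc : c ∈ LK n (HR H M) u v
  · exact (h.pos u v c hc).le
  · exact (h.zero u v c hc).ge

private theorem qr_one {H M : Finset (J n)}
    {w : Fin (2 * n) → Fin (2 * n) → Fin (2 * n - 1) → ℝ} (h : FRW n H M w)
    {u v : Fin (2 * n)} {c : Fin (2 * n - 1)} (hg : ∃ g ∈ M, g.1 = c ∧ g.2.1 = s(u, v)) :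
    wM M w c u v = 1 := by
  have h1 : REm M u v := by
    obtain ⟨g, hg1, -, hg2⟩ := hg
    exact ⟨g, hg1, hg2⟩
  unfold wM
  rw [if_pos hg, qr_zero h h1, zero_add]

private theorem qr_off {M : Finset (J n)}
    {w : Fin (2 * n) → Fin (2 * n) → Fin (2 * n - 1) → ℝ}
    {u v : Fin (2 * n)} {c : Fin (2 * n - 1)} (hg : ¬ ∃ g ∈ M, g.1 = c ∧ g.2.1 = s(u, v)) :
    wM M w c u v = w u v c := by
  unfold wM
  rw [if_neg hg, add_zero]

private theorem qr_pos {H M : Finset (J n)}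
    {w : Fin (2 * n) → Fin (2 * n) → Fin (2 * n - 1) → ℝ} (h : FRW n H M w)
    {u v : Fin (2 * n)} {c : Fin (2 * n - 1)} (hd : ¬ (s(u, v) : Sym2 (Fin (2 * n))).IsDiag) :
    0 < wM M w c u v ↔ ((c, ⟨s(u, v), hd⟩) : J n) ∈ HR H M ∪ M := by
  by_cases hg : ∃ g ∈ M, g.1 = c ∧ g.2.1 = s(u, v)
  · rw [qr_one h hg]
    refine ⟨fun _ => mem_union_right _ ?_, fun _ => one_pos⟩
    obtain ⟨g, hg1, hg2, hg3⟩ := hg
    have h1 : g = ((c, ⟨s(u, v), hd⟩) : J n) := Prod.ext hg2 (Subtype.ext hg3)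
    rw [← h1]
    exact hg1
  · rw [qr_off hg]
    constructor
    · intro hp
      apply mem_union_left
      by_contra hc
      have h1 : c ∉ LK n (HR H M) u v := by
        intro h2
        obtain ⟨_, h3⟩ := mem_LK.mp h2
        exact hc h3
      rw [h.zero u v c h1] at hp
      exact lt_irrefl _ hp
    · intro hm
      rcases mem_union.mp hm with h1 | h1
      · exact h.pos u v c (mem_LK.mpr ⟨hd, h1⟩)
      · exact absurd ⟨_, h1, rfl, rfl⟩ hg

private theorem qr_mem {M : Finset (J n)} {v : Fin (2 * n)} {c : Fin (2 * n - 1)} :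
    v ∈ (UC M c)ᶜ ↔ RPm M v c := by
  rw [mem_compl, UC]
  simp

private theorem qr_card {M : Finset (J n)} (hM : CFree M) (c : Fin (2 * n - 1)) :
    ((UC M c)ᶜ : Finset (Fin (2 * n))).card ≤ 2 := by
  by_cases hg : ∃ g ∈ M, g.1 = c
  · obtain ⟨g, hg1, hg2⟩ := hg
    obtain ⟨x, y, hxy⟩ : ∃ x y, g.2.1 = s(x, y) := by
      induction g.2.1 using Sym2.ind with
      | _ x y => exact ⟨x, y, rfl⟩
    have h1 : ((UC M c)ᶜ : Finset (Fin (2 * n))) ⊆ {x, y} := by
      intro u hu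
      obtain ⟨g', h2, h3, h4⟩ := qr_mem.mp hu
      have h5 : g' = g := hM g' h2 g hg1 (Or.inl (h3.trans hg2.symm))
      rw [h5, hxy] at h4
      rw [mem_insert, mem_singleton]
      exact Sym2.mem_iff.mp h4
    exact (card_le_card h1).trans card_le_two
  · have h1 : ((UC M c)ᶜ : Finset (Fin (2 * n))) = ∅ := by
      rw [eq_empty_iff_forall_notMem]
      intro u hu
      obtain ⟨g', h2, h3, -⟩ := qr_mem.mp hu
      exact hg ⟨g', h2, h3⟩
    rw [h1]
    simp

private theorem qr_sum {H M : Finset (J n)}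
    {w : Fin (2 * n) → Fin (2 * n) → Fin (2 * n - 1) → ℝ} (h : FRW n H M w)
    {u v : Fin (2 * n)} (hd : ¬ (s(u, v) : Sym2 (Fin (2 * n))).IsDiag) :
    ∑ c, wM M w c u v = 1 := by
  by_cases hR : REm M u v
  · obtain ⟨g, hg, hg2⟩ := id hR
    have h1 : ∀ c, wM M w c u v = if c = g.1 then 1 else 0 := by
      intro c
      by_cases hc : c = g.1
      · rw [if_pos hc]
        exact qr_one h ⟨g, hg, hc.symm, hg2⟩
      · rw [if_neg hc, qr_off, qr_zero h hR]
        rintro ⟨g', h2, h3, h4⟩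
        have h5 : g' = g := by
          refine h.free g' h2 g hg (Or.inr ⟨u, ?_, ?_⟩)
          · rw [h4]
            exact Sym2.mem_mk_left u v
          · rw [hg2]
            exact Sym2.mem_mk_left u v
        rw [h5] at h3
        exact hc h3.symm
    rw [sum_congr rfl fun c _ => h1 c]
    simp
  · have h1 : ∀ c, wM M w c u v = w u v c := by
      intro c
      apply qr_off
      rintro ⟨g, h2, -, h4⟩
      exact hR ⟨g, h2, h4⟩
    rw [sum_congr rfl fun c _ => h1 c]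
    refine h.edge u v ?_ hR
    intro huv
    exact hd (by rw [Sym2.mk_isDiag_iff]; exact huv)

/-- positive real weights on all allowed perfect matchings -/
theorem real_cfg {H M : Finset (J n)}
    {w : Fin (2 * n) → Fin (2 * n) → Fin (2 * n - 1) → ℝ} (h : FRQ n H M w) :
    ∃ y : Fin (2 * n - 1) × Finset (Edge (Fin (2 * n))) → ℝ, (∀ p, Cfg H M p → 0 < y p) ∧
      (∀ p, ¬ Cfg H M p → y p = 0) ∧ (∀ c, ∑ N, y (c, N) = 1) ∧
      ∀ e : Edge (Fin (2 * n)), ∑ p, (if e ∈ p.2 then y p else 0) = 1 := by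
  have key : ∀ c, ∃ p : Finset (Edge (Fin (2 * n))) → ℝ,
      (∀ N, PerfM N → (∀ (u v : Fin (2 * n)) (h : ¬ (s(u, v) : Sym2 (Fin (2 * n))).IsDiag),
        (⟨s(u, v), h⟩ : Edge (Fin (2 * n))) ∈ N → 0 < wM M w c u v) → 0 < p N) ∧
      (∀ N, p N ≠ 0 → PerfM N ∧
        ∀ (u v : Fin (2 * n)) (h : ¬ (s(u, v) : Sym2 (Fin (2 * n))).IsDiag),
        (⟨s(u, v), h⟩ : Edge (Fin (2 * n))) ∈ N → 0 < wM M w c u v) ∧
      ∑ N, p N = 1 ∧
      ∀ (u v : Fin (2 * n)) (h : ¬ (s(u, v) : Sym2 (Fin (2 * n))).IsDiag),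
        ∑ N, (if (⟨s(u, v), h⟩ : Edge (Fin (2 * n))) ∈ N then p N else 0) = wM M w c u v := by
    intro c
    refine pos_comb (h.edm c) (UC M c)ᶜ (qr_card h.base.free c) ?_ ?_
    · intro u hu
      obtain ⟨g, h2, h3, h4⟩ := qr_mem.mp hu
      obtain ⟨v, hv⟩ : ∃ v, g.2.1 = s(u, v) := h4
      refine ⟨v, qr_mem.mpr ⟨g, h2, h3, ?_⟩, qr_one h.base ⟨g, h2, h3, hv⟩⟩
      rw [hv]
      exact Sym2.mem_mk_right u v
    · rw [compl_compl]
      intro W hW hodd hW3 hW4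
      refine (h.cut2 c W hW hodd hW3 hW4).trans ?_
      refine sum_le_sum fun u _ => sum_le_sum fun v _ => ?_
      by_cases hg : ∃ g ∈ M, g.1 = c ∧ g.2.1 = s(u, v)
      · rw [qr_one h.base hg]
        have h5 : REm M u v := by
          obtain ⟨g, hg1, -, hg2⟩ := hg
          exact ⟨g, hg1, hg2⟩
        rw [qr_zero h.base h5]
        exact zero_le_one
      · rw [qr_off hg]
  choose p hp1 hp2 hp3 hp4 using key
  refine ⟨fun q => p q.1 q.2, ?_, ?_, fun c => hp3 c, ?_⟩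
  · rintro ⟨c, N⟩ ⟨hN1, hN2⟩
    exact hp1 c N hN1 fun u v hd hm => (qr_pos h.base hd).mpr (hN2 _ hm)
  · rintro ⟨c, N⟩ hN
    by_contra hne
    obtain ⟨h1, h2⟩ := hp2 c N hne
    refine hN ⟨h1, ?_⟩
    rintro ⟨e, hd⟩ he
    induction e using Sym2.ind with
    | _ u v => exact (qr_pos h.base hd).mp (h2 u v hd he)
  · rintro ⟨e, hd⟩
    induction e using Sym2.ind with
    | _ u v =>
      rw [Fintype.sum_prod_type]
      have h1 : ∀ c, (∑ N : Finset (Edge (Fin (2 * n))),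
          if (⟨s(u, v), hd⟩ : Edge (Fin (2 * n))) ∈ ((c, N) : _ × _).2
            then p ((c, N) : _ × _).1 ((c, N) : _ × _).2 else 0) = wM M w c u v :=
        fun c => hp4 c u v hd
      rw [sum_congr rfl fun c _ => h1 c]
      exact qr_sum h.base hd

end Pool.Agent.Lib.LT
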