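import Pool.Agent.Lib.MP_6d56f7_co_LT.Hit
import Pool.Agent.Lib.MP_6d56f7_co_LT.SmRC

/-!
# A light set is missed with small probability, off a small set
-/

set_option autoImplicit false

namespace Pool.Agent.Lib.LT

open Finset Filter Pool.Agent.Lib.FR

private theorem hitR_card {n r s : ℕ} (hn : 592901 ≤ n) (hr : r ^ 8 ≤ n) (hs : n ≤ s ^ 2) :
    154 * r ≤ s := by
  by_contra hc
  push Not at hc
  have h1 : n < (154 * r) ^ 2 := lt_of_le_of_lt hs (Nat.pow_lt_pow_left hc (by norm_num))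
  rcases Nat.lt_or_ge r 6 with h | h
  · have h2 : (154 * r) ^ 2 ≤ (154 * 5) ^ 2 := Nat.pow_le_pow_left (by omega) 2
    have h3 : (154 * 5) ^ 2 = 592900 := by norm_num
    omega
  · have h2 : 6 ^ 6 ≤ r ^ 6 := Nat.pow_le_pow_left h 6
    have h3 : r ^ 8 = r ^ 6 * r ^ 2 := by ring
    have h4 : 6 ^ 6 * r ^ 2 ≤ r ^ 8 := by
      rw [h3]
      exact Nat.mul_le_mul_right _ h2
    have h5 : (154 * r) ^ 2 = 23716 * r ^ 2 := by ring
    have h6 : 23716 * r ^ 2 ≤ 6 ^ 6 * r ^ 2 := Nat.mul_le_mul_right _ (by norm_num)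
    omega

/-- the probability that no pair of the small system off `R`, `H` and `K` meets the light set `S`
exactly once -/
theorem hit_lightR : ∀ᶠ n : ℕ in atTop, ∀ pp : ℝ, pm n ≤ pp → pp ≤ 1 →
    ∀ (R : Finset (El n)) (H : Finset (Fin (2 * n))) (K : Finset (Fin (2 * n - 1)))
      (S : Finset (El n)), SmR R →
      250 * H.card ≤ 2 * n - 1 → 250 * K.card ≤ 2 * n - 1 → LightS S → (∀ a ∈ S, offE H K a) →
      n ≤ S.card ^ 2 →
      Pr (qq (pm n) pp) (fun s : J n → Fin 3 => ¬ ∃ T ∈ res R (sm s), offT H K T ∧ One S T) ≤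
        Real.exp (-(188 / 100 * Real.log n)) ^ S.card := by
  filter_upwards [eventually_ge_atTop 592901] with n hn pp h1 h2 R H K S hR hH hK hS hoff hnS
  classical
  have hn1 : (1 : ℝ) ≤ n := by
    have : 1 ≤ n := by omega
    exact_mod_cast this
  have hlog := Real.log_nonneg hn1
  have hpos : (0 : ℝ) < 2 * n - 1 := by linarith
  have hpm : 0 ≤ pm n := by
    unfold pm
    exact div_nonneg (by positivity) hpos.le
  have hRS : 154 * R.card ≤ S.card := hitR_card hn hR hnS
  have hY := count_light H K S hH hK hS hoff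
  rw [cnt_eq] at hY
  have hT := card_touch R
  rw [cnt_eq] at hT
  set A := univ.filter (fun T : J n => offT H K T ∧ One S T) with hA
  set B := univ.filter (fun T : J n => ∃ a ∈ R, T ∈ st n a) with hB
  set Y := A \ B with hYdef
  have hYc : (A.card : ℝ) ≤ Y.card + B.card := by
    have h3 : A.card ≤ Y.card + B.card := tsub_le_iff_right.1 (Finset.le_card_sdiff B A)
    exact_mod_cast h3
  refine (Pr_mono (qq_nonneg hpm h1 h2) (B := fun s : J n → Fin 3 => (∀ i ∈ (∅ : Finset (J n)),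
    s i = 2) ∧ ∀ i ∈ Y, s i ≠ 2) ?_).trans
    ((cyl hpm h1 h2 ∅ _ (disjoint_empty_left _)).trans ?_)
  · intro s hs
    refine ⟨fun i hi => absurd hi (notMem_empty i), fun i hi h3 => hs ⟨i, ?_, ?_⟩⟩
    · refine mem_filter.2 ⟨mem_filter.2 ⟨mem_univ _, h3⟩, fun a ha hia => ?_⟩
      exact (mem_sdiff.1 hi).2 (mem_filter.2 ⟨mem_univ _, a, ha, hia⟩)
    · have h6 : i ∈ A := (mem_sdiff.1 hi).1
      rw [hA] at h6
      exact (mem_filter.1 h6).2
  · rw [card_empty, pow_zero, one_mul, ← Real.exp_nat_mul]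
    refine Real.exp_le_exp.2 ?_
    have h4 : (((2 * n - 1 : ℕ) : ℝ)) = 2 * n - 1 := by
      rw [Nat.cast_sub (by omega)]
      push_cast
      ring
    have h3 : (239 : ℝ) * (2 * n - 1) * S.card ≤ 250 * (A.card : ℝ) := by
      have h5 : ((239 * (2 * n - 1) * S.card : ℕ) : ℝ) ≤ ((250 * A.card : ℕ) : ℝ) := by
        exact_mod_cast hY
      rw [Nat.cast_mul, Nat.cast_mul, h4, Nat.cast_mul] at h5
      exact_mod_cast h5
    have h5 : (B.card : ℝ) ≤ R.card * (2 * n - 1) := by
      have h6 : ((B.card : ℕ) : ℝ) ≤ ((R.card * (2 * n - 1) : ℕ) : ℝ) := by exact_mod_cast hT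
      rw [Nat.cast_mul, h4] at h6
      exact h6
    have h6 : (154 : ℝ) * R.card ≤ S.card := by exact_mod_cast hRS
    have h7 : (239 / 250 - 1 / 154) * (2 * n - 1) * S.card ≤ (Y.card : ℝ) := by
      have h8 : (R.card : ℝ) * (2 * n - 1) ≤ 1 / 154 * S.card * (2 * n - 1) :=
        mul_le_mul_of_nonneg_right (by linarith) hpos.le
      nlinarith
    have h8 : 99 / 50 * Real.log n / (2 * n - 1) *
        ((239 / 250 - 1 / 154) * (2 * n - 1) * S.card) ≤ pm n * (Y.card : ℝ) := by
      unfold pm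
      exact mul_le_mul_of_nonneg_left h7 (div_nonneg (by positivity) hpos.le)
    have h9 : 99 / 50 * Real.log n / (2 * n - 1) *
        ((239 / 250 - 1 / 154) * (2 * n - 1) * S.card) =
        99 / 50 * (239 / 250 - 1 / 154) * (Real.log n * S.card) := by
      field_simp
    have h10 : 0 ≤ Real.log n * S.card := by positivity
    rw [h9] at h8
    have h11 : (S.card : ℝ) * -(188 / 100 * Real.log n) =
        -(188 / 100 * (Real.log n * S.card)) := by ring
    rw [h11]
    nlinarith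

end Pool.Agent.Lib.LT
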