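import Pool.Agent.Lib.MP_6d56f7_co_LT.Cyl
import Pool.Agent.Lib.MP_6d56f7_co_LT.CntS

/-!
# A small covered set is missed with small probability
-/

set_option autoImplicit false

namespace Pool.Agent.Lib.LT

open Finset Filter Pool.Agent.Lib.FR

private theorem HitSAux.ev : ∀ᶠ n : ℕ in atTop, 1 ≤ n ∧ 0 ≤ Real.log n ∧
    Real.exp (-(1 / 20 * Real.log n)) ≤ 1 / 100 ∧
    Real.exp (-(1 / 2 * Real.log n)) ≤ 1 / 200 := by
  have h1 : Tendsto (fun n : ℕ => Real.log (n : ℝ)) atTop atTop :=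
    Real.tendsto_log_atTop.comp tendsto_natCast_atTop_atTop
  have key : ∀ x : ℝ, 200 ≤ x → Real.exp (-x) ≤ 1 / 200 := by
    intro x hx
    have h2 : 200 ≤ Real.exp x := by
      have := Real.add_one_le_exp x
      linarith
    rw [Real.exp_neg, ← one_div]
    exact one_div_le_one_div_of_le (by norm_num) h2
  filter_upwards [h1.eventually_ge_atTop 4000, eventually_ge_atTop 1] with n hn hn1
  refine ⟨hn1, by linarith, ?_, ?_⟩
  · have := key (1 / 20 * Real.log n) (by linarith)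
    linarith
  · exact key (1 / 2 * Real.log n) (by linarith)

private theorem HitSAux.calc' {n k : ℕ} (hn : 1 ≤ n) (hL : 0 ≤ Real.log n)
    (h1 : Real.exp (-(1 / 20 * Real.log n)) ≤ 1 / 100)
    (h2 : Real.exp (-(1 / 2 * Real.log n)) ≤ 1 / 200) (hk : k ^ 2 ≤ n) {x y : ℕ}
    (hx : 2 * x ≤ k ^ 2) (hy : (2 * n - 1) * k ≤ y + k ^ 2) :
    (1 / Real.exp (3 / 20 * Real.log n)) ^ k *
      Real.exp (pm n * Real.exp (3 / 20 * Real.log n) ^ 3 * x) * Real.exp (-(pm n * y)) ≤
      Real.exp (-(21 / 10 * Real.log n)) ^ k := by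
  have hn0 : (1 : ℝ) ≤ n := by exact_mod_cast hn
  have hnp : (0 : ℝ) < n := by linarith
  have hq : (n : ℝ) ≤ 2 * n - 1 := by linarith
  have hq0 : (0 : ℝ) < 2 * n - 1 := by linarith
  have hk0 : (0 : ℝ) ≤ k := Nat.cast_nonneg k
  have hk2 : (k : ℝ) ^ 2 ≤ n := by exact_mod_cast hk
  have hx' : 2 * (x : ℝ) ≤ (k : ℝ) ^ 2 := by exact_mod_cast hx
  have hy' : (2 * (n : ℝ) - 1) * k ≤ y + (k : ℝ) ^ 2 := by
    have h3 : (((2 * n - 1) * k : ℕ) : ℝ) ≤ ((y + k ^ 2 : ℕ) : ℝ) := by exact_mod_cast hy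
    rw [Nat.cast_mul, Nat.cast_sub (by omega), Nat.cast_add, Nat.cast_pow, Nat.cast_mul] at h3
    push_cast at h3
    exact h3
  set L := Real.log n with hLdef
  have hexp : Real.exp L = n := Real.exp_log hnp
  set E := Real.exp (-(1 / 2 * L)) with hE
  have hE0 : 0 < E := Real.exp_pos _
  have h4 : E * E * n = 1 := by
    have h3 : -(1 / 2 * L) + -(1 / 2 * L) + L = 0 := by ring
    rw [← hexp, hE, ← Real.exp_add, ← Real.exp_add, h3, Real.exp_zero]
  have hkE : (k : ℝ) * E ≤ 1 := by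
    have h3 : ((k : ℝ) * E) ^ 2 ≤ 1 ^ 2 := by
      have h5 : ((k : ℝ) * E) ^ 2 = E * E * (k : ℝ) ^ 2 := by ring
      rw [h5, one_pow, ← h4]
      exact mul_le_mul_of_nonneg_left hk2 (by positivity)
    exact (pow_le_pow_iff_left₀ (by positivity) (by norm_num) (by norm_num)).mp h3
  have hquo : (k : ℝ) ^ 2 / (2 * n - 1) ≤ k * E := by
    rw [div_le_iff₀ hq0]
    have h5 : (k : ℝ) * (k * E) ≤ k * 1 := mul_le_mul_of_nonneg_left hkE hk0
    have h6 : (k : ℝ) ≤ E * (2 * n - 1) := by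
      have h7 : (k : ℝ) * E * (E * n) ≤ 1 * (E * n) :=
        mul_le_mul_of_nonneg_right hkE (by positivity)
      have h8 : (k : ℝ) * E * (E * n) = k := by
        have : (k : ℝ) * E * (E * n) = k * (E * E * n) := by ring
        rw [this, h4, mul_one]
      have h9 : E * (n : ℝ) ≤ E * (2 * n - 1) := mul_le_mul_of_nonneg_left hq hE0.le
      linarith
    have h10 : (k : ℝ) * k ≤ k * (E * (2 * n - 1)) := mul_le_mul_of_nonneg_left h6 hk0
    calc (k : ℝ) ^ 2 = k * k := by ring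
      _ ≤ k * (E * (2 * n - 1)) := h10
      _ = k * E * (2 * n - 1) := by ring
  have hp : pm n = 99 / 50 * L * (1 / (2 * n - 1)) := by
    unfold pm
    rw [← hLdef]
    ring
  have hA : pm n * Real.exp (3 / 20 * L) ^ 3 * x ≤ 1 / 100 * L * k := by
    have h3 : Real.exp (3 / 20 * L) ^ 3 * E = Real.exp (-(1 / 20 * L)) := by
      rw [hE, ← Real.exp_nat_mul, ← Real.exp_add]
      congr 1
      push_cast
      ring
    have h4 : pm n * Real.exp (3 / 20 * L) ^ 3 * x ≤
        99 / 100 * L * Real.exp (3 / 20 * L) ^ 3 * ((k : ℝ) ^ 2 / (2 * n - 1)) := by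
      have h5 : pm n * Real.exp (3 / 20 * L) ^ 3 * x =
          99 / 100 * L * Real.exp (3 / 20 * L) ^ 3 * ((2 * (x : ℝ)) / (2 * n - 1)) := by
        rw [hp]
        field_simp
        ring
      rw [h5]
      refine mul_le_mul_of_nonneg_left ?_ (by positivity)
      exact div_le_div_of_nonneg_right hx' hq0.le
    have h6 : 99 / 100 * L * Real.exp (3 / 20 * L) ^ 3 * ((k : ℝ) ^ 2 / (2 * n - 1)) ≤
        99 / 100 * L * Real.exp (3 / 20 * L) ^ 3 * (k * E) :=
      mul_le_mul_of_nonneg_left hquo (by positivity)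
    have h7 : 99 / 100 * L * Real.exp (3 / 20 * L) ^ 3 * (k * E) =
        99 / 100 * L * k * Real.exp (-(1 / 20 * L)) := by
      rw [← h3]
      ring
    have h8 : 99 / 100 * L * k * Real.exp (-(1 / 20 * L)) ≤ 99 / 100 * L * k * (1 / 100) :=
      mul_le_mul_of_nonneg_left h1 (by positivity)
    have h9 : 0 ≤ L * k := by positivity
    linarith
  have hB : 99 / 50 * L * k - 1 / 100 * L * k ≤ pm n * y := by
    have h3 : pm n * ((2 * (n : ℝ) - 1) * k) = 99 / 50 * L * k := by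
      rw [hp]
      field_simp
    have hp0 : 0 ≤ pm n := by
      rw [hp]
      positivity
    have h4 : pm n * ((2 * (n : ℝ) - 1) * k) ≤ pm n * (y + (k : ℝ) ^ 2) :=
      mul_le_mul_of_nonneg_left hy' hp0
    have h5 : pm n * (k : ℝ) ^ 2 = 99 / 50 * L * ((k : ℝ) ^ 2 / (2 * n - 1)) := by
      rw [hp]
      ring
    have h6 : 99 / 50 * L * ((k : ℝ) ^ 2 / (2 * n - 1)) ≤ 99 / 50 * L * (k * E) :=
      mul_le_mul_of_nonneg_left hquo (by positivity)
    have h7 : 99 / 50 * L * (k * E) ≤ 99 / 50 * L * (k * (1 / 200)) := by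
      refine mul_le_mul_of_nonneg_left ?_ (by positivity)
      exact mul_le_mul_of_nonneg_left h2 hk0
    have h9 : 0 ≤ L * k := by positivity
    rw [mul_add] at h4
    linarith
  have hw : (1 / Real.exp (3 / 20 * L)) ^ k = Real.exp (-(3 / 20 * L * k)) := by
    rw [one_div, ← Real.exp_neg, ← Real.exp_nat_mul]
    congr 1
    ring
  rw [hw, ← Real.exp_add, ← Real.exp_add, ← Real.exp_nat_mul (-(21 / 10 * L)) k]
  refine Real.exp_le_exp.mpr ?_
  have h9 : 0 ≤ L * k := by positivity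
  linarith

/-- the probability that the small set `S` is covered but not hit exactly once -/
theorem hit_small : ∀ᶠ n : ℕ in atTop, ∀ pp : ℝ, pm n ≤ pp → pp ≤ 1 →
    ∀ S : Finset (El n), S.Nonempty → S.card ^ 2 ≤ n →
      Pr (qq (pm n) pp) (fun s : J n → Fin 3 => (∀ a ∈ S, ∃ T ∈ sm s, T ∈ st n a) ∧
        ¬ ∃ T ∈ sm s, One S T) ≤ Real.exp (-(21 / 10 * Real.log n)) ^ S.card := by
  classical
  filter_upwards [HitSAux.ev] with n hn pp hp hp1 S _ hSn
  obtain ⟨hn1, hL, he1, he2⟩ := hn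
  have hn0 : (1 : ℝ) ≤ n := by exact_mod_cast hn1
  have h0 : 0 ≤ pm n := by
    unfold pm
    refine div_nonneg (by positivity) (by linarith)
  have hdis : Disjoint (univ.filter (fun T : J n => Two S T))
      (univ.filter (fun T : J n => One S T)) := by
    rw [disjoint_left]
    intro T h1 h2
    obtain ⟨a, ha, b, hb, hab, h3, h4⟩ := (mem_filter.mp h1).2
    have h5 := (mem_filter.mp h2).2
    exact hab (h5.unique ⟨ha, h3⟩ ⟨hb, h4⟩)
  have hw : 1 ≤ Real.exp (3 / 20 * Real.log n) := Real.one_le_exp (by positivity)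
  refine (Pr_mono (qq_nonneg h0 hp hp1) (B := fun s : J n → Fin 3 =>
    S.card ≤ 3 * ((univ.filter (fun T : J n => Two S T)).filter (fun i => s i = 2)).card ∧
      ∀ i ∈ univ.filter (fun T : J n => One S T), s i ≠ 2) ?_).trans
    ((cyl_many h0 hp hp1 _ _ hdis hw S.card).trans ?_)
  · rintro s ⟨h1, h2⟩
    constructor
    · have h3 := two_of_cover S (sm s) h1 (fun T hT hT1 => h2 ⟨T, hT, hT1⟩)
      rw [cnt_eq] at h3
      refine h3.trans (Nat.mul_le_mul_left 3 (card_le_card ?_))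
      intro T hT
      have h4 := (mem_filter.mp hT).2
      have h5 : s T = 2 := (mem_filter.mp h4.1).2
      exact mem_filter.mpr ⟨mem_filter.mpr ⟨mem_univ _, h4.2⟩, h5⟩
    · intro T hT h3
      exact h2 ⟨T, mem_filter.mpr ⟨mem_univ _, h3⟩, (mem_filter.mp hT).2⟩
  · have hX := count_two S
    have hY := count_one S
    rw [cnt_eq] at hX hY
    exact HitSAux.calc' hn1 hL he1 he2 hSn hX hY

end Pool.Agent.Lib.LT
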