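import Pool.Agent.Lib.MP_6d56f7_co_LT.Kern

/-!
# The lattice of a covering system
-/

set_option autoImplicit false

namespace Pool.Agent.Lib.LT

open Finset Pool.Agent.Lib.FR

variable {n : ℕ}

/-- the incidence vector is the sum of three unit vectors -/
private theorem inc_eq (u v : Fin (2 * n)) (c : Fin (2 * n - 1))
    (hd : ¬ (s(u, v) : Sym2 (Fin (2 * n))).IsDiag) :
    inc n ((c, ⟨s(u, v), hd⟩) : J n) =
      Pi.single (Sum.inl ⟨s(u, v), hd⟩) 1 + Pi.single (Sum.inr (u, c)) 1 +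
        Pi.single (Sum.inr (v, c)) 1 := by
  have huv : u ≠ v := by
    intro h
    exact hd (Sym2.mk_isDiag_iff.mpr h)
  funext a
  rcases a with e | ⟨w, c'⟩
  · have h1 : ((Pi.single (Sum.inr (u, c)) 1 : El n → ℤ)) (Sum.inl e) = 0 := by
      rw [Pi.single_apply]
      simp
    have h2 : ((Pi.single (Sum.inr (v, c)) 1 : El n → ℤ)) (Sum.inl e) = 0 := by
      rw [Pi.single_apply]
      simp
    rw [Pi.add_apply, Pi.add_apply, h1, h2, add_zero, add_zero, Pi.single_apply]
    unfold inc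
    by_cases h : (⟨s(u, v), hd⟩ : Edge (Fin (2 * n))) = e
    · rw [if_pos (mem_st_inl.mpr h), if_pos (by rw [h])]
    · rw [if_neg (fun h' => h (mem_st_inl.mp h')), if_neg]
      intro h'
      exact h (Sum.inl.inj h').symm
  · have h1 : ((Pi.single (Sum.inl ⟨s(u, v), hd⟩) 1 : El n → ℤ)) (Sum.inr (w, c')) = 0 := by
      rw [Pi.single_apply]
      simp
    rw [Pi.add_apply, Pi.add_apply, h1, zero_add, Pi.single_apply, Pi.single_apply]
    unfold inc
    by_cases hc : c' = c
    · subst hc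
      by_cases hu : w = u
      · subst hu
        have hm : ((c', ⟨s(w, v), hd⟩) : J n) ∈ st n (Sum.inr (w, c')) :=
          mem_st_inr.mpr ⟨rfl, Sym2.mem_mk_left _ _⟩
        rw [if_pos hm, if_pos rfl, if_neg]
        · simp
        · intro h'
          exact huv (congrArg Prod.fst (Sum.inr.inj h'))
      · by_cases hv : w = v
        · subst hv
          have hm : ((c', ⟨s(u, w), hd⟩) : J n) ∈ st n (Sum.inr (w, c')) :=
            mem_st_inr.mpr ⟨rfl, Sym2.mem_mk_right _ _⟩
          rw [if_pos hm, if_neg, if_pos rfl]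
          · simp
          · intro h'
            exact hu (congrArg Prod.fst (Sum.inr.inj h'))
        · rw [if_neg, if_neg, if_neg]
          · simp
          · intro h'
            exact hv (congrArg Prod.fst (Sum.inr.inj h'))
          · intro h'
            exact hu (congrArg Prod.fst (Sum.inr.inj h'))
          · intro h'
            rcases Sym2.mem_iff.mp (mem_st_inr.mp h').2 with h2 | h2
            · exact hu h2
            · exact hv h2
    · rw [if_neg, if_neg, if_neg]
      · simp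
      · intro h'
        exact hc (congrArg Prod.snd (Sum.inr.inj h'))
      · intro h'
        exact hc (congrArg Prod.snd (Sum.inr.inj h'))
      · intro h'
        exact hc (mem_st_inr.mp h').1.symm

/-- the edge part of the universal function -/
private noncomputable def yf (L : Finset (J n)) (u v : Fin (2 * n)) :
    (El n → ℤ) ⧸ Lat n L := by
  classical
  exact if hd : (s(u, v) : Sym2 (Fin (2 * n))).IsDiag then 0 else
    QuotientAddGroup.mk' (Lat n L) (Pi.single (Sum.inl ⟨s(u, v), hd⟩) 1)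

/-- the pair part of the universal function -/
private noncomputable def yg (L : Finset (J n)) (v : Fin (2 * n)) (c : Fin (2 * n - 1)) :
    (El n → ℤ) ⧸ Lat n L :=
  QuotientAddGroup.mk' (Lat n L) (Pi.single (Sum.inr (v, c)) 1)

private theorem yf_of (L : Finset (J n)) (u v : Fin (2 * n))
    (hd : ¬ (s(u, v) : Sym2 (Fin (2 * n))).IsDiag) :
    yf L u v = QuotientAddGroup.mk' (Lat n L) (Pi.single (Sum.inl ⟨s(u, v), hd⟩) 1) := by
  unfold yf
  rw [dif_neg hd]

private theorem yf_diag (L : Finset (J n)) (u v : Fin (2 * n))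
    (hd : (s(u, v) : Sym2 (Fin (2 * n))).IsDiag) : yf L u v = 0 := by
  unfold yf
  rw [dif_pos hd]

private theorem yf_symm (L : Finset (J n)) (u v : Fin (2 * n)) : yf L u v = yf L v u := by
  have hs : (s(u, v) : Sym2 (Fin (2 * n))) = s(v, u) := Sym2.eq_swap
  by_cases hd : (s(u, v) : Sym2 (Fin (2 * n))).IsDiag
  · rw [yf_diag L u v hd, yf_diag L v u (hs ▸ hd)]
  · rw [yf_of L u v hd, yf_of L v u (hs ▸ hd)]
    have h1 : (⟨s(u, v), hd⟩ : Edge (Fin (2 * n))) = ⟨s(v, u), hs ▸ hd⟩ := Subtype.ext hs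
    rw [h1]

private theorem y_sum (L : Finset (J n)) (u v : Fin (2 * n)) (c : Fin (2 * n - 1))
    (hd : ¬ (s(u, v) : Sym2 (Fin (2 * n))).IsDiag) :
    yf L u v + yg L u c + yg L v c =
      QuotientAddGroup.mk' (Lat n L) (inc n ((c, ⟨s(u, v), hd⟩) : J n)) := by
  rw [inc_eq, map_add, map_add, yf_of L u v hd]
  rfl

private theorem y_zero_iff (L : Finset (J n)) (u v : Fin (2 * n)) (c : Fin (2 * n - 1))
    (hd : ¬ (s(u, v) : Sym2 (Fin (2 * n))).IsDiag) :
    yf L u v + yg L u c + yg L v c = 0 ↔ inc n ((c, ⟨s(u, v), hd⟩) : J n) ∈ Lat n L := by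
  rw [y_sum L u v c hd]
  exact QuotientAddGroup.eq_zero_iff _

private theorem lat_mono {L₀ L : Finset (J n)} (h : L₀ ⊆ L) : Lat n L₀ ≤ Lat n L :=
  AddSubgroup.closure_mono (Set.image_mono (by exact_mod_cast h))

/-- every vector outside the lattice accounts for two ordered triples -/
private theorem bad_le (L : Finset (J n)) (j₀ : J n) :
    cnt (fun p : Fin (2 * n) × Fin (2 * n) × Fin (2 * n - 1) =>
      p.1 ≠ p.2.1 ∧ yf L p.1 p.2.1 + yg L p.1 p.2.2 + yg L p.2.1 p.2.2 ≠ 0) ≤
      2 * cnt (fun h : J n => inc n h ∉ Lat n L) := by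
  classical
  rw [cnt_eq, cnt_eq]
  set B := univ.filter (fun p : Fin (2 * n) × Fin (2 * n) × Fin (2 * n - 1) =>
      p.1 ≠ p.2.1 ∧ yf L p.1 p.2.1 + yg L p.1 p.2.2 + yg L p.2.1 p.2.2 ≠ 0) with hB
  let φ : Fin (2 * n) × Fin (2 * n) × Fin (2 * n - 1) → J n := fun p =>
    if hd : (s(p.1, p.2.1) : Sym2 (Fin (2 * n))).IsDiag then j₀ else
      (p.2.2, ⟨s(p.1, p.2.1), hd⟩)
  have hφ : ∀ p : Fin (2 * n) × Fin (2 * n) × Fin (2 * n - 1),
      ∀ hd : ¬ (s(p.1, p.2.1) : Sym2 (Fin (2 * n))).IsDiag,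
        φ p = (p.2.2, ⟨s(p.1, p.2.1), hd⟩) := by
    intro p hd
    exact dif_neg hd
  have hnd : ∀ p ∈ B, ¬ (s(p.1, p.2.1) : Sym2 (Fin (2 * n))).IsDiag := by
    intro p hp h
    rw [hB, mem_filter] at hp
    exact hp.2.1 (Sym2.mk_isDiag_iff.mp h)
  have h1 : B.card ≤ 2 * (B.image φ).card := by
    refine card_le_mul_card_image B 2 ?_
    rintro ⟨c, ⟨e, he⟩⟩ -
    induction e using Sym2.ind with
    | _ x y =>
      have hsub : (B.filter (fun p => φ p = ((c, ⟨s(x, y), he⟩) : J n))) ⊆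
          {(x, y, c), (y, x, c)} := by
        rintro ⟨u, v, c'⟩ hp
        rw [mem_filter] at hp
        have h2 := hp.2
        rw [hφ _ (hnd _ hp.1)] at h2
        have h3 : c' = c := congrArg Prod.fst h2
        have h4 : (s(u, v) : Sym2 (Fin (2 * n))) = s(x, y) :=
          congrArg (fun j : J n => j.2.1) h2
        rw [mem_insert, mem_singleton]
        rcases Sym2.eq_iff.mp h4 with ⟨h5, h6⟩ | ⟨h5, h6⟩
        · left
          rw [h3, h5, h6]
        · right
          rw [h3, h5, h6]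
      exact (card_le_card hsub).trans card_le_two
  refine h1.trans (Nat.mul_le_mul_left 2 (card_le_card ?_))
  intro j hj
  obtain ⟨p, hp, rfl⟩ := mem_image.mp hj
  have hd := hnd p hp
  rw [hφ p hd, mem_filter]
  refine ⟨mem_univ _, ?_⟩
  intro h
  rw [hB, mem_filter] at hp
  exact hp.2.2 ((y_zero_iff L p.1 p.2.1 p.2.2 hd).mpr h)

/-- a covering system which contains a good system generates all incidence vectors -/
theorem lat_full (hn : 10 ^ 6 ≤ n) {L₀ L : Finset (J n)} (hg : Good n L₀) (hsub : L₀ ⊆ L)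
    (hcov : ∀ a : El n, ∃ T ∈ L, T ∈ st n a) (h : J n) : inc n h ∈ Lat n L := by
  classical
  have hcount : 5000000 * cnt (fun p : Fin (2 * n) × Fin (2 * n) × Fin (2 * n - 1) =>
      p.1 ≠ p.2.1 ∧ yf L p.1 p.2.1 + yg L p.1 p.2.2 + yg L p.2.1 p.2.2 ≠ 0) ≤
        (2 * n - 1) ^ 3 := by
    have h1 := bad_le L h
    have h2 : cnt (fun j : J n => inc n j ∉ Lat n L) ≤
        cnt (fun j : J n => inc n j ∉ Lat n L₀) := by
      rw [cnt_eq, cnt_eq]
      refine card_le_card ?_
      intro j hj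
      rw [mem_filter] at hj ⊢
      exact ⟨hj.1, fun h' => hj.2 (lat_mono hsub h')⟩
    have h3 := hg.far
    unfold Far at h3
    rw [J_card] at h3
    have h4 : (2 * n - 1) * (n * (2 * n - 1)) ≤ (2 * n - 1) ^ 3 := by
      have h5 : n ≤ 2 * n - 1 := by omega
      calc (2 * n - 1) * (n * (2 * n - 1)) ≤ (2 * n - 1) * ((2 * n - 1) * (2 * n - 1)) :=
            Nat.mul_le_mul_left _ (Nat.mul_le_mul_right _ h5)
        _ = (2 * n - 1) ^ 3 := by ring
    omega
  have hz : Van L (yf L) (yg L) := by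
    rintro u v c ⟨hd, hm⟩
    rw [y_zero_iff L u v c hd]
    exact AddSubgroup.subset_closure ⟨_, by exact_mod_cast hm, rfl⟩
  obtain ⟨c, ⟨e, he⟩⟩ := h
  induction e using Sym2.ind with
  | _ u v =>
    have huv : u ≠ v := fun h' => he (Sym2.mk_isDiag_iff.mpr h')
    exact (y_zero_iff L u v c he).mp
      (kern hn hg hsub hcov (yf L) (yg L) (yf_symm L) hz hcount u v c huv)

end Pool.Agent.Lib.LT
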