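import Pool.Agent.Lib.MP_6d56f7_co_FR.Cov
import Pool.Agent.Lib.MP_6d56f7_co_FR.Asy
import Pool.Agent.Lib.MP_6d56f7_co_LT.Quot
import Pool.Agent.Lib.MP_6d56f7_co_LT.Wts
import Pool.Agent.Lib.MP_6d56f7_co_LT.All

/-!
# Integer weights at the hitting time
-/

set_option autoImplicit false

namespace Pool.Agent.Lib.LT

open Finset Filter Topology Pool.Agent.Lib.FR

/-- the small system is not covering -/
theorem whp_notcov : Whp (fun n L => ¬ ∀ e : Edge (Fin (2 * n)), ∃ c : Fin (2 * n - 1),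
    (c, e) ∈ L) := by
  intro δ hδ
  have h1 := Asy.t8 (γ := 1 / 100) (by norm_num) (by norm_num) (p := pm)
    (Eventually.of_forall fun n => by unfold pm; ring)
  filter_upwards [h1.eventually (ge_mem_nhds hδ), pm_nonneg] with n h2 h3 pp h4 h5
  refine le_trans ?_ ((cov_low (n := n) h3 h4 h5).trans h2)
  refine Pr_mono (qq_nonneg h3 h4 h5) fun s hs e => ?_
  obtain ⟨c, hc⟩ := not_not.mp hs e
  exact ⟨c, by simpa [sm] using hc⟩

/-- deterministic part -/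
theorem good_of {n : ℕ} (hn : 10 ^ 6 ≤ n) {m : ℕ} (σ : J n ≃ Fin m) (s : J n → Fin 3)
    (hc : Compat σ s) (hg : Good n (sm s))
    (hnc : ¬ ∀ e : Edge (Fin (2 * n)), ∃ c : Fin (2 * n - 1), (c, e) ∈ sm s) (t : ℕ)
    (h1 : ∀ e : Edge (Fin (2 * n)), ∃ c : Fin (2 * n - 1), (σ (c, e) : ℕ) < t)
    (h2 : ∀ v : Fin (2 * n), ∀ c : Fin (2 * n - 1),
      ∃ e : Edge (Fin (2 * n)), v ∈ e.1 ∧ (σ (c, e) : ℕ) < t) :
    IntW n (fun c e => (σ (c, e) : ℕ) < t) := by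
  classical
  let L : Finset (J n) := univ.filter (fun j => (σ j : ℕ) < t)
  have hcov : ∀ a : El n, ∃ j ∈ L, j ∈ st n a := by
    rintro (e | ⟨v, c⟩)
    · obtain ⟨c, hc⟩ := h1 e
      exact ⟨(c, e), mem_filter.mpr ⟨mem_univ _, hc⟩, mem_st_inl.mpr rfl⟩
    · obtain ⟨e, hv, he⟩ := h2 v c
      exact ⟨(c, e), mem_filter.mpr ⟨mem_univ _, he⟩, mem_st_inr.mpr ⟨rfl, hv⟩⟩
  have hsub : sm s ⊆ L := by
    intro j hj
    have hj2 : s j = 2 := by simpa [sm] using hj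
    push Not at hnc
    obtain ⟨e, he⟩ := hnc
    obtain ⟨c, hc'⟩ := h1 e
    have h4 : s (c, e) < s j := by
      have h5 : s (c, e) ≠ 2 := by
        have := he c
        simpa [sm] using this
      rw [hj2]
      revert h5
      generalize s (c, e) = a
      fin_cases a <;> simp
    have h5 : σ j < σ (c, e) := hc j (c, e) h4
    have h6 : (σ j : ℕ) < (σ (c, e) : ℕ) := h5
    exact mem_filter.mpr ⟨mem_univ _, by omega⟩
  have hw := intW_of_lat (by omega) (lat_full hn hg hsub hcov)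
  have he : (fun (c : Fin (2 * n - 1)) (e : Edge (Fin (2 * n))) => (c, e) ∈ L) =
      fun c e => (σ (c, e) : ℕ) < t := by
    funext c e
    exact propext ⟨fun h => (mem_filter.mp h).2, fun h => mem_filter.mpr ⟨mem_univ _, h⟩⟩
  rwa [he] at hw

/-- **the hitting time theorem** -/
theorem hitting : Tendsto (fun n : ℕ =>
    ((Set.ncard {σ : J n ≃ Fin (Nat.card (J n)) | ∀ t : ℕ,
      (∀ e : Edge (Fin (2 * n)), ∃ c : Fin (2 * n - 1), (σ (c, e) : ℕ) < t) →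
      (∀ v : Fin (2 * n), ∀ c : Fin (2 * n - 1),
        ∃ e : Edge (Fin (2 * n)), v ∈ e.1 ∧ (σ (c, e) : ℕ) < t) →
      IntW n (fun c e => (σ (c, e) : ℕ) < t)} : ℝ) /
      (Nat.card (J n ≃ Fin (Nat.card (J n))) : ℝ))) atTop (𝓝 1) := by
  let Good' : (n : ℕ) → (J n ≃ Fin (Nat.card (J n))) → Prop := fun n σ => ∀ t : ℕ,
      (∀ e : Edge (Fin (2 * n)), ∃ c : Fin (2 * n - 1), (σ (c, e) : ℕ) < t) →
      (∀ v : Fin (2 * n), ∀ c : Fin (2 * n - 1),
        ∃ e : Edge (Fin (2 * n)), v ∈ e.1 ∧ (σ (c, e) : ℕ) < t) →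
      IntW n (fun c e => (σ (c, e) : ℕ) < t)
  have hpm1 : ∀ᶠ n : ℕ in atTop, pm n ≤ 1 := by
    filter_upwards [Asy.ev_ratio (by norm_num : (0 : ℝ) < 1 / 2), Asy.ev_nat 1] with n h1 h2
    have h3 : (0 : ℝ) < 2 * n - 1 := by linarith
    unfold pm
    rw [div_le_one h3]
    linarith
  have hbad : ∀ δ : ℝ, 0 < δ → ∀ᶠ n : ℕ in atTop,
      (Set.ncard {σ : J n ≃ Fin (Nat.card (J n)) | ¬ Good' n σ} : ℝ) /
        (Nat.card (J n ≃ Fin (Nat.card (J n))) : ℝ) ≤ δ := by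
    intro δ hδ
    filter_upwards [(whp_good.and whp_notcov) δ hδ, pm_nonneg, hpm1, eventually_ge_atTop (10 ^ 6)]
      with n h1 h2 h3 hn
    have hq := qq_nonneg h2 le_rfl h3
    refine (mix (J := J n) (m := Nat.card (J n)) Nat.card_eq_fintype_card.symm
      (qq (pm n) (pm n)) hq (qq_sum _ _) (fun σ => ¬ Good' n σ)
      (fun s => ¬ (Good n (sm s) ∧ ¬ ∀ e : Edge (Fin (2 * n)), ∃ c : Fin (2 * n - 1),
        (c, e) ∈ sm s)) ?_).trans (h1 (pm n) le_rfl h3)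
    intro σ s hc hb hg
    exact hb fun t e1 e2 => good_of hn σ s hc hg.1 hg.2 t e1 e2
  have hcompl : ∀ n : ℕ, (Set.ncard {σ : J n ≃ Fin (Nat.card (J n)) | Good' n σ} : ℝ) /
        (Nat.card (J n ≃ Fin (Nat.card (J n))) : ℝ) =
      1 - (Set.ncard {σ : J n ≃ Fin (Nat.card (J n)) | ¬ Good' n σ} : ℝ) /
        (Nat.card (J n ≃ Fin (Nat.card (J n))) : ℝ) := by
    intro n
    have h1 : {σ : J n ≃ Fin (Nat.card (J n)) | ¬ Good' n σ} =
        {σ : J n ≃ Fin (Nat.card (J n)) | Good' n σ}ᶜ := rfl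
    rw [h1]
    have h2 := Set.ncard_add_ncard_compl {σ : J n ≃ Fin (Nat.card (J n)) | Good' n σ}
      (Set.toFinite _) (Set.toFinite _)
    have h3 : (Nat.card (J n ≃ Fin (Nat.card (J n))) : ℝ) ≠ 0 := by
      have : Nonempty (J n ≃ Fin (Nat.card (J n))) := ⟨Finite.equivFin _⟩
      exact_mod_cast Nat.card_pos.ne'
    rw [eq_sub_iff_add_eq, ← add_div, div_eq_one_iff_eq h3]
    exact_mod_cast h2
  have hlim : Tendsto (fun n : ℕ =>
      (Set.ncard {σ : J n ≃ Fin (Nat.card (J n)) | ¬ Good' n σ} : ℝ) /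
        (Nat.card (J n ≃ Fin (Nat.card (J n))) : ℝ)) atTop (𝓝 0) := by
    rw [Metric.tendsto_nhds]
    intro κ hκ
    filter_upwards [hbad (κ / 2) (by positivity)] with n h1
    have h0 : (0 : ℝ) ≤ (Set.ncard {σ : J n ≃ Fin (Nat.card (J n)) | ¬ Good' n σ} : ℝ) /
        (Nat.card (J n ≃ Fin (Nat.card (J n))) : ℝ) := by positivity
    rw [Real.dist_eq, sub_zero, abs_of_nonneg h0]
    linarith
  have hfin := hlim.const_sub 1
  rw [sub_zero] at hfin
  exact hfin.congr fun n => (hcompl n).symm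

end Pool.Agent.Lib.LT
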