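import Mathlib

/-!
# The index of a full sublattice
-/

set_option autoImplicit false

namespace Pool.Agent.Lib.LT

open Finset

/-- the rows of a matrix of nonzero determinant generate a subgroup of index `|det|` -/
theorem index_rows {k : ℕ} (M : Matrix (Fin k) (Fin k) ℤ) (hM : M.det ≠ 0) :
    (AddSubgroup.closure (Set.range fun i => M i) : AddSubgroup (Fin k → ℤ)).index =
      M.det.natAbs := by
  have hli : LinearIndependent ℤ (fun i => M i) := Matrix.linearIndependent_rows_of_det_ne_zero hM
  have h := Submodule.natAbs_det_basis_change (Pi.basisFun ℤ (Fin k))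
    (Submodule.span ℤ (Set.range fun i => M i)) (Module.Basis.span hli)
  have e : ((↑) ∘ (Module.Basis.span hli) : Fin k → (Fin k → ℤ)) = fun i => M i := by
    funext i
    simp only [Function.comp_apply]
    exact congrArg _ (Module.Basis.span_apply hli i)
  rw [e, Pi.basisFun_det] at h
  rw [← Submodule.span_int_eq_addSubgroupClosure]
  exact h.symm

end Pool.Agent.Lib.LT
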