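import Pool.Agent.Lib.MP_6d56f7_co_LT.Defs

/-!
# Minimal representatives
-/

set_option autoImplicit false

namespace Pool.Agent.Lib.LT

open Finset Pool.Agent.Lib.FR

variable {n : ℕ} {A : Type} [AddCommGroup A]

private theorem cnt_congr {α : Type} [Fintype α] {P Q : α → Prop} (h : ∀ x, P x ↔ Q x) :
    cnt P = cnt Q := by
  have : P = Q := funext fun x => propext (h x)
  rw [this]

private theorem cnt_split {α : Type} [Fintype α] (P Q : α → Prop) :
    cnt P = cnt (fun x => Q x ∧ P x) + cnt (fun x => ¬ Q x ∧ P x) := by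
  classical
  rw [cnt_eq, cnt_eq, cnt_eq, ← Finset.card_filter_add_card_filter_not (s := univ.filter P) Q,
    Finset.filter_filter, Finset.filter_filter]
  congr 2
  · ext x
    simp only [mem_filter, mem_univ, true_and]
    exact and_comm
  · ext x
    simp only [mem_filter, mem_univ, true_and]
    exact and_comm

private theorem cnt_not {α : Type} [Fintype α] (P : α → Prop) :
    cnt P + cnt (fun x => ¬ P x) = Fintype.card α := by
  classical
  rw [cnt_eq, cnt_eq, Finset.card_filter_add_card_filter_not, Finset.card_univ]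

private theorem cnt_slice {α β : Type} [Fintype α] [Fintype β] (v : α) (P : α → β → Prop) :
    cnt (fun p : α × β => p.1 = v ∧ P p.1 p.2) = cnt (fun y => P v y) := by
  classical
  rw [cnt_eq, cnt_eq]
  refine Finset.card_bij (fun p _ => p.2) ?_ ?_ ?_
  · intro p hp
    simp only [mem_filter, mem_univ, true_and] at hp ⊢
    rw [← hp.1]
    exact hp.2
  · intro p hp q hq h
    simp only [mem_filter, mem_univ, true_and] at hp hq
    exact Prod.ext (hp.1.trans hq.1.symm) h
  · intro y hy
    simp only [mem_filter, mem_univ, true_and] at hy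
    exact ⟨(v, y), by simpa using hy, rfl⟩

private theorem cnt_slice' {α β : Type} [Fintype α] [Fintype β] (v : β) (P : α → β → Prop) :
    cnt (fun p : α × β => p.2 = v ∧ P p.1 p.2) = cnt (fun x => P x v) := by
  classical
  rw [cnt_eq, cnt_eq]
  refine Finset.card_bij (fun p _ => p.1) ?_ ?_ ?_
  · intro p hp
    simp only [mem_filter, mem_univ, true_and] at hp ⊢
    rw [← hp.1]
    exact hp.2
  · intro p hp q hq h
    simp only [mem_filter, mem_univ, true_and] at hp hq
    exact Prod.ext h (hp.1.trans hq.1.symm)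
  · intro y hy
    simp only [mem_filter, mem_univ, true_and] at hy
    exact ⟨(y, v), by simpa using hy, rfl⟩

private theorem cnt_fst {α β : Type} [Fintype α] [Fintype β] (v : α) (P : α → β → Prop) :
    cnt (fun p : α × β => P p.1 p.2) =
      cnt (fun y => P v y) + cnt (fun p : α × β => ¬ p.1 = v ∧ P p.1 p.2) := by
  rw [cnt_split _ (fun p : α × β => p.1 = v), cnt_slice v P]

private theorem cnt_snd {α β : Type} [Fintype α] [Fintype β] (v : β) (P : α → β → Prop) :
    cnt (fun p : α × β => P p.1 p.2) =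
      cnt (fun x => P x v) + cnt (fun p : α × β => ¬ p.2 = v ∧ P p.1 p.2) := by
  rw [cnt_split _ (fun p : α × β => p.2 = v), cnt_slice' v P]

/-- the support split at the vertex `v` -/
private theorem supp_vert (F : Fin (2 * n) → Fin (2 * n) → A)
    (G : Fin (2 * n) → Fin (2 * n - 1) → A) (hs : ∀ u w, F u w = F w u) (v : Fin (2 * n)) :
    supp F G = 2 * (cnt (fun c => ¬ G v c = 0) + cnt (fun u => u ≠ v ∧ ¬ F v u = 0)) +
      (2 * cnt (fun p : Fin (2 * n) × Fin (2 * n - 1) => ¬ p.1 = v ∧ G p.1 p.2 ≠ 0) +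
        cnt (fun p : Fin (2 * n) × Fin (2 * n) => ¬ p.2 = v ∧ ¬ p.1 = v ∧ p.1 ≠ p.2 ∧
          F p.1 p.2 ≠ 0)) := by
  have h1 := cnt_fst v (fun (u : Fin (2 * n)) (c : Fin (2 * n - 1)) => G u c ≠ 0)
  have h2 := cnt_fst v (fun (u w : Fin (2 * n)) => u ≠ w ∧ F u w ≠ 0)
  have h3 := cnt_snd v (fun (u w : Fin (2 * n)) => ¬ u = v ∧ u ≠ w ∧ F u w ≠ 0)
  have h4 : cnt (fun w : Fin (2 * n) => v ≠ w ∧ F v w ≠ 0) =
      cnt (fun u => u ≠ v ∧ ¬ F v u = 0) :=
    cnt_congr fun x => ⟨fun h => ⟨fun e => h.1 e.symm, h.2⟩, fun h => ⟨fun e => h.1 e.symm, h.2⟩⟩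
  have h5 : cnt (fun u : Fin (2 * n) => ¬ u = v ∧ u ≠ v ∧ F u v ≠ 0) =
      cnt (fun u => u ≠ v ∧ ¬ F v u = 0) :=
    cnt_congr fun x => ⟨fun h => ⟨h.1, by rw [hs]; exact h.2.2⟩,
      fun h => ⟨h.1, h.1, by rw [hs]; exact h.2⟩⟩
  unfold supp
  rw [h1, h2, h3, h4, h5]
  ring

/-- the support split at the colour `c` -/
private theorem supp_col (F : Fin (2 * n) → Fin (2 * n) → A)
    (G : Fin (2 * n) → Fin (2 * n - 1) → A) (c : Fin (2 * n - 1)) :
    supp F G = 2 * cnt (fun v => ¬ G v c = 0) +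
      (2 * cnt (fun p : Fin (2 * n) × Fin (2 * n - 1) => ¬ p.2 = c ∧ G p.1 p.2 ≠ 0) +
        cnt (fun p : Fin (2 * n) × Fin (2 * n) => p.1 ≠ p.2 ∧ F p.1 p.2 ≠ 0)) := by
  have h1 := cnt_snd c (fun (u : Fin (2 * n)) (c : Fin (2 * n - 1)) => G u c ≠ 0)
  unfold supp
  rw [h1]
  ring

/-- among the gauge transforms of `(f, g)` there is one which cannot be improved at one vertex or
at one colour -/
theorem min_rep (f : Fin (2 * n) → Fin (2 * n) → A) (g : Fin (2 * n) → Fin (2 * n - 1) → A)
    (hf : ∀ u v, f u v = f v u)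
    (h : ∃ (a : Fin (2 * n) → A) (t : Fin (2 * n - 1) → A), (∀ c, t c + t c = 0) ∧
      12500 * supp (gf f a) (gg g a t) ≤ (2 * n - 1) ^ 2) :
    ∃ (a : Fin (2 * n) → A) (t : Fin (2 * n - 1) → A), (∀ c, t c + t c = 0) ∧
      MinK n (gf f a) (gg g a t) := by
  classical
  obtain ⟨a₀, t₀, ht₀, h₀⟩ := h
  have hex : ∃ k : ℕ, ∃ (a : Fin (2 * n) → A) (t : Fin (2 * n - 1) → A),
      (∀ c, t c + t c = 0) ∧ supp (gf f a) (gg g a t) = k := ⟨_, a₀, t₀, ht₀, rfl⟩
  obtain ⟨a, t, ht, hk⟩ := Nat.find_spec hex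
  have hmin : ∀ (a' : Fin (2 * n) → A) (t' : Fin (2 * n - 1) → A), (∀ c, t' c + t' c = 0) →
      supp (gf f a) (gg g a t) ≤ supp (gf f a') (gg g a' t') := by
    intro a' t' ht'
    rw [hk]
    exact Nat.find_min' hex ⟨a', t', ht', rfl⟩
  have hsym : ∀ (b : Fin (2 * n) → A) u v, gf f b u v = gf f b v u := by
    intro b u v
    unfold gf
    rw [hf u v]
    abel
  refine ⟨a, t, ht, hsym a, ?_, ?_, ?_⟩
  · exact le_trans (Nat.mul_le_mul_left _ (hmin a₀ t₀ ht₀)) h₀
  · intro v α
    have hm := hmin (Function.update a v (a v + α)) t ht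
    rw [supp_vert _ _ (hsym a) v, supp_vert _ _ (hsym _) v] at hm
    have e1 : cnt (fun c => ¬ gg g (Function.update a v (a v + α)) t v c = 0) =
        cnt (fun c => ¬ gg g a t v c = α) := by
      refine cnt_congr fun c => not_congr ?_
      unfold gg
      rw [Function.update_self, ← sub_eq_zero (b := α)]
      have : g v c - (a v + α) - t c = g v c - a v - t c - α := by abel
      rw [this]
    have e2 : cnt (fun u => u ≠ v ∧ ¬ gf f (Function.update a v (a v + α)) v u = 0) =
        cnt (fun u => u ≠ v ∧ ¬ gf f a v u = -α) := by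
      refine cnt_congr fun u => and_congr_right fun hu => not_congr ?_
      unfold gf
      rw [Function.update_self, Function.update_of_ne hu, ← sub_eq_zero (b := -α)]
      have : f v u + (a v + α) + a u = f v u + a v + a u - -α := by abel
      rw [this]
    have e3 : cnt (fun p : Fin (2 * n) × Fin (2 * n - 1) =>
          ¬ p.1 = v ∧ gg g (Function.update a v (a v + α)) t p.1 p.2 ≠ 0) =
        cnt (fun p : Fin (2 * n) × Fin (2 * n - 1) => ¬ p.1 = v ∧ gg g a t p.1 p.2 ≠ 0) := by
      refine cnt_congr fun p => and_congr_right fun hp => not_congr ?_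
      unfold gg
      rw [Function.update_of_ne hp]
    have e4 : cnt (fun p : Fin (2 * n) × Fin (2 * n) => ¬ p.2 = v ∧ ¬ p.1 = v ∧ p.1 ≠ p.2 ∧
          gf f (Function.update a v (a v + α)) p.1 p.2 ≠ 0) =
        cnt (fun p : Fin (2 * n) × Fin (2 * n) => ¬ p.2 = v ∧ ¬ p.1 = v ∧ p.1 ≠ p.2 ∧
          gf f a p.1 p.2 ≠ 0) := by
      refine cnt_congr fun p => and_congr_right fun h2 => and_congr_right fun h1 =>
        and_congr_right fun _ => not_congr ?_
      unfold gf
      rw [Function.update_of_ne h1, Function.update_of_ne h2]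
    rw [e1, e2, e3, e4] at hm
    have c1 := cnt_not (fun c => gg g a t v c = 0)
    have c2 := cnt_not (fun c => gg g a t v c = α)
    have c3 := cnt_split (fun u : Fin (2 * n) => u ≠ v) (fun u => gf f a v u = 0)
    have c4 := cnt_split (fun u : Fin (2 * n) => u ≠ v) (fun u => gf f a v u = -α)
    have d1 : cnt (fun u : Fin (2 * n) => gf f a v u = 0 ∧ u ≠ v) =
        cnt (fun u => u ≠ v ∧ gf f a v u = 0) := cnt_congr fun _ => and_comm
    have d2 : cnt (fun u : Fin (2 * n) => ¬ gf f a v u = 0 ∧ u ≠ v) =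
        cnt (fun u => u ≠ v ∧ ¬ gf f a v u = 0) := cnt_congr fun _ => and_comm
    have d3 : cnt (fun u : Fin (2 * n) => gf f a v u = -α ∧ u ≠ v) =
        cnt (fun u => u ≠ v ∧ gf f a v u = -α) := cnt_congr fun _ => and_comm
    have d4 : cnt (fun u : Fin (2 * n) => ¬ gf f a v u = -α ∧ u ≠ v) =
        cnt (fun u => u ≠ v ∧ ¬ gf f a v u = -α) := cnt_congr fun _ => and_comm
    rw [d1, d2] at c3
    rw [d3, d4] at c4
    omega
  · intro c τ hτ
    have hm := hmin a (Function.update t c (t c + τ)) (by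
      intro c'
      by_cases hc : c' = c
      · subst hc
        rw [Function.update_self]
        have : t c' + τ + (t c' + τ) = (t c' + t c') + (τ + τ) := by abel
        rw [this, ht c', hτ, add_zero]
      · rw [Function.update_of_ne hc]
        exact ht c')
    rw [supp_col _ _ c, supp_col _ (gg g a (Function.update t c (t c + τ))) c] at hm
    have e1 : cnt (fun v => ¬ gg g a (Function.update t c (t c + τ)) v c = 0) =
        cnt (fun v => ¬ gg g a t v c = τ) := by
      refine cnt_congr fun v => not_congr ?_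
      unfold gg
      rw [Function.update_self, ← sub_eq_zero (b := τ)]
      have : g v c - a v - (t c + τ) = g v c - a v - t c - τ := by abel
      rw [this]
    have e2 : cnt (fun p : Fin (2 * n) × Fin (2 * n - 1) =>
          ¬ p.2 = c ∧ gg g a (Function.update t c (t c + τ)) p.1 p.2 ≠ 0) =
        cnt (fun p : Fin (2 * n) × Fin (2 * n - 1) => ¬ p.2 = c ∧ gg g a t p.1 p.2 ≠ 0) := by
      refine cnt_congr fun p => and_congr_right fun hp => not_congr ?_
      unfold gg
      rw [Function.update_of_ne hp]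
    rw [e1, e2] at hm
    have c1 := cnt_not (fun v => gg g a t v c = 0)
    have c2 := cnt_not (fun v => gg g a t v c = τ)
    omega

end Pool.Agent.Lib.LT
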