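import Pool.Agent.Lib.MP_6d56f7_co_LT.Defs

/-!
# The nonzero elements off the heavy vertices and colours
-/

set_option autoImplicit false

namespace Pool.Agent.Lib.LT

open Finset Pool.Agent.Lib.FR

variable {n : ℕ} {A : Type} [AddCommGroup A]
  {F : Fin (2 * n) → Fin (2 * n) → A} {G : Fin (2 * n) → Fin (2 * n - 1) → A}

private theorem mem_NZ {H : Finset (Fin (2 * n))} {K : Finset (Fin (2 * n - 1))} {a : El n} :
    a ∈ NZ F G H K ↔ offE H K a ∧ nz F G a := by
  classical
  unfold NZ
  rw [mem_filter]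
  exact ⟨fun h => h.2, fun h => ⟨mem_univ _, h⟩⟩

private theorem nz_edge (hF : ∀ u v, F u v = F v u) {u v : Fin (2 * n)}
    (h : ¬ (s(u, v) : Sym2 (Fin (2 * n))).IsDiag) :
    nz F G (.inl ⟨s(u, v), h⟩ : El n) ↔ F u v ≠ 0 := by
  constructor
  · rintro ⟨u', v', h1, h2⟩
    simp only at h1
    rcases Sym2.eq_iff.mp h1 with ⟨e1, e2⟩ | ⟨e1, e2⟩
    · rw [e1, e2]
      exact h2
    · rw [e1, e2, hF]
      exact h2
  · intro h1
    exact ⟨u, v, rfl, h1⟩

/-- off the heavy vertices and colours the nonzero elements form a light set -/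
theorem nz_light (hF : ∀ u v, F u v = F v u) : LightS (NZ F G (HV F G) (HC G)) := by
  classical
  constructor
  · intro v
    by_cases hv : v ∈ HV F G
    · have h0 : cnt (fun a : El n => a ∈ NZ F G (HV F G) (HC G) ∧ hasV v a) = 0 := by
        rw [cnt_eq, card_eq_zero, filter_eq_empty_iff]
        rintro a - ⟨h1, h2⟩
        exact (mem_NZ.mp h1).1.1 v hv h2
      rw [h0]
      omega
    · have hv' : ¬ (2 * n - 1 ≤
          50 * (cnt (fun c => G v c ≠ 0) + cnt (fun u => u ≠ v ∧ F v u ≠ 0))) := by
        intro h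
        exact hv (mem_filter.mpr ⟨mem_univ _, h⟩)
      have hle : cnt (fun a : El n => a ∈ NZ F G (HV F G) (HC G) ∧ hasV v a) ≤
          cnt (fun c => G v c ≠ 0) + cnt (fun u => u ≠ v ∧ F v u ≠ 0) := by
        rw [cnt_eq, cnt_eq, cnt_eq]
        have hsub : (univ.filter (fun a : El n => a ∈ NZ F G (HV F G) (HC G) ∧ hasV v a)) ⊆
            ((univ.filter (fun c => G v c ≠ 0)).image (fun c => (.inr (v, c) : El n))) ∪
            ((univ.filter (fun u => u ≠ v ∧ F v u ≠ 0)).attach.image
              (fun w => (.inl ⟨s(v, w.1), by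
                rw [Sym2.mk_isDiag_iff]
                exact fun h => (mem_filter.mp w.2).2.1 h.symm⟩ : El n))) := by
          intro a ha
          obtain ⟨-, h1, h2⟩ := mem_filter.mp ha
          have h3 := (mem_NZ.mp h1).2
          rw [mem_union]
          rcases a with ⟨e, he⟩ | ⟨v', c⟩
          · right
            obtain ⟨w, hw⟩ : v ∈ e := h2
            subst hw
            have hne : w ≠ v := by
              rintro rfl
              exact he (Sym2.mk_isDiag_iff.mpr rfl)
            have h4 := (nz_edge hF he).mp h3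
            rw [mem_image]
            exact ⟨⟨w, mem_filter.mpr ⟨mem_univ _, hne, h4⟩⟩, mem_attach _ _, rfl⟩
          · left
            have h4 : v' = v := h2
            subst h4
            rw [mem_image]
            exact ⟨c, mem_filter.mpr ⟨mem_univ _, h3⟩, rfl⟩
        refine (card_le_card hsub).trans ((card_union_le _ _).trans ?_)
        exact Nat.add_le_add card_image_le (card_image_le.trans (card_attach).le)
      omega
  · intro c
    by_cases hc : c ∈ HC G
    · have h0 : cnt (fun a : El n => a ∈ NZ F G (HV F G) (HC G) ∧ hasC c a) = 0 := by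
        rw [cnt_eq, card_eq_zero, filter_eq_empty_iff]
        rintro a - ⟨h1, h2⟩
        exact (mem_NZ.mp h1).1.2 c hc h2
      rw [h0]
      omega
    · have hc' : ¬ (2 * n - 1 ≤ 50 * cnt (fun v => G v c ≠ 0)) := by
        intro h
        exact hc (mem_filter.mpr ⟨mem_univ _, h⟩)
      have hle : cnt (fun a : El n => a ∈ NZ F G (HV F G) (HC G) ∧ hasC c a) ≤
          cnt (fun v => G v c ≠ 0) := by
        rw [cnt_eq, cnt_eq]
        have hsub : (univ.filter (fun a : El n => a ∈ NZ F G (HV F G) (HC G) ∧ hasC c a)) ⊆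
            (univ.filter (fun v => G v c ≠ 0)).image (fun v => (.inr (v, c) : El n)) := by
          intro a ha
          obtain ⟨-, h1, h2⟩ := mem_filter.mp ha
          have h3 := (mem_NZ.mp h1).2
          rcases a with ⟨e, he⟩ | ⟨v', c'⟩
          · exact absurd h2 id
          · have h4 : c' = c := h2
            subst h4
            rw [mem_image]
            exact ⟨v', mem_filter.mpr ⟨mem_univ _, h3⟩, rfl⟩
        exact (card_le_card hsub).trans card_image_le
      omega

/-- if `(F, G)` sums to zero over a triple, then not exactly one of its elements is nonzero -/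
theorem nz_not_one {L : Finset (J n)} (hF : ∀ u v, F u v = F v u) (hz : Van L F G)
    (H : Finset (Fin (2 * n))) (K : Finset (Fin (2 * n - 1))) {T : J n} (hT : T ∈ L)
    (hoff : offT H K T) : ¬ One (NZ F G H K) T := by
  obtain ⟨c, ⟨e, he⟩⟩ := T
  induction e using Sym2.ind with
  | _ u w =>
    have hsum : F u w + G u c + G w c = 0 := hz u w c ⟨he, hT⟩
    have hK : c ∉ K := hoff.1
    have hu : u ∉ H := hoff.2 u (Sym2.mem_mk_left _ _)
    have hw : w ∉ H := hoff.2 w (Sym2.mem_mk_right _ _)
    have huw : u ≠ w := fun h => he (Sym2.mk_isDiag_iff.mpr h)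
    have oE : offE H K (.inl ⟨s(u, w), he⟩ : El n) := by
      refine ⟨fun v hv h => ?_, fun _ _ h => h⟩
      exact hoff.2 v h hv
    have oP : ∀ v : Fin (2 * n), v ∉ H → offE H K (.inr (v, c) : El n) := by
      intro v hv
      refine ⟨fun v' hv' h => ?_, fun c' hc' h => ?_⟩
      · have h' : v = v' := h
        exact hv (h' ▸ hv')
      · have h' : c = c' := h
        exact hK (h' ▸ hc')
    have sE : ((c, ⟨s(u, w), he⟩) : J n) ∈ st n (.inl ⟨s(u, w), he⟩ : El n) :=
      mem_st_inl.mpr rfl
    have sU : ((c, ⟨s(u, w), he⟩) : J n) ∈ st n (.inr (u, c) : El n) :=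
      mem_st_inr.mpr ⟨rfl, Sym2.mem_mk_left _ _⟩
    have sW : ((c, ⟨s(u, w), he⟩) : J n) ∈ st n (.inr (w, c) : El n) :=
      mem_st_inr.mpr ⟨rfl, Sym2.mem_mk_right _ _⟩
    have nU : G u c ≠ 0 → (.inr (u, c) : El n) ∈ NZ F G H K :=
      fun h => mem_NZ.mpr ⟨oP u hu, h⟩
    have nW : G w c ≠ 0 → (.inr (w, c) : El n) ∈ NZ F G H K :=
      fun h => mem_NZ.mpr ⟨oP w hw, h⟩
    have nE : F u w ≠ 0 → (.inl ⟨s(u, w), he⟩ : El n) ∈ NZ F G H K :=
      fun h => mem_NZ.mpr ⟨oE, (nz_edge hF he).mpr h⟩
    rintro ⟨a, ⟨h1, h2⟩, h3⟩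
    by_cases hf : F u w = 0
    · rw [hf, zero_add] at hsum
      have hgg : G u c ≠ 0 ∧ G w c ≠ 0 → False := by
        rintro ⟨g1, g2⟩
        have e1 := h3 _ ⟨nU g1, sU⟩
        have e2 := h3 _ ⟨nW g2, sW⟩
        have e3 := Sum.inr.inj (e1.trans e2.symm)
        exact huw (congrArg Prod.fst e3)
      rcases a with e' | ⟨v, c'⟩
      · have h4 := mem_st_inl.mp h2
        simp only at h4
        subst h4
        exact ((nz_edge hF he).mp (mem_NZ.mp h1).2) hf
      · have h4 := mem_st_inr.mp h2
        simp only at h4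
        obtain ⟨h5, h6⟩ := h4
        subst h5
        have h7 : G v c ≠ 0 := (mem_NZ.mp h1).2
        rcases Sym2.mem_iff.mp h6 with h8 | h8
        · subst h8
          refine hgg ⟨h7, fun h => h7 ?_⟩
          rw [h, add_zero] at hsum
          exact hsum
        · subst h8
          refine hgg ⟨fun h => h7 ?_, h7⟩
          rw [h, zero_add] at hsum
          exact hsum
    · have e0 := h3 _ ⟨nE hf, sE⟩
      by_cases hg : G u c = 0
      · have hg' : G w c ≠ 0 := by
          intro h
          rw [hg, h, add_zero, add_zero] at hsum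
          exact hf hsum
        have e1 := h3 _ ⟨nW hg', sW⟩
        exact Sum.inl_ne_inr (e0.trans e1.symm)
      · have e1 := h3 _ ⟨nU hg, sU⟩
        exact Sum.inl_ne_inr (e0.trans e1.symm)

end Pool.Agent.Lib.LT
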