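import Pool.Agent.Lib.MP_6d56f7_co_LT.Stab
import Pool.Agent.Lib.MP_6d56f7_co_LT.MinRep
import Pool.Agent.Lib.MP_6d56f7_co_LT.HeavyN
import Pool.Agent.Lib.MP_6d56f7_co_LT.NzL
import Pool.Agent.Lib.MP_6d56f7_co_LT.HeavyV
import Pool.Agent.Lib.MP_6d56f7_co_LT.HeavyC

/-!
# Functions vanishing on a covering system
-/

set_option autoImplicit false

namespace Pool.Agent.Lib.LT

open Finset Pool.Agent.Lib.FR

variable {n : ℕ} {A : Type} [AddCommGroup A]

private theorem kern_mem {F : Fin (2 * n) → Fin (2 * n) → A} {G : Fin (2 * n) → Fin (2 * n - 1) → A}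
    {H : Finset (Fin (2 * n))} {K : Finset (Fin (2 * n - 1))} {a : El n} :
    a ∈ NZ F G H K ↔ offE H K a ∧ nz F G a := by
  classical
  unfold NZ
  rw [mem_filter]
  exact ⟨fun h => h.2, fun h => ⟨mem_univ _, h⟩⟩

private theorem kern_inl {F : Fin (2 * n) → Fin (2 * n) → A}
    {G : Fin (2 * n) → Fin (2 * n - 1) → A} {K : Finset (Fin (2 * n - 1))} {u v : Fin (2 * n)}
    (huv : u ≠ v) (h : F u v ≠ 0) :
    (.inl ⟨s(u, v), fun e => huv (Sym2.mk_isDiag_iff.mp e)⟩ : El n) ∈ NZ F G ∅ K := by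
  rw [kern_mem]
  exact ⟨⟨fun w hw => absurd hw (notMem_empty w), fun _ _ h' => h'⟩, u, v, rfl, h⟩

private theorem kern_cntV {F : Fin (2 * n) → Fin (2 * n) → A}
    {G : Fin (2 * n) → Fin (2 * n - 1) → A} (H : Finset (Fin (2 * n)))
    (K : Finset (Fin (2 * n - 1))) :
    cnt (fun p : Fin (2 * n) × Fin (2 * n - 1) => p.1 ∉ H ∧ p.2 ∉ K ∧ G p.1 p.2 ≠ 0) ≤
      (NZ F G H K).card := by
  classical
  rw [cnt_eq]
  refine card_le_card_of_injOn (fun p => (.inr p : El n)) ?_ ?_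
  · intro p hp
    have h := (mem_filter.mp (mem_coe.mp hp)).2
    refine mem_coe.mpr (kern_mem.mpr ⟨⟨?_, ?_⟩, h.2.2⟩)
    · intro v hv e
      have e' : p.1 = v := e
      exact h.1 (e' ▸ hv)
    · intro c hc e
      have e' : p.2 = c := e
      exact h.2.1 (e' ▸ hc)
  · intro p _ q _ e
    exact Sum.inr.inj e

private theorem kern_cntE {F : Fin (2 * n) → Fin (2 * n) → A}
    {G : Fin (2 * n) → Fin (2 * n - 1) → A} (K : Finset (Fin (2 * n - 1))) :
    cnt (fun p : Fin (2 * n) × Fin (2 * n) => p.1 ≠ p.2 ∧ F p.1 p.2 ≠ 0) ≤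
      2 * (NZ F G ∅ K).card := by
  classical
  let φ : El n → Sym2 (Fin (2 * n)) := fun a => Sum.elim (fun e => e.1) (fun p => s(p.1, p.1)) a
  have h1 : ∀ b ∈ (NZ F G ∅ K).image φ,
      ((univ.filter (fun p : Fin (2 * n) × Fin (2 * n) => p.1 ≠ p.2 ∧ F p.1 p.2 ≠ 0)).filter
        (fun p => s(p.1, p.2) = b)).card ≤ 2 := by
    intro b _
    induction b using Sym2.ind with
    | _ u w =>
      refine (card_le_card (t := {(u, w), (w, u)}) ?_).trans card_le_two
      intro p hp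
      have h := (mem_filter.mp hp).2
      rcases Sym2.eq_iff.mp h with ⟨e1, e2⟩ | ⟨e1, e2⟩
      · exact mem_insert.mpr (Or.inl (Prod.ext e1 e2))
      · exact mem_insert.mpr (Or.inr (mem_singleton.mpr (Prod.ext e1 e2)))
  have h2 := card_le_mul_card_image_of_maps_to
    (s := univ.filter (fun p : Fin (2 * n) × Fin (2 * n) => p.1 ≠ p.2 ∧ F p.1 p.2 ≠ 0))
    (t := (NZ F G ∅ K).image φ) (f := fun p => s(p.1, p.2)) (by
      intro p hp
      have h := (mem_filter.mp hp).2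
      exact mem_image.mpr ⟨_, kern_inl h.1 h.2, rfl⟩) 2 h1
  rw [cnt_eq]
  exact h2.trans (Nat.mul_le_mul_left 2 card_image_le)

/-- a minimal function which sums to zero over all triples of a covering system vanishes -/
theorem kern_zero (hn : 10 ^ 6 ≤ n) {L₀ L : Finset (J n)} (hg : Good n L₀) (hsub : L₀ ⊆ L)
    (hcov : ∀ a : El n, ∃ T ∈ L, T ∈ st n a)
    {F : Fin (2 * n) → Fin (2 * n) → A} {G : Fin (2 * n) → Fin (2 * n - 1) → A}
    (hz : Van L F G) (hM : MinK n F G) : (∀ u v, u ≠ v → F u v = 0) ∧ ∀ v c, G v c = 0 := by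
  classical
  have hn1 : 1 ≤ n := le_trans (by norm_num) hn
  have hn2 : 1000 ≤ n := le_trans (by norm_num) hn
  have hF := hM.symm
  have hz0 : Van L₀ F G := by
    intro u v c h
    obtain ⟨h1, h2⟩ := h
    exact hz u v c ⟨h1, hsub h2⟩
  have hv := hv_card hn1 hM.small
  have hc := hc_card hn1 hM.small
  have hlight : LightS (NZ F G (HV F G) (HC G)) := nz_light hF
  have hsmall : 2 * (NZ F G (HV F G) (HC G)).card < 2 * n - 1 := by
    by_contra hcon
    push Not at hcon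
    obtain ⟨T, hT, hoff, hone⟩ := hg.lightH _ _ _ hv hc hlight
      (fun a ha => (kern_mem.mp ha).1) hcon
    exact nz_not_one hF hz _ _ (hsub hT) hoff hone
  have hV : HV F G = ∅ := no_heavyV hn2 hg.cutV hz0 hM hv hc
    ((kern_cntV (F := F) _ _).trans (by omega))
  rw [hV] at hlight hsmall
  have hC : HC G = ∅ := no_heavyC hn2 hg.cutC hg.inC hz0 hM
    ((kern_cntE (G := G) (HC G)).trans (by omega))
  rw [hC] at hlight hsmall
  have hoff : ∀ T : J n, offT ∅ ∅ T := fun T =>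
    ⟨notMem_empty _, fun _ _ => notMem_empty _⟩
  have hnot : ∀ T ∈ L, ¬ One (NZ F G ∅ ∅) T := fun T hT =>
    nz_not_one hF hz ∅ ∅ hT (hoff T)
  have hlt : (NZ F G ∅ ∅).card ^ 2 < n := by
    by_contra hcon
    push Not at hcon
    obtain ⟨T, hT, hone⟩ := hg.light0 _ hlight hcon
    exact hnot T (hsub hT) hone
  have hiso : ∀ a ∈ NZ F G ∅ ∅, ¬ ∃ T ∈ L₀, T ∈ st n a := by
    intro a ha hex
    have hcard : ((NZ F G ∅ ∅).filter (fun a => ∃ T ∈ L₀, T ∈ st n a)).card ^ 2 ≤ n :=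
      (Nat.pow_le_pow_left (card_le_card (filter_subset _ _)) 2).trans hlt.le
    obtain ⟨T, hT, b, ⟨hb1, hb2⟩, hb3⟩ := hg.small
      ((NZ F G ∅ ∅).filter (fun a => ∃ T ∈ L₀, T ∈ st n a)) ⟨a, mem_filter.mpr ⟨ha, hex⟩⟩ hcard
      (fun a ha => (mem_filter.mp ha).2)
    refine hnot T (hsub hT) ⟨b, ⟨(mem_filter.mp hb1).1, hb2⟩, ?_⟩
    rintro b' ⟨h1, h2⟩
    exact hb3 b' ⟨mem_filter.mpr ⟨h1, T, hT, h2⟩, h2⟩
  have hempty : ∀ a, a ∉ NZ F G ∅ ∅ := by
    intro a ha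
    obtain ⟨T, hT, hTa⟩ := hcov a
    refine hnot T hT ⟨a, ⟨ha, hTa⟩, ?_⟩
    rintro b ⟨hb, hTb⟩
    by_contra hne
    rcases hg.iso b a hne ⟨T, hTb, hTa⟩ with h | h
    · exact hiso b hb h
    · exact hiso a ha h
  refine ⟨fun u v huv => ?_, fun v c => ?_⟩
  · by_contra hcon
    exact hempty _ (kern_inl (K := ∅) huv hcon)
  · by_contra hcon
    refine hempty (.inr (v, c)) (kern_mem.mpr ⟨⟨?_, ?_⟩, hcon⟩)
    · exact fun w hw => absurd hw (notMem_empty w)
    · exact fun w hw => absurd hw (notMem_empty w)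

/-- a function which sums to zero over all triples of a covering system and over almost all
triples sums to zero over all triples -/
theorem kern (hn : 10 ^ 6 ≤ n) {L₀ L : Finset (J n)} (hg : Good n L₀) (hsub : L₀ ⊆ L)
    (hcov : ∀ a : El n, ∃ T ∈ L, T ∈ st n a)
    (f : Fin (2 * n) → Fin (2 * n) → A) (g : Fin (2 * n) → Fin (2 * n - 1) → A)
    (hf : ∀ u v, f u v = f v u) (hz : Van L f g)
    (h : 5000000 * cnt (fun p : Fin (2 * n) × Fin (2 * n) × Fin (2 * n - 1) =>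
      p.1 ≠ p.2.1 ∧ f p.1 p.2.1 + g p.1 p.2.2 + g p.2.1 p.2.2 ≠ 0) ≤ (2 * n - 1) ^ 3)
    (u v : Fin (2 * n)) (c : Fin (2 * n - 1)) (huv : u ≠ v) : f u v + g u c + g v c = 0 := by
  obtain ⟨a, t, ht, hM⟩ := min_rep f g hf (stab hn f g h)
  have hz' : Van L (gf f a) (gg g a t) := by
    intro u v c huvc
    have h1 := hz u v c huvc
    have h2 := ht c
    unfold gf gg
    have h3 : f u v + a u + a v + (g u c - a u - t c) + (g v c - a v - t c) =
        (f u v + g u c + g v c) - (t c + t c) := by abel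
    rw [h3, h1, h2, sub_zero]
  obtain ⟨hF, hG⟩ := kern_zero hn hg hsub hcov hz' hM
  have h1 := hF u v huv
  have h2 := hG u c
  have h3 := hG v c
  have h4 := ht c
  unfold gf at h1
  unfold gg at h2 h3
  have h5 : f u v + g u c + g v c =
      (f u v + a u + a v) + (g u c - a u - t c) + (g v c - a v - t c) + (t c + t c) := by abel
  rw [h5, h1, h2, h3, h4]
  simp

end Pool.Agent.Lib.LT
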