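import Pool.Agent.Lib.MP_6d56f7_co_LT.StabC

/-!
# Stability
-/

set_option autoImplicit false

namespace Pool.Agent.Lib.LT

open Finset Pool.Agent.Lib.FR

variable {n : ℕ} {A : Type} [AddCommGroup A]

private theorem stab_num (n N G z Z : ℕ) (hn : 10 ^ 6 ≤ n) (hN : N + 1 = 2 * n)
    (h1 : n * G ≤ 10 * Z + n * N) (h2 : N * z ≤ Z) (h3 : 5000000 * Z ≤ N ^ 3) :
    12500 * (2 * G + z) ≤ N ^ 2 := by
  have hN0 : 0 < N := by omega
  have hn0 : 0 < n := by omega
  have a1 : 5000000 * z ≤ N ^ 2 := by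
    have : N * (5000000 * z) ≤ N * N ^ 2 := by nlinarith
    exact Nat.le_of_mul_le_mul_left this hN0
  have a2 : 5000000 * G ≤ 20 * N ^ 2 + 5000000 * N := by
    have b1 : N ^ 3 ≤ 2 * n * N ^ 2 := by
      have : N * N ^ 2 ≤ 2 * n * N ^ 2 := Nat.mul_le_mul_right _ (by omega)
      nlinarith
    have : n * (5000000 * G) ≤ n * (20 * N ^ 2 + 5000000 * N) := by nlinarith
    exact Nat.le_of_mul_le_mul_left this hn0
  have a3 : 1999999 * N ≤ N ^ 2 := by
    rw [pow_two]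
    exact Nat.mul_le_mul_right _ (by omega)
  omega

/-- if `f u v + g u c + g v c = 0` for almost all triples, then some gauge transform of `(f, g)`
has small support -/
theorem stab (hn : 10 ^ 6 ≤ n) (f : Fin (2 * n) → Fin (2 * n) → A)
    (g : Fin (2 * n) → Fin (2 * n - 1) → A)
    (h : 5000000 * cnt (fun p : Fin (2 * n) × Fin (2 * n) × Fin (2 * n - 1) =>
      p.1 ≠ p.2.1 ∧ f p.1 p.2.1 + g p.1 p.2.2 + g p.2.1 p.2.2 ≠ 0) ≤ (2 * n - 1) ^ 3) :
    ∃ (a : Fin (2 * n) → A) (t : Fin (2 * n - 1) → A), (∀ c, t c + t c = 0) ∧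
      12500 * supp (gf f a) (gg g a t) ≤ (2 * n - 1) ^ 2 := by
  classical
  set z : Fin (2 * n - 1) → ℕ := fun c =>
    (univ.filter (fun p : Fin (2 * n) × Fin (2 * n) =>
      p.1 ≠ p.2 ∧ f p.1 p.2 + g p.1 c + g p.2 c ≠ 0)).card with hz
  have hZ : cnt (fun p : Fin (2 * n) × Fin (2 * n) × Fin (2 * n - 1) =>
      p.1 ≠ p.2.1 ∧ f p.1 p.2.1 + g p.1 p.2.2 + g p.2.1 p.2.2 ≠ 0) = ∑ c, z c := by
    rw [cnt_eq, card_filter, Fintype.sum_prod_type]
    simp only [Fintype.sum_prod_type, hz, card_filter]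
    rw [sum_comm (s := (univ : Finset (Fin (2 * n - 1))))]
    refine sum_congr rfl (fun u _ => ?_)
    rw [sum_comm]
  rw [hZ] at h
  have hne : (univ : Finset (Fin (2 * n - 1))).Nonempty := ⟨⟨0, by omega⟩, mem_univ _⟩
  obtain ⟨c₀, hc₀⟩ : ∃ c₀ : Fin (2 * n - 1), (2 * n - 1) * z c₀ ≤ ∑ c, z c := by
    by_contra hcon
    push Not at hcon
    have h1 := sum_lt_sum_of_nonempty hne (fun u (_ : u ∈ univ) => hcon u)
    rw [← mul_sum, sum_const, card_univ, Fintype.card_fin, smul_eq_mul] at h1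
    exact lt_irrefl _ h1
  have key : ∀ c : Fin (2 * n - 1), ∃ ζ : A, ζ + ζ = 0 ∧
      (n * (univ.filter (fun v => g v c - g v c₀ - ζ ≠ 0)).card ≤ 5 * (z c + z c₀) + n) := by
    intro c
    obtain ⟨ζ, h1, h2⟩ := stab_colour (by omega) (fun v => g v c - g v c₀)
    refine ⟨ζ, h1, ?_⟩
    rw [cnt_eq, cnt_eq] at h2
    have e1 : (univ.filter (fun v => g v c - g v c₀ - ζ ≠ 0)).card =
        (univ.filter (fun v => g v c - g v c₀ ≠ ζ)).card := by
      congr 1
      ext v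
      simp only [mem_filter, mem_univ, true_and, ne_eq, sub_eq_zero]
    rw [e1]
    have e2 : (univ.filter (fun p : Fin (2 * n) × Fin (2 * n) =>
        p.1 ≠ p.2 ∧ (g p.1 c - g p.1 c₀) + (g p.2 c - g p.2 c₀) ≠ 0)).card ≤ z c + z c₀ := by
      refine le_trans (card_le_card (t := univ.filter (fun p : Fin (2 * n) × Fin (2 * n) =>
        p.1 ≠ p.2 ∧ f p.1 p.2 + g p.1 c + g p.2 c ≠ 0) ∪
        univ.filter (fun p : Fin (2 * n) × Fin (2 * n) =>
        p.1 ≠ p.2 ∧ f p.1 p.2 + g p.1 c₀ + g p.2 c₀ ≠ 0)) ?_) (card_union_le _ _)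
      intro p hp
      rw [mem_filter] at hp
      rw [mem_union, mem_filter, mem_filter]
      by_contra hcon
      push Not at hcon
      have b1 := hcon.1 (mem_univ _) hp.2.1
      have b2 := hcon.2 (mem_univ _) hp.2.1
      apply hp.2.2
      have : (g p.1 c - g p.1 c₀) + (g p.2 c - g p.2 c₀) =
          (f p.1 p.2 + g p.1 c + g p.2 c) - (f p.1 p.2 + g p.1 c₀ + g p.2 c₀) := by abel
      rw [this, b1, b2, sub_zero]
    omega
  choose t ht1 ht2 using key
  refine ⟨fun v => g v c₀, t, ht1, ?_⟩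
  unfold supp
  rw [cnt_eq, cnt_eq]
  have hG : n * (univ.filter (fun p : Fin (2 * n) × Fin (2 * n - 1) =>
      gg g (fun v => g v c₀) t p.1 p.2 ≠ 0)).card ≤ 10 * ∑ c, z c + n * (2 * n - 1) := by
    have e1 : (univ.filter (fun p : Fin (2 * n) × Fin (2 * n - 1) =>
        gg g (fun v => g v c₀) t p.1 p.2 ≠ 0)).card =
        ∑ c, (univ.filter (fun v => g v c - g v c₀ - t c ≠ 0)).card := by
      rw [card_filter, Fintype.sum_prod_type_right]
      refine sum_congr rfl (fun c _ => ?_)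
      rw [card_filter]
      rfl
    rw [e1, mul_sum]
    refine le_trans (sum_le_sum (fun c _ => ht2 c)) ?_
    rw [sum_add_distrib, ← mul_sum, sum_add_distrib, sum_const, sum_const, card_univ,
      Fintype.card_fin, smul_eq_mul, smul_eq_mul]
    nlinarith
  have hF : (univ.filter (fun p : Fin (2 * n) × Fin (2 * n) =>
      p.1 ≠ p.2 ∧ gf f (fun v => g v c₀) p.1 p.2 ≠ 0)).card = z c₀ := rfl
  rw [hF]
  exact stab_num n (2 * n - 1) _ _ _ hn (by omega) hG hc₀ h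

end Pool.Agent.Lib.LT
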