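import Pool.Agent.Lib.MP_6d56f7_co_LT.KDefs
import Pool.Agent.Lib.MP_6d56f7_co_LT.Stab
import Pool.Agent.Lib.MP_6d56f7_co_LT.MinRep
import Pool.Agent.Lib.MP_6d56f7_co_LT.HeavyN
import Pool.Agent.Lib.MP_6d56f7_co_LT.NzL
import Pool.Agent.Lib.MP_6d56f7_co_LT.HeavyV
import Pool.Agent.Lib.MP_6d56f7_co_LT.HeavyC

/-!
# Functions vanishing on a system off a small set
-/

set_option autoImplicit false

namespace Pool.Agent.Lib.LT

open Finset Pool.Agent.Lib.FR

variable {n : ℕ} {A : Type} [AddCommGroup A]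

private theorem kr_mem_NZ {F : Fin (2 * n) → Fin (2 * n) → A}
    {G : Fin (2 * n) → Fin (2 * n - 1) → A} {H : Finset (Fin (2 * n))}
    {K : Finset (Fin (2 * n - 1))} {a : El n} : a ∈ NZ F G H K ↔ offE H K a ∧ nz F G a := by
  classical
  unfold NZ
  rw [mem_filter]
  exact ⟨fun h => h.2, fun h => ⟨mem_univ _, h⟩⟩

private theorem kr_cnt_mono {α : Type} [Fintype α] {P Q : α → Prop} (h : ∀ x, P x → Q x) :
    cnt P ≤ cnt Q := by
  classical
  rw [cnt_eq, cnt_eq]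
  exact card_le_card (monotone_filter_right _ (fun x _ => h x))

private theorem kr_light_mono {S S' : Finset (El n)} (h : S ⊆ S') (hS : LightS S') :
    LightS S := by
  refine ⟨fun v => ?_, fun c => ?_⟩
  · exact (Nat.mul_le_mul_left 50 (kr_cnt_mono fun a ha => ⟨h ha.1, ha.2⟩)).trans (hS.1 v)
  · exact (Nat.mul_le_mul_left 50 (kr_cnt_mono fun a ha => ⟨h ha.1, ha.2⟩)).trans (hS.2 c)

/-- a pair which avoids `R` and contains exactly one element of `S` minus `R` contains exactly one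
element of `S` -/
private theorem kr_one {S R : Finset (El n)} {T : J n} (hT : ∀ a ∈ R, T ∉ st n a)
    (h : One (S \ R) T) : One S T := by
  obtain ⟨a, ⟨h1, h2⟩, h3⟩ := h
  refine ⟨a, ⟨(mem_sdiff.mp h1).1, h2⟩, ?_⟩
  rintro b ⟨hb1, hb2⟩
  exact h3 b ⟨mem_sdiff.mpr ⟨hb1, fun hb => hT b hb hb2⟩, hb2⟩

private theorem kr_pairs {F : Fin (2 * n) → Fin (2 * n) → A}
    {G : Fin (2 * n) → Fin (2 * n - 1) → A} (H : Finset (Fin (2 * n)))
    (K : Finset (Fin (2 * n - 1))) :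
    cnt (fun p : Fin (2 * n) × Fin (2 * n - 1) => p.1 ∉ H ∧ p.2 ∉ K ∧ G p.1 p.2 ≠ 0) ≤
      (NZ F G H K).card := by
  classical
  rw [cnt_eq]
  refine card_le_card_of_injOn (fun p => (Sum.inr p : El n)) ?_ ?_
  · intro p hp
    obtain ⟨h1, h2, h3⟩ := (mem_filter.mp (mem_coe.mp hp)).2
    refine mem_coe.mpr (kr_mem_NZ.mpr ⟨⟨fun v hv h => ?_, fun c hc h => ?_⟩, h3⟩)
    · have h' : p.1 = v := h
      exact h1 (h' ▸ hv)
    · have h' : p.2 = c := h
      exact h2 (h' ▸ hc)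
  · intro p _ q _ h
    exact Sum.inr_injective h

private theorem kr_edges {F : Fin (2 * n) → Fin (2 * n) → A}
    {G : Fin (2 * n) → Fin (2 * n - 1) → A} (hF : ∀ u v, F u v = F v u)
    (K : Finset (Fin (2 * n - 1))) :
    cnt (fun p : Fin (2 * n) × Fin (2 * n) => p.1 ≠ p.2 ∧ F p.1 p.2 ≠ 0) ≤
      2 * (NZ F G ∅ K).card := by
  classical
  let f : Fin (2 * n) × Fin (2 * n) → El n := fun p =>
    if h : ¬ (s(p.1, p.2) : Sym2 (Fin (2 * n))).IsDiag then Sum.inl ⟨s(p.1, p.2), h⟩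
    else Sum.inr (p.1, ⟨0, by have := p.1.2; omega⟩)
  have hf : ∀ p : Fin (2 * n) × Fin (2 * n), p.1 ≠ p.2 →
      ∃ h : ¬ (s(p.1, p.2) : Sym2 (Fin (2 * n))).IsDiag, f p = Sum.inl ⟨s(p.1, p.2), h⟩ := by
    intro p hp
    have h : ¬ (s(p.1, p.2) : Sym2 (Fin (2 * n))).IsDiag :=
      fun h => hp (Sym2.mk_isDiag_iff.mp h)
    exact ⟨h, dif_pos h⟩
  have hmem : ∀ p : Fin (2 * n) × Fin (2 * n), p.1 ≠ p.2 → F p.1 p.2 ≠ 0 →
      f p ∈ NZ F G ∅ K := by
    intro p hp hFp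
    obtain ⟨h, hfp⟩ := hf p hp
    rw [hfp]
    refine kr_mem_NZ.mpr ⟨⟨fun v hv => absurd hv (notMem_empty v), fun c _ h => h⟩, ?_⟩
    exact ⟨p.1, p.2, rfl, hFp⟩
  have h1 : (univ.filter (fun p : Fin (2 * n) × Fin (2 * n) =>
      (p.1 ≠ p.2 ∧ F p.1 p.2 ≠ 0) ∧ p.1 < p.2)).card ≤ (NZ F G ∅ K).card := by
    refine card_le_card_of_injOn f ?_ ?_
    · intro p hp
      obtain ⟨⟨h1, h2⟩, h3⟩ := (mem_filter.mp (mem_coe.mp hp)).2
      exact mem_coe.mpr (hmem p h1 h2)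
    · intro p hp q hq hpq
      obtain ⟨⟨p1, p2⟩, p3⟩ := (mem_filter.mp (mem_coe.mp hp)).2
      obtain ⟨⟨q1, q2⟩, q3⟩ := (mem_filter.mp (mem_coe.mp hq)).2
      obtain ⟨e1, h1⟩ := hf p p1
      obtain ⟨e2, h2⟩ := hf q q1
      have h3 : f p = f q := hpq
      rw [h1, h2] at h3
      have h4 := congrArg Subtype.val (Sum.inl_injective h3)
      have h5 : (s(p.1, p.2) : Sym2 (Fin (2 * n))) = s(q.1, q.2) := h4
      rcases Sym2.eq_iff.mp h5 with ⟨a1, a2⟩ | ⟨a1, a2⟩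
      · exact Prod.ext a1 a2
      · rw [a1, a2] at p3
        exact absurd p3 (lt_asymm q3)
  have h2 : (univ.filter (fun p : Fin (2 * n) × Fin (2 * n) =>
      (p.1 ≠ p.2 ∧ F p.1 p.2 ≠ 0) ∧ ¬ p.1 < p.2)).card ≤ (NZ F G ∅ K).card := by
    refine card_le_card_of_injOn f ?_ ?_
    · intro p hp
      obtain ⟨⟨h1, h2⟩, h3⟩ := (mem_filter.mp (mem_coe.mp hp)).2
      exact mem_coe.mpr (hmem p h1 h2)
    · intro p hp q hq hpq
      obtain ⟨⟨p1, p2⟩, p3⟩ := (mem_filter.mp (mem_coe.mp hp)).2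
      obtain ⟨⟨q1, q2⟩, q3⟩ := (mem_filter.mp (mem_coe.mp hq)).2
      obtain ⟨e1, h1⟩ := hf p p1
      obtain ⟨e2, h2⟩ := hf q q1
      have h3 : f p = f q := hpq
      rw [h1, h2] at h3
      have h4 := congrArg Subtype.val (Sum.inl_injective h3)
      have h5 : (s(p.1, p.2) : Sym2 (Fin (2 * n))) = s(q.1, q.2) := h4
      rcases Sym2.eq_iff.mp h5 with ⟨a1, a2⟩ | ⟨a1, a2⟩
      · exact Prod.ext a1 a2
      · rw [a1, a2] at p3
        have h6 : q.1 ≤ q.2 := not_lt.mp p3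
        exact absurd (lt_of_le_of_ne h6 q1) q3
  have h3 := card_filter_add_card_filter_not
    (s := univ.filter (fun p : Fin (2 * n) × Fin (2 * n) => p.1 ≠ p.2 ∧ F p.1 p.2 ≠ 0))
    (fun p => p.1 < p.2)
  rw [filter_filter, filter_filter] at h3
  rw [cnt_eq, ← h3]
  omega

private theorem kr_small {r : ℕ} (hn : 10 ^ 6 ≤ n) (h : r ^ 8 ≤ n) : 1000 * r ≤ n := by
  by_contra hlt
  push Not at hlt
  have h1 : 1 ≤ r := by
    by_contra h0
    have : r = 0 := by omega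
    subst this
    omega
  have h2 : r ^ 2 ≤ r ^ 8 := Nat.pow_le_pow_right h1 (by norm_num)
  have h3 : r ^ 2 ≤ n := h2.trans h
  nlinarith

/-- a minimal function which sums to zero over all triples of a system off `R` vanishes off `R` -/
theorem kernR_zero (hn : 10 ^ 6 ≤ n) {L₀ L : Finset (J n)} (hg : GoodR n L₀)
    {R : Finset (El n)} (hR : SmR R) (hsub : res R L₀ ⊆ L)
    (hav : ∀ T ∈ L, ∀ a ∈ R, T ∉ st n a) (hone : HitOne R L)
    {F : Fin (2 * n) → Fin (2 * n) → A} {G : Fin (2 * n) → Fin (2 * n - 1) → A}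
    (hz : Van L F G) (hM : MinK n F G) (a : El n) (ha : a ∉ R) : ¬ nz F G a := by
  classical
  have hn1 : 1 ≤ n := le_trans (by norm_num) hn
  have hn3 : 1000 ≤ n := le_trans (by norm_num) hn
  have hz' : Van (res R L₀) F G := by
    rintro u v c ⟨h1, h2⟩
    exact hz u v c ⟨h1, hsub h2⟩
  have hres : ∀ T ∈ res R L₀, ∀ b ∈ R, T ∉ st n b := fun T hT => (mem_filter.mp hT).2
  have hHV := hv_card (F := F) (G := G) hn1 hM.small
  have hHC := hc_card (F := F) (G := G) hn1 hM.small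
  have hlight : LightS (NZ F G (HV F G) (HC G)) := nz_light hM.symm
  have hRs : 1000 * R.card ≤ n := kr_small hn hR
  have hS1 : 4 * (NZ F G (HV F G) (HC G) \ R).card < 2 * n - 1 := by
    by_contra hlt
    push Not at hlt
    obtain ⟨T, hT, hoff, hOne⟩ := hg.lightH R hR (HV F G) (HC G)
      (NZ F G (HV F G) (HC G) \ R) hHV hHC (kr_light_mono sdiff_subset hlight)
      (fun b hb => (kr_mem_NZ.mp (mem_sdiff.mp hb).1).1) (fun b hb => (mem_sdiff.mp hb).2) hlt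
    exact nz_not_one hM.symm hz' (HV F G) (HC G) hT hoff (kr_one (hres T hT) hOne)
  have hNZ : 2 * (NZ F G (HV F G) (HC G)).card ≤ 2 * n - 1 := by
    have h1 := card_sdiff_add_card (NZ F G (HV F G) (HC G)) R
    have h2 := card_le_card (subset_union_left (s₁ := NZ F G (HV F G) (HC G)) (s₂ := R))
    omega
  have hV : HV F G = ∅ := by
    refine no_heavyV hn3 (hg.cutV R hR) hz' hM hHV hHC ?_
    exact (kr_pairs (F := F) (G := G) (HV F G) (HC G)).trans (by omega)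
  have hC : HC G = ∅ := by
    refine no_heavyC hn3 (hg.cutC R hR) (hg.inC R hR) hz' hM ?_
    have h1 := kr_edges (F := F) (G := G) hM.symm (HC G)
    rw [hV] at hNZ
    exact h1.trans hNZ
  rw [hV, hC] at hlight
  have hoffT : ∀ T : J n, offT ∅ ∅ T :=
    fun T => ⟨notMem_empty _, fun v _ => notMem_empty v⟩
  have hsq : (NZ F G ∅ ∅ \ R).card ^ 2 < n := by
    by_contra hlt
    push Not at hlt
    obtain ⟨T, hT, hOne⟩ := hg.light0 R hR (NZ F G ∅ ∅ \ R) (kr_light_mono sdiff_subset hlight)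
      (fun b hb => (mem_sdiff.mp hb).2) hlt
    exact nz_not_one hM.symm hz' ∅ ∅ hT (hoffT T) (kr_one (hres T hT) hOne)
  intro hnz
  have hmem : a ∈ NZ F G ∅ ∅ \ R := by
    refine mem_sdiff.mpr ⟨kr_mem_NZ.mpr ⟨⟨fun v hv => absurd hv (notMem_empty v),
      fun c hc => absurd hc (notMem_empty c)⟩, hnz⟩, ha⟩
  obtain ⟨T, hT, hOne⟩ := hone (NZ F G ∅ ∅ \ R) ⟨a, hmem⟩ (fun b hb => (mem_sdiff.mp hb).2)
    hsq.le
  exact nz_not_one hM.symm hz ∅ ∅ hT (hoffT T) (kr_one (hav T hT) hOne)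

/-- a function which sums to zero over all triples of a system off `R` and over almost all
triples is a gauge function off `R` -/
theorem kernR (hn : 10 ^ 6 ≤ n) {L₀ L : Finset (J n)} (hg : GoodR n L₀)
    {R : Finset (El n)} (hR : SmR R) (hsub : res R L₀ ⊆ L)
    (hav : ∀ T ∈ L, ∀ a ∈ R, T ∉ st n a) (hone : HitOne R L)
    (f : Fin (2 * n) → Fin (2 * n) → A) (g : Fin (2 * n) → Fin (2 * n - 1) → A)
    (hf : ∀ u v, f u v = f v u) (hz : Van L f g)
    (h : 5000000 * cnt (fun p : Fin (2 * n) × Fin (2 * n) × Fin (2 * n - 1) =>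
      p.1 ≠ p.2.1 ∧ f p.1 p.2.1 + g p.1 p.2.2 + g p.2.1 p.2.2 ≠ 0) ≤ (2 * n - 1) ^ 3) :
    ∃ (a : Fin (2 * n) → A) (t : Fin (2 * n - 1) → A), (∀ c, t c + t c = 0) ∧
      (∀ (u v : Fin (2 * n)) (h : ¬ (s(u, v) : Sym2 (Fin (2 * n))).IsDiag),
        (Sum.inl ⟨s(u, v), h⟩ : El n) ∉ R → f u v = - a u - a v) ∧
      ∀ v c, (Sum.inr (v, c) : El n) ∉ R → g v c = a v + t c := by
  obtain ⟨a, t, ht, hM⟩ := min_rep f g hf (stab hn f g h)
  have hz' : Van L (gf f a) (gg g a t) := by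
    intro u v c huvc
    have h1 := hz u v c huvc
    have h2 := ht c
    unfold gf gg
    have h3 : f u v + a u + a v + (g u c - a u - t c) + (g v c - a v - t c) =
        (f u v + g u c + g v c) - (t c + t c) := by abel
    rw [h3, h1, h2, sub_zero]
  have hnz := kernR_zero hn hg hR hsub hav hone hz' hM
  refine ⟨a, t, ht, fun u v huv hR' => ?_, fun v c hR' => ?_⟩
  · have h1 := hnz _ hR'
    have h2 : gf f a u v = 0 := by
      by_contra hne
      exact h1 ⟨u, v, rfl, hne⟩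
    unfold gf at h2
    have h3 : f u v = (f u v + a u + a v) - a u - a v := by abel
    rw [h3, h2]
    abel
  · have h1 := hnz _ hR'
    have h2 : gg g a t v c = 0 := by
      by_contra hne
      exact h1 hne
    unfold gg at h2
    have h3 : g v c = (g v c - a v - t c) + a v + t c := by abel
    rw [h3, h2]
    abel

end Pool.Agent.Lib.LT
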