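import Mathlib

/-!
# A nonzero minor
-/

set_option autoImplicit false

namespace Pool.Agent.Lib.LT

open Finset

/-- independent integer vectors have a nonzero maximal minor -/
theorem exists_minor {k : ℕ} {E : Type} [Fintype E] [DecidableEq E] (v : Fin k → E → ℤ)
    (hv : LinearIndependent ℤ v) :
    ∃ r : Fin k → E, Function.Injective r ∧
      (Matrix.of fun i j => v i (r j) : Matrix (Fin k) (Fin k) ℤ).det ≠ 0 := by
  classical
  -- the vectors over the rationals
  let A : Matrix (Fin k) E ℚ := Matrix.of fun i e => (v i e : ℚ)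
  let c : (E → ℤ) →ₗ[ℤ] (E → ℚ) :=
    { toFun := fun f e => (f e : ℚ)
      map_add' := fun f g => by ext e; simp
      map_smul' := fun m f => by ext e; simp }
  have hc : LinearMap.ker c = ⊥ := by
    rw [LinearMap.ker_eq_bot]
    intro f g hfg
    ext e
    have h1 := congrFun hfg e
    exact Int.cast_injective (α := ℚ) h1
  have hA : LinearIndependent ℚ A.row := by
    have h1 : LinearIndependent ℤ (c ∘ v) := hv.map' c hc
    exact (LinearIndependent.iff_fractionRing ℤ ℚ).1 h1
  have hr : A.rank = k := by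
    rw [hA.rank_matrix, Fintype.card_fin]
  have htop : Submodule.span ℚ (Set.range A.col) = ⊤ := by
    apply Submodule.eq_top_of_finrank_eq
    rw [← Matrix.rank_eq_finrank_span_cols, hr]
    simp
  obtain ⟨κ, a, ha, hsp, hli⟩ := exists_linearIndependent' ℚ A.col
  rw [htop] at hsp
  let b : Module.Basis κ ℚ (Fin k → ℚ) := Module.Basis.mk hli (by rw [hsp])
  haveI : Finite κ := Finite.of_injective a ha
  haveI : Fintype κ := Fintype.ofFinite κ
  have hcard : Fintype.card κ = k := by
    have h1 := Module.finrank_eq_card_basis b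
    rw [Module.finrank_fin_fun] at h1
    exact h1.symm
  let e : Fin k ≃ κ := (Fintype.equivFinOfCardEq hcard).symm
  refine ⟨a ∘ e, ha.comp e.injective, ?_⟩
  intro h0
  have h1 : LinearIndependent ℚ
      (Matrix.of fun i j => (v i ((a ∘ e) j) : ℚ) : Matrix (Fin k) (Fin k) ℚ).col :=
    hli.comp e e.injective
  rw [Matrix.linearIndependent_cols_iff_isUnit, Matrix.isUnit_iff_isUnit_det] at h1
  apply h1.ne_zero
  have h2 := Int.cast_det (R := ℚ)
    (Matrix.of fun i j => v i ((a ∘ e) j) : Matrix (Fin k) (Fin k) ℤ)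
  rw [h0, Int.cast_zero] at h2
  rw [h2]
  rfl

end Pool.Agent.Lib.LT
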