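import Pool.Agent.Lib.MP_6d56f7_co_LT.QDefs

/-!
# Barriers of graphs without perfect matchings
-/

set_option autoImplicit false

namespace Pool.Agent.Lib.LT

open Finset Pool.Agent.Lib.FR

variable {V : Type} [Fintype V] [DecidableEq V]

private lemma ad_swap {E : Finset (Edge V)} {u v : V} (h : ad E u v) : ad E v u := by
  obtain ⟨h1, h2⟩ := h
  have e : s(u, v) = s(v, u) := Sym2.eq_swap
  have h3 : ¬ (s(v, u) : Sym2 V).IsDiag := by rwa [← e]
  refine ⟨h3, ?_⟩
  have h4 : (⟨s(v, u), h3⟩ : Edge V) = ⟨s(u, v), h1⟩ := Subtype.ext e.symm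
  rw [h4]; exact h2

private lemma ad_ne {E : Finset (Edge V)} {u v : V} (h : ad E u v) : u ≠ v := by
  obtain ⟨h1, -⟩ := h
  rintro rfl
  exact h1 (by simp)

/-- the graph of `E` on `U` -/
private def gr (E : Finset (Edge V)) (U : Finset V) : SimpleGraph {v // v ∈ U} :=
  SimpleGraph.fromRel (fun u v => ad E u.1 v.1)

private lemma gr_adj {E : Finset (Edge V)} {U : Finset V} {u v : {v // v ∈ U}} :
    (gr E U).Adj u v ↔ ad E u.1 v.1 := by
  unfold gr
  rw [SimpleGraph.fromRel_adj]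
  constructor
  · rintro ⟨-, h | h⟩
    · exact h
    · exact ad_swap h
  · intro h
    exact ⟨fun e => ad_ne h (congrArg Subtype.val e), Or.inl h⟩

private lemma pmon_of {E : Finset (Edge V)} {U : Finset V} {M : (gr E U).Subgraph}
    (hM : M.IsPerfectMatching) : ∃ N, PMon E U N := by
  classical
  have hM' := SimpleGraph.Subgraph.isPerfectMatching_iff.1 hM
  refine ⟨univ.filter (fun e : Edge V => ∃ u v : {v // v ∈ U}, M.Adj u v ∧
    e.1 = s(u.1, v.1)), ?_, ?_, ?_⟩
  · intro e he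
    obtain ⟨u, v, huv, e1⟩ := (mem_filter.1 he).2
    obtain ⟨h1, h2⟩ := gr_adj.1 (M.adj_sub huv)
    have : e = ⟨s(u.1, v.1), h1⟩ := Subtype.ext e1
    rw [this]; exact h2
  · intro v hv
    obtain ⟨w, hw, hu⟩ := hM' ⟨v, hv⟩
    obtain ⟨h1, h2⟩ := gr_adj.1 (M.adj_sub hw)
    refine ⟨⟨s(v, w.1), h1⟩, ⟨mem_filter.2 ⟨mem_univ _, ⟨v, hv⟩, w, hw, rfl⟩, by simp⟩, ?_⟩
    rintro e ⟨he, hve⟩
    obtain ⟨a, c, hac, e1⟩ := (mem_filter.1 he).2
    apply Subtype.ext
    rw [e1] at hve ⊢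
    rcases Sym2.mem_iff.1 hve with h | h
    · have h3 : a = ⟨v, hv⟩ := Subtype.ext h.symm
      subst h3
      have := hu c hac
      rw [this]
    · have h3 : c = ⟨v, hv⟩ := Subtype.ext h.symm
      subst h3
      have := hu a hac.symm
      rw [this]
      exact Sym2.eq_swap
  · intro e he v hv
    obtain ⟨a, c, hac, e1⟩ := (mem_filter.1 he).2
    rw [e1] at hv
    rcases Sym2.mem_iff.1 hv with h | h
    · rw [h]; exact a.2
    · rw [h]; exact c.2

/-- if an even set has no perfect matching then there is a set `T` whose deletion leaves at least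
`|T| + 2` odd components -/
theorem exists_barrier {E : Finset (Edge V)} {U : Finset V} (hU : Even U.card)
    (h : ¬ ∃ N, PMon E U N) :
    ∃ (T : Finset V) (F : Finset (Finset V)), T ⊆ U ∧ T.card + 2 ≤ F.card ∧
      (∀ C ∈ F, Odd C.card ∧ C ⊆ U \ T) ∧
      (∀ C ∈ F, ∀ x ∈ C, ∀ y ∈ U \ T, ad E x y → y ∈ C) ∧
      ∀ C ∈ F, ∀ C' ∈ F, C ≠ C' → Disjoint C C' := by
  classical
  have hT : ¬ ∀ u, ¬ (gr E U).IsTutteViolator u := by
    intro h1
    obtain ⟨M, hM⟩ := SimpleGraph.tutte.2 h1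
    exact h (pmon_of hM)
  push Not at hT
  obtain ⟨u, hu⟩ := hT
  unfold SimpleGraph.IsTutteViolator at hu
  set H := ((⊤ : (gr E U).Subgraph).deleteVerts u).coe with hH
  have hmem : ∀ x : {v // v ∈ U}, x ∈ ((⊤ : (gr E U).Subgraph).deleteVerts u).verts ↔ x ∉ u := by
    intro x; simp
  let T : Finset V := (univ.filter (fun x : {v // v ∈ U} => x ∈ u)).map
    ⟨Subtype.val, Subtype.val_injective⟩
  have hTcard : T.card = u.ncard := by
    rw [Finset.card_map, Set.ncard_eq_toFinset_card']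
    congr 1
    ext x; simp
  have hTU : T ⊆ U := by
    intro v hv
    obtain ⟨x, -, rfl⟩ := Finset.mem_map.1 hv
    exact x.2
  have hTm : ∀ v (hv : v ∈ U), v ∈ T ↔ (⟨v, hv⟩ : {v // v ∈ U}) ∈ u := by
    intro v hv
    constructor
    · intro h1
      obtain ⟨x, h2, h3⟩ := Finset.mem_map.1 h1
      have : x = ⟨v, hv⟩ := Subtype.ext h3
      rw [← this]; exact (mem_filter.1 h2).2
    · intro h1
      exact Finset.mem_map.2 ⟨⟨v, hv⟩, mem_filter.2 ⟨mem_univ _, h1⟩, rfl⟩
  -- vertices of a component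
  let vs : H.ConnectedComponent → Finset V := fun C =>
    (univ.filter (fun x : ((⊤ : (gr E U).Subgraph).deleteVerts u).verts =>
      H.connectedComponentMk x = C)).map
      ⟨fun x => x.1.1, fun x y hxy => Subtype.ext (Subtype.ext hxy)⟩
  have hvs : ∀ C v, v ∈ vs C ↔ ∃ x : ((⊤ : (gr E U).Subgraph).deleteVerts u).verts,
      H.connectedComponentMk x = C ∧ x.1.1 = v := by
    intro C v
    constructor
    · intro h1
      obtain ⟨x, h2, h3⟩ := Finset.mem_map.1 h1
      exact ⟨x, (mem_filter.1 h2).2, h3⟩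
    · rintro ⟨x, h2, h3⟩
      exact Finset.mem_map.2 ⟨x, mem_filter.2 ⟨mem_univ _, h2⟩, h3⟩
  have hvc : ∀ C, (vs C).card = C.supp.ncard := by
    intro C
    rw [Finset.card_map, Set.ncard_eq_toFinset_card']
    congr 1
    ext x; simp
  have hdis : ∀ C C', C ≠ C' → Disjoint (vs C) (vs C') := by
    intro C C' hne
    rw [Finset.disjoint_left]
    intro v h1 h2
    obtain ⟨x, e1, e2⟩ := (hvs C v).1 h1
    obtain ⟨y, f1, f2⟩ := (hvs C' v).1 h2
    have : x = y := Subtype.ext (Subtype.ext (e2.trans f2.symm))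
    subst this
    exact hne (e1.symm.trans f1)
  have hne : ∀ C : H.ConnectedComponent, (vs C).Nonempty := by
    intro C
    induction C using SimpleGraph.ConnectedComponent.ind with
    | _ x => exact ⟨x.1.1, (hvs _ _).2 ⟨x, rfl, rfl⟩⟩
  have hinj : Function.Injective vs := by
    intro C C' hCC
    by_contra hn
    have h1 := hdis C C' hn
    rw [← hCC] at h1
    obtain ⟨x, hx⟩ := hne C
    exact (Finset.disjoint_left.1 h1 hx) hx
  haveI : Finite H.ConnectedComponent := inferInstance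
  haveI : Fintype H.ConnectedComponent := Fintype.ofFinite _
  let F : Finset (Finset V) := (univ.filter (fun C : H.ConnectedComponent =>
    Odd C.supp.ncard)).map ⟨vs, hinj⟩
  have hF : F.card = H.oddComponents.ncard := by
    rw [Finset.card_map, Set.ncard_eq_toFinset_card']
    congr 1
    ext x; simp
  have hFm : ∀ C, C ∈ F ↔ ∃ K : H.ConnectedComponent, Odd K.supp.ncard ∧ vs K = C := by
    intro C
    constructor
    · intro h1
      obtain ⟨x, h2, h3⟩ := Finset.mem_map.1 h1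
      exact ⟨x, (mem_filter.1 h2).2, h3⟩
    · rintro ⟨x, h2, h3⟩
      exact Finset.mem_map.2 ⟨x, mem_filter.2 ⟨mem_univ _, h2⟩, h3⟩
  have hcardv : Nat.card ((⊤ : (gr E U).Subgraph).deleteVerts u).verts + T.card = U.card := by
    have h1 : Nat.card ((⊤ : (gr E U).Subgraph).deleteVerts u).verts =
        (((⊤ : (gr E U).Subgraph).deleteVerts u).verts).ncard := rfl
    have h2 : ((⊤ : (gr E U).Subgraph).deleteVerts u).verts = uᶜ := by
      ext x; simp
    rw [h1, h2, hTcard]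
    have h3 := Set.ncard_add_ncard_compl u
    rw [Nat.card_eq_fintype_card, Fintype.card_coe] at h3
    omega
  have hodd := SimpleGraph.odd_ncard_oddComponents H
  rw [← hF] at hodd hu
  refine ⟨T, F, hTU, ?_, ?_, ?_, ?_⟩
  · rw [← hTcard] at hu
    obtain ⟨a, ha⟩ := hU
    rcases Nat.even_or_odd' F.card with ⟨k, hk | hk⟩
    · rcases Nat.even_or_odd' T.card with ⟨l, hl | hl⟩
      · omega
      · exfalso
        have h1 : Odd (Nat.card ((⊤ : (gr E U).Subgraph).deleteVerts u).verts) := by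
          rw [Nat.odd_iff]; omega
        have h2 := hodd.2 h1
        rw [Nat.odd_iff] at h2
        omega
    · have h1 := hodd.1 (by rw [Nat.odd_iff]; omega)
      rw [Nat.odd_iff] at h1
      omega
  · intro C hC
    obtain ⟨K, hK, rfl⟩ := (hFm C).1 hC
    refine ⟨by rw [hvc]; exact hK, ?_⟩
    intro v hv
    obtain ⟨x, -, rfl⟩ := (hvs K v).1 hv
    rw [Finset.mem_sdiff]
    refine ⟨x.1.2, ?_⟩
    rw [hTm _ x.1.2]
    exact (hmem x.1).1 x.2
  · intro C hC x hx y hy hxy
    obtain ⟨K, hK, rfl⟩ := (hFm C).1 hC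
    obtain ⟨a, ha, rfl⟩ := (hvs K x).1 hx
    rw [Finset.mem_sdiff] at hy
    have hyu : (⟨y, hy.1⟩ : {v // v ∈ U}) ∉ u := by
      rw [← hTm _ hy.1]; exact hy.2
    let c : ((⊤ : (gr E U).Subgraph).deleteVerts u).verts := ⟨⟨y, hy.1⟩, (hmem _).2 hyu⟩
    refine (hvs K y).2 ⟨c, ?_, rfl⟩
    rw [← ha]
    apply SimpleGraph.ConnectedComponent.sound
    apply SimpleGraph.Adj.reachable
    have h1 : (gr E U).Adj a.1 c.1 := gr_adj.2 hxy
    have h2 : H.Adj a c := by
      rw [hH]
      simp only [SimpleGraph.Subgraph.coe_adj, SimpleGraph.Subgraph.deleteVerts_adj]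
      refine ⟨by simp, (hmem _).1 a.2, by simp, hyu, ?_⟩
      simpa using h1
    exact h2.symm
  · intro C hC C' hC' hne'
    obtain ⟨K, -, rfl⟩ := (hFm C).1 hC
    obtain ⟨K', -, rfl⟩ := (hFm C').1 hC'
    exact hdis K K' (fun e => hne' (by rw [e]))

end Pool.Agent.Lib.LT
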