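import Pool.Agent.Lib.MP_6d56f7_co_FR.Glue
import Pool.Agent.Lib.MP_6d56f7_co_LT.QDefs

/-!
# The colour classes off a matching
-/

set_option autoImplicit false

namespace Pool.Agent.Lib.LT

open Finset Pool.Agent.Lib.FR

variable {n : ℕ}

private theorem ad_EC {H : Finset (J n)} {c : Fin (2 * n - 1)} {u v : Fin (2 * n)} :
    ad (EC H c) u v ↔ c ∈ LK n H u v := by
  rw [mem_LK]
  unfold ad EC
  constructor
  · rintro ⟨h, h1⟩
    exact ⟨h, (mem_filter.mp h1).2⟩
  · rintro ⟨h, h1⟩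
    exact ⟨h, mem_filter.mpr ⟨mem_univ _, h1⟩⟩

private theorem eN_EC {H : Finset (J n)} {c : Fin (2 * n - 1)} (A Y : Finset (Fin (2 * n))) :
    eN (EC H c) A Y = ((A ×ˢ Y).filter (fun p => c ∈ LK n H p.1 p.2)).card := by
  classical
  unfold eN
  congr 1
  ext p
  simp only [mem_filter, ad_EC]

private theorem eN_single {H : Finset (J n)} {c : Fin (2 * n - 1)} (v : Fin (2 * n))
    (Y : Finset (Fin (2 * n))) :
    eN (EC H c) {v} Y = (Y.filter (fun u => c ∈ LK n H u v)).card := by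
  rw [eN_EC]
  have h : ({v} ×ˢ Y).filter (fun p => c ∈ LK n H p.1 p.2) =
      (Y.filter (fun u => c ∈ LK n H u v)).image (fun u => (v, u)) := by
    ext ⟨x, y⟩
    rw [mem_filter, mem_product, mem_singleton, mem_image]
    constructor
    · rintro ⟨⟨h1, h2⟩, h3⟩
      simp only at h1 h2 h3
      subst h1
      refine ⟨y, mem_filter.mpr ⟨h2, ?_⟩, rfl⟩
      rw [(ker_LK n H).symm y x]
      exact h3
    · rintro ⟨u, hu, h1⟩
      rw [mem_filter] at hu
      obtain ⟨rfl, rfl⟩ := Prod.mk.injEq _ _ _ _ ▸ h1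
      refine ⟨⟨rfl, hu.1⟩, ?_⟩
      simp only
      rw [(ker_LK n H).symm v u]
      exact hu.2
  rw [h, card_image_of_injective]
  intro u u' huu
  exact congrArg Prod.snd huu

open Classical in
private theorem hit_card {M : Finset (J n)} (hM : CFree M) (c : Fin (2 * n - 1)) :
    (univ.filter (fun v => RPm M v c)).card = 0 ∨ (univ.filter (fun v => RPm M v c)).card = 2 := by
  by_cases h : ∃ g ∈ M, g.1 = c
  · right
    obtain ⟨⟨c', ⟨e, he⟩⟩, hg, hc⟩ := h
    simp only at hc
    subst hc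
    induction e using Sym2.ind with
    | _ u w =>
      have huw : u ≠ w := by
        rintro rfl
        exact he (Sym2.mk_isDiag_iff.mpr rfl)
      have h1 : univ.filter (fun v => RPm M v c') = {u, w} := by
        ext v
        rw [mem_filter, mem_insert, mem_singleton]
        constructor
        · rintro ⟨-, g, hg', hc, hv⟩
          have h2 := hM g hg' _ hg (Or.inl hc)
          rw [h2] at hv
          exact Sym2.mem_iff.mp hv
        · intro h2
          exact ⟨mem_univ _, _, hg, rfl, Sym2.mem_iff.mpr h2⟩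
      rw [h1, card_pair huw]
  · left
    rw [card_eq_zero, filter_eq_empty_iff]
    rintro v - ⟨g, hg, hc, -⟩
    exact h ⟨g, hg, hc⟩

open Classical in
private theorem uc_add {M : Finset (J n)} (c : Fin (2 * n - 1)) :
    (UC M c).card + (univ.filter (fun v => RPm M v c)).card = 2 * n := by
  have h : UC M c = (univ.filter (fun v => RPm M v c))ᶜ := by
    ext v
    simp [UC]
  rw [h, card_compl_add_card, Fintype.card_fin]

private theorem mem_UC {M : Finset (J n)} {c : Fin (2 * n - 1)} {v : Fin (2 * n)} :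
    v ∈ UC M c ↔ ¬ RPm M v c := by
  simp [UC]

/-- the number of vertices which are not hit in the colour `c` is even -/
theorem uc_even {M : Finset (J n)} (hM : CFree M) (c : Fin (2 * n - 1)) :
    Even (UC M c).card := by
  classical
  have h1 := uc_add (M := M) c
  rcases hit_card hM c with h2 | h2
  · exact ⟨n, by omega⟩
  · exact ⟨n - 1, by omega⟩

/-- at most two vertices are hit in the colour `c` -/
theorem uc_card {M : Finset (J n)} (hM : CFree M) (c : Fin (2 * n - 1)) :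
    2 * n ≤ (UC M c).card + 2 := by
  classical
  have h1 := uc_add (M := M) c
  rcases hit_card hM c with h2 | h2 <;> omega

/-- the minimum degree of a colour class off the matching -/
theorem ec_min {c₁ d D : ℝ} (hD : c₁ * d + 3 ≤ D) {s : J n → Fin 3} {H M : Finset (J n)}
    {w : Fin (2 * n) → Fin (2 * n) → Fin (2 * n - 1) → ℝ} (hg : GD n c₁ d D s H M w)
    (c : Fin (2 * n - 1)) (v : Fin (2 * n)) (hv : v ∈ UC M c) :
    c₁ * d ≤ (eN (EC (HR H M) c) {v} (UC M c) : ℝ) := by
  classical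
  have hnh : ¬ Hit M (.inr (v, c)) := fun h => mem_UC.mp hv (hit_inr.mp h)
  have h1 := hg.low _ hnh
  have h2 := loss hg.frw.free H (.inr (v, c)) hnh
  have h3 : dg n s (.inr (v, c)) ≤ ((st n (.inr (v, c))).filter (fun j => j ∈ HR H M)).card +
      ((st n (.inr (v, c))).filter (fun j => j ∈ H \ HR H M)).card := by
    unfold dg
    refine le_trans (card_le_card ?_) (card_union_le _ _)
    intro j hj
    rw [mem_filter] at hj
    rw [mem_union, mem_filter, mem_filter, mem_sdiff]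
    by_cases h4 : j ∈ HR H M
    · exact Or.inl ⟨hj.1, h4⟩
    · exact Or.inr ⟨hj.1, hg.two j hj.2, h4⟩
  have h4 : eN (EC (HR H M) c) {v} (UC M c) =
      ((st n (.inr (v, c))).filter (fun j => j ∈ HR H M)).card := by
    rw [eN_single, ← dP_LK]
    unfold dP
    congr 1
    ext u
    rw [mem_filter, mem_filter]
    constructor
    · rintro ⟨-, h⟩
      exact ⟨mem_univ _, h⟩
    · rintro ⟨-, h⟩
      refine ⟨mem_UC.mpr fun hu => ?_, h⟩
      refine (red_HR hg.frw.free H).pair u c hu v ?_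
      rw [(ker_LK n _).symm v u]
      exact h
  rw [h4]
  have h5 : (dg n s (.inr (v, c)) : ℝ) ≤
      (((st n (.inr (v, c))).filter (fun j => j ∈ HR H M)).card : ℝ) + 3 := by
    exact_mod_cast h3.trans (Nat.add_le_add_left h2 _)
  linarith

private theorem LK_Lp {s : J n → Fin 3} {H M : Finset (J n)} (h0 : ∀ j ∈ H, s j ≠ 0)
    (u v : Fin (2 * n)) : LK n (HR H M) u v ⊆ Lp n s u v := by
  have h1 : LK n (HR H M) u v ⊆ LK n (univ.filter fun j => s j ≠ 0) u v :=
    LK_mono (fun j hj => mem_filter.mpr ⟨mem_univ _, h0 j (mem_HR.mp hj).1⟩) u v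
  rwa [LK_eq_LL n (fun a => a ≠ 0) s] at h1

/-- the maximum degree of a colour class off the matching -/
theorem ec_max {c₁ d D : ℝ} {s : J n → Fin 3} (hM : MaxDeg (4 * d) (Lp n s)) {H M : Finset (J n)}
    {w : Fin (2 * n) → Fin (2 * n) → Fin (2 * n - 1) → ℝ} (hg : GD n c₁ d D s H M w)
    (c : Fin (2 * n - 1)) (v : Fin (2 * n)) :
    (eN (EC (HR H M) c) {v} (UC M c) : ℝ) ≤ 4 * d := by
  classical
  refine le_trans ?_ (hM.pair v c)
  rw [eN_single]
  unfold dP
  have h : (UC M c).filter (fun u => c ∈ LK n (HR H M) u v) ⊆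
      univ.filter (fun u => c ∈ Lp n s u v) := by
    intro u hu
    rw [mem_filter] at hu
    exact mem_filter.mpr ⟨mem_univ _, LK_Lp hg.nez u v hu.2⟩
  exact_mod_cast card_le_card h

/-- the colour classes are sparse -/
theorem ec_sparse {c₁ d D ε₂ θ₂ : ℝ} {s : J n → Fin 3} (hS : Sparse ε₂ θ₂ d (Lp n s))
    {H M : Finset (J n)} {w : Fin (2 * n) → Fin (2 * n) → Fin (2 * n - 1) → ℝ}
    (hg : GD n c₁ d D s H M w) (c : Fin (2 * n - 1)) (A Y : Finset (Fin (2 * n)))
    (hA : (A.card : ℝ) ≤ θ₂ * ((2 * n - 1 : ℕ) : ℝ)) :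
    (eN (EC (HR H M) c) A Y : ℝ) ≤ ε₂ * d * (A.card + Y.card) := by
  classical
  refine le_trans ?_ (hS.col c A Y (by rwa [Fintype.card_fin]))
  rw [eN_EC]
  have h : (A ×ˢ Y).filter (fun p => c ∈ LK n (HR H M) p.1 p.2) ⊆
      (A ×ˢ Y).filter (fun p => c ∈ Lp n s p.1 p.2) := by
    intro p hp
    rw [mem_filter] at hp
    exact mem_filter.mpr ⟨hp.1, LK_Lp hg.nez p.1 p.2 hp.2⟩
  exact_mod_cast card_le_card h

/-- there are many edges between large disjoint sets -/
theorem ec_bip {c₁ d D κ : ℝ} {s : J n → Fin 3}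
    (hB : BipB (κ ^ 2 * d * n / 2) κ (Lm n s)) (h24 : 24 ≤ κ ^ 2 * d)
    {H M : Finset (J n)} {w : Fin (2 * n) → Fin (2 * n) → Fin (2 * n - 1) → ℝ}
    (hg : GD n c₁ d D s H M w) (c : Fin (2 * n - 1)) (A Y : Finset (Fin (2 * n)))
    (hAU : A ⊆ UC M c) (hAY : Disjoint A Y) (hA : κ * ((2 * n - 1 : ℕ) : ℝ) ≤ A.card)
    (hY : κ * ((2 * n - 1 : ℕ) : ℝ) ≤ Y.card) :
    κ ^ 2 * d * n / 4 ≤ (eN (EC (HR H M) c) A Y : ℝ) := by
  classical
  have h1 := hB c A Y hAY (by rwa [Fintype.card_fin]) (by rwa [Fintype.card_fin])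
  have hLm : ∀ u v, Lm n s u v ⊆ LK n H u v := by
    intro u v
    have h : LK n (univ.filter fun j => s j = 2) u v ⊆ LK n H u v :=
      LK_mono (fun j hj => hg.two j (mem_filter.mp hj).2) u v
    rwa [LK_eq_LL n (fun a => a = 2) s] at h
  have hP : ∀ v, ¬ RPm M v c →
      (univ.filter (fun u => c ∈ LK n H u v ∧ c ∉ LK n (HR H M) u v)).card ≤ 3 := by
    intro v hR
    have h3 : univ.filter (fun u => c ∈ LK n H u v ∧ c ∉ LK n (HR H M) u v) =
        univ.filter (fun u => c ∈ LK n (H \ HR H M) u v) := by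
      ext u
      rw [mem_filter, mem_filter, ← LK_sdiff, mem_sdiff]
    rw [h3]
    have h4 : (univ.filter (fun u => c ∈ LK n (H \ HR H M) u v)).card =
        dP (LK n (H \ HR H M)) v c := rfl
    rw [h4, dP_LK]
    exact loss hg.frw.free H (.inr (v, c)) (fun h6 => hR (hit_inr.mp h6))
  have h5 : ((A ×ˢ Y).filter (fun p => c ∈ Lm n s p.1 p.2)).card ≤
      ((A ×ˢ Y).filter (fun p => c ∈ LK n (HR H M) p.1 p.2)).card + A.card * 3 := by
    have h6 : ((A ×ˢ Y).filter (fun p => c ∈ Lm n s p.1 p.2)) ⊆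
        ((A ×ˢ Y).filter (fun p => c ∈ LK n (HR H M) p.1 p.2)) ∪
        A.biUnion (fun u => (univ.filter
          (fun v => c ∈ LK n H v u ∧ c ∉ LK n (HR H M) v u)).image (fun v => (u, v))) := by
      rintro ⟨u, v⟩ hp
      rw [mem_filter, mem_product] at hp
      rw [mem_union, mem_filter, mem_product]
      by_cases h7 : c ∈ LK n (HR H M) u v
      · exact Or.inl ⟨hp.1, h7⟩
      · right
        rw [mem_biUnion]
        refine ⟨u, hp.1.1, mem_image.mpr ⟨v, ?_, rfl⟩⟩
        rw [mem_filter]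
        refine ⟨mem_univ _, ?_, ?_⟩
        · rw [(ker_LK n H).symm v u]
          exact hLm u v hp.2
        · rw [(ker_LK n (HR H M)).symm v u]
          exact h7
    refine (card_le_card h6).trans ((card_union_le _ _).trans ?_)
    refine Nat.add_le_add_left (card_biUnion_le_card_mul _ _ 3 fun u hu => ?_) _
    exact card_image_le.trans (hP u (mem_UC.mp (hAU hu)))
  rw [eN_EC]
  have h6 : (((A ×ˢ Y).filter (fun p => c ∈ Lm n s p.1 p.2)).card : ℝ) ≤
      ((A ×ˢ Y).filter (fun p => c ∈ LK n (HR H M) p.1 p.2)).card + A.card * 3 := by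
    exact_mod_cast h5
  have h7 : (A.card : ℝ) ≤ 2 * n := by
    have h8 := card_le_univ A
    rw [Fintype.card_fin] at h8
    exact_mod_cast h8
  have h8 : (0 : ℝ) ≤ n := Nat.cast_nonneg n
  nlinarith [mul_le_mul_of_nonneg_right h24 h8]

end Pool.Agent.Lib.LT
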