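import Pool.Agent.Lib.MP_6d56f7_co_LT.GlueW
import Pool.Agent.Lib.MP_6d56f7_co_LT.QDefs

/-!
# The deterministic step with all the data
-/

set_option autoImplicit false

namespace Pool.Agent.Lib.LT

open Finset Pool.Agent.Lib.FR

variable {n : ℕ}

/-- the deterministic step of the fractional theorem, with all the data -/
theorem glue_gd (hn : 6 ≤ n) {c₁ θ η δ δ' d D : ℝ} (hc₁ : 0 < c₁) (hc₁' : c₁ ≤ 1) (hθ : 0 < θ)
    (hη0 : 0 ≤ η) (hη : η / θ + 6 / d ≤ 1 / 66) (hd : 0 < d) (hδ : 0 ≤ δ) (hδ' : 0 ≤ δ')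
    (hδδ' : δ + 3 / d + δ' / c₁ ≤ c₁ / (4 * 4 * (1 + 264 * 4))) (hD : c₁ * d + 3 ≤ D)
    (hcut : 8 * d + 3 * n ≤ θ * d * n / 8)
    (hθn : ∀ k : ℕ, k ^ 2 ≤ n → (k : ℝ) ≤ θ * ((2 * n - 1 : ℕ) : ℝ))
    (s : J n → Fin 3) (hB : Bulk η 0 d (Lm n s) (fun _ _ => True))
    (hS : Sparse (c₁ / (16 * (1 + 264 * 4))) θ d (Lp n s)) (hM : MaxDeg (4 * d) (Lp n s))
    (hF : FewBad δ δ' d n s) (hlow : LowOK D n s) (hC : CutB (θ * d * n / 8) θ (Lm n s))
    (hcnt : (3 * cnt (fun a : El n => (dg n s a : ℝ) < D)) ^ 8 ≤ n)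
    (H : Finset (J n)) (h2 : ∀ j, s j = 2 → j ∈ H) (h0 : ∀ j ∈ H, s j ≠ 0)
    (hcov : ∀ a : El n, ∃ j ∈ st n a, j ∈ H) :
    ∃ M w, GD n c₁ d D s H M w := by
  classical
  have hVC : Fintype.card (Fin (2 * n)) = Fintype.card (Fin (2 * n - 1)) + 1 := by
    rw [Fintype.card_fin, Fintype.card_fin]
    omega
  have hV12 : 12 ≤ Fintype.card (Fin (2 * n)) := by
    rw [Fintype.card_fin]
    omega
  -- the matching
  choose g hgst hgH using hcov
  let M : Finset (J n) := (univ.filter (fun a : El n => (dg n s a : ℝ) < D)).image g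
  have hMH : ∀ j ∈ M, j ∈ H := by
    intro j hj
    obtain ⟨a, -, rfl⟩ := mem_image.mp hj
    exact hgH a
  have hMc : CFree M := by
    intro j hj j' hj' hcf
    obtain ⟨a, ha, rfl⟩ := mem_image.mp hj
    obtain ⟨a', ha', rfl⟩ := mem_image.mp hj'
    rw [mem_filter] at ha ha'
    by_cases haa : a = a'
    · rw [haa]
    · exact absurd hcf (hlow a a' haa ha.2 ha'.2 _ (hgst a) _ (hgst a') (h0 _ (hgH a))
        (h0 _ (hgH a')))
  have hMlow : ∀ a : El n, ¬ Hit M a → D ≤ dg n s a := by
    intro a ha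
    by_contra hlt
    push Not at hlt
    exact ha ⟨g a, mem_image_of_mem _ (mem_filter.mpr ⟨mem_univ _, hlt⟩), hgst a⟩
  set H' := HR H M with hH'
  have hsubH : H' ⊆ H := fun j hj => (mem_HR.mp hj).1
  have hLm : ∀ u v, Lm n s u v ⊆ LK n H u v := by
    intro u v
    have : Lm n s = LK n (univ.filter fun j => s j = 2) := by
      rw [LK_eq_LL n (fun a => a = 2) s]
    rw [this]
    exact LK_mono (fun j hj => h2 j (mem_filter.mp hj).2) u v
  have hLp : ∀ u v, LK n H u v ⊆ Lp n s u v := by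
    intro u v
    have : Lp n s = LK n (univ.filter fun j => s j ≠ 0) := by
      rw [LK_eq_LL n (fun a => a ≠ 0) s]
    rw [this]
    exact LK_mono (fun j hj => mem_filter.mpr ⟨mem_univ _, h0 j hj⟩) u v
  have hsub : ∀ u v, LK n H' u v ⊆ LK n H u v := LK_mono hsubH
  have hsub' : ∀ u v, LK n H' u v ⊆ Lp n s u v := fun u v => (hsub u v).trans (hLp u v)
  -- losses
  have hE : ∀ u v, ¬ REm M u v → ((LK n H u v \ LK n H' u v).card : ℝ) ≤ 3 := by
    intro u v hR
    rw [LK_sdiff]
    by_cases hd : (s(u, v) : Sym2 (Fin (2 * n))).IsDiag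
    · have h3 : LK n (H \ H') u v = ∅ := by
        rw [eq_empty_iff_forall_notMem]
        intro c hc
        obtain ⟨h4, -⟩ := mem_LK.mp hc
        exact h4 hd
      rw [h3]
      simp
    · rw [LK_card _ hd]
      have h3 := loss hMc H (.inl ⟨s(u, v), hd⟩) (fun h4 => hR ((hit_inl hd).mp h4))
      exact_mod_cast h3
  have hP : ∀ v c, ¬ RPm M v c →
      ((univ.filter (fun u => c ∈ LK n H u v ∧ c ∉ LK n H' u v)).card : ℝ) ≤ 3 := by
    intro v c hR
    have h3 : univ.filter (fun u => c ∈ LK n H u v ∧ c ∉ LK n H' u v) =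
        univ.filter (fun u => c ∈ LK n (H \ H') u v) := by
      ext u
      rw [mem_filter, mem_filter, ← LK_sdiff, mem_sdiff]
    rw [h3]
    have h4 : (univ.filter (fun u => c ∈ LK n (H \ H') u v)).card = dP (LK n (H \ H')) v c := rfl
    rw [h4, dP_LK]
    have h5 := loss hMc H (.inr (v, c)) (fun h6 => hR (hit_inr.mp h6))
    exact_mod_cast h5
  have hdegE : ∀ u v, ¬ REm M u v →
      ((Lm n s u v).card : ℝ) ≤ ((LK n H' u v).card : ℝ) + 3 := by
    intro u v hR
    have h3 := hE u v hR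
    have h4 : (Lm n s u v).card ≤ (LK n H' u v).card + (LK n H u v \ LK n H' u v).card := by
      refine (card_le_card (hLm u v)).trans ?_
      have := card_le_card_sdiff_add_card (s := LK n H u v) (t := LK n H' u v)
      omega
    have h5 : ((Lm n s u v).card : ℝ) ≤
      (LK n H' u v).card + (LK n H u v \ LK n H' u v).card := by exact_mod_cast h4
    linarith
  have hdegP : ∀ v c, ¬ RPm M v c →
      (dP (Lm n s) v c : ℝ) ≤ (dP (LK n H') v c : ℝ) + 3 := by
    intro v c hR
    have h3 := hP v c hR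
    have h4 : dP (Lm n s) v c ≤ dP (LK n H') v c +
        (univ.filter (fun u => c ∈ LK n H u v ∧ c ∉ LK n H' u v)).card := by
      unfold dP
      refine le_trans (card_le_card ?_) (card_union_le _ _)
      intro u hu
      rw [mem_filter] at hu
      rw [mem_union, mem_filter, mem_filter]
      by_cases h5 : c ∈ LK n H' u v
      · exact Or.inl ⟨mem_univ _, h5⟩
      · exact Or.inr ⟨mem_univ _, hLm u v hu.2, h5⟩
    have h5 : (dP (Lm n s) v c : ℝ) ≤ dP (LK n H') v c +
        (univ.filter (fun u => c ∈ LK n H u v ∧ c ∉ LK n H' u v)).card := by exact_mod_cast h4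
    linarith
  have hminE : ∀ u v, u ≠ v → ¬ REm M u v → D ≤ ((Lm n s u v).card : ℝ) := by
    intro u v huv hR
    have hdg : ¬ (s(u, v) : Sym2 (Fin (2 * n))).IsDiag := by
      rw [Sym2.mk_isDiag_iff]
      exact huv
    have h3 := hMlow (.inl ⟨s(u, v), hdg⟩) (fun h4 => hR ((hit_inl hdg).mp h4))
    rwa [dg_inl] at h3
  have hminP : ∀ v c, ¬ RPm M v c → D ≤ (dP (Lm n s) v c : ℝ) := by
    intro v c hR
    have h3 := hMlow (.inr (v, c)) (fun h4 => hR (hit_inr.mp h4))
    rwa [dg_inr] at h3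
  have hcardE : ∀ u v, ((LK n H' u v).card : ℝ) ≤ ((Lp n s u v).card : ℝ) := by
    intro u v
    exact_mod_cast card_le_card (hsub' u v)
  have hcardP : ∀ v c, (dP (LK n H') v c : ℝ) ≤ (dP (Lp n s) v c : ℝ) := by
    intro v c
    exact_mod_cast dP_mono hsub' v c
  have hred := red_HR hMc H
  have hmin : MinDeg (c₁ * d) (LK n H') (RPm M) (REm M) := by
    constructor
    · intro u v huv hR
      have h3 := hdegE u v hR
      have h4 := hminE u v huv hR
      linarith
    · intro v c hR
      have h3 := hdegP v c hR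
      have h4 := hminP v c hR
      linarith
  have hd3 : (δ + 3 / d) * d = δ * d + 3 := by
    field_simp
  have hnear : Near (δ + 3 / d) δ' d (LK n H') (RPm M) (REm M) (BadP δ d n s)
      (BadE δ d n s) := by
    constructor
    · rintro u v ⟨h3, h4⟩
      refine ⟨h3.symm, ?_⟩
      have e1 : Lm n s v u = Lm n s u v := (ker_LL n (fun a => a = 2) s).symm v u
      have e2 : Lp n s v u = Lp n s u v := (ker_LL n (fun a => a ≠ 0) s).symm v u
      rw [e1, e2]
      exact h4
    · intro u v huv hR hb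
      have h3 : ¬ (((Lm n s u v).card : ℝ) < (1 - δ) * d ∨
          (1 + δ) * d < ((Lp n s u v).card : ℝ)) := fun h4 => hb ⟨huv, h4⟩
      push Not at h3
      have h4 := hdegE u v hR
      have h5 := hcardE u v
      rw [hd3, abs_le]
      constructor <;> nlinarith [h3.1, h3.2]
    · intro v c hR hb
      have h3 : ¬ ((dP (Lm n s) v c : ℝ) < (1 - δ) * d ∨
          (1 + δ) * d < (dP (Lp n s) v c : ℝ)) := fun h4 => hb h4
      push Not at h3
      have h4 := hdegP v c hR
      have h5 := hcardP v c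
      rw [hd3, abs_le]
      constructor <;> nlinarith [h3.1, h3.2]
    · intro u v
      refine le_trans ?_ (hF.fewE u v)
      have h3 : Nat.card {c : Fin (2 * n - 1) //
          c ∈ LK n H' u v ∧ (BadP δ d n s u c ∨ BadP δ d n s v c)} ≤
          Nat.card {c : Fin (2 * n - 1) //
          c ∈ Lp n s u v ∧ (BadP δ d n s u c ∨ BadP δ d n s v c)} :=
        Nat.card_mono (Set.toFinite _) (fun c hc => ⟨hsub' u v hc.1, hc.2⟩)
      exact_mod_cast h3
    · intro v c
      refine le_trans ?_ (hF.fewP v c)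
      have h3 : Nat.card {u : Fin (2 * n) //
          c ∈ LK n H' u v ∧ (BadE δ d n s u v ∨ BadP δ d n s u c)} ≤
          Nat.card {u : Fin (2 * n) //
          c ∈ Lp n s u v ∧ (BadE δ d n s u v ∨ BadP δ d n s u c)} :=
        Nat.card_mono (Set.toFinite _) (fun u hu => ⟨hsub' u v hu.1, hu.2⟩)
      exact_mod_cast h3
  have hbulk : Bulk η (2 * 3 / d) d (LK n H') (Zero (RPm M) (REm M)) :=
    bulk_red (Lm n s) (LK n H) (LK n H') (ker_LK n H) (ker_LK n H') hd (by norm_num) hLm hsub
      (RPm M) (REm M) hE hP hB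
  obtain ⟨w, hws, hw0, hwb, hwE, hwP⟩ := det hVC hV12 (LK n H') (ker_LK n H') hc₁ hc₁'
    (by norm_num : (1 : ℝ) ≤ 4) hθ hη0 (by positivity : (0 : ℝ) ≤ 2 * 3 / d)
    (by
      have h3 : (2 * 3 / d : ℝ) = 6 / d := by norm_num
      rw [h3]
      exact hη) hd (by positivity : (0 : ℝ) ≤ δ + 3 / d) hδ' hδδ' (RPm M) (REm M)
    (BadP δ d n s) (BadE δ d n s) hred hbulk (hS.mono hsub') (hM.mono hsub') hmin hnear
  have hwnn : ∀ u v c, 0 ≤ w u v c := by
    intro u v c
    by_cases hc : c ∈ LK n H' u v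
    · exact le_trans (by positivity) (hwb u v c hc).1
    · rw [hw0 u v c hc]
  have hwub : ∀ u v c, w u v c ≤ if c ∈ LK n H' u v then 3 / (2 * c₁ * d) else 0 := by
    intro u v c
    split_ifs with hc
    · exact (hwb u v c hc).2
    · rw [hw0 u v c hc]
  have hwlb : ∀ u v c, (if c ∈ LK n H' u v then 1 / (2 * 4 * d) else 0) ≤ w u v c := by
    intro u v c
    split_ifs with hc
    · exact (hwb u v c hc).1
    · rw [hw0 u v c hc]
  have hcV : (Fintype.card (Fin (2 * n - 1)) : ℝ) = 2 * n - 1 := by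
    rw [Fintype.card_fin, Nat.cast_sub (by omega)]
    push_cast
    ring
  -- the weights of one colour
  let R : Fin (2 * n - 1) → Finset (Fin (2 * n)) := fun c => univ.filter (fun v => RPm M v c)
  have hR : ∀ c v, v ∈ R c ↔ RPm M v c := fun c v => by simp [R]
  have hEdm : ∀ c, Edm (fun u v => w u v c + if u ∈ R c ∧ prt M c u = v then 1 else 0) := by
    intro c
    refine edm_glue ?_ (fun u v => w u v c) (R c) (prt M c) ?_ (fun u v => hwnn u v c)
      (fun u v => hws u v c) ?_ ?_ ?_ (θ * Fintype.card (Fin (2 * n - 1))) ?_ ?_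
    · rw [Fintype.card_fin]
      exact even_two_mul n
    · intro v hv
      rw [hR] at hv ⊢
      exact prt_prop hMc hv
    · intro v
      refine hw0 v v c ?_
      rw [(ker_LK n H').diag v]
      exact notMem_empty _
    · intro u hu v
      rw [hR] at hu
      refine hw0 u v c ?_
      rw [(ker_LK n H').symm u v]
      exact hred.pair u c hu v
    · intro u hu
      rw [hR] at hu
      rw [← hwP u c hu]
      exact sum_congr rfl fun v _ => hws u v c
    · intro W hW
      have h3 : ∑ u ∈ W, ∑ v ∈ W, w u v c ≤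
          (((W ×ˢ W).filter (fun p => c ∈ LK n H' p.1 p.2)).card : ℝ) * (3 / (2 * c₁ * d)) := by
        rw [← sum_product']
        calc ∑ p ∈ W ×ˢ W, w p.1 p.2 c
            ≤ ∑ p ∈ W ×ˢ W, if c ∈ LK n H' p.1 p.2 then 3 / (2 * c₁ * d) else 0 :=
              sum_le_sum fun p _ => hwub p.1 p.2 c
          _ = _ := by rw [← sum_filter, sum_const, nsmul_eq_mul]
      have h4 := (hS.mono hsub').col c W W hW
      have h5 : (((W ×ˢ W).filter (fun p => c ∈ LK n H' p.1 p.2)).card : ℝ) *
          (3 / (2 * c₁ * d)) ≤ (c₁ / (16 * (1 + 264 * 4)) * d * (W.card + W.card)) *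
          (3 / (2 * c₁ * d)) := mul_le_mul_of_nonneg_right h4 (by positivity)
      have h6 : (c₁ / (16 * (1 + 264 * 4)) * d * (W.card + W.card)) *
          (3 / (2 * c₁ * d)) = W.card * (3 / (16 * 1057)) := by
        field_simp
        ring
      rw [h6] at h5
      have h7 : (0 : ℝ) ≤ W.card := Nat.cast_nonneg _
      refine (h3.trans h5).trans ?_
      linarith
    · intro W hW1 hW2 hdis
      have h3 := hC c W hW1 hW2
      have h4 : (((W ×ˢ Wᶜ).filter (fun p => c ∈ LK n H' p.1 p.2)).card : ℝ) *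
          (1 / (2 * 4 * d)) ≤ ∑ u ∈ W, ∑ v ∈ Wᶜ, w u v c := by
        rw [← sum_product']
        calc (((W ×ˢ Wᶜ).filter (fun p => c ∈ LK n H' p.1 p.2)).card : ℝ) *
              (1 / (2 * 4 * d))
            = ∑ p ∈ W ×ˢ Wᶜ, if c ∈ LK n H' p.1 p.2 then 1 / (2 * 4 * d) else 0 := by
              rw [← sum_filter, sum_const, nsmul_eq_mul]
          _ ≤ ∑ p ∈ W ×ˢ Wᶜ, w p.1 p.2 c := sum_le_sum fun p _ => hwlb p.1 p.2 c
      have h5 : ((W ×ˢ Wᶜ).filter (fun p => c ∈ Lm n s p.1 p.2)).card ≤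
          ((W ×ˢ Wᶜ).filter (fun p => c ∈ LK n H' p.1 p.2)).card + W.card * 3 := by
        have h6 : ((W ×ˢ Wᶜ).filter (fun p => c ∈ Lm n s p.1 p.2)) ⊆
            ((W ×ˢ Wᶜ).filter (fun p => c ∈ LK n H' p.1 p.2)) ∪
            W.biUnion (fun u => (univ.filter
              (fun v => c ∈ LK n H v u ∧ c ∉ LK n H' v u)).image (fun v => (u, v))) := by
          rintro ⟨u, v⟩ hp
          rw [mem_filter, mem_product] at hp
          rw [mem_union, mem_filter, mem_product]
          by_cases h7 : c ∈ LK n H' u v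
          · exact Or.inl ⟨hp.1, h7⟩
          · right
            rw [mem_biUnion]
            refine ⟨u, hp.1.1, mem_image.mpr ⟨v, ?_, rfl⟩⟩
            rw [mem_filter]
            refine ⟨mem_univ _, ?_, ?_⟩
            · rw [(ker_LK n H).symm v u]
              exact hLm u v hp.2
            · rw [(ker_LK n H').symm v u]
              exact h7
        refine (card_le_card h6).trans ((card_union_le _ _).trans ?_)
        refine Nat.add_le_add_left (card_biUnion_le_card_mul _ _ 3 fun u hu => ?_) _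
        refine card_image_le.trans ?_
        have h8 : ¬ RPm M u c := by
          rw [← hR]
          exact fun h9 => (disjoint_left.mp hdis) hu h9
        exact_mod_cast hP u c h8
      have h6 : (((W ×ˢ Wᶜ).filter (fun p => c ∈ Lm n s p.1 p.2)).card : ℝ) ≤
          ((W ×ˢ Wᶜ).filter (fun p => c ∈ LK n H' p.1 p.2)).card + W.card * 3 := by
        exact_mod_cast h5
      have h7 : (W.card : ℝ) ≤ n := by
        rw [Fintype.card_fin] at hW2
        have : W.card ≤ n := by omega
        exact_mod_cast this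
      have h8 : 8 * d ≤ (((W ×ˢ Wᶜ).filter (fun p => c ∈ LK n H' p.1 p.2)).card : ℝ) := by
        linarith
      refine le_trans ?_ h4
      have h9 : 8 * d * (1 / (2 * 4 * d)) = 1 := by
        field_simp
        norm_num
      exact h9.symm.le.trans (mul_le_mul_of_nonneg_right h8 (by positivity))
  have hFRW : FRW n H M w := by
    constructor
    · exact hMH
    · exact hMc
    · refine le_trans (Nat.pow_le_pow_left (Nat.mul_le_mul_left 3 ?_) 8) hcnt
      rw [cnt_eq]
      exact card_image_le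
    · exact hws
    · exact hw0
    · intro u v c hc
      exact lt_of_lt_of_le (by positivity) (hwb u v c hc).1
    · exact hwE
    · exact hwP
    · intro S hne hnot hcard
      refine one_of_sparse hd ?_ H M hmin (hS.mono hsub') S hne ?_ (hθn _ hcard)
      · have h3 : 9 * (c₁ / (16 * (1 + 264 * 4))) = c₁ * (9 / 16912) := by ring
        rw [h3]
        nlinarith
      · intro a ha hh
        refine hnot a ha ?_
        unfold hitS
        rw [mem_filter]
        exact ⟨mem_univ _, hh⟩
  refine ⟨M, w, ?_⟩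
  constructor
  · exact hFRW
  · exact h2
  · exact h0
  · exact hMlow
  · intro u v c hc
    have h3 := (hwb u v c hc).1
    have h4 : (2 * 4 * d : ℝ) = 8 * d := by ring
    rwa [h4] at h3
  · intro u v c
    refine (hwub u v c).trans ?_
    split_ifs
    · exact le_refl _
    · positivity
  · intro c
    have h3 : wM M w c = fun u v => w u v c + if u ∈ R c ∧ prt M c u = v then 1 else 0 := by
      funext u v
      unfold wM
      congr 1
      refine if_congr ?_ rfl rfl
      rw [hR, prt_iff hMc]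
    rw [h3]
    exact hEdm c

end Pool.Agent.Lib.LT
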