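import Pool.Agent.Lib.MP_6d56f7_co_LT.QDefs

/-!
# Growing two disjoint trees
-/

set_option autoImplicit false

namespace Pool.Agent.Lib.LT

open Finset Pool.Agent.Lib.FR

variable {V : Type} [Fintype V] [DecidableEq V]

open Classical in
private theorem eN_sum (E : Finset (Edge V)) (A Y : Finset V) :
    eN E A Y = ∑ x ∈ A, (Y.filter (fun y => ad E x y)).card := by
  have h : eN E A Y = ((A ×ˢ Y).filter (fun p => ad E p.1 p.2)).card := rfl
  rw [h, Finset.card_filter, Finset.sum_product]
  exact Finset.sum_congr rfl fun x _ => (Finset.card_filter _ _).symm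

open Classical in
private theorem grow_step {E : Finset (Edge V)} {U : Finset V} {D s τ : ℝ} {m b : ℕ} (hm : 2 ≤ m)
    (hs0 : 0 < s) (hmin : ∀ v ∈ U, D ≤ (eN E {v} U : ℝ))
    (hsp : ∀ A Y : Finset V, A ⊆ U → Y ⊆ U → (A.card : ℝ) ≤ τ →
      (eN E A Y : ℝ) ≤ s * (A.card + Y.card))
    (hs : 8 * m * s ≤ D) (hb : 4 * (b : ℝ) ≤ D) (Y : Finset V) (hY : Y.card ≤ b)
    {X : Finset V} (hXU : X ⊆ U) {k : ℕ} (hX : X.card = m ^ k) (hXτ : (X.card : ℝ) ≤ τ)
    (F : Finset V) (hF : F.card ≤ 4 * m ^ k + m ^ (k + 1)) :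
    ∃ Z : Finset V, Z ⊆ U ∧ Z.card = m ^ (k + 1) ∧ Disjoint Z F ∧ Disjoint Z Y ∧
      ∀ y ∈ Z, ∃ x ∈ X, ad E x y := by
  set N : Finset V := (U \ Y).filter (fun y => ∃ x ∈ X, ad E x y) with hN
  have hNU : N ⊆ U := (filter_subset _ _).trans sdiff_subset
  have h1 : D * X.card ≤ (eN E X U : ℝ) := by
    rw [eN_sum, Nat.cast_sum]
    calc D * X.card = ∑ x ∈ X, D := by rw [sum_const, nsmul_eq_mul, mul_comm]
      _ ≤ _ := sum_le_sum fun x hx => by
        have h := hmin x (hXU hx)
        rw [eN_sum, sum_singleton] at h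
        exact h
  have h2 : eN E X U ≤ eN E X N + X.card * b := by
    rw [eN_sum, eN_sum, ← smul_eq_mul, ← sum_const, ← sum_add_distrib]
    refine sum_le_sum fun x hx => ?_
    calc (U.filter (fun y => ad E x y)).card ≤ ((N.filter (fun y => ad E x y)) ∪ Y).card := by
          refine card_le_card fun y hy => ?_
          rw [mem_filter] at hy
          rw [mem_union]
          by_cases hyY : y ∈ Y
          · exact Or.inr hyY
          · left
            rw [mem_filter, hN, mem_filter, mem_sdiff]
            exact ⟨⟨⟨hy.1, hyY⟩, x, hx, hy.2⟩, hy.2⟩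
      _ ≤ _ := (card_union_le _ _).trans (Nat.add_le_add_left hY _)
  have h3 := hsp X N hXU hNU hXτ
  have h5 : (eN E X U : ℝ) ≤ eN E X N + X.card * b := by exact_mod_cast h2
  have hX0 : (0 : ℝ) ≤ X.card := Nat.cast_nonneg _
  have h6 : s * ((6 * (m : ℝ) - 1) * X.card) ≤ s * N.card := by
    nlinarith [mul_le_mul_of_nonneg_right hs hX0, mul_le_mul_of_nonneg_right hb hX0]
  have h7 : (6 * (m : ℝ) - 1) * X.card ≤ N.card := le_of_mul_le_mul_left h6 hs0
  have h8 : 6 * (m * m ^ k) ≤ N.card + m ^ k := by
    have h9 : 6 * ((m : ℝ) * m ^ k) ≤ N.card + m ^ k := by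
      rw [hX] at h7
      push_cast at h7
      linarith
    exact_mod_cast h9
  have h10 : 2 * m ^ k ≤ m * m ^ k := Nat.mul_le_mul_right _ hm
  have h11 : N.card - F.card ≤ (N \ F).card := le_card_sdiff F N
  have h12 : m ^ (k + 1) = m * m ^ k := pow_succ' m k
  have h13 : m ^ (k + 1) ≤ (N \ F).card := by
    rw [h12] at hF ⊢
    omega
  obtain ⟨Z, hZ, hZc⟩ := exists_subset_card_eq h13
  refine ⟨Z, fun y hy => hNU (sdiff_subset (hZ hy)), hZc, ?_, ?_, ?_⟩
  · exact disjoint_of_subset_left hZ sdiff_disjoint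
  · rw [disjoint_left]
    intro y hy hyY
    have h14 := (mem_filter.1 (sdiff_subset (hZ hy) : y ∈ N)).1
    exact (mem_sdiff.1 h14).2 hyY
  · intro y hy
    exact (mem_filter.1 (sdiff_subset (hZ hy) : y ∈ N)).2

private theorem geo_le {m : ℕ} (hm : 2 ≤ m) (k : ℕ) : ∑ i ∈ range (k + 1), m ^ i ≤ 2 * m ^ k := by
  induction k with
  | zero => simp
  | succ k ih =>
    rw [sum_range_succ, pow_succ' m k]
    have h10 : 2 * m ^ k ≤ m * m ^ k := Nat.mul_le_mul_right _ hm
    omega

/-- two disjoint trees grow by the factor `m` in every step -/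
theorem grow {E : Finset (Edge V)} {U : Finset V} {D s τ : ℝ} {m h b : ℕ} (hm : 2 ≤ m)
    (hD : 0 < D) (hs0 : 0 < s) (hmin : ∀ v ∈ U, D ≤ (eN E {v} U : ℝ))
    (hsp : ∀ A Y : Finset V, A ⊆ U → Y ⊆ U → (A.card : ℝ) ≤ τ →
      (eN E A Y : ℝ) ≤ s * (A.card + Y.card))
    (hs : 8 * m * s ≤ D) (hb : 4 * (b : ℝ) ≤ D) (hτ1 : 1 ≤ τ) (hτ : (m : ℝ) ^ h ≤ m * τ)
    (Y : Finset V) (hY : Y.card ≤ b) {u v : V} (hu : u ∈ U) (hv : v ∈ U) (huv : u ≠ v)
    (huY : u ∉ Y) (hvY : v ∉ Y) :
    ∃ A B : ℕ → Finset V, Levels E u v h A B ∧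
      ∀ i ≤ h, (A i).card = m ^ i ∧ (B i).card = m ^ i ∧ A i ⊆ U ∧ B i ⊆ U ∧
        Disjoint (A i) Y ∧ Disjoint (B i) Y := by
  have main : ∀ k : ℕ, k ≤ h → ∃ A B : ℕ → Finset V, Levels E u v k A B ∧
      ∀ i ≤ k, (A i).card = m ^ i ∧ (B i).card = m ^ i ∧ A i ⊆ U ∧ B i ⊆ U ∧
        Disjoint (A i) Y ∧ Disjoint (B i) Y := by
    intro k
    induction k with
    | zero =>
      intro _
      refine ⟨fun _ => {u}, fun _ => {v}, ⟨rfl, rfl, ?_, ?_, ?_, ?_, ?_⟩, ?_⟩
      · intro i _ j _
        simpa using huv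
      · intro i hi j hj hij
        omega
      · intro i hi j hj hij
        omega
      · intro i hi
        omega
      · intro i hi
        omega
      · intro i hi
        obtain rfl : i = 0 := by omega
        simp [hu, hv, huY, hvY]
    | succ k ih =>
      intro hk
      obtain ⟨A, B, hL, hP⟩ := ih (by omega)
      obtain ⟨cA, cB, sA, sB, dA, dB⟩ := hP k le_rfl
      have hkτ : ((m ^ k : ℕ) : ℝ) ≤ τ := by
        have hm1 : (1 : ℝ) ≤ (m : ℝ) := by
          exact_mod_cast (by omega : 1 ≤ m)
        have h1 : (m : ℝ) ^ (k + 1) ≤ (m : ℝ) ^ h := pow_le_pow_right₀ hm1 hk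
        have h2 : (m : ℝ) * (m : ℝ) ^ k ≤ m * τ := by
          rw [← pow_succ']
          exact h1.trans hτ
        have h3 : (m : ℝ) ^ k ≤ τ := le_of_mul_le_mul_left h2 (by linarith)
        rw [Nat.cast_pow]
        exact h3
      set F : Finset V := (range (k + 1)).biUnion A ∪ (range (k + 1)).biUnion B with hF
      have hAF : ∀ i ≤ k, A i ⊆ F := by
        intro i hi x hx
        rw [hF, mem_union]
        left
        rw [mem_biUnion]
        exact ⟨i, mem_range.2 (by omega), hx⟩
      have hBF : ∀ i ≤ k, B i ⊆ F := by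
        intro i hi x hx
        rw [hF, mem_union]
        right
        rw [mem_biUnion]
        exact ⟨i, mem_range.2 (by omega), hx⟩
      have hFc : F.card ≤ 4 * m ^ k := by
        have h1 : ((range (k + 1)).biUnion A).card ≤ 2 * m ^ k := by
          refine card_biUnion_le.trans (le_trans (le_of_eq ?_) (geo_le hm k))
          exact sum_congr rfl fun i hi => (hP i (by rw [mem_range] at hi; omega)).1
        have h2 : ((range (k + 1)).biUnion B).card ≤ 2 * m ^ k := by
          refine card_biUnion_le.trans (le_trans (le_of_eq ?_) (geo_le hm k))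
          exact sum_congr rfl fun i hi => (hP i (by rw [mem_range] at hi; omega)).2.1
        have h3 := card_union_le ((range (k + 1)).biUnion A) ((range (k + 1)).biUnion B)
        rw [← hF] at h3
        omega
      obtain ⟨Z, hZU, hZc, hZF, hZY, hZs⟩ := grow_step hm hs0 hmin hsp hs hb Y hY sA cA
        (by rw [cA]; exact hkτ) F (by omega)
      obtain ⟨W, hWU, hWc, hWF, hWY, hWs⟩ := grow_step hm hs0 hmin hsp hs hb Y hY sB cB
        (by rw [cB]; exact hkτ) (F ∪ Z) (by
          have h3 := card_union_le F Z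
          omega)
      rw [disjoint_union_right] at hWF
      refine ⟨fun i => if i = k + 1 then Z else A i, fun i => if i = k + 1 then W else B i,
        ⟨?_, ?_, ?_, ?_, ?_, ?_, ?_⟩, ?_⟩
      · show (if (0 : ℕ) = k + 1 then Z else A 0) = {u}
        rw [if_neg (by omega)]
        exact hL.rootA
      · show (if (0 : ℕ) = k + 1 then W else B 0) = {v}
        rw [if_neg (by omega)]
        exact hL.rootB
      · intro i hi j hj
        show Disjoint (if i = k + 1 then Z else A i) (if j = k + 1 then W else B j)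
        by_cases h1 : i = k + 1 <;> by_cases h2 : j = k + 1
        · rw [if_pos h1, if_pos h2]
          exact hWF.2.symm
        · rw [if_pos h1, if_neg h2]
          exact disjoint_of_subset_right (hBF j (by omega)) hZF
        · rw [if_neg h1, if_pos h2]
          exact (disjoint_of_subset_right (hAF i (by omega)) hWF.1).symm
        · rw [if_neg h1, if_neg h2]
          exact hL.disAB i (by omega) j (by omega)
      · intro i hi j hj hij
        show Disjoint (if i = k + 1 then Z else A i) (if j = k + 1 then Z else A j)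
        by_cases h1 : i = k + 1 <;> by_cases h2 : j = k + 1
        · omega
        · rw [if_pos h1, if_neg h2]
          exact disjoint_of_subset_right (hAF j (by omega)) hZF
        · rw [if_neg h1, if_pos h2]
          exact (disjoint_of_subset_right (hAF i (by omega)) hZF).symm
        · rw [if_neg h1, if_neg h2]
          exact hL.disA i (by omega) j (by omega) hij
      · intro i hi j hj hij
        show Disjoint (if i = k + 1 then W else B i) (if j = k + 1 then W else B j)
        by_cases h1 : i = k + 1 <;> by_cases h2 : j = k + 1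
        · omega
        · rw [if_pos h1, if_neg h2]
          exact disjoint_of_subset_right (hBF j (by omega)) hWF.1
        · rw [if_neg h1, if_pos h2]
          exact (disjoint_of_subset_right (hBF i (by omega)) hWF.1).symm
        · rw [if_neg h1, if_neg h2]
          exact hL.disB i (by omega) j (by omega) hij
      · intro i hi
        show ∀ y ∈ (if i + 1 = k + 1 then Z else A (i + 1)),
          ∃ x ∈ (if i = k + 1 then Z else A i), ad E x y
        rw [if_neg (by omega : ¬ i = k + 1)]
        by_cases h1 : i = k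
        · rw [if_pos (by omega : i + 1 = k + 1), h1]
          exact hZs
        · rw [if_neg (by omega : ¬ i + 1 = k + 1)]
          exact hL.stepA i (by omega)
      · intro i hi
        show ∀ y ∈ (if i + 1 = k + 1 then W else B (i + 1)),
          ∃ x ∈ (if i = k + 1 then W else B i), ad E x y
        rw [if_neg (by omega : ¬ i = k + 1)]
        by_cases h1 : i = k
        · rw [if_pos (by omega : i + 1 = k + 1), h1]
          exact hWs
        · rw [if_neg (by omega : ¬ i + 1 = k + 1)]
          exact hL.stepB i (by omega)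
      · intro i hi
        show (if i = k + 1 then Z else A i).card = m ^ i ∧
          (if i = k + 1 then W else B i).card = m ^ i ∧ (if i = k + 1 then Z else A i) ⊆ U ∧
          (if i = k + 1 then W else B i) ⊆ U ∧ Disjoint (if i = k + 1 then Z else A i) Y ∧
          Disjoint (if i = k + 1 then W else B i) Y
        by_cases h1 : i = k + 1
        · rw [if_pos h1, if_pos h1, h1]
          exact ⟨hZc, hWc, hZU, hWU, hZY, hWY⟩
        · rw [if_neg h1, if_neg h1]
          exact hP i (by omega)
  exact main h le_rfl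

end Pool.Agent.Lib.LT
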