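import Pool.Agent.Lib.MP_6d56f7_co_LT.QDefs
import Pool.Agent.Lib.MP_6d56f7_co_LT.KernR
import Pool.Agent.Lib.MP_6d56f7_co_LT.GauS

/-!
# Integer configurations
-/

set_option autoImplicit false

namespace Pool.Agent.Lib.LT

open Finset Pool.Agent.Lib.FR

variable {n : ℕ}

private theorem qi_hitS {M : Finset (J n)} {a : El n} : a ∈ hitS M ↔ Hit M a := by
  unfold hitS
  simp

private theorem qi_card_hitS (M : Finset (J n)) : (hitS M).card ≤ 3 * M.card := by
  classical
  have hsub : hitS M ⊆ M.biUnion (fun g => univ.filter (fun a => g ∈ st n a)) := by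
    intro a ha
    obtain ⟨g, hg, hga⟩ := qi_hitS.mp ha
    exact mem_biUnion.mpr ⟨g, hg, mem_filter.mpr ⟨mem_univ _, hga⟩⟩
  refine (card_le_card hsub).trans ?_
  refine (card_biUnion_le_card_mul M _ 3 fun g _ => els_card n g).trans ?_
  rw [mul_comm]

private theorem qi_mem_UC {M : Finset (J n)} {c : Fin (2 * n - 1)} {v : Fin (2 * n)} :
    v ∈ UC M c ↔ ¬ RPm M v c := by
  unfold UC
  simp

private theorem qi_mem_EC {H : Finset (J n)} {c : Fin (2 * n - 1)} {e : Edge (Fin (2 * n))} :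
    e ∈ EC H c ↔ ((c, e) : J n) ∈ H := by
  unfold EC
  simp

/-- the edges of the pairs of colour `c` -/
private def mc (M : Finset (J n)) (c : Fin (2 * n - 1)) : Finset (Edge (Fin (2 * n))) :=
  univ.filter (fun e => ((c, e) : J n) ∈ M)

private theorem qi_mem_mc {M : Finset (J n)} {c : Fin (2 * n - 1)} {e : Edge (Fin (2 * n))} :
    e ∈ mc M c ↔ ((c, e) : J n) ∈ M := by
  unfold mc
  simp

private theorem qi_disj {E : Finset (Edge (Fin (2 * n)))} {M : Finset (J n)}
    {c : Fin (2 * n - 1)} {N : Finset (Edge (Fin (2 * n)))} (hN : PMon E (UC M c) N) :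
    Disjoint N (mc M c) := by
  rw [Finset.disjoint_left]
  rintro ⟨e, he⟩ h1 h2
  induction e using Sym2.ind with
  | _ u v =>
    have h3 := hN.ins _ h1 u (Sym2.mem_mk_left _ _)
    exact qi_mem_UC.mp h3 ⟨_, qi_mem_mc.mp h2, rfl, Sym2.mem_mk_left _ _⟩

/-- a perfect matching of the vertices which are not hit extends to an allowed one -/
private theorem qi_cfg {H M : Finset (J n)} (hM : CFree M) {c : Fin (2 * n - 1)}
    {N : Finset (Edge (Fin (2 * n)))} (hN : PMon (EC (HR H M) c) (UC M c) N) :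
    Cfg H M (c, N ∪ mc M c) := by
  refine ⟨?_, ?_⟩
  · intro v
    by_cases hv : RPm M v c
    · obtain ⟨g, hg, hgc, hgv⟩ := hv
      have hgm : ((c, g.2) : J n) ∈ M := by
        rw [← hgc]
        exact hg
      refine ⟨g.2, ⟨mem_union_right _ (qi_mem_mc.mpr hgm), hgv⟩, ?_⟩
      rintro e ⟨he, hev⟩
      rcases mem_union.mp he with h1 | h1
      · exact absurd ⟨g, hg, hgc, hgv⟩ (qi_mem_UC.mp (hN.ins e h1 v hev))
      · have h2 := hM _ (qi_mem_mc.mp h1) _ hgm (Or.inl rfl)
        exact congrArg Prod.snd h2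
    · obtain ⟨e, ⟨h1, h2⟩, h3⟩ := hN.cov v (qi_mem_UC.mpr hv)
      refine ⟨e, ⟨mem_union_left _ h1, h2⟩, ?_⟩
      rintro e' ⟨he, hev⟩
      rcases mem_union.mp he with h4 | h4
      · exact h3 e' ⟨h4, hev⟩
      · exact absurd ⟨_, qi_mem_mc.mp h4, rfl, hev⟩ hv
  · intro e he
    rcases mem_union.mp he with h1 | h1
    · exact mem_union_left _ (qi_mem_EC.mp (hN.sub h1))
    · exact mem_union_right _ (qi_mem_mc.mp h1)

/-- the sum over a perfect matching of sums of two values -/
private theorem qi_pm_sum {A : Type} [AddCommGroup A] {E : Finset (Edge (Fin (2 * n)))}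
    {X : Finset (Fin (2 * n))} {N : Finset (Edge (Fin (2 * n)))} (hN : PMon E X N)
    (f : Edge (Fin (2 * n)) → A) (g : Fin (2 * n) → A)
    (hf : ∀ (u v : Fin (2 * n)) (h : ¬ (s(u, v) : Sym2 (Fin (2 * n))).IsDiag),
      (⟨s(u, v), h⟩ : Edge (Fin (2 * n))) ∈ E → u ∈ X → v ∈ X → f ⟨s(u, v), h⟩ = g u + g v) :
    ∑ e ∈ N, f e = ∑ v ∈ X, g v := by
  classical
  have h1 : ∀ v ∈ X, g v = ∑ e ∈ N.filter (fun e => v ∈ e.1), g v := by
    intro v hv
    obtain ⟨e, ⟨h1, h2⟩, h3⟩ := hN.cov v hv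
    have h4 : N.filter (fun e => v ∈ e.1) = {e} := by
      ext e'
      rw [mem_filter, mem_singleton]
      constructor
      · exact fun h => h3 e' h
      · rintro rfl
        exact ⟨h1, h2⟩
    rw [h4, sum_singleton]
  rw [Finset.sum_congr rfl h1]
  rw [Finset.sum_comm' (s' := fun e => X.filter (fun v => v ∈ e.1)) (t' := N)]
  · refine Finset.sum_congr rfl ?_
    rintro ⟨e, he⟩ heN
    induction e using Sym2.ind with
    | _ u v =>
      have huv : u ≠ v := fun h' => he (Sym2.mk_isDiag_iff.mpr h')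
      have hu := hN.ins _ heN u (Sym2.mem_mk_left _ _)
      have hv := hN.ins _ heN v (Sym2.mem_mk_right _ _)
      have h2 : X.filter (fun w => w ∈ (⟨s(u, v), he⟩ : Edge (Fin (2 * n))).1) = {u, v} := by
        ext w
        rw [mem_filter, mem_insert, mem_singleton]
        constructor
        · rintro ⟨-, h⟩
          exact Sym2.mem_iff.mp h
        · rintro (rfl | rfl)
          · exact ⟨hu, Sym2.mem_mk_left _ _⟩
          · exact ⟨hv, Sym2.mem_mk_right _ _⟩
      rw [h2, sum_pair huv]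
      exact hf u v he (hN.sub heN) hu hv
  · intro v e
    rw [mem_filter, mem_filter]
    constructor
    · rintro ⟨h1, h2, h3⟩
      exact ⟨⟨h1, h3⟩, h2⟩
    · rintro ⟨⟨h1, h2⟩, h3⟩
      exact ⟨h1, h3, h2⟩

/-- the function on the elements, zero at the elements which are hit -/
private noncomputable def yy {A : Type} [AddCommGroup A] (M : Finset (J n))
    (f : Edge (Fin (2 * n)) → A) (gv : Fin (2 * n - 1) → Fin (2 * n) → A) : El n → A := by
  classical
  exact fun a => if Hit M a then 0 else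
    match a with
    | .inl e => f e
    | .inr p => - gv p.2 p.1

private theorem yy_inl {A : Type} [AddCommGroup A] {M : Finset (J n)}
    (f : Edge (Fin (2 * n)) → A) (gv : Fin (2 * n - 1) → Fin (2 * n) → A)
    {e : Edge (Fin (2 * n))} (h : ¬ Hit M (Sum.inl e)) : yy M f gv (Sum.inl e) = f e := by
  unfold yy
  rw [if_neg h]

private theorem yy_inr {A : Type} [AddCommGroup A] {M : Finset (J n)}
    (f : Edge (Fin (2 * n)) → A) (gv : Fin (2 * n - 1) → Fin (2 * n) → A)
    {v : Fin (2 * n)} {c : Fin (2 * n - 1)} (h : ¬ Hit M (Sum.inr (v, c))) :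
    yy M f gv (Sum.inr (v, c)) = - gv c v := by
  unfold yy
  rw [if_neg h]

/-- the edge part of a function on the elements -/
private noncomputable def yF {A : Type} [AddCommGroup A] (y : El n → A) (u v : Fin (2 * n)) :
    A := by
  classical
  exact if hd : (s(u, v) : Sym2 (Fin (2 * n))).IsDiag then 0 else y (Sum.inl ⟨s(u, v), hd⟩)

private theorem yF_of {A : Type} [AddCommGroup A] (y : El n → A) (u v : Fin (2 * n))
    (hd : ¬ (s(u, v) : Sym2 (Fin (2 * n))).IsDiag) :
    yF y u v = y (Sum.inl ⟨s(u, v), hd⟩) := by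
  unfold yF
  rw [dif_neg hd]

private theorem yF_symm {A : Type} [AddCommGroup A] (y : El n → A) (u v : Fin (2 * n)) :
    yF y u v = yF y v u := by
  have hs : (s(u, v) : Sym2 (Fin (2 * n))) = s(v, u) := Sym2.eq_swap
  by_cases hd : (s(u, v) : Sym2 (Fin (2 * n))).IsDiag
  · unfold yF
    rw [dif_pos hd, dif_pos (hs ▸ hd)]
  · rw [yF_of y u v hd, yF_of y v u (hs ▸ hd)]
    have h1 : (⟨s(u, v), hd⟩ : Edge (Fin (2 * n))) = ⟨s(v, u), hs ▸ hd⟩ := Subtype.ext hs
    rw [h1]

private theorem qi_els_eq (u v : Fin (2 * n)) (c : Fin (2 * n - 1))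
    (hd : ¬ (s(u, v) : Sym2 (Fin (2 * n))).IsDiag) (a : El n) :
    ((c, ⟨s(u, v), hd⟩) : J n) ∈ st n a ↔
      a = Sum.inl ⟨s(u, v), hd⟩ ∨ a = Sum.inr (u, c) ∨ a = Sum.inr (v, c) := by
  rcases a with e | ⟨w, c'⟩
  · rw [mem_st_inl]
    constructor
    · intro h
      left
      rw [← h]
    · rintro (h | h | h)
      · exact (Sum.inl.inj h).symm
      · exact absurd h (by simp)
      · exact absurd h (by simp)
  · rw [mem_st_inr]
    constructor
    · rintro ⟨h1, h2⟩
      have h3 : c = c' := h1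
      right
      rcases Sym2.mem_iff.mp h2 with h | h
      · left
        rw [h, h3]
      · right
        rw [h, h3]
    · rintro (h | h | h)
      · exact absurd h (by simp)
      · have h1 := Sum.inr.inj h
        rw [Prod.mk.injEq] at h1
        rw [h1.1, h1.2]
        exact ⟨rfl, Sym2.mem_mk_left _ _⟩
      · have h1 := Sum.inr.inj h
        rw [Prod.mk.injEq] at h1
        rw [h1.1, h1.2]
        exact ⟨rfl, Sym2.mem_mk_right _ _⟩

open Classical in
/-- the sum over the three elements of a pair -/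
private theorem qi_sum3 {A : Type} [AddCommGroup A] (y : El n → A) (u v : Fin (2 * n))
    (c : Fin (2 * n - 1)) (hd : ¬ (s(u, v) : Sym2 (Fin (2 * n))).IsDiag) :
    ∑ b ∈ univ.filter (fun b => ((c, ⟨s(u, v), hd⟩) : J n) ∈ st n b), y b =
      yF y u v + y (Sum.inr (u, c)) + y (Sum.inr (v, c)) := by
  have huv : u ≠ v := fun h' => hd (Sym2.mk_isDiag_iff.mpr h')
  have h1 : (univ.filter (fun b => ((c, ⟨s(u, v), hd⟩) : J n) ∈ st n b)) =
      {Sum.inl ⟨s(u, v), hd⟩, Sum.inr (u, c), Sum.inr (v, c)} := by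
    ext b
    rw [mem_filter, mem_insert, mem_insert, mem_singleton]
    constructor
    · intro h
      exact (qi_els_eq u v c hd b).mp h.2
    · intro h
      exact ⟨mem_univ _, (qi_els_eq u v c hd b).mpr h⟩
  rw [h1, sum_insert, sum_insert, sum_singleton, yF_of y u v hd, add_assoc]
  · rw [mem_singleton]
    intro h
    exact huv (congrArg Prod.fst (Sum.inr.inj h))
  · rw [mem_insert, mem_singleton]
    rintro (h | h)
    · exact absurd h (by simp)
    · exact absurd h (by simp)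

/-- the homomorphism given by a function on the elements -/
private def psi {A : Type} [AddCommGroup A] (y : El n → A) : (El n → ℤ) →+ A where
  toFun x := ∑ a, x a • y a
  map_zero' := by simp
  map_add' x z := by
    rw [← Finset.sum_add_distrib]
    refine Finset.sum_congr rfl fun a _ => ?_
    rw [Pi.add_apply, add_smul]

private theorem psi_inc {A : Type} [AddCommGroup A] (y : El n → A) (u v : Fin (2 * n))
    (c : Fin (2 * n - 1)) (hd : ¬ (s(u, v) : Sym2 (Fin (2 * n))).IsDiag) :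
    psi y (inc n ((c, ⟨s(u, v), hd⟩) : J n)) =
      yF y u v + y (Sum.inr (u, c)) + y (Sum.inr (v, c)) := by
  classical
  rw [← qi_sum3 y u v c hd, Finset.sum_filter]
  show ∑ a, inc n ((c, ⟨s(u, v), hd⟩) : J n) a • y a = _
  refine Finset.sum_congr rfl fun a _ => ?_
  unfold inc
  by_cases h : ((c, ⟨s(u, v), hd⟩) : J n) ∈ st n a
  · rw [if_pos h, if_pos h, one_smul]
  · rw [if_neg h, if_neg h, zero_smul]

private theorem psi_lat {A : Type} [AddCommGroup A] {y : El n → A} {L : Finset (J n)}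
    (hz : Van L (yF y) (fun v c => y (Sum.inr (v, c)))) {x : El n → ℤ} (hx : x ∈ Lat n L) :
    psi y x = 0 := by
  refine AddSubgroup.closure_induction (p := fun x _ => psi y x = 0) ?_ ?_ ?_ ?_ hx
  · rintro _ ⟨⟨c, ⟨e, he⟩⟩, hj, rfl⟩
    induction e using Sym2.ind with
    | _ u v =>
      rw [psi_inc]
      exact hz u v c ⟨he, by exact_mod_cast hj⟩
  · exact map_zero _
  · intro x z _ _ h1 h2
    rw [map_add, h1, h2, add_zero]
  · intro x _ h1
    rw [map_neg, h1, neg_zero]

/-- every bad triple gives a vector outside the lattice -/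
private theorem qi_bad {A : Type} [AddCommGroup A] {y : El n → A} {L : Finset (J n)}
    (hz : Van L (yF y) (fun v c => y (Sum.inr (v, c)))) (j₀ : J n) :
    cnt (fun p : Fin (2 * n) × Fin (2 * n) × Fin (2 * n - 1) =>
      p.1 ≠ p.2.1 ∧ yF y p.1 p.2.1 + y (Sum.inr (p.1, p.2.2)) +
        y (Sum.inr (p.2.1, p.2.2)) ≠ 0) ≤
      2 * cnt (fun h : J n => inc n h ∉ Lat n L) := by
  classical
  rw [cnt_eq, cnt_eq]
  set B := univ.filter (fun p : Fin (2 * n) × Fin (2 * n) × Fin (2 * n - 1) =>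
      p.1 ≠ p.2.1 ∧ yF y p.1 p.2.1 + y (Sum.inr (p.1, p.2.2)) +
        y (Sum.inr (p.2.1, p.2.2)) ≠ 0) with hB
  let φ : Fin (2 * n) × Fin (2 * n) × Fin (2 * n - 1) → J n := fun p =>
    if hd : (s(p.1, p.2.1) : Sym2 (Fin (2 * n))).IsDiag then j₀ else
      (p.2.2, ⟨s(p.1, p.2.1), hd⟩)
  have hφ : ∀ p : Fin (2 * n) × Fin (2 * n) × Fin (2 * n - 1),
      ∀ hd : ¬ (s(p.1, p.2.1) : Sym2 (Fin (2 * n))).IsDiag,
        φ p = (p.2.2, ⟨s(p.1, p.2.1), hd⟩) := by
    intro p hd
    exact dif_neg hd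
  have hnd : ∀ p ∈ B, ¬ (s(p.1, p.2.1) : Sym2 (Fin (2 * n))).IsDiag := by
    intro p hp h
    rw [hB, mem_filter] at hp
    exact hp.2.1 (Sym2.mk_isDiag_iff.mp h)
  have h1 : B.card ≤ 2 * (B.image φ).card := by
    refine card_le_mul_card_image B 2 ?_
    rintro ⟨c, ⟨e, he⟩⟩ -
    induction e using Sym2.ind with
    | _ x y =>
      have hsub : (B.filter (fun p => φ p = ((c, ⟨s(x, y), he⟩) : J n))) ⊆
          {(x, y, c), (y, x, c)} := by
        rintro ⟨u, v, c'⟩ hp
        rw [mem_filter] at hp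
        have h2 := hp.2
        rw [hφ _ (hnd _ hp.1)] at h2
        have h3 : c' = c := congrArg Prod.fst h2
        have h4 : (s(u, v) : Sym2 (Fin (2 * n))) = s(x, y) :=
          congrArg (fun j : J n => j.2.1) h2
        rw [mem_insert, mem_singleton]
        rcases Sym2.eq_iff.mp h4 with ⟨h5, h6⟩ | ⟨h5, h6⟩
        · left
          rw [h3, h5, h6]
        · right
          rw [h3, h5, h6]
      exact (card_le_card hsub).trans card_le_two
  refine h1.trans (Nat.mul_le_mul_left 2 (card_le_card ?_))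
  intro j hj
  obtain ⟨p, hp, rfl⟩ := mem_image.mp hj
  have hd := hnd p hp
  rw [hφ p hd, mem_filter]
  refine ⟨mem_univ _, ?_⟩
  intro h
  rw [hB, mem_filter] at hp
  apply hp.2.2
  rw [← psi_inc y p.1 p.2.1 p.2.2 hd]
  exact psi_lat hz h

/-- the gauge function on the elements -/
private noncomputable def qk {A : Type} [AddCommGroup A] (a : Fin (2 * n) → A)
    (t : Fin (2 * n - 1) → A) : El n → A
  | .inl e => Sym2.lift ⟨fun u v => - a u - a v, fun u v => by
      show - a u - a v = - a v - a u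
      rw [sub_eq_add_neg, sub_eq_add_neg, add_comm]⟩ e.1
  | .inr p => a p.1 + t p.2

open Classical in
private theorem qk_sum {A : Type} [AddCommGroup A] (a : Fin (2 * n) → A)
    (t : Fin (2 * n - 1) → A) (ht : ∀ c, t c + t c = 0) (T : J n) :
    ∑ b ∈ univ.filter (fun b => T ∈ st n b), qk a t b = 0 := by
  obtain ⟨c, ⟨e, he⟩⟩ := T
  induction e using Sym2.ind with
  | _ u v =>
    rw [qi_sum3, yF_of _ u v he]
    have h2 : qk a t (Sum.inl ⟨s(u, v), he⟩) = - a u - a v := rfl
    have h3 : qk a t (Sum.inr (u, c)) = a u + t c := rfl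
    have h4 : qk a t (Sum.inr (v, c)) = a v + t c := rfl
    rw [h2, h3, h4, ← ht c]
    abel

open Classical in
/-- the edges of the pairs of `M` are the edges which are hit -/
private theorem qi_hit_sum {A : Type} [AddCommGroup A] {M : Finset (J n)} (hM : CFree M)
    (f : Edge (Fin (2 * n)) → A) :
    ∑ c, ∑ e ∈ mc M c, f e = ∑ e ∈ univ.filter (fun e => Hit M (Sum.inl e)), f e := by
  rw [Finset.sum_comm' (s' := fun e => univ.filter (fun c => ((c, e) : J n) ∈ M))
    (t' := univ.filter (fun e => Hit M (Sum.inl e)))]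
  · refine Finset.sum_congr rfl ?_
    intro e he
    obtain ⟨⟨c, e'⟩, h1, h2⟩ := (mem_filter.mp he).2
    have h3 : e' = e := mem_st_inl.mp h2
    subst h3
    have h4 : univ.filter (fun c => ((c, e') : J n) ∈ M) = {c} := by
      ext c'
      rw [mem_filter, mem_singleton]
      constructor
      · rintro ⟨-, h5⟩
        obtain ⟨e0, he0⟩ := e'
        induction e0 using Sym2.ind with
        | _ u v =>
          have h6 := hM _ h5 _ h1 (Or.inr ⟨u, Sym2.mem_mk_left _ _, Sym2.mem_mk_left _ _⟩)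
          exact congrArg Prod.fst h6
      · rintro rfl
        exact ⟨mem_univ _, h1⟩
    rw [h4, sum_singleton]
  · intro c e
    rw [qi_mem_mc, mem_filter, mem_filter]
    constructor
    · rintro ⟨-, h⟩
      exact ⟨⟨mem_univ _, h⟩, mem_univ _, ⟨(c, e), h, mem_st_inl.mpr rfl⟩⟩
    · rintro ⟨⟨-, h⟩, -⟩
      exact ⟨mem_univ _, h⟩

open Classical in
/-- the sum over the elements which are not hit -/
private theorem qi_split {A : Type} [AddCommGroup A] (M : Finset (J n)) (y : El n → A) :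
    ∑ a ∈ univ.filter (fun a => ¬ Hit M a), y a =
      ∑ e ∈ univ.filter (fun e => ¬ Hit M (Sum.inl e)), y (Sum.inl e) +
        ∑ c, ∑ v ∈ UC M c, y (Sum.inr (v, c)) := by
  rw [Finset.sum_filter, Fintype.sum_sum_type, Finset.sum_filter]
  congr 1
  rw [Fintype.sum_prod_type, Finset.sum_comm]
  refine Finset.sum_congr rfl fun c _ => ?_
  have h1 : UC M c = univ.filter (fun v => ¬ Hit M (Sum.inr (v, c))) := by
    ext v
    rw [qi_mem_UC, mem_filter, hit_inr]
    exact ⟨fun h => ⟨mem_univ _, h⟩, fun h => h.2⟩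
  rw [h1, Finset.sum_filter]

/-- a function on the edges and colours which sums to zero over every allowed perfect matching with
its colour has total sum zero -/
theorem sum_zero (hn : 10 ^ 6 ≤ n) {L₀ H M : Finset (J n)} (hg : GoodR n L₀) (hsub : L₀ ⊆ H)
    {w : Fin (2 * n) → Fin (2 * n) → Fin (2 * n - 1) → ℝ} (hw : FRQ n H M w)
    {A : Type} [AddCommGroup A] (hA : ∀ a : A, ∃ b, b + b = a)
    (f : Edge (Fin (2 * n)) → A) (g : Fin (2 * n - 1) → A)
    (hfg : ∀ p, Cfg H M p → ∑ e ∈ p.2, f e + g p.1 = 0) : ∑ e, f e + ∑ c, g c = 0 := by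
  classical
  have hn1 : 1 ≤ n := le_trans (by norm_num) hn
  have hM : CFree M := hw.base.free
  set L := HR H M with hL
  set R := hitS M with hR
  have hSm : SmR R := by
    unfold SmR
    exact (Nat.pow_le_pow_left (qi_card_hitS M) 8).trans hw.base.few
  have hres : res R L₀ ⊆ L := by
    intro T hT
    have h1 := mem_filter.mp hT
    refine mem_HR.mpr ⟨hsub h1.1, ?_⟩
    intro a ha hHit
    exact h1.2 a (qi_hitS.mpr hHit) ha
  have hav : ∀ T ∈ L, ∀ a ∈ R, T ∉ st n a := by
    intro T hT a ha hTa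
    exact (mem_HR.mp hT).2 a hTa (qi_hitS.mp ha)
  have j₀ : J n := by
    have h0 : 0 < Fintype.card (J n) := by
      rw [J_card]
      have : 0 < 2 * n - 1 := by omega
      positivity
    exact Classical.choice (Fintype.card_pos_iff.mp h0)
  -- the sum over a perfect matching of the vertices which are not hit
  have hN : ∀ c N, PMon (EC L c) (UC M c) N →
      ∑ e ∈ N, f e = - ∑ e ∈ mc M c, f e - g c := by
    intro c N hN
    have h1 := hfg (c, N ∪ mc M c) (qi_cfg hM hN)
    have h2 : ∑ e ∈ N ∪ mc M c, f e = ∑ e ∈ N, f e + ∑ e ∈ mc M c, f e :=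
      Finset.sum_union (qi_disj hN)
    have h3 : ∑ e ∈ N, f e + ∑ e ∈ mc M c, f e + g c = 0 := by
      rw [← h2]
      exact h1
    have h4 : ∑ e ∈ N, f e =
        (∑ e ∈ N, f e + ∑ e ∈ mc M c, f e + g c) - ∑ e ∈ mc M c, f e - g c := by abel
    rw [h4, h3]
    abel
  have hrig : ∀ c, ∃ g : Fin (2 * n) → A, ∀ (u v : Fin (2 * n))
      (h : ¬ (s(u, v) : Sym2 (Fin (2 * n))).IsDiag),
      (⟨s(u, v), h⟩ : Edge (Fin (2 * n))) ∈ EC L c → u ∈ UC M c → v ∈ UC M c →
        f ⟨s(u, v), h⟩ = g u + g v := by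
    intro c
    refine hw.rigid c A hA f ?_
    intro N N' h h'
    rw [hN c N h, hN c N' h']
  choose gv hgv using hrig
  set y := yy M f gv with hy
  have hz : Van L (yF y) (fun v c => y (Sum.inr (v, c))) := by
    rintro u v c ⟨hd, hm⟩
    have h1 : ¬ Hit M (Sum.inl ⟨s(u, v), hd⟩) := (mem_HR.mp hm).2 _ (mem_st_inl.mpr rfl)
    have h2 : ¬ Hit M (Sum.inr (u, c)) :=
      (mem_HR.mp hm).2 _ (mem_st_inr.mpr ⟨rfl, Sym2.mem_mk_left _ _⟩)
    have h3 : ¬ Hit M (Sum.inr (v, c)) :=
      (mem_HR.mp hm).2 _ (mem_st_inr.mpr ⟨rfl, Sym2.mem_mk_right _ _⟩)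
    have h4 := hgv c u v hd (qi_mem_EC.mpr hm) (qi_mem_UC.mpr (fun h => h2 (hit_inr.mpr h)))
      (qi_mem_UC.mpr (fun h => h3 (hit_inr.mpr h)))
    show yF y u v + y (Sum.inr (u, c)) + y (Sum.inr (v, c)) = 0
    rw [yF_of y u v hd, hy, yy_inl f gv h1, yy_inr f gv h2, yy_inr f gv h3, h4]
    abel
  have hzres : Van (res R L₀) (yF y) (fun v c => y (Sum.inr (v, c))) := by
    rintro u v c ⟨hd, hm⟩
    exact hz u v c ⟨hd, hres hm⟩
  have hcount : 5000000 * cnt (fun p : Fin (2 * n) × Fin (2 * n) × Fin (2 * n - 1) =>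
      p.1 ≠ p.2.1 ∧ yF y p.1 p.2.1 + y (Sum.inr (p.1, p.2.2)) +
        y (Sum.inr (p.2.1, p.2.2)) ≠ 0) ≤ (2 * n - 1) ^ 3 := by
    have h1 := qi_bad hzres j₀
    have h3 := hg.far R hSm
    unfold Far at h3
    rw [J_card] at h3
    have h4 : (2 * n - 1) * (n * (2 * n - 1)) ≤ (2 * n - 1) ^ 3 := by
      have h5 : n ≤ 2 * n - 1 := by omega
      calc (2 * n - 1) * (n * (2 * n - 1)) ≤ (2 * n - 1) * ((2 * n - 1) * (2 * n - 1)) :=
            Nat.mul_le_mul_left _ (Nat.mul_le_mul_right _ h5)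
        _ = (2 * n - 1) ^ 3 := by ring
    omega
  obtain ⟨a, t, ht, hf, hgg⟩ := kernR hn hg hSm hres hav hw.base.one (yF y)
    (fun v c => y (Sum.inr (v, c))) (yF_symm y) hz hcount
  have hk : ∀ b : El n, ¬ Hit M b → qk a t b = y b := by
    rintro (⟨e, he⟩ | ⟨v, c⟩) hb
    · induction e using Sym2.ind with
      | _ u v =>
        have h1 : (Sum.inl ⟨s(u, v), he⟩ : El n) ∉ R := fun h => hb (qi_hitS.mp h)
        have h2 := hf u v he h1
        rw [yF_of y u v he] at h2
        rw [h2]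
        rfl
    · have h1 : (Sum.inr (v, c) : El n) ∉ R := fun h => hb (qi_hitS.mp h)
      have h2 : y (Sum.inr (v, c)) = a v + t c := hgg v c h1
      rw [h2]
      rfl
  have hsum := sum_off hn1 M hM (qk a t) (qk_sum a t ht)
  have hsum2 : ∑ b ∈ univ.filter (fun b => ¬ Hit M b), y b = 0 := by
    rw [← hsum]
    refine Finset.sum_congr rfl fun b hb => ?_
    exact (hk b (mem_filter.mp hb).2).symm
  rw [qi_split] at hsum2
  have h5 : ∑ e ∈ univ.filter (fun e => ¬ Hit M (Sum.inl e)), y (Sum.inl e) =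
      ∑ e ∈ univ.filter (fun e => ¬ Hit M (Sum.inl e)), f e := by
    refine Finset.sum_congr rfl fun e he => ?_
    rw [hy]
    exact yy_inl f gv (mem_filter.mp he).2
  have h6 : ∑ c, ∑ v ∈ UC M c, y (Sum.inr (v, c)) =
      ∑ c, g c + ∑ c, ∑ e ∈ mc M c, f e := by
    rw [← Finset.sum_add_distrib]
    refine Finset.sum_congr rfl fun c _ => ?_
    obtain ⟨N, hNc⟩ := hw.pm c
    have h7 := hN c N hNc
    rw [qi_pm_sum hNc f (gv c) (hgv c)] at h7
    have h8 : ∑ v ∈ UC M c, y (Sum.inr (v, c)) = - ∑ v ∈ UC M c, gv c v := by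
      rw [← Finset.sum_neg_distrib]
      refine Finset.sum_congr rfl fun v hv => ?_
      rw [hy]
      exact yy_inr f gv (fun h => qi_mem_UC.mp hv (hit_inr.mp h))
    rw [h8, h7]
    abel
  rw [h5, h6, qi_hit_sum hM f] at hsum2
  have h9 := Finset.sum_filter_add_sum_filter_not univ (fun e => Hit M (Sum.inl e)) f
  rw [← h9, ← hsum2]
  abel

end Pool.Agent.Lib.LT
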