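import Pool.Agent.Lib.MP_6d56f7_co_LT.QDefs

/-!
# Positive combinations of all perfect matchings
-/

set_option autoImplicit false

namespace Pool.Agent.Lib.LT

open Finset Pool.Agent.Lib.FR

/-- the pair `uv` is in `M` -/
private def QPin {V : Type} (M : Finset (Edge V)) (u v : V) : Prop :=
  ∃ h : ¬ (s(u, v) : Sym2 V).IsDiag, (⟨s(u, v), h⟩ : Edge V) ∈ M

private theorem QPin_symm {V : Type} {M : Finset (Edge V)} {u v : V} (h : QPin M u v) :
    QPin M v u := by
  unfold QPin at h ⊢
  rw [Sym2.eq_swap]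
  exact h

private theorem QPin_ne {V : Type} {M : Finset (Edge V)} {u v : V} (h : QPin M u v) : u ≠ v := by
  obtain ⟨h1, -⟩ := h
  rw [Sym2.mk_isDiag_iff] at h1
  exact h1

open Classical in
private theorem QPin_sum {V : Type} [Fintype V] [DecidableEq V] {M : Finset (Edge V)}
    (hM : PerfM M) (v : V) : ∑ u, (if QPin M v u then (1 : ℝ) else 0) = 1 := by
  obtain ⟨⟨e, he⟩, ⟨h1, h2⟩, h3⟩ := hM v
  obtain ⟨b, hb⟩ := Sym2.mem_iff_exists.1 h2
  have hb' : e = s(v, b) := hb
  subst hb'
  rw [Finset.sum_eq_single b]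
  · rw [if_pos ⟨he, h1⟩]
  · intro u _ hu
    rw [if_neg]
    rintro ⟨h4, h5⟩
    have h6 := h3 ⟨s(v, u), h4⟩ ⟨h5, Sym2.mem_mk_left _ _⟩
    have h7 : s(v, u) = s(v, b) := congrArg Subtype.val h6
    exact hu (Sym2.congr_right.1 h7)
  · intro h
    exact absurd (mem_univ b) h

/-- the data of the average over the perfect matchings in the support -/
private structure QAvg {V : Type} [Fintype V] [DecidableEq V] (x z : V → V → ℝ)
    (a : Finset (Edge V) → ℝ) : Prop where
  nonneg : ∀ M, 0 ≤ a M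
  pos : ∀ M, PerfM M → (∀ u v, QPin M u v → 0 < x u v) → 0 < a M
  supp : ∀ M, a M ≠ 0 → PerfM M ∧ ∀ u v, QPin M u v → 0 < x u v
  one : ∑ M, a M = 1
  eq : ∀ (u v : V) (h : ¬ (s(u, v) : Sym2 V).IsDiag),
    ∑ M, (if (⟨s(u, v), h⟩ : Edge V) ∈ M then a M else 0) = z u v
  z0 : ∀ u v, 0 ≤ z u v
  z1 : ∀ u v, z u v ≤ 1
  zx : ∀ u v, x u v = 0 → z u v = 0
  symm : ∀ u v, z u v = z v u
  diag : ∀ v, z v v = 0
  deg : ∀ v, ∑ u, z v u = 1

private theorem QAvg_exists {V : Type} [Fintype V] [DecidableEq V] {x : V → V → ℝ}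
    (hE : Edm x) : ∃ (z : V → V → ℝ) (a : Finset (Edge V) → ℝ), QAvg x z a := by
  classical
  let Good : Finset (Edge V) → Prop := fun M => PerfM M ∧ ∀ u v, QPin M u v → 0 < x u v
  let S : Finset (Finset (Edge V)) := univ.filter Good
  have hSm : ∀ M, M ∈ S ↔ Good M := fun M => by simp [S]
  have hS : 0 < S.card := by
    obtain ⟨P, hP0, hP1, hP2, hP3, -⟩ := edmonds_sets hE
    obtain ⟨M, _, hM⟩ := Finset.exists_ne_zero_of_sum_ne_zero
      (by rw [hP2]; exact one_ne_zero : ∑ M, P M ≠ 0)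
    refine Finset.card_pos.2 ⟨M, (hSm M).2 ⟨hP1 M hM, ?_⟩⟩
    rintro u v ⟨h, hm⟩
    exact lt_of_le_of_ne (hE.nonneg u v) (Ne.symm (hP3 M hM u v h hm))
  have hSr : (0 : ℝ) < S.card := by exact_mod_cast hS
  let a : Finset (Edge V) → ℝ := fun M => if M ∈ S then (1 : ℝ) / S.card else 0
  have ha0 : ∀ M, 0 ≤ a M := fun M => by
    simp only [a]
    split_ifs
    · positivity
    · exact le_rfl
  have haS : ∀ M, a M ≠ 0 → M ∈ S := fun M h => by
    by_contra hne
    simp only [a, if_neg hne] at h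
    exact h rfl
  have ha1 : ∑ M, a M = 1 := by
    simp only [a]
    rw [Finset.sum_ite_mem, univ_inter, Finset.sum_const, nsmul_eq_mul, mul_one_div,
      div_self hSr.ne']
  refine ⟨fun u v => ∑ M, (if QPin M u v then a M else 0), a, ha0, ?_, ?_, ha1, ?_, ?_, ?_, ?_,
    ?_, ?_, ?_⟩
  · intro M h1 h2
    simp only [a]
    rw [if_pos ((hSm M).2 ⟨h1, h2⟩)]
    positivity
  · intro M h
    exact (hSm M).1 (haS M h)
  · intro u v h
    refine Finset.sum_congr rfl fun M _ => ?_
    have hiff : (⟨s(u, v), h⟩ : Edge V) ∈ M ↔ QPin M u v :=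
      ⟨fun h1 => ⟨h, h1⟩, fun h1 => h1.2⟩
    simp only [hiff]
  · intro u v
    exact Finset.sum_nonneg fun M _ => by
      split_ifs
      · exact ha0 M
      · exact le_rfl
  · intro u v
    rw [← ha1]
    exact Finset.sum_le_sum fun M _ => by
      split_ifs
      · exact le_rfl
      · exact ha0 M
  · intro u v h
    refine Finset.sum_eq_zero fun M _ => ?_
    split_ifs with h1
    · by_contra hne
      have h2 := ((hSm M).1 (haS M hne)).2 u v h1
      rw [h] at h2
      exact lt_irrefl _ h2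
    · rfl
  · intro u v
    refine Finset.sum_congr rfl fun M _ => ?_
    have hiff : QPin M u v ↔ QPin M v u := ⟨QPin_symm, QPin_symm⟩
    simp only [hiff]
  · intro v
    refine Finset.sum_eq_zero fun M _ => ?_
    rw [if_neg]
    exact fun h => QPin_ne h rfl
  · intro v
    rw [Finset.sum_comm, ← ha1]
    refine Finset.sum_congr rfl fun M _ => ?_
    by_cases h : a M = 0
    · rw [h]
      exact Finset.sum_eq_zero fun u _ => by split_ifs <;> rfl
    · have h1 := QPin_sum ((hSm M).1 (haS M h)).1 v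
      have h2 : ∑ u, (if QPin M v u then a M else 0) =
          a M * ∑ u, (if QPin M v u then (1 : ℝ) else 0) := by
        rw [Finset.mul_sum]
        refine Finset.sum_congr rfl fun u _ => ?_
        rw [mul_ite, mul_one, mul_zero]
      rw [h2, h1, mul_one]

/-- the vertices of `R` are joined to `R` only -/
private theorem QPos_zero {V : Type} [Fintype V] [DecidableEq V] {x : V → V → ℝ}
    (h0 : ∀ u v, 0 ≤ x u v) (hd : ∀ v, ∑ u, x v u = 1) {u v : V} (h : x u v = 1) {w : V}
    (hw : w ≠ v) : x u w = 0 := by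
  have h1 := hd u
  rw [← Finset.add_sum_erase univ (fun w => x u w) (mem_univ v), h] at h1
  have h2 : ∑ w ∈ univ.erase v, x u w = 0 := by linarith
  exact (Finset.sum_eq_zero_iff_of_nonneg fun w _ => h0 u w).1 h2 w
    (mem_erase.2 ⟨hw, mem_univ w⟩)

private theorem QPos_odd {V : Type} [Fintype V] [DecidableEq V] {x z x' : V → V → ℝ}
    (hE : Edm x) (R : Finset V) (hR2 : R.card ≤ 2) (hR : ∀ u ∈ R, ∃ v ∈ R, x u v = 1)
    (hcut : ∀ W : Finset V, W ⊆ Rᶜ → Odd W.card → 3 ≤ W.card →
      W.card + 3 ≤ (Rᶜ : Finset V).card → 2 ≤ ∑ u ∈ W, ∑ v ∈ Rᶜ \ W, x u v)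
    {η : ℝ} (hη : 0 < η) (hη2 : η * (Fintype.card V : ℝ) ^ 2 ≤ 1)
    (hz1 : ∀ u v, z u v ≤ 1) (hzx : ∀ u v, x u v = 0 → z u v = 0)
    (hzd : ∀ v, ∑ u, z v u = 1)
    (hx' : ∀ u v, x' u v = (1 + η) * x u v - η * z u v) (h0 : ∀ u v, 0 ≤ x' u v)
    (hs : ∀ u v, x' u v = x' v u) (hdi : ∀ v, x' v v = 0) (hdeg : ∀ v, ∑ u, x' v u = 1)
    (W : Finset V) (hW : Odd W.card) : 1 ≤ cut x' W := by
  -- the partner of a vertex of `R`
  have hx'1 : ∀ u v, x u v = 1 → x' u v = 1 := by
    intro u v h
    have hz : z u v = 1 := by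
      have h1 := hzd u
      rw [← Finset.add_sum_erase univ (fun w => z u w) (mem_univ v)] at h1
      have h2 : ∑ w ∈ univ.erase v, z u w = 0 := Finset.sum_eq_zero fun w hw =>
        hzx u w (QPos_zero hE.nonneg hE.deg h (mem_erase.1 hw).1)
      linarith
    rw [hx', h, hz]
    ring
  have hne : ∀ u v, x u v = 1 → u ≠ v := by
    rintro u v h rfl
    rw [hE.diag] at h
    exact zero_ne_one h
  have hcc : ∀ W : Finset V, cut x' Wᶜ = cut x' W := by
    intro W
    unfold cut
    rw [compl_compl, Finset.sum_comm]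
    exact Finset.sum_congr rfl fun u _ => Finset.sum_congr rfl fun v _ => hs _ _
  have hge : ∀ (W : Finset V) (u v : V), u ∈ W → v ∉ W → x' u v ≤ cut x' W := by
    intro W u v hu hv
    unfold cut
    calc x' u v ≤ ∑ v ∈ Wᶜ, x' u v :=
          Finset.single_le_sum (f := fun v => x' u v) (fun v _ => h0 u v) (mem_compl.2 hv)
      _ ≤ ∑ u ∈ W, ∑ v ∈ Wᶜ, x' u v :=
          Finset.single_le_sum (f := fun u => ∑ v ∈ Wᶜ, x' u v)
            (fun u _ => Finset.sum_nonneg fun v _ => h0 u v) hu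
  have hVe : Even (Fintype.card V) := Edmonds.even_card hE
  have hRe : Even R.card := by
    rcases R.eq_empty_or_nonempty with h | ⟨u, hu⟩
    · rw [h]
      exact ⟨0, rfl⟩
    · obtain ⟨v, hv, huv⟩ := hR u hu
      have h1 : 1 < R.card := Finset.one_lt_card.2 ⟨u, hu, v, hv, hne u v huv⟩
      have h2 : R.card = 2 := by omega
      rw [h2]
      exact even_two
  -- the main case
  have main : ∀ W : Finset V, Odd W.card → W ⊆ Rᶜ → 1 ≤ cut x' W := by
    intro W hW hWR
    have hRc : (Rᶜ : Finset V).card = Fintype.card V - R.card := Finset.card_compl R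
    have hRV : R.card ≤ Fintype.card V := Finset.card_le_univ R
    have hWc : W.card ≤ (Rᶜ : Finset V).card := Finset.card_le_card hWR
    have hRce : Even (Rᶜ : Finset V).card := by
      rw [hRc, Nat.even_sub hRV]
      exact ⟨fun _ => hRe, fun _ => hVe⟩
    by_cases h3 : W.card < 3
    · have h1 : W.card = 1 := by
        obtain ⟨k, hk⟩ := hW
        omega
      obtain ⟨w, hw⟩ := Finset.card_eq_one.1 h1
      rw [hw]
      unfold cut
      rw [Finset.sum_singleton]
      have h4 := hdeg w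
      rw [← Finset.sum_add_sum_compl ({w} : Finset V), Finset.sum_singleton, hdi, zero_add] at h4
      exact h4.ge
    · by_cases h4 : W.card + 3 ≤ (Rᶜ : Finset V).card
      · have h5 := hcut W hWR hW (by omega) h4
        have h6 : ∑ u ∈ W, ∑ v ∈ Rᶜ \ W, x u v ≤ cut x W := by
          unfold cut
          refine Finset.sum_le_sum fun u _ => ?_
          refine Finset.sum_le_sum_of_subset_of_nonneg ?_ fun v _ _ => hE.nonneg u v
          intro v hv
          rw [mem_sdiff] at hv
          exact mem_compl.2 hv.2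
        have h7 : cut x' W = (1 + η) * cut x W - η * cut z W := by
          unfold cut
          simp only [hx', Finset.sum_sub_distrib, Finset.mul_sum]
        have h8 : cut z W ≤ (Fintype.card V : ℝ) ^ 2 := by
          unfold cut
          calc ∑ u ∈ W, ∑ v ∈ Wᶜ, z u v ≤ ∑ u ∈ W, ∑ v ∈ Wᶜ, (1 : ℝ) :=
                Finset.sum_le_sum fun u _ => Finset.sum_le_sum fun v _ => hz1 u v
            _ = (W.card : ℝ) * (Wᶜ.card : ℝ) := by
                rw [Finset.sum_const, Finset.sum_const, nsmul_eq_mul, nsmul_eq_mul, mul_one]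
            _ ≤ (Fintype.card V : ℝ) * (Fintype.card V : ℝ) := by
                have h9 : (W.card : ℝ) ≤ Fintype.card V := by
                  exact_mod_cast Finset.card_le_univ W
                have h10 : (Wᶜ.card : ℝ) ≤ Fintype.card V := by
                  exact_mod_cast Finset.card_le_univ Wᶜ
                exact mul_le_mul h9 h10 (Nat.cast_nonneg _) (Nat.cast_nonneg _)
            _ = (Fintype.card V : ℝ) ^ 2 := by ring
        have h9 : η * cut z W ≤ 1 := (mul_le_mul_of_nonneg_left h8 hη.le).trans hη2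
        have h10 : 2 ≤ cut x W := h5.trans h6
        have h11 : 0 ≤ η * cut x W := mul_nonneg hη.le (by linarith)
        rw [h7, add_mul, one_mul]
        linarith
      · have h5 : (Rᶜ \ W).card = 1 := by
          rw [Finset.card_sdiff_of_subset hWR]
          obtain ⟨k, hk⟩ := hW
          obtain ⟨l, hl⟩ := hRce
          omega
        obtain ⟨b, hb⟩ := Finset.card_eq_one.1 h5
        have hbm : b ∈ Rᶜ \ W := by
          rw [hb]
          exact mem_singleton_self b
        rw [mem_sdiff] at hbm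
        -- the rows of `R` vanish on `W`
        have hzR : ∀ r ∈ R, ∀ w, w ∉ R → x' r w = 0 := by
          intro r hr w hw
          obtain ⟨v, hv, hrv⟩ := hR r hr
          refine QPos_zero h0 hdeg (hx'1 r v hrv) ?_
          rintro rfl
          exact hw hv
        have h7 : ∑ w ∈ W, x' b w = 1 := by
          have h8 := hdeg b
          rw [← Finset.sum_add_sum_compl W] at h8
          have h9 : ∑ w ∈ Wᶜ, x' b w = 0 := by
            refine Finset.sum_eq_zero fun w hw => ?_
            by_cases hwR : w ∈ R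
            · rw [hs]
              exact hzR w hwR b (mem_compl.1 hbm.1)
            · have h10 : w ∈ Rᶜ \ W := mem_sdiff.2 ⟨mem_compl.2 hwR, mem_compl.1 hw⟩
              rw [hb, mem_singleton] at h10
              rw [h10]
              exact hdi b
          linarith
        rw [← hcc W]
        unfold cut
        rw [compl_compl, ← h7]
        exact Finset.single_le_sum (f := fun u => ∑ w ∈ W, x' u w)
          (fun u _ => Finset.sum_nonneg fun v _ => h0 u v) (mem_compl.2 hbm.2)
  -- the position of `R`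
  by_cases h1 : W ⊆ Rᶜ
  · exact main W hW h1
  · obtain ⟨r, hrW, hrR⟩ := Finset.not_subset.1 h1
    rw [mem_compl, not_not] at hrR
    obtain ⟨r', hr', hrr'⟩ := hR r hrR
    by_cases h2 : r' ∈ W
    · have hRW : R ⊆ W := by
        have h3 : ({r, r'} : Finset V) = R := by
          refine Finset.eq_of_subset_of_card_le ?_ ?_
          · intro y hy
            rw [mem_insert, mem_singleton] at hy
            rcases hy with rfl | rfl
            · exact hrR
            · exact hr'
          · rw [Finset.card_pair (hne r r' hrr')]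
            exact hR2
        rw [← h3]
        intro y hy
        rw [mem_insert, mem_singleton] at hy
        rcases hy with rfl | rfl
        · exact hrW
        · exact h2
      rw [← hcc W]
      refine main Wᶜ ?_ (Finset.compl_subset_compl.2 hRW)
      rw [Finset.card_compl, Nat.odd_sub (Finset.card_le_univ W)]
      exact ⟨fun h => absurd hVe (Nat.not_even_iff_odd.2 h),
        fun h => absurd h (Nat.not_even_iff_odd.2 hW)⟩
    · exact (hx'1 r r' hrr').ge.trans (hge W r r' hrW h2)

/-- a small number below all positive values -/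
private theorem QPos_eta {V : Type} [Fintype V] (x : V → V → ℝ) :
    ∃ η : ℝ, 0 < η ∧ η * (Fintype.card V : ℝ) ^ 2 ≤ 1 ∧ ∀ u v, 0 < x u v → η ≤ x u v := by
  classical
  have h1 : ∃ m : ℝ, 0 < m ∧ ∀ u v, 0 < x u v → m ≤ x u v := by
    by_cases hne : (univ.filter fun p : V × V => 0 < x p.1 p.2).Nonempty
    · obtain ⟨p, hp, hmin⟩ := Finset.exists_min_image _ (fun p : V × V => x p.1 p.2) hne
      refine ⟨x p.1 p.2, (mem_filter.1 hp).2, fun u v h => ?_⟩
      exact hmin (u, v) (mem_filter.2 ⟨mem_univ _, h⟩)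
    · refine ⟨1, one_pos, fun u v h => ?_⟩
      exact absurd ⟨(u, v), mem_filter.2 ⟨mem_univ _, h⟩⟩ hne
  obtain ⟨m, hm, hm2⟩ := h1
  have h2 : (0 : ℝ) < (Fintype.card V : ℝ) ^ 2 + 1 := by positivity
  refine ⟨min m (1 / ((Fintype.card V : ℝ) ^ 2 + 1)), lt_min hm (by positivity), ?_, fun u v h =>
    (min_le_left _ _).trans (hm2 u v h)⟩
  have h3 : min m (1 / ((Fintype.card V : ℝ) ^ 2 + 1)) * (Fintype.card V : ℝ) ^ 2 ≤
      1 / ((Fintype.card V : ℝ) ^ 2 + 1) * (Fintype.card V : ℝ) ^ 2 :=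
    mul_le_mul_of_nonneg_right (min_le_right _ _) (by positivity)
  refine h3.trans ?_
  rw [one_div, inv_mul_eq_div, div_le_one h2]
  linarith

/-- a point of the perfect matching polytope without tight odd cuts is a combination of all perfect
matchings of its support with positive coefficients -/
theorem pos_comb {V : Type} [Fintype V] [DecidableEq V] {x : V → V → ℝ} (hE : Edm x)
    (R : Finset V) (hR2 : R.card ≤ 2) (hR : ∀ u ∈ R, ∃ v ∈ R, x u v = 1)
    (hcut : ∀ W : Finset V, W ⊆ Rᶜ → Odd W.card → 3 ≤ W.card →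
      W.card + 3 ≤ (Rᶜ : Finset V).card → 2 ≤ ∑ u ∈ W, ∑ v ∈ Rᶜ \ W, x u v) :
    ∃ p : Finset (Edge V) → ℝ,
      (∀ M, PerfM M → (∀ (u v : V) (h : ¬ (s(u, v) : Sym2 V).IsDiag),
        (⟨s(u, v), h⟩ : Edge V) ∈ M → 0 < x u v) → 0 < p M) ∧
      (∀ M, p M ≠ 0 → PerfM M ∧ ∀ (u v : V) (h : ¬ (s(u, v) : Sym2 V).IsDiag),
        (⟨s(u, v), h⟩ : Edge V) ∈ M → 0 < x u v) ∧
      ∑ M, p M = 1 ∧
      ∀ (u v : V) (h : ¬ (s(u, v) : Sym2 V).IsDiag),
        ∑ M, (if (⟨s(u, v), h⟩ : Edge V) ∈ M then p M else 0) = x u v := by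
  classical
  obtain ⟨z, a, hz⟩ := QAvg_exists hE
  obtain ⟨η, hη, hη2, hη3⟩ := QPos_eta x
  have h0 : ∀ u v, 0 ≤ (1 + η) * x u v - η * z u v := by
    intro u v
    rcases (hE.nonneg u v).eq_or_lt with h | h
    · rw [← h, hz.zx u v h.symm]
      simp
    · have h1 := hη3 u v h
      have h2 : η * z u v ≤ η * 1 := mul_le_mul_of_nonneg_left (hz.z1 u v) hη.le
      have h3 : 0 ≤ η * x u v := mul_nonneg hη.le h.le
      rw [add_mul, one_mul]
      linarith
  have hs : ∀ u v, (1 + η) * x u v - η * z u v = (1 + η) * x v u - η * z v u := by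
    intro u v
    rw [hE.symm u v, hz.symm u v]
  have hdi : ∀ v, (1 + η) * x v v - η * z v v = 0 := by
    intro v
    rw [hE.diag, hz.diag]
    simp
  have hdeg : ∀ v, ∑ u, ((1 + η) * x v u - η * z v u) = 1 := by
    intro v
    rw [Finset.sum_sub_distrib, ← Finset.mul_sum, ← Finset.mul_sum, hE.deg, hz.deg]
    ring
  have hE' : Edm (fun u v => (1 + η) * x u v - η * z u v) :=
    { nonneg := h0
      symm := hs
      diag := hdi
      deg := hdeg
      odd := fun W hW => QPos_odd hE R hR2 hR hcut hη hη2 hz.z1 hz.zx hz.deg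
        (fun _ _ => rfl) h0 hs hdi hdeg W hW }
  obtain ⟨P, hP0, hP1, hP2, hP3, hP4⟩ := edmonds_sets hE'
  have h1η : 0 < 1 + η := by linarith
  refine ⟨fun M => (P M + η * a M) / (1 + η), ?_, ?_, ?_, ?_⟩
  · intro M h1 h2
    have h3 : 0 < a M := hz.pos M h1 fun u v h => h2 u v h.1 h.2
    have h4 : 0 < η * a M := mul_pos hη h3
    exact div_pos (by linarith [hP0 M]) h1η
  · intro M h
    by_cases h1 : a M = 0
    · have h2 : P M ≠ 0 := by
        intro h2
        apply h
        simp only [h1, h2]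
        simp
      refine ⟨hP1 M h2, fun u v h3 h4 => ?_⟩
      refine lt_of_le_of_ne (hE.nonneg u v) ?_
      intro h5
      apply hP3 M h2 u v h3 h4
      rw [← h5, hz.zx u v h5.symm]
      simp
    · have h2 := hz.supp M h1
      exact ⟨h2.1, fun u v h3 h4 => h2.2 u v ⟨h3, h4⟩⟩
  · rw [← Finset.sum_div, Finset.sum_add_distrib, ← Finset.mul_sum, hP2, hz.one, mul_one,
      div_self h1η.ne']
  · intro u v h
    have h1 : ∀ M : Finset (Edge V),
        (if (⟨s(u, v), h⟩ : Edge V) ∈ M then (P M + η * a M) / (1 + η) else 0) =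
          ((if (⟨s(u, v), h⟩ : Edge V) ∈ M then P M else 0) +
            η * (if (⟨s(u, v), h⟩ : Edge V) ∈ M then a M else 0)) / (1 + η) := by
      intro M
      split_ifs
      · rfl
      · simp
    simp only [h1]
    rw [← Finset.sum_div, Finset.sum_add_distrib, ← Finset.mul_sum, hP4 u v h, hz.eq u v h,
      sub_add_cancel, mul_div_cancel_left₀ _ h1η.ne']

end Pool.Agent.Lib.LT
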