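import Pool.Agent.Lib.MP_6d56f7_co_LT.QDefs

/-!
# Rigidity of the perfect matchings
-/

set_option autoImplicit false

namespace Pool.Agent.Lib.LT

open Finset Pool.Agent.Lib.FR

variable {V : Type} [Fintype V] [DecidableEq V]

private theorem qr_even {E : Finset (Edge V)} {X : Finset V} {M : Finset (Edge V)}
    (h : PMon E X M) : Even X.card := by
  have h1 : X = M.biUnion (fun e => e.1.toFinset) := by
    ext v
    rw [mem_biUnion]
    constructor
    · intro hv
      obtain ⟨e, ⟨he, hve⟩, -⟩ := h.cov v hv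
      exact ⟨e, he, Sym2.mem_toFinset.mpr hve⟩
    · rintro ⟨e, he, hve⟩
      exact h.ins e he v (Sym2.mem_toFinset.mp hve)
  have h2 : (M.biUnion (fun e => e.1.toFinset)).card = ∑ e ∈ M, (e.1.toFinset).card := by
    refine card_biUnion fun e he e' he' hne => ?_
    refine disjoint_left.mpr fun v hv hv' => ?_
    have hv1 := Sym2.mem_toFinset.mp hv
    have hv2 := Sym2.mem_toFinset.mp hv'
    obtain ⟨e'', -, huniq⟩ := h.cov v (h.ins e he v hv1)
    exact hne ((huniq e ⟨he, hv1⟩).trans (huniq e' ⟨he', hv2⟩).symm)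
  have h3 : ∑ e ∈ M, (e.1.toFinset).card = ∑ _e ∈ M, 2 :=
    sum_congr rfl fun e _ => Sym2.card_toFinset_of_not_isDiag e.1 e.2
  have h4 := congrArg card h1
  rw [h2, h3, sum_const, smul_eq_mul] at h4
  exact ⟨M.card, by rw [h4]; ring⟩

private theorem qr_glue {E : Finset (Edge V)} {X Y : Finset V} {M N : Finset (Edge V)}
    (h : PMon E X M) (h' : PMon E Y N) (hd : Disjoint X Y) : PMon E (X ∪ Y) (M ∪ N) := by
  rw [disjoint_left] at hd
  refine ⟨union_subset h.sub h'.sub, fun v hv => ?_, fun e he v hv => ?_⟩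
  · rcases mem_union.mp hv with hX | hY
    · obtain ⟨e, ⟨he, hve⟩, huniq⟩ := h.cov v hX
      refine ⟨e, ⟨mem_union_left _ he, hve⟩, ?_⟩
      rintro e' ⟨he', hve'⟩
      rcases mem_union.mp he' with h1 | h1
      · exact huniq e' ⟨h1, hve'⟩
      · exact absurd (h'.ins e' h1 v hve') (hd hX)
    · obtain ⟨e, ⟨he, hve⟩, huniq⟩ := h'.cov v hY
      refine ⟨e, ⟨mem_union_right _ he, hve⟩, ?_⟩
      rintro e' ⟨he', hve'⟩
      rcases mem_union.mp he' with h1 | h1
      · exact absurd hY (hd (h.ins e' h1 v hve'))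
      · exact huniq e' ⟨h1, hve'⟩
  · rcases mem_union.mp he with h1 | h1
    · exact mem_union_left _ (h.ins e h1 v hv)
    · exact mem_union_right _ (h'.ins e h1 v hv)

private theorem qr_sum {E : Finset (Edge V)} {X Y : Finset V} {M N : Finset (Edge V)}
    (h : PMon E X M) (h' : PMon E Y N) (hd : Disjoint X Y) {A : Type} [AddCommGroup A]
    (f : Edge V → A) : ∑ e ∈ M ∪ N, f e = ∑ e ∈ M, f e + ∑ e ∈ N, f e := by
  refine sum_union ?_
  rw [disjoint_left] at hd ⊢
  rintro ⟨e, he⟩ h1 h2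
  induction e using Sym2.ind with
  | _ a b =>
    exact hd (h.ins _ h1 a (Sym2.mem_mk_left a b)) (h'.ins _ h2 a (Sym2.mem_mk_left a b))

private theorem qr_union {X Y : Finset V} {u v : V} (hu : u ∈ X) (hv : v ∈ X) :
    X ∪ (Y.erase u).erase v = X ∪ Y := by
  ext x
  simp only [mem_union, mem_erase]
  constructor
  · rintro (h | ⟨-, -, h⟩)
    · exact Or.inl h
    · exact Or.inr h
  · rintro (h | h)
    · exact Or.inl h
    · by_cases h1 : x = v
      · exact Or.inl (h1 ▸ hv)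
      · by_cases h2 : x = u
        · exact Or.inl (h2 ▸ hu)
        · exact Or.inr ⟨h1, h2, h⟩

private theorem qr_final {E : Finset (Edge V)} {U : Finset V} {b : ℕ} (hR : Robust E U b)
    {A : Type} [AddCommGroup A] {f : Edge V → A}
    (hf : ∀ M M', PMon E U M → PMon E U M' → ∑ e ∈ M, f e = ∑ e ∈ M', f e)
    {Z : Finset V} (hZ : Z ⊆ U) (hc : Z.card ≤ b) {M M' : Finset (Edge V)}
    (h : PMon E Z M) (h' : PMon E Z M') : ∑ e ∈ M, f e = ∑ e ∈ M', f e := by
  obtain ⟨N, hN⟩ := hR Z hZ (qr_even h) hc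
  have hd : Disjoint Z (U \ Z) := disjoint_sdiff
  have h1 := qr_glue h hN hd
  have h2 := qr_glue h' hN hd
  rw [union_sdiff_of_subset hZ] at h1 h2
  have h3 := hf _ _ h1 h2
  rw [qr_sum h hN hd, qr_sum h' hN hd] at h3
  exact add_right_cancel h3

/-- the alternating sum of a function over a link -/
def alt {A : Type} [AddCommGroup A] (f : Edge V → A) (Me Mo : Finset (Edge V)) : A :=
  ∑ e ∈ Me, f e - ∑ e ∈ Mo, f e

private theorem qr_pair {E : Finset (Edge V)} {U : Finset V} {l : ℕ}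
    (hR : Robust E U (4 * l)) {A : Type} [AddCommGroup A] {f : Edge V → A}
    (hf : ∀ M M', PMon E U M → PMon E U M' → ∑ e ∈ M, f e = ∑ e ∈ M', f e)
    {u v : V} {X X' : Finset V} {Me Mo Me' Mo' : Finset (Edge V)} (hX : X ⊆ U) (hX' : X' ⊆ U)
    (hc : X.card ≤ l) (hc' : X'.card ≤ l) (h : Link E u v X Me Mo)
    (h' : Link E u v X' Me' Mo') (hd : Disjoint X' ((X.erase u).erase v)) :
    alt f Me Mo = alt f Me' Mo' := by
  have d1 : Disjoint X ((X'.erase u).erase v) := by
    rw [disjoint_left] at hd ⊢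
    intro x hx hx'
    rw [mem_erase, mem_erase] at hx'
    exact hd hx'.2.2 (mem_erase.mpr ⟨hx'.1, mem_erase.mpr ⟨hx'.2.1, hx⟩⟩)
  have h1 := qr_glue h.even h'.odd d1
  have h2 := qr_glue h'.even h.odd hd
  rw [qr_union h.memu h.memv] at h1
  rw [qr_union h'.memu h'.memv, union_comm X' X] at h2
  have hcard : (X ∪ X').card ≤ 4 * l := (card_union_le _ _).trans (by omega)
  have h3 := qr_final hR hf (union_subset hX hX') hcard h1 h2
  rw [qr_sum h.even h'.odd d1, qr_sum h'.even h.odd hd] at h3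
  unfold alt
  rw [sub_eq_sub_iff_add_eq_add]
  exact h3

/-- the alternating sum over a link depends only on its ends -/
theorem alt_eq {E : Finset (Edge V)} {U : Finset V} {l : ℕ} (hL : Linked E U l (4 * l))
    (hR : Robust E U (4 * l)) {A : Type} [AddCommGroup A] {f : Edge V → A}
    (hf : ∀ M M', PMon E U M → PMon E U M' → ∑ e ∈ M, f e = ∑ e ∈ M', f e)
    {u v : V} {X X' : Finset V} {Me Mo Me' Mo' : Finset (Edge V)} (hX : X ⊆ U) (hX' : X' ⊆ U)
    (hc : X.card ≤ l) (hc' : X'.card ≤ l) (h : Link E u v X Me Mo)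
    (h' : Link E u v X' Me' Mo') : alt f Me Mo = alt f Me' Mo' := by
  have hY : (((X ∪ X').erase u).erase v).card ≤ 4 * l := by
    have h1 := card_union_le X X'
    have h2 := card_erase_le (s := X ∪ X') (a := u)
    have h3 := card_erase_le (s := (X ∪ X').erase u) (a := v)
    omega
  obtain ⟨X₂, Me₂, Mo₂, hX₂, hd, hc₂, h₂⟩ := hL _ hY u (hX h.memu) v (hX h.memv) h.ne
    (fun hu => by simp at hu) (fun hv => by simp at hv)
  have e1 : Disjoint X₂ ((X.erase u).erase v) :=
    disjoint_of_subset_right (erase_subset_erase _ (erase_subset_erase _ subset_union_left)) hd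
  have e2 : Disjoint X₂ ((X'.erase u).erase v) :=
    disjoint_of_subset_right (erase_subset_erase _ (erase_subset_erase _ subset_union_right)) hd
  exact (qr_pair hR hf hX hX₂ hc hc₂ h h₂ e1).trans
    (qr_pair hR hf hX' hX₂ hc' hc₂ h' h₂ e2).symm

/-- the alternating sums around four vertices -/
theorem alt_four {E : Finset (Edge V)} {U : Finset V} {l : ℕ} (hL : Linked E U l (4 * l))
    (hR : Robust E U (4 * l)) {A : Type} [AddCommGroup A] {f : Edge V → A}
    (hf : ∀ M M', PMon E U M → PMon E U M' → ∑ e ∈ M, f e = ∑ e ∈ M', f e)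
    (S : V → V → A) (hS : ∀ u v X Me Mo, X ⊆ U → X.card ≤ l → Link E u v X Me Mo →
      S u v = alt f Me Mo) {a b c d : V} (ha : a ∈ U) (hb : b ∈ U) (hc : c ∈ U) (hd : d ∈ U)
    (hab : a ≠ b) (hac : a ≠ c) (had : a ≠ d) (hbc : b ≠ c) (hbd : b ≠ d) (hcd : c ≠ d) :
    S a b - S b c + S c d - S d a = 0 := by
  have hl : 2 ≤ l := by
    obtain ⟨X, Me, Mo, -, -, hcX, h⟩ := hL ∅ (by simp) a ha b hb hab (by simp) (by simp)
    have h1 : ({a, b} : Finset V) ⊆ X := by
      intro x hx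
      rw [mem_insert, mem_singleton] at hx
      rcases hx with rfl | rfl
      · exact h.memu
      · exact h.memv
    have h2 := card_le_card h1
    rw [card_pair hab] at h2
    omega
  -- the four links
  obtain ⟨X1, Me1, Mo1, hU1, hd1, hc1, h1⟩ := hL {c, d} ((card_le_two).trans (by omega))
    a ha b hb hab (by simp [hac, had]) (by simp [hbc, hbd])
  rw [disjoint_right] at hd1
  have c1 : c ∉ X1 := hd1 (by simp)
  have d1 : d ∉ X1 := hd1 (by simp)
  obtain ⟨X2, Me2, Mo2, hU2, hd2, hc2, h2⟩ := hL (insert d (X1.erase b))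
    ((card_insert_le _ _).trans (by
      have := card_erase_le (s := X1) (a := b)
      omega)) b hb c hc hbc
    (by simp [hbd]) (by simp [hcd, c1])
  rw [disjoint_right] at hd2
  have d2 : d ∉ X2 := hd2 (mem_insert_self _ _)
  have i12 : ∀ x ∈ X1, x ∈ X2 → x = b := by
    intro x hx hx2
    by_contra hne
    exact hd2 (mem_insert_of_mem (mem_erase.mpr ⟨hne, hx⟩)) hx2
  have a2 : a ∉ X2 := fun h => hab (i12 a h1.memu h)
  obtain ⟨X3, Me3, Mo3, hU3, hd3, hc3, h3⟩ := hL ((X1 ∪ X2).erase c)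
    (card_erase_le.trans ((card_union_le _ _).trans (by omega))) c hc d hd hcd
    (by simp) (by simp [d1, d2])
  rw [disjoint_right] at hd3
  have i13 : ∀ x ∈ X1, x ∉ X3 := by
    intro x hx hx3
    by_cases hxc : x = c
    · exact c1 (hxc ▸ hx)
    · exact hd3 (mem_erase.mpr ⟨hxc, mem_union_left _ hx⟩) hx3
  have i23 : ∀ x ∈ X2, x ∈ X3 → x = c := by
    intro x hx hx3
    by_contra hne
    exact hd3 (mem_erase.mpr ⟨hne, mem_union_right _ hx⟩) hx3
  obtain ⟨X4, Me4, Mo4, hU4, hd4, hc4, h4⟩ := hL ((((X1 ∪ X2) ∪ X3).erase d).erase a)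
    (card_erase_le.trans (card_erase_le.trans ((card_union_le _ _).trans (by
      have := card_union_le X1 X2
      omega)))) d hd a ha (Ne.symm had) (by simp) (by simp)
  rw [disjoint_right] at hd4
  have i4 : ∀ x, x ∈ (X1 ∪ X2) ∪ X3 → x ∈ X4 → x = a ∨ x = d := by
    intro x hx hx4
    by_contra hne
    push Not at hne
    exact hd4 (mem_erase.mpr ⟨hne.1, mem_erase.mpr ⟨hne.2, hx⟩⟩) hx4
  have a3 : a ∉ X3 := i13 a h1.memu
  have i14 : ∀ x ∈ X1, x ∈ X4 → x = a := by
    intro x hx hx4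
    rcases i4 x (mem_union_left _ (mem_union_left _ hx)) hx4 with h | h
    · exact h
    · exact absurd (h ▸ hx) d1
  have i24 : ∀ x ∈ X2, x ∉ X4 := by
    intro x hx hx4
    rcases i4 x (mem_union_left _ (mem_union_right _ hx)) hx4 with h | h
    · exact a2 (h ▸ hx)
    · exact d2 (h ▸ hx)
  have i34 : ∀ x ∈ X3, x ∈ X4 → x = d := by
    intro x hx hx4
    rcases i4 x (mem_union_right _ hx) hx4 with h | h
    · exact absurd (h ▸ hx) a3
    · exact h
  -- the first perfect matching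
  have e1 : Disjoint X1 X3 := disjoint_left.mpr fun x hx => i13 x hx
  have e2 : Disjoint (X1 ∪ X3) ((X2.erase b).erase c) := by
    rw [disjoint_left]
    intro x hx hx2
    rw [mem_erase, mem_erase] at hx2
    rcases mem_union.mp hx with h | h
    · exact hx2.2.1 (i12 x h hx2.2.2)
    · exact hx2.1 (i23 x hx2.2.2 h)
  have e3 : Disjoint (X1 ∪ X3 ∪ (X2.erase b).erase c) ((X4.erase d).erase a) := by
    rw [qr_union (mem_union_left _ h1.memv) (mem_union_right _ h3.memu), disjoint_left]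
    intro x hx hx4
    rw [mem_erase, mem_erase] at hx4
    rcases mem_union.mp hx with h | h
    · rcases mem_union.mp h with h | h
      · exact hx4.1 (i14 x h hx4.2.2)
      · exact hx4.2.1 (i34 x h hx4.2.2)
    · exact i24 x h hx4.2.2
  have p1 := qr_glue h1.even h3.even e1
  have p2 := qr_glue p1 h2.odd e2
  have p3 := qr_glue p2 h4.odd e3
  have s1 : ∑ e ∈ Me1 ∪ Me3 ∪ Mo2 ∪ Mo4, f e =
      ∑ e ∈ Me1, f e + ∑ e ∈ Me3, f e + ∑ e ∈ Mo2, f e + ∑ e ∈ Mo4, f e := by
    rw [qr_sum p2 h4.odd e3, qr_sum p1 h2.odd e2, qr_sum h1.even h3.even e1]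
  -- the second perfect matching
  have k1 : Disjoint X2 X4 := disjoint_left.mpr fun x hx => i24 x hx
  have k2 : Disjoint (X2 ∪ X4) ((X1.erase a).erase b) := by
    rw [disjoint_left]
    intro x hx hx1
    rw [mem_erase, mem_erase] at hx1
    rcases mem_union.mp hx with h | h
    · exact hx1.1 (i12 x hx1.2.2 h)
    · exact hx1.2.1 (i14 x hx1.2.2 h)
  have k3 : Disjoint (X2 ∪ X4 ∪ (X1.erase a).erase b) ((X3.erase c).erase d) := by
    rw [qr_union (mem_union_right _ h4.memv) (mem_union_left _ h2.memu), disjoint_left]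
    intro x hx hx3
    rw [mem_erase, mem_erase] at hx3
    rcases mem_union.mp hx with h | h
    · rcases mem_union.mp h with h | h
      · exact hx3.2.1 (i23 x h hx3.2.2)
      · exact hx3.1 (i34 x hx3.2.2 h)
    · exact i13 x h hx3.2.2
  have q1 := qr_glue h2.even h4.even k1
  have q2 := qr_glue q1 h1.odd k2
  have q3 := qr_glue q2 h3.odd k3
  have s2 : ∑ e ∈ Me2 ∪ Me4 ∪ Mo1 ∪ Mo3, f e =
      ∑ e ∈ Me2, f e + ∑ e ∈ Me4, f e + ∑ e ∈ Mo1, f e + ∑ e ∈ Mo3, f e := by
    rw [qr_sum q2 h3.odd k3, qr_sum q1 h1.odd k2, qr_sum h2.even h4.even k1]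
  -- comparison
  rw [qr_union (mem_union_left _ h1.memv) (mem_union_right _ h3.memu),
    qr_union (mem_union_left _ (mem_union_right _ h3.memv))
      (mem_union_left _ (mem_union_left _ h1.memu))] at p3
  rw [qr_union (mem_union_right _ h4.memv) (mem_union_left _ h2.memu),
    qr_union (mem_union_left _ (mem_union_left _ h2.memv))
      (mem_union_left _ (mem_union_right _ h4.memu))] at q3
  have hZ : X2 ∪ X4 ∪ X1 ∪ X3 = X1 ∪ X3 ∪ X2 ∪ X4 := by
    ext x
    simp only [mem_union]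
    tauto
  rw [hZ] at q3
  have hZU : X1 ∪ X3 ∪ X2 ∪ X4 ⊆ U :=
    union_subset (union_subset (union_subset hU1 hU3) hU2) hU4
  have hZc : (X1 ∪ X3 ∪ X2 ∪ X4).card ≤ 4 * l := by
    have g1 := card_union_le (X1 ∪ X3 ∪ X2) X4
    have g2 := card_union_le (X1 ∪ X3) X2
    have g3 := card_union_le X1 X3
    omega
  have key := qr_final hR hf hZU hZc p3 q3
  rw [s1, s2] at key
  rw [hS a b X1 Me1 Mo1 hU1 hc1 h1, hS b c X2 Me2 Mo2 hU2 hc2 h2,
    hS c d X3 Me3 Mo3 hU3 hc3 h3, hS d a X4 Me4 Mo4 hU4 hc4 h4]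
  unfold alt
  have key2 := sub_eq_zero.mpr key
  rw [← key2]
  abel

end Pool.Agent.Lib.LT
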