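import Mathlib

/-!
# Rational specialisations of positive reals
-/

set_option autoImplicit false

namespace Pool.Agent.Lib.LT

open Finset

/-- finitely many positive reals have positive images under some rational linear functional which
maps one to one -/
theorem rat_functional {ι : Type} [Fintype ι] (x : ι → ℝ) :
    ∃ φ : ℝ →ₗ[ℚ] ℚ, φ 1 = 1 ∧ ∀ i, 0 < x i → 0 < φ (x i) := by
  classical
  let y : Option ι → ℝ := fun o => o.elim 1 x
  let V : Submodule ℚ ℝ := Submodule.span ℚ (Set.range y)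
  have hfd : FiniteDimensional ℚ V := FiniteDimensional.span_of_finite ℚ (Set.finite_range y)
  let b := Module.finBasis ℚ V
  have hmem : ∀ o, y o ∈ V := fun o => Submodule.subset_span ⟨o, rfl⟩
  let c : Option ι → Fin (Module.finrank ℚ V) → ℚ := fun o j => b.repr ⟨y o, hmem o⟩ j
  have hc : ∀ o, y o = ∑ j, (c o j : ℝ) * ((b j : V) : ℝ) := by
    intro o
    have h1 := b.sum_repr ⟨y o, hmem o⟩
    have h2 := congrArg (fun v : V => (v : ℝ)) h1
    simp only [Submodule.coe_sum, Submodule.coe_smul] at h2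
    rw [← h2]
    refine Finset.sum_congr rfl fun j _ => ?_
    rw [Rat.smul_def]
  let U : Set (Fin (Module.finrank ℚ V) → ℝ) :=
    ⋂ o : Option ι, {r | 0 < y o → 0 < ∑ j, (c o j : ℝ) * r j}
  have hUo : IsOpen U := by
    refine isOpen_iInter_of_finite fun o => ?_
    by_cases ho : 0 < y o
    · have : {r : Fin (Module.finrank ℚ V) → ℝ | 0 < y o → 0 < ∑ j, (c o j : ℝ) * r j} =
          {r | 0 < ∑ j, (c o j : ℝ) * r j} := by
        ext r; simp [ho]
      rw [this]
      exact isOpen_lt continuous_const (by fun_prop)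
    · have : {r : Fin (Module.finrank ℚ V) → ℝ | 0 < y o → 0 < ∑ j, (c o j : ℝ) * r j} =
          Set.univ := by
        ext r; simp [ho]
      rw [this]
      exact isOpen_univ
  have hUn : U.Nonempty := by
    refine ⟨fun j => ((b j : V) : ℝ), ?_⟩
    refine Set.mem_iInter.2 fun o ho => ?_
    rw [← hc o]
    exact ho
  have hd : DenseRange (Pi.map (fun (_ : Fin (Module.finrank ℚ V)) (q : ℚ) => (q : ℝ))) :=
    DenseRange.piMap fun _ => Rat.denseRange_cast
  obtain ⟨q, hq⟩ := hd.exists_mem_open hUo hUn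
  let ψ : V →ₗ[ℚ] ℚ := b.constr ℚ q
  have hψ : ∀ o, (ψ ⟨y o, hmem o⟩ : ℚ) = ∑ j, c o j * q j := by
    intro o
    change b.constr ℚ q ⟨y o, hmem o⟩ = _
    rw [Module.Basis.constr_apply_fintype]
    refine Finset.sum_congr rfl fun j _ => ?_
    rw [smul_eq_mul]
    rfl
  have hpos : ∀ o, 0 < y o → 0 < ψ ⟨y o, hmem o⟩ := by
    intro o ho
    have h1 := Set.mem_iInter.1 hq o ho
    rw [hψ]
    have h2 : ((∑ j, c o j * q j : ℚ) : ℝ) = ∑ j, (c o j : ℝ) *
        (Pi.map (fun (_ : Fin (Module.finrank ℚ V)) (q : ℚ) => (q : ℝ)) q j) := by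
      push_cast
      rfl
    have h3 : (0 : ℝ) < ((∑ j, c o j * q j : ℚ) : ℝ) := by
      rw [h2]; exact h1
    exact_mod_cast h3
  obtain ⟨φ₀, hφ₀⟩ := LinearMap.exists_extend ψ
  have hφ : ∀ o, φ₀ (y o) = ψ ⟨y o, hmem o⟩ := by
    intro o
    rw [← hφ₀]
    rfl
  have h1 : 0 < φ₀ 1 := by
    have h := hpos none one_pos
    rw [← hφ none] at h
    exact h
  refine ⟨(φ₀ 1)⁻¹ • φ₀, ?_, fun i hi => ?_⟩
  · rw [LinearMap.smul_apply, smul_eq_mul, inv_mul_cancel₀ h1.ne']
  · rw [LinearMap.smul_apply, smul_eq_mul]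
    have h := hpos (some i) hi
    rw [← hφ (some i)] at h
    exact mul_pos (inv_pos.2 h1) h

end Pool.Agent.Lib.LT
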