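import Pool.Agent.Lib.MP_6d56f7_co_LT.DetB
import Pool.Agent.Lib.MP_6d56f7_co_LT.Minor
import Pool.Agent.Lib.MP_6d56f7_co_LT.Idx

/-!
# A rational basis of small index
-/

set_option autoImplicit false

namespace Pool.Agent.Lib.LT

open Finset

/-- a family of independent vectors such that every vector of `L` has a multiple in its span -/
private theorem rel_max {ι E : Type} [Fintype E] [DecidableEq ι] (x : ι → E → ℤ) (L : Finset ι) :
    ∃ B ⊆ L, LinearIndependent ℤ (fun i : {i // i ∈ B} => x i) ∧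
      ∀ i ∈ L, ∃ a : ℤ, a ≠ 0 ∧ a • x i ∈ AddSubgroup.closure (x '' (B : Set ι)) := by
  obtain ⟨s, hs, hmax⟩ := exists_maximal_linearIndepOn ℤ (fun i : {i // i ∈ L} => x i)
  classical
  let B : Finset ι := (Finset.univ.filter (fun i : {i // i ∈ L} => i ∈ s)).map
    (Function.Embedding.subtype _)
  have hB : ∀ i, i ∈ B ↔ ∃ h : i ∈ L, (⟨i, h⟩ : {i // i ∈ L}) ∈ s := by
    intro i
    simp [B]
  have hBL : B ⊆ L := fun i hi => ((hB i).1 hi).1
  refine ⟨B, hBL, ?_, ?_⟩
  · have h1 : LinearIndependent ℤ (fun i : s => x i.1) := hs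
    have := h1.comp (fun i : {i // i ∈ B} => (⟨⟨i, hBL i.2⟩, ((hB i).1 i.2).2⟩ : s)) (by
      intro i j hij
      have := congrArg (fun t : s => (t.1.1 : ι)) hij
      exact Subtype.ext this)
    exact this
  · intro i hi
    by_cases his : (⟨i, hi⟩ : {i // i ∈ L}) ∈ s
    · refine ⟨1, one_ne_zero, ?_⟩
      rw [one_smul]
      exact AddSubgroup.subset_closure ⟨i, (hB i).2 ⟨hi, his⟩, rfl⟩
    · obtain ⟨a, ha, h⟩ := hmax _ his
      refine ⟨a, ha, ?_⟩
      rw [← Submodule.span_int_eq_addSubgroupClosure]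
      refine Submodule.span_mono ?_ h
      rintro _ ⟨j, hj, rfl⟩
      exact ⟨j, (hB j).2 ⟨j.2, hj⟩, rfl⟩

/-- every element of the subgroup generated by `L` has a nonzero multiple in the subgroup
generated by `B` -/
private theorem rel_mult {ι E : Type} (x : ι → E → ℤ) (B L : Finset ι)
    (h : ∀ i ∈ L, ∃ a : ℤ, a ≠ 0 ∧ a • x i ∈ AddSubgroup.closure (x '' (B : Set ι)))
    {y : E → ℤ} (hy : y ∈ AddSubgroup.closure (x '' (L : Set ι))) :
    ∃ a : ℤ, a ≠ 0 ∧ a • y ∈ AddSubgroup.closure (x '' (B : Set ι)) := by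
  induction hy using AddSubgroup.closure_induction with
  | mem y hy =>
    obtain ⟨i, hi, rfl⟩ := hy
    exact h i hi
  | zero => exact ⟨1, one_ne_zero, by rw [smul_zero]; exact AddSubgroup.zero_mem _⟩
  | add y z _ _ hy hz =>
    obtain ⟨a, ha, h1⟩ := hy
    obtain ⟨b, hb, h2⟩ := hz
    refine ⟨a * b, mul_ne_zero ha hb, ?_⟩
    rw [smul_add, mul_smul a b z, mul_comm a b, mul_smul b a y]
    exact AddSubgroup.add_mem _ (AddSubgroup.zsmul_mem _ h1 _) (AddSubgroup.zsmul_mem _ h2 _)
  | neg y _ hy =>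
    obtain ⟨a, ha, h1⟩ := hy
    refine ⟨a, ha, ?_⟩
    rw [smul_neg]
    exact AddSubgroup.neg_mem _ h1

/-- a finite family of integer vectors with absolute sums at most three contains at most
`card E` vectors which generate a subgroup of small index -/
theorem rel_index {ι E : Type} [Fintype E] [DecidableEq E] [DecidableEq ι] (x : ι → E → ℤ)
    (hx : ∀ i, ∑ e, |x i e| ≤ 3) (L : Finset ι) :
    ∃ B ⊆ L, B.card ≤ Fintype.card E ∧
      (AddSubgroup.closure (x '' (B : Set ι))).relIndex
        (AddSubgroup.closure (x '' (L : Set ι))) ≠ 0 ∧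
      (AddSubgroup.closure (x '' (B : Set ι))).relIndex
        (AddSubgroup.closure (x '' (L : Set ι))) ≤ 3 ^ Fintype.card E := by
  obtain ⟨B, hBL, hli, hmul⟩ := rel_max x L
  have hcard : B.card ≤ Fintype.card E := by
    have := hli.fintype_card_le_finrank
    simpa using this
  -- enumerate `B`
  have hv : LinearIndependent ℤ (fun j : Fin B.card => x (B.equivFin.symm j)) :=
    hli.comp _ B.equivFin.symm.injective
  obtain ⟨r, hr, hdet⟩ := exists_minor _ hv
  let M : Matrix (Fin B.card) (Fin B.card) ℤ :=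
    Matrix.of fun i j => x (B.equivFin.symm i) (r j)
  have hM3 : ∀ i, ∑ j, |M i j| ≤ 3 := by
    intro i
    refine le_trans ?_ (hx (B.equivFin.symm i))
    have : ∑ j, |M i j| = ∑ e ∈ Finset.univ.image r, |x (B.equivFin.symm i) e| := by
      rw [Finset.sum_image (fun a _ b _ h => hr h)]
      rfl
    rw [this]
    exact Finset.sum_le_sum_of_subset_of_nonneg (Finset.subset_univ _)
      (fun _ _ _ => abs_nonneg _)
  have hdet3 : M.det.natAbs ≤ 3 ^ Fintype.card E := by
    have h1 := det_bound M hM3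
    have h2 : (M.det.natAbs : ℤ) ≤ 3 ^ B.card := by
      rw [Int.natCast_natAbs]
      exact h1
    have h3 : M.det.natAbs ≤ 3 ^ B.card := by exact_mod_cast h2
    exact h3.trans (Nat.pow_le_pow_right (by norm_num) hcard)
  have hdet0 : M.det ≠ 0 := hdet
  -- the projection
  let π : (E → ℤ) →+ (Fin B.card → ℤ) := (LinearMap.funLeft ℤ ℤ r).toAddMonoidHom
  have hπ : ∀ y j, π y j = y (r j) := fun y j => rfl
  have hHM : (AddSubgroup.closure (x '' (B : Set ι))).map π =
      AddSubgroup.closure (Set.range fun i => M i) := by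
    rw [AddMonoidHom.map_closure]
    congr 1
    ext y
    constructor
    · rintro ⟨_, ⟨i, hi, rfl⟩, rfl⟩
      refine ⟨B.equivFin ⟨i, hi⟩, ?_⟩
      funext j
      show x (B.equivFin.symm (B.equivFin ⟨i, hi⟩)) (r j) = _
      rw [Equiv.symm_apply_apply]
      rfl
    · rintro ⟨i, rfl⟩
      exact ⟨_, ⟨_, (B.equivFin.symm i).2, rfl⟩, rfl⟩
  have hidx := index_rows M hdet0
  rw [← hHM] at hidx
  -- the projection is injective on the subgroup generated by `B`
  have hinjB : ∀ y ∈ AddSubgroup.closure (x '' (B : Set ι)), π y = 0 → y = 0 := by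
    intro y hy hy0
    have hy' : y ∈ Submodule.span ℤ (Set.range fun j : Fin B.card =>
        x (B.equivFin.symm j)) := by
      rw [← Submodule.span_int_eq_addSubgroupClosure] at hy
      refine Submodule.span_mono ?_ hy
      rintro _ ⟨i, hi, rfl⟩
      exact ⟨B.equivFin ⟨i, hi⟩, by simp⟩
    obtain ⟨c, hc⟩ := (Submodule.mem_span_range_iff_exists_fun ℤ).1 hy'
    have h1 : Matrix.vecMul c M = 0 := by
      funext j
      have h2 := congrFun hy0 j
      rw [hπ, ← hc] at h2
      simp only [Finset.sum_apply, Pi.smul_apply, smul_eq_mul, Pi.zero_apply] at h2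
      simpa [Matrix.vecMul, dotProduct, M] using h2
    have h3 : c = 0 := by
      by_contra hne
      exact hdet0 (Matrix.exists_vecMul_eq_zero_iff.1 ⟨c, hne, h1⟩)
    rw [← hc, h3]
    simp
  have hinjL : ∀ y ∈ AddSubgroup.closure (x '' (L : Set ι)), π y = 0 → y = 0 := by
    intro y hy hy0
    obtain ⟨a, ha, h⟩ := rel_mult x B L hmul hy
    have h1 := hinjB _ h (by rw [map_zsmul, hy0, smul_zero])
    exact (smul_eq_zero.1 h1).resolve_left ha
  have hBL' : AddSubgroup.closure (x '' (B : Set ι)) ≤ AddSubgroup.closure (x '' (L : Set ι)) :=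
    AddSubgroup.closure_mono (Set.image_mono (Finset.coe_subset.2 hBL))
  have hrel : (AddSubgroup.closure (x '' (B : Set ι))).relIndex
      (AddSubgroup.closure (x '' (L : Set ι))) =
      ((AddSubgroup.closure (x '' (B : Set ι))).map π).relIndex
        ((AddSubgroup.closure (x '' (L : Set ι))).map π) := by
    rw [← AddSubgroup.relIndex_comap, ← AddSubgroup.inf_relIndex_right
      (AddSubgroup.comap π _)]
    congr 1
    ext y
    rw [AddSubgroup.mem_inf, AddSubgroup.mem_comap]
    constructor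
    · intro hy
      exact ⟨⟨y, hy, rfl⟩, hBL' hy⟩
    · rintro ⟨⟨z, hz, hzy⟩, hy⟩
      have h1 := hinjL (z - y) (AddSubgroup.sub_mem _ (hBL' hz) hy) (by
        rw [map_sub, hzy, sub_self])
      rw [sub_eq_zero] at h1
      rw [← h1]
      exact hz
  have hdvd : (AddSubgroup.closure (x '' (B : Set ι))).relIndex
      (AddSubgroup.closure (x '' (L : Set ι))) ∣ M.det.natAbs := by
    rw [hrel, ← hidx]
    exact AddSubgroup.relIndex_dvd_index_of_normal _ _
  have hne : M.det.natAbs ≠ 0 := Int.natAbs_ne_zero.2 hdet0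
  refine ⟨B, hBL, hcard, ?_, ?_⟩
  · intro h0
    rw [h0, zero_dvd_iff] at hdvd
    exact hne hdvd
  · exact (Nat.le_of_dvd (Nat.pos_of_ne_zero hne) hdvd).trans hdet3

end Pool.Agent.Lib.LT
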