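import Pool.Agent.Lib.MP_6d56f7_co_LT.Defs

/-!
# Stability, one colour
-/

set_option autoImplicit false

namespace Pool.Agent.Lib.LT

open Finset Pool.Agent.Lib.FR

variable {n : ℕ} {A : Type} [AddCommGroup A]

/-- if `h u + h v = 0` for almost all pairs, then `h` is almost constant, and the constant is its
own inverse -/
theorem stab_colour (hn : 10 ≤ n) (h : Fin (2 * n) → A) :
    ∃ ζ : A, ζ + ζ = 0 ∧ (n * cnt (fun v => h v ≠ ζ) ≤
      5 * cnt (fun p : Fin (2 * n) × Fin (2 * n) => p.1 ≠ p.2 ∧ h p.1 + h p.2 ≠ 0) + n) := by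
  classical
  rw [cnt_eq (fun p : Fin (2 * n) × Fin (2 * n) => p.1 ≠ p.2 ∧ h p.1 + h p.2 ≠ 0)]
  set B := univ.filter (fun p : Fin (2 * n) × Fin (2 * n) => p.1 ≠ p.2 ∧ h p.1 + h p.2 ≠ 0)
    with hB
  have hsum : B.card = ∑ u, (univ.filter (fun v => u ≠ v ∧ h u + h v ≠ 0)).card := by
    rw [hB, card_filter, Fintype.sum_prod_type]
    refine sum_congr rfl (fun u _ => ?_)
    rw [card_filter]
  have hne : (univ : Finset (Fin (2 * n))).Nonempty := ⟨⟨0, by omega⟩, mem_univ _⟩
  obtain ⟨u0, hu0⟩ : ∃ u0 : Fin (2 * n),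
      2 * n * (univ.filter (fun v => u0 ≠ v ∧ h u0 + h v ≠ 0)).card ≤ B.card := by
    by_contra hcon
    push Not at hcon
    have h1 := sum_lt_sum_of_nonempty hne (fun u (_ : u ∈ univ) => hcon u)
    rw [← mul_sum, ← hsum, sum_const, card_univ, Fintype.card_fin, smul_eq_mul] at h1
    exact lt_irrefl _ h1
  set X := univ.filter (fun v => h v ≠ -h u0) with hX
  have hXc : X.card ≤ (univ.filter (fun v => u0 ≠ v ∧ h u0 + h v ≠ 0)).card + 1 := by
    refine le_trans (card_le_card (t := insert u0
      (univ.filter (fun v => u0 ≠ v ∧ h u0 + h v ≠ 0))) ?_) (card_insert_le _ _)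
    intro v hv
    rw [hX, mem_filter] at hv
    rw [mem_insert, mem_filter]
    by_cases e : v = u0
    · exact Or.inl e
    · refine Or.inr ⟨mem_univ _, fun e' => e e'.symm, fun e' => hv.2 ?_⟩
      rw [eq_neg_iff_add_eq_zero, add_comm]
      exact e'
  have hXB : 2 * n * X.card ≤ B.card + 2 * n := by
    have := Nat.mul_le_mul_left (2 * n) hXc
    rw [mul_add, mul_one] at this
    omega
  by_cases hz : -h u0 + -h u0 = 0
  · refine ⟨-h u0, hz, ?_⟩
    rw [cnt_eq]
    have e : (univ.filter (fun v => h v ≠ -h u0)).card = X.card := rfl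
    rw [e]
    nlinarith
  · refine ⟨0, add_zero _, ?_⟩
    rw [cnt_eq]
    have hle : (univ.filter (fun v => h v ≠ 0)).card ≤ 2 * n := by
      refine le_trans (card_le_univ _) ?_
      rw [Fintype.card_fin]
    have hoff : (Xᶜ.offDiag).card ≤ B.card := by
      refine card_le_card (fun p hp => ?_)
      rw [mem_offDiag, mem_compl, mem_compl, hX, mem_filter, mem_filter] at hp
      rw [hB, mem_filter]
      refine ⟨mem_univ _, hp.2.2, fun e => hz ?_⟩
      have h1 : h p.1 = -h u0 := by
        by_contra e1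
        exact hp.1 ⟨mem_univ _, e1⟩
      have h2 : h p.2 = -h u0 := by
        by_contra e1
        exact hp.2.1 ⟨mem_univ _, e1⟩
      rw [h1, h2] at e
      exact e
    rw [offDiag_card] at hoff
    have hc : Xᶜ.card + X.card = 2 * n := by
      rw [add_comm, card_add_card_compl, Fintype.card_fin]
    have hmul := Nat.mul_le_mul_left n hle
    by_contra hcon
    push Not at hcon
    generalize B.card = b at *
    generalize X.card = x at *
    generalize Xᶜ.card = m at *
    have h3 : 5 * b + n < n * (2 * n) := lt_of_lt_of_le hcon hmul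
    have h4 : m * m ≤ b + m := by omega
    have h5 : 10 * x < 2 * n + 9 := by
      by_contra h6
      push Not at h6
      nlinarith
    nlinarith
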