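import Pool.Agent.Lib.MP_6d56f7_co_FR.ListP
import Pool.Agent.Lib.MP_6d56f7_co_LT.HitT

/-!
# Integer weights: the sharp threshold
-/

set_option autoImplicit false

namespace Pool.Agent.Lib.LT

open Finset Filter Topology Pool.Agent.Lib.FR

/-- a random list assignment is the large system of the model with three states -/
theorem listProb_eq' (n : ℕ) (p₀ p : ℝ)
    (Q : (Edge (Fin (2 * n)) → Finset (Fin (2 * n - 1))) → Prop) :
    listProb n p Q = Pr (qq p₀ p) (fun s : J n → Fin 3 =>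
      Q (fun e => univ.filter (fun c => s (c, e) ≠ 0))) := by
  classical
  rw [listProb_eq, Pr_eq, Pr_eq]
  have h1 := Ex_map (I := J n) (qq p p) (fun a : Fin 3 => decide (a ≠ 0))
    (fun t : J n → Bool => if Q (fun e => univ.filter (fun c => t (c, e) = true)) then (1 : ℝ)
      else 0)
  have h2 := Ex_map (I := J n) (qq p₀ p) (fun a : Fin 3 => decide (a ≠ 0))
    (fun t : J n → Bool => if Q (fun e => univ.filter (fun c => t (c, e) = true)) then (1 : ℝ)
      else 0)
  simp only [decide_eq_true_eq] at h1 h2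
  rw [h1, h2]
  congr 1
  funext b
  cases b <;> simp [Fin.sum_univ_three, qq]

/-- above the threshold -/
theorem above {ε : ℝ} (hε : 0 < ε) (κ : ℝ) (hκ : 0 < κ) :
    ∀ᶠ n : ℕ in atTop, ∀ p : ℝ, (1 + ε) * Real.log n / n ≤ p → p ≤ 1 →
      1 - κ ≤ listProb n p (fun L => IntW n (fun c e => c ∈ L e)) := by
  have hcovt : Tendsto (fun n : ℕ => 6 * (n : ℝ) ^ 2 *
      Real.exp (-((1 + ε / 4) * (2 * Real.log n)))) atTop (𝓝 0) := Asy.t7 (by positivity)
  filter_upwards [whp_good (κ / 2) (by positivity), pm_nonneg, eventually_ge_atTop (10 ^ 6),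
    hcovt.eventually (ge_mem_nhds (by positivity : (0 : ℝ) < κ / 2)),
    Asy.ev_nat ((1 + ε) / ε)] with n h1 h2 hn h3 h4 p hp hp1
  have hn6 : (10 ^ 6 : ℝ) ≤ n := by exact_mod_cast hn
  have hn0 : (0 : ℝ) < n := by linarith
  have hlog : 0 ≤ Real.log n := Real.log_nonneg (by linarith)
  have hN : (0 : ℝ) < 2 * n - 1 := by linarith
  have hpp : pm n ≤ p := by
    refine le_trans ?_ hp
    unfold pm
    rw [div_le_div_iff₀ hN hn0]
    nlinarith [mul_nonneg hlog hε.le, mul_nonneg (mul_nonneg hlog hε.le) hn0.le]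
  have hq := qq_nonneg h2 hpp hp1
  have hbad : Pr (qq (pm n) p) (fun s : J n → Fin 3 =>
      ¬ IntW n (fun c e => c ∈ (univ.filter (fun c => s (c, e) ≠ 0) : Finset _))) ≤ κ := by
    have h5 := Pr_or hq (fun s : J n → Fin 3 => ¬ Good n (sm s))
      (fun s => ∃ a : El n, ∀ j ∈ st n a, s j = 0)
    have h6 := h1 p hpp hp1
    have h7 := (cov_high (n := n) (by omega) h2 hpp hp1)
    have h8 : 6 * (n : ℝ) ^ 2 * Real.exp (-((2 * n - 1) * p)) ≤ κ / 2 := by
      refine le_trans ?_ h3
      refine mul_le_mul_of_nonneg_left (Real.exp_le_exp.mpr ?_) (by positivity)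
      rw [neg_le_neg_iff]
      have h9 : (2 * n - 1 : ℝ) * ((1 + ε) * Real.log n / n) ≤ (2 * n - 1) * p :=
        mul_le_mul_of_nonneg_left hp hN.le
      refine le_trans ?_ h9
      rw [mul_div_assoc', le_div_iff₀ hn0]
      rw [div_le_iff₀ hε] at h4
      have h10 : 0 ≤ Real.log n * (n * ε - (1 + ε)) := mul_nonneg hlog (by linarith)
      nlinarith
    refine le_trans (Pr_mono hq ?_) (h5.trans (by linarith))
    intro s hs
    by_contra hcon
    simp only [not_or, not_not] at hcon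
    obtain ⟨g1, g2⟩ := hcon
    push Not at g2
    apply hs
    let L : Finset (J n) := univ.filter (fun j => s j ≠ 0)
    have hsub : sm s ⊆ L := by
      intro j hj
      have hj2 : s j = 2 := by simpa [sm] using hj
      exact mem_filter.mpr ⟨mem_univ _, by rw [hj2]; decide⟩
    have hcov : ∀ a : El n, ∃ T ∈ L, T ∈ st n a := by
      intro a
      obtain ⟨j, hj, hj0⟩ := g2 a
      exact ⟨j, mem_filter.mpr ⟨mem_univ _, hj0⟩, hj⟩
    have hw := intW_of_lat (by omega) (lat_full hn g1 hsub hcov)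
    have he : (fun (c : Fin (2 * n - 1)) (e : Edge (Fin (2 * n))) => (c, e) ∈ L) =
        fun c e => c ∈ (univ.filter (fun c => s (c, e) ≠ 0) : Finset _) := by
      funext c e
      simp [L]
    rwa [he] at hw
  rw [listProb_eq' n (pm n) p]
  rw [Pr_not (qq_sum _ _)] at hbad
  linarith

/-- **the sharp threshold** for integer weights -/
theorem threshold :
    (∀ ε : ℝ, 0 < ε → ∀ p : ℕ → ℝ,
      (∀ᶠ n : ℕ in atTop, (1 + ε) * Real.log n / n ≤ p n ∧ p n ≤ 1) →
      Tendsto (fun n => listProb n (p n) (fun L => IntW n (fun c e => c ∈ L e))) atTop (𝓝 1)) ∧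
    (∀ ε : ℝ, 0 < ε → ∀ p : ℕ → ℝ,
      (∀ᶠ n : ℕ in atTop, 0 ≤ p n ∧ p n ≤ (1 - ε) * Real.log n / n) →
      Tendsto (fun n => listProb n (p n) (fun L =>
        ∃ w : Fin (2 * n - 1) → Edge (Fin (2 * n)) → ℤ, (∀ c e, w c e ≠ 0 → c ∈ L e) ∧
          ∀ e, ∑ c, w c e = 1)) atTop (𝓝 0)) := by
  constructor
  · intro ε hε p hp
    rw [Metric.tendsto_nhds]
    intro κ hκ
    filter_upwards [above hε (κ / 2) (by positivity), hp, eventually_ge_atTop 1] with n h1 h2 hn
    have h3 := h1 (p n) h2.1 h2.2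
    have hn0 : (1 : ℝ) ≤ n := by exact_mod_cast hn
    have hp0 : 0 ≤ p n := by
      refine le_trans ?_ h2.1
      have := Real.log_nonneg hn0
      positivity
    have h4 : listProb n (p n) (fun L => IntW n (fun c e => c ∈ L e)) ≤ 1 := by
      rw [listProb_eq]
      exact Pr_le_one (qq_nonneg hp0 le_rfl h2.2) (qq_sum _ _) _
    rw [Real.dist_eq, abs_lt]
    constructor <;> linarith
  · intro ε hε p hp
    rw [Metric.tendsto_nhds]
    intro κ hκ
    obtain ⟨n₀, hn₀⟩ := some_empty hε hκ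
    filter_upwards [hp, eventually_ge_atTop n₀, eventually_ge_atTop 1] with n h2 hn hn1
    have h3 := hn₀ n hn (p n) h2.1 h2.2
    have hn0 : (1 : ℝ) ≤ n := by exact_mod_cast hn1
    have hp1 : p n ≤ 1 := by
      refine h2.2.trans ?_
      rw [div_le_one (by linarith)]
      have h5 := Real.log_nonneg hn0
      have h6 := Real.log_le_sub_one_of_pos (x := n) (by linarith)
      nlinarith
    have hq := qq_nonneg h2.1 le_rfl hp1
    set Q : (Edge (Fin (2 * n)) → Finset (Fin (2 * n - 1))) → Prop := fun L =>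
        ∃ w : Fin (2 * n - 1) → Edge (Fin (2 * n)) → ℤ, (∀ c e, w c e ≠ 0 → c ∈ L e) ∧
          ∀ e, ∑ c, w c e = 1 with hQ
    have h4 : listProb n (p n) Q ≤ listProb n (p n) (fun L => ∀ e, (L e).Nonempty) := by
      rw [listProb_eq, listProb_eq]
      refine Pr_mono hq fun s hs e => ?_
      obtain ⟨w, hw1, hw2⟩ := hs
      have h6 : ∑ c, w c e ≠ 0 := by
        rw [hw2 e]
        exact one_ne_zero
      obtain ⟨c, _, hc⟩ := Finset.exists_ne_zero_of_sum_ne_zero h6
      exact ⟨c, hw1 c e hc⟩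
    have h5 : 0 ≤ listProb n (p n) Q := by
      rw [listProb_eq]
      exact Pr_nonneg hq _
    rw [Real.dist_eq, sub_zero, abs_of_nonneg h5]
    linarith

end Pool.Agent.Lib.LT
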