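import Pool.Agent.Lib.MP_6d56f7_co_FR.Thr
import Pool.Agent.Lib.MP_6d56f7_co_LT.ThrT
import Pool.Agent.Lib.MP_6d56f7_co_LT.KW

/-!
# Multiple colourings: the sharp threshold
-/

set_option autoImplicit false

namespace Pool.Agent.Lib.LT

open Finset Filter Topology Pool.Agent.Lib.FR

/-- a fractional colouring which is positive on all allowed pairs, and integer weights -/
theorem kf_of_good {n : ℕ} (hn : 1 ≤ n) {p a b : ℝ} (hp : 0 < p) (ha : 0 < a)
    {L : Edge (Fin (2 * n)) → Finset (Fin (2 * n - 1))} (h1 : GoodCol n p a b L)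
    (h2 : IntW n (fun c e => c ∈ L e)) : KF n (fun c e => c ∈ L e) := by
  classical
  obtain ⟨P, hP, hm⟩ := h1
  have hR : (fun (c : Fin (2 * n - 1)) (e : Edge (Fin (2 * n))) =>
      ((c, e) : J n) ∈ univ.filter (fun j : J n => j.1 ∈ L j.2)) = fun c e => c ∈ L e := by
    funext c e
    simp
  rw [← hR] at h2 ⊢
  obtain ⟨w, hw, hw1⟩ := intW_pairs h2
  have hn0 : (0 : ℝ) < n := by exact_mod_cast hn
  refine kf_of _ (fun j => marg P j.1 j.2) ?_ ?_ ?_ w hw hw1
  · intro j hj
    rw [Finset.mem_filter] at hj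
    exact lt_of_lt_of_le (by positivity) (hm j.2 j.1 hj.2).1
  · intro j hj
    rw [Finset.mem_filter] at hj
    unfold marg
    refine Finset.sum_eq_zero fun M _ => ?_
    split_ifs with he
    · by_contra h0
      exact hj ⟨Finset.mem_univ _, hP.list _ _ h0 _ he⟩
    · rfl
  · rintro (e | ⟨v, c⟩)
    · have e1 : ∀ j : J n, marg P j.1 j.2 * ((inc n j (.inl e) : ℤ) : ℝ) =
          if j.2 = e then marg P j.1 e else 0 := by
        intro j
        unfold inc
        by_cases h : j.2 = e
        · rw [if_pos (mem_st_inl.2 h), if_pos h, h, Int.cast_one, mul_one]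
        · rw [if_neg (fun h' => h (mem_st_inl.1 h')), if_neg h, Int.cast_zero, mul_zero]
      rw [Finset.sum_congr rfl fun j _ => e1 j, Fintype.sum_prod_type]
      simp only [Finset.sum_ite_eq', Finset.mem_univ, if_true]
      exact hP.cover e
    · have e1 : ∀ j : J n, marg P j.1 j.2 * ((inc n j (.inr (v, c)) : ℤ) : ℝ) =
          if j.1 = c then (if v ∈ j.2.1 then marg P c j.2 else 0) else 0 := by
        intro j
        unfold inc
        by_cases h : j.1 = c
        · by_cases h' : v ∈ j.2.1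
          · rw [if_pos (mem_st_inr.2 ⟨h, h'⟩), if_pos h, if_pos h', h, Int.cast_one, mul_one]
          · rw [if_neg (fun h'' => h' (mem_st_inr.1 h'').2), if_pos h, if_neg h', Int.cast_zero,
              mul_zero]
        · rw [if_neg (fun h'' => h (mem_st_inr.1 h'').1), if_neg h, Int.cast_zero, mul_zero]
      rw [Finset.sum_congr rfl fun j _ => e1 j, Fintype.sum_prod_type,
        Finset.sum_eq_single c (fun c' _ hc' => by simp [hc']) (fun h => absurd (mem_univ _) h)]
      simp only [if_true]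
      unfold marg
      have e2 : ∀ e : Edge (Fin (2 * n)), (if v ∈ e.1 then
          ∑ M : Finset (Edge (Fin (2 * n))), (if e ∈ M then P c M else 0) else 0) =
          ∑ M : Finset (Edge (Fin (2 * n))), if e ∈ M ∧ v ∈ e.1 then P c M else 0 := by
        intro e
        by_cases h : v ∈ e.1
        · simp [h]
        · simp [h]
      rw [Finset.sum_congr rfl fun e _ => e2 e, Finset.sum_comm, ← hP.one c]
      refine Finset.sum_congr rfl fun M _ => ?_
      by_cases h0 : P c M = 0
      · simp [h0]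
      · obtain ⟨e, he, hu⟩ := hP.match_ c M h0 v
        rw [Finset.sum_eq_single e]
        · rw [if_pos he]
        · intro e' _ hne
          rw [if_neg]
          exact fun h => hne (hu e' h)
        · intro h
          exact absurd (mem_univ _) h

/-- above the threshold -/
theorem aboveK {ε : ℝ} (hε : 0 < ε) (κ : ℝ) (hκ : 0 < κ) :
    ∀ᶠ n : ℕ in atTop, ∀ p : ℝ, (1 + ε) * Real.log n / n ≤ p → p ≤ 1 →
      1 - κ ≤ listProb n p (fun L => IntW n (fun c e => c ∈ L e) ∧ KF n (fun c e => c ∈ L e)) := by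
  obtain ⟨a, b, ha, hb, h⟩ := FR.above hε
  filter_upwards [h (κ / 2) (by positivity), above hε (κ / 2) (by positivity),
    eventually_ge_atTop 2] with n h1 h2 hn p hp hp1
  have hn0 : (2 : ℝ) ≤ n := by exact_mod_cast hn
  have hp0 : 0 < p := by
    refine lt_of_lt_of_le ?_ hp
    have := Real.log_pos (x := n) (by linarith)
    positivity
  have h3 := h1 p hp hp1
  have h4 := h2 p hp hp1
  rw [listProb_eq] at h3 h4 ⊢
  have hq := qq_nonneg hp0.le le_rfl hp1
  have hs := qq_sum p p
  rw [← sub_nonneg] at h3 h4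
  have e1 := Pr_not hs (fun s : J n → Fin 3 =>
    GoodCol n p a b (fun e => univ.filter (fun c => s (c, e) ≠ 0)))
  have e2 := Pr_not hs (fun s : J n → Fin 3 =>
    IntW n (fun c e => c ∈ (univ.filter (fun c => s (c, e) ≠ 0) : Finset _)))
  have e3 := Pr_not hs (fun s : J n → Fin 3 =>
    IntW n (fun c e => c ∈ (univ.filter (fun c => s (c, e) ≠ 0) : Finset _)) ∧
      KF n (fun c e => c ∈ (univ.filter (fun c => s (c, e) ≠ 0) : Finset _)))
  have e4 : Pr (qq p p) (fun s : J n → Fin 3 => ¬ (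
      IntW n (fun c e => c ∈ (univ.filter (fun c => s (c, e) ≠ 0) : Finset _)) ∧
      KF n (fun c e => c ∈ (univ.filter (fun c => s (c, e) ≠ 0) : Finset _)))) ≤
      Pr (qq p p) (fun s : J n → Fin 3 =>
        ¬ GoodCol n p a b (fun e => univ.filter (fun c => s (c, e) ≠ 0)) ∨
        ¬ IntW n (fun c e => c ∈ (univ.filter (fun c => s (c, e) ≠ 0) : Finset _))) := by
    refine Pr_mono hq fun s hs' => ?_
    by_contra hcon
    simp only [not_or, not_not] at hcon
    exact hs' ⟨hcon.2, kf_of_good (by omega) hp0 ha hcon.1 hcon.2⟩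
  have e5 := Pr_or hq (fun s : J n → Fin 3 =>
    ¬ GoodCol n p a b (fun e => univ.filter (fun c => s (c, e) ≠ 0)))
    (fun s => ¬ IntW n (fun c e => c ∈ (univ.filter (fun c => s (c, e) ≠ 0) : Finset _)))
  linarith

/-- **the sharp threshold** for integer weights and for multiple colourings -/
theorem thresholdK :
    (∀ ε : ℝ, 0 < ε → ∀ p : ℕ → ℝ,
      (∀ᶠ n : ℕ in atTop, (1 + ε) * Real.log n / n ≤ p n ∧ p n ≤ 1) →
      Tendsto (fun n => listProb n (p n) (fun L => IntW n (fun c e => c ∈ L e) ∧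
        KF n (fun c e => c ∈ L e))) atTop (𝓝 1)) ∧
    (∀ ε : ℝ, 0 < ε → ∀ p : ℕ → ℝ,
      (∀ᶠ n : ℕ in atTop, 0 ≤ p n ∧ p n ≤ (1 - ε) * Real.log n / n) →
      Tendsto (fun n => listProb n (p n) (fun L =>
        ∃ w : Fin (2 * n - 1) → Edge (Fin (2 * n)) → ℤ, (∀ c e, w c e ≠ 0 → c ∈ L e) ∧
          ∀ e, ∑ c, w c e ≠ 0)) atTop (𝓝 0)) := by
  constructor
  · intro ε hε p hp
    rw [Metric.tendsto_nhds]
    intro κ hκ
    filter_upwards [aboveK hε (κ / 2) (by positivity), hp, eventually_ge_atTop 1] with n h1 h2 hn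
    have h3 := h1 (p n) h2.1 h2.2
    have hn0 : (1 : ℝ) ≤ n := by exact_mod_cast hn
    have hp0 : 0 ≤ p n := by
      refine le_trans ?_ h2.1
      have := Real.log_nonneg hn0
      positivity
    have h4 : listProb n (p n) (fun L => IntW n (fun c e => c ∈ L e) ∧
        KF n (fun c e => c ∈ L e)) ≤ 1 := by
      rw [listProb_eq]
      exact Pr_le_one (qq_nonneg hp0 le_rfl h2.2) (qq_sum _ _) _
    rw [Real.dist_eq, abs_lt]
    constructor <;> linarith
  · intro ε hε p hp
    rw [Metric.tendsto_nhds]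
    intro κ hκ
    obtain ⟨n₀, hn₀⟩ := some_empty hε hκ
    filter_upwards [hp, eventually_ge_atTop n₀, eventually_ge_atTop 1] with n h2 hn hn1
    have h3 := hn₀ n hn (p n) h2.1 h2.2
    have hn0 : (1 : ℝ) ≤ n := by exact_mod_cast hn1
    have hp1 : p n ≤ 1 := by
      refine h2.2.trans ?_
      rw [div_le_one (by linarith)]
      have h5 := Real.log_nonneg hn0
      have h6 := Real.log_le_sub_one_of_pos (x := n) (by linarith)
      nlinarith
    have hq := qq_nonneg h2.1 le_rfl hp1
    set Q : (Edge (Fin (2 * n)) → Finset (Fin (2 * n - 1))) → Prop := fun L =>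
        ∃ w : Fin (2 * n - 1) → Edge (Fin (2 * n)) → ℤ, (∀ c e, w c e ≠ 0 → c ∈ L e) ∧
          ∀ e, ∑ c, w c e ≠ 0 with hQ
    have h4 : listProb n (p n) Q ≤ listProb n (p n) (fun L => ∀ e, (L e).Nonempty) := by
      rw [listProb_eq, listProb_eq]
      refine Pr_mono hq fun s hs e => ?_
      obtain ⟨w, hw1, hw2⟩ := hs
      obtain ⟨c, _, hc⟩ := Finset.exists_ne_zero_of_sum_ne_zero (hw2 e)
      exact ⟨c, hw1 c e hc⟩
    have h5 : 0 ≤ listProb n (p n) Q := by
      rw [listProb_eq]
      exact Pr_nonneg hq _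
    rw [Real.dist_eq, sub_zero, abs_of_nonneg h5]
    linarith

end Pool.Agent.Lib.LT
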