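import Pool.Agent.Lib.MP_6d56f7_co_LT.CovLim
import Pool.Agent.Lib.MP_6d56f7_co_LT.HitQ
import Pool.Agent.Lib.MP_6d56f7_co_LT.ThrK

/-!
# List edge-colourings of multiple complete graphs: random lists
-/

set_option autoImplicit false

namespace Pool.Agent.Lib.LT

open Finset Filter Topology Pool.Agent.Lib.FR

/-- the number of the elements with small images -/
private theorem card_lt' {n m : ℕ} (σ : J n ≃ Fin m) (t : ℕ) (ht : t ≤ m) :
    (univ.filter (fun j : J n => (σ j : ℕ) < t)).card = t := by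
  classical
  have h1 : (univ.filter (fun j : J n => (σ j : ℕ) < t)).map σ.toEmbedding =
      univ.filter (fun i : Fin m => (i : ℕ) < t) := by
    ext i
    simp only [Finset.mem_map, mem_filter, mem_univ, true_and, Equiv.coe_toEmbedding]
    constructor
    · rintro ⟨j, hj, rfl⟩
      exact hj
    · intro hi
      exact ⟨σ.symm i, by simpa using hi, by simp⟩
  have h2 := congrArg Finset.card h1
  rw [card_map] at h2
  rw [h2, Fin.card_filter_val_lt]
  exact min_eq_right ht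

/-- the nonzero states are an initial segment of every compatible ordering -/
private theorem nz_seg {n m : ℕ} (σ : J n ≃ Fin m) (s : J n → Fin 3) (hc : Compat σ s)
    (j : J n) : s j ≠ 0 ↔ (σ j : ℕ) < (univ.filter (fun i : J n => s i ≠ 0)).card := by
  classical
  have hlt : ∀ i j, s i ≠ 0 → s j = 0 → (σ i : ℕ) < (σ j : ℕ) := by
    intro i j hi hj
    have h1 : s j < s i := by
      rw [hj]
      exact Fin.pos_iff_ne_zero.mpr hi
    exact hc i j h1
  constructor
  · intro hj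
    have h1 : univ.filter (fun i => (σ i : ℕ) < (σ j : ℕ) + 1) ⊆
        univ.filter (fun i : J n => s i ≠ 0) := by
      intro i hi
      have h2 := (mem_filter.mp hi).2
      refine mem_filter.mpr ⟨mem_univ _, ?_⟩
      intro h3
      have h4 := hlt j i hj h3
      omega
    have h2 := card_le_card h1
    rw [card_lt' σ _ (σ j).2] at h2
    omega
  · intro hj h0
    have h1 : univ.filter (fun i : J n => s i ≠ 0) ⊆
        univ.filter (fun i => (σ i : ℕ) < (σ j : ℕ)) := by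
      intro i hi
      exact mem_filter.mpr ⟨mem_univ _, hlt i j (mem_filter.mp hi).2 h0⟩
    have h2 := card_le_card h1
    rw [card_lt' σ _ (σ j).2.le] at h2
    omega

/-- with high probability, uniformly in the density, covering systems have the decompositions -/
theorem km_of_cov {κ : ℝ} (hκ : 0 < κ) : ∀ᶠ n : ℕ in atTop, ∀ p : ℝ, 0 ≤ p → p ≤ 1 →
    listProb n p (fun L => Cov n L ∧ ¬ KM n (fun c e => c ∈ L e)) ≤ κ := by
  have h0 := hittingQ
  rw [Metric.tendsto_nhds] at h0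
  filter_upwards [h0 κ hκ] with n h1 p hp hp1
  rw [Real.dist_eq, abs_lt] at h1
  have hq := qq_nonneg hp le_rfl hp1
  have hs := qq_sum p p
  rw [listProb_eq]
  have e1 := Pr_not hs (fun s : J n → Fin 3 =>
    Cov n (fun e => univ.filter (fun c => s (c, e) ≠ 0)) ∧
      ¬ KM n (fun c e => c ∈ (univ.filter (fun c => s (c, e) ≠ 0) : Finset _)))
  have e2 := mix (J := J n) (m := Nat.card (J n)) Nat.card_eq_fintype_card.symm (qq p p) hq hs
    (fun σ => ∀ t : ℕ,
      (∀ e : Edge (Fin (2 * n)), ∃ c : Fin (2 * n - 1), (σ (c, e) : ℕ) < t) →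
      (∀ v : Fin (2 * n), ∀ c : Fin (2 * n - 1),
        ∃ e : Edge (Fin (2 * n)), v ∈ e.1 ∧ (σ (c, e) : ℕ) < t) →
      KM n (fun c e => (σ (c, e) : ℕ) < t))
    (fun s : J n → Fin 3 => ¬ (
      Cov n (fun e => univ.filter (fun c => s (c, e) ≠ 0)) ∧
      ¬ KM n (fun c e => c ∈ (univ.filter (fun c => s (c, e) ≠ 0) : Finset _)))) (by
    intro σ s hc hg hcon
    apply hcon.2
    have h2 := hg (univ.filter (fun i : J n => s i ≠ 0)).card (by
      intro e
      obtain ⟨c, h3⟩ := hcon.1.1 e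
      exact ⟨c, (nz_seg σ s hc (c, e)).1 (mem_filter.mp h3).2⟩) (by
      intro v c
      obtain ⟨e, h3, h4⟩ := hcon.1.2 v c
      exact ⟨e, h3, (nz_seg σ s hc (c, e)).1 (mem_filter.mp h4).2⟩)
    exact h2.mono fun c e h3 => mem_filter.mpr ⟨mem_univ _, (nz_seg σ s hc (c, e)).2 h3⟩)
  linarith [h1.1, e1, e2]

/-- decompositions exist only in covering systems -/
theorem cov_of_km {n : ℕ} {L : Edge (Fin (2 * n)) → Finset (Fin (2 * n - 1))}
    (h : KM n (fun c e => c ∈ L e)) : Cov n L := by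
  obtain ⟨K₀, hK⟩ := h
  obtain ⟨M, h1, h2, h3⟩ := hK (K₀ + 1) (by omega)
  constructor
  · intro e
    have h4 : 0 < (univ.filter (fun p : Fin (2 * n - 1) × Fin (K₀ + 1) =>
        e ∈ M p.1 p.2)).card := by
      rw [h3 e]
      omega
    obtain ⟨p, hp⟩ := card_pos.mp h4
    exact ⟨p.1, h2 p.1 p.2 e (mem_filter.mp hp).2⟩
  · intro v c
    obtain ⟨e, ⟨he, hv⟩, _⟩ := h1 c 0 v
    exact ⟨e, hv, h2 c 0 e he⟩

private theorem listProb_split {n : ℕ} {p : ℝ}
    (A B : (Edge (Fin (2 * n)) → Finset (Fin (2 * n - 1))) → Prop) (h : ∀ L, B L → A L) :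
    listProb n p B = listProb n p A - listProb n p (fun L => A L ∧ ¬ B L) := by
  classical
  unfold listProb
  rw [← Finset.sum_sub_distrib]
  refine Finset.sum_congr rfl fun L _ => ?_
  by_cases hB : B L
  · have hA := h L hB
    rw [if_pos hB, if_pos hA, if_neg (fun h' => h'.2 hB), sub_zero]
  · by_cases hA : A L
    · rw [if_neg hB, if_pos hA, if_pos ⟨hA, hB⟩, sub_self]
    · rw [if_neg hB, if_neg hA, if_neg (fun h' => hA h'.1), sub_self]

private theorem km_tendsto (p : ℕ → ℝ) (hp : ∀ᶠ n : ℕ in atTop, 0 ≤ p n ∧ p n ≤ 1) :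
    Tendsto (fun n => listProb n (p n) (fun L => Cov n L ∧ ¬ KM n (fun c e => c ∈ L e)))
      atTop (𝓝 0) := by
  rw [Metric.tendsto_nhds]
  intro κ hκ
  filter_upwards [km_of_cov (κ := κ / 2) (by positivity), hp] with n h1 h2
  have h3 := h1 (p n) h2.1 h2.2
  have h4 : 0 ≤ listProb n (p n) (fun L => Cov n L ∧ ¬ KM n (fun c e => c ∈ L e)) := by
    rw [listProb_eq]
    exact Pr_nonneg (qq_nonneg h2.1 le_rfl h2.2) _
  rw [Real.dist_eq, sub_zero, abs_of_nonneg h4]
  linarith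

private theorem km_of_cov_tendsto {l : ℝ} (p : ℕ → ℝ)
    (hp : ∀ᶠ n : ℕ in atTop, 0 ≤ p n ∧ p n ≤ 1)
    (h : Tendsto (fun n : ℕ => listProb n (p n) (Cov n)) atTop (𝓝 l)) :
    Tendsto (fun n => listProb n (p n) (fun L => KM n (fun c e => c ∈ L e))) atTop (𝓝 l) := by
  have h1 := h.sub (km_tendsto p hp)
  rw [sub_zero] at h1
  refine h1.congr fun n => ?_
  exact (listProb_split (Cov n) (fun L => KM n (fun c e => c ∈ L e))
    (fun L hL => cov_of_km hL)).symm

/-- decompositions in random list systems -/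
theorem thresholdQ :
    (∀ p : ℕ → ℝ, (∀ᶠ n : ℕ in atTop, 0 ≤ p n ∧ p n ≤ 1) →
      Tendsto (fun n => listProb n (p n) (fun L => Cov n L ∧ ¬ KM n (fun c e => c ∈ L e)))
        atTop (𝓝 0)) ∧
    (∀ (x : ℝ) (p : ℕ → ℝ), (∀ᶠ n : ℕ in atTop, 0 ≤ p n ∧ p n ≤ 1) →
      Tendsto (fun n : ℕ => n * p n - Real.log n) atTop (𝓝 x) →
      Tendsto (fun n => listProb n (p n) (fun L => KM n (fun c e => c ∈ L e))) atTop
        (𝓝 (Real.exp (-(6 * Real.exp (-(2 * x))))))) ∧
    (∀ ε : ℝ, 0 < ε → ∀ p : ℕ → ℝ,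
      (∀ᶠ n : ℕ in atTop, (1 + ε) * Real.log n / n ≤ p n ∧ p n ≤ 1) →
      Tendsto (fun n => listProb n (p n) (fun L => KM n (fun c e => c ∈ L e))) atTop (𝓝 1)) ∧
    (∀ ε : ℝ, 0 < ε → ∀ p : ℕ → ℝ,
      (∀ᶠ n : ℕ in atTop, 0 ≤ p n ∧ p n ≤ (1 - ε) * Real.log n / n) →
      Tendsto (fun n => listProb n (p n) (fun L =>
        ∃ w : Fin (2 * n - 1) → Edge (Fin (2 * n)) → ℤ, (∀ c e, w c e ≠ 0 → c ∈ L e) ∧
          ∀ e, ∑ c, w c e ≠ 0)) atTop (𝓝 0)) := by
  refine ⟨km_tendsto, ?_, ?_, thresholdK.2⟩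
  · intro x p hp hx
    exact km_of_cov_tendsto p hp (cover_limit x p hp hx)
  · intro ε hε p hp
    refine km_of_cov_tendsto p ?_ (cover_one hε p hp)
    filter_upwards [hp, eventually_ge_atTop 1] with n h2 hn
    have hn0 : (1 : ℝ) ≤ n := by exact_mod_cast hn
    refine ⟨le_trans ?_ h2.1, h2.2⟩
    have := Real.log_nonneg hn0
    positivity

end Pool.Agent.Lib.LT
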